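import Pool.Agent.Mg.F5f4cdd.Gbbe968

section

set_option autoImplicit false
open MeasureTheory ENNReal Set Matrix Topology Filter

namespace Pool.Agent.MP_5f4cdd_gt

variable {m : ℕ}

/-- `K` is squeezed between two centred simplices and touches the facet centroids -/
structure Near (K : Set (E (m + 1))) (δ : ℝ) : Prop where
  conv : Convex ℝ K
  cl : IsClosed K
  lt : δ < 1
  inner : cS (m + 1) (1 - δ) ⊆ K
  outer : K ⊆ cS (m + 1) 1
  cen : ∀ j, Pj (m + 1) j (uu m) ∈ K

/-- gauge of `K` on the facet `j` -/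
noncomputable def gj (K : Set (E (m + 1))) (j : Fin (m + 2)) (l : E (m + 1)) : ℝ :=
  gauge K (Pj (m + 1) j l)

variable {K : Set (E (m + 1))} {δ : ℝ}

lemma Near.nhds (h : Near K δ) : K ∈ 𝓝 (0 : E (m + 1)) :=
  Filter.mem_of_superset (cS_mem_nhds (by linarith [h.lt])) h.inner

lemma Near.mem (h : Near K δ) (x : E (m + 1)) : x ∈ K ↔ gauge K x ≤ 1 := by
  rw [gauge_le_one_iff_mem_closure h.conv h.nhds, h.cl.closure_eq]

lemma Near.one_le (h : Near K δ) (j : Fin (m + 2)) {l : E (m + 1)}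
    (hl : l ∈ stdSimplex ℝ (Fin (m + 1))) : 1 ≤ gj K j l := by
  by_contra hc
  push Not at hc
  have h0 : 0 ≤ gj K j l := gauge_nonneg _
  have h1 : (2 / (1 + gj K j l)) • Pj (m + 1) j l ∈ K := by
    rw [h.mem, gauge_smul_of_nonneg (by positivity), smul_eq_mul, div_mul_eq_mul_div,
      div_le_one (by positivity)]
    change 2 * gj K j l ≤ _
    linarith
  have h2 := (smul_Pj_mem_cS j hl (by positivity)).1 (h.outer h1)
  rw [div_le_one (by positivity)] at h2
  linarith

lemma Near.le (h : Near K δ) (j : Fin (m + 2)) {l : E (m + 1)}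
    (hl : l ∈ stdSimplex ℝ (Fin (m + 1))) : (1 - δ) * gj K j l ≤ 1 := by
  have h1 := h.inner ((smul_Pj_mem_cS j hl (s := 1 - δ) (by linarith [h.lt])).2 le_rfl)
  rwa [h.mem, gauge_smul_of_nonneg (by linarith [h.lt]), smul_eq_mul] at h1

lemma Near.mem_iff (h : Near K δ) (j : Fin (m + 2)) {l : E (m + 1)}
    (hl : l ∈ stdSimplex ℝ (Fin (m + 1))) {s : ℝ} (hs : 0 < s) :
    s • Pj (m + 1) j l ∈ cS (m + 1) 1 \ K ↔ s ∈ Ioc (gj K j l)⁻¹ 1 := by
  have h0 : 0 < gj K j l := lt_of_lt_of_le one_pos (h.one_le j hl)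
  simp only [Set.mem_sdiff, smul_Pj_mem_cS j hl hs.le, mem_Ioc, h.mem, not_le,
    gauge_smul_of_nonneg hs.le, smul_eq_mul]
  rw [inv_lt_iff_one_lt_mul₀ h0]
  tauto

lemma Near.meas (h : Near K δ) : MeasurableSet (cS (m + 1) 1 \ K) :=
  (measurableSet_cS 1).diff h.cl.measurableSet

lemma Near.convexOn (h : Near K δ) (j : Fin (m + 2)) :
    ConvexOn ℝ univ fun l => gj K j l - 1 := by
  refine ⟨convex_univ, fun x _ y _ a b ha hb hab => ?_⟩
  have := (convexOn_gauge h.conv h.nhds).2 (mem_univ (Pj (m + 1) j x))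
    (mem_univ (Pj (m + 1) j y)) ha hb hab
  simp only [gj, map_add, map_smul, smul_eq_mul] at this ⊢
  nlinarith

lemma Near.measurable (h : Near K δ) (j : Fin (m + 2)) : Measurable fun l => gj K j l - 1 :=
  (((continuous_gauge h.conv h.nhds).measurable).comp (measurable_lin _)).sub_const 1

lemma Near.gj_uu (h : Near K δ) (j : Fin (m + 2)) : gj K j (uu m) - 1 = 0 :=
  sub_eq_zero.2 (le_antisymm ((h.mem _).1 (h.cen j)) (h.one_le j uu_mem))

lemma Near.vol_le (h : Near K δ) : volume (cS (m + 1) 1 \ K) ≤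
    ∑ j, kap (m + 1) * ∫⁻ l, ENNReal.ofReal (gj K j l - 1) ∂mu m := by
  rw [← lintegral_indicator_one h.meas, lintegral_radial' (measurable_one.indicator h.meas)]
  refine Finset.sum_le_sum fun j _ => mul_le_mul_right (lintegral_mono_ae ?_) _
  filter_upwards [ae_mu] with l hl
  have h1 := h.one_le j hl
  calc _ ≤ ∫⁻ s in Ioi (0 : ℝ), (Ioc (gj K j l)⁻¹ 1).indicator 1 s := by
        refine setLIntegral_mono' measurableSet_Ioi fun s hs => ?_
        by_cases hs' : s ∈ Ioc (gj K j l)⁻¹ 1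
        · rw [indicator_of_mem hs', indicator_of_mem ((h.mem_iff j hl hs).2 hs')]
          simpa using pow_le_one₀ (le_of_lt hs) hs'.2
        · rw [indicator_of_notMem (fun h' => hs' ((h.mem_iff j hl hs).1 h'))]; simp
    _ ≤ ∫⁻ s, (Ioc (gj K j l)⁻¹ 1).indicator 1 s := setLIntegral_le_lintegral _ _
    _ = ENNReal.ofReal (1 - (gj K j l)⁻¹) := by
        rw [lintegral_indicator_one measurableSet_Ioc, Real.volume_Ioc]
    _ ≤ _ := by
        refine ENNReal.ofReal_le_ofReal ?_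
        have h2 : (gj K j l)⁻¹ * gj K j l = 1 := inv_mul_cancel₀ (by linarith)
        have h3 : 0 < (gj K j l)⁻¹ := by positivity
        nlinarith [sq_nonneg (gj K j l - 1), mul_nonneg h3.le (sq_nonneg (gj K j l - 1))]

lemma Near.int_ge (h : Near K δ) {Φ : E (m + 1) → ℝ} (hΦ : Measurable Φ)
    (hsym : ∀ σ z, Φ (Tp σ z) = Φ z) {τ : ℝ} (hτ : 0 ≤ τ)
    (hH : ∀ z ∈ cS (m + 1) 1, ∀ s, 1 - δ ≤ s → s ≤ 1 → τ * Φ z ≤ Φ (s • z)) :
    ENNReal.ofReal (τ * (1 - δ) ^ (m + 1)) * ∑ j, kap (m + 1) *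
      ∫⁻ l, ENNReal.ofReal (Φ (A0 (m + 1) l)) * ENNReal.ofReal (gj K j l - 1) ∂mu m ≤
    ∫⁻ z in cS (m + 1) 1 \ K, ENNReal.ofReal (Φ z) := by
  have hδ : 0 < 1 - δ := by linarith [h.lt]
  rw [← lintegral_indicator h.meas,
    lintegral_radial' (hΦ.ennreal_ofReal.indicator h.meas), Finset.mul_sum]
  refine Finset.sum_le_sum fun j _ => ?_
  rw [mul_left_comm, ← lintegral_const_mul' _ _ ENNReal.ofReal_ne_top]
  refine mul_le_mul_right (lintegral_mono_ae ?_) _
  filter_upwards [ae_mu] with l hl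
  have h1 := h.one_le j hl
  have h0 : 0 < gj K j l := lt_of_lt_of_le one_pos h1
  have h4 : 1 - δ ≤ (gj K j l)⁻¹ := by
    rw [le_inv_comm₀ hδ h0, ← one_div, le_div_iff₀ hδ, mul_comm]
    exact h.le j hl
  have hsub : Ioc (gj K j l)⁻¹ 1 ⊆ Ioi 0 := fun s hs => lt_trans (by positivity) hs.1
  calc _ = (ENNReal.ofReal ((1 - δ) ^ m) * (ENNReal.ofReal τ *
          ENNReal.ofReal (Φ (A0 (m + 1) l)))) *
          (ENNReal.ofReal (1 - δ) * ENNReal.ofReal (gj K j l - 1)) := by
        rw [ENNReal.ofReal_mul hτ, pow_succ, ENNReal.ofReal_mul (by positivity)]; ring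
    _ ≤ (ENNReal.ofReal ((1 - δ) ^ m) * (ENNReal.ofReal τ *
          ENNReal.ofReal (Φ (A0 (m + 1) l)))) * ENNReal.ofReal (1 - (gj K j l)⁻¹) := by
        rw [← ENNReal.ofReal_mul hδ.le]
        refine mul_le_mul_right (ENNReal.ofReal_le_ofReal ?_) _
        have h2 : (gj K j l)⁻¹ * gj K j l = 1 := inv_mul_cancel₀ h0.ne'
        nlinarith [mul_le_mul_of_nonneg_right h4 (sub_nonneg.2 h1)]
    _ = ∫⁻ _s in Ioc (gj K j l)⁻¹ 1, ENNReal.ofReal ((1 - δ) ^ m) * (ENNReal.ofReal τ *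
          ENNReal.ofReal (Φ (A0 (m + 1) l))) := by
        rw [setLIntegral_const, Real.volume_Ioc]
    _ ≤ ∫⁻ s in Ioc (gj K j l)⁻¹ 1, ENNReal.ofReal (s ^ m) *
          (cS (m + 1) 1 \ K).indicator (fun z => ENNReal.ofReal (Φ z)) (s • Pj (m + 1) j l) := by
        refine setLIntegral_mono' measurableSet_Ioc fun s hs => ?_
        rw [indicator_of_mem ((h.mem_iff j hl (hsub hs)).2 hs), ← ENNReal.ofReal_mul hτ]
        refine mul_le_mul' (ENNReal.ofReal_le_ofReal
          (pow_le_pow_left₀ hδ.le (h4.trans hs.1.le) _)) (ENNReal.ofReal_le_ofReal ?_)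
        rw [← hsym (Equiv.swap 0 j)]
        exact hH _ (Pj_mem j hl) s (h4.trans hs.1.le) hs.2
    _ ≤ _ := lintegral_mono_set hsub

lemma kap_mul_mu : (kap (m + 1)).toReal * (mu m univ).toReal =
    (m + 1) / (m + 2) * (volume (cS (m + 1) 1)).toReal := by
  rw [← mu_univ, mu_succ_univ, lintegral_pow_Ioc]
  simp only [ENNReal.toReal_mul, ENNReal.toReal_natCast]
  rw [ENNReal.toReal_ofReal (by positivity)]
  push_cast
  field_simp

lemma Pj_lam {k : ℕ} (i : Fin (k + 1)) {w : E k} (hw : lam w i = 0) :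
    ∑ t : Fin k, lam w (Equiv.swap 0 i t.succ) = 1 ∧
      Pj k i (fun t => lam w (Equiv.swap 0 i t.succ)) = w := by
  have h1 : ∑ t : Fin k, lam w (Equiv.swap 0 i t.succ) = 1 := by
    have h := (Equiv.sum_comp (Equiv.swap 0 i) (lam w)).trans (sum_lam w)
    rwa [Fin.sum_univ_succ, Equiv.swap_apply_left, hw, zero_add] at h
  refine ⟨h1, bet_injective ?_⟩
  rw [bet_Pj i h1]
  ext t
  have h2 : ∀ s, (Fin.cons 0 (fun t => lam w (Equiv.swap 0 i t.succ)) : E (k + 1)) s =
      lam w (Equiv.swap 0 i s) := fun s => by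
    refine Fin.cases ?_ (fun _ => rfl) s
    rw [Equiv.swap_apply_left, hw]; rfl
  simp only [Function.comp_apply, Pi.sub_apply, h2, Equiv.swap_apply_self]
  simp only [uu, lam]
  ring

/-- the missing volume in terms of the margins of `K` near the vertices -/
lemma vol_le_margins (m : ℕ) : ∃ κ : ℝ, 0 < κ ∧ κ ≤ 1 ∧ ∀ e : ℝ, 0 < e → ∃ c : ℝ, 0 < c ∧
    ∀ (K : Set (E (m + 1))) (δ : ℝ), Near K δ → 0 ≤ δ → δ ≤ 1 / 2 → δ ≤ c →
      ∃ r : Fin (m + 2) → Fin (m + 2) → ℝ, (∀ j i, 0 ≤ r j i) ∧ (∀ j, ∑ i, r j i ≤ δ) ∧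
        (∀ j, r j j = 0) ∧
        (∀ j, ∀ x ∈ K, 1 - c ≤ lam x j → ∀ i, i ≠ j → r j i ≤ lam x i) ∧
        (volume (cS (m + 1) 1 \ K)).toReal ≤
          ((1 - κ) / (1 - δ) * ∑ j, ∑ i, r j i + e * δ) * (volume (cS (m + 1) 1)).toReal := by
  obtain ⟨κ, hκ0, hκ1, hκ⟩ := facet_bound m
  have hm1 : (0 : ℝ) < m + 1 := by positivity
  have hm2 : (0 : ℝ) < m + 2 := by positivity
  have hcast : ((m + 1 : ℕ) : ℝ) + 1 = m + 2 := by push_cast; ring
  refine ⟨κ, hκ0, hκ1, fun e he => ?_⟩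
  obtain ⟨d, hd, hfb⟩ := hκ (e / (2 * (m + 1))) (by positivity)
  refine ⟨d / 3, by positivity, fun K δ h hδ0 hδ1 hδc => ?_⟩
  have hδ : 0 < 1 - δ := by linarith
  have hKk : IsCompact K := (isCompact_cS zero_le_one).of_isClosed_subset h.cl h.outer
  have hv : ∀ j, (1 - δ) • vtx (m + 1) j ∈ K ∩ corner (m + 1) j (d / 3) := by
    intro j
    have h1 : (1 - δ) • vtx (m + 1) j ∈ K := h.inner (by
      simpa using (smul_mem_cS (r := 1) hδ).2 (vtx_mem j))
    refine ⟨h1, h.outer h1, ?_⟩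
    rw [lam_smul, lam_vtx, Pi.single_eq_same]
    have : 0 ≤ (1 - (1 - δ)) / (((m + 1 : ℕ) : ℝ) + 1) := div_nonneg (by linarith) (by positivity)
    linarith
  have hex : ∀ j i, ∃ x ∈ K ∩ corner (m + 1) j (d / 3),
      IsMinOn (fun x => lam x i) (K ∩ corner (m + 1) j (d / 3)) x := fun j i =>
    (hKk.inter_right (isClosed_corner j _)).exists_isMinOn ⟨_, hv j⟩
      (continuous_lam i).continuousOn
  choose x hx hmin using hex
  set r : Fin (m + 2) → Fin (m + 2) → ℝ := fun j i => if i = j then 0 else lam (x j i) i with hr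
  have hr0 : ∀ j i, 0 ≤ r j i := fun j i => by
    simp only [hr]; split_ifs
    · exact le_rfl
    · exact mem_cS_one.1 (hx j i).2.1 i
  have hr1 : ∀ j i, (m + 2) * r j i ≤ δ := fun j i => by
    simp only [hr]; split_ifs with hi
    · simpa using hδ0
    · have h1 : lam (x j i) i ≤ lam ((1 - δ) • vtx (m + 1) j) i := hmin j i (hv j)
      rw [lam_smul, lam_vtx, Pi.single_eq_of_ne hi, hcast, mul_zero, zero_add,
        le_div_iff₀ hm2] at h1
      linarith
  refine ⟨r, hr0, fun j => ?_, fun j => by simp [hr], fun j y hy hyj i hi => ?_, ?_⟩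
  · refine le_of_mul_le_mul_left ?_ hm2
    rw [Finset.mul_sum]
    refine (Finset.sum_le_sum fun i _ => hr1 j i).trans (le_of_eq ?_)
    simp
  · simp only [hr, if_neg hi]
    exact hmin j i ⟨hy, h.outer hy, hyj⟩
  have key : ∀ i, ∫⁻ l, ENNReal.ofReal (gj K i l - 1) ∂mu m ≤ ENNReal.ofReal ((1 - κ) / (m + 1) *
      ((m + 2) / (1 - δ) * ∑ j, r j i) + e / (2 * (m + 1)) * (2 * δ)) * mu m univ := by
    intro i
    set σ := Equiv.swap 0 i with hσ
    have hne : ∀ k : Fin (m + 1), i ≠ σ k.succ := fun k hk => Fin.succ_ne_zero k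
      (σ.injective (by rw [← hk, hσ, Equiv.swap_apply_left]))
    have hri : ∀ k : Fin (m + 1), r (σ k.succ) i = lam (x (σ k.succ) i) i := fun k => by
      simp only [hr, if_neg (hne k)]
    set c : Fin (m + 1) → ℝ := fun k => 1 - (m + 2) * r (σ k.succ) i with hc
    have hc1 : ∀ k, 1 - δ ≤ c k := fun k => by simp only [hc]; linarith [hr1 (σ k.succ) i]
    have hc0 : ∀ k, 0 < c k := fun k => hδ.trans_le (hc1 k)
    have hc2 : ∀ k, (c k)⁻¹ - 1 = (m + 2) * r (σ k.succ) i / c k := fun k => by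
      have := hc0 k
      field_simp
      simp only [hc]; ring
    have hw : ∀ k, lam ((c k)⁻¹ • x (σ k.succ) i) i = 0 := fun k => by
      have := hc0 k
      rw [lam_smul, ← hri, hcast]
      field_simp
      simp only [hc]; ring
    have h1 := hfb (fun l => gj K i l - 1) (2 * δ)
      (fun k t => lam ((c k)⁻¹ • x (σ k.succ) i) (σ t.succ))
      (fun k => (m + 2) / (1 - δ) * r (σ k.succ) i) (h.convexOn i) (by positivity)
      (fun l hl => by nlinarith [h.le i hl, h.one_le i hl]) (h.gj_uu i).le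
      (fun k => (Pj_lam i (hw k)).1)
      (fun k t => by
        have h2 := hx (σ k.succ) i
        have h3 : 0 ≤ (c k)⁻¹ - 1 := by
          rw [hc2]; exact div_nonneg (mul_nonneg hm2.le (hr0 _ _)) (hc0 k).le
        have h4 : (c k)⁻¹ - 1 ≤ 2 * δ := by
          rw [hc2, div_le_iff₀ (hc0 k)]
          nlinarith [hr1 (σ k.succ) i, hc1 k]
        have h5 := mem_cS_one.1 h2.2.1 (σ t.succ)
        have h6 := lam_le_one h2.2.1 (σ t.succ)
        have h7 : (0 : ℝ) < 1 / (m + 2) := by positivity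
        have h8 : (1 : ℝ) / (m + 2) ≤ 1 := by rw [div_le_one hm2]; linarith
        have h9 : lam ((c k)⁻¹ • x (σ k.succ) i) (σ t.succ) = lam (x (σ k.succ) i) (σ t.succ) +
            ((c k)⁻¹ - 1) * (lam (x (σ k.succ) i) (σ t.succ) - 1 / (m + 2)) := by
          rw [lam_smul, hcast]; ring
        have h10 : |((c k)⁻¹ - 1) * (lam (x (σ k.succ) i) (σ t.succ) - 1 / (m + 2))| ≤ 2 * δ := by
          rw [abs_mul, abs_of_nonneg h3]
          exact (mul_le_of_le_one_right h3 (abs_le.2 ⟨by linarith, by linarith⟩)).trans h4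
        have h11 := h2.2.2
        rw [h9, abs_le]
        rw [abs_le] at h10
        by_cases htk : t = k
        · subst htk
          rw [Pi.single_eq_same]
          constructor <;> linarith [h10.1, h10.2]
        · have h12 := lam_le h2.2.1 (k := σ t.succ) (j := σ k.succ)
            (σ.injective.ne (fun h => htk (Fin.succ_injective _ h)))
          rw [Pi.single_eq_of_ne htk]
          constructor <;> linarith [h10.1, h10.2])
      (fun k => by
        rw [gj, (Pj_lam i (hw k)).2, gauge_smul_of_nonneg (inv_pos.2 (hc0 k)).le, smul_eq_mul]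
        have h2 := mul_le_of_le_one_right (inv_pos.2 (hc0 k)).le ((h.mem _).1 (hx (σ k.succ) i).1)
        have h3 : (m + 2) * r (σ k.succ) i / c k ≤ (m + 2) / (1 - δ) * r (σ k.succ) i := by
          rw [div_mul_eq_mul_div]
          exact div_le_div_of_nonneg_left (mul_nonneg hm2.le (hr0 _ _)) hδ (hc1 k)
        linarith [hc2 k])
      (fun k => mul_nonneg (by positivity) (hr0 _ _))
    have h2 : ∑ k : Fin (m + 1), r (σ k.succ) i = ∑ j, r j i := by
      rw [← Equiv.sum_comp σ (fun j => r j i), Fin.sum_univ_succ (n := m + 1), hσ,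
        Equiv.swap_apply_left]
      simp [hr]
    rwa [← Finset.mul_sum, h2] at h1
  have hnn : ∀ i, 0 ≤ (1 - κ) / (m + 1) * ((m + 2) / (1 - δ) * ∑ j, r j i) +
      e / (2 * (m + 1)) * (2 * δ) := fun i => by
    have := Finset.sum_nonneg fun j (_ : j ∈ Finset.univ) => hr0 j i
    have : 0 ≤ 1 - κ := by linarith
    positivity
  have h3 := ENNReal.toReal_mono (ENNReal.sum_ne_top.2 fun i _ => ENNReal.mul_ne_top kap_ne_top
      (ENNReal.mul_ne_top ENNReal.ofReal_ne_top (measure_ne_top _ _)))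
    (h.vol_le.trans (Finset.sum_le_sum fun i _ => mul_le_mul_right (key i) _))
  rw [ENNReal.toReal_sum fun i _ => ENNReal.mul_ne_top kap_ne_top
      (ENNReal.mul_ne_top ENNReal.ofReal_ne_top (measure_ne_top _ _))] at h3
  simp only [ENNReal.toReal_mul, ENNReal.toReal_ofReal (hnn _), mul_left_comm (kap (m + 1)).toReal,
    kap_mul_mu, ← Finset.sum_mul, Finset.sum_add_distrib, ← Finset.mul_sum, Finset.sum_const,
    Finset.card_univ, Fintype.card_fin, nsmul_eq_mul] at h3
  rw [Finset.sum_comm]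
  refine h3.trans (le_of_eq ?_)
  push_cast
  field_simp

end Pool.Agent.MP_5f4cdd_gt

end

section

set_option autoImplicit false
open MeasureTheory ENNReal Set Matrix Topology Filter

namespace Pool.Agent.MP_5f4cdd_gt

variable {n m : ℕ}

lemma Psi_harnack' {p θ : ℝ} (hp : 1 ≤ p) {x : E n} (hx : x ∈ cS n 1) {s : ℝ} (hs0 : 0 < s)
    (hs1 : s ≤ 1) (hθ : p * (1 - s) ≤ θ) : ((1 + θ) ^ (3 * n))⁻¹ * Psi p x ≤ Psi p (s • x) := by
  have hp0 : 0 < p := by linarith
  have h0 : 0 ≤ p * (1 - s) := mul_nonneg hp0.le (by linarith)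
  have hθ0 : 0 ≤ θ := h0.trans hθ
  have hsx : s • x ∈ cS n (1 + 1 / p / 4) :=
    cS_mono (by have : 0 < 1 / p / 4 := by positivity
                linarith) ((smul_mem_cS hs0).2 hx)
  rw [inv_mul_le_iff₀ (by positivity)]
  refine (Psi_harnack hp0 hx hs0 hs1).trans (mul_le_mul_of_nonneg_right ?_ (Psi_pos hp0 hsx).le)
  have h1 : 1 / p ≤ 1 := (div_le_one hp0).2 hp
  calc _ ≤ (1 + θ) ^ ((n : ℝ) * (2 + 1 / p)) :=
        Real.rpow_le_rpow (by linarith) (by linarith) (by positivity)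
    _ ≤ (1 + θ) ^ ((3 * n : ℕ) : ℝ) := by
        refine Real.rpow_le_rpow_of_exponent_le (by linarith) ?_
        push_cast
        nlinarith [(Nat.cast_nonneg n : (0 : ℝ) ≤ n)]
    _ = _ := Real.rpow_natCast _ _

lemma off_mass {γ τ : ℝ} (hγ : 0 < γ) (hτ : 0 < τ) : ∀ᶠ p in atTop,
    ∫⁻ l in offV (m + 1) τ, ENNReal.ofReal (Psi p (A0 (m + 1) l)) ∂mu m ≤
      ENNReal.ofReal γ * ∫⁻ l, ENNReal.ofReal (Psi p (A0 (m + 1) l)) ∂mu m := by
  set U := (mu m univ).toReal with hU
  have hU0 : 0 < U := ENNReal.toReal_pos mu_univ_pos.ne' (measure_ne_top _ _)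
  set V := (volume (cS (m + 1) 1)).toReal with hV
  have hV0 : 0 < V :=
    ENNReal.toReal_pos (volume_cS_pos one_pos).ne' (volume_cS_lt_top zero_le_one).ne
  set k := (kap (m + 1)).toReal with hk
  have hk0 : 0 < k := ENNReal.toReal_pos kap_ne_zero kap_ne_top
  set c : ℝ := (1 / 2) ^ m * ((1 + 1) ^ (3 * (m + 1)))⁻¹ with hc
  have hc0 : 0 < c := by positivity
  filter_upwards [Psi_conc (n := m + 1) (η := γ * U * k * c / V) (δ := τ / 2) (by positivity)
    (by positivity), eventually_ge_atTop 2, eventually_gt_atTop (2 / τ)] with p h1 hp2 hpτ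
  have hp : 0 < p := by linarith
  set q := 1 / p with hq
  have hq0 : 0 < q := by positivity
  have hpq : p * q = 1 := by rw [hq]; field_simp
  have hq1 : q ≤ 1 / 2 := one_div_le_one_div_of_le two_pos hp2
  have hq2 : q < τ / 2 := by
    rw [div_lt_iff₀ hτ] at hpτ
    nlinarith
  set L := cS (m + 1) 1 ∩ ⋂ j, {z | lam z j < 1 - τ / 2} with hL
  have hLm : MeasurableSet L := (measurableSet_cS 1).inter (MeasurableSet.iInter fun j =>
    measurableSet_lt (continuous_lam j).measurable measurable_const)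
  have hR : L ⊆ cS (m + 1) (1 + q / 4) :=
    inter_subset_left.trans (cS_mono (le_add_of_nonneg_right (by positivity)))
  have h2 := h1 L hLm inter_subset_left fun x hx j => mem_iInter.1 hx.2 j
  have hN := nice_Psi (m := m) hp
  have hfm := hN.good.meas.ennreal_ofReal
  set F := ∫⁻ l, ENNReal.ofReal (Psi p (A0 (m + 1) l)) ∂mu m with hF
  have hFt : F ≠ ∞ := hN.F_ne_top
  set G := ∫⁻ l in offV (m + 1) τ, ENNReal.ofReal (Psi p (A0 (m + 1) l)) ∂mu m with hG
  have hGt : G ≠ ∞ := ne_top_of_le_ne_top hFt (setLIntegral_le_lintegral _ _)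
  have h3 : kap (m + 1) * (ENNReal.ofReal (c * q) * G) ≤ ∫⁻ z in L, ENNReal.ofReal (Psi p z) := by
    rw [← lintegral_indicator hLm,
      lintegral_radial' ((measurable_Psi p).ennreal_ofReal.indicator hLm)]
    refine le_trans ?_ (Finset.single_le_sum (fun _ _ => zero_le) (Finset.mem_univ 0))
    rw [hG, ← lintegral_indicator (measurableSet_offV τ),
      ← lintegral_const_mul' _ _ ENNReal.ofReal_ne_top]
    refine mul_le_mul_right (lintegral_mono_ae ?_) _
    filter_upwards [ae_mu] with l hl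
    by_cases hl' : l ∈ offV (m + 1) τ
    swap
    · rw [indicator_of_notMem hl']; simp
    rw [indicator_of_mem hl']
    have hsub : Ioc (1 - q) 1 ⊆ Ioi 0 := fun s hs => lt_trans (by linarith) hs.1
    calc _ = ∫⁻ _s in Ioc (1 - q) 1, ENNReal.ofReal c * ENNReal.ofReal (Psi p (A0 (m + 1) l)) := by
          rw [setLIntegral_const, Real.volume_Ioc, ENNReal.ofReal_mul hc0.le, _root_.sub_sub_cancel]
          ring
      _ ≤ ∫⁻ s in Ioc (1 - q) 1, ENNReal.ofReal (s ^ m) *
            L.indicator (fun z => ENNReal.ofReal (Psi p z)) (s • Pj (m + 1) 0 l) := by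
          refine setLIntegral_mono' measurableSet_Ioc fun s hs => ?_
          have hs0 : 0 < s := hsub hs
          rw [indicator_of_mem, hc, ENNReal.ofReal_mul (by positivity), mul_assoc,
            ← ENNReal.ofReal_mul (by positivity)]
          · refine mul_le_mul' (ENNReal.ofReal_le_ofReal (pow_le_pow_left₀ (by norm_num)
              (by linarith [hs.1]) _)) (ENNReal.ofReal_le_ofReal ?_)
            rw [← hN.Pj 0]
            exact Psi_harnack' (by linarith) (Pj_mem 0 hl) hs0 hs.2 (by nlinarith [hs.1])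
          · refine ⟨(smul_Pj_mem_cS 0 hl hs0.le).2 hs.2, mem_iInter.2 fun j => ?_⟩
            have h4 : lam (Pj (m + 1) 0 l) j = (Fin.cons 0 l : E (m + 2)) j := by
              simp [lam, bet_Pj 0 hl.2, uu]
            have h5 : (Fin.cons 0 l : E (m + 2)) j ≤ 1 - τ := by
              refine Fin.cases ?_ (fun i => hl' i) j
              exact (hl.1 0).trans (hl' 0)
            have h6 : 0 ≤ (Fin.cons 0 l : E (m + 2)) j := (cons_mem hl).1 j
            have h7 : (1 - s) / (((m + 1 : ℕ) : ℝ) + 1) ≤ 1 - s :=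
              div_le_self (by linarith [hs.2]) (by linarith [(Nat.cast_nonneg (m + 1) : (0 : ℝ) ≤ _)])
            simp only [mem_ofPred_eq]
            rw [lam_smul, h4]
            nlinarith [hs.1, hs.2]
      _ ≤ _ := lintegral_mono_set hsub
  have h4 := ENNReal.toReal_mono (lintegral_Psi_ne_top hp hR) h3
  rw [lintegral_Psi hp hLm hR, ENNReal.toReal_mul, ENNReal.toReal_mul,
    ENNReal.toReal_ofReal (by positivity), ← hk] at h4
  have h5 := facet_mean (m := m) hp
  rw [← hF, ← hU, ← hV, ← hq] at h5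
  have hJ := Jp_pos (n := m + 1) hp
  rw [← ENNReal.toReal_le_toReal hGt (by finiteness), ENNReal.toReal_mul,
    ENNReal.toReal_ofReal hγ.le]
  have h6 : Jp (m + 1) p * U ≤ q * F.toReal * V := by nlinarith [mul_pos (mul_pos hq0 hJ) hU0]
  have h7 : γ * U * k * c / V * Jp (m + 1) p ≤ k * (c * q * (γ * F.toReal)) := by
    rw [div_mul_eq_mul_div, div_le_iff₀ hV0]
    nlinarith [mul_le_mul_of_nonneg_left h6 (show 0 ≤ γ * k * c by positivity)]
  exact le_of_mul_le_mul_left (le_of_mul_le_mul_left ((h4.trans h2).trans h7) hk0) (by positivity)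

lemma vol_sdiff_eq {K : Set (E n)} (hKm : MeasurableSet K) (hKs : K ⊆ cS n 1) :
    (volume (cS n 1 \ K)).toReal =
      (1 - (volume K).toReal / (volume (cS n 1)).toReal) * (volume (cS n 1)).toReal := by
  have hfin : volume (cS n 1) ≠ ∞ := (volume_cS_lt_top zero_le_one).ne
  have hV0 : 0 < (volume (cS n 1)).toReal := ENNReal.toReal_pos (volume_cS_pos one_pos).ne' hfin
  rw [measure_sdiff hKs hKm.nullMeasurableSet (ne_top_of_le_ne_top hfin (measure_mono hKs)),
    ENNReal.toReal_sub_of_le (measure_mono hKs) hfin]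
  field_simp

lemma Near.vol_ne_zero {K : Set (E (m + 1))} {δ : ℝ} (h : Near K δ) : volume K ≠ 0 :=
  ((volume_cS_pos (by linarith [h.lt])).trans_le (measure_mono h.inner)).ne'

/-- bodies that differ from the simplex in a layer of width `θ / p` -/
lemma thin (m : ℕ) : ∃ θ κ : ℝ, 0 < θ ∧ 0 < κ ∧ ∀ᶠ p in atTop, ∀ K : Set (E (m + 1)),
    Near K (θ / p) → ∀ a, ENNReal.ofReal ((volume K).toReal ^ (1 + 1 / p) * (Jp (m + 1) p *
      (1 + (1 + 1 / p + κ) * (1 - (volume K).toReal / (volume (cS (m + 1) 1)).toReal)))) ≤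
      mahler p ((fun z => z - a) '' K) := by
  obtain ⟨ρ, γ, τ, hρ, hγ, hτ, hcorr⟩ := unif_corr m
  have e1 : ∀ᶠ θ in 𝓝[>] (0 : ℝ),
      (1 + ρ) / 2 < ρ * (((1 + θ) ^ (3 * (m + 1)))⁻¹ * (1 - θ) ^ (m + 1)) := by
    refine nhdsWithin_le_nhds ?_
    have : ContinuousAt (fun θ : ℝ => ρ * (((1 + θ) ^ (3 * (m + 1)))⁻¹ * (1 - θ) ^ (m + 1))) 0 :=
      continuousAt_const.mul ((ContinuousAt.inv₀ (by fun_prop) (by simp)).mul (by fun_prop))
    exact this.eventually (lt_mem_nhds (by simp; linarith))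
  obtain ⟨θ, hθ, hθ0, hθ1⟩ := (e1.and (Ioo_mem_nhdsGT one_pos)).exists
  refine ⟨θ, (ρ - 1) / 2, hθ0, by linarith, ?_⟩
  filter_upwards [off_mass (m := m) hγ hτ, eventually_ge_atTop 1] with p hmass hp1 K h a
  have hp : 0 < p := by linarith
  have hN := nice_Psi (m := m) hp
  have hfm := facet_mean (m := m) hp
  have hc := hcorr _ hN.good hN.F_ne_top hmass
  set F := ∫⁻ l, ENNReal.ofReal (Psi p (A0 (m + 1) l)) ∂mu m with hF
  have hFt : F ≠ ∞ := hN.F_ne_top
  set U := mu m univ with hU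
  have hUt : U ≠ ∞ := measure_ne_top _ _
  have hU0 : 0 < U.toReal := ENNReal.toReal_pos mu_univ_pos.ne' hUt
  have hfin : volume (cS (m + 1) 1) ≠ ∞ := (volume_cS_lt_top zero_le_one).ne
  have hKm := h.cl.measurableSet
  have hD := vol_sdiff_eq hKm h.outer
  set V := (volume (cS (m + 1) 1)).toReal with hV
  have hV0 : 0 < V := ENNReal.toReal_pos (volume_cS_pos one_pos).ne' hfin
  set q := 1 / p with hq
  have hq0 : 0 < q := by positivity
  have hJ := Jp_pos (n := m + 1) hp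
  set J := Jp (m + 1) p with hJdef
  set w := 1 - (volume K).toReal / V with hw
  have hw0 : 0 ≤ w := by
    rw [hw, sub_nonneg, div_le_one hV0]
    exact ENNReal.toReal_mono hfin (measure_mono h.outer)
  have hδ : θ / p ≤ θ := div_le_self hθ0.le hp1
  have hi := h.int_ge (measurable_Psi p) (Psi_Tp p) (τ := ((1 + θ) ^ (3 * (m + 1)))⁻¹)
    (by positivity) fun z hz s hs hs1 => Psi_harnack' hp1 hz (by linarith) hs1 (by
      have : p * (θ / p) = θ := by field_simp
      nlinarith)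
  set c := ((1 + θ) ^ (3 * (m + 1)))⁻¹ * (1 - θ / p) ^ (m + 1) with hcdef
  have hc0 : 0 ≤ c := mul_nonneg (by positivity) (pow_nonneg (by linarith) _)
  have hc1 : (1 + ρ) / 2 ≤ ρ * c := hθ.le.trans (by
    rw [hcdef]
    gcongr)
  have h1 : ENNReal.ofReal ((1 + ρ) / 2) * (F * volume (cS (m + 1) 1 \ K)) ≤
      U * ∫⁻ z in cS (m + 1) 1 \ K, ENNReal.ofReal (Psi p z) := by
    refine le_trans ?_ (mul_le_mul_right hi _)
    refine (mul_le_mul' (ENNReal.ofReal_le_ofReal hc1) (mul_le_mul_right h.vol_le _)).trans ?_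
    rw [ENNReal.ofReal_mul (by linarith), Finset.mul_sum, Finset.mul_sum, Finset.mul_sum,
      Finset.mul_sum]
    refine Finset.sum_le_sum fun j _ => ?_
    have h2 := hc _ (h.measurable j) ((h.convexOn j).subset (subset_univ _) (convex_stdSimplex ℝ _))
      (fun x hx => sub_nonneg.2 (h.one_le j hx)) (h.gj_uu j)
    calc _ = ENNReal.ofReal c * kap (m + 1) * (ENNReal.ofReal ρ *
          (F * ∫⁻ l, ENNReal.ofReal (gj K j l - 1) ∂mu m)) := by ring
      _ ≤ ENNReal.ofReal c * kap (m + 1) * (U * _) := by gcongr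
      _ = _ := by ring
  have hR : cS (m + 1) 1 ⊆ cS (m + 1) (1 + q / 4) := cS_mono (le_add_of_nonneg_right (by positivity))
  have h2 := ENNReal.toReal_mono (ENNReal.mul_ne_top hUt (lintegral_Psi_ne_top hp
      (sdiff_subset.trans hR))) h1
  rw [ENNReal.toReal_mul, ENNReal.toReal_mul, ENNReal.toReal_mul, hD,
    lintegral_Psi hp h.meas (sdiff_subset.trans hR),
    setIntegral_sdiff hKm (integrableOn_Psi hp hR) h.outer, integral_Psi_cS hp,
    ENNReal.toReal_ofReal (by linarith)] at h2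
  refine le_trans (ENNReal.ofReal_le_ofReal ?_) (tangent hp hKm (h.outer.trans hR) h.vol_ne_zero a)
  refine mul_le_mul_of_nonneg_left ?_ (by positivity)
  rw [← hq, ← hJdef]
  set X := J - ∫ x in K, Psi p x with hX
  refine le_of_mul_le_mul_left ?_ hU0
  have h3 := mul_le_mul_of_nonneg_left h2 hq0.le
  have h4 := mul_le_mul_of_nonneg_left hfm (show 0 ≤ (1 + ρ) / 2 * w by positivity)
  have h5 : 0 ≤ (ρ - 1) * q * (J * U.toReal * w) := mul_nonneg (mul_nonneg (by linarith) hq0.le)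
    (by positivity)
  nlinarith

end Pool.Agent.MP_5f4cdd_gt

end

section

set_option autoImplicit false
open MeasureTheory ENNReal Set Matrix Topology Filter

namespace Pool.Agent.MP_5f4cdd_gt

variable {n m : ℕ}

lemma gibbs {p : ℝ} (hp : 0 < p) {L : Set (E n)} (hL : L ⊆ cS n 1) (h0 : volume L ≠ 0)
    {φ : E n → ℝ} (hφ : Integrable fun y => φ y * Zs p y ^ (-(1 / p)))
    (h : ∀ y, Lap p L y ≤ Real.exp (-(p * φ y)) * Zs p y) (a : E n) :
    ENNReal.ofReal ((volume L).toReal ^ (1 + 1 / p) *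
      (Jp n p + ∫ y, φ y * Zs p y ^ (-(1 / p)))) ≤ mahler p ((fun z => z - a) '' L) := by
  have hfin : volume L ≠ ∞ :=
    ne_top_of_le_ne_top (volume_cS_lt_top zero_le_one).ne (measure_mono hL)
  set v := (volume L).toReal with hv
  have hv0 : 0 < v := ENNReal.toReal_pos h0 hfin
  rw [mahler_eq, volume_image_sub, ← hv, Real.rpow_add hv0, Real.rpow_one, mul_assoc,
    ENNReal.ofReal_mul hv0.le, hv, ENNReal.ofReal_toReal hfin, ← hv]
  gcongr
  have i1 := integrable_wt (n := n) hp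
  have i3 := integrable_dot_wt hp a
  have e : Jp n p + ∫ y, φ y * Zs p y ^ (-(1 / p)) =
      ∫ y : E n, (Zs p y ^ (-(1 / p)) + φ y * Zs p y ^ (-(1 / p)) +
        (a ⬝ᵥ y) * Zs p y ^ (-(1 / p))) := by
    rw [integral_add (f := fun y => Zs p y ^ (-(1 / p)) + φ y * Zs p y ^ (-(1 / p)))
      (i1.add hφ) i3, integral_add i1 hφ, integral_dot_wt hp, Jp, add_zero]
  rw [e, ← integral_const_mul]
  refine ofReal_integral_le (((i1.add hφ).add i3).const_mul _) fun y => ?_
  have hl := Lap_pos p y zero_le_one hL h0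
  have h2 : (Lap p ((fun z => z - a) '' L) y / v) ^ (-(1 / p)) =
      v ^ (1 / p) * (Lap p L y ^ (-(1 / p)) * Real.exp (a ⬝ᵥ y)) := by
    rw [Lap_image_sub, Real.div_rpow (by positivity) hv0.le, Real.mul_rpow hl.le (by positivity),
      ← Real.exp_mul, Real.rpow_neg hv0.le, div_inv_eq_mul, mul_comm]
    congr 3
    field_simp
  rw [h2]
  refine mul_le_mul_of_nonneg_left ?_ (by positivity)
  have h3 := Real.rpow_le_rpow_of_nonpos hl (h y) (z := -(1 / p)) (neg_nonpos.2 (by positivity))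
  have h4 : -(p * φ y) * -(1 / p) = φ y := by field_simp
  rw [Real.mul_rpow (Real.exp_pos _).le (Zs_pos p y).le, ← Real.exp_mul, h4] at h3
  have h5 := Real.add_one_le_exp (φ y + a ⬝ᵥ y)
  have h6 := Real.rpow_pos_of_pos (Zs_pos p y) (-(1 / p))
  rw [Real.exp_add] at h5
  nlinarith [mul_le_mul_of_nonneg_right h3 (Real.exp_pos (a ⬝ᵥ y)).le,
    mul_le_mul_of_nonneg_right h5 h6.le]

/-- bodies that differ from the simplex in a layer of width at least `θ / p` -/
lemma thick (m : ℕ) {θ : ℝ} (hθ : 0 < θ) : ∃ δ₀ κ : ℝ, 0 < δ₀ ∧ δ₀ < 1 ∧ 0 < κ ∧ ∀ᶠ p in atTop,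
    ∀ (K : Set (E (m + 1))) (δ : ℝ), Near K δ → δ ≤ δ₀ → θ ≤ p * δ →
    ¬ cS (m + 1) (1 - δ / 4) ⊆ K → ∀ a,
      ENNReal.ofReal ((volume K).toReal ^ (1 + 1 / p) * (Jp (m + 1) p *
      (1 + (1 + 1 / p + κ) * (1 - (volume K).toReal / (volume (cS (m + 1) 1)).toReal)))) ≤
      mahler p ((fun z => z - a) '' K) := by
  obtain ⟨κ, hκ0, hκ1, hvol⟩ := vol_le_margins m
  set η := κ / 8 with hη
  have hη0 : 0 < η := by positivity
  have hη1 : η ≤ 1 / 8 := by linarith
  obtain ⟨a, b, ha, hab, hnu⟩ := nu_mass (n := m + 1) hη0 (by linarith)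
  have hb : 0 < b := ha.trans_le hab
  set N : ℝ := ((m + 1 : ℕ) : ℝ) + 1 with hN
  have hN0 : 0 < N := by positivity
  obtain ⟨c₀, hc₀, hoff⟩ := Lap_off_corner' (n := m + 1) (θ := θ / 4 / N) ha (by positivity)
  obtain ⟨c, hc, hvol⟩ := hvol (η * c₀ / (16 * N ^ 2)) (by positivity)
  have e1 : Tendsto (fun p : ℝ => 2 ^ (m + 1) * Real.exp (-(p * a * c / 4))) atTop
      (𝓝 (2 ^ (m + 1) * 0)) := by
    refine Tendsto.const_mul _ (Real.tendsto_exp_neg_atTop_nhds_zero.comp ?_)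
    exact ((tendsto_id.atTop_mul_const ha).atTop_mul_const hc).atTop_div_const four_pos
  rw [mul_zero] at e1
  refine ⟨min η (min c (a * c / (4 * b))), η, by positivity,
    (min_le_left _ _).trans_lt (by linarith), hη0, ?_⟩
  filter_upwards [hnu, e1.eventually (gt_mem_nhds hη0), eventually_ge_atTop (1 / η)]
    with p hnu hsm hpη K δ h hδ hθδ hns a₀
  have hp : 0 < p := lt_of_lt_of_le (by positivity) hpη
  have hq : 1 / p ≤ η := (one_div_le hη0 hp).1 hpη
  have hδ0 : 0 < δ := (mul_pos_iff_of_pos_left hp).1 (hθ.trans_le hθδ)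
  have hδ1 : δ ≤ η := hδ.trans (min_le_left _ _)
  have hδ2 : δ ≤ c := hδ.trans ((min_le_right _ _).trans (min_le_left _ _))
  have hδ3 : δ * (4 * b) ≤ a * c := (le_div_iff₀ (by positivity)).1
    (hδ.trans ((min_le_right _ _).trans (min_le_right _ _)))
  obtain ⟨r, hr0, hr1, hr2, hr3, hr4⟩ := hvol K δ h hδ0.le (by linarith) hδ2
  obtain ⟨x, hx, hxK⟩ := not_subset.1 hns
  obtain ⟨j₀, hj₀⟩ := corner_missing h.conv h.cl hx hxK
  rw [← hN] at hj₀
  set B := fun j => box (m + 1) j (Icc a b) with hB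
  have hBm : ∀ j, MeasurableSet (B j) := fun j => measurableSet_box j measurableSet_Icc
  set φ₁ : E (m + 1) → ℝ := fun y =>
    (1 - η) * ∑ j, ∑ i, r j i * (B j).indicator (fun y => eta y j - eta y i) y with hφ₁
  set φ₂ : E (m + 1) → ℝ := fun y => c₀ * (δ / 4 / N) * (B j₀).indicator 1 y with hφ₂
  have hle : ∀ y, Lap p K y ≤ Zs p y := fun y => Lap_mono p y h.outer zero_le_one subset_rfl
  have h1 : ∀ y, Lap p K y ≤ Real.exp (-(p * φ₁ y)) * Zs p y := by
    intro y
    by_cases hy : ∃ j, y ∈ B j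
    · obtain ⟨j, hj⟩ := hy
      have h2 := Lap_shift' (δ := c) (η := η) hp.le ha.le h.outer (hr0 j) (hr3 j)
        (by nlinarith [mul_le_mul_of_nonneg_right (hr1 j) hb.le]) hsm.le hj hab
      simp only [hφ₁]
      rw [Finset.sum_eq_single j (fun k _ hk => Finset.sum_eq_zero fun i _ => by
        rw [indicator_of_notMem (fun h => hk (box_disjoint ha h hj)), mul_zero]) (by simp)]
      simpa only [indicator_of_mem hj] using h2
    · have : φ₁ y = 0 := by
        simp only [hφ₁]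
        rw [Finset.sum_eq_zero fun k _ => Finset.sum_eq_zero fun i _ => by
          rw [indicator_of_notMem (fun h => hy ⟨k, h⟩), mul_zero], mul_zero]
      rw [this]
      simpa using hle y
  have h2 : ∀ y, Lap p K y ≤ Real.exp (-(p * φ₂ y)) * Zs p y := by
    intro y
    by_cases hy : y ∈ B j₀
    · simp only [hφ₂, indicator_of_mem hy, Pi.one_apply, mul_one]
      have hsub : K ⊆ cS (m + 1) 1 \ corner (m + 1) j₀ (δ / 4 / N) :=
        fun z hz => ⟨h.outer hz, fun h' => hj₀ z h' hz⟩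
      refine le_trans (Lap_mono p y hsub
        zero_le_one sdiff_subset) (hoff p _ hp ?_ y j₀ fun i hi => (hy i hi).1)
      rw [← mul_div_assoc, ← mul_div_assoc]
      gcongr
    · simpa [hφ₂, indicator_of_notMem hy] using hle y
  have e2 : ∀ y, ((1 - η) * φ₁ y + η * φ₂ y) * Zs p y ^ (-(1 / p)) =
      (1 - η) * (1 - η) * ∑ j, ∑ i, r j i *
        (B j).indicator (fun y => (eta y j - eta y i) * Zs p y ^ (-(1 / p))) y +
      η * (c₀ * (δ / 4 / N)) * (B j₀).indicator (fun y => Zs p y ^ (-(1 / p))) y := by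
    intro y
    simp only [hφ₁, hφ₂, indicator_mul_left, ← mul_assoc, ← Finset.sum_mul]
    by_cases hy : y ∈ B j₀
    · simp only [indicator_of_mem hy, Pi.one_apply]; ring
    · simp only [indicator_of_notMem hy]; ring
  have i1 : ∀ j i, Integrable fun y => r j i *
      (B j).indicator (fun y => (eta y j - eta y i) * Zs p y ^ (-(1 / p))) y := fun j i =>
    ((integrableOn_box_lin hp ha.le hab j i).integrable_indicator (hBm j)).const_mul _
  have i2 := integrable_finsetSum Finset.univ fun j _ =>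
    integrable_finsetSum Finset.univ fun i _ => i1 j i
  have i3 := (integrable_wt (n := m + 1) hp).indicator (hBm j₀)
  have h3 := gibbs hp h.outer h.vol_ne_zero (φ := fun y => (1 - η) * φ₁ y + η * φ₂ y)
    (by simp only [e2]; exact (i2.const_mul _).add (i3.const_mul _))
    (fun y => by
      have hZ := Zs_pos p y
      rcases le_total (φ₁ y) (φ₂ y) with h' | h'
      · refine (h2 y).trans (mul_le_mul_of_nonneg_right (Real.exp_le_exp.2 ?_) hZ.le)
        nlinarith [mul_le_mul_of_nonneg_left h' (mul_nonneg hp.le (show 0 ≤ 1 - η by linarith))]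
      · refine (h1 y).trans (mul_le_mul_of_nonneg_right (Real.exp_le_exp.2 ?_) hZ.le)
        nlinarith [mul_le_mul_of_nonneg_left h' (mul_nonneg hp.le hη0.le)]) a₀
  refine le_trans (ENNReal.ofReal_le_ofReal ?_) h3
  refine mul_le_mul_of_nonneg_left ?_ (by positivity)
  simp only [e2]
  rw [integral_add (i2.const_mul _) (i3.const_mul _), integral_const_mul, integral_const_mul,
    integral_finsetSum _ fun j _ => integrable_finsetSum Finset.univ fun i _ => i1 j i,
    integral_indicator (hBm j₀)]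
  have hJ := Jp_pos (n := m + 1) hp
  set J := Jp (m + 1) p with hJdef
  set R := ∑ j, ∑ i, r j i with hR
  have hR0 : 0 ≤ R := Finset.sum_nonneg fun j _ => Finset.sum_nonneg fun i _ => hr0 j i
  have h4 : R * ((1 - η) * J) ≤ ∑ j, ∫ y, ∑ i, r j i *
      (B j).indicator (fun y => (eta y j - eta y i) * Zs p y ^ (-(1 / p))) y := by
    rw [hR, Finset.sum_mul]
    refine Finset.sum_le_sum fun j _ => ?_
    rw [integral_finsetSum _ fun i _ => i1 j i, Finset.sum_mul]
    refine Finset.sum_le_sum fun i _ => ?_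
    rw [integral_const_mul, integral_indicator (hBm j)]
    by_cases hi : i = j
    · rw [hi, hr2]; simp
    · exact mul_le_mul_of_nonneg_left ((hnu j).2 i hi) (hr0 j i)
  have h5 : J / (2 * N) ≤ ∫ y in B j₀, Zs p y ^ (-(1 / p)) := by
    have := (hnu j₀).1
    rw [div_le_iff₀ (by positivity)]
    nlinarith
  have hfin : volume (cS (m + 1) 1) ≠ ∞ := (volume_cS_lt_top zero_le_one).ne
  have hV0 : 0 < (volume (cS (m + 1) 1)).toReal :=
    ENNReal.toReal_pos (volume_cS_pos one_pos).ne' hfin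
  rw [vol_sdiff_eq h.cl.measurableSet h.outer] at hr4
  have h6 := le_of_mul_le_mul_right hr4 hV0
  set w := 1 - (volume K).toReal / (volume (cS (m + 1) 1)).toReal with hw
  have hw0 : 0 ≤ w := by
    rw [hw, sub_nonneg, div_le_one hV0]
    exact ENNReal.toReal_mono hfin (measure_mono h.outer)
  have h7 : (1 + 2 * η) * ((1 - κ) / (1 - δ)) ≤ (1 - η) ^ 3 := by
    rw [← mul_div_assoc, div_le_iff₀ (by linarith)]
    have h8 : 1 - 3 * η ≤ (1 - η) ^ 3 := by nlinarith [mul_nonneg hη0.le hη0.le]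
    have h9 : κ = 8 * η := by linarith
    nlinarith [mul_le_mul h8 (show 1 - η ≤ 1 - δ by linarith) (by linarith)
      (pow_nonneg (by linarith) 3)]
  have h8 : (1 + 1 / p + η) * w ≤ (1 - η) ^ 3 * R + η * c₀ * δ / (8 * N ^ 2) := by
    have h9 : 0 ≤ η * c₀ / (16 * N ^ 2) * δ := by positivity
    calc _ ≤ (1 + 2 * η) * w := mul_le_mul_of_nonneg_right (by linarith) hw0
      _ ≤ (1 + 2 * η) * ((1 - κ) / (1 - δ) * R + η * c₀ / (16 * N ^ 2) * δ) := by gcongr
      _ = (1 + 2 * η) * ((1 - κ) / (1 - δ)) * R + (1 + 2 * η) * (η * c₀ / (16 * N ^ 2) * δ) := by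
          ring
      _ ≤ (1 - η) ^ 3 * R + 2 * (η * c₀ / (16 * N ^ 2) * δ) := by gcongr; linarith
      _ = _ := by field_simp; ring
  have h9 := mul_le_mul_of_nonneg_left h4 (mul_self_nonneg (1 - η))
  have h10 := mul_le_mul_of_nonneg_left h5 (show 0 ≤ η * (c₀ * (δ / 4 / N)) by positivity)
  have h11 : η * (c₀ * (δ / 4 / N)) * (J / (2 * N)) = J * (η * c₀ * δ / (8 * N ^ 2)) := by
    field_simp; ring
  nlinarith [mul_le_mul_of_nonneg_left h8 hJ.le]

end Pool.Agent.MP_5f4cdd_gt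

end

section

set_option autoImplicit false
open MeasureTheory ENNReal Set Matrix Topology Filter

namespace Pool.Agent.MP_5f4cdd_gt

variable {n m : ℕ}

lemma finish {V J q κ w : ℝ} (hV : 0 < V) (hJ : 0 < J) (hq0 : 0 < q) (hq1 : q ≤ 1) (hκ0 : 0 < κ)
    (hκ1 : κ ≤ 1) (hw0 : 0 ≤ w) (hw : w ≤ κ / 12) :
    (1 + κ / 2 * w) * (V ^ (1 + q) * J) ≤
      ((1 - w) * V) ^ (1 + q) * (J * (1 + (1 + q + κ) * w)) := by
  have hw4 : 0 < 1 - w := by linarith
  have h4 : 1 + (1 + q) * (-w) ≤ (1 - w) ^ (1 + q) := by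
    have := one_add_mul_self_le_rpow_one_add (s := -w) (by linarith) (p := 1 + q) (by linarith)
    rwa [← sub_eq_add_neg 1 w] at this
  have h3 : (1 + q) * (1 + q + κ) ≤ 6 := by nlinarith
  have h5 : 1 + κ / 2 * w ≤ (1 + (1 + q) * (-w)) * (1 + (1 + q + κ) * w) := by
    nlinarith [mul_le_mul_of_nonneg_right hw hw0, mul_le_mul_of_nonneg_right h3 (mul_nonneg hw0 hw0)]
  have h6 : 0 < V ^ (1 + q) := by positivity
  rw [Real.mul_rpow hw4.le hV.le]
  calc (1 + κ / 2 * w) * (V ^ (1 + q) * J)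
      ≤ ((1 + (1 + q) * (-w)) * (1 + (1 + q + κ) * w)) * (V ^ (1 + q) * J) := by gcongr
    _ ≤ ((1 - w) ^ (1 + q) * (1 + (1 + q + κ) * w)) * (V ^ (1 + q) * J) := by gcongr
    _ = _ := by ring

/-- small volume deficit forces the squeezed position -/
lemma near_of_vol (m : ℕ) {δ : ℝ} (hδ0 : 0 < δ) (hδ1 : δ < 1) : ∃ ε : ℝ, 0 < ε ∧
    ∀ K : Set (E (m + 1)), Convex ℝ K → IsCompact K → K ⊆ cS (m + 1) 1 → Maxi K →
      (1 - ε) * (volume (cS (m + 1) 1)).toReal ≤ (volume K).toReal → Near K δ := by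
  have hfin : volume (cS (m + 1) 1) ≠ ∞ := (volume_cS_lt_top zero_le_one).ne
  set V := (volume (cS (m + 1) 1)).toReal with hV
  have hV0 : 0 < V := ENNReal.toReal_pos (volume_cS_pos one_pos).ne' hfin
  set b := volume (Metric.closedBall (0 : E (m + 1)) (δ / ((m + 1 : ℕ) + 1) ^ 2)) with hb
  have hb0 : 0 < b := Metric.measure_closedBall_pos _ _ (by positivity)
  have hbt : b ≠ ∞ := measure_closedBall_lt_top.ne
  have hbr : 0 < b.toReal := ENNReal.toReal_pos hb0.ne' hbt
  refine ⟨b.toReal / (4 * V), by positivity, fun K hKc hKk hKs hKM hKv =>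
    ⟨hKc, hKk.isClosed, hδ1, cap hKc hKk.measurableSet ?_, hKs, klee hKc hKk hKs hKM⟩⟩
  have hDt : volume (cS (m + 1) 1 \ K) ≠ ∞ := ne_top_of_le_ne_top hfin (measure_mono sdiff_subset)
  rw [← hb, ← ENNReal.toReal_lt_toReal (by finiteness) hbt, ENNReal.toReal_mul,
    vol_sdiff_eq hKk.measurableSet hKs, ← hV]
  simp only [toReal_ofNat]
  have h1 : (1 - (volume K).toReal / V) * V = V - (volume K).toReal := by field_simp
  have h2 : (1 - b.toReal / (4 * V)) * V = V - b.toReal / 4 := by field_simp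
  linarith

lemma unif_centred (m : ℕ) : ∃ ε κ : ℝ, 0 < ε ∧ 0 < κ ∧ ∀ᶠ p in atTop,
    ∀ K : Set (E (m + 1)), Convex ℝ K → IsCompact K → K ⊆ cS (m + 1) 1 → Maxi K →
      (1 - ε) * (volume (cS (m + 1) 1)).toReal ≤ (volume K).toReal → ∀ a,
      ENNReal.ofReal (1 + κ * (1 - (volume K).toReal / (volume (cS (m + 1) 1)).toReal)) *
        mahler p (cS (m + 1) 1) ≤ mahler p ((fun z => z - a) '' K) := by
  obtain ⟨θ, κ₁, hθ, hκ₁, hthin⟩ := thin m
  obtain ⟨δ₀, κ₂, hδ₀, hδ₁, hκ₂, hthick⟩ := thick m hθ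
  obtain ⟨ε, hε, hnear⟩ := near_of_vol m (half_pos hδ₀) (by linarith)
  set κ := min 1 (min κ₁ κ₂) with hκ
  have hκ0 : 0 < κ := by positivity
  refine ⟨min ε (κ / 12), κ / 2, by positivity, by positivity, ?_⟩
  filter_upwards [hthin, hthick, eventually_ge_atTop 1, eventually_gt_atTop θ]
    with p h1 h2 hp1 hpθ K hKc hKk hKs hKM hKv a
  have hp : 0 < p := by linarith
  have hfin : volume (cS (m + 1) 1) ≠ ∞ := (volume_cS_lt_top zero_le_one).ne
  rw [mahler_cS hp]
  set V := (volume (cS (m + 1) 1)).toReal with hV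
  have hV0 : 0 < V := ENNReal.toReal_pos (volume_cS_pos one_pos).ne' hfin
  have hJ := Jp_pos (n := m + 1) hp
  have h := hnear K hKc hKk hKs hKM (le_trans (mul_le_mul_of_nonneg_right
    (by linarith [min_le_left ε (κ / 12)]) hV0.le) hKv)
  set w := 1 - (volume K).toReal / V with hw
  have hvK : (volume K).toReal = (1 - w) * V := by rw [hw]; field_simp; ring
  have hw0 : 0 ≤ w := by
    rw [hw, sub_nonneg, div_le_one hV0]
    exact ENNReal.toReal_mono hfin (measure_mono hKs)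
  have hw1 : w ≤ κ / 12 := by
    rw [hvK] at hKv
    linarith [le_of_mul_le_mul_right hKv hV0, min_le_right ε (κ / 12)]
  have key : ∀ k, κ ≤ k → ENNReal.ofReal (1 + κ / 2 * w) *
      ENNReal.ofReal (V ^ (1 + 1 / p) * Jp (m + 1) p) ≤ ENNReal.ofReal
      ((volume K).toReal ^ (1 + 1 / p) * (Jp (m + 1) p * (1 + (1 + 1 / p + k) * w))) := by
    intro k hk
    rw [← ENNReal.ofReal_mul (by positivity)]
    refine ENNReal.ofReal_le_ofReal ((finish hV0 hJ (by positivity) ((div_le_one hp).2 hp1) hκ0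
      (min_le_left _ _) hw0 hw1).trans ?_)
    rw [← hvK]
    gcongr
  by_cases hc : cS (m + 1) (1 - θ / p) ⊆ K
  · exact (key _ ((min_le_right _ _).trans (min_le_left _ _))).trans
      (h1 K ⟨h.conv, h.cl, (div_lt_one hp).2 hpθ, hc, h.outer, h.cen⟩ a)
  set T := {d : ℝ | cS (m + 1) (1 - d) ⊆ K} with hT
  have hT1 : ∀ d ∈ T, θ / p ≤ d := fun d hd => by
    by_contra h'
    exact hc ((cS_mono (by linarith [not_le.1 h'])).trans hd)
  have hT2 : δ₀ / 2 ∈ T := h.inner
  have h3 : θ / p ≤ sInf T := le_csInf ⟨_, hT2⟩ hT1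
  have h4 : sInf T ≤ δ₀ / 2 := csInf_le ⟨_, hT1⟩ hT2
  have h5 : 0 < sInf T := lt_of_lt_of_le (by positivity) h3
  obtain ⟨d, hd, hd'⟩ := exists_lt_of_csInf_lt ⟨_, hT2⟩ (show sInf T < 2 * sInf T by linarith)
  refine (key _ ((min_le_right _ _).trans (min_le_right _ _))).trans (h2 K (2 * sInf T)
    ⟨h.conv, h.cl, by linarith, (cS_mono (by linarith)).trans hd, h.outer, h.cen⟩ (by linarith)
    ?_ (fun h' => ?_) a)
  · rw [div_le_iff₀' hp] at h3
    nlinarith
  · have : sInf T ≤ 2 * sInf T / 4 := csInf_le ⟨_, hT1⟩ h'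
    linarith

/-- reduction to the centred simplex of minimal volume -/
lemma reduce {ε : ℝ} (hε : ε ≤ 1) {K : Set (E n)} (hKc : Convex ℝ K) (hKk : IsCompact K)
    (hKi : (interior K).Nonempty) (e : E n ≃ᵃ[ℝ] E n) (hKe : K ⊆ e '' stdS n)
    (hKv : (1 - ε) * (volume (e '' stdS n)).toReal ≤ (volume K).toReal) :
    ∃ (e' : E n ≃ᵃ[ℝ] E n) (K' : Set (E n)) (B : E n →ₗ[ℝ] E n) (b : E n),
      K ⊆ e' '' stdS n ∧ LinearMap.det B ≠ 0 ∧ (fun z => z - b) '' K' = B '' K ∧
      Convex ℝ K' ∧ IsCompact K' ∧ (interior K').Nonempty ∧ K' ⊆ cS n 1 ∧ Maxi K' ∧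
      (1 - ε) * (volume (cS n 1)).toReal ≤ (volume K').toReal ∧
      (volume K').toReal / (volume (cS n 1)).toReal =
        (volume K).toReal / (volume (e' '' stdS n)).toReal := by
  have hfin : volume (cS n 1) ≠ ∞ := (volume_cS_lt_top zero_le_one).ne
  set V := (volume (cS n 1)).toReal with hV
  have hV0 : 0 < V := ENNReal.toReal_pos (volume_cS_pos one_pos).ne' hfin
  set A := (e.linear : E n →ₗ[ℝ] E n) with hA
  set A' := (e.symm.linear : E n →ₗ[ℝ] E n) with hA'
  have hAA : LinearMap.det A * LinearMap.det A' = 1 := by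
    rw [← LinearMap.det_comp]
    have : A ∘ₗ A' = LinearMap.id := by
      ext1 x; simp [hA, hA']
    rw [this, LinearMap.det_id]
  have hA0 : 0 < |LinearMap.det A| := abs_pos.2 (left_ne_zero_of_mul_eq_one hAA)
  have hA'0 : 0 < |LinearMap.det A'| := abs_pos.2 (right_ne_zero_of_mul_eq_one hAA)
  have h₀ : ∀ x ∈ K, A' x + (e.symm 0 - cen n) ∈ cS n 1 := by
    intro x hx
    obtain ⟨y, hy, rfl⟩ := hKe hx
    have h1 := e.symm.map_vadd 0 (e y)
    simp only [vadd_eq_add, add_zero, AffineEquiv.symm_apply_apply] at h1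
    have h2 : A' (e y) + (e.symm 0 - cen n) = y - cen n := by
      rw [← add_sub_assoc]; congr 1; exact h1.symm
    rw [h2]; exact mem_stdS_iff.1 hy
  obtain ⟨B, b, hB, hmax⟩ := exists_max hKi A' (e.symm 0 - cen n) h₀
  have hle : |LinearMap.det A'| ≤ |LinearMap.det B| := hmax A' (e.symm 0 - cen n) h₀
  have hB0 : 0 < |LinearMap.det B| := hA'0.trans_le hle
  have hBne : LinearMap.det B ≠ 0 := abs_pos.1 hB0
  set K' := (fun z => z - (-b)) '' (B '' K) with hK'
  have hK'mem : ∀ x ∈ K, B x + b ∈ K' := fun x hx => ⟨B x, ⟨x, hx, rfl⟩, by simp⟩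
  have hK'v : (volume K').toReal = |LinearMap.det B| * (volume K).toReal := by
    rw [hK', volume_image_sub, Measure.addHaar_image_linearMap, ENNReal.toReal_mul,
      ENNReal.toReal_ofReal hB0.le]
  have hev : (volume (e '' stdS n)).toReal = |LinearMap.det A| * V := by
    rw [volume_image_affine, volume_stdS, ENNReal.toReal_mul, ENNReal.toReal_ofReal hA0.le]
  have hAA' : |LinearMap.det A| * |LinearMap.det A'| = 1 := by rw [← abs_mul, hAA, abs_one]
  set Be := LinearMap.equivOfDetNeZero B hBne with hBe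
  set e' : E n ≃ᵃ[ℝ] E n :=
    (AffineEquiv.constVAdd ℝ (E n) (-(cen n + b))).trans Be.symm.toAffineEquiv with he'
  have hBe' : ∀ x, Be x = B x := fun x => rfl
  refine ⟨e', K', B, b,
    fun x hx => ⟨B x + b + cen n, mem_stdS_iff.2 (by simpa using hB x hx), ?_⟩, hBne,
    by rw [hK', image_image]; simp, convex_image_sub (hKc.linear_image B) _,
    isCompact_image_sub (hKk.image B.continuous_of_finiteDimensional) _,
    interior_image_sub ?_ _, ?_, ?_, ?_, ?_⟩
  · simp only [he', AffineEquiv.trans_apply, AffineEquiv.constVAdd_apply, vadd_eq_add,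
      LinearEquiv.coe_toAffineEquiv]
    rw [LinearEquiv.symm_apply_eq, hBe']
    abel
  · have := Be.toContinuousLinearEquiv.toHomeomorph.image_interior K
    change B '' interior K = interior (B '' K) at this
    rw [← this]
    exact hKi.image _
  · rintro _ ⟨_, ⟨x, hx, rfl⟩, rfl⟩
    simpa using hB x hx
  · intro T c hT
    have := hmax (T ∘ₗ B) (T b + c) fun x hx => by
      have := hT _ (hK'mem x hx)
      simpa [add_assoc] using this
    rw [LinearMap.det_comp, abs_mul] at this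
    exact le_of_mul_le_mul_right (by simpa using this) hB0
  · rw [hK'v]
    rw [hev] at hKv
    have h1 : 0 ≤ 1 - ε := sub_nonneg.2 hε
    have h3 : 0 ≤ (volume K).toReal := ENNReal.toReal_nonneg
    calc (1 - ε) * V = |LinearMap.det A'| * ((1 - ε) * (|LinearMap.det A| * V)) := by
          linear_combination (-(1 - ε) * V) * hAA'
      _ ≤ |LinearMap.det A'| * (volume K).toReal := by gcongr
      _ ≤ _ := by gcongr
  · have hdet : LinearMap.det (e'.linear : E n →ₗ[ℝ] E n) * LinearMap.det B = 1 := by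
      rw [← LinearMap.det_comp]
      have : (e'.linear : E n →ₗ[ℝ] E n) ∘ₗ B = LinearMap.id := by
        refine LinearMap.ext fun x => ?_
        change Be.symm (B x) = x
        rw [LinearEquiv.symm_apply_eq, hBe']
      rw [this, LinearMap.det_id]
    have habs : |LinearMap.det (e'.linear : E n →ₗ[ℝ] E n)| = |LinearMap.det B|⁻¹ := by
      apply eq_inv_of_mul_eq_one_left
      rw [← abs_mul, hdet, abs_one]
    rw [volume_image_affine, volume_stdS, ENNReal.toReal_mul, ENNReal.toReal_ofReal (abs_nonneg _),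
      habs, ← hV, hK'v]
    field_simp

lemma unif_centred' (n : ℕ) : ∃ ε κ : ℝ, 0 < ε ∧ ε ≤ 1 ∧ 0 < κ ∧ ∀ᶠ p in atTop,
    ∀ K : Set (E n), Convex ℝ K → IsCompact K → (interior K).Nonempty → K ⊆ cS n 1 → Maxi K →
      (1 - ε) * (volume (cS n 1)).toReal ≤ (volume K).toReal → ∀ a,
      ENNReal.ofReal (1 + κ * (1 - (volume K).toReal / (volume (cS n 1)).toReal)) *
        mahler p (cS n 1) ≤ mahler p ((fun z => z - a) '' K) := by
  cases n with
  | zero =>
    refine ⟨1, 1, one_pos, le_rfl, one_pos, Eventually.of_forall fun p K _ _ hKi hKs _ _ a => ?_⟩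
    have h1 : K = univ := by
      obtain ⟨x, hx⟩ := hKi
      exact eq_univ_of_forall fun y => by rw [Subsingleton.elim y x]; exact interior_subset hx
    have h3 : cS 0 1 = univ := univ_subset_iff.1 (h1 ▸ hKs)
    have h4 : (volume (univ : Set (E 0))).toReal ≠ 0 := by
      rw [← h3]
      exact (ENNReal.toReal_pos (volume_cS_pos one_pos).ne'
        (volume_cS_lt_top zero_le_one).ne).ne'
    rw [h3, h1, div_self h4, Subsingleton.elim a 0]
    simp only [sub_zero, image_id']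
    simp
  | succ m =>
    obtain ⟨ε, κ, hε, hκ, h⟩ := unif_centred m
    refine ⟨min ε 1, κ, by positivity, min_le_right _ _, hκ, ?_⟩
    filter_upwards [h] with p hp K hKc hKk _ hKs hKM hKv
    exact hp K hKc hKk hKs hKM (le_trans (mul_le_mul_of_nonneg_right
      (by linarith [min_le_left ε 1]) ENNReal.toReal_nonneg) hKv)

/-- local stability at the simplex, uniformly for all large `p` including `p = ∞` -/
theorem local_unif_both (n : ℕ) : ∃ p₀ ε κ : ℝ, 0 < p₀ ∧ 0 < ε ∧ 0 < κ ∧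
    ∀ K : Set (E n), Convex ℝ K → IsCompact K → (interior K).Nonempty →
      ∀ e : AffineEquiv ℝ (E n) (E n), K ⊆ e '' stdS n →
      (1 - ε) * (volume (e '' stdS n)).toReal ≤ (volume K).toReal →
      ∃ e' : AffineEquiv ℝ (E n) (E n), K ⊆ e' '' stdS n ∧
        (∀ p, p₀ ≤ p →
          ENNReal.ofReal (1 + κ * (1 - (volume K).toReal / (volume (e' '' stdS n)).toReal)) *
            mahler p (cS n 1) ≤ mahler p K) ∧
        ENNReal.ofReal (1 + κ * (1 - (volume K).toReal / (volume (e' '' stdS n)).toReal)) *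
          mahlerInf (cS n 1) ≤ mahlerInf K := by
  obtain ⟨ε, κ, hε, hε1, hκ, h⟩ := unif_centred' n
  obtain ⟨p₀, hp₀⟩ := eventually_atTop.1 h
  refine ⟨max p₀ 1, ε, κ, by positivity, hε, hκ, fun K hKc hKk hKi e hKe hKv => ?_⟩
  obtain ⟨e', K', B, b, h1, hB, h2, hc, hk, hi, hs, hM, hv, he⟩ := reduce hε1 hKc hKk hKi e hKe hKv
  refine ⟨e', h1, fun p hp => ?_, ?_⟩
  · have := hp₀ p ((le_max_left _ _).trans hp) K' hc hk hi hs hM hv b
    rwa [h2, mahler_image_lin p B hB, he] at this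
  · rw [← mahlerInf_image_lin B hB K, ← h2, ← he]
    refine le_mahlerInf' hk hc hi ?_ b
    filter_upwards [h, eventually_gt_atTop 0] with p hp hp0 a
    exact (mul_le_mul_right (mahlerInf_cS_le_mahler hp0) _).trans (hp K' hc hk hi hs hM hv a)

theorem local_unif (n : ℕ) : ∃ p₀ ε κ : ℝ, 0 < p₀ ∧ 0 < ε ∧ 0 < κ ∧ ∀ p, p₀ ≤ p →
    ∀ K : Set (E n), Convex ℝ K → IsCompact K → (interior K).Nonempty →
      ∀ e : AffineEquiv ℝ (E n) (E n), K ⊆ e '' stdS n →
      (1 - ε) * (volume (e '' stdS n)).toReal ≤ (volume K).toReal →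
      ∃ e' : AffineEquiv ℝ (E n) (E n), K ⊆ e' '' stdS n ∧
        ENNReal.ofReal (1 + κ * (1 - (volume K).toReal / (volume (e' '' stdS n)).toReal)) *
          mahler p (cS n 1) ≤ mahler p K := by
  obtain ⟨p₀, ε, κ, h0, hε, hκ, h⟩ := local_unif_both n
  refine ⟨p₀, ε, κ, h0, hε, hκ, fun p hp K hKc hKk hKi e hKe hKv => ?_⟩
  obtain ⟨e', h1, h2, -⟩ := h K hKc hKk hKi e hKe hKv
  exact ⟨e', h1, h2 p hp⟩

theorem local_inf (n : ℕ) : ∃ ε κ : ℝ, 0 < ε ∧ 0 < κ ∧
    ∀ K : Set (E n), Convex ℝ K → IsCompact K → (interior K).Nonempty →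
      ∀ e : AffineEquiv ℝ (E n) (E n), K ⊆ e '' stdS n →
      (1 - ε) * (volume (e '' stdS n)).toReal ≤ (volume K).toReal →
      ∃ e' : AffineEquiv ℝ (E n) (E n), K ⊆ e' '' stdS n ∧
        ENNReal.ofReal (1 + κ * (1 - (volume K).toReal / (volume (e' '' stdS n)).toReal)) *
          mahlerInf (cS n 1) ≤ mahlerInf K := by
  obtain ⟨p₀, ε, κ, -, hε, hκ, h⟩ := local_unif_both n
  refine ⟨ε, κ, hε, hκ, fun K hKc hKk hKi e hKe hKv => ?_⟩
  obtain ⟨e', h1, -, h2⟩ := h K hKc hKk hKi e hKe hKv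
  exact ⟨e', h1, h2⟩

end Pool.Agent.MP_5f4cdd_gt

end
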