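import Pool.Agent.Mg.F5f4cdd.Gee9206
import Pool.Agent.MP_5f4cdd_gt.DefsInf

section

set_option autoImplicit false
open MeasureTheory ENNReal Set Matrix Topology Filter

namespace Pool.Agent.MP_5f4cdd_gt

variable {n : ℕ}

lemma image_sub_eq (a : E n) (L : Set (E n)) : (fun z => z - a) '' L = (fun z => z + a) ⁻¹' L := by
  ext z
  constructor
  · rintro ⟨x, hx, rfl⟩; simpa using hx
  · intro hz; exact ⟨z + a, hz, by simp⟩

lemma volume_image_sub (a : E n) (L : Set (E n)) : volume ((fun z => z - a) '' L) = volume L := by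
  rw [image_sub_eq, measure_preimage_add_right]

lemma Lap_image_sub (p : ℝ) (a y : E n) (L : Set (E n)) :
    Lap p ((fun z => z - a) '' L) y = Lap p L y * Real.exp (-(p * (a ⬝ᵥ y))) := by
  have := (measurePreserving_add_right (volume : Measure (E n)) a).setIntegral_preimage_emb
    (measurableEmbedding_addRight a) (fun x => Real.exp (p * ((x - a) ⬝ᵥ y))) L
  simp only [add_sub_cancel_right] at this
  rw [Lap, image_sub_eq, this, Lap, ← integral_mul_const]
  refine integral_congr_ae (Eventually.of_forall fun x => ?_)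
  simp only
  rw [← Real.exp_add, sub_dotProduct]; ring_nf

lemma mahler_eq (p : ℝ) (L : Set (E n)) : mahler p L = volume L * ∫⁻ y : E n, ENNReal.ofReal
    ((Lap p L y / (volume L).toReal) ^ (-(1 / p))) := rfl

/-- total mass of the dual weight -/
noncomputable def Jp (n : ℕ) (p : ℝ) : ℝ := ∫ y : E n, Zs p y ^ (-(1 / p))

lemma Jp_pos {p : ℝ} (hp : 0 < p) : 0 < Jp n p := by
  refine (integral_pos_iff_support_of_nonneg (fun y => (Real.rpow_pos_of_pos (Zs_pos p y) _).le)
    (integrable_wt hp)).2 ?_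
  have : Function.support (fun y : E n => Zs p y ^ (-(1 / p))) = univ :=
    eq_univ_of_forall fun y => (Real.rpow_pos_of_pos (Zs_pos p y) _).ne'
  rw [this]
  exact isOpen_univ.measure_pos _ univ_nonempty

lemma ofReal_integral_le {f g : E n → ℝ} (hf : Integrable f) (hfg : ∀ y, f y ≤ g y) :
    ENNReal.ofReal (∫ y, f y) ≤ ∫⁻ y, ENNReal.ofReal (g y) := by
  calc ENNReal.ofReal (∫ y, f y) ≤ ENNReal.ofReal (∫ y, max (f y) 0) :=
        ENNReal.ofReal_le_ofReal (integral_mono hf hf.pos_part fun y => le_max_left _ _)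
    _ = ∫⁻ y, ENNReal.ofReal (max (f y) 0) :=
        ofReal_integral_eq_lintegral_ofReal hf.pos_part
          (Eventually.of_forall fun y => le_max_right _ _)
    _ ≤ _ := lintegral_mono fun y => by
        rcases le_total (f y) 0 with h | h
        · simp [h]
        · rw [max_eq_left h]; exact ENNReal.ofReal_le_ofReal (hfg y)

lemma tangent_pt {l z q s : ℝ} (hl : 0 < l) (hz : 0 < z) (hq : 0 < q) :
    (1 + q) * z ^ (-q) - q * (l * z ^ (-q - 1)) + s * z ^ (-q) ≤ l ^ (-q) * Real.exp s := by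
  have h1 : l ^ (-q) * Real.exp s = z ^ (-q) * Real.exp (-q * Real.log (l / z) + s) := by
    rw [Real.rpow_def_of_pos hl, Real.rpow_def_of_pos hz, ← Real.exp_add, ← Real.exp_add,
      Real.log_div hl.ne' hz.ne']
    ring_nf
  have h2 : l * z ^ (-q - 1) = z ^ (-q) * (l / z) := by
    rw [Real.rpow_sub_one hz.ne']; ring
  have h3 := Real.add_one_le_exp (-q * Real.log (l / z) + s)
  have h4 := Real.log_le_sub_one_of_pos (div_pos hl hz)
  have h5 := Real.rpow_pos_of_pos hz (-q)
  rw [h1, h2]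
  have h6 : 1 + q - q * (l / z) + s ≤ Real.exp (-q * Real.log (l / z) + s) := by nlinarith
  nlinarith [mul_le_mul_of_nonneg_left h6 h5.le]

lemma tangent {p : ℝ} (hp : 0 < p) {L : Set (E n)} (hLm : MeasurableSet L)
    (hL : L ⊆ cS n (1 + 1 / p / 4)) (h0 : volume L ≠ 0) (a : E n) :
    ENNReal.ofReal ((volume L).toReal ^ (1 + 1 / p) *
      (Jp n p + 1 / p * (Jp n p - ∫ x in L, Psi p x))) ≤ mahler p ((fun z => z - a) '' L) := by
  have hfin : volume L ≠ ∞ :=
    ne_top_of_le_ne_top (volume_cS_lt_top (by positivity)).ne (measure_mono hL)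
  set v := (volume L).toReal with hv
  have hv0 : 0 < v := ENNReal.toReal_pos h0 hfin
  rw [mahler_eq, volume_image_sub, ← hv, Real.rpow_add hv0, Real.rpow_one, mul_assoc,
    ENNReal.ofReal_mul hv0.le, hv, ENNReal.ofReal_toReal hfin, ← hv]
  gcongr
  have i1 := (integrable_wt (n := n) hp).const_mul (1 + 1 / p)
  have i2 := (integrable_Lap_wt hp hLm hL).const_mul (1 / p)
  have i3 := integrable_dot_wt hp a
  have e : Jp n p + 1 / p * (Jp n p - ∫ x in L, Psi p x) =
      ∫ y : E n, ((1 + 1 / p) * Zs p y ^ (-(1 / p)) - 1 / p * (Lap p L y * Zs p y ^ (-(1 / p) - 1))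
        + (a ⬝ᵥ y) * Zs p y ^ (-(1 / p))) := by
    rw [integral_add (f := fun y => (1 + 1 / p) * Zs p y ^ (-(1 / p)) -
      1 / p * (Lap p L y * Zs p y ^ (-(1 / p) - 1))) (i1.sub i2) i3, integral_sub i1 i2, integral_const_mul, integral_const_mul,
      integral_dot_wt hp, integral_Lap_wt hp hLm hL, Jp]
    ring
  rw [e, ← integral_const_mul]
  refine ofReal_integral_le (((i1.sub i2).add i3).const_mul _) fun y => ?_
  have hl := Lap_pos p y (by positivity) hL h0
  have h1 := tangent_pt (s := a ⬝ᵥ y) hl (Zs_pos p y) (show 0 < 1 / p by positivity)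
  have h2 : (Lap p ((fun z => z - a) '' L) y / v) ^ (-(1 / p)) =
      v ^ (1 / p) * (Lap p L y ^ (-(1 / p)) * Real.exp (a ⬝ᵥ y)) := by
    rw [Lap_image_sub, Real.div_rpow (by positivity) hv0.le, Real.mul_rpow hl.le (by positivity),
      ← Real.exp_mul, Real.rpow_neg hv0.le, div_inv_eq_mul, mul_comm]
    congr 3
    field_simp
  rw [h2]
  exact mul_le_mul_of_nonneg_left h1 (by positivity)

lemma integral_Psi_cS {p : ℝ} (hp : 0 < p) : ∫ x in cS n 1, Psi p x = Jp n p := by
  rw [← integral_Lap_wt hp (measurableSet_cS 1)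
    (cS_mono (le_add_of_nonneg_right (by positivity))), Jp]
  refine integral_congr_ae (Eventually.of_forall fun y => ?_)
  simp only
  rw [Real.rpow_sub_one (Zs_pos p y).ne']
  exact mul_div_cancel₀ _ (Zs_pos p y).ne'

lemma mahler_cS {p : ℝ} (hp : 0 < p) : mahler p (cS n 1) =
    ENNReal.ofReal ((volume (cS n 1)).toReal ^ (1 + 1 / p) * Jp n p) := by
  have hfin : volume (cS n 1) ≠ ∞ := (volume_cS_lt_top zero_le_one).ne
  set v := (volume (cS n 1)).toReal with hv
  have hv0 : 0 < v := ENNReal.toReal_pos (volume_cS_pos one_pos).ne' hfin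
  rw [mahler_eq, ← hv, Real.rpow_add hv0, Real.rpow_one, mul_assoc,
    ENNReal.ofReal_mul hv0.le, hv, ENNReal.ofReal_toReal hfin, ← hv, Jp, ← integral_const_mul,
    ofReal_integral_eq_lintegral_ofReal ((integrable_wt hp).const_mul _)
      (Eventually.of_forall fun y => mul_nonneg (by positivity)
        (Real.rpow_pos_of_pos (Zs_pos p y) _).le)]
  congr 1
  refine lintegral_congr fun y => ?_
  congr 1
  change (Zs p y / v) ^ _ = _
  rw [Real.div_rpow (Zs_pos p y).le hv0.le, Real.rpow_neg hv0.le, div_inv_eq_mul, mul_comm]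

lemma integrableOn_Psi {p : ℝ} (hp : 0 < p) {L : Set (E n)} (hL : L ⊆ cS n (1 + 1 / p / 4)) :
    IntegrableOn (Psi p) L :=
  ((continuousOn_Psi hp).integrableOn_compact (isCompact_cS (by positivity))).mono_set hL

lemma lintegral_Psi {p : ℝ} (hp : 0 < p) {L : Set (E n)} (hLm : MeasurableSet L)
    (hL : L ⊆ cS n (1 + 1 / p / 4)) :
    (∫⁻ x in L, ENNReal.ofReal (Psi p x)).toReal = ∫ x in L, Psi p x := by
  have h0 : 0 ≤ᵐ[volume.restrict L] Psi p := by
    filter_upwards [ae_restrict_mem hLm] with x hx using (Psi_pos hp (hL hx)).le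
  rw [← ofReal_integral_eq_lintegral_ofReal (integrableOn_Psi hp hL) h0,
    ENNReal.toReal_ofReal (integral_nonneg_of_ae h0)]

lemma lintegral_Psi_ne_top {p : ℝ} (hp : 0 < p) {L : Set (E n)}
    (hL : L ⊆ cS n (1 + 1 / p / 4)) : ∫⁻ x in L, ENNReal.ofReal (Psi p x) ≠ ∞ :=
  (integrableOn_Psi hp hL).lintegral_lt_top.ne

lemma image_smul_cS {r : ℝ} (hr : 0 < r) : (r • LinearMap.id : E n →ₗ[ℝ] E n) '' cS n 1 = cS n r := by
  ext z
  constructor
  · rintro ⟨x, hx, rfl⟩
    have := (smul_mem_cS hr).2 hx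
    simpa using this
  · intro hz
    refine ⟨r⁻¹ • z, ?_, by simp [smul_smul, inv_mul_cancel₀ hr.ne']⟩
    have := (smul_mem_cS (inv_pos.2 hr)).2 hz
    rwa [inv_mul_cancel₀ hr.ne'] at this

lemma det_smul_id (r : ℝ) : LinearMap.det (r • LinearMap.id : E n →ₗ[ℝ] E n) = r ^ n := by
  simp

lemma facet_mean {m : ℕ} {p : ℝ} (hp : 0 < p) :
    (1 + 1 / p) * Jp (m + 1) p * (mu m univ).toReal ≤
      1 / p * (∫⁻ l, ENNReal.ofReal (Psi p (A0 (m + 1) l)) ∂mu m).toReal *
        (volume (cS (m + 1) 1)).toReal := by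
  have hN := nice_Psi (m := m) hp
  set F := ∫⁻ l, ENNReal.ofReal (Psi p (A0 (m + 1) l)) ∂mu m with hF
  have hFt : F ≠ ∞ := hN.F_ne_top
  set U := mu m univ with hU
  have hUt : U ≠ ∞ := measure_ne_top _ _
  have hU0 : 0 < U.toReal := ENNReal.toReal_pos mu_univ_pos.ne' hUt
  have hfin : volume (cS (m + 1) 1) ≠ ∞ := (volume_cS_lt_top zero_le_one).ne
  set V := (volume (cS (m + 1) 1)).toReal with hV
  have hV0 : 0 < V := ENNReal.toReal_pos (volume_cS_pos one_pos).ne' hfin
  set q := 1 / p with hq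
  have hq0 : 0 < q := by positivity
  have hJ := Jp_pos (n := m + 1) hp
  have step : ∀ η : ℝ, 0 < η → (1 + q) * Jp (m + 1) p * U.toReal ≤
      q * (F.toReal + η * U.toReal) * V := by
    intro η hη
    obtain ⟨r₀, hr₀, hr₀R, hsh⟩ := hN.shell hη
    have hlim : Tendsto (fun r : ℝ => (r ^ (m + 1)) ^ (1 + q) * (q * (F.toReal + η * U.toReal) * V))
        (𝓝[>] 1) (𝓝 (q * (F.toReal + η * U.toReal) * V)) := by
      refine Tendsto.mono_left ?_ nhdsWithin_le_nhds
      have : ContinuousAt (fun r : ℝ => (r ^ (m + 1)) ^ (1 + q) *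
          (q * (F.toReal + η * U.toReal) * V)) 1 :=
        (((continuous_pow (m + 1)).continuousAt).rpow_const (Or.inr (by positivity))).mul
          continuousAt_const
      simpa using this.tendsto
    refine ge_of_tendsto hlim ?_
    filter_upwards [Ioc_mem_nhdsGT hr₀] with r hr
    have hr0 : 0 < r := one_pos.trans hr.1
    have hsub : cS (m + 1) r ⊆ cS (m + 1) (1 + q / 4) := cS_mono (hr.2.trans hr₀R)
    set ρ := r ^ (m + 1) with hρ
    have hρ1 : 1 < ρ := one_lt_pow₀ hr.1 (Nat.succ_ne_zero m)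
    have hvol : (volume (cS (m + 1) r)).toReal = ρ * V := by
      rw [← image_smul_cS hr0, Measure.addHaar_image_linearMap, det_smul_id, ENNReal.toReal_mul,
        ENNReal.toReal_ofReal (abs_nonneg _), abs_of_pos (by positivity)]
    have hmah : mahler p ((fun z => z - 0) '' cS (m + 1) r) =
        ENNReal.ofReal (V ^ (1 + q) * Jp (m + 1) p) := by
      simp only [sub_zero, image_id']
      rw [← image_smul_cS hr0, mahler_image_lin _ _ (by rw [det_smul_id]; positivity), mahler_cS hp]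
    have h1 := tangent hp (measurableSet_cS r) hsub (volume_cS_pos hr0).ne' 0
    rw [hmah, ENNReal.ofReal_le_ofReal_iff (by positivity), hvol,
      Real.mul_rpow (by positivity) hV0.le] at h1
    have hsd : cS (m + 1) r \ cS (m + 1) 1 ⊆ cS (m + 1) (1 + q / 4) := sdiff_subset.trans hsub
    have h2 : ∫ x in cS (m + 1) r \ cS (m + 1) 1, Psi p x =
        (∫ x in cS (m + 1) r, Psi p x) - Jp (m + 1) p := by
      rw [setIntegral_sdiff (measurableSet_cS 1) (integrableOn_Psi hp hsub) (cS_mono hr.1.le),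
        integral_Psi_cS hp]
    have h3 := ENNReal.toReal_mono (by
      have : volume (cS (m + 1) r \ cS (m + 1) 1) ≠ ∞ :=
        ne_top_of_le_ne_top (volume_cS_lt_top hr0.le).ne (measure_mono sdiff_subset)
      finiteness) (hsh r hr.1 hr.2)
    rw [ENNReal.toReal_mul, ENNReal.toReal_mul,
      lintegral_Psi hp ((measurableSet_cS r).diff (measurableSet_cS 1)) hsd, h2,
      ENNReal.toReal_add hFt (by finiteness), ENNReal.toReal_mul, ENNReal.toReal_ofReal hη.le,
      measure_sdiff (cS_mono hr.1.le) (measurableSet_cS 1).nullMeasurableSet hfin,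
      ENNReal.toReal_sub_of_le (measure_mono (cS_mono hr.1.le)) (volume_cS_lt_top hr0.le).ne,
      hvol, ← hV, ← hU] at h3
    have h4 : 1 + (1 + q) * (ρ - 1) ≤ ρ ^ (1 + q) := by
      have := one_add_mul_self_le_rpow_one_add (s := ρ - 1) (by linarith) (p := 1 + q) (by linarith)
      simpa using this
    set X := (∫ x in cS (m + 1) r, Psi p x) - Jp (m + 1) p with hX
    have h5 : ρ ^ (1 + q) * (Jp (m + 1) p - q * X) ≤ Jp (m + 1) p := by
      have hp' : 0 < V ^ (1 + q) := by positivity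
      refine le_of_mul_le_mul_left ?_ hp'
      refine le_trans (le_of_eq ?_) h1
      rw [hX, ← hq]; ring
    have hρq : 0 < ρ ^ (1 + q) := by positivity
    have h6 : (1 + q) * (ρ - 1) * Jp (m + 1) p ≤ ρ ^ (1 + q) * q * X := by nlinarith
    have h7 := mul_le_mul_of_nonneg_right h6 hU0.le
    have h8 := mul_le_mul_of_nonneg_left h3 (show 0 ≤ ρ ^ (1 + q) * q by positivity)
    refine le_of_mul_le_mul_left ?_ (sub_pos.2 hρ1)
    nlinarith
  refine le_of_forall_pos_le_add fun ε hε => ?_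
  have := step (ε / (q * U.toReal * V)) (by positivity)
  have h2 : q * (F.toReal + ε / (q * U.toReal * V) * U.toReal) * V = q * F.toReal * V + ε := by
    field_simp
  rwa [h2] at this

lemma local_centred {m : ℕ} {p : ℝ} (hp : 0 < p) :
    ∃ ε κ : ℝ, 0 < ε ∧ 0 < κ ∧ ∀ K : Set (E (m + 1)), Convex ℝ K → IsCompact K →
      K ⊆ cS (m + 1) 1 → Maxi K →
      (1 - ε) * (volume (cS (m + 1) 1)).toReal ≤ (volume K).toReal → ∀ a,
      ENNReal.ofReal (1 + κ * (1 - (volume K).toReal / (volume (cS (m + 1) 1)).toReal)) *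
        mahler p (cS (m + 1) 1) ≤ mahler p ((fun z => z - a) '' K) := by
  have hN := nice_Psi (m := m) hp
  obtain ⟨κ₁, δ, hκ₁, hδ0, hδ1, hdef⟩ := hN.deficit
  have hfm := facet_mean (m := m) hp
  set F := ∫⁻ l, ENNReal.ofReal (Psi p (A0 (m + 1) l)) ∂mu m with hF
  have hFt : F ≠ ∞ := hN.F_ne_top
  set U := mu m univ with hU
  have hUt : U ≠ ∞ := measure_ne_top _ _
  have hU0 : 0 < U.toReal := ENNReal.toReal_pos mu_univ_pos.ne' hUt
  have hfin : volume (cS (m + 1) 1) ≠ ∞ := (volume_cS_lt_top zero_le_one).ne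
  rw [mahler_cS hp]
  set V := (volume (cS (m + 1) 1)).toReal with hV
  have hV0 : 0 < V := ENNReal.toReal_pos (volume_cS_pos one_pos).ne' hfin
  set q := 1 / p with hq
  have hq0 : 0 < q := by positivity
  have hJ := Jp_pos (n := m + 1) hp
  set J := Jp (m + 1) p with hJdef
  set b := volume (Metric.closedBall (0 : E (m + 1)) (δ / ((m + 1 : ℕ) + 1) ^ 2)) with hb
  have hb0 : 0 < b := Metric.measure_closedBall_pos _ _ (by positivity)
  have hbt : b ≠ ∞ := measure_closedBall_lt_top.ne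
  have hbr : 0 < b.toReal := ENNReal.toReal_pos hb0.ne' hbt
  set κ₂ := q * κ₁ * V / (U.toReal * J) with hκ₂
  have hκ₂0 : 0 < κ₂ := by positivity
  refine ⟨min (b.toReal / (4 * V)) (min (1 / (2 * (1 + q))) (κ₂ / (2 * (1 + q) * (1 + q + κ₂)))),
    κ₂ / 2, by positivity, by positivity, fun K hKc hKk hKs hKM hKv a => ?_⟩
  have hKm : MeasurableSet K := hKk.measurableSet
  set w := 1 - (volume K).toReal / V with hw
  have hvK : (volume K).toReal = (1 - w) * V := by rw [hw]; field_simp; ring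
  have hw0 : 0 ≤ w := by
    rw [hw, sub_nonneg, div_le_one hV0]
    exact ENNReal.toReal_mono hfin (measure_mono hKs)
  have hwε : w ≤ min (b.toReal / (4 * V))
      (min (1 / (2 * (1 + q))) (κ₂ / (2 * (1 + q) * (1 + q + κ₂)))) := by
    rw [hvK] at hKv
    have := le_of_mul_le_mul_right hKv hV0
    linarith
  have hw1 : w ≤ b.toReal / (4 * V) := hwε.trans (min_le_left _ _)
  have hw2 : w ≤ 1 / (2 * (1 + q)) := hwε.trans ((min_le_right _ _).trans (min_le_left _ _))
  have hw3 : w ≤ κ₂ / (2 * (1 + q) * (1 + q + κ₂)) :=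
    hwε.trans ((min_le_right _ _).trans (min_le_right _ _))
  rw [le_div_iff₀ (by positivity)] at hw1 hw2 hw3
  have hKt : volume K ≠ ∞ := hKk.measure_lt_top.ne
  have hDt : volume (cS (m + 1) 1 \ K) ≠ ∞ := ne_top_of_le_ne_top hfin (measure_mono sdiff_subset)
  have hD : (volume (cS (m + 1) 1 \ K)).toReal = w * V := by
    rw [measure_sdiff hKs hKm.nullMeasurableSet hKt,
      ENNReal.toReal_sub_of_le (measure_mono hKs) hfin, hvK, ← hV]; ring
  have hcap : cS (m + 1) (1 - δ) ⊆ K := by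
    refine cap hKc hKm ?_
    rw [← hb, ← ENNReal.toReal_lt_toReal (by finiteness) hbt, ENNReal.toReal_mul, hD]
    simp only [toReal_ofNat]
    linarith
  have h1 := ENNReal.toReal_mono (ENNReal.mul_ne_top hUt (lintegral_Psi_ne_top hp
      (sdiff_subset.trans (cS_mono (le_add_of_nonneg_right (by positivity))))))
    (hdef K hKc hKk.isClosed hcap hKs (klee hKc hKk hKs hKM))
  have hR : cS (m + 1) 1 ⊆ cS (m + 1) (1 + q / 4) := cS_mono (le_add_of_nonneg_right (by positivity))
  rw [ENNReal.toReal_mul, ENNReal.toReal_mul, hD,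
    lintegral_Psi hp ((measurableSet_cS 1).diff hKm) (sdiff_subset.trans hR),
    setIntegral_sdiff hKm (integrableOn_Psi hp hR) hKs, integral_Psi_cS hp,
    ENNReal.toReal_add hFt ENNReal.ofReal_ne_top, ENNReal.toReal_ofReal hκ₁.le] at h1
  have hw4 : 0 < 1 - w := by nlinarith
  have hK0 : volume K ≠ 0 := by
    intro h; rw [h] at hvK
    have : 0 < (1 - w) * V := by positivity
    simp only [toReal_zero] at hvK
    linarith
  refine le_trans ?_ (tangent hp hKm (hKs.trans hR) hK0 a)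
  rw [← ENNReal.ofReal_mul (by positivity)]
  refine ENNReal.ofReal_le_ofReal ?_
  rw [hvK, Real.mul_rpow hw4.le hV0.le, ← hq, ← hJdef]
  set X := J - ∫ x in K, Psi p x with hX
  have h2 : J * (1 + (1 + q + κ₂) * w) ≤ J + q * X := by
    have h3 : κ₂ * (U.toReal * J) = q * κ₁ * V := by rw [hκ₂]; field_simp
    refine le_of_mul_le_mul_left ?_ hU0
    nlinarith [mul_le_mul_of_nonneg_left h1 hq0.le, mul_le_mul_of_nonneg_right hfm hw0]
  have h4 : 1 + (1 + q) * (-w) ≤ (1 - w) ^ (1 + q) := by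
    have := one_add_mul_self_le_rpow_one_add (s := -w) (by linarith) (p := 1 + q) (by linarith)
    rwa [← sub_eq_add_neg 1 w] at this
  have h5 : 1 + κ₂ / 2 * w ≤ (1 + (1 + q) * (-w)) * (1 + (1 + q + κ₂) * w) := by
    nlinarith [mul_le_mul_of_nonneg_right hw3 hw0]
  have h6 : 0 < V ^ (1 + q) := by positivity
  calc (1 + κ₂ / 2 * w) * (V ^ (1 + q) * J)
      ≤ ((1 + (1 + q) * (-w)) * (1 + (1 + q + κ₂) * w)) * (V ^ (1 + q) * J) := by gcongr
    _ ≤ ((1 - w) ^ (1 + q) * (1 + (1 + q + κ₂) * w)) * (V ^ (1 + q) * J) := by gcongr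
    _ = (1 - w) ^ (1 + q) * V ^ (1 + q) * (J * (1 + (1 + q + κ₂) * w)) := by ring
    _ ≤ _ := by gcongr

end Pool.Agent.MP_5f4cdd_gt

end

section

set_option autoImplicit false
open MeasureTheory ENNReal Set Matrix Topology Filter

namespace Pool.Agent.MP_5f4cdd_gt

variable {n : ℕ}

lemma volume_stdS : volume (stdS n) = volume (cS n 1) := by
  rw [← image_sub_cen, volume_image_sub]

lemma image_affine (e : E n ≃ᵃ[ℝ] E n) (S : Set (E n)) :
    e '' S = (fun z => z - (-e 0)) '' ((e.linear : E n →ₗ[ℝ] E n) '' S) := by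
  rw [image_image]
  refine image_congr fun x _ => ?_
  have := e.map_vadd 0 x
  simp only [vadd_eq_add, add_zero] at this
  simp [this]

lemma volume_image_affine (e : E n ≃ᵃ[ℝ] E n) (S : Set (E n)) :
    volume (e '' S) = ENNReal.ofReal |LinearMap.det (e.linear : E n →ₗ[ℝ] E n)| * volume S := by
  rw [image_affine, volume_image_sub, Measure.addHaar_image_linearMap]

lemma local_main {p : ℝ} (hp : 0 < p) :
    ∃ ε κ : ℝ, 0 < ε ∧ 0 < κ ∧ ∀ K : Set (E n), Convex ℝ K → IsCompact K → (interior K).Nonempty →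
      ∀ e : E n ≃ᵃ[ℝ] E n, K ⊆ e '' stdS n →
      (1 - ε) * (volume (e '' stdS n)).toReal ≤ (volume K).toReal →
      ∃ e' : E n ≃ᵃ[ℝ] E n, K ⊆ e' '' stdS n ∧
      ENNReal.ofReal (1 + κ * (1 - (volume K).toReal / (volume (e' '' stdS n)).toReal)) *
        mahler p (cS n 1) ≤ mahler p K := by
  cases n with
  | zero =>
    refine ⟨1, 1, one_pos, one_pos, fun K _ _ hKi e hKe _ => ⟨e, hKe, ?_⟩⟩
    have h1 : K = univ := by
      obtain ⟨x, hx⟩ := hKi
      exact eq_univ_of_forall fun y => by rw [Subsingleton.elim y x]; exact interior_subset hx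
    have h2 : e '' stdS 0 = univ := univ_subset_iff.1 (h1 ▸ hKe)
    have h3 : cS 0 1 = univ := eq_univ_of_forall fun y =>
      mem_cS_of_norm_le (by rw [Subsingleton.elim y 0, norm_zero]; positivity)
    have h4 : (volume (univ : Set (E 0))).toReal ≠ 0 := by
      rw [← h3]
      exact (ENNReal.toReal_pos (volume_cS_pos one_pos).ne'
        (volume_cS_lt_top zero_le_one).ne).ne'
    rw [h2, h3, h1, div_self h4]
    simp
  | succ m =>
    obtain ⟨ε, κ, hε, hκ, h⟩ := local_centred (m := m) hp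
    refine ⟨min ε 1, κ, lt_min hε one_pos, hκ, fun K hKc hKk hKi e hKe hKv => ?_⟩
    have hfin : volume (cS (m + 1) 1) ≠ ∞ := (volume_cS_lt_top zero_le_one).ne
    set V := (volume (cS (m + 1) 1)).toReal with hV
    have hV0 : 0 < V := ENNReal.toReal_pos (volume_cS_pos one_pos).ne' hfin
    set A := (e.linear : E (m + 1) →ₗ[ℝ] E (m + 1)) with hA
    set A' := (e.symm.linear : E (m + 1) →ₗ[ℝ] E (m + 1)) with hA'
    have hAA : LinearMap.det A * LinearMap.det A' = 1 := by
      rw [← LinearMap.det_comp]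
      have : A ∘ₗ A' = LinearMap.id := by
        ext1 x; simp [hA, hA']
      rw [this, LinearMap.det_id]
    have hA0 : 0 < |LinearMap.det A| := abs_pos.2 (left_ne_zero_of_mul_eq_one hAA)
    have hA'0 : 0 < |LinearMap.det A'| := abs_pos.2 (right_ne_zero_of_mul_eq_one hAA)
    obtain ⟨B, b, hB, hmax⟩ := exists_max hKi A' (e.symm 0 - cen (m + 1)) (by
      intro x hx
      obtain ⟨y, hy, rfl⟩ := hKe hx
      have h1 := e.symm.map_vadd 0 (e y)
      simp only [vadd_eq_add, add_zero, AffineEquiv.symm_apply_apply] at h1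
      have h2 : A' (e y) + (e.symm 0 - cen (m + 1)) = y - cen (m + 1) := by
        rw [← add_sub_assoc]; congr 1; exact h1.symm
      rw [h2]; exact mem_stdS_iff.1 hy)
    have hle : |LinearMap.det A'| ≤ |LinearMap.det B| := hmax A' (e.symm 0 - cen (m + 1)) (by
      intro x hx
      obtain ⟨y, hy, rfl⟩ := hKe hx
      have h1 := e.symm.map_vadd 0 (e y)
      simp only [vadd_eq_add, add_zero, AffineEquiv.symm_apply_apply] at h1
      have h2 : A' (e y) + (e.symm 0 - cen (m + 1)) = y - cen (m + 1) := by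
        rw [← add_sub_assoc]; congr 1; exact h1.symm
      rw [h2]; exact mem_stdS_iff.1 hy)
    have hB0 : 0 < |LinearMap.det B| := hA'0.trans_le hle
    have hBne : LinearMap.det B ≠ 0 := abs_pos.1 hB0
    set K' := (fun z => z - (-b)) '' (B '' K) with hK'
    have hK'mem : ∀ x ∈ K, B x + b ∈ K' := fun x hx => ⟨B x, ⟨x, hx, rfl⟩, by simp⟩
    have hK'c : Convex ℝ K' := by
      have := (hKc.linear_image B).translate b
      have he : (fun z : E (m + 1) => z - (-b)) = fun x => b + x := by ext z; simp [add_comm]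
      rwa [hK', he]
    have hK'k : IsCompact K' :=
      (hKk.image B.continuous_of_finiteDimensional).image (by fun_prop)
    have hK's : K' ⊆ cS (m + 1) 1 := by
      rintro _ ⟨_, ⟨x, hx, rfl⟩, rfl⟩
      simpa using hB x hx
    have hK'M : Maxi K' := by
      intro T c hT
      have := hmax (T ∘ₗ B) (T b + c) fun x hx => by
        have := hT _ (hK'mem x hx)
        simpa [add_assoc] using this
      rw [LinearMap.det_comp, abs_mul] at this
      exact le_of_mul_le_mul_right (by simpa using this) hB0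
    have hK'v : (volume K').toReal = |LinearMap.det B| * (volume K).toReal := by
      rw [hK', volume_image_sub, Measure.addHaar_image_linearMap, ENNReal.toReal_mul,
        ENNReal.toReal_ofReal hB0.le]
    have hev : (volume (e '' stdS (m + 1))).toReal = |LinearMap.det A| * V := by
      rw [volume_image_affine, volume_stdS, ENNReal.toReal_mul, ENNReal.toReal_ofReal hA0.le]
    have hAA' : |LinearMap.det A| * |LinearMap.det A'| = 1 := by rw [← abs_mul, hAA, abs_one]
    have hvol : (1 - ε) * V ≤ (volume K').toReal := by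
      rw [hK'v]
      rw [hev] at hKv
      have h1 : 0 ≤ 1 - min ε 1 := sub_nonneg.2 (min_le_right _ _)
      have h2 : 1 - ε ≤ 1 - min ε 1 := by linarith [min_le_left ε 1]
      have h3 : 0 ≤ (volume K).toReal := ENNReal.toReal_nonneg
      calc (1 - ε) * V ≤ (1 - min ε 1) * V := by gcongr
        _ = |LinearMap.det A'| * ((1 - min ε 1) * (|LinearMap.det A| * V)) := by
          linear_combination (-(1 - min ε 1) * V) * hAA'
        _ ≤ |LinearMap.det A'| * (volume K).toReal := by gcongr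
        _ ≤ _ := by gcongr
    have key := h K' hK'c hK'k hK's hK'M hvol b
    have hback : (fun z => z - b) '' K' = B '' K := by
      rw [hK', image_image]; simp
    rw [hback, mahler_image_lin p B hBne] at key
    set Be := LinearMap.equivOfDetNeZero B hBne with hBe
    set e' : E (m + 1) ≃ᵃ[ℝ] E (m + 1) :=
      (AffineEquiv.constVAdd ℝ (E (m + 1)) (-(cen (m + 1) + b))).trans Be.symm.toAffineEquiv with he'
    have hBe' : ∀ x, Be x = B x := fun x => rfl
    refine ⟨e', fun x hx => ⟨B x + b + cen (m + 1), mem_stdS_iff.2 (by simpa using hB x hx), ?_⟩, ?_⟩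
    · simp only [he', AffineEquiv.trans_apply, AffineEquiv.constVAdd_apply, vadd_eq_add,
        LinearEquiv.coe_toAffineEquiv]
      rw [LinearEquiv.symm_apply_eq, hBe']
      abel
    · have hdet : LinearMap.det (e'.linear : E (m + 1) →ₗ[ℝ] E (m + 1)) * LinearMap.det B = 1 := by
        rw [← LinearMap.det_comp]
        have : (e'.linear : E (m + 1) →ₗ[ℝ] E (m + 1)) ∘ₗ B = LinearMap.id := by
          refine LinearMap.ext fun x => ?_
          change Be.symm (B x) = x
          rw [LinearEquiv.symm_apply_eq, hBe']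
        rw [this, LinearMap.det_id]
      have habs : |LinearMap.det (e'.linear : E (m + 1) →ₗ[ℝ] E (m + 1))| = |LinearMap.det B|⁻¹ := by
        apply eq_inv_of_mul_eq_one_left
        rw [← abs_mul, hdet, abs_one]
      rw [volume_image_affine, volume_stdS, ENNReal.toReal_mul, ENNReal.toReal_ofReal (abs_nonneg _),
        habs, ← hV]
      rw [hK'v] at key
      convert key using 5
      field_simp

lemma convex_stdS : Convex ℝ (stdS n) := by
  intro x hx y hy a b ha hb hab
  refine ⟨fun i => add_nonneg (mul_nonneg ha (hx.1 i)) (mul_nonneg hb (hy.1 i)), ?_⟩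
  simp only [Pi.add_apply, Pi.smul_apply, smul_eq_mul, Finset.sum_add_distrib, ← Finset.mul_sum]
  nlinarith [hx.2, hy.2]

lemma mahler_cS_le {p : ℝ} (hp : 0 < p) (x : E n) :
    mahler p (cS n 1) ≤ mahler p ((fun z => z - x) '' stdS n) := by
  have h := tangent hp (measurableSet_cS (n := n) 1)
    (cS_mono (le_add_of_nonneg_right (by positivity))) (volume_cS_pos one_pos).ne' (x - cen n)
  rw [integral_Psi_cS hp, sub_self, mul_zero, add_zero, ← mahler_cS hp] at h
  convert h using 2
  rw [← image_sub_cen, image_image]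
  simp

lemma iInf_eq {p : ℝ} (hp : 0 < p) :
    ⨅ x ∈ stdS n, mahler p ((fun z => z - x) '' stdS n) = mahler p (cS n 1) :=
  le_antisymm ((iInf₂_le (cen n) cen_mem_stdS).trans (by rw [image_sub_cen]))
    (le_iInf₂ fun x _ => mahler_cS_le hp x)

theorem local_min (n : ℕ) (p : ℝ) (hp : 0 < p) :
    (0 < ⨅ x ∈ stdS n, mahler p ((fun z => z - x) '' stdS n) ∧
      ⨅ x ∈ stdS n, mahler p ((fun z => z - x) '' stdS n) < ∞) ∧
    ∃ ε κ : ℝ, 0 < ε ∧ 0 < κ ∧ ∀ K : Set (Fin n → ℝ),
      Convex ℝ K → IsCompact K → (interior K).Nonempty →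
      ∀ e : (Fin n → ℝ) ≃ᵃ[ℝ] (Fin n → ℝ), K ⊆ e '' stdS n →
      (1 - ε) * (volume (e '' stdS n)).toReal ≤ (volume K).toReal →
      ∃ e' : (Fin n → ℝ) ≃ᵃ[ℝ] (Fin n → ℝ), K ⊆ e' '' stdS n ∧
        ENNReal.ofReal (1 + κ * (1 - (volume K).toReal / (volume (e' '' stdS n)).toReal)) *
          (⨅ x ∈ stdS n, mahler p ((fun z => z - x) '' stdS n)) ≤ mahler p K := by
  rw [iInf_eq hp]
  refine ⟨⟨?_, ?_⟩, local_main hp⟩
  · rw [mahler_cS hp, ENNReal.ofReal_pos]
    have := ENNReal.toReal_pos (volume_cS_pos (n := n) one_pos).ne'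
      (volume_cS_lt_top zero_le_one).ne
    have := Jp_pos (n := n) hp
    positivity
  · rw [mahler_cS hp]; exact ENNReal.ofReal_lt_top

lemma volume_lt_of_ne {K S : Set (E n)} (hK : IsClosed K) (hKi : (interior K).Nonempty)
    (hS : Convex ℝ S) (hKS : K ⊆ S) (hne : K ≠ S) (hfin : volume K ≠ ∞) : volume K < volume S := by
  have h1 : (interior S \ K).Nonempty := by
    by_contra hc
    rw [not_nonempty_iff_eq_empty, sdiff_eq_empty] at hc
    have h2 := closure_minimal hc hK
    rw [hS.closure_interior_eq_closure_of_nonempty_interior (hKi.mono (interior_mono hKS))] at h2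
    exact hne (hKS.antisymm (subset_closure.trans h2))
  have h3 : 0 < volume (interior S \ K) := (isOpen_interior.sdiff hK).measure_pos _ h1
  calc volume K < volume K + volume (interior S \ K) := ENNReal.lt_add_right hfin h3.ne'
    _ = volume (K ∪ interior S \ K) :=
        (measure_union disjoint_sdiff_right (measurableSet_interior.diff hK.measurableSet)).symm
    _ ≤ volume S := measure_mono (union_subset hKS (sdiff_subset.trans interior_subset))

theorem local_min' (n : ℕ) (p : ℝ) (hp : 0 < p) :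
    ∃ ε κ : ℝ, 0 < ε ∧ 0 < κ ∧ ∀ K : Set (Fin n → ℝ),
      Convex ℝ K → IsCompact K → (interior K).Nonempty →
      ∀ e : AffineEquiv ℝ (Fin n → ℝ) (Fin n → ℝ), K ⊆ e '' stdS n →
      (1 - ε) * (volume (e '' stdS n)).toReal ≤ (volume K).toReal →
      ∃ e' : AffineEquiv ℝ (Fin n → ℝ) (Fin n → ℝ), K ⊆ e' '' stdS n ∧
        ENNReal.ofReal (1 + κ * (1 - (volume K).toReal / (volume (e' '' stdS n)).toReal)) *
          (⨅ x ∈ stdS n, mahler p ((fun z => z - x) '' stdS n)) ≤ mahler p K ∧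
        (K ≠ e' '' stdS n →
          (⨅ x ∈ stdS n, mahler p ((fun z => z - x) '' stdS n)) < mahler p K) := by
  obtain ⟨⟨h0, ht⟩, ε, κ, hε, hκ, h⟩ := local_min n p hp
  refine ⟨ε, κ, hε, hκ, fun K hKc hKk hKi e hKe hKv => ?_⟩
  obtain ⟨e', he', hle⟩ := h K hKc hKk hKi e hKe hKv
  refine ⟨e', he', hle, fun hne => lt_of_lt_of_le ?_ hle⟩
  have hSt : volume (e' '' stdS n) ≠ ∞ := by
    rw [volume_image_affine, volume_stdS]
    exact ENNReal.mul_ne_top ENNReal.ofReal_ne_top (volume_cS_lt_top zero_le_one).ne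
  have h1 := volume_lt_of_ne hKk.isClosed hKi (convex_stdS.affine_image e'.toAffineMap) he' hne
    hKk.measure_lt_top.ne
  have h2 : (volume K).toReal < (volume (e' '' stdS n)).toReal :=
    (ENNReal.toReal_lt_toReal hKk.measure_lt_top.ne hSt).2 h1
  have h3 : (volume K).toReal / (volume (e' '' stdS n)).toReal < 1 :=
    (div_lt_one (ENNReal.toReal_nonneg.trans_lt h2)).2 h2
  have h4 : 1 < ENNReal.ofReal (1 + κ * (1 - (volume K).toReal / (volume (e' '' stdS n)).toReal)) := by
    rw [ENNReal.one_lt_ofReal]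
    nlinarith
  calc _ = 1 * _ := (one_mul _).symm
    _ < _ := ENNReal.mul_lt_mul_left h0.ne' ht.ne h4

end Pool.Agent.MP_5f4cdd_gt

end

section

set_option autoImplicit false
open MeasureTheory ENNReal Set Matrix Topology Filter

namespace Pool.Agent.MP_5f4cdd_gt

variable {n : ℕ}

/-- barycentric coordinates with respect to the centred simplex -/
noncomputable def lam (x : E n) (j : Fin (n + 1)) : ℝ := bet n x j + 1 / (n + 1)

/-- vertices of the centred simplex -/
noncomputable def vtx (n : ℕ) (j : Fin (n + 1)) : E n :=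
  fun i => (Pi.single j 1 : E (n + 1)) i.succ - 1 / (n + 1)

/-- values of the functional `y` at the vertices -/
noncomputable def eta (y : E n) (j : Fin (n + 1)) : ℝ := vtx n j ⬝ᵥ y

lemma sum_lam (x : E n) : ∑ j, lam x j = 1 := by
  simp only [lam, Finset.sum_add_distrib, sum_bet, Finset.sum_const, Finset.card_univ,
    Fintype.card_fin, nsmul_eq_mul]
  push_cast; field_simp; simp

lemma mem_cS_lam {r : ℝ} {x : E n} : x ∈ cS n r ↔ ∀ j, (1 - r) / (n + 1) ≤ lam x j := by
  refine forall_congr' fun j => ?_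
  rw [lam, sub_div]
  constructor <;> intro h <;> linarith

lemma mem_cS_one {x : E n} : x ∈ cS n 1 ↔ ∀ j, 0 ≤ lam x j := by
  rw [mem_cS_lam]; simp

lemma bet_vtx (j k : Fin (n + 1)) :
    bet n (vtx n j) k = (Pi.single j 1 : E (n + 1)) k - 1 / (n + 1) := by
  have : ∑ k, ((Pi.single j 1 : E (n + 1)) - fun _ => 1 / ((n : ℝ) + 1) : E (n + 1)) k = 0 := by
    simp only [Pi.sub_apply, Finset.sum_sub_distrib, Finset.sum_pi_single', Finset.mem_univ,
      if_true, Finset.sum_const, Finset.card_univ, Fintype.card_fin, nsmul_eq_mul]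
    push_cast; field_simp; simp
  exact congrFun (bet_tail this) k

lemma lam_vtx (j k : Fin (n + 1)) : lam (vtx n j) k = (Pi.single j 1 : E (n + 1)) k := by
  rw [lam, bet_vtx]; ring

lemma vtx_mem (j : Fin (n + 1)) : vtx n j ∈ cS n 1 :=
  mem_cS_one.2 fun k => by
    rw [lam_vtx, Pi.single_apply]; split_ifs <;> norm_num

lemma sum_lam_vtx (x : E n) : ∑ j, lam x j • vtx n j = x := by
  ext i
  simp only [Finset.sum_apply, Pi.smul_apply, vtx, smul_eq_mul, mul_sub, Finset.sum_sub_distrib,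
    ← Finset.sum_mul, sum_lam, Pi.single_apply, mul_ite, mul_one, mul_zero,
    Finset.sum_ite_eq, Finset.mem_univ, if_true]
  simp [lam]

lemma lin_eq_sum (f : E n →ₗ[ℝ] ℝ) (x : E n) : f x = ∑ j, lam x j * f (vtx n j) := by
  conv_lhs => rw [← sum_lam_vtx x, map_sum]
  simp

lemma dot_eq_sum (x y : E n) : x ⬝ᵥ y = ∑ j, lam x j * eta y j := by
  conv_lhs => rw [← sum_lam_vtx x, sum_dotProduct]
  simp [eta]

lemma eta_sub_dot (x y : E n) (j : Fin (n + 1)) :
    eta y j - x ⬝ᵥ y = ∑ i, lam x i * (eta y j - eta y i) := by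
  simp only [mul_sub, Finset.sum_sub_distrib, ← Finset.sum_mul, sum_lam, one_mul, dot_eq_sum]

lemma lam_add (x u : E n) (j : Fin (n + 1)) : lam (x + u) j = lam x j + bet n u j := by
  simp only [lam, map_add, Pi.add_apply]; ring

lemma lam_homo (x z : E n) (c : ℝ) (j : Fin (n + 1)) :
    lam (x + c • (z - x)) j = (1 - c) * lam x j + c * lam z j := by
  simp only [lam, map_add, map_smul, map_sub, Pi.add_apply, Pi.smul_apply, Pi.sub_apply,
    smul_eq_mul]
  ring

lemma lam_smul (x : E n) (c : ℝ) (j : Fin (n + 1)) :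
    lam (c • x) j = c * lam x j + (1 - c) / (n + 1) := by
  simp only [lam, map_smul, Pi.smul_apply, smul_eq_mul]; ring

lemma lam_le {x : E n} (hx : x ∈ cS n 1) {j k : Fin (n + 1)} (h : k ≠ j) :
    lam x k ≤ 1 - lam x j := by
  have h1 := sum_lam x
  rw [← Finset.add_sum_erase _ _ (Finset.mem_univ j)] at h1
  have h2 : lam x k ≤ ∑ i ∈ Finset.univ.erase j, lam x i :=
    Finset.single_le_sum (f := lam x) (fun i _ => mem_cS_one.1 hx i) (by simp [h])
  linarith

lemma lam_le_one {x : E n} (hx : x ∈ cS n 1) (j : Fin (n + 1)) : lam x j ≤ 1 := by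
  rw [← sum_lam x]
  exact Finset.single_le_sum (f := lam x) (fun i _ => mem_cS_one.1 hx i) (Finset.mem_univ j)

lemma continuous_lam (j : Fin (n + 1)) : Continuous fun x : E n => lam x j :=
  ((continuous_apply j).comp continuous_bet).add continuous_const

lemma continuous_eta (j : Fin (n + 1)) : Continuous fun y : E n => eta y j := by
  unfold eta dotProduct; fun_prop

lemma Tp_vtx (σ : Equiv.Perm (Fin (n + 1))) (j : Fin (n + 1)) :
    Tp σ (vtx n (σ j)) = vtx n j := by
  apply bet_injective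
  ext k
  rw [bet_Tp_apply, bet_vtx, bet_vtx]
  simp [Pi.single_apply]

lemma eta_adj (σ : Equiv.Perm (Fin (n + 1))) (y : E n) (j : Fin (n + 1)) :
    eta (adj (Tp σ) y) (σ j) = eta y j := by
  rw [eta, ← dot_adj, Tp_vtx, eta]

lemma eta_zero (y : E n) : eta y 0 = -(∑ i, y i) / (n + 1) := by
  simp only [eta, vtx, dotProduct, Pi.single_apply, Fin.succ_ne_zero, if_false, zero_sub]
  rw [← Finset.mul_sum]; ring

lemma eta_zero_sub (y : E n) (i : Fin n) : eta y 0 - eta y i.succ = -y i := by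
  rw [eta, eta, ← sub_dotProduct]
  have : vtx n 0 - vtx n i.succ = -Pi.single i 1 := by
    ext k; simp [vtx, Pi.single_apply]; ring
  rw [this]; simp

/-- corner of the simplex at the vertex `j` -/
def corner (n : ℕ) (j : Fin (n + 1)) (δ : ℝ) : Set (E n) := {x | x ∈ cS n 1 ∧ 1 - δ ≤ lam x j}

lemma isClosed_corner (j : Fin (n + 1)) (δ : ℝ) : IsClosed (corner n j δ) :=
  (isClosed_cS 1).inter (isClosed_le continuous_const (continuous_lam j))

lemma measurableSet_corner (j : Fin (n + 1)) (δ : ℝ) : MeasurableSet (corner n j δ) :=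
  (isClosed_corner j δ).measurableSet

lemma corner_subset (j : Fin (n + 1)) (δ : ℝ) : corner n j δ ⊆ cS n 1 := fun _ h => h.1

/-- if a deep point of the simplex is missing from `K`, a whole corner is missing -/
lemma corner_missing {K : Set (E n)} (hK : Convex ℝ K) (hcl : IsClosed K) {d : ℝ} {x : E n}
    (hx : x ∈ cS n (1 - d)) (hxK : x ∉ K) :
    ∃ j, ∀ z ∈ corner n j (d / (n + 1)), z ∉ K := by
  obtain ⟨f, u, hf, hu⟩ := geometric_hahn_banach_closed_point hK hcl hxK
  obtain ⟨j, -, hj⟩ := Finset.exists_max_image Finset.univ (fun j => f (vtx n j))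
    Finset.univ_nonempty
  refine ⟨j, fun z hz hzK => ?_⟩
  have h1 := hf z hzK
  have key : ∀ w : E n, f (vtx n j) - f w = ∑ i, lam w i * (f (vtx n j) - f (vtx n i)) := by
    intro w
    have := lin_eq_sum (f : E n →ₗ[ℝ] ℝ) w
    simp only [ContinuousLinearMap.coe_coe] at this
    simp only [mul_sub, Finset.sum_sub_distrib, ← Finset.sum_mul, sum_lam, one_mul, ← this]
  have h2 : ∑ i, lam z i * (f (vtx n j) - f (vtx n i)) ≤
      ∑ i, lam x i * (f (vtx n j) - f (vtx n i)) := by
    refine Finset.sum_le_sum fun i _ => ?_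
    by_cases hi : i = j
    · simp [hi]
    · refine mul_le_mul_of_nonneg_right ?_ (sub_nonneg.2 (hj i (Finset.mem_univ i)))
      have h3 := lam_le hz.1 hi
      have h4 := mem_cS_lam.1 hx i
      have h5 := hz.2
      rw [_root_.sub_sub_cancel] at h4
      linarith
  rw [← key, ← key] at h2
  linarith

end Pool.Agent.MP_5f4cdd_gt

end

section

set_option autoImplicit false
open MeasureTheory ENNReal Set Matrix Topology Filter

namespace Pool.Agent.MP_5f4cdd_gt

variable {n : ℕ}

lemma setIntegral_image_sub (a : E n) (L : Set (E n)) (f : E n → ℝ) :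
    ∫ x in (fun z => z - a) '' L, f x = ∫ x in L, f (x - a) := by
  have := (measurePreserving_add_right (volume : Measure (E n)) a).setIntegral_preimage_emb
    (measurableEmbedding_addRight a) (fun x => f (x - a)) L
  simp only [add_sub_cancel_right] at this
  rw [image_sub_eq, this]

lemma setIntegral_homo (x₀ : E n) {c : ℝ} (hc : 0 < c) (L : Set (E n)) (f : E n → ℝ) :
    ∫ x in (fun z => x₀ + c • (z - x₀)) '' L, f x = c ^ n * ∫ x in L, f (x₀ + c • (x - x₀)) := by
  have h : (fun z => x₀ + c • (z - x₀)) '' L = (fun z => z - (c • x₀ - x₀)) ''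
      ((c • LinearMap.id : E n →ₗ[ℝ] E n) '' L) := by
    rw [image_image]
    refine image_congr fun z _ => ?_
    simp only [LinearMap.smul_apply, LinearMap.id_coe, id_eq, smul_sub]; abel
  rw [h, setIntegral_image_sub, setIntegral_image_lin _ (by rw [det_smul_id]; positivity),
    det_smul_id, abs_of_pos (by positivity)]
  congr 1
  refine integral_congr_ae (Eventually.of_forall fun z => ?_)
  simp only [LinearMap.smul_apply, LinearMap.id_coe, id_eq, smul_sub]
  congr 1; abel

lemma Lap_nonneg (p : ℝ) (L : Set (E n)) (y : E n) : 0 ≤ Lap p L y :=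
  integral_nonneg fun _ => (Real.exp_pos _).le

lemma Lap_mono (p : ℝ) (y : E n) {L L' : Set (E n)} (h : L ⊆ L') {r : ℝ} (hr : 0 ≤ r)
    (h' : L' ⊆ cS n r) : Lap p L y ≤ Lap p L' y :=
  setIntegral_mono_set (integrableOn_exp_dot p y hr h')
    (Eventually.of_forall fun _ => (Real.exp_pos _).le) h.eventuallyLE

lemma Lap_sdiff (p : ℝ) (y : E n) {L : Set (E n)} (hm : MeasurableSet L) (h : L ⊆ cS n 1) :
    Lap p (cS n 1 \ L) y = Zs p y - Lap p L y :=
  setIntegral_sdiff hm (integrableOn_exp_dot p y zero_le_one subset_rfl) h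

lemma Zs_smul (p : ℝ) {x₀ : E n} (hx : x₀ ∈ cS n 1) {t : ℝ} (ht : 1 ≤ t) (y : E n) :
    Real.exp (p * ((t - 1) * (x₀ ⬝ᵥ y))) * Zs p y ≤ t ^ n * Zs p (t • y) := by
  have ht0 : 0 < t := by linarith
  have h1 := setIntegral_homo x₀ (inv_pos.2 ht0) (cS n 1) fun x => Real.exp (p * (x ⬝ᵥ (t • y)))
  have h2 : Lap p ((fun z => x₀ + t⁻¹ • (z - x₀)) '' cS n 1) (t • y) ≤ Zs p (t • y) := by
    refine Lap_mono p _ ?_ zero_le_one subset_rfl
    rintro _ ⟨z, hz, rfl⟩
    exact (convex_cS 1).add_smul_sub_mem hx hz ⟨by positivity, inv_le_one_of_one_le₀ ht⟩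
  have h3 : ∫ x in cS n 1, Real.exp (p * ((x₀ + t⁻¹ • (x - x₀)) ⬝ᵥ (t • y))) =
      Real.exp (p * ((t - 1) * (x₀ ⬝ᵥ y))) * Zs p y := by
    rw [Zs, Lap, ← integral_const_mul]
    refine integral_congr_ae (Eventually.of_forall fun z => ?_)
    simp only [← Real.exp_add, add_dotProduct, smul_dotProduct, dotProduct_smul, sub_dotProduct,
      smul_eq_mul]
    congr 1; field_simp; ring
  rw [Lap, h1, h3, inv_pow, inv_mul_le_iff₀ (by positivity)] at h2
  exact h2

/-- Harnack inequality for the dual potential along rays -/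
lemma Psi_harnack {p : ℝ} (hp : 0 < p) {x : E n} (hx : x ∈ cS n 1) {s : ℝ} (hs0 : 0 < s)
    (hs1 : s ≤ 1) :
    Psi p x ≤ (1 + p * (1 - s)) ^ ((n : ℝ) * (2 + 1 / p)) * Psi p (s • x) := by
  set t := 1 + p * (1 - s) with ht
  have ht1 : 1 ≤ t := le_add_of_nonneg_right (mul_nonneg hp.le (by linarith))
  have ht0 : 0 < t := by linarith
  have hR : (1 : ℝ) ≤ 1 + 1 / p / 4 := le_add_of_nonneg_right (by positivity)
  have hsx : s • x ∈ cS n 1 := cS_mono (by linarith) ((smul_mem_cS hs0).2 hx)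
  have h1 := Measure.integral_comp_smul_of_nonneg volume
    (fun y : E n => Real.exp (p * (x ⬝ᵥ y)) * Zs p y ^ (-(1 / p) - 1)) t (hR := ht0.le)
  simp only [Module.finrank_fintype_fun_eq_card, Fintype.card_fin, smul_eq_mul] at h1
  have h2 : Psi p x = t ^ n * ∫ y : E n,
      Real.exp (p * (x ⬝ᵥ (t • y))) * Zs p (t • y) ^ (-(1 / p) - 1) := by
    rw [h1, Psi, ← mul_assoc, mul_inv_cancel₀ (by positivity), one_mul]
  have h3 : ∀ y : E n, Real.exp (p * (x ⬝ᵥ (t • y))) * Zs p (t • y) ^ (-(1 / p) - 1) ≤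
      t ^ ((n : ℝ) * (1 + 1 / p)) *
        (Real.exp (p * ((s • x) ⬝ᵥ y)) * Zs p y ^ (-(1 / p) - 1)) := by
    intro y
    have h4 := Real.log_le_log (mul_pos (Real.exp_pos _) (Zs_pos p y)) (Zs_smul p hx ht1 y)
    rw [Real.log_mul (Real.exp_pos _).ne' (Zs_pos p y).ne', Real.log_exp,
      Real.log_mul (by positivity) (Zs_pos p _).ne', Real.log_pow] at h4
    rw [Real.rpow_def_of_pos (Zs_pos p _), Real.rpow_def_of_pos (Zs_pos p _),
      Real.rpow_def_of_pos ht0, ← Real.exp_add, ← Real.exp_add, ← Real.exp_add, Real.exp_le_exp]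
    simp only [dotProduct_smul, smul_dotProduct, smul_eq_mul]
    have h5 := mul_le_mul_of_nonneg_left h4 (show 0 ≤ 1 + 1 / p by positivity)
    have h6 : (1 + 1 / p) * (p * ((t - 1) * (x ⬝ᵥ y))) = p * (t * x ⬝ᵥ y) - p * (s * x ⬝ᵥ y) := by
      rw [ht]; field_simp; ring
    nlinarith
  have h4 : t ^ ((n : ℝ) * (2 + 1 / p)) = t ^ n * t ^ ((n : ℝ) * (1 + 1 / p)) := by
    rw [← Real.rpow_natCast, ← Real.rpow_add ht0]; ring_nf
  rw [h2, h4, mul_assoc, Psi, ← integral_const_mul (t ^ ((n : ℝ) * (1 + 1 / p)))]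
  refine mul_le_mul_of_nonneg_left (integral_mono_of_nonneg
    (Eventually.of_forall fun y => (ker_pos p x _).le)
    ((integrable_ker hp (cS_mono hR hsx)).const_mul _) (Eventually.of_forall h3)) (by positivity)

lemma Lap_off_corner {p a δ : ℝ} (hp : 0 ≤ p) (ha : 0 ≤ a) {y : E n} {j : Fin (n + 1)}
    (hy : ∀ i, i ≠ j → a ≤ eta y j - eta y i) :
    Lap p (cS n 1 \ corner n j δ) y ≤ 2 ^ n * Real.exp (-(p * a * δ / 2)) * Zs p y := by
  have h1 := Zs_smul p (vtx_mem j) (t := 2) (by norm_num) ((1 / 2 : ℝ) • y)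
  rw [smul_smul] at h1
  norm_num at h1
  have hm : MeasurableSet (cS n 1 \ corner n j δ) :=
    (measurableSet_cS 1).diff (measurableSet_corner j δ)
  have h2 : Lap p (cS n 1 \ corner n j δ) y ≤ Real.exp (-(p * a * δ / 2)) *
      (Real.exp (p * (1 / 2 * eta y j)) * Lap p (cS n 1 \ corner n j δ) ((1 / 2 : ℝ) • y)) := by
    rw [Lap, Lap, ← integral_const_mul, ← integral_const_mul]
    refine setIntegral_mono_on (integrableOn_exp_dot p y zero_le_one sdiff_subset)
      (((integrableOn_exp_dot p _ zero_le_one sdiff_subset).const_mul _).const_mul _) hm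
      fun x hx => ?_
    rw [← Real.exp_add, ← Real.exp_add, Real.exp_le_exp, dotProduct_smul, smul_eq_mul]
    have h3 : lam x j < 1 - δ := by
      by_contra hc
      exact hx.2 ⟨hx.1, not_lt.1 hc⟩
    have h4 : a * (1 - lam x j) ≤ eta y j - x ⬝ᵥ y := by
      rw [eta_sub_dot, ← sum_lam x, ← Finset.add_sum_erase _ _ (Finset.mem_univ j),
        ← Finset.add_sum_erase _ _ (Finset.mem_univ j), add_sub_cancel_left, sub_self, mul_zero,
        zero_add, Finset.mul_sum]
      refine Finset.sum_le_sum fun i hi => ?_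
      rw [mul_comm]
      exact mul_le_mul_of_nonneg_left (hy i (Finset.ne_of_mem_erase hi)) (mem_cS_one.1 hx.1 i)
    have h5 : a * δ ≤ eta y j - x ⬝ᵥ y := le_trans (by nlinarith) h4
    nlinarith [mul_le_mul_of_nonneg_left h5 hp]
  have h3 : Lap p (cS n 1 \ corner n j δ) ((1 / 2 : ℝ) • y) ≤ Zs p ((1 / 2 : ℝ) • y) :=
    Lap_mono p _ sdiff_subset zero_le_one subset_rfl
  calc _ ≤ _ := h2
    _ ≤ Real.exp (-(p * a * δ / 2)) *
      (Real.exp (p * (1 / 2 * eta y j)) * Zs p ((1 / 2 : ℝ) • y)) := by gcongr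
    _ ≤ Real.exp (-(p * a * δ / 2)) * (2 ^ n * Zs p y) :=
      mul_le_mul_of_nonneg_left h1 (Real.exp_pos _).le
    _ = _ := by ring

lemma Lap_corner_scale {p δ c : ℝ} (hp : 0 ≤ p) (hc0 : 0 < c) (hc1 : c ≤ 1) {y : E n}
    {j : Fin (n + 1)} (hy : ∀ i, eta y i ≤ eta y j) :
    c ^ n * Lap p (corner n j δ) y ≤ Lap p (corner n j (c * δ)) y := by
  have h1 := setIntegral_homo (vtx n j) hc0 (corner n j δ) fun x => Real.exp (p * (x ⬝ᵥ y))
  have hsub : (fun z => vtx n j + c • (z - vtx n j)) '' corner n j δ ⊆ corner n j (c * δ) := by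
    rintro _ ⟨z, hz, rfl⟩
    refine ⟨(convex_cS 1).add_smul_sub_mem (vtx_mem j) hz.1 ⟨hc0.le, hc1⟩, ?_⟩
    rw [lam_homo, lam_vtx, Pi.single_eq_same]
    nlinarith [hz.2]
  refine le_trans ?_ (Lap_mono p y hsub zero_le_one (corner_subset j _))
  rw [Lap, Lap, h1]
  refine mul_le_mul_of_nonneg_left (setIntegral_mono_on
    (integrableOn_exp_dot p y zero_le_one (corner_subset j δ)) ?_ (measurableSet_corner j δ)
    fun x hx => ?_) (by positivity)
  · refine (Continuous.continuousOn ?_).integrableOn_compact (isCompact_cS zero_le_one)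
      |>.mono_set (corner_subset j δ)
    exact (continuous_exp_dot p y).comp (by fun_prop)
  · rw [Real.exp_le_exp]
    refine mul_le_mul_of_nonneg_left ?_ hp
    have h4 : 0 ≤ eta y j - x ⬝ᵥ y := by
      rw [eta_sub_dot]
      exact Finset.sum_nonneg fun i _ => mul_nonneg (mem_cS_one.1 hx.1 i) (sub_nonneg.2 (hy i))
    simp only [add_dotProduct, smul_dotProduct, sub_dotProduct, smul_eq_mul]
    change _ ≤ eta y j + c * (x ⬝ᵥ y - eta y j)
    nlinarith

lemma two_pow_le_exp (k : ℕ) : (2 : ℝ) ^ k ≤ Real.exp k := by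
  rw [← Real.exp_one_pow]
  exact pow_le_pow_left₀ (by norm_num) (by linarith [Real.add_one_le_exp (1 : ℝ)]) k

/-- removing a corner of size at least `θ / p` costs an exponential factor -/
lemma Lap_off_corner' {a θ : ℝ} (ha : 0 < a) (hθ : 0 < θ) :
    ∃ c : ℝ, 0 < c ∧ ∀ p δ : ℝ, 0 < p → θ ≤ p * δ → ∀ (y : E n) (j : Fin (n + 1)),
      (∀ i, i ≠ j → a ≤ eta y j - eta y i) →
      Lap p (cS n 1 \ corner n j δ) y ≤ Real.exp (-(p * (c * δ))) * Zs p y := by
  set T : ℝ := 4 * (n + 1) / a with hT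
  have hT0 : 0 < T := by positivity
  have haT : a * T = 4 * (n + 1) := by rw [hT]; field_simp
  refine ⟨min (a / 4) ((θ / T) ^ n / (2 * T)), by positivity, fun p δ hp hδ y j hy => ?_⟩
  have hZ := Zs_pos p y
  have hpδ : 0 < p * δ := hθ.trans_le hδ
  have key : ∀ d : ℝ, T ≤ p * d →
      Lap p (cS n 1 \ corner n j d) y ≤ 1 / 2 * Real.exp (-(p * (a / 4 * d))) * Zs p y := by
    intro d hd
    refine (Lap_off_corner hp.le ha.le hy).trans (mul_le_mul_of_nonneg_right ?_ hZ.le)
    have h1 := two_pow_le_exp (n + 1)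
    have h2 : Real.exp ((n + 1 : ℕ) : ℝ) * Real.exp (-(p * a * d / 2)) ≤
        Real.exp (-(p * (a / 4 * d))) := by
      rw [← Real.exp_add, Real.exp_le_exp]
      push_cast
      nlinarith [mul_le_mul_of_nonneg_left hd ha.le]
    rw [pow_succ] at h1
    nlinarith [mul_le_mul_of_nonneg_right h1 (Real.exp_pos (-(p * a * d / 2))).le]
  rcases le_total T (p * δ) with h | h
  · refine (key δ h).trans (mul_le_mul_of_nonneg_right ?_ hZ.le)
    have h1 : Real.exp (-(p * (a / 4 * δ))) ≤
        Real.exp (-(p * (min (a / 4) ((θ / T) ^ n / (2 * T)) * δ))) := by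
      rw [Real.exp_le_exp]
      nlinarith [mul_le_mul_of_nonneg_right (min_le_left (a / 4) ((θ / T) ^ n / (2 * T))) hpδ.le]
    linarith [Real.exp_pos (-(p * (a / 4 * δ)))]
  · have hy' : ∀ i, eta y i ≤ eta y j := fun i => by
      by_cases hi : i = j
      · rw [hi]
      · linarith [hy i hi]
    have h1 := key (T / p) (by rw [mul_div_cancel₀ _ hp.ne'])
    have h2 := Lap_corner_scale (δ := T / p) hp.le (div_pos hpδ hT0) ((div_le_one hT0).2 h) hy'
    have h3 : p * δ / T * (T / p) = δ := by field_simp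
    rw [h3] at h2
    rw [Lap_sdiff p y (measurableSet_corner _ _) (corner_subset _ _)] at h1 ⊢
    have h4 : Real.exp (-(p * (a / 4 * (T / p)))) ≤ 1 :=
      Real.exp_le_one_iff.2 (neg_nonpos.2 (by positivity))
    have h5 : Zs p y / 2 ≤ Lap p (corner n j (T / p)) y := by nlinarith
    have h6 : (θ / T) ^ n ≤ (p * δ / T) ^ n := by gcongr
    have h7 : (θ / T) ^ n * (Zs p y / 2) ≤ Lap p (corner n j δ) y :=
      le_trans (mul_le_mul h6 h5 (by positivity) (by positivity)) h2
    have h8 := Real.add_one_le_exp (-(p * (min (a / 4) ((θ / T) ^ n / (2 * T)) * δ)))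
    have h9 : p * (min (a / 4) ((θ / T) ^ n / (2 * T)) * δ) ≤ (θ / T) ^ n / 2 := by
      calc _ = min (a / 4) ((θ / T) ^ n / (2 * T)) * (p * δ) := by ring
        _ ≤ (θ / T) ^ n / (2 * T) * T :=
          mul_le_mul (min_le_right _ _) h hpδ.le (by positivity)
        _ = _ := by field_simp
    nlinarith

/-- if `K` avoids the facets near the vertex `j` by margins `r`, its transform drops -/
lemma Lap_shift {p δ : ℝ} {K : Set (E n)} (hK : K ⊆ cS n 1)
    {j : Fin (n + 1)} {r : Fin (n + 1) → ℝ} (hr : ∀ i, 0 ≤ r i)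
    (hKr : ∀ x ∈ K, 1 - δ ≤ lam x j → ∀ i, i ≠ j → r i ≤ lam x i) (y : E n) :
    Lap p K y ≤ Lap p (cS n 1 \ corner n j δ) y +
      Real.exp (-(p * ∑ i, r i * (eta y j - eta y i))) * Lap p (corner n j δ) y := by
  set u : E n := ∑ i, r i • (vtx n j - vtx n i) with hu
  have hub : ∀ k, bet n u k = (∑ i, r i) * (Pi.single j 1 : E (n + 1)) k - r k := by
    intro k
    simp only [hu, map_sum, map_smul, map_sub, Finset.sum_apply, Pi.smul_apply, Pi.sub_apply,
      bet_vtx, smul_eq_mul, sub_sub_sub_cancel_right, mul_sub, Finset.sum_sub_distrib,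
      ← Finset.sum_mul]
    simp [Pi.single_apply]
  have huy : u ⬝ᵥ y = ∑ i, r i * (eta y j - eta y i) := by
    simp [hu, sum_dotProduct, eta, sub_dotProduct]
  have h1 : Lap p K y = Lap p (K ∩ corner n j δ) y + Lap p (K \ corner n j δ) y :=
    (integral_inter_add_sdiff (measurableSet_corner j δ)
      (integrableOn_exp_dot p y zero_le_one hK)).symm
  have h2 : Lap p (K \ corner n j δ) y ≤ Lap p (cS n 1 \ corner n j δ) y :=
    Lap_mono p y (sdiff_subset_sdiff_left hK) zero_le_one sdiff_subset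
  have h3 : Lap p ((fun z => z - (-u)) '' (K ∩ corner n j δ)) y ≤ Lap p (corner n j δ) y := by
    refine Lap_mono p y ?_ zero_le_one (corner_subset j δ)
    rintro _ ⟨x, ⟨hxK, hx⟩, rfl⟩
    have hj : 0 ≤ bet n u j := by
      rw [hub, Pi.single_eq_same, mul_one, sub_nonneg]
      exact Finset.single_le_sum (fun i _ => hr i) (Finset.mem_univ j)
    simp only [sub_neg_eq_add]
    refine ⟨mem_cS_one.2 fun k => ?_, by rw [lam_add]; linarith [hx.2]⟩
    rw [lam_add]
    by_cases hk : k = j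
    · rw [hk]; linarith [mem_cS_one.1 hx.1 j]
    · rw [hub, Pi.single_eq_of_ne hk]
      linarith [hKr x hxK hx.2 k hk]
  rw [Lap_image_sub, neg_dotProduct, huy] at h3
  have h4 := mul_le_mul_of_nonneg_left h3
    (Real.exp_pos (-(p * ∑ i, r i * (eta y j - eta y i)))).le
  rw [mul_left_comm, ← Real.exp_add] at h4
  simp only [mul_neg, neg_neg, neg_add_cancel, Real.exp_zero, mul_one] at h4
  linarith

lemma exp_mix {β ρ η : ℝ} (hβ : 0 ≤ β) (hρ : 0 ≤ ρ) (h : β * Real.exp ρ ≤ η) :
    β + Real.exp (-ρ) * (1 - β) ≤ Real.exp (-((1 - η) * ρ)) := by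
  have h1 : Real.exp (-((1 - η) * ρ)) = Real.exp (-ρ) * Real.exp (η * ρ) := by
    rw [← Real.exp_add]; ring_nf
  have h2 : Real.exp (-ρ) * Real.exp ρ = 1 := by rw [← Real.exp_add]; simp
  have h3 := Real.add_one_le_exp (-ρ)
  have h4 := Real.add_one_le_exp (η * ρ)
  have h5 := Real.exp_pos (-ρ)
  have h6 : β ≤ Real.exp (-ρ) * η := by
    have := mul_le_mul_of_nonneg_left h h5.le
    nlinarith
  rw [h1]
  nlinarith [mul_le_mul_of_nonneg_left h4 h5.le, mul_le_mul_of_nonneg_right h6 hρ,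
    mul_le_mul_of_nonneg_left h3 hβ]

lemma Lap_shift' {p δ a b η : ℝ} (hp : 0 ≤ p) (ha : 0 ≤ a) {K : Set (E n)}
    (hK : K ⊆ cS n 1)
    {j : Fin (n + 1)} {r : Fin (n + 1) → ℝ} (hr : ∀ i, 0 ≤ r i)
    (hKr : ∀ x ∈ K, 1 - δ ≤ lam x j → ∀ i, i ≠ j → r i ≤ lam x i)
    (hb : (∑ i, r i) * b ≤ a * δ / 4) (hη : 2 ^ n * Real.exp (-(p * a * δ / 4)) ≤ η)
    {y : E n} (hy : ∀ i, i ≠ j → eta y j - eta y i ∈ Icc a b) (hab : a ≤ b) :
    Lap p K y ≤ Real.exp (-(p * ((1 - η) * ∑ i, r i * (eta y j - eta y i)))) * Zs p y := by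
  have h1 := Lap_shift (p := p) hK hr hKr y
  have h2 := Lap_off_corner (δ := δ) hp ha (fun i hi => (hy i hi).1)
  have h3 := Lap_sdiff p y (measurableSet_corner j δ) (corner_subset j δ)
  have hZ := Zs_pos p y
  set R := ∑ i, r i * (eta y j - eta y i) with hR
  have hR0 : 0 ≤ R := Finset.sum_nonneg fun i _ => by
    by_cases hi : i = j
    · simp [hi]
    · exact mul_nonneg (hr i) (ha.trans (hy i hi).1)
  have hRb : R ≤ (∑ i, r i) * b := by
    rw [Finset.sum_mul]
    refine Finset.sum_le_sum fun i _ => mul_le_mul_of_nonneg_left ?_ (hr i)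
    by_cases hi : i = j
    · simp [hi, ha.trans hab]
    · exact (hy i hi).2
  set β := Lap p (cS n 1 \ corner n j δ) y / Zs p y with hβ
  have hβ0 : 0 ≤ β := div_nonneg (Lap_nonneg _ _ _) hZ.le
  have hβ1 : Lap p (cS n 1 \ corner n j δ) y = β * Zs p y := by rw [hβ]; field_simp
  have h4 : β * Real.exp (p * R) ≤ η := by
    have h5 : β ≤ 2 ^ n * Real.exp (-(p * a * δ / 2)) := by rw [hβ, div_le_iff₀ hZ]; exact h2
    refine le_trans (mul_le_mul_of_nonneg_right h5 (Real.exp_pos _).le) (le_trans ?_ hη)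
    rw [mul_assoc, ← Real.exp_add]
    gcongr
    nlinarith [mul_le_mul_of_nonneg_left (hRb.trans hb) hp]
  have h5 := mul_le_mul_of_nonneg_right (exp_mix hβ0 (mul_nonneg hp hR0) h4) hZ.le
  have h6 : Lap p (corner n j δ) y = (1 - β) * Zs p y := by linarith
  rw [hβ1, h6] at h1
  rw [mul_left_comm]
  linarith

end Pool.Agent.MP_5f4cdd_gt

end

section

set_option autoImplicit false
open MeasureTheory ENNReal Set Matrix Topology Filter

namespace Pool.Agent.MP_5f4cdd_gt

variable {n : ℕ}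

/-- support function -/
noncomputable def supp (L : Set (E n)) (y : E n) : ℝ := sSup ((fun x : E n => x ⬝ᵥ y) '' L)

lemma mahlerInf_eq (L : Set (E n)) :
    mahlerInf L = volume L * ∫⁻ y : E n, ENNReal.ofReal (Real.exp (-supp L y)) := rfl

lemma continuous_dot_left (y : E n) : Continuous fun x : E n => x ⬝ᵥ y := by
  unfold dotProduct; fun_prop

lemma le_supp {L : Set (E n)} (hL : IsCompact L) {x : E n} (hx : x ∈ L) (y : E n) :
    x ⬝ᵥ y ≤ supp L y :=
  le_csSup (hL.image (continuous_dot_left y)).bddAbove ⟨x, hx, rfl⟩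

lemma exists_supp {L : Set (E n)} (hL : IsCompact L) (hne : L.Nonempty) (y : E n) :
    ∃ x ∈ L, x ⬝ᵥ y = supp L y :=
  (hL.image (continuous_dot_left y)).sSup_mem (hne.image _)

lemma continuous_supp {L : Set (E n)} (hL : IsCompact L) : Continuous (supp L) := by
  refine hL.continuous_sSup (f := fun (y : E n) (x : E n) => x ⬝ᵥ y) ?_
  unfold Function.HasUncurry.uncurry Function.hasUncurryInduction Function.hasUncurryBase dotProduct
  simp only [id]
  fun_prop

lemma supp_smul {L : Set (E n)} (hL : IsCompact L) (hne : L.Nonempty) {c : ℝ} (hc : 0 ≤ c)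
    (y : E n) : supp L (c • y) = c * supp L y := by
  obtain ⟨x, hx, he⟩ := exists_supp hL hne y
  obtain ⟨z, hz, he'⟩ := exists_supp hL hne (c • y)
  have h1 := le_supp hL hx (c • y)
  have h2 := mul_le_mul_of_nonneg_left (le_supp hL hz y) hc
  rw [dotProduct_smul, smul_eq_mul] at h1 he'
  rw [he] at h1
  linarith

lemma supp_image_lin (T : E n →ₗ[ℝ] E n) (L : Set (E n)) (y : E n) :
    supp (T '' L) y = supp L (adj T y) := by
  simp only [supp, image_image, dot_adj]

lemma lintegral_comp_lin' (T : E n →ₗ[ℝ] E n) (hT : LinearMap.det T ≠ 0) (f : E n → ℝ≥0∞) :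
    ∫⁻ x, f (T x) = ENNReal.ofReal |(LinearMap.det T)⁻¹| * ∫⁻ x, f x := by
  rw [← (measurableEmbedding_lin T hT).lintegral_map,
    Measure.map_linearMap_addHaar_eq_smul_addHaar volume hT, lintegral_smul_measure, smul_eq_mul]

lemma mahlerInf_image_lin (T : E n →ₗ[ℝ] E n) (hT : LinearMap.det T ≠ 0) (L : Set (E n)) :
    mahlerInf (T '' L) = mahlerInf L := by
  have hd : 0 < |LinearMap.det T| := abs_pos.2 hT
  rw [mahlerInf_eq, mahlerInf_eq, Measure.addHaar_image_linearMap]
  simp only [supp_image_lin]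
  rw [lintegral_comp_lin' (adj T) (by rwa [det_adj])
    (fun y => ENNReal.ofReal (Real.exp (-supp L y))), det_adj,
    mul_comm (ENNReal.ofReal _) (volume L), mul_assoc, ← mul_assoc (ENNReal.ofReal _),
    ← ENNReal.ofReal_mul hd.le, ← abs_mul, mul_inv_cancel₀ hT]
  simp

lemma Lap_pos' (p : ℝ) (y : E n) {L : Set (E n)} (hL : IsCompact L) (h0 : volume L ≠ 0) :
    0 < Lap p L y := by
  have : NeZero (volume.restrict L) := ⟨by simpa using h0⟩
  exact integral_exp_pos ((continuous_exp_dot p y).continuousOn.integrableOn_compact hL)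

lemma Lap_le_exp {p : ℝ} (hp : 0 ≤ p) {L : Set (E n)} (hL : IsCompact L) {y : E n} {h : ℝ}
    (hh : ∀ x ∈ L, x ⬝ᵥ y ≤ h) : Lap p L y ≤ (volume L).toReal * Real.exp (p * h) := by
  have := setIntegral_mono_on (μ := volume)
    ((continuous_exp_dot p y).continuousOn.integrableOn_compact hL)
    (integrableOn_const (C := Real.exp (p * h)) hL.measure_lt_top.ne) hL.measurableSet
    fun x hx => Real.exp_le_exp.2 (mul_le_mul_of_nonneg_left (hh x hx) hp)
  rwa [setIntegral_const, smul_eq_mul] at this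

lemma mahlerInf_le_mahler' {p : ℝ} (hp : 0 < p) {L : Set (E n)} (hL : IsCompact L)
    (h0 : volume L ≠ 0) : mahlerInf L ≤ mahler p L := by
  rw [mahlerInf_eq, mahler_eq]
  gcongr with y
  have hv : 0 < (volume L).toReal := ENNReal.toReal_pos h0 hL.measure_lt_top.ne
  have h1 := Lap_le_exp hp.le hL (fun x hx => le_supp hL hx y)
  rw [← div_le_iff₀' hv] at h1
  have h2 := Real.rpow_le_rpow_of_nonpos (div_pos (Lap_pos' p y hL h0) hv) h1
    (z := -(1 / p)) (neg_nonpos.2 (by positivity))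
  rw [← Real.exp_mul] at h2
  convert h2 using 2
  field_simp

lemma mahlerInf_le_mahler {p : ℝ} {K : Set (E n)} (hK : IsCompact K)
    (hi : (interior K).Nonempty) (hp : 0 < p) : mahlerInf K ≤ mahler p K :=
  mahlerInf_le_mahler' hp hK (Measure.measure_pos_of_nonempty_interior _ hi).ne'

lemma Lap_ge_ball {p : ℝ} (hp : 0 ≤ p) {L : Set (E n)} (hL : IsCompact L) (hc : Convex ℝ L)
    {x₁ : E n} {ρ : ℝ} (hb : Metric.closedBall x₁ ρ ⊆ L) {t : ℝ} (ht0 : 0 < t) (ht1 : t ≤ 1)
    {x₀ : E n} (hx₀ : x₀ ∈ L) (y : E n) :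
    (volume (Metric.closedBall (0 : E n) (t * ρ))).toReal / 2 *
      Real.exp (p * ((1 - t) * (x₀ ⬝ᵥ y) + t * (x₁ ⬝ᵥ y))) ≤ Lap p L y := by
  set x := (1 - t) • x₀ + t • x₁ with hx
  set A := Metric.closedBall x (t * ρ) ∩ {z | x ⬝ᵥ y ≤ z ⬝ᵥ y} with hA
  have hAm : MeasurableSet A :=
    measurableSet_closedBall.inter (measurableSet_le measurable_const (continuous_dot_left y).measurable)
  have hAs : A ⊆ L := by
    intro w hw
    have h1 : x₁ + t⁻¹ • (w - x) ∈ L := hb (by
      have := hw.1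
      rw [Metric.mem_closedBall, dist_eq_norm] at this ⊢
      rw [add_sub_cancel_left, norm_smul, Real.norm_eq_abs, abs_of_pos (inv_pos.2 ht0),
        inv_mul_le_iff₀ ht0]
      exact this)
    have h2 := hc hx₀ h1 (sub_nonneg.2 ht1) ht0.le (by ring)
    convert h2 using 1
    rw [smul_add, smul_smul, mul_inv_cancel₀ ht0.ne', one_smul, hx]; abel
  have h1 : volume (Metric.closedBall (0 : E n) (t * ρ)) ≤ 2 * volume A := by
    rw [← Measure.addHaar_closedBall_center volume x]
    refine half_ball hAm fun z hz => ?_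
    rcases le_total (x ⬝ᵥ y) (z ⬝ᵥ y) with h | h
    · exact Or.inl ⟨hz, h⟩
    · refine Or.inr ⟨?_, ?_⟩
      · rw [Metric.mem_closedBall, dist_eq_norm] at hz ⊢
        have : x + x - z - x = -(z - x) := by abel
        rwa [this, norm_neg]
      · simp only [mem_ofPred_eq, sub_dotProduct, add_dotProduct]; linarith
  have hAt : volume A ≠ ∞ := ne_top_of_le_ne_top hL.measure_lt_top.ne (measure_mono hAs)
  have h2 : (volume (Metric.closedBall (0 : E n) (t * ρ))).toReal / 2 ≤ volume.real A := by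
    have := ENNReal.toReal_mono (by finiteness) h1
    rw [ENNReal.toReal_mul] at this
    simp only [toReal_ofNat] at this
    rw [measureReal_def]; linarith
  have hI := (continuous_exp_dot p y).continuousOn.integrableOn_compact (μ := volume) hL
  have h3 : Real.exp (p * (x ⬝ᵥ y)) * volume.real A ≤ Lap p L y := by
    refine (setIntegral_ge_of_const_le_real hAm hAt (f := fun z => Real.exp (p * (z ⬝ᵥ y)))
      (fun z hz => Real.exp_le_exp.2 (mul_le_mul_of_nonneg_left hz.2 hp))
      (hI.mono_set hAs)).trans ?_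
    exact setIntegral_mono_set hI
      (Eventually.of_forall fun z => (Real.exp_pos _).le) hAs.eventuallyLE
  have h4 : x ⬝ᵥ y = (1 - t) * (x₀ ⬝ᵥ y) + t * (x₁ ⬝ᵥ y) := by
    simp [hx, add_dotProduct, smul_dotProduct]
  rw [← h4]
  nlinarith [Real.exp_pos (p * (x ⬝ᵥ y))]

lemma mahler_le_inf {L : Set (E n)} (hL : IsCompact L) (hc : Convex ℝ L)
    {x₁ : E n} (hx₁ : x₁ ∈ interior L) {η : ℝ} (hη : 0 < η) :
    ∃ t : ℝ, ∀ᶠ p in atTop,
      mahler p ((fun z => z - t • x₁) '' L) ≤ ENNReal.ofReal (1 + η) * mahlerInf L := by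
  obtain ⟨ρ, hρ, hb⟩ := Metric.nhds_basis_closedBall.mem_iff.1 (mem_interior_iff_mem_nhds.1 hx₁)
  have hne : L.Nonempty := ⟨x₁, interior_subset hx₁⟩
  have h0 : volume L ≠ 0 := (Measure.measure_pos_of_nonempty_interior _ ⟨x₁, hx₁⟩).ne'
  have hv : 0 < (volume L).toReal := ENNReal.toReal_pos h0 hL.measure_lt_top.ne
  have e1 : ∀ᶠ t in 𝓝[>] (0 : ℝ), ((1 - t) ^ n)⁻¹ < 1 + η := by
    refine nhdsWithin_le_nhds ?_
    have : ContinuousAt (fun t : ℝ => ((1 - t) ^ n)⁻¹) 0 :=
      ContinuousAt.inv₀ (by fun_prop) (by simp)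
    exact this.eventually (gt_mem_nhds (by simpa using hη))
  obtain ⟨t, h1, ht⟩ := (e1.and (Ioo_mem_nhdsGT one_pos)).exists
  have ht0 : 0 < t := ht.1
  have ht1 : 0 < 1 - t := sub_pos.2 ht.2
  set v := (volume (Metric.closedBall (0 : E n) (t * ρ))).toReal with hvdef
  have hv0 : 0 < v := ENNReal.toReal_pos
    (Metric.measure_closedBall_pos _ _ (by positivity)).ne' measure_closedBall_lt_top.ne
  set C := v / 2 / (volume L).toReal with hC
  have hC0 : 0 < C := by positivity
  have e2 : Tendsto (fun p : ℝ => C ^ (-(1 / p)) * ((1 - t) ^ n)⁻¹) atTop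
      (𝓝 (C ^ (-(0 : ℝ)) * ((1 - t) ^ n)⁻¹)) := by
    refine Tendsto.mul_const _ (Tendsto.rpow tendsto_const_nhds (Tendsto.neg ?_) (Or.inl hC0.ne'))
    exact (tendsto_inv_atTop_zero (𝕜 := ℝ)).congr fun p => (one_div p).symm
  rw [neg_zero, Real.rpow_zero, one_mul] at e2
  refine ⟨t, ?_⟩
  filter_upwards [e2.eventually (gt_mem_nhds h1), eventually_gt_atTop 0] with p hp1 hp
  rw [mahler_eq, mahlerInf_eq, volume_image_sub, mul_left_comm]
  gcongr
  have hm : Measurable fun y : E n => ENNReal.ofReal (Real.exp (-supp L y)) :=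
    (Real.continuous_exp.comp (continuous_supp hL).neg).measurable.ennreal_ofReal
  have h2 := lintegral_smul_E ht1 hm
  calc _ ≤ ∫⁻ y : E n, ENNReal.ofReal (C ^ (-(1 / p))) *
        ENNReal.ofReal (Real.exp (-supp L ((1 - t) • y))) := by
        refine lintegral_mono fun y => ?_
        rw [← ENNReal.ofReal_mul (by positivity)]
        refine ENNReal.ofReal_le_ofReal ?_
        obtain ⟨x₀, hx₀, he⟩ := exists_supp hL hne y
        have h3 := Lap_ge_ball hp.le hL hc hb ht0 ht.2.le hx₀ y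
        have h4 : C * Real.exp (p * ((1 - t) * supp L y)) ≤
            Lap p ((fun z => z - t • x₁) '' L) y / (volume L).toReal := by
          rw [Lap_image_sub, hC, div_mul_eq_mul_div, div_le_div_iff_of_pos_right hv]
          refine le_trans (le_of_eq ?_) (mul_le_mul_of_nonneg_right h3 (Real.exp_pos _).le)
          rw [mul_assoc, ← Real.exp_add, he, smul_dotProduct, smul_eq_mul, ← hvdef]
          ring_nf
        refine (Real.rpow_le_rpow_of_nonpos (by positivity) h4
          (neg_nonpos.2 (by positivity))).trans (le_of_eq ?_)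
        rw [Real.mul_rpow hC0.le (by positivity), ← Real.exp_mul, supp_smul hL hne ht1.le]
        congr 2
        field_simp
    _ = ENNReal.ofReal (C ^ (-(1 / p)) * ((1 - t) ^ n)⁻¹) *
        ∫⁻ y : E n, ENNReal.ofReal (Real.exp (-supp L y)) := by
        rw [lintegral_const_mul' _ _ ENNReal.ofReal_ne_top, h2, ← mul_assoc,
          ← ENNReal.ofReal_mul (by positivity), mul_assoc, inv_mul_cancel₀ (by positivity), mul_one]
    _ ≤ _ := by gcongr

/-- lower bounds valid for all large `p` and all translates pass to `p = ∞` -/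
lemma le_mahlerInf {L : Set (E n)} (hL : IsCompact L) (hc : Convex ℝ L)
    (hi : (interior L).Nonempty) {c : ℝ≥0∞}
    (h : ∀ᶠ p in atTop, ∀ a : E n, c ≤ mahler p ((fun z => z - a) '' L)) : c ≤ mahlerInf L := by
  obtain ⟨x₁, hx₁⟩ := hi
  have key : ∀ η : ℝ, 0 < η → c ≤ ENNReal.ofReal (1 + η) * mahlerInf L := by
    intro η hη
    obtain ⟨t, ht⟩ := mahler_le_inf hL hc hx₁ hη
    obtain ⟨p, h1, h2⟩ := (h.and ht).exists
    exact (h1 _).trans h2
  have h1 : Tendsto (fun η : ℝ => ENNReal.ofReal (1 + η) * mahlerInf L) (𝓝[>] 0)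
      (𝓝 (ENNReal.ofReal (1 + 0) * mahlerInf L)) := by
    refine ENNReal.Tendsto.mul_const (ENNReal.tendsto_ofReal ?_) (Or.inl (by simp))
    exact (tendsto_const_nhds.add tendsto_id).mono_left nhdsWithin_le_nhds
  simp only [add_zero, ENNReal.ofReal_one, one_mul] at h1
  exact ge_of_tendsto h1 (eventually_nhdsWithin_of_forall key)

lemma zero_mem_interior_cS {r : ℝ} (hr : 0 < r) : (0 : E n) ∈ interior (cS n r) :=
  mem_interior_iff_mem_nhds.2 (cS_mem_nhds hr)

lemma mahler_cS_le_inf {η : ℝ} (hη : 0 < η) :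
    ∀ᶠ p in atTop, mahler p (cS n 1) ≤ ENNReal.ofReal (1 + η) * mahlerInf (cS n 1) := by
  obtain ⟨t, ht⟩ := mahler_le_inf (isCompact_cS (n := n) zero_le_one) (convex_cS 1)
    (zero_mem_interior_cS one_pos) hη
  simpa using ht

lemma mahlerInf_cS_le_mahler {p : ℝ} (hp : 0 < p) : mahlerInf (cS n 1) ≤ mahler p (cS n 1) :=
  mahlerInf_le_mahler' hp (isCompact_cS zero_le_one) (volume_cS_pos one_pos).ne'

lemma mahlerInf_cS_lt_top : mahlerInf (cS n 1) < ∞ :=
  (mahlerInf_cS_le_mahler one_pos).trans_lt (by rw [mahler_cS one_pos]; exact ofReal_lt_top)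

lemma mahlerInf_cS_pos : 0 < mahlerInf (cS n 1) := by
  obtain ⟨p, h1, hp⟩ := ((mahler_cS_le_inf (n := n) one_pos).and (eventually_gt_atTop 0)).exists
  have h2 := (local_min n p hp).1.1
  rw [iInf_eq hp] at h2
  exact (ENNReal.mul_pos_iff.1 (h2.trans_le h1)).2

lemma tendsto_mahler_cS :
    Tendsto (fun p : ℝ => mahler p (cS n 1)) atTop (𝓝 (mahlerInf (cS n 1))) := by
  refine tendsto_order.2 ⟨fun c hc => ?_, fun c hc => ?_⟩
  · filter_upwards [eventually_gt_atTop 0] with p hp using hc.trans_le (mahlerInf_cS_le_mahler hp)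
  · have h1 : Tendsto (fun η : ℝ => ENNReal.ofReal (1 + η) * mahlerInf (cS n 1)) (𝓝[>] 0)
        (𝓝 (ENNReal.ofReal (1 + 0) * mahlerInf (cS n 1))) := by
      refine ENNReal.Tendsto.mul_const (ENNReal.tendsto_ofReal ?_) (Or.inl (by simp))
      exact (tendsto_const_nhds.add tendsto_id).mono_left nhdsWithin_le_nhds
    simp only [add_zero, ENNReal.ofReal_one, one_mul] at h1
    obtain ⟨η, h2, hη⟩ := ((h1.eventually (gt_mem_nhds hc)).and self_mem_nhdsWithin).exists
    filter_upwards [mahler_cS_le_inf (n := n) hη] with p hp using hp.trans_lt h2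

lemma isCompact_image_sub {L : Set (E n)} (hL : IsCompact L) (a : E n) :
    IsCompact ((fun z => z - a) '' L) := hL.image (by fun_prop)

lemma convex_image_sub {L : Set (E n)} (hL : Convex ℝ L) (a : E n) :
    Convex ℝ ((fun z => z - a) '' L) := by
  have := hL.translate (-a)
  have he : (fun z : E n => z - a) = fun x => -a + x := by ext z; simp [sub_eq_neg_add]
  rwa [he]

lemma interior_image_sub {L : Set (E n)} (hL : (interior L).Nonempty) (a : E n) :
    (interior ((fun z => z - a) '' L)).Nonempty := by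
  have := (Homeomorph.subRight a).image_interior L
  simp only [Homeomorph.coe_subRight] at this
  rw [← this]
  exact hL.image _

/-- translated form of `le_mahlerInf` -/
lemma le_mahlerInf' {L : Set (E n)} (hL : IsCompact L) (hc : Convex ℝ L)
    (hi : (interior L).Nonempty) {c : ℝ≥0∞}
    (h : ∀ᶠ p in atTop, ∀ a : E n, c ≤ mahler p ((fun z => z - a) '' L)) (a : E n) :
    c ≤ mahlerInf ((fun z => z - a) '' L) := by
  refine le_mahlerInf (isCompact_image_sub hL a) (convex_image_sub hc a)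
    (interior_image_sub hi a) ?_
  filter_upwards [h] with p hp b
  rw [image_image]
  simp only [sub_sub]
  exact hp _

lemma mahlerInf_cS_le (x : E n) :
    mahlerInf (cS n 1) ≤ mahlerInf ((fun z => z - x) '' stdS n) := by
  have h := le_mahlerInf' (isCompact_cS (n := n) zero_le_one) (convex_cS 1)
    ⟨0, zero_mem_interior_cS one_pos⟩ (c := mahlerInf (cS n 1)) (by
      filter_upwards [eventually_gt_atTop 0] with p hp a
      refine (mahlerInf_cS_le_mahler hp).trans ((mahler_cS_le hp (cen n + a)).trans (le_of_eq ?_))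
      rw [← image_sub_cen, image_image]
      simp only [sub_sub]) (x - cen n)
  convert h using 2
  rw [← image_sub_cen, image_image]
  simp

lemma iInfInf_eq :
    ⨅ x ∈ stdS n, mahlerInf ((fun z => z - x) '' stdS n) = mahlerInf (cS n 1) :=
  le_antisymm ((iInf₂_le (cen n) cen_mem_stdS).trans (by rw [image_sub_cen]))
    (le_iInf₂ fun x _ => mahlerInf_cS_le x)

end Pool.Agent.MP_5f4cdd_gt

end

section

set_option autoImplicit false
open MeasureTheory ENNReal Set Matrix Topology Filter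

namespace Pool.Agent.MP_5f4cdd_gt

variable {n : ℕ}

/-- functionals whose gaps at the vertex `j` all lie in `B` -/
def box (n : ℕ) (j : Fin (n + 1)) (B : Set ℝ) : Set (E n) :=
  {y | ∀ i, i ≠ j → eta y j - eta y i ∈ B}

lemma measurableSet_box (j : Fin (n + 1)) {B : Set ℝ} (hB : MeasurableSet B) :
    MeasurableSet (box n j B) := by
  have : box n j B = ⋂ i, ⋂ (_ : i ≠ j), (fun y => eta y j - eta y i) ⁻¹' B := by
    ext; simp [box]
  rw [this]
  exact MeasurableSet.iInter fun i => MeasurableSet.iInter fun _ =>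
    hB.preimage ((continuous_eta j).sub (continuous_eta i)).measurable

lemma integral_prod_eta (σ : Equiv.Perm (Fin (n + 1))) (f : Fin n → ℝ → ℝ) :
    ∫ y : E n, ∏ i, f i (eta y (σ 0) - eta y (σ i.succ)) = ∏ i, ∫ t, f i t := by
  rw [← integral_comp_adj σ]
  simp only [eta_adj, eta_zero_sub]
  rw [integral_fintype_prod_volume_eq_prod (fun i t => f i (-t))]
  exact Finset.prod_congr rfl fun i _ => integral_neg_eq_self _ _

lemma sum_eta (y : E n) : ∑ j, eta y j = 0 := by
  have h := dot_eq_sum 0 y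
  simp only [zero_dotProduct, lam, map_zero, Pi.zero_apply, zero_add, ← Finset.mul_sum] at h
  exact (mul_eq_zero.1 h.symm).resolve_left (by positivity)

lemma exp_eta (σ : Equiv.Perm (Fin (n + 1))) (y : E n) : Real.exp (-eta y (σ 0)) =
    ∏ i : Fin n, Real.exp (-(eta y (σ 0) - eta y (σ i.succ)) / (n + 1)) := by
  rw [← Real.exp_sum, ← Finset.sum_div]
  congr 1
  have h := (Equiv.sum_comp σ (eta y)).trans (sum_eta y)
  rw [Fin.sum_univ_succ] at h
  simp only [neg_sub, Finset.sum_sub_distrib, Finset.sum_const, Finset.card_univ,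
    Fintype.card_fin, nsmul_eq_mul]
  field_simp
  linarith

lemma integral_box (σ : Equiv.Perm (Fin (n + 1))) {B : Set ℝ} (hB : MeasurableSet B)
    (g : Fin n → ℝ → ℝ) :
    ∫ y in box n (σ 0) B, ∏ i, g i (eta y (σ 0) - eta y (σ i.succ)) = ∏ i, ∫ t in B, g i t := by
  simp only [← integral_indicator hB, ← integral_indicator (measurableSet_box _ hB)]
  rw [← integral_prod_eta σ]
  refine integral_congr_ae (Eventually.of_forall fun y => ?_)
  by_cases hy : y ∈ box n (σ 0) B
  · rw [indicator_of_mem hy]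
    exact Finset.prod_congr rfl fun i _ =>
      (indicator_of_mem (hy _ (σ.injective.ne (Fin.succ_ne_zero i))) _).symm
  · rw [indicator_of_notMem hy]
    simp only [box, mem_ofPred_eq, not_forall] at hy
    obtain ⟨i, hi, hy⟩ := hy
    obtain ⟨k, hk⟩ := Fin.exists_succ_eq.2 (show σ.symm i ≠ 0 from fun h => hi (by
      rw [← h, Equiv.apply_symm_apply]))
    refine (Finset.prod_eq_zero (Finset.mem_univ k) ?_).symm
    rw [hk, Equiv.apply_symm_apply]
    exact indicator_of_notMem hy _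

lemma integral_box_exp (j : Fin (n + 1)) {B : Set ℝ} (hB : MeasurableSet B) :
    ∫ y in box n j B, Real.exp (-eta y j) = (∫ t in B, Real.exp (-t / (n + 1))) ^ n := by
  have h := integral_box (Equiv.swap 0 j) hB fun _ t => Real.exp (-t / (n + 1))
  simp only [← exp_eta (Equiv.swap 0 j)] at h
  simpa using h

lemma integral_box_lin {j i : Fin (n + 1)} (hij : i ≠ j) {B : Set ℝ} (hB : MeasurableSet B)
    {c : ℝ} (hc : 0 ≤ c) (h0 : c ≤ ∫ t in B, Real.exp (-t / (n + 1)))
    (h1 : (n + 1) * c ≤ ∫ t in B, t * Real.exp (-t / (n + 1))) :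
    (n + 1) * c ^ n ≤ ∫ y in box n j B, (eta y j - eta y i) * Real.exp (-eta y j) := by
  set σ := Equiv.swap 0 j with hσ
  have hσ0 : σ 0 = j := Equiv.swap_apply_left _ _
  obtain ⟨k, hk⟩ := Fin.exists_succ_eq.2 (show σ.symm i ≠ 0 from fun h => hij (by
    rw [← hσ0, ← h, Equiv.apply_symm_apply]))
  have hki : σ k.succ = i := by rw [hk, Equiv.apply_symm_apply]
  have h := integral_box σ hB fun l t => (if l = k then t else 1) * Real.exp (-t / (n + 1))
  simp only [Finset.prod_mul_distrib, ← exp_eta σ] at h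
  simp only [Finset.prod_ite_eq', Finset.mem_univ, if_true, hσ0, hki] at h
  rw [h]
  calc _ = ∏ l : Fin n, ((if l = k then (n + 1 : ℝ) else 1) * c) := by
        rw [Finset.prod_mul_distrib]; simp
    _ ≤ _ := Finset.prod_le_prod (fun l _ => by split_ifs <;> positivity) fun l _ => by
        split_ifs
        · exact h1
        · simpa using h0

lemma integral_exp_Ioi {N : ℝ} (hN : 0 < N) : ∫ t in Ioi (0 : ℝ), Real.exp (-t / N) = N := by
  have := integral_exp_mul_Ioi (a := -N⁻¹) (by simpa using hN) 0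
  simp only [mul_zero, Real.exp_zero] at this
  convert this using 4
  · ring
  · simp

lemma integral_mul_exp_Ioi {N : ℝ} (hN : 0 < N) :
    ∫ t in Ioi (0 : ℝ), t * Real.exp (-t / N) = N * N := by
  have := Real.integral_rpow_mul_exp_neg_mul_Ioi (a := 2) (r := N⁻¹) two_pos (by positivity)
  norm_num at this
  convert this using 5
  · ring
  · ring

lemma one_dim {N η : ℝ} (hN : 0 < N) (hη : 0 < η) : ∃ a b : ℝ, 0 < a ∧ a ≤ b ∧
    (1 - η) * N ≤ ∫ t in Icc a b, Real.exp (-t / N) ∧
    N * ((1 - η) * N) ≤ ∫ t in Icc a b, t * Real.exp (-t / N) := by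
  have hU : (⋃ k : ℕ, Icc (1 / ((k : ℝ) + 1)) ((k : ℝ) + 1)) = Ioi 0 := by
    ext t
    simp only [mem_iUnion, mem_Icc, mem_Ioi]
    constructor
    · rintro ⟨k, h, -⟩; exact lt_of_lt_of_le (by positivity) h
    · intro ht
      obtain ⟨k, hk⟩ := exists_nat_gt (max t (1 / t))
      refine ⟨k, ?_, by linarith [le_max_left t (1 / t)]⟩
      rw [one_div_le (by positivity) ht]
      linarith [le_max_right t (1 / t)]
  have hmono : Monotone fun k : ℕ => Icc (1 / ((k : ℝ) + 1)) ((k : ℝ) + 1) := by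
    intro k l hkl
    have : (k : ℝ) ≤ l := Nat.cast_le.2 hkl
    exact Icc_subset_Icc (one_div_le_one_div_of_le (by positivity) (by linarith)) (by linarith)
  have key : ∀ (f : ℝ → ℝ) (c : ℝ), 0 < c → ∫ t in Ioi (0 : ℝ), f t = c →
      ∀ᶠ k : ℕ in atTop, (1 - η) * c < ∫ t in Icc (1 / ((k : ℝ) + 1)) ((k : ℝ) + 1), f t := by
    intro f c hc hf
    have := tendsto_setIntegral_of_monotone (f := f) (μ := volume) (fun _ => measurableSet_Icc)
      hmono (by rw [hU]; exact Integrable.of_integral_ne_zero (by rw [hf]; exact hc.ne'))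
    rw [hU, hf] at this
    exact this.eventually (lt_mem_nhds (by nlinarith))
  obtain ⟨k, h1, h2⟩ := ((key _ _ hN (integral_exp_Ioi hN)).and
    (key _ _ (by positivity) (integral_mul_exp_Ioi hN))).exists
  refine ⟨_, _, by positivity, ?_, h1.le, by linarith⟩
  have : (0 : ℝ) ≤ k := Nat.cast_nonneg k
  rw [div_le_iff₀ (by positivity)]
  nlinarith

lemma mahlerInf_cS_le_pow :
    mahlerInf (cS n 1) ≤ volume (cS n 1) * ENNReal.ofReal ((n + 1) ^ (n + 1)) := by
  rw [mahlerInf_eq]
  gcongr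
  have h1 : ∀ j, ∫⁻ y in box n j (Ici 0), ENNReal.ofReal (Real.exp (-eta y j)) =
      ENNReal.ofReal ((n + 1) ^ n) := by
    intro j
    have h2 := integral_box_exp j (measurableSet_Ici (a := (0 : ℝ)))
    rw [integral_Ici_eq_integral_Ioi, integral_exp_Ioi (by positivity)] at h2
    rw [← h2, ofReal_integral_eq_lintegral_ofReal
      (Integrable.of_integral_ne_zero (by rw [h2]; positivity))
      (Eventually.of_forall fun _ => (Real.exp_pos _).le)]
  calc _ ≤ ∫⁻ y : E n, ∑ j, (box n j (Ici 0)).indicator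
        (fun y => ENNReal.ofReal (Real.exp (-eta y j))) y := by
        refine lintegral_mono fun y => ?_
        obtain ⟨j, -, hj⟩ := Finset.exists_max_image Finset.univ (eta y) Finset.univ_nonempty
        refine le_trans ?_ (Finset.single_le_sum (fun _ _ => zero_le) (Finset.mem_univ j))
        have hy : y ∈ box n j (Ici 0) := fun i _ => sub_nonneg.2 (hj i (Finset.mem_univ i))
        rw [indicator_of_mem hy]
        exact ENNReal.ofReal_le_ofReal (Real.exp_le_exp.2 (neg_le_neg
          (le_supp (isCompact_cS zero_le_one) (vtx_mem j) y)))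
    _ = ∑ j, ∫⁻ y in box n j (Ici 0), ENNReal.ofReal (Real.exp (-eta y j)) := by
        rw [lintegral_finsetSum]
        · exact Finset.sum_congr rfl fun j _ =>
            lintegral_indicator (measurableSet_box j measurableSet_Ici) _
        · exact fun j _ => ((Real.continuous_exp.comp
            (continuous_eta j).neg).measurable.ennreal_ofReal).indicator
            (measurableSet_box j measurableSet_Ici)
    _ = _ := by
        simp only [h1, Finset.sum_const, Finset.card_univ, Fintype.card_fin, nsmul_eq_mul]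
        rw [pow_succ', ENNReal.ofReal_mul (by positivity)]
        congr 1
        rw [← ENNReal.ofReal_natCast]; push_cast; rfl

lemma Jp_le {η : ℝ} (hη : 0 < η) : ∀ᶠ p in atTop,
    (volume (cS n 1)).toReal ^ (1 / p) * Jp n p ≤ (1 + η) * (n + 1) ^ (n + 1) := by
  filter_upwards [mahler_cS_le_inf (n := n) hη, eventually_gt_atTop 0] with p h hp
  have hfin : volume (cS n 1) ≠ ∞ := (volume_cS_lt_top zero_le_one).ne
  have hV : 0 < (volume (cS n 1)).toReal := ENNReal.toReal_pos (volume_cS_pos one_pos).ne' hfin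
  have h2 := h.trans (mul_le_mul_right mahlerInf_cS_le_pow _)
  rw [mahler_cS hp, ← ENNReal.ofReal_toReal hfin, ← ENNReal.ofReal_mul hV.le,
    ← ENNReal.ofReal_mul (by positivity), ENNReal.ofReal_le_ofReal_iff (by positivity),
    ENNReal.toReal_ofReal hV.le, Real.rpow_add hV, Real.rpow_one] at h2
  refine le_of_mul_le_mul_left ?_ hV
  linarith

lemma exp_le_wt {p : ℝ} (hp : 0 < p) {y : E n} {j : Fin (n + 1)} (hy : ∀ i, eta y i ≤ eta y j) :
    Real.exp (-eta y j) ≤ (volume (cS n 1)).toReal ^ (1 / p) * Zs p y ^ (-(1 / p)) := by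
  have hfin : volume (cS n 1) ≠ ∞ := (volume_cS_lt_top zero_le_one).ne
  have hV : 0 < (volume (cS n 1)).toReal := ENNReal.toReal_pos (volume_cS_pos one_pos).ne' hfin
  have h1 := Lap_le_exp hp.le (isCompact_cS (n := n) zero_le_one) (y := y) (h := eta y j)
    fun x hx => by
      rw [← sub_nonneg, eta_sub_dot]
      exact Finset.sum_nonneg fun i _ => mul_nonneg (mem_cS_one.1 hx i) (sub_nonneg.2 (hy i))
  have h2 := Real.rpow_le_rpow_of_nonpos (Zs_pos p y) h1 (z := -(1 / p))
    (neg_nonpos.2 (by positivity))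
  rw [Real.mul_rpow hV.le (Real.exp_pos _).le, ← Real.exp_mul, Real.rpow_neg hV.le,
    inv_mul_le_iff₀ (by positivity)] at h2
  have h3 : p * eta y j * -(1 / p) = -eta y j := by field_simp
  rwa [h3] at h2

lemma box_max {j : Fin (n + 1)} {a b : ℝ} (ha : 0 ≤ a) {y : E n} (hy : y ∈ box n j (Icc a b))
    (i : Fin (n + 1)) : eta y i ≤ eta y j := by
  by_cases hi : i = j
  · rw [hi]
  · linarith [(hy i hi).1]

lemma box_le {j : Fin (n + 1)} {a b : ℝ} (ha : 0 ≤ a) (hab : a ≤ b) {y : E n}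
    (hy : y ∈ box n j (Icc a b)) (i : Fin (n + 1)) : eta y j - eta y i ≤ b := by
  by_cases hi : i = j
  · rw [hi]; linarith
  · exact (hy i hi).2

lemma integrableOn_box_lin {p : ℝ} (hp : 0 < p) {a b : ℝ} (ha : 0 ≤ a) (hab : a ≤ b)
    (j i : Fin (n + 1)) : IntegrableOn (fun y => (eta y j - eta y i) * Zs p y ^ (-(1 / p)))
      (box n j (Icc a b)) := by
  refine Integrable.bdd_mul (c := b) (integrable_wt hp).integrableOn
    ((continuous_eta j).sub (continuous_eta i)).aestronglyMeasurable ?_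
  filter_upwards [ae_restrict_mem (measurableSet_box j measurableSet_Icc)] with y hy
  rw [Real.norm_eq_abs, abs_of_nonneg (sub_nonneg.2 (box_max ha hy i))]
  exact box_le ha hab hy i

/-- for large `p` the dual measure is almost a product of exponentials on each normal cone -/
lemma nu_mass {η : ℝ} (hη : 0 < η) (hη1 : η ≤ 1) : ∃ a b : ℝ, 0 < a ∧ a ≤ b ∧ ∀ᶠ p in atTop,
    ∀ j, (1 - η) * Jp n p ≤ (n + 1) * ∫ y in box n j (Icc a b), Zs p y ^ (-(1 / p)) ∧
      ∀ i, i ≠ j → (1 - η) * Jp n p ≤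
        ∫ y in box n j (Icc a b), (eta y j - eta y i) * Zs p y ^ (-(1 / p)) := by
  set η' := η / (n + 1) with hη'
  have hn : (0 : ℝ) < n + 1 := by positivity
  have hη'0 : 0 < η' := by positivity
  have hη'1 : η' ≤ 1 := by
    rw [hη', div_le_one hn]; linarith [(Nat.cast_nonneg n : (0 : ℝ) ≤ n)]
  have hηe : η = (n + 1) * η' := by rw [hη']; field_simp
  obtain ⟨a, b, ha, hab, h0, h1⟩ := one_dim hn hη'0
  refine ⟨a, b, ha, hab, ?_⟩
  filter_upwards [Jp_le (n := n) hη'0, eventually_gt_atTop 0] with p hJ hp j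
  have hfin : volume (cS n 1) ≠ ∞ := (volume_cS_lt_top zero_le_one).ne
  have hV : 0 < (volume (cS n 1)).toReal := ENNReal.toReal_pos (volume_cS_pos one_pos).ne' hfin
  set W := (volume (cS n 1)).toReal ^ (1 / p) with hW
  have hW0 : 0 < W := by positivity
  have hc : 0 ≤ (1 - η') * (n + 1) := mul_nonneg (by linarith) hn.le
  have hnum : W * ((1 - η) * Jp n p) ≤ (n + 1) * ((1 - η') * (n + 1)) ^ n := by
    have h2 : 1 + (n : ℝ) * (-η') ≤ (1 + -η') ^ n := one_add_mul_le_pow (by linarith) n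
    have h3 : (1 - η) * (1 + η') ≤ (1 - η') ^ n := by
      rw [sub_eq_add_neg 1 η']; nlinarith
    calc _ = (1 - η) * (W * Jp n p) := by ring
      _ ≤ (1 - η) * ((1 + η') * (n + 1) ^ (n + 1)) := by gcongr
      _ = (1 - η) * (1 + η') * (n + 1) ^ (n + 1) := by ring
      _ ≤ (1 - η') ^ n * (n + 1) ^ (n + 1) := by gcongr
      _ = _ := by rw [mul_pow]; ring
  have hm := measurableSet_box (n := n) j (measurableSet_Icc (a := a) (b := b))
  refine ⟨le_of_mul_le_mul_left (hnum.trans ?_) hW0, fun i hi =>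
    le_of_mul_le_mul_left (hnum.trans ?_) hW0⟩
  · rw [mul_left_comm W]
    refine mul_le_mul_of_nonneg_left ((pow_le_pow_left₀ hc h0 n).trans ?_) hn.le
    rw [← integral_box_exp j measurableSet_Icc, ← integral_const_mul]
    refine integral_mono_of_nonneg (Eventually.of_forall fun _ => (Real.exp_pos _).le)
      ((integrable_wt hp).integrableOn.const_mul _) ?_
    filter_upwards [ae_restrict_mem hm] with y hy using exp_le_wt hp (box_max ha.le hy)
  · refine (integral_box_lin hi measurableSet_Icc hc h0 h1).trans ?_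
    rw [← integral_const_mul]
    refine integral_mono_of_nonneg ?_ ((integrableOn_box_lin hp ha.le hab j i).const_mul _) ?_
    · filter_upwards [ae_restrict_mem hm] with y hy using
        mul_nonneg (sub_nonneg.2 (box_max ha.le hy i)) (Real.exp_pos _).le
    · filter_upwards [ae_restrict_mem hm] with y hy
      rw [mul_left_comm]
      exact mul_le_mul_of_nonneg_left (exp_le_wt hp (box_max ha.le hy))
        (sub_nonneg.2 (box_max ha.le hy i))

lemma box_disjoint {a b : ℝ} (ha : 0 < a) {i j : Fin (n + 1)} {y : E n}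
    (hi : y ∈ box n i (Icc a b)) (hj : y ∈ box n j (Icc a b)) : i = j := by
  by_contra h
  linarith [(hi j (Ne.symm h)).1, (hj i h).1]

/-- the potential concentrates at the vertices -/
lemma Psi_conc {η δ : ℝ} (hη : 0 < η) (hδ : 0 < δ) : ∀ᶠ p in atTop,
    ∀ L : Set (E n), MeasurableSet L → L ⊆ cS n 1 → (∀ x ∈ L, ∀ j, lam x j < 1 - δ) →
      ∫ x in L, Psi p x ≤ η * Jp n p := by
  obtain ⟨a, b, ha, hab, h⟩ := nu_mass (n := n) (η := min (η / 2) 1) (by positivity)
    (min_le_right _ _)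
  have e1 : Tendsto (fun p : ℝ => 2 ^ n * Real.exp (-(p * a * δ / 2))) atTop (𝓝 (2 ^ n * 0)) := by
    refine Tendsto.const_mul _ (Real.tendsto_exp_neg_atTop_nhds_zero.comp ?_)
    exact ((tendsto_id.atTop_mul_const ha).atTop_mul_const hδ).atTop_div_const two_pos
  rw [mul_zero] at e1
  filter_upwards [h, e1.eventually (gt_mem_nhds (half_pos hη)), eventually_gt_atTop 0]
    with p h1 h2 hp L hLm hL hLc
  have hR : cS n 1 ⊆ cS n (1 + 1 / p / 4) := cS_mono (le_add_of_nonneg_right (by positivity))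
  have hm := fun j => measurableSet_box (n := n) j (measurableSet_Icc (a := a) (b := b))
  have iw := integrable_wt (n := n) hp
  have i2 : Integrable fun y : E n =>
      ∑ j, (box n j (Icc a b)).indicator (fun y => Zs p y ^ (-(1 / p))) y :=
    integrable_finsetSum _ fun j _ => iw.indicator (hm j)
  rw [← integral_Lap_wt hp hLm (hL.trans hR)]
  have h3 : ∫ y, Lap p L y * Zs p y ^ (-(1 / p) - 1) ≤ ∫ y : E n,
      ((1 + η / 2) * Zs p y ^ (-(1 / p)) -
        ∑ j, (box n j (Icc a b)).indicator (fun y => Zs p y ^ (-(1 / p))) y) := by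
    refine integral_mono (integrable_Lap_wt hp hLm (hL.trans hR)) ((iw.const_mul _).sub i2)
      fun y => ?_
    have hZ := Zs_pos p y
    have hw := Real.rpow_pos_of_pos hZ (-(1 / p))
    simp only
    rw [Real.rpow_sub_one hZ.ne', mul_div_left_comm, mul_comm, le_sub_iff_add_le]
    by_cases hy : ∃ j, y ∈ box n j (Icc a b)
    · obtain ⟨j, hj⟩ := hy
      rw [Finset.sum_eq_single j (fun i _ hi => indicator_of_notMem
        (fun h => hi (box_disjoint ha h hj)) _) (by simp), indicator_of_mem hj]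
      have h4 : Lap p L y ≤ Lap p (cS n 1 \ corner n j δ) y :=
        Lap_mono p y (fun x hx => ⟨hL hx, fun h => (hLc x hx j).not_ge h.2⟩) zero_le_one
          sdiff_subset
      have h5 := Lap_off_corner (δ := δ) hp.le ha.le (fun i hi => (hj i hi).1)
      have h6 : Lap p L y / Zs p y ≤ η / 2 := by
        rw [div_le_iff₀ hZ]; nlinarith
      nlinarith
    · rw [Finset.sum_eq_zero fun i _ => indicator_of_notMem (fun h => hy ⟨i, h⟩) _]
      have h6 : Lap p L y / Zs p y ≤ 1 := by
        rw [div_le_one hZ]; exact Lap_mono p y hL zero_le_one subset_rfl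
      nlinarith
  rw [integral_sub (iw.const_mul _) i2, integral_const_mul,
    integral_finsetSum _ fun j _ => iw.indicator (hm j)] at h3
  simp only [integral_indicator (hm _)] at h3
  have h4 := Finset.sum_le_sum fun j (_ : j ∈ Finset.univ) => (h1 j).1
  rw [← Finset.mul_sum, ← Finset.mul_sum] at h4
  simp only [Finset.sum_const, Finset.card_univ, Fintype.card_fin, nsmul_eq_mul] at h4
  push_cast at h4
  rw [mul_left_comm] at h4
  have h5 := le_of_mul_le_mul_left h4 (by positivity)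
  have hJ := Jp_pos (n := n) hp
  have h6 := mul_le_mul_of_nonneg_right (min_le_left (η / 2) 1) hJ.le
  change _ ≤ (1 + η / 2) * Jp n p - _ at h3
  linarith

end Pool.Agent.MP_5f4cdd_gt

end

section

set_option autoImplicit false
open MeasureTheory ENNReal Set Matrix Topology Filter

namespace Pool.Agent.MP_5f4cdd_gt

variable {m : ℕ}

lemma lintegral_pow_Ioc (k : ℕ) :
    ∫⁻ s in Ioc (0 : ℝ) 1, ENNReal.ofReal (s ^ k) = ENNReal.ofReal (1 / (k + 1)) := by
  rw [← ofReal_integral_eq_lintegral_ofReal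
    ((continuous_pow k).integrableOn_Icc.mono_set Ioc_subset_Icc_self),
    ← intervalIntegral.integral_of_le zero_le_one, integral_pow]
  · simp
  · filter_upwards [ae_restrict_mem measurableSet_Ioc] with s hs using pow_nonneg hs.1.le k

/-- the part of the probability simplex away from the vertices -/
def offV (k : ℕ) (τ : ℝ) : Set (E k) := {l | ∀ i, l i ≤ 1 - τ}

lemma measurableSet_offV {k : ℕ} (τ : ℝ) : MeasurableSet (offV k τ) := by
  have : offV k τ = ⋂ i, {l | l i ≤ 1 - τ} := by ext; simp [offV]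
  rw [this]
  exact MeasurableSet.iInter fun i => measurableSet_le (measurable_pi_apply i) measurable_const

theorem unif_corr (m : ℕ) : ∃ ρ γ τ : ℝ, 1 < ρ ∧ 0 < γ ∧ 0 < τ ∧ ∀ f : E (m + 1) → ℝ, Good f →
    ∫⁻ l, ENNReal.ofReal (f l) ∂mu m ≠ ∞ →
    ∫⁻ l in offV (m + 1) τ, ENNReal.ofReal (f l) ∂mu m ≤
      ENNReal.ofReal γ * ∫⁻ l, ENNReal.ofReal (f l) ∂mu m →
    ∀ g : E (m + 1) → ℝ, Measurable g →
      ConvexOn ℝ (stdSimplex ℝ (Fin (m + 1))) g → (∀ x ∈ stdSimplex ℝ (Fin (m + 1)), 0 ≤ g x) →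
      g (uu m) = 0 →
      ENNReal.ofReal ρ * ((∫⁻ l, ENNReal.ofReal (f l) ∂mu m) *
        (∫⁻ l, ENNReal.ofReal (g l) ∂mu m)) ≤
      mu m univ * ∫⁻ l, ENNReal.ofReal (f l) * ENNReal.ofReal (g l) ∂mu m := by
  cases m with
  | zero =>
    refine ⟨2, 1, 1, by norm_num, one_pos, one_pos, fun f _ _ _ g _ _ _ hg0 => ?_⟩
    rw [lintegral_congr_ae (f := fun l => ENNReal.ofReal (g l)) (g := fun _ => 0)]
    · simp
    · filter_upwards [ae_mu_zero] with l hl; rw [hl, hg0]; simp
  | succ m =>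
    set γ : ℝ := 1 / (4 * (m + 2)) with hγ
    have hm0 : (0 : ℝ) ≤ m := Nat.cast_nonneg m
    have hγ0 : 0 < γ := by positivity
    have hγe : γ * (4 * (m + 2)) = 1 := by rw [hγ]; field_simp
    have hγ1 : γ ≤ 1 / 2 := by nlinarith
    refine ⟨(2 * m + 3) / (2 * m + 2), γ, γ / 2, by rw [one_lt_div (by positivity)]; linarith,
      hγ0, by positivity, fun f hf hfin hmass g hgm hgc hg0 hgu => ?_⟩
    have hfm := hf.meas.ennreal_ofReal
    set c : ℝ≥0∞ := ((m + 2 : ℕ) * kap (m + 1)) with hc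
    have hc0 : c ≠ 0 := mul_ne_zero (by simp) kap_ne_zero
    have hct : c ≠ ∞ := ENNReal.mul_ne_top (by simp) kap_ne_top
    set F : ℝ → ℝ≥0∞ := fun s => ∫⁻ l, ENNReal.ofReal (f (Rs s l)) ∂mu m with hF
    have hFm : Measurable F := measurable_bar hfm
    set a := ∫⁻ s in Ioc (0 : ℝ) 1, ENNReal.ofReal (s ^ m) with ha
    set b := ∫⁻ s in Ioc (0 : ℝ) 1, ENNReal.ofReal (s ^ m) * ENNReal.ofReal s with hb
    set A := ∫⁻ s in Ioc (0 : ℝ) 1, ENNReal.ofReal (s ^ m) * F s with hA
    set B := ∫⁻ s in Ioc (0 : ℝ) 1, F s * (ENNReal.ofReal (s ^ m) * ENNReal.ofReal s) with hB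
    have hae : a = ENNReal.ofReal (1 / (m + 1)) := lintegral_pow_Ioc m
    have hbe : b = ENNReal.ofReal (1 / (m + 2)) := by
      have h := lintegral_pow_Ioc (m + 1)
      push_cast at h
      rw [add_assoc, one_add_one_eq_two] at h
      rw [← h]
      refine setLIntegral_congr_fun measurableSet_Ioc fun s hs => ?_
      rw [pow_succ, ENNReal.ofReal_mul (pow_nonneg hs.1.le m)]
    have hfA : ∫⁻ l, ENNReal.ofReal (f l) ∂mu (m + 1) = c * A :=
      lintegral_mu_succ hfm (fun σ x hx => by rw [hf.symm σ x hx])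
    have hAt : A ≠ ∞ := fun h => hfin (by rw [hfA, h, ENNReal.mul_top hc0])
    have h01 : Ioc (0 : ℝ) (1 - γ) ∪ Ioc (1 - γ) 1 = Ioc 0 1 :=
      Ioc_union_Ioc_eq_Ioc (by linarith) (by linarith)
    have hA1 : ∫⁻ s in Ioc (0 : ℝ) (1 - γ), ENNReal.ofReal (s ^ m) * F s ≤ ENNReal.ofReal γ * A := by
      rw [← lintegral_indicator (measurableSet_offV _),
        lintegral_mu_succ (hfm.indicator (measurableSet_offV _)) (fun σ x hx => by
          by_cases h : x ∈ offV (m + 2) (γ / 2)
          · rw [indicator_of_mem h, indicator_of_mem (show x ∘ σ ∈ offV (m + 2) (γ / 2) from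
              fun i => h _), hf.symm σ x hx]
          · rw [indicator_of_notMem h, indicator_of_notMem (fun h' => h fun i => by
              simpa using h' (σ.symm i))]), hfA, mul_left_comm,
        ENNReal.mul_le_mul_iff_right hc0 hct] at hmass
      refine le_trans ?_ ((lintegral_mono_set
        (Ioc_subset_Ioc_right (show 1 - γ ≤ 1 by linarith))).trans hmass)
      refine setLIntegral_mono' measurableSet_Ioc fun s hs => mul_le_mul_right ?_ _
      refine lintegral_mono_ae ?_
      filter_upwards [ae_mu] with l hl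
      rw [indicator_of_mem]
      intro i
      have h1 : (Fin.cons 0 l : E (m + 2)) i ≤ 1 := (mem_Icc_of_mem_stdSimplex (cons_mem hl) i).2
      have h2 : (1 : ℝ) / ((m + 1 : ℕ) + 1) ≤ 1 / 2 := by
        push_cast
        exact one_div_le_one_div_of_le two_pos (by linarith)
      simp only [Rs, Pi.add_apply, Pi.smul_apply, Pi.sub_apply, uu, smul_eq_mul]
      nlinarith [mul_le_mul_of_nonneg_left h1 hs.1.le, hs.2]
    have hA2 : ENNReal.ofReal (1 - γ) * A ≤
        ∫⁻ s in Ioc (1 - γ) 1, ENNReal.ofReal (s ^ m) * F s := by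
      have h1 : A ≤ ENNReal.ofReal γ * A + ∫⁻ s in Ioc (1 - γ) 1, ENNReal.ofReal (s ^ m) * F s := by
        refine le_trans ?_ (add_le_add_left hA1 _)
        rw [hA, ← h01]
        exact lintegral_union_le _ _ _
      have h2 : ENNReal.ofReal γ * A + ENNReal.ofReal (1 - γ) * A = A := by
        rw [← add_mul, ← ENNReal.ofReal_add hγ0.le (by linarith)]; simp
      exact ENNReal.le_of_add_le_add_left (by finiteness) (h2.le.trans h1)
    have hB1 : ENNReal.ofReal (1 - γ) * (ENNReal.ofReal (1 - γ) * A) ≤ B := by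
      refine (mul_le_mul_right hA2 _).trans ?_
      rw [← lintegral_const_mul' _ _ ENNReal.ofReal_ne_top]
      refine le_trans ?_ (lintegral_mono_set (Ioc_subset_Ioc_left (show 0 ≤ 1 - γ by linarith)))
      refine setLIntegral_mono' measurableSet_Ioc fun s hs => ?_
      calc _ ≤ ENNReal.ofReal s * (ENNReal.ofReal (s ^ m) * F s) := by gcongr; exact hs.1.le
        _ = _ := by ring
    have hk : ENNReal.ofReal ((2 * m + 3) / (2 * m + 2)) * (A * b) ≤ a * B := by
      refine le_trans ?_ (mul_le_mul_right hB1 _)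
      rw [hae, hbe, mul_comm A, ← mul_assoc, ← mul_assoc, ← mul_assoc,
        ← ENNReal.ofReal_mul (by positivity), ← ENNReal.ofReal_mul (by positivity),
        ← ENNReal.ofReal_mul (mul_nonneg (by positivity) (by linarith))]
      refine mul_le_mul_left (ENNReal.ofReal_le_ofReal ?_) _
      have h1 : (2 * m + 3 : ℝ) / (2 * m + 2) * (1 / (m + 2)) = 1 / (m + 1) * (1 - 2 * γ) := by
        rw [hγ]; field_simp; ring
      rw [h1, mul_assoc]
      refine mul_le_mul_of_nonneg_left ?_ (by positivity)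
      nlinarith
    have hb0 : b ≠ 0 := by rw [hbe]; simpa using (by positivity : (0 : ℝ) < m + 2)
    have hbt : b ≠ ∞ := by rw [hbe]; exact ENNReal.ofReal_ne_top
    have hg := good_symz hgm hgc
    have hN0 : (Fintype.card (Equiv.Perm (Fin (m + 1 + 1))) : ℝ≥0∞) ≠ 0 := by
      simp [Fintype.card_ne_zero]
    have hNt : (Fintype.card (Equiv.Perm (Fin (m + 1 + 1))) : ℝ≥0∞) ≠ ∞ := by simp
    have s1 := lintegral_symz (f := fun _ => 1) measurable_const (fun _ _ _ => rfl) hgm hg0
    have s2 := lintegral_symz hfm (fun σ x hx => by rw [hf.symm σ x hx]) hgm hg0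
    simp only [one_mul] at s1
    rw [← ENNReal.mul_le_mul_iff_right hN0 hNt, mul_left_comm, mul_left_comm _ (∫⁻ l, _ ∂_),
      ← s1, mul_left_comm _ (mu (m + 1) univ), ← s2]
    have hgm' := hg.meas.ennreal_ofReal
    rw [hfA, lintegral_mu_succ hgm' (fun σ x hx => by rw [hg.symm σ x hx]),
      lintegral_mu_succ (H := fun l => ENNReal.ofReal (f l) * ENNReal.ofReal (symz g l))
        (hfm.mul hgm') (fun σ x hx => by rw [hf.symm σ x hx, hg.symm σ x hx]), mu_succ_univ]
    set G : ℝ → ℝ≥0∞ := fun s => ∫⁻ l, ENNReal.ofReal (symz g (Rs s l)) ∂mu m with hG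
    have hGm : Measurable G := measurable_bar hgm'
    have hW : Measurable fun s : ℝ => ENNReal.ofReal (s ^ m) := by fun_prop
    have hgu' : symz g (uu (m + 1)) = 0 := Finset.sum_eq_zero fun σ _ => hgu
    have h1 := cheb (ν := volume.restrict (Ioc (0 : ℝ) 1)) (F := F)
      (G := fun s => ENNReal.ofReal (s ^ m) * G s)
      (W := fun s => ENNReal.ofReal (s ^ m) * ENNReal.ofReal s)
      hFm (hW.mul hGm) (by fun_prop) (ae_restrict_mem measurableSet_Ioc) hf.bar_mono
      (fun r hr s hs hsr => by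
        have : ENNReal.ofReal r * G s ≤ ENNReal.ofReal s * G r := by
          rw [hG, ← lintegral_const_mul' _ _ ENNReal.ofReal_ne_top,
            ← lintegral_const_mul' _ _ ENNReal.ofReal_ne_top]
          refine lintegral_mono_ae ?_
          filter_upwards [ae_mu] with l hl
          rw [← ENNReal.ofReal_mul hr.1.le, ← ENNReal.ofReal_mul hs.1.le]
          refine ENNReal.ofReal_le_ofReal ?_
          have h3 := ray_le hg.conv (cons_mem hl) hs.1.le hsr hr.1 hr.2
          rw [hgu', mul_zero, zero_add, div_mul_eq_mul_div, le_div_iff₀ hr.1, mul_comm] at h3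
          exact h3
        calc _ = ENNReal.ofReal (s ^ m) * ENNReal.ofReal (r ^ m) * (ENNReal.ofReal r * G s) := by
              ring
          _ ≤ ENNReal.ofReal (s ^ m) * ENNReal.ofReal (r ^ m) * (ENNReal.ofReal s * G r) := by
              gcongr
          _ = _ := by ring)
    have h2 : ∫⁻ s in Ioc (0 : ℝ) 1, F s * (ENNReal.ofReal (s ^ m) * G s) ≤
        mu m univ * ∫⁻ s in Ioc (0 : ℝ) 1, ENNReal.ofReal (s ^ m) *
          ∫⁻ l, ENNReal.ofReal (f (Rs s l)) * ENNReal.ofReal (symz g (Rs s l)) ∂mu m := by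
      rw [← lintegral_const_mul' _ _ (measure_ne_top _ _)]
      refine setLIntegral_mono' measurableSet_Ioc fun s hs => ?_
      have := corr m _ _ (hf.restrict hs.1.le hs.2) (hg.restrict hs.1.le hs.2)
      calc _ = ENNReal.ofReal (s ^ m) * (F s * G s) := by ring
        _ ≤ ENNReal.ofReal (s ^ m) * (mu m univ * _) := by gcongr
        _ = _ := by ring
    set Γ := ∫⁻ s in Ioc (0 : ℝ) 1, ENNReal.ofReal (s ^ m) * G s with hΓ
    set X := ∫⁻ s in Ioc (0 : ℝ) 1, ENNReal.ofReal (s ^ m) *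
          ∫⁻ l, ENNReal.ofReal (f (Rs s l)) * ENNReal.ofReal (symz g (Rs s l)) ∂mu m with hX
    have h3 : B * Γ ≤ b * (mu m univ * X) := h1.trans (mul_le_mul_right h2 _)
    rw [← ENNReal.mul_le_mul_iff_right hb0 hbt]
    calc b * (ENNReal.ofReal ((2 * m + 3) / (2 * m + 2)) * (c * A * (c * Γ)))
        = c * c * Γ * (ENNReal.ofReal ((2 * m + 3) / (2 * m + 2)) * (A * b)) := by ring
      _ ≤ c * c * Γ * (a * B) := by gcongr
      _ = c * c * a * (B * Γ) := by ring
      _ ≤ c * c * a * (b * (mu m univ * X)) := by gcongr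
      _ = _ := by ring

lemma volume_cS_eq {n : ℕ} {r : ℝ} (hr : 0 < r) :
    volume (cS n r) = ENNReal.ofReal (r ^ n) * volume (cS n 1) := by
  rw [← image_smul_cS hr, Measure.addHaar_image_linearMap, det_smul_id, abs_of_pos (by positivity)]

/-- inner part of the probability simplex -/
def innr (m : ℕ) (r : ℝ) : Set (E (m + 1)) := {l | ∀ i, (1 - r) / (m + 1) ≤ l i}

lemma measurableSet_innr (r : ℝ) : MeasurableSet (innr m r) := by
  have : innr m r = ⋂ i, {l | (1 - r) / (m + 1) ≤ l i} := by ext; simp [innr]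
  rw [this]
  exact MeasurableSet.iInter fun i => measurableSet_le measurable_const (measurable_pi_apply i)

lemma mu_innr {r : ℝ} (hr : 0 < r) (hr1 : r ≤ 1) :
    (mu m).real (innr m r) = r ^ m * (mu m univ).toReal := by
  have h : (fun z : E m => uu m + bet m z) ⁻¹' innr m r = cS m r := by
    ext z
    rw [mem_cS_lam]
    simp only [mem_preimage, innr, mem_ofPred_eq, Pi.add_apply, uu, lam, add_comm]
  rw [measureReal_def, mu_univ, mu,
    Measure.map_apply continuous_ubet.measurable (measurableSet_innr r), h,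
    Measure.restrict_apply (measurableSet_cS r), inter_eq_left.2 (cS_mono hr1), volume_cS_eq hr,
    ENNReal.toReal_mul, ENNReal.toReal_ofReal (by positivity)]

lemma integrable_coord_mu (k : Fin (m + 1)) : Integrable (fun l : E (m + 1) => l k) (mu m) := by
  refine (integrable_const (1 : ℝ)).mono' (measurable_pi_apply k).aestronglyMeasurable ?_
  filter_upwards [ae_mu] with l hl
  rw [Real.norm_eq_abs, abs_of_nonneg (hl.1 k)]
  exact (mem_Icc_of_mem_stdSimplex hl k).2

lemma integral_coord_mu (k : Fin (m + 1)) :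
    ∫ l, l k ∂mu m = (mu m univ).toReal / (m + 1) := by
  have h1 : ∀ k : Fin (m + 1), ∫ l, l k ∂mu m = ∫ l, l 0 ∂mu m := by
    intro k
    have h0 : ∀ k : Fin (m + 1), 0 ≤ᵐ[mu m] fun l : E (m + 1) => l k := fun k => by
      filter_upwards [ae_mu] with l hl using hl.1 k
    rw [integral_eq_lintegral_of_nonneg_ae (h0 k) (measurable_pi_apply k).aestronglyMeasurable,
      integral_eq_lintegral_of_nonneg_ae (h0 0) (measurable_pi_apply 0).aestronglyMeasurable,
      ← lintegral_mu_perm (Equiv.swap 0 k) (measurable_pi_apply 0).ennreal_ofReal]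
    simp
  have h2 : ∑ k, ∫ l, l k ∂mu m = (mu m univ).toReal := by
    rw [← integral_finsetSum _ fun k _ => integrable_coord_mu k,
      integral_congr_ae (g := fun _ => (1 : ℝ))]
    · simp [measureReal_def]
    · filter_upwards [ae_mu] with l hl using hl.2
  rw [Finset.sum_congr rfl fun k _ => h1 k] at h2
  simp only [Finset.sum_const, Finset.card_univ, Fintype.card_fin, nsmul_eq_mul] at h2
  push_cast at h2
  rw [h1 k, ← h2]
  field_simp

lemma facet_pt {φ : E (m + 1) → ℝ} (hφ : ConvexOn ℝ univ φ) {M : ℝ}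
    (hM : ∀ l ∈ stdSimplex ℝ (Fin (m + 1)), φ l ≤ M) (hu : φ (uu m) ≤ 0)
    {z : Fin (m + 1) → E (m + 1)} (hz1 : ∀ k, ∑ i, z k i = 1) {d θ : ℝ} (hθ0 : 0 < θ)
    (hθ1 : θ ≤ 1) (hz2 : ∀ k i, |z k i - (Pi.single k 1 : E (m + 1)) i| ≤ θ * d)
    {ρ : Fin (m + 1) → ℝ} (hρ : ∀ k, φ (z k) ≤ ρ k) (hρ0 : ∀ k, 0 ≤ ρ k)
    {l : E (m + 1)} (hl : l ∈ stdSimplex ℝ (Fin (m + 1))) (hld : ∀ i, d ≤ l i)
    {μ : ℝ} (hμ0 : 0 ≤ μ) (hμ : ∀ i, μ ≤ l i) :
    φ l ≤ ∑ k, (l k - μ) * ρ k + θ * M := by
  have hm : (0 : ℝ) < m + 1 := by positivity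
  have hsum : ∑ k, (l k - μ) = 1 - (m + 1) * μ := by
    simp [Finset.sum_sub_distrib, hl.2]
  set z' : E (m + 1) := ((m + 1) * μ) • uu m + ∑ k, (l k - μ) • z k with hz'
  have h1 : φ z' ≤ ∑ k, (l k - μ) * ρ k := by
    have h := hφ.map_sum_le (t := Finset.univ)
      (w := fun o : Option (Fin (m + 1)) => o.elim ((m + 1) * μ) fun k => l k - μ)
      (p := fun o => o.elim (uu m) z)
      (fun o _ => by
        cases o
        · exact mul_nonneg hm.le hμ0
        · exact sub_nonneg.2 (hμ _))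
      (by rw [Fintype.sum_option]; simp only [Option.elim]; rw [hsum]; ring)
      (fun _ _ => mem_univ _)
    simp only [Fintype.sum_option, Option.elim, smul_eq_mul] at h
    have h2 : ∑ k, (l k - μ) * φ (z k) ≤ ∑ k, (l k - μ) * ρ k :=
      Finset.sum_le_sum fun k _ => mul_le_mul_of_nonneg_left (hρ k) (sub_nonneg.2 (hμ k))
    nlinarith [mul_nonneg (mul_nonneg hm.le hμ0) (neg_nonneg.2 hu)]
  have hd : ∀ i, (z' - l) i = ∑ k, (l k - μ) * (z k i - (Pi.single k 1 : E (m + 1)) i) := by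
    intro i
    simp only [hz', Pi.sub_apply, Pi.add_apply, Pi.smul_apply, Finset.sum_apply, smul_eq_mul, uu,
      mul_sub, Finset.sum_sub_distrib, Pi.single_apply, mul_ite, mul_one, mul_zero,
      Finset.sum_ite_eq, Finset.mem_univ, if_true]
    field_simp
    ring
  have hθd : 0 ≤ θ * d := (abs_nonneg _).trans (hz2 0 0)
  have hd2 : ∀ i, (z' - l) i ≤ θ * d := by
    intro i
    rw [hd]
    calc _ ≤ ∑ k, (l k - μ) * (θ * d) := Finset.sum_le_sum fun k _ =>
          mul_le_mul_of_nonneg_left ((le_abs_self _).trans (hz2 k i)) (sub_nonneg.2 (hμ k))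
      _ ≤ _ := by
          rw [← Finset.sum_mul, hsum]
          nlinarith [mul_nonneg (mul_nonneg hm.le hμ0) hθd]
  have hd3 : ∑ i, (z' - l) i = 0 := by
    simp only [hd]
    rw [Finset.sum_comm]
    refine Finset.sum_eq_zero fun k _ => ?_
    rw [← Finset.mul_sum, Finset.sum_sub_distrib, hz1]
    simp
  have h2 : l - ((1 - θ) / θ) • (z' - l) ∈ stdSimplex ℝ (Fin (m + 1)) := by
    refine ⟨fun i => ?_, ?_⟩
    · rw [Pi.sub_apply, Pi.smul_apply, smul_eq_mul, sub_nonneg]
      have h3 := mul_le_mul_of_nonneg_left (hd2 i) (div_nonneg (sub_nonneg.2 hθ1) hθ0.le)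
      have h4 : (1 - θ) / θ * (θ * d) = d - θ * d := by field_simp
      linarith [hld i]
    · simp only [Pi.sub_apply l, Pi.smul_apply, smul_eq_mul, Finset.sum_sub_distrib,
        ← Finset.mul_sum, hd3, hl.2]
      simp
  have h3 := hφ.2 (mem_univ z') (mem_univ (l - ((1 - θ) / θ) • (z' - l))) (sub_nonneg.2 hθ1) hθ0.le
    (by ring)
  have h4 : (1 - θ) • z' + θ • (l - ((1 - θ) / θ) • (z' - l)) = l := by
    ext i
    simp only [Pi.add_apply, Pi.smul_apply, Pi.sub_apply, smul_eq_mul]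
    field_simp
    ring
  rw [h4, smul_eq_mul, smul_eq_mul] at h3
  have h5 : 0 ≤ ∑ k, (l k - μ) * ρ k :=
    Finset.sum_nonneg fun k _ => mul_nonneg (sub_nonneg.2 (hμ k)) (hρ0 k)
  nlinarith [mul_le_mul_of_nonneg_left h1 (sub_nonneg.2 hθ1),
    mul_le_mul_of_nonneg_left (hM _ h2) hθ0.le]

lemma ofReal_integral_le_lintegral {α : Type*} [MeasurableSpace α] {ν : Measure α} {f g : α → ℝ}
    (hg : Integrable g ν) (h : f ≤ᵐ[ν] g) (h0 : 0 ≤ᵐ[ν] g) :
    ∫⁻ x, ENNReal.ofReal (f x) ∂ν ≤ ENNReal.ofReal (∫ x, g x ∂ν) := by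
  rw [ofReal_integral_eq_lintegral_ofReal hg h0]
  refine lintegral_mono_ae ?_
  filter_upwards [h] with x hx using ENNReal.ofReal_le_ofReal hx

/-- mean of a convex function over a facet in terms of its values near the vertices -/
lemma facet_bound (m : ℕ) : ∃ κ : ℝ, 0 < κ ∧ κ ≤ 1 ∧ ∀ e : ℝ, 0 < e → ∃ δ : ℝ, 0 < δ ∧
    ∀ (φ : E (m + 1) → ℝ) (M : ℝ) (z : Fin (m + 1) → E (m + 1)) (ρ : Fin (m + 1) → ℝ),
      ConvexOn ℝ univ φ → 0 ≤ M → (∀ l ∈ stdSimplex ℝ (Fin (m + 1)), φ l ≤ M) → φ (uu m) ≤ 0 →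
      (∀ k, ∑ i, z k i = 1) → (∀ k i, |z k i - (Pi.single k 1 : E (m + 1)) i| ≤ δ) →
      (∀ k, φ (z k) ≤ ρ k) → (∀ k, 0 ≤ ρ k) →
      ∫⁻ l, ENNReal.ofReal (φ l) ∂mu m ≤
        ENNReal.ofReal ((1 - κ) / (m + 1) * ∑ k, ρ k + e * M) * mu m univ := by
  have hm : (0 : ℝ) < m + 1 := by positivity
  refine ⟨(1 / 2) ^ (m + 1), by positivity, pow_le_one₀ (by norm_num) (by norm_num),
    fun e he => ?_⟩
  set θ := min (e / 2) 1 with hθ
  set ς := min (e / (2 * (m + 1))) (1 / 2) with hς
  have hθ0 : 0 < θ := by positivity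
  have hς0 : 0 < ς := by positivity
  have hς1 : ς ≤ 1 / 2 := min_le_right _ _
  have hς2 : ς * (2 * (m + 1)) ≤ e := (le_div_iff₀ (by positivity)).1 (min_le_left _ _)
  refine ⟨θ * (ς / (m + 1)), by positivity, fun φ M z ρ hφ hM0 hM hu hz1 hz2 hρ hρ0 => ?_⟩
  set U := (mu m univ).toReal with hU
  have hU0 : 0 ≤ U := ENNReal.toReal_nonneg
  set R := ∑ k, ρ k with hR
  have hR0 : 0 ≤ R := Finset.sum_nonneg fun k _ => hρ0 k
  have i1 : Integrable (fun l : E (m + 1) => ∑ k, l k * ρ k) (mu m) :=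
    integrable_finsetSum _ fun k _ => (integrable_coord_mu k).mul_const _
  have i2 : Integrable ((innr m (1 / 2)).indicator fun _ => (1 - 1 / 2) / (m + 1) * R) (mu m) :=
    (integrable_const _).indicator (measurableSet_innr _)
  have i3 : Integrable ((innr m (1 - ς)).indicator fun _ => M) (mu m) :=
    (integrable_const _).indicator (measurableSet_innr _)
  have key : ∀ l ∈ stdSimplex ℝ (Fin (m + 1)), φ l ≤ ∑ k, l k * ρ k -
      (innr m (1 / 2)).indicator (fun _ => (1 - 1 / 2) / (m + 1) * R) l + (θ * M + M) -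
      (innr m (1 - ς)).indicator (fun _ => M) l := by
    intro l hl
    obtain ⟨μ, hμ0, hμ, he⟩ : ∃ μ : ℝ, 0 ≤ μ ∧ (∀ i, μ ≤ l i) ∧
        (innr m (1 / 2)).indicator (fun _ => (1 - 1 / 2) / (m + 1) * R) l = μ * R := by
      by_cases h : l ∈ innr m (1 / 2)
      · exact ⟨_, by positivity, h, indicator_of_mem h _⟩
      · exact ⟨0, le_rfl, hl.1, by rw [indicator_of_notMem h, zero_mul]⟩
    have h1 : ∑ k, l k * ρ k - μ * R = ∑ k, (l k - μ) * ρ k := by
      simp only [hR, sub_mul, Finset.sum_sub_distrib, Finset.mul_sum]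
    rw [he, h1]
    by_cases h : l ∈ innr m (1 - ς)
    · rw [indicator_of_mem h]
      have := facet_pt hφ hM hu hz1 hθ0 (min_le_right _ _) hz2 hρ hρ0 hl
        (fun i => by simpa using h i) hμ0 hμ
      linarith
    · rw [indicator_of_notMem h]
      have h5 : 0 ≤ ∑ k, (l k - μ) * ρ k :=
        Finset.sum_nonneg fun k _ => mul_nonneg (sub_nonneg.2 (hμ k)) (hρ0 k)
      nlinarith [hM l hl, mul_nonneg hθ0.le hM0]
  have hI := ((i1.sub i2).add (integrable_const (θ * M + M))).sub i3
  have h1 := ofReal_integral_le_lintegral hI (by filter_upwards [ae_mu] with l hl using key l hl)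
    (by
      filter_upwards [ae_mu] with l hl
      have h2 : (innr m (1 / 2)).indicator (fun _ => (1 - 1 / 2) / (m + 1) * R) l ≤
          ∑ k, l k * ρ k := by
        by_cases h : l ∈ innr m (1 / 2)
        · rw [indicator_of_mem h, hR, Finset.mul_sum]
          exact Finset.sum_le_sum fun k _ => mul_le_mul_of_nonneg_right (h k) (hρ0 k)
        · rw [indicator_of_notMem h]
          exact Finset.sum_nonneg fun k _ => mul_nonneg (hl.1 k) (hρ0 k)
      have h3 : (innr m (1 - ς)).indicator (fun _ => M) l ≤ M := indicator_le_self' (fun _ _ => hM0) l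
      simp only [Pi.add_apply, Pi.sub_apply, Pi.zero_apply]
      nlinarith [mul_nonneg hθ0.le hM0])
  refine h1.trans ?_
  rw [← ENNReal.ofReal_toReal (measure_ne_top (mu m) univ), ← hU,
    ← ENNReal.ofReal_mul' hU0]
  refine ENNReal.ofReal_le_ofReal ?_
  rw [integral_sub' ((i1.sub i2).add (integrable_const _)) i3,
    integral_add' (i1.sub i2) (integrable_const _), integral_sub' i1 i2,
    integral_finsetSum _ fun k _ => (integrable_coord_mu k).mul_const _,
    integral_indicator_const _ (measurableSet_innr _),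
    integral_indicator_const _ (measurableSet_innr _), mu_innr (by norm_num) (by norm_num),
    mu_innr (by linarith) (by linarith), integral_const]
  simp only [integral_mul_const, integral_coord_mu, ← Finset.mul_sum, smul_eq_mul, measureReal_def]
  rw [← hU, ← hR]
  have h2 : 1 + (m : ℝ) * (-ς) ≤ (1 + -ς) ^ m := one_add_mul_le_pow (by linarith) m
  rw [← sub_eq_add_neg] at h2
  have h3 : θ + 1 - (1 - ς) ^ m ≤ e := by nlinarith [min_le_left (e / 2) 1]
  have h4 := mul_le_mul_of_nonneg_right h3 (mul_nonneg hM0 hU0)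
  have h5 : U / (m + 1) * R - (1 / 2) ^ m * U * ((1 - 1 / 2) / (m + 1) * R) =
      (1 - (1 / 2) ^ (m + 1)) / (m + 1) * R * U := by
    field_simp; ring
  rw [h5]
  linarith

end Pool.Agent.MP_5f4cdd_gt

end
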