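import Mathlib
import Pool.Agent.Mg.F5f4cdd.G7fc77a
import Pool.Agent.Mg.F5f4cdd.Gb7ecc9
import Pool.Agent.MP_5f4cdd_gt.DefsInf
import Pool.Agent.MP_5f4cdd_gt.FlowDefs

section

set_option autoImplicit false
open Finset

namespace Pool.Agent.MP_5f4cdd_gt.AB

variable {n : ℕ}

lemma sum_erase_eq (H : Finset (Fin n) → ℝ) :
    ∑ I : Finset (Fin n), ∑ i ∈ I, H (I.erase i) =
      ∑ J : Finset (Fin n), ((n : ℝ) - J.card) * H J := by
  have h1 : ∀ J : Finset (Fin n), ((n : ℝ) - J.card) * H J = ∑ i ∈ Jᶜ, H J := by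
    intro J
    rw [sum_const, card_compl, Fintype.card_fin, nsmul_eq_mul, Nat.cast_sub]
    simpa using card_le_univ J
  simp only [h1]
  rw [sum_sigma', sum_sigma']
  refine sum_bij' (fun x _ => ⟨x.1.erase x.2, x.2⟩) (fun x _ => ⟨insert x.2 x.1, x.2⟩)
    ?_ ?_ ?_ ?_ ?_
  · intro x _; simp
  · intro x _; simp
  · rintro ⟨I, i⟩ hx
    simp only [mem_sigma, mem_univ, true_and] at hx
    simp [insert_erase hx]
  · rintro ⟨I, i⟩ hx
    simp only [mem_sigma, mem_univ, true_and, mem_compl] at hx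
    simp [erase_insert hx]
  · intro x _; rfl

lemma sum_inv_choose : ∑ I : Finset (Fin n), ((n.choose I.card : ℝ))⁻¹ = n + 1 := by
  rw [← powerset_univ, sum_powerset_apply_card (f := fun k => ((n.choose k : ℝ))⁻¹)]
  simp only [card_univ, Fintype.card_fin, nsmul_eq_mul]
  rw [sum_congr rfl (g := fun _ => (1 : ℝ))]
  · simp
  · intro k hk
    have : (n.choose k : ℝ) ≠ 0 := by
      exact_mod_cast (Nat.choose_pos (by simpa [Nat.lt_succ_iff] using hk)).ne'
    field_simp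

lemma choose_pos' (I : Finset (Fin n)) : 0 < (n.choose I.card : ℝ) := by
  exact_mod_cast Nat.choose_pos (by simpa using card_le_univ I)

lemma exp_avg_le {ι : Type} (s : Finset ι) (w x : ι → ℝ) (hw : ∀ i ∈ s, 0 ≤ w i)
    (h1 : ∑ i ∈ s, w i = 1) :
    Real.exp (∑ i ∈ s, w i * x i) ≤ ∑ i ∈ s, w i * Real.exp (x i) := by
  have := convexOn_exp.map_sum_le (t := s) (w := w) (p := x) hw h1 (fun _ _ => Set.mem_univ _)
  simpa using this

lemma two_term {l e m : ℝ} (hm : 0 < m) (h0 : m ≤ l) (h1 : m ≤ 1 - l) :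
    1 + m ^ 3 * e ^ 2 / 2 ≤ l * Real.exp ((1 - l) * e) + (1 - l) * Real.exp (-(l * e)) := by
  have hl : 0 < l := hm.trans_le h0
  have hl' : 0 < 1 - l := hm.trans_le h1
  have he2 : 0 ≤ e ^ 2 := sq_nonneg e
  rcases le_total 0 e with he | he
  · have a := Real.quadratic_le_exp_of_nonneg (mul_nonneg hl'.le he)
    have b := Real.add_one_le_exp (-(l * e))
    have c : m ^ 3 ≤ l * (1 - l) ^ 2 := by
      rw [pow_succ' m 2]; gcongr
    have d := mul_le_mul_of_nonneg_right c he2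
    nlinarith [mul_le_mul_of_nonneg_left a hl.le, mul_le_mul_of_nonneg_left b hl'.le]
  · have a := Real.quadratic_le_exp_of_nonneg (x := -(l * e)) (by nlinarith)
    have b := Real.add_one_le_exp ((1 - l) * e)
    have c : m ^ 3 ≤ (1 - l) * l ^ 2 := by
      rw [pow_succ' m 2]; gcongr
    have d := mul_le_mul_of_nonneg_right c he2
    nlinarith [mul_le_mul_of_nonneg_left a hl'.le, mul_le_mul_of_nonneg_left b hl.le]

/-- the average over the facets -/
noncomputable def av (h : Finset (Fin n) → ℝ) (I : Finset (Fin n)) : ℝ :=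
  (I.card : ℝ)⁻¹ * ∑ i ∈ I, h (I.erase i)

lemma sum_av (h : Finset (Fin n) → ℝ) (u : ℕ → ℝ) :
    ∑ I : Finset (Fin n), (n.choose I.card : ℝ)⁻¹ * (u I.card * av h I) =
      ∑ J : Finset (Fin n), (n.choose J.card : ℝ)⁻¹ * (u (J.card + 1) * h J) -
        u (n + 1) * h univ := by
  have h1 : ∀ I : Finset (Fin n), (n.choose I.card : ℝ)⁻¹ * (u I.card * av h I) =
      ∑ i ∈ I, (fun J : Finset (Fin n) => (n.choose (J.card + 1) : ℝ)⁻¹ *
        (u (J.card + 1) * (((J.card + 1 : ℕ) : ℝ)⁻¹ * h J))) (I.erase i) := by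
    intro I
    rw [av, mul_sum, mul_sum, mul_sum]
    refine sum_congr rfl fun i hi => ?_
    simp only [card_erase_add_one hi]
  simp only [h1]
  rw [sum_erase_eq (fun J : Finset (Fin n) => (n.choose (J.card + 1) : ℝ)⁻¹ *
        (u (J.card + 1) * (((J.card + 1 : ℕ) : ℝ)⁻¹ * h J))), eq_sub_iff_add_eq, ← sum_erase_add _ _ (mem_univ (univ : Finset (Fin n))),
    ← sum_erase_add (s := univ) _ (mem_univ (univ : Finset (Fin n)))]
  simp only [card_univ, Fintype.card_fin, sub_self, zero_mul, add_zero, Nat.choose_self,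
    Nat.cast_one, inv_one, one_mul, add_left_inj]
  refine sum_congr rfl fun J hJ => ?_
  have hlt : J.card < n := by
    simpa using (card_lt_iff_ne_univ J).2 (ne_of_mem_erase hJ)
  have e := Nat.choose_succ_right_eq n J.card
  have e' : (n.choose (J.card + 1) : ℝ) * ((J.card + 1 : ℕ) : ℝ) =
      (n.choose J.card : ℝ) * ((n : ℝ) - J.card) := by
    rw [← Nat.cast_sub hlt.le]; exact_mod_cast e
  have p1 : (0 : ℝ) < n.choose (J.card + 1) := by exact_mod_cast Nat.choose_pos hlt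
  have p2 := choose_pos' J
  have p3 : (0 : ℝ) < ((J.card + 1 : ℕ) : ℝ) := by positivity
  have : ((n : ℝ) - J.card) * ((n.choose (J.card + 1) : ℝ)⁻¹ * ((J.card + 1 : ℕ) : ℝ)⁻¹) =
      (n.choose J.card : ℝ)⁻¹ := by
    field_simp
    linarith
  rw [← this]; ring

lemma exp_av_le (h : Finset (Fin n) → ℝ) {I : Finset (Fin n)} (hI : I.Nonempty) :
    Real.exp (av h I) ≤ (I.card : ℝ)⁻¹ * ∑ i ∈ I, Real.exp (h (I.erase i)) := by
  have hk : (0 : ℝ) < I.card := by exact_mod_cast hI.card_pos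
  rw [av, mul_sum, mul_sum]
  exact exp_avg_le I (fun _ => (I.card : ℝ)⁻¹) _ (fun _ _ => by positivity)
    (by rw [sum_const, nsmul_eq_mul, mul_inv_cancel₀ hk.ne'])

lemma av_add (h g : Finset (Fin n) → ℝ) (I : Finset (Fin n)) :
    av (fun J => h J + g J) I = av h I + av g I := by
  simp only [av, sum_add_distrib, mul_add]

lemma step {Φ F : Finset (Fin n) → ℝ} (hΦ : ∀ I, 0 < Φ I) (hF : ∀ I, 0 < F I)
    {I : Finset (Fin n)} (hI : I.Nonempty)
    (h : ∑ i ∈ I, Φ (I.erase i) * (F (I.erase i) + F I) ≤ Φ I * F I)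
    {α β : Finset (Fin n) → ℝ} (hα : ∀ J, Real.exp (α J) = Φ J / (n + 1) ^ J.card)
    (hβ : ∀ J, Real.exp (β J) = F J * n.choose J.card) :
    (I.card : ℝ) / (n + 1) * Real.exp (av α I - α I) +
      (1 - (I.card : ℝ) / (n + 1)) * Real.exp (av α I - α I + (av β I - β I)) ≤ 1 := by
  obtain ⟨k, hk⟩ : ∃ k, I.card = k + 1 := ⟨I.card - 1, by have := hI.card_pos; omega⟩
  have hkn : k + 1 ≤ n := by simpa [hk] using card_le_univ I
  have hkn' : (k : ℝ) + 1 ≤ n := by exact_mod_cast hkn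
  have hc : ∀ i ∈ I, (I.erase i).card = k := fun i hi => by
    have := card_erase_add_one hi; omega
  have h1 := exp_av_le α hI
  have h2 := exp_av_le (fun J => α J + β J) hI
  rw [av_add] at h2
  simp only [Real.exp_add] at h2
  have e1 : ∑ i ∈ I, Real.exp (α (I.erase i)) = (∑ i ∈ I, Φ (I.erase i)) / (n + 1) ^ k := by
    rw [sum_div]; exact sum_congr rfl fun i hi => by rw [hα, hc i hi]
  have e2 : ∑ i ∈ I, Real.exp (α (I.erase i)) * Real.exp (β (I.erase i)) =
      (∑ i ∈ I, Φ (I.erase i) * F (I.erase i)) * (n.choose k / (n + 1) ^ k) := by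
    rw [sum_mul]; exact sum_congr rfl fun i hi => by rw [hα, hβ, hc i hi]; ring
  have e3 : ∑ i ∈ I, Φ (I.erase i) * (F (I.erase i) + F I) =
      ∑ i ∈ I, Φ (I.erase i) * F (I.erase i) + (∑ i ∈ I, Φ (I.erase i)) * F I := by
    simp only [mul_add, sum_add_distrib, sum_mul]
  rw [e1] at h1
  rw [e2] at h2
  rw [e3] at h
  have e : (n.choose (k + 1) : ℝ) * (k + 1) = (n.choose k : ℝ) * ((n : ℝ) - k) := by
    rw [← Nat.cast_sub (by omega : k ≤ n)]; exact_mod_cast Nat.choose_succ_right_eq n k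
  have p1 : (0 : ℝ) < n.choose (k + 1) := by exact_mod_cast Nat.choose_pos hkn
  have pΦ := hΦ I
  have pF := hF I
  simp only [Real.exp_add, Real.exp_sub, hα I, hβ I, hk, Nat.cast_add, Nat.cast_one] at h1 h2 ⊢
  set A := ∑ i ∈ I, Φ (I.erase i)
  set B := ∑ i ∈ I, Φ (I.erase i) * F (I.erase i)
  have l0 : 0 ≤ 1 - ((k : ℝ) + 1) / (n + 1) := by
    rw [sub_nonneg, div_le_one (by positivity)]; linarith
  have t1 : ((k : ℝ) + 1) / (n + 1) * (Real.exp (av α I) / (Φ I / (n + 1) ^ (k + 1))) ≤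
      A / Φ I := by
    refine (mul_le_mul_of_nonneg_left (div_le_div_of_nonneg_right h1 (by positivity))
      (by positivity)).trans (le_of_eq ?_)
    field_simp
    ring
  have t2 : (1 - ((k : ℝ) + 1) / (n + 1)) * (Real.exp (av α I) / (Φ I / (n + 1) ^ (k + 1)) *
      (Real.exp (av β I) / (F I * n.choose (k + 1)))) ≤ B / (Φ I * F I) := by
    rw [div_mul_div_comm]
    refine (mul_le_mul_of_nonneg_left (div_le_div_of_nonneg_right h2 (by positivity))
      l0).trans (le_of_eq ?_)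
    field_simp
    linear_combination (-(B * ((n : ℝ) + 1) ^ (k + 1))) * e
  have t3 : A / Φ I + B / (Φ I * F I) ≤ 1 := by
    rw [div_add_div _ _ pΦ.ne' (by positivity), div_le_one (by positivity)]
    nlinarith
  linarith

theorem comb (n : ℕ) {ε : ℝ} (hε : 0 < ε) : ∃ c : ℝ, 0 < c ∧
    ∀ Φ F : Finset (Fin n) → ℝ, (∀ I, 0 < Φ I) → (∀ I, 0 < F I) → Φ ∅ = 1 → F ∅ = 1 →
      (∀ I, I.Nonempty → ∑ i ∈ I, Φ (I.erase i) * (F (I.erase i) + F I) ≤ Φ I * F I) →
      Φ univ * ∑ I, F I < (1 + c) * (n + 1) ^ (n + 1) →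
      1 - ε ≤ Φ univ * ∏ i, Φ (univ.erase i) / Φ univ := by
  set m : ℝ := 1 / (n + 1) with hm
  have m0 : 0 < m := by positivity
  set δ : ℝ := ε / (4 * n + 1) with hδ
  have δ0 : 0 < δ := by positivity
  set η : ℝ := min δ (Real.log (1 + m ^ 3 * δ ^ 2 / 2)) with hη
  have η0 : 0 < η := lt_min δ0 (Real.log_pos (by
    have : 0 < m ^ 3 * δ ^ 2 / 2 := by positivity
    linarith))
  refine ⟨η / 2 ^ n, by positivity, fun Φ F hΦ hF hΦ0 hF0 h hT => ?_⟩
  set α : Finset (Fin n) → ℝ := fun J => Real.log (Φ J / (n + 1) ^ J.card) with hαd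
  set β : Finset (Fin n) → ℝ := fun J => Real.log (F J * n.choose J.card) with hβd
  have hα : ∀ J, Real.exp (α J) = Φ J / (n + 1) ^ J.card := fun J =>
    Real.exp_log (div_pos (hΦ J) (by positivity))
  have hβ : ∀ J, Real.exp (β J) = F J * n.choose J.card := fun J =>
    Real.exp_log (mul_pos (hF J) (choose_pos' J))
  have α0 : α ∅ = 0 := by simp [hαd, hΦ0]
  have β0 : β ∅ = 0 := by simp [hβd, hF0]
  set u : ℕ → ℝ := fun k => 1 - (k : ℝ) / (n + 1) with hu
  set s : Finset (Fin n) → ℝ := fun I => α I - av α I + u I.card * (β I - av β I) with hs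
  have hcard : ∀ I : Finset (Fin n), (I.card : ℝ) ≤ n := fun I => by
    exact_mod_cast (by simpa using card_le_univ I)
  have u1 : ∀ I : Finset (Fin n), m ≤ u I.card := fun I => by
    have := hcard I
    simp only [hu, hm]
    rw [le_sub_iff_add_le, ← add_div, div_le_one (by positivity)]; linarith
  have u2 : ∀ I : Finset (Fin n), u I.card ≤ 1 := fun I => by
    simp only [hu]; rw [sub_le_self_iff]; positivity
  have key : ∀ I, 1 + m ^ 3 * (β I - av β I) ^ 2 / 2 ≤ Real.exp (s I) := by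
    intro I
    rcases I.eq_empty_or_nonempty with rfl | hI
    · simp [hs, α0, β0, av]
    have h1 := step hΦ hF hI (h I hI) hα hβ
    have h2 := two_term (l := (I.card : ℝ) / (n + 1)) (e := β I - av β I) m0 (by
      rw [hm]; gcongr; exact_mod_cast hI.card_pos) (u1 I)
    refine h2.trans ?_
    have h3 := mul_le_mul_of_nonneg_left h1 (Real.exp_pos (s I)).le
    rw [mul_one] at h3
    refine le_trans (le_of_eq ?_) h3
    rw [mul_add, mul_left_comm, ← Real.exp_add, mul_left_comm (Real.exp (s I)), ← Real.exp_add]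
    congr 3 <;> simp only [hs, hu] <;> ring
  have s0 : ∀ I, 0 ≤ s I := fun I => by
    have h1 := key I
    have : 0 ≤ m ^ 3 * (β I - av β I) ^ 2 / 2 := by positivity
    exact Real.one_le_exp_iff.1 (by linarith)
  have hsum : ∑ I : Finset (Fin n), (n.choose I.card : ℝ)⁻¹ * s I =
      α univ + ∑ I : Finset (Fin n), (m * (n.choose I.card : ℝ)⁻¹) * β I := by
    have a1 := sum_av α (fun _ => 1)
    have a2 := sum_av β u
    have a3 : u (n + 1) = 0 := by
      simp only [hu]; push_cast; rw [div_self (by positivity), sub_self]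
    have a4 : ∀ k, u (k + 1) = u k - m := fun k => by
      simp only [hu, hm]; push_cast; ring
    simp only [one_mul, a3, zero_mul, sub_zero] at a1 a2
    simp only [a4] at a2
    have a5 : ∀ I : Finset (Fin n), (n.choose I.card : ℝ)⁻¹ * s I =
        (n.choose I.card : ℝ)⁻¹ * α I - (n.choose I.card : ℝ)⁻¹ * av α I +
        ((n.choose I.card : ℝ)⁻¹ * ((u I.card - m) * β I) -
          (n.choose I.card : ℝ)⁻¹ * (u I.card * av β I)) +
        (m * (n.choose I.card : ℝ)⁻¹) * β I := fun I => by simp only [hs]; ring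
    simp only [a5, sum_add_distrib, sum_sub_distrib, a1, a2]
    ring
  have hexp : Real.exp (∑ I : Finset (Fin n), (n.choose I.card : ℝ)⁻¹ * s I) * (n + 1) ^ (n + 1) ≤
      Φ univ * ∑ I, F I := by
    have a1 := exp_avg_le univ (fun I : Finset (Fin n) => m * (n.choose I.card : ℝ)⁻¹) β
      (fun I _ => by have := choose_pos' I; positivity)
      (by rw [← mul_sum, sum_inv_choose, hm]; field_simp)
    have a2 : ∑ I : Finset (Fin n), m * (n.choose I.card : ℝ)⁻¹ * Real.exp (β I) =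
        m * ∑ I, F I := by
      rw [mul_sum]
      refine sum_congr rfl fun I _ => ?_
      have := choose_pos' I
      rw [hβ]; field_simp
    rw [a2] at a1
    rw [hsum, Real.exp_add, hα, card_univ, Fintype.card_fin]
    have := hΦ univ
    refine (mul_le_mul_of_nonneg_right (mul_le_mul_of_nonneg_left a1 (by positivity))
      (by positivity)).trans (le_of_eq ?_)
    rw [hm]; field_simp; ring
  have hS : ∑ I : Finset (Fin n), (n.choose I.card : ℝ)⁻¹ * s I ≤ η / 2 ^ n := by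
    have a1 := lt_of_mul_lt_mul_right (hexp.trans_lt hT) (by positivity)
    have a2 := Real.add_one_le_exp (∑ I : Finset (Fin n), (n.choose I.card : ℝ)⁻¹ * s I)
    linarith
  have s1 : ∀ I, s I ≤ η := fun I => by
    have a1 := (single_le_sum (f := fun I : Finset (Fin n) => (n.choose I.card : ℝ)⁻¹ * s I)
      (fun J _ => mul_nonneg (inv_nonneg.2 (choose_pos' J).le) (s0 J)) (mem_univ I)).trans hS
    have a2 : (n.choose I.card : ℝ) ≤ 2 ^ n := by exact_mod_cast Nat.choose_le_two_pow n _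
    have a3 := choose_pos' I
    rw [inv_mul_le_iff₀ a3] at a1
    refine a1.trans ?_
    rw [mul_div_assoc', div_le_iff₀ (by positivity), mul_comm]
    exact mul_le_mul_of_nonneg_left a2 η0.le
  have hD : ∀ I, |α I - av α I| ≤ 2 * δ := fun I => by
    have a1 : Real.exp (s I) ≤ 1 + m ^ 3 * δ ^ 2 / 2 := by
      rw [← Real.exp_log (x := 1 + m ^ 3 * δ ^ 2 / 2) (by positivity)]
      exact Real.exp_le_exp.2 ((s1 I).trans (min_le_right _ _))
    have a2 : (β I - av β I) ^ 2 ≤ δ ^ 2 :=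
      le_of_mul_le_mul_left (a := m ^ 3) (by linarith [key I]) (by positivity)
    have a3 := abs_le.1 (abs_le_of_sq_le_sq' a2 δ0.le |> abs_le.2)
    have a4 := (s1 I).trans (min_le_left _ _)
    have a5 := s0 I
    have a6 := m0.le.trans (u1 I)
    have a7 := u2 I
    simp only [hs] at a4 a5
    rw [abs_le]
    constructor <;> nlinarith [a3.1, a3.2]
  have hαb : ∀ I : Finset (Fin n), -(I.card * (2 * δ)) ≤ α I := by
    intro I
    induction I using Finset.strongInduction with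
    | H I ih =>
      rcases I.eq_empty_or_nonempty with rfl | hI
      · simp [α0]
      have hk : (0 : ℝ) < I.card := by exact_mod_cast hI.card_pos
      have a1 : -((I.card - 1) * (2 * δ)) ≤ av α I := by
        rw [av, le_inv_mul_iff₀ hk]
        have : ∑ i ∈ I, (-(((I.card : ℝ) - 1) * (2 * δ))) ≤ ∑ i ∈ I, α (I.erase i) := by
          refine sum_le_sum fun i hi => ?_
          have a2 := ih _ (erase_ssubset hi)
          have a3 : ((I.erase i).card : ℝ) = I.card - 1 := by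
            rw [← card_erase_add_one hi]; push_cast; ring
          rwa [a3] at a2
        simpa using this
      linarith [(abs_le.1 (hD I)).1]
  have hfin : Φ univ * ∏ i, Φ (univ.erase i) / Φ univ =
      Real.exp (α univ - n * (α univ - av α univ)) := by
    have a1 : (n : ℝ) * av α univ = ∑ i, α (univ.erase i) := by
      rcases Nat.eq_zero_or_pos n with rfl | hn
      · simp
      rw [av, card_univ, Fintype.card_fin, ← mul_assoc, mul_inv_cancel₀ (by positivity), one_mul]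
    have a2 : α univ - n * (α univ - av α univ) = α univ + ∑ i, (α (univ.erase i) - α univ) := by
      rw [sum_sub_distrib, ← a1]; simp; ring
    have a3 : ∀ i : Fin n, Real.exp (α (univ.erase i) - α univ) =
        (n + 1) * (Φ (univ.erase i) / Φ univ) := fun i => by
      have a4 := card_erase_add_one (mem_univ i)
      rw [Real.exp_sub, hα, hα, ← a4]
      have := hΦ univ
      field_simp
      ring
    rw [a2, Real.exp_add, Real.exp_sum]
    simp only [a3]
    rw [prod_mul_distrib, hα]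
    simp only [prod_const, card_univ, Fintype.card_fin]
    field_simp
  rw [hfin]
  refine le_trans ?_ (Real.add_one_le_exp _)
  have a1 := hαb univ
  have a2 := (abs_le.1 (hD univ)).2
  rw [card_univ, Fintype.card_fin] at a1
  have a3 : (4 * n + 1) * δ = ε := by rw [hδ]; field_simp
  have a4 : (0 : ℝ) ≤ n := by positivity
  nlinarith

end Pool.Agent.MP_5f4cdd_gt.AB

end

section

set_option autoImplicit false
open MeasureTheory ENNReal Set Filter Topology Matrix

namespace Pool.Agent.MP_5f4cdd_gt.PL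

variable {n : ℕ}

/-- the functional form of a shadow system in direction `θ` at three times -/
def ShadowHyp (θ : E n) (α β : ℝ) (F₀ F₁ F : E n → ℝ≥0∞) : Prop :=
  ∀ (y₀ y₁ : E n) (a b : ℝ), 0 < a → 0 < b → a + b = 1 → a * β * (θ ⬝ᵥ y₀) = b * α * (θ ⬝ᵥ y₁) →
    F₀ y₀ ^ a * F₁ y₁ ^ b ≤ F (a • y₀ + b • y₁)

lemma ShadowHyp.neg {θ : E n} {α β : ℝ} {F₀ F₁ F : E n → ℝ≥0∞} (H : ShadowHyp θ α β F₀ F₁ F) :
    ShadowHyp (-θ) α β F₀ F₁ F := by
  intro y₀ y₁ a b ha hb hab h
  refine H y₀ y₁ a b ha hb hab ?_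
  simp only [neg_dotProduct] at h
  linarith

lemma measurable_dot (θ : E n) : Measurable fun y : E n => θ ⬝ᵥ y := by
  have : Continuous fun y : E n => θ ⬝ᵥ y := by fun_prop
  exact this.measurable

lemma measurableSet_pos (θ : E n) : MeasurableSet {y : E n | 0 < θ ⬝ᵥ y} :=
  measurableSet_lt measurable_const (measurable_dot θ)

lemma lintegral_half0 {m : ℕ} {F : E (m + 1) → ℝ≥0∞} (hF : Measurable F) :
    ∫⁻ y in {y : E (m + 1) | 0 < y 0}, F y =
      ∫⁻ r in Ioi (0 : ℝ), ∫⁻ X : E m, F (Fin.cons r X) := by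
  have hs : MeasurableSet {y : E (m + 1) | 0 < y 0} :=
    measurableSet_lt measurable_const (measurable_pi_apply 0)
  rw [← lintegral_indicator hs, ← lintegral_indicator measurableSet_Ioi,
    lintegral_cons (hF.indicator hs)]
  refine lintegral_congr fun r => ?_
  by_cases hr : 0 < r
  · rw [indicator_of_mem (mem_Ioi.2 hr)]
    refine lintegral_congr fun X => ?_
    rw [indicator_of_mem (by simpa using hr)]
  · rw [indicator_of_notMem (by simpa using hr)]
    refine (lintegral_congr fun X => ?_).trans lintegral_zero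
    rw [indicator_of_notMem (by simpa using hr)]

lemma exists_coord {m : ℕ} {θ : E (m + 1)} (hθ : θ ≠ 0) :
    ∃ T : E (m + 1) ≃ₗ[ℝ] E (m + 1), ∀ z, θ ⬝ᵥ T z = z 0 := by
  obtain ⟨j, hj⟩ := Function.ne_iff.1 hθ
  let S : E (m + 1) →ₗ[ℝ] E (m + 1) :=
    { toFun := fun y => Fin.cons (θ ⬝ᵥ y) (fun i => y (j.succAbove i))
      map_add' := fun x y => by
        ext k
        refine Fin.cases ?_ (fun i => ?_) k <;> simp
      map_smul' := fun c x => by
        ext k
        refine Fin.cases ?_ (fun i => ?_) k <;> simp }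
  have hS : Function.Injective S := by
    rw [injective_iff_map_eq_zero]
    intro y hy
    have h0 : θ ⬝ᵥ y = 0 := congrFun hy 0
    have h1 : ∀ i, y (j.succAbove i) = 0 := fun i => congrFun hy i.succ
    rw [dotProduct, Fin.sum_univ_succAbove _ j] at h0
    simp only [h1, mul_zero, Finset.sum_const_zero, add_zero, mul_eq_zero] at h0
    ext k
    refine Fin.succAboveCases j ?_ (fun i => h1 i) k
    exact h0.resolve_left hj
  refine ⟨(LinearEquiv.ofInjectiveEndo S hS).symm, fun z => ?_⟩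
  have := (LinearEquiv.ofInjectiveEndo S hS).apply_symm_apply z
  exact congrFun this 0

lemma half_le {θ : E n} (hθ : θ ≠ 0) {α β : ℝ} (hα : 0 < α) (hβ : 0 < β) (hαβ : α + β = 1)
    {F₀ F₁ F : E n → ℝ≥0∞} (h₀ : Measurable F₀) (h₁ : Measurable F₁) (h : Measurable F)
    (H : ShadowHyp θ α β F₀ F₁ F) :
    (∫⁻ y in {y | 0 < θ ⬝ᵥ y}, F y)⁻¹ ≤ ENNReal.ofReal α * (∫⁻ y in {y | 0 < θ ⬝ᵥ y}, F₀ y)⁻¹ +
      ENNReal.ofReal β * (∫⁻ y in {y | 0 < θ ⬝ᵥ y}, F₁ y)⁻¹ := by
  obtain rfl | ⟨m, rfl⟩ : n = 0 ∨ ∃ m, n = m + 1 := by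
    cases n with
    | zero => exact Or.inl rfl
    | succ m => exact Or.inr ⟨m, rfl⟩
  · exact absurd (Subsingleton.elim _ _) hθ
  obtain ⟨T, hT⟩ := exists_coord hθ
  have hdet : LinearMap.det (T : E (m + 1) →ₗ[ℝ] E (m + 1)) ≠ 0 := T.isUnit_det'.ne_zero
  have mT : Measurable T := measurable_lin (T : E (m + 1) →ₗ[ℝ] E (m + 1))
  set c := ENNReal.ofReal |(LinearMap.det (T : E (m + 1) →ₗ[ℝ] E (m + 1)))⁻¹| with hc
  have c0 : c ≠ 0 := by
    rw [hc]; simpa using hdet
  have ct : c ≠ ∞ := ENNReal.ofReal_ne_top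
  have hs : MeasurableSet {y : E (m + 1) | 0 < y 0} :=
    measurableSet_lt measurable_const (measurable_pi_apply 0)
  have e : ∀ {G : E (m + 1) → ℝ≥0∞}, Measurable G →
      ∫⁻ r in Ioi (0 : ℝ), ∫⁻ X : E m, G (T (Fin.cons r X)) =
        c * ∫⁻ y in {y | 0 < θ ⬝ᵥ y}, G y := by
    intro G hG
    rw [← lintegral_half0 (F := fun z => G (T z)) (hG.comp mT),
      ← lintegral_indicator (measurableSet_pos θ), ← lintegral_indicator hs, hc,
      ← lintegral_comp_lin _ hdet (hG.indicator (measurableSet_pos θ))]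
    refine lintegral_congr fun z => ?_
    simp only [indicator, mem_ofPred_eq, LinearEquiv.coe_coe, hT]
  have key := ball hα hβ hαβ (measurable_slice (h₀.comp mT)) (measurable_slice (h₁.comp mT))
    (measurable_slice (h.comp mT)) (by
      intro r s a b _ _ ha hb hab hrs
      refine pl ha hb hab m ((h₀.comp mT).comp (measurable_cons' r))
        ((h₁.comp mT).comp (measurable_cons' s)) ((h.comp mT).comp (measurable_cons' _))
        fun X Y => ?_
      have := H (T (Fin.cons r X)) (T (Fin.cons s Y)) a b ha hb hab (by simpa [hT] using hrs)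
      rw [← map_smul, ← map_smul, ← map_add, cons_combo] at this
      exact this)
  simp only [Function.comp_apply] at key
  rw [e h₀, e h₁, e h, ENNReal.mul_inv (Or.inl c0) (Or.inl ct),
    ENNReal.mul_inv (Or.inl c0) (Or.inl ct), ENNReal.mul_inv (Or.inl c0) (Or.inl ct),
    mul_left_comm, mul_left_comm (ENNReal.ofReal β), ← mul_add] at key
  exact (ENNReal.mul_le_mul_iff_right (ENNReal.inv_ne_zero.2 ct) (ENNReal.inv_ne_top.2 c0)).1 key

lemma cover {α β A B σ : ℝ} (hα : 0 < α) (hβ : 0 < β) (hA : 0 < A) (hB : 0 < B) (hσ : 0 < σ)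
    {P P₀ P₁ : ℝ≥0∞} (h : P⁻¹ ≤ ENNReal.ofReal α * P₀⁻¹ + ENNReal.ofReal β * P₁⁻¹)
    (hP : P < ENNReal.ofReal (σ * (α / A + β / B)⁻¹)) :
    P₀ ≤ ENNReal.ofReal (σ * A) ∨ P₁ ≤ ENNReal.ofReal (σ * B) := by
  by_contra hc
  push Not at hc
  refine absurd hP (not_lt.2 ?_)
  rw [← ENNReal.inv_le_inv]
  refine h.trans ?_
  refine (add_le_add (mul_le_mul_right (ENNReal.inv_le_inv.2 hc.1.le) _)
    (mul_le_mul_right (ENNReal.inv_le_inv.2 hc.2.le) _)).trans (le_of_eq ?_)
  rw [← ENNReal.ofReal_inv_of_pos (by positivity), ← ENNReal.ofReal_inv_of_pos (by positivity),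
    ← ENNReal.ofReal_inv_of_pos (by positivity), ← ENNReal.ofReal_mul hα.le,
    ← ENNReal.ofReal_mul hβ.le, ← ENNReal.ofReal_add (by positivity) (by positivity)]
  congr 1
  field_simp

/-- the connectedness argument that replaces the choice of balanced translations -/
lemma balance {α β : ℝ} (hα : 0 < α) (hβ : 0 < β) {P₀ P₁ N₀ N₁ : ℝ → ℝ≥0∞} {P N m₀ m₁ : ℝ≥0∞}
    (c₀ : ∀ K, IsClosed {τ | P₀ τ ≤ K}) (c₁ : ∀ K, IsClosed {τ | P₁ τ ≤ K})
    (u₀ : ∀ K, K ≠ ∞ → ∃ τ, K < P₀ τ) (u₁ : ∀ K, K ≠ ∞ → ∃ τ, K < P₁ τ)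
    (hP : ∀ τ, P⁻¹ ≤ ENNReal.ofReal α * (P₀ τ)⁻¹ + ENNReal.ofReal β * (P₁ τ)⁻¹)
    (hN : ∀ τ, N⁻¹ ≤ ENNReal.ofReal α * (N₀ τ)⁻¹ + ENNReal.ofReal β * (N₁ τ)⁻¹)
    (h₀ : ∀ τ, m₀ ≤ P₀ τ + N₀ τ) (h₁ : ∀ τ, m₁ ≤ P₁ τ + N₁ τ) :
    (P + N)⁻¹ ≤ ENNReal.ofReal α * m₀⁻¹ + ENNReal.ofReal β * m₁⁻¹ := by
  refine inv_le_of_lt hα hβ fun A B hA hB hA' hB' => ?_
  by_contra hc
  rw [not_le] at hc
  set d := (α / A + β / B)⁻¹ with hd
  have hd0 : 0 < d := by positivity
  have hPt : P ≠ ∞ := ne_top_of_lt (le_self_add.trans_lt hc)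
  have hNt : N ≠ ∞ := ne_top_of_lt (le_add_self.trans_lt hc)
  lift P to NNReal using hPt
  lift N to NNReal using hNt
  have hc' : (P : ℝ) + N < d := by
    rw [← ENNReal.coe_add, ← ENNReal.ofReal_coe_nnreal, ENNReal.ofReal_lt_ofReal_iff hd0] at hc
    simpa using hc
  have hP0 : (0 : ℝ) ≤ P := P.2
  have hN0 : (0 : ℝ) ≤ N := N.2
  set σ := (d + P - N) / (2 * d) with hσ
  have hσ0 : 0 < σ := div_pos (by linarith) (by positivity)
  have hσd : σ * d = (d + P - N) / 2 := by rw [hσ]; field_simp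
  have hσ1 : 0 < 1 - σ := by
    have : 0 < (1 - σ) * d := by rw [sub_mul, hσd]; linarith
    exact (mul_pos_iff_of_pos_right hd0).1 this
  have l1 : (P : ℝ≥0∞) < ENNReal.ofReal (σ * d) := by
    rw [← ENNReal.ofReal_coe_nnreal, ENNReal.ofReal_lt_ofReal_iff (by positivity), hσd]
    linarith
  have l2 : (N : ℝ≥0∞) < ENNReal.ofReal ((1 - σ) * d) := by
    rw [← ENNReal.ofReal_coe_nnreal, ENNReal.ofReal_lt_ofReal_iff (by positivity), sub_mul, hσd]
    linarith
  have sum : ∀ {C : ℝ}, 0 < C →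
      ENNReal.ofReal (σ * C) + ENNReal.ofReal ((1 - σ) * C) = ENNReal.ofReal C := by
    intro C hC
    rw [← ENNReal.ofReal_add (by positivity) (by positivity)]
    congr 1; ring
  have hUV : {τ | P₀ τ ≤ ENNReal.ofReal (σ * A)}ᶜ = {τ | P₁ τ ≤ ENNReal.ofReal (σ * B)} := by
    ext τ
    simp only [mem_compl_iff, mem_ofPred_eq]
    constructor
    · intro h; exact (cover hα hβ hA hB hσ0 (hP τ) l1).resolve_left h
    · intro h h'
      rcases cover hα hβ hA hB hσ1 (hN τ) l2 with h2 | h2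
      · exact absurd ((h₀ τ).trans ((add_le_add h' h2).trans (sum hA).le)) (not_le.2 hA')
      · exact absurd ((h₁ τ).trans ((add_le_add h h2).trans (sum hB).le)) (not_le.2 hB')
  have hcl : IsClopen {τ | P₀ τ ≤ ENNReal.ofReal (σ * A)} :=
    ⟨c₀ _, by rw [← isClosed_compl_iff, hUV]; exact c₁ _⟩
  rcases isClopen_iff.1 hcl with h | h
  · rw [h, compl_empty] at hUV
    obtain ⟨τ, hτ⟩ := u₁ _ (ENNReal.ofReal_ne_top (r := σ * B))
    exact absurd (hUV.le (mem_univ τ)) (not_le.2 hτ)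
  · obtain ⟨τ, hτ⟩ := u₀ _ (ENNReal.ofReal_ne_top (r := σ * A))
    exact absurd (h.ge (mem_univ τ)) (not_le.2 hτ)

lemma fatou_mul {X : Type*} [MeasurableSpace X] {μ : Measure X} {F : X → ℝ≥0∞} (hF : Measurable F)
    {u : ℕ → X → ℝ≥0∞} {v : X → ℝ≥0∞} (hu : ∀ k, Measurable (u k))
    (hv : ∀ᵐ x ∂μ, v x ≠ 0 ∧ Tendsto (fun k => u k x) atTop (𝓝 (v x))) {K : ℝ≥0∞}
    (hK : ∀ k, ∫⁻ x, F x * u k x ∂μ ≤ K) : ∫⁻ x, F x * v x ∂μ ≤ K := by
  have h1 := lintegral_liminf_le (μ := μ) (u := atTop) (f := fun k x => F x * u k x)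
    (fun k => hF.mul (hu k))
  refine le_trans (le_of_eq (lintegral_congr_ae ?_)) (h1.trans ?_)
  · filter_upwards [hv] with x hx
    exact (ENNReal.Tendsto.const_mul hx.2 (Or.inl hx.1)).liminf_eq.symm
  · exact liminf_le_of_frequently_le' (Frequently.of_forall hK)

lemma measurable_exp_mul {X : Type*} [MeasurableSpace X] {η : X → ℝ} (hη : Measurable η) (c : ℝ) :
    Measurable fun x => ENNReal.ofReal (Real.exp (c * η x)) :=
  (Real.measurable_exp.comp (hη.const_mul c)).ennreal_ofReal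

lemma isClosed_sub {X : Type*} [MeasurableSpace X] {μ : Measure X} {F : X → ℝ≥0∞}
    (hF : Measurable F) {η : X → ℝ} (hη : Measurable η) (γ : ℝ) (K : ℝ≥0∞) :
    IsClosed {τ : ℝ | ∫⁻ x, F x * ENNReal.ofReal (Real.exp (γ * τ * η x)) ∂μ ≤ K} := by
  refine IsSeqClosed.isClosed fun s τ hs hτ => ?_
  refine fatou_mul hF (u := fun k x => ENNReal.ofReal (Real.exp (γ * s k * η x)))
    (fun k => measurable_exp_mul hη _) (Eventually.of_forall fun x => ⟨?_, ?_⟩) hs
  · simpa using Real.exp_pos _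
  · exact ENNReal.tendsto_ofReal (Real.continuous_exp.continuousAt.tendsto.comp
      ((hτ.const_mul γ).mul_const _))

lemma unbounded {X : Type*} [MeasurableSpace X] {μ : Measure X} {F : X → ℝ≥0∞}
    (hF : Measurable F) {η : X → ℝ} (hη : Measurable η) (hpos : ∀ᵐ x ∂μ, 0 < η x)
    (h0 : ∫⁻ x, F x ∂μ ≠ 0) {γ : ℝ} (hγ : γ ≠ 0) (K : ℝ≥0∞) (hK : K ≠ ∞) :
    ∃ τ : ℝ, K < ∫⁻ x, F x * ENNReal.ofReal (Real.exp (γ * τ * η x)) ∂μ := by
  by_contra hc
  push Not at hc
  have := fatou_mul hF (u := fun k x => ENNReal.ofReal (Real.exp (γ * (k / γ) * η x)))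
    (v := fun _ => ∞) (fun k => measurable_exp_mul hη _) (by
      filter_upwards [hpos] with x hx
      refine ⟨ENNReal.top_ne_zero, ENNReal.tendsto_ofReal_atTop.comp
        (Real.tendsto_exp_atTop.comp ?_)⟩
      simp only [mul_div_cancel₀ _ hγ]
      exact tendsto_natCast_atTop_atTop.atTop_mul_const hx) (fun k => hc _)
  rw [lintegral_mul_const _ hF, ENNReal.mul_top h0] at this
  exact hK (top_le_iff.1 this)

lemma volume_dot_zero {v : E n} (hv : v ≠ 0) : volume {y : E n | v ⬝ᵥ y = 0} = 0 := by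
  let f : E n →ₗ[ℝ] ℝ := ⟨⟨fun y => v ⬝ᵥ y, dotProduct_add v⟩, fun a y => by simp⟩
  have h1 : {y : E n | v ⬝ᵥ y = 0} = (LinearMap.ker f : Set (E n)) := rfl
  rw [h1]
  refine Measure.addHaar_submodule volume _ fun h => hv ?_
  have h2 : v ∈ LinearMap.ker f := by rw [h]; trivial
  exact dotProduct_self_eq_zero.1 h2

lemma lintegral_split {θ : E n} (hθ : θ ≠ 0) (F : E n → ℝ≥0∞) :
    ∫⁻ y, F y = (∫⁻ y in {y | 0 < θ ⬝ᵥ y}, F y) + ∫⁻ y in {y | 0 < (-θ) ⬝ᵥ y}, F y := by
  rw [← lintegral_add_compl F (measurableSet_pos θ)]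
  congr 1
  refine setLIntegral_congr ?_
  have : ∀ᵐ y : E n, θ ⬝ᵥ y ≠ 0 := by
    rw [ae_iff]; simpa using volume_dot_zero hθ
  filter_upwards [this] with y hy
  refine propext ?_
  change ¬ (0 < θ ⬝ᵥ y) ↔ 0 < (-θ) ⬝ᵥ y
  rw [neg_dotProduct, neg_pos, not_lt]
  exact ⟨fun h => lt_of_le_of_ne h hy, le_of_lt⟩

lemma half_ne_zero {θ : E n} (hθ : θ ≠ 0) {F : E n → ℝ≥0∞} (hF : Measurable F)
    (h0 : ∀ y, F y ≠ 0) : ∫⁻ y in {y | 0 < θ ⬝ᵥ y}, F y ≠ 0 := by
  rw [ne_eq, lintegral_eq_zero_iff hF]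
  intro h
  have h1 : (volume : Measure (E n)).restrict {y | 0 < θ ⬝ᵥ y} = 0 := by
    rw [← ae_eq_bot, ← eventually_false_iff_eq_bot]
    filter_upwards [h] with y hy using h0 y hy
  rw [Measure.restrict_eq_zero] at h1
  have ho : IsOpen {y : E n | 0 < θ ⬝ᵥ y} := isOpen_lt continuous_const (by fun_prop)
  refine (ho.measure_pos volume ⟨θ, ?_⟩).ne' h1
  exact lt_of_le_of_ne (Finset.sum_nonneg fun i _ => mul_self_nonneg _)
    (fun h => hθ (dotProduct_self_eq_zero.1 h.symm))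

lemma exp_combo {u v w a b : ℝ} (ha : 0 < a) (hb : 0 < b) (h : w = a * u + b * v)
    (x y : ℝ≥0∞) : (x * ENNReal.ofReal (Real.exp u)) ^ a * (y * ENNReal.ofReal (Real.exp v)) ^ b =
      x ^ a * y ^ b * ENNReal.ofReal (Real.exp w) := by
  rw [ENNReal.mul_rpow_of_nonneg _ _ ha.le, ENNReal.mul_rpow_of_nonneg _ _ hb.le, mul_mul_mul_comm,
    ENNReal.ofReal_rpow_of_pos (Real.exp_pos _), ENNReal.ofReal_rpow_of_pos (Real.exp_pos _),
    ← ENNReal.ofReal_mul (by positivity), ← Real.exp_mul, ← Real.exp_mul, ← Real.exp_add, h,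
    mul_comm u, mul_comm v]

theorem shadow_inv_le {θ : E n} (hθ : θ ≠ 0) {α β : ℝ} (hα : 0 < α) (hβ : 0 < β) (hαβ : α + β = 1)
    {F₀ F₁ F : E n → ℝ≥0∞} (h₀ : Measurable F₀) (h₁ : Measurable F₁) (h : Measurable F)
    (p₀ : ∀ y, F₀ y ≠ 0) (p₁ : ∀ y, F₁ y ≠ 0) (H : ShadowHyp θ α β F₀ F₁ F) {m₀ m₁ : ℝ≥0∞}
    (hm₀ : ∀ c : ℝ, m₀ ≤ ∫⁻ y, F₀ y * ENNReal.ofReal (Real.exp (c * (θ ⬝ᵥ y))))
    (hm₁ : ∀ c : ℝ, m₁ ≤ ∫⁻ y, F₁ y * ENNReal.ofReal (Real.exp (c * (θ ⬝ᵥ y)))) :
    (∫⁻ y, F y)⁻¹ ≤ ENNReal.ofReal α * m₀⁻¹ + ENNReal.ofReal β * m₁⁻¹ := by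
  have H' : ∀ τ : ℝ, ShadowHyp θ α β
      (fun y => F₀ y * ENNReal.ofReal (Real.exp (β * τ * (θ ⬝ᵥ y))))
      (fun y => F₁ y * ENNReal.ofReal (Real.exp (-α * τ * (θ ⬝ᵥ y)))) F := by
    intro τ y₀ y₁ a b ha hb hab he
    rw [exp_combo (w := 0) ha hb (by linear_combination (-τ) * he)]
    simpa using H y₀ y₁ a b ha hb hab he
  have g₀ : ∀ c : ℝ, Measurable fun y => F₀ y * ENNReal.ofReal (Real.exp (c * (θ ⬝ᵥ y))) :=
    fun c => h₀.mul (measurable_exp_mul (measurable_dot θ) c)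
  have g₁ : ∀ c : ℝ, Measurable fun y => F₁ y * ENNReal.ofReal (Real.exp (c * (θ ⬝ᵥ y))) :=
    fun c => h₁.mul (measurable_exp_mul (measurable_dot θ) c)
  have hpos : ∀ᵐ y ∂(volume : Measure (E n)).restrict {y | 0 < θ ⬝ᵥ y}, 0 < θ ⬝ᵥ y :=
    ae_restrict_mem (measurableSet_pos θ)
  rw [lintegral_split hθ F]
  refine balance hα hβ
    (P₀ := fun τ => ∫⁻ y in {y | 0 < θ ⬝ᵥ y}, F₀ y * ENNReal.ofReal (Real.exp (β * τ * (θ ⬝ᵥ y))))
    (P₁ := fun τ => ∫⁻ y in {y | 0 < θ ⬝ᵥ y}, F₁ y * ENNReal.ofReal (Real.exp (-α * τ * (θ ⬝ᵥ y))))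
    (N₀ := fun τ => ∫⁻ y in {y | 0 < (-θ) ⬝ᵥ y},
      F₀ y * ENNReal.ofReal (Real.exp (β * τ * (θ ⬝ᵥ y))))
    (N₁ := fun τ => ∫⁻ y in {y | 0 < (-θ) ⬝ᵥ y},
      F₁ y * ENNReal.ofReal (Real.exp (-α * τ * (θ ⬝ᵥ y))))
    (isClosed_sub h₀ (measurable_dot θ) β) (isClosed_sub h₁ (measurable_dot θ) (-α))
    (unbounded h₀ (measurable_dot θ) hpos (half_ne_zero hθ h₀ p₀) hβ.ne')
    (unbounded h₁ (measurable_dot θ) hpos (half_ne_zero hθ h₁ p₁) (neg_ne_zero.2 hα.ne'))
    (fun τ => half_le hθ hα hβ hαβ (g₀ _) (g₁ _) h (H' τ))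
    (fun τ => half_le (neg_ne_zero.2 hθ) hα hβ hαβ (g₀ _) (g₁ _) h (H' τ).neg)
    (fun τ => (hm₀ _).trans (lintegral_split hθ _).le)
    (fun τ => (hm₁ _).trans (lintegral_split hθ _).le)

/-- the infimum over all translations of the Laplace transform -/
noncomputable def lstar (F : E n → ℝ≥0∞) : ℝ≥0∞ :=
  ⨅ c : E n, ∫⁻ y, F y * ENNReal.ofReal (Real.exp (c ⬝ᵥ y))

/-- functional Meyer-Reisner theorem -/
theorem lstar_inv_le {θ : E n} (hθ : θ ≠ 0) {α β : ℝ} (hα : 0 < α) (hβ : 0 < β) (hαβ : α + β = 1)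
    {F₀ F₁ F : E n → ℝ≥0∞} (h₀ : Measurable F₀) (h₁ : Measurable F₁) (h : Measurable F)
    (p₀ : ∀ y, F₀ y ≠ 0) (p₁ : ∀ y, F₁ y ≠ 0) (H : ShadowHyp θ α β F₀ F₁ F) :
    (lstar F)⁻¹ ≤ ENNReal.ofReal α * (lstar F₀)⁻¹ + ENNReal.ofReal β * (lstar F₁)⁻¹ := by
  conv_lhs => rw [lstar, ENNReal.inv_iInf]
  refine iSup_le fun c => ?_
  have me : Measurable fun y : E n => ENNReal.ofReal (Real.exp (c ⬝ᵥ y)) :=
    (Real.measurable_exp.comp (measurable_dot c)).ennreal_ofReal
  have pe : ∀ y : E n, ENNReal.ofReal (Real.exp (c ⬝ᵥ y)) ≠ 0 := fun y => by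
    simpa using Real.exp_pos _
  have low : ∀ (G : E n → ℝ≥0∞) (s : ℝ), lstar G ≤ ∫⁻ y, G y * ENNReal.ofReal (Real.exp (c ⬝ᵥ y)) *
      ENNReal.ofReal (Real.exp (s * (θ ⬝ᵥ y))) := by
    intro G s
    refine (iInf_le _ (c + s • θ)).trans (le_of_eq (lintegral_congr fun y => ?_))
    rw [mul_assoc, ← ENNReal.ofReal_mul (Real.exp_pos _).le, ← Real.exp_add, add_dotProduct,
      smul_dotProduct, smul_eq_mul]
  refine shadow_inv_le hθ hα hβ hαβ (h₀.mul me) (h₁.mul me) (h.mul me)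
    (fun y => mul_ne_zero (p₀ y) (pe y)) (fun y => mul_ne_zero (p₁ y) (pe y)) ?_ (low F₀) (low F₁)
  intro y₀ y₁ a b ha hb hab he
  simp only [Pi.mul_apply]
  rw [exp_combo (w := c ⬝ᵥ (a • y₀ + b • y₁)) ha hb (by simp)]
  exact mul_le_mul_left (H y₀ y₁ a b ha hb hab he) _

lemma lstar_ne_zero {F : E n → ℝ≥0∞} (h : Measurable F) (p : ∀ y, F y ≠ 0) : lstar F ≠ 0 := by
  have hm : Measurable fun y => min (F y) (F (-y)) := h.min (h.comp measurable_neg)
  have h0 : ∫⁻ y, min (F y) (F (-y)) ≠ 0 := by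
    rw [ne_eq, lintegral_eq_zero_iff hm]
    intro h
    obtain ⟨y, hy⟩ := h.exists
    rcases min_choice (F y) (F (-y)) with e | e
    · exact p _ (e.symm.trans hy)
    · exact p _ (e.symm.trans hy)
  have h2 : ∫⁻ y, min (F y) (F (-y)) ≤ 2 * lstar F := by
    rw [lstar, ENNReal.mul_iInf_of_ne two_ne_zero ENNReal.ofNat_ne_top]
    refine le_iInf fun c => ?_
    have me : Measurable fun y : E n => F y * ENNReal.ofReal (Real.exp (c ⬝ᵥ y)) :=
      h.mul (Real.measurable_exp.comp (measurable_dot c)).ennreal_ofReal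
    rw [two_mul]
    nth_rewrite 2 [← lintegral_neg_eq_self (fun y => F y * ENNReal.ofReal (Real.exp (c ⬝ᵥ y)))]
    rw [← lintegral_add_left me]
    refine lintegral_mono fun y => ?_
    rcases le_total 0 (c ⬝ᵥ y) with hy | hy
    · refine (min_le_left _ _).trans (le_trans ?_ le_self_add)
      exact le_mul_of_one_le_right' (ENNReal.one_le_ofReal.2 (Real.one_le_exp hy))
    · refine (min_le_right _ _).trans (le_trans ?_ le_add_self)
      refine le_mul_of_one_le_right' (ENNReal.one_le_ofReal.2 (Real.one_le_exp ?_))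
      rw [dotProduct_neg]; linarith
  intro h3
  rw [h3, mul_zero] at h2
  exact h0 (le_antisymm h2 zero_le)

end Pool.Agent.MP_5f4cdd_gt.PL

end

section

set_option autoImplicit false
open MeasureTheory ENNReal Set Filter Topology Matrix Bornology

namespace Pool.Agent.MP_5f4cdd_gt.PL

variable {n : ℕ}

/-- support function -/
noncomputable def suppF (L : Set (E n)) (y : E n) : ℝ :=
  sSup ((fun x : E n => ∑ i, x i * y i) '' L)

/-- `exp (-h_L)` -/
noncomputable def expS (L : Set (E n)) (y : E n) : ℝ≥0∞ := ENNReal.ofReal (Real.exp (-(suppF L y)))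

/-- `inf_c ∫ exp (-h_{L-c})` -/
noncomputable def Jstar (L : Set (E n)) : ℝ≥0∞ := lstar (expS L)

/-- the classical Mahler volume minimised over all positions of the origin -/
noncomputable def mstarInf (L : Set (E n)) : ℝ≥0∞ := ⨅ c : E n, mahlerInf ((fun z => z - c) '' L)

lemma mahlerInf_eq (L : Set (E n)) : mahlerInf L = volume L * ∫⁻ y, expS L y := rfl

lemma bddAbove_dot {L : Set (E n)} (hL : IsBounded L) (y : E n) :
    BddAbove ((fun x : E n => ∑ i, x i * y i) '' L) := by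
  have hc : Continuous fun x : E n => ∑ i, x i * y i := by fun_prop
  exact ((hL.isCompact_closure.image hc).bddAbove).mono (image_mono subset_closure)

lemma dot_le_suppF {L : Set (E n)} (hL : IsBounded L) {x : E n} (hx : x ∈ L) (y : E n) :
    x ⬝ᵥ y ≤ suppF L y := le_csSup (bddAbove_dot hL y) ⟨x, hx, rfl⟩

lemma suppF_le {L : Set (E n)} (hL : L.Nonempty) {y : E n} {C : ℝ} (h : ∀ x ∈ L, x ⬝ᵥ y ≤ C) :
    suppF L y ≤ C := by
  refine csSup_le (hL.image _) ?_
  rintro _ ⟨x, hx, rfl⟩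
  exact h x hx

lemma convex_dot_le (y : E n) (C : ℝ) : Convex ℝ {x : E n | x ⬝ᵥ y ≤ C} := by
  intro u hu v hv a b ha hb hab
  simp only [mem_ofPred_eq, add_dotProduct, smul_dotProduct, smul_eq_mul] at hu hv ⊢
  calc a * (u ⬝ᵥ y) + b * (v ⬝ᵥ y) ≤ a * C + b * C := by gcongr
    _ = C := by rw [← add_mul, hab, one_mul]

lemma suppF_convexHull {L : Set (E n)} (hL : IsBounded L) (hn : L.Nonempty) (y : E n) :
    suppF (convexHull ℝ L) y = suppF L y := by
  refine le_antisymm (suppF_le (hn.mono (subset_convexHull ℝ L)) fun x hx => ?_)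
    (suppF_le hn fun x hx =>
      dot_le_suppF (isBounded_convexHull.2 hL) (subset_convexHull ℝ L hx) y)
  exact convexHull_min (fun z hz => dot_le_suppF hL hz y) (convex_dot_le y _) hx

lemma convexOn_suppF {L : Set (E n)} (hL : IsBounded L) (hn : L.Nonempty) :
    ConvexOn ℝ univ (suppF L) := by
  refine ⟨convex_univ, fun u _ v _ a b ha hb _ => suppF_le hn fun x hx => ?_⟩
  simp only [dotProduct_add, dotProduct_smul, smul_eq_mul]
  exact add_le_add (mul_le_mul_of_nonneg_left (dot_le_suppF hL hx u) ha)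
    (mul_le_mul_of_nonneg_left (dot_le_suppF hL hx v) hb)

lemma continuous_suppF {L : Set (E n)} (hL : IsBounded L) : Continuous (suppF L) := by
  rcases L.eq_empty_or_nonempty with rfl | hn
  · have : suppF (∅ : Set (E n)) = fun _ => 0 := by ext y; simp [suppF]
    rw [this]; exact continuous_const
  · exact continuousOn_univ.1 ((convexOn_suppF hL hn).continuousOn isOpen_univ)

lemma measurable_expS {L : Set (E n)} (hL : IsBounded L) : Measurable (expS L) :=
  (Real.continuous_exp.comp (continuous_suppF hL).neg).measurable.ennreal_ofReal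

lemma expS_ne_zero (L : Set (E n)) (y : E n) : expS L y ≠ 0 := by
  simpa [expS] using Real.exp_pos _

lemma isBounded_image_sub {L : Set (E n)} (hL : IsBounded L) (c : E n) :
    IsBounded ((fun z => z - c) '' L) :=
  (Isometry.of_dist_eq (f := fun z : E n => z - c)
    (fun x y => dist_sub_right x y c)).lipschitz.isBounded_image hL

lemma suppF_image_sub {L : Set (E n)} (hL : IsBounded L) (hn : L.Nonempty) (c y : E n) :
    suppF ((fun z => z - c) '' L) y = suppF L y - c ⬝ᵥ y := by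
  refine le_antisymm (suppF_le (hn.image _) ?_) ?_
  · rintro _ ⟨x, hx, rfl⟩
    rw [sub_dotProduct]
    exact sub_le_sub_right (dot_le_suppF hL hx y) _
  · rw [sub_le_iff_le_add]
    refine suppF_le hn fun x hx => ?_
    have := dot_le_suppF (isBounded_image_sub hL c) (mem_image_of_mem _ hx) y
    rw [sub_dotProduct] at this
    linarith

lemma expS_image_sub {L : Set (E n)} (hL : IsBounded L) (hn : L.Nonempty) (c y : E n) :
    expS ((fun z => z - c) '' L) y = expS L y * ENNReal.ofReal (Real.exp (c ⬝ᵥ y)) := by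
  rw [expS, expS, suppF_image_sub hL hn, ← ENNReal.ofReal_mul (Real.exp_pos _).le, ← Real.exp_add]
  congr 2; ring

lemma volume_sub (c : E n) (L : Set (E n)) : volume ((fun z => z - c) '' L) = volume L := by
  have : (fun z => z - c) '' L = (fun z => z + c) ⁻¹' L := by
    ext z; constructor
    · rintro ⟨x, hx, rfl⟩; simpa using hx
    · intro h; exact ⟨z + c, h, by simp⟩
  rw [this, measure_preimage_add_right]

lemma Jstar_eq {L : Set (E n)} (hL : IsBounded L) (hn : L.Nonempty) :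
    Jstar L = ⨅ c : E n, ∫⁻ y, expS ((fun z => z - c) '' L) y := by
  simp only [Jstar, lstar, expS_image_sub hL hn]

lemma Jstar_ne_zero {L : Set (E n)} (hL : IsBounded L) : Jstar L ≠ 0 :=
  lstar_ne_zero (measurable_expS hL) (expS_ne_zero L)

lemma mstarInf_eq {L : Set (E n)} (hL : IsBounded L) (hn : L.Nonempty) :
    mstarInf L = volume L * Jstar L := by
  rw [Jstar_eq hL hn, ENNReal.mul_iInf (fun h => absurd h hL.measure_lt_top.ne)]
  simp only [mstarInf, mahlerInf_eq, volume_sub]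

lemma shadowHyp_expS {ι : Type} [Nonempty ι] (x : ι → E n) (s : ι → ℝ) (θ : E n)
    (hb : ∀ t, IsBounded (range (shadowPts x s θ t))) {α β : ℝ} (hαβ : α + β = 1) (t₀ t₁ : ℝ) :
    ShadowHyp θ α β (expS (convexHull ℝ (range (shadowPts x s θ t₀))))
      (expS (convexHull ℝ (range (shadowPts x s θ t₁))))
      (expS (convexHull ℝ (range (shadowPts x s θ (α * t₀ + β * t₁))))) := by
  intro y₀ y₁ a b ha hb' hab he
  have := exp_combo (u := -(suppF (convexHull ℝ (range (shadowPts x s θ t₀))) y₀))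
    (v := -(suppF (convexHull ℝ (range (shadowPts x s θ t₁))) y₁)) ha hb' rfl 1 1
  simp only [one_mul, ENNReal.one_rpow] at this
  unfold expS
  rw [this]
  refine ENNReal.ofReal_le_ofReal (Real.exp_le_exp.2 ?_)
  simp only [suppF_convexHull (hb _) (range_nonempty _)]
  have key : suppF (range (shadowPts x s θ (α * t₀ + β * t₁))) (a • y₀ + b • y₁) ≤
      a * suppF (range (shadowPts x s θ t₀)) y₀ + b * suppF (range (shadowPts x s θ t₁)) y₁ := by
    refine suppF_le (range_nonempty _) ?_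
    rintro _ ⟨i, rfl⟩
    have e : shadowPts x s θ (α * t₀ + β * t₁) i ⬝ᵥ (a • y₀ + b • y₁) =
        a * (shadowPts x s θ t₀ i ⬝ᵥ y₀) + b * (shadowPts x s θ t₁ i ⬝ᵥ y₁) := by
      simp only [shadowPts, add_dotProduct, dotProduct_add, dotProduct_smul, smul_dotProduct,
        smul_eq_mul]
      have hβ : β = 1 - α := by linarith
      subst hβ
      linear_combination (s i * (t₁ - t₀)) * he
    rw [e]
    exact add_le_add (mul_le_mul_of_nonneg_left (dot_le_suppF (hb _) (mem_range_self i) _) ha.le)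
      (mul_le_mul_of_nonneg_left (dot_le_suppF (hb _) (mem_range_self i) _) hb'.le)
  linarith

/-- Meyer-Reisner: along a shadow system the inverse of the minimal polar volume is convex -/
theorem meyer_reisner' {ι : Type} [Nonempty ι] (x : ι → E n) (s : ι → ℝ) {θ : E n} (hθ : θ ≠ 0)
    (hb : ∀ t, IsBounded (range (shadowPts x s θ t))) {α β : ℝ} (hα : 0 < α) (hβ : 0 < β)
    (hαβ : α + β = 1) (t₀ t₁ : ℝ) :
    (Jstar (convexHull ℝ (range (shadowPts x s θ (α * t₀ + β * t₁)))))⁻¹ ≤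
      ENNReal.ofReal α * (Jstar (convexHull ℝ (range (shadowPts x s θ t₀))))⁻¹ +
      ENNReal.ofReal β * (Jstar (convexHull ℝ (range (shadowPts x s θ t₁))))⁻¹ :=
  lstar_inv_le hθ hα hβ hαβ (measurable_expS (isBounded_convexHull.2 (hb _)))
    (measurable_expS (isBounded_convexHull.2 (hb _)))
    (measurable_expS (isBounded_convexHull.2 (hb _))) (expS_ne_zero _) (expS_ne_zero _)
    (shadowHyp_expS x s θ hb hαβ t₀ t₁)

theorem meyer_reisner {ι : Type} [Finite ι] [Nonempty ι] (x : ι → E n) (s : ι → ℝ) {θ : E n}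
    (hθ : θ ≠ 0) {α β : ℝ} (hα : 0 < α) (hβ : 0 < β) (hαβ : α + β = 1) (t₀ t₁ : ℝ) :
    (Jstar (convexHull ℝ (range (shadowPts x s θ (α * t₀ + β * t₁)))))⁻¹ ≤
      ENNReal.ofReal α * (Jstar (convexHull ℝ (range (shadowPts x s θ t₀))))⁻¹ +
      ENNReal.ofReal β * (Jstar (convexHull ℝ (range (shadowPts x s θ t₁))))⁻¹ :=
  meyer_reisner' x s hθ (fun _ => (finite_range _).isBounded) hα hβ hαβ t₀ t₁

lemma mul_inv_le_of_le {m V J : ℝ≥0∞} (hJ : J ≠ 0) (h : m ≤ V * J) : m * J⁻¹ ≤ V := by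
  rcases eq_or_ne J ∞ with rfl | hJt
  · simp
  · calc m * J⁻¹ ≤ V * J * J⁻¹ := mul_le_mul_left h _
      _ = V := by rw [mul_assoc, ENNReal.mul_inv_cancel hJ hJt, mul_one]

lemma quasi_aux {α β m V₀ V₁ V J₀ J₁ J : ℝ≥0∞} (hα : α ≠ 0) (hJ₀ : J₀ ≠ 0) (hJ₁ : J₁ ≠ 0)
    (hJ : J ≠ 0) (h : J⁻¹ ≤ α * J₀⁻¹ + β * J₁⁻¹) (hV : α * V₀ + β * V₁ ≤ V) (h₀ : m ≤ V₀ * J₀)
    (h₁ : m ≤ V₁ * J₁) : m ≤ V * J := by
  rcases eq_or_ne J ∞ with rfl | hJt
  · rcases eq_or_ne V 0 with rfl | hV0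
    · have : α * V₀ = 0 := le_antisymm (le_self_add.trans hV) zero_le
      rw [(mul_eq_zero.1 this).resolve_left hα, zero_mul] at h₀
      exact h₀.trans zero_le
    · simp [ENNReal.mul_top hV0]
  · have : m * J⁻¹ ≤ V := by
      refine (mul_le_mul_right h m).trans (le_trans ?_ hV)
      rw [mul_add, mul_left_comm, mul_left_comm m β]
      exact add_le_add (mul_le_mul_right (mul_inv_le_of_le hJ₀ h₀) _)
        (mul_le_mul_right (mul_inv_le_of_le hJ₁ h₁) _)
    calc m = m * J⁻¹ * J := by rw [mul_assoc, ENNReal.inv_mul_cancel hJ hJt, mul_one]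
      _ ≤ V * J := mul_le_mul_left this _

lemma const_aux {α β m V₀ V₁ V J₀ J₁ J : ℝ≥0∞} (hαt : α ≠ ∞) (hβ : β ≠ 0) (hβt : β ≠ ∞)
    (hV₀ : V₀ ≠ ∞) (hJ₀ : J₀ ≠ 0) (hJ₁ : J₁ ≠ 0) (hJ : J ≠ 0) (hm : m ≠ ∞)
    (h : J⁻¹ ≤ α * J₀⁻¹ + β * J₁⁻¹) (hV : α * V₀ + β * V₁ ≤ V) (h₀ : m ≤ V₀ * J₀)
    (h₁ : V * J ≤ m) : V₁ * J₁ ≤ m := by
  rcases eq_or_ne V₁ 0 with rfl | hV₁
  · simp
  have hV0 : V ≠ 0 := fun h0 => by
    rw [h0] at hV
    exact mul_ne_zero hβ hV₁ (le_antisymm (le_add_self.trans hV) zero_le)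
  have hJt : J ≠ ∞ := fun h0 => by
    rw [h0, ENNReal.mul_top hV0] at h₁
    exact hm (top_le_iff.1 h₁)
  have e1 : V ≤ m * J⁻¹ := by
    calc V = V * J * J⁻¹ := by rw [mul_assoc, ENNReal.mul_inv_cancel hJ hJt, mul_one]
      _ ≤ m * J⁻¹ := mul_le_mul_left h₁ _
  have e2 : α * V₀ + β * V₁ ≤ α * V₀ + β * (m * J₁⁻¹) := by
    refine hV.trans (e1.trans ((mul_le_mul_right h m).trans ?_))
    rw [mul_add, mul_left_comm, mul_left_comm m β]
    exact add_le_add (mul_le_mul_right (mul_inv_le_of_le hJ₀ h₀) _) le_rfl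
  have e3 := (ENNReal.mul_le_mul_iff_right hβ hβt).1
    ((ENNReal.add_le_add_iff_left (ENNReal.mul_ne_top hαt hV₀)).1 e2)
  have hJ₁t : J₁ ≠ ∞ := fun h0 => by
    rw [h0, ENNReal.inv_top, mul_zero] at e3
    exact hV₁ (le_antisymm e3 zero_le)
  calc V₁ * J₁ ≤ m * J₁⁻¹ * J₁ := mul_le_mul_left e3 _
    _ = m := by rw [mul_assoc, ENNReal.inv_mul_cancel hJ₁ hJ₁t, mul_one]

/-- quasi-concavity of the volume product along a shadow system whose volume is affine -/
theorem mstarInf_quasi {ι : Type} [Nonempty ι] (x : ι → E n) (s : ι → ℝ) {θ : E n} (hθ : θ ≠ 0)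
    (hb : ∀ t, IsBounded (range (shadowPts x s θ t))) {α β : ℝ} (hα : 0 < α) (hβ : 0 < β)
    (hαβ : α + β = 1) (t₀ t₁ : ℝ)
    (hV : ENNReal.ofReal α * volume (convexHull ℝ (range (shadowPts x s θ t₀))) +
      ENNReal.ofReal β * volume (convexHull ℝ (range (shadowPts x s θ t₁))) ≤
      volume (convexHull ℝ (range (shadowPts x s θ (α * t₀ + β * t₁))))) :
    min (mstarInf (convexHull ℝ (range (shadowPts x s θ t₀))))
      (mstarInf (convexHull ℝ (range (shadowPts x s θ t₁)))) ≤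
      mstarInf (convexHull ℝ (range (shadowPts x s θ (α * t₀ + β * t₁)))) := by
  have hb' := fun t => isBounded_convexHull.2 (hb t)
  have hn : ∀ t, (convexHull ℝ (range (shadowPts x s θ t))).Nonempty := fun t =>
    (range_nonempty _).mono (subset_convexHull ℝ _)
  simp only [mstarInf_eq (hb' _) (hn _)]
  exact quasi_aux (by simpa using hα) (Jstar_ne_zero (hb' _)) (Jstar_ne_zero (hb' _))
    (Jstar_ne_zero (hb' _)) (meyer_reisner' x s hθ hb hα hβ hαβ t₀ t₁) hV (min_le_left _ _)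
    (min_le_right _ _)

/-- if the volume is affine, the volume product is at most `m` at an intermediate time and
at least `m` at one end, then it is at most `m` at the other end -/
theorem mstarInf_le_of_mid {ι : Type} [Nonempty ι] (x : ι → E n) (s : ι → ℝ) {θ : E n}
    (hθ : θ ≠ 0) (hb : ∀ t, IsBounded (range (shadowPts x s θ t))) {α β : ℝ} (hα : 0 < α)
    (hβ : 0 < β) (hαβ : α + β = 1) (t₀ t₁ : ℝ)
    (hV : ENNReal.ofReal α * volume (convexHull ℝ (range (shadowPts x s θ t₀))) +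
      ENNReal.ofReal β * volume (convexHull ℝ (range (shadowPts x s θ t₁))) ≤
      volume (convexHull ℝ (range (shadowPts x s θ (α * t₀ + β * t₁)))))
    {m : ℝ≥0∞} (hm : m ≠ ∞) (h₀ : m ≤ mstarInf (convexHull ℝ (range (shadowPts x s θ t₀))))
    (h : mstarInf (convexHull ℝ (range (shadowPts x s θ (α * t₀ + β * t₁)))) ≤ m) :
    mstarInf (convexHull ℝ (range (shadowPts x s θ t₁))) ≤ m := by
  have hb' := fun t => isBounded_convexHull.2 (hb t)
  have hn : ∀ t, (convexHull ℝ (range (shadowPts x s θ t))).Nonempty := fun t =>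
    (range_nonempty _).mono (subset_convexHull ℝ _)
  simp only [mstarInf_eq (hb' _) (hn _)] at h₀ h ⊢
  exact const_aux ENNReal.ofReal_ne_top (by simpa using hβ) ENNReal.ofReal_ne_top
    (hb' _).measure_lt_top.ne (Jstar_ne_zero (hb' _)) (Jstar_ne_zero (hb' _))
    (Jstar_ne_zero (hb' _)) hm (meyer_reisner' x s hθ hb hα hβ hαβ t₀ t₁) hV h₀ h

/-- version for the flows of `HasFlow`: the value at any time `t > 0` is at most `m`, if it is at
most `m` at time `0` and at least `m` at some negative time `-δ` -/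
theorem flow_le {ι : Type} [Finite ι] [Nonempty ι] (x : ι → E n) (s : ι → ℝ) {θ : E n}
    (hθ : θ ≠ 0) {δ t A B : ℝ} (hδ : 0 < δ) (ht : 0 < t)
    (hV : ∀ r ∈ ({-δ, 0, t} : Set ℝ),
      (volume (convexHull ℝ (range (shadowPts x s θ r)))).toReal = A + B * r)
    {m : ℝ≥0∞} (hm : m ≠ ∞) (h₀ : m ≤ mstarInf (convexHull ℝ (range (shadowPts x s θ (-δ)))))
    (h : mstarInf (convexHull ℝ (range (shadowPts x s θ 0))) ≤ m) :
    mstarInf (convexHull ℝ (range (shadowPts x s θ t))) ≤ m := by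
  have hb : ∀ t, IsBounded (range (shadowPts x s θ t)) := fun _ => (finite_range _).isBounded
  have hfin := fun t => (isBounded_convexHull.2 (hb t)).measure_lt_top (μ := volume) |>.ne
  have e0 : t / (δ + t) * (-δ) + δ / (δ + t) * t = 0 := by field_simp; ring
  refine mstarInf_le_of_mid x s hθ hb (α := t / (δ + t)) (β := δ / (δ + t)) (by positivity)
    (by positivity) (by field_simp; ring) (-δ) t ?_ hm h₀ (by rwa [e0])
  rw [e0, ← ENNReal.ofReal_toReal (hfin (-δ)), ← ENNReal.ofReal_toReal (hfin t),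
    ← ENNReal.ofReal_toReal (hfin 0), ← ENNReal.ofReal_mul (by positivity),
    ← ENNReal.ofReal_mul (by positivity), ← ENNReal.ofReal_add (by positivity) (by positivity),
    hV (-δ) (by simp), hV t (by simp), hV 0 (by simp)]
  refine ENNReal.ofReal_le_ofReal (le_of_eq ?_)
  field_simp; ring

end Pool.Agent.MP_5f4cdd_gt.PL

end

section

set_option autoImplicit false
open MeasureTheory ENNReal Set Filter Topology Matrix Bornology Pointwise

namespace Pool.Agent.MP_5f4cdd_gt.PL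

variable {n : ℕ}

/-- polar set -/
def polarS (L : Set (E n)) : Set (E n) := {w | ∀ z ∈ L, z ⬝ᵥ w ≤ 1}

lemma isClosed_polarS (L : Set (E n)) : IsClosed (polarS L) := by
  have : polarS L = ⋂ z ∈ L, {w | z ⬝ᵥ w ≤ 1} := by ext w; simp [polarS]
  rw [this]
  exact isClosed_biInter fun z _ => isClosed_le (by fun_prop) continuous_const

lemma suppF_le_iff {L : Set (E n)} (hL : IsBounded L) (hn : L.Nonempty) {y : E n} {C : ℝ} :
    suppF L y ≤ C ↔ ∀ x ∈ L, x ⬝ᵥ y ≤ C :=
  ⟨fun h _ hx => (dot_le_suppF hL hx y).trans h, suppF_le hn⟩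

lemma level_eq_smul {L : Set (E n)} (hL : IsBounded L) (hn : L.Nonempty) {s : ℝ} (hs : 0 < s) :
    {y | suppF L y ≤ s} = s • polarS L := by
  ext y
  rw [mem_smul_set_iff_inv_smul_mem₀ hs.ne']
  simp only [mem_ofPred_eq, suppF_le_iff hL hn, polarS, dotProduct_smul, smul_eq_mul,
    inv_mul_le_iff₀ hs, mul_one]

lemma lintegral_gamma (n : ℕ) :
    ∫⁻ s in Ioi (0 : ℝ), ENNReal.ofReal (Real.exp (-s) * s ^ n) = (n.factorial : ℝ≥0∞) := by
  have h0 : (0 : ℝ) < n + 1 := by positivity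
  have h1 := Real.GammaIntegral_convergent h0
  have h2 := Real.Gamma_eq_integral h0
  rw [Real.Gamma_nat_eq_factorial] at h2
  simp only [add_sub_cancel_right, Real.rpow_natCast] at h1 h2
  rw [← ofReal_integral_eq_lintegral_ofReal h1, ← h2, ENNReal.ofReal_natCast]
  filter_upwards [ae_restrict_mem measurableSet_Ioi] with s hs
  exact mul_nonneg (Real.exp_pos _).le (pow_nonneg (le_of_lt hs) _)

lemma exp_neg_eq {h : ℝ} (hh : 0 ≤ h) : ENNReal.ofReal (Real.exp (-h)) =
    ∫⁻ s in Ioi (0 : ℝ), (Ici h).indicator (fun s => ENNReal.ofReal (Real.exp (-s))) s := by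
  rw [lintegral_indicator measurableSet_Ici, Measure.restrict_restrict measurableSet_Ici,
    ← integral_exp_neg_Ioi h, ofReal_integral_eq_lintegral_ofReal (integrableOn_exp_neg_Ioi h)
      (Eventually.of_forall fun s => (Real.exp_pos _).le)]
  refine setLIntegral_congr ?_
  have : ∀ᵐ s : ℝ, s ≠ h := by simp [ae_iff]
  filter_upwards [this] with s hs
  refine propext ⟨fun h1 => ⟨le_of_lt h1, lt_of_le_of_lt hh h1⟩, fun h1 => ?_⟩
  exact lt_of_le_of_ne h1.1 hs.symm

/-- layer cake formula for the polar volume -/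
theorem lintegral_expS {L : Set (E n)} (hL : IsBounded L) (h0 : (0 : E n) ∈ L) :
    ∫⁻ y, expS L y = (n.factorial : ℝ≥0∞) * volume (polarS L) := by
  have hn : L.Nonempty := ⟨0, h0⟩
  have hpos : ∀ y, 0 ≤ suppF L y := fun y => by simpa using dot_le_suppF hL h0 y
  have hm := (continuous_suppF hL).measurable
  simp only [expS, exp_neg_eq (hpos _)]
  rw [lintegral_lintegral_swap]
  · rw [← lintegral_gamma, ← lintegral_mul_const _ (by fun_prop)]
    refine setLIntegral_congr_fun measurableSet_Ioi fun s hs => ?_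
    have hs' : 0 < s := hs
    have e : ∀ y, (Ici (suppF L y)).indicator (fun s => ENNReal.ofReal (Real.exp (-s))) s =
        {y | suppF L y ≤ s}.indicator (fun _ => ENNReal.ofReal (Real.exp (-s))) y := fun y => by
      simp only [indicator, mem_Ici, mem_ofPred_eq]
    simp only [e]
    rw [lintegral_indicator (measurableSet_le hm measurable_const), setLIntegral_const,
      level_eq_smul hL hn hs', Measure.addHaar_smul, ENNReal.ofReal_mul (Real.exp_pos _).le,
      mul_assoc]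
    simp [abs_of_pos hs']
  · have e : (Function.uncurry fun (y : E n) (s : ℝ) =>
        (Ici (suppF L y)).indicator (fun s => ENNReal.ofReal (Real.exp (-s))) s) =
        {q : E n × ℝ | suppF L q.1 ≤ q.2}.indicator
          (fun q => ENNReal.ofReal (Real.exp (-q.2))) := by
      ext q
      simp only [Function.uncurry, indicator, mem_Ici, mem_ofPred_eq]
    rw [e]
    exact (Measurable.indicator (by fun_prop)
      (measurableSet_le (hm.comp measurable_fst) measurable_snd)).aemeasurable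

lemma isBounded_polarS {L : Set (E n)} (h0 : (0 : E n) ∈ interior L) : IsBounded (polarS L) := by
  obtain ⟨ε, hε, hb⟩ := Metric.mem_nhds_iff.1 (mem_interior_iff_mem_nhds.1 h0)
  refine (Metric.isBounded_closedBall (x := (0 : E n)) (r := 2 / ε)).subset fun w hw => ?_
  rw [mem_closedBall_zero_iff, pi_norm_le_iff_of_nonneg (by positivity)]
  intro i
  have key : ∀ c : ℝ, |c| = ε / 2 → c * w i ≤ 1 := by
    intro c hc
    have := hw (Pi.single i c) (hb (by
      rw [mem_ball_zero_iff, Pi.norm_single, Real.norm_eq_abs, hc]; linarith))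
    simpa using this
  have h1 := key (ε / 2) (abs_of_pos (by positivity))
  have h2 := key (-(ε / 2)) (by rw [abs_neg, abs_of_pos (by positivity)])
  rw [Real.norm_eq_abs, abs_le, le_div_iff₀ hε, neg_le, le_div_iff₀ hε]
  constructor <;> linarith

lemma exists_ball_dot_le {L : Set (E n)} (hL : IsBounded L) :
    ∃ ε > 0, ∀ w ∈ Metric.ball (0 : E n) ε, ∀ z ∈ L, z ⬝ᵥ w ≤ 1 := by
  have hc := continuous_suppF hL
  rcases L.eq_empty_or_nonempty with rfl | hn
  · exact ⟨1, one_pos, by simp⟩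
  have h0 : suppF L 0 < 1 := lt_of_le_of_lt (suppF_le hn (C := 0) (by simp)) one_pos
  obtain ⟨ε, hε, hb⟩ := Metric.mem_nhds_iff.1 ((isOpen_lt hc continuous_const).mem_nhds h0)
  exact ⟨ε, hε, fun w hw z hz => (dot_le_suppF hL hz w).trans (le_of_lt (hb hw))⟩

lemma zero_mem_interior_polarS {L : Set (E n)} (hL : IsBounded L) :
    (0 : E n) ∈ interior (polarS L) := by
  obtain ⟨ε, hε, hb⟩ := exists_ball_dot_le hL
  exact mem_interior_iff_mem_nhds.2 (Metric.mem_nhds_iff.2 ⟨ε, hε, hb⟩)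

lemma volume_polarS_ne_zero {L : Set (E n)} (hL : IsBounded L) : volume (polarS L) ≠ 0 :=
  (Measure.measure_pos_of_nonempty_interior volume ⟨0, zero_mem_interior_polarS hL⟩).ne'

lemma volume_polarS_eq_top {L : Set (E n)} (hL : IsBounded L) {v : E n} (hv : v ≠ 0)
    (h : ∀ z ∈ L, z ⬝ᵥ v ≤ 0) : volume (polarS L) = ∞ := by
  obtain ⟨ε, hε, hb⟩ := exists_ball_dot_le hL
  have hv' : 0 < ‖v‖ := norm_pos_iff.2 hv
  set r := 2 * ε / ‖v‖ with hr
  have hr0 : 0 < r := by positivity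
  have hsub : (⋃ k : ℕ, Metric.ball ((k * r) • v) ε) ⊆ polarS L := by
    refine iUnion_subset fun k w hw z hz => ?_
    have h1 := hb (w - (k * r) • v) (by rwa [mem_ball_zero_iff, ← dist_eq_norm]) z hz
    have h2 := mul_nonpos_of_nonneg_of_nonpos (by positivity : (0 : ℝ) ≤ k * r) (h z hz)
    rw [dotProduct_sub, dotProduct_smul, smul_eq_mul] at h1
    linarith
  have hdis : Pairwise (Function.onFun Disjoint fun k : ℕ => Metric.ball ((k * r) • v) ε) := by
    intro k l hkl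
    refine Metric.ball_disjoint_ball ?_
    rw [dist_eq_norm, ← sub_smul, norm_smul, ← sub_mul, Real.norm_eq_abs, abs_mul, abs_of_pos hr0,
      mul_assoc, hr, div_mul_cancel₀ _ hv'.ne']
    have : (1 : ℝ) ≤ |(k : ℝ) - l| := by
      have h1 : (1 : ℤ) ≤ |(k : ℤ) - l| := Int.one_le_abs (sub_ne_zero.2 (by exact_mod_cast hkl))
      exact_mod_cast h1
    nlinarith
  refine top_le_iff.1 (le_trans (le_of_eq ?_) (measure_mono hsub))
  rw [measure_iUnion hdis fun _ => measurableSet_ball]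
  simp only [Measure.addHaar_ball_center]
  exact (ENNReal.tsum_const_eq_top_of_ne_zero (Metric.measure_ball_pos volume _ hε).ne').symm

lemma volume_polarS_le {L : Set (E n)} (hn : L.Nonempty) :
    ENNReal.ofReal (Real.exp (-1)) * volume (polarS L) ≤ ∫⁻ y, expS L y := by
  rw [← setLIntegral_const]
  refine (setLIntegral_mono' (isClosed_polarS L).measurableSet fun y hy => ?_).trans
    (setLIntegral_le_lintegral _ _)
  exact ENNReal.ofReal_le_ofReal (Real.exp_le_exp.2 (neg_le_neg (suppF_le hn hy)))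

lemma exists_dot_eq (f : E n →L[ℝ] ℝ) : ∃ v : E n, ∀ z, f z = z ⬝ᵥ v := by
  refine ⟨fun i => f (Pi.single i 1), fun z => ?_⟩
  conv_lhs => rw [← Finset.univ_sum_single z]
  rw [map_sum, dotProduct]
  refine Finset.sum_congr rfl fun i _ => ?_
  rw [← smul_eq_mul, ← map_smul, ← Pi.single_smul', smul_eq_mul, mul_one]

lemma exists_sep {K : Set (E n)} (hK : Convex ℝ K) (hi : (interior K).Nonempty) {c : E n}
    (hc : c ∉ interior K) : ∃ v : E n, v ≠ 0 ∧ ∀ z ∈ K, (z - c) ⬝ᵥ v ≤ 0 := by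
  obtain ⟨f, hf, h⟩ := geometric_hahn_banach_of_nonempty_interior_point hK hc hi
  obtain ⟨v, hv⟩ := exists_dot_eq f
  refine ⟨v, fun h0 => hf ?_, fun z hz => ?_⟩
  · ext z; simp [hv, h0]
  · rw [sub_dotProduct, ← hv, ← hv]; linarith [h z hz]

/-- outside the interior the integral is infinite -/
theorem lintegral_expS_eq_top {K : Set (E n)} (hK : Convex ℝ K) (hb : IsBounded K)
    (hi : (interior K).Nonempty) {c : E n} (hc : c ∉ interior K) :
    ∫⁻ y, expS ((fun z => z - c) '' K) y = ∞ := by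
  obtain ⟨v, hv, h⟩ := exists_sep hK hi hc
  have h1 := volume_polarS_le ((hi.mono interior_subset).image (fun z => z - c))
  rw [volume_polarS_eq_top (isBounded_image_sub hb c) hv (by rintro _ ⟨z, hz, rfl⟩; exact h z hz),
    ENNReal.mul_top (by simpa using Real.exp_pos _)] at h1
  exact top_le_iff.1 h1

lemma zero_mem_interior_sub {K : Set (E n)} {c : E n} (hc : c ∈ interior K) :
    (0 : E n) ∈ interior ((fun z => z - c) '' K) := by
  have := (Homeomorph.subRight c).image_interior K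
  simp only [Homeomorph.coe_subRight] at this
  rw [← this]
  exact ⟨c, hc, sub_self c⟩

lemma lintegral_expS_sub {K : Set (E n)} (hb : IsBounded K) {c : E n} (hc : c ∈ K) :
    ∫⁻ y, expS ((fun z => z - c) '' K) y =
      (n.factorial : ℝ≥0∞) * volume (polarS ((fun z => z - c) '' K)) :=
  lintegral_expS (isBounded_image_sub hb c) ⟨c, hc, sub_self c⟩

lemma volume_polarS_sub_ne_top {K : Set (E n)} {c : E n} (hc : c ∈ interior K) :
    volume (polarS ((fun z => z - c) '' K)) ≠ ∞ :=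
  (isBounded_polarS (zero_mem_interior_sub hc)).measure_lt_top.ne

lemma lowerSemicontinuous_laplace {F : E n → ℝ≥0∞} (hF : Measurable F) :
    LowerSemicontinuous fun c : E n => ∫⁻ y, F y * ENNReal.ofReal (Real.exp (c ⬝ᵥ y)) := by
  rw [lowerSemicontinuous_iff_isClosed_preimage]
  intro K
  refine IsSeqClosed.isClosed fun s c hs hc => ?_
  refine fatou_mul hF (u := fun k y => ENNReal.ofReal (Real.exp (s k ⬝ᵥ y)))
    (fun k => (Real.measurable_exp.comp (measurable_dot _)).ennreal_ofReal)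
    (Eventually.of_forall fun y => ⟨?_, ?_⟩) hs
  · simpa using Real.exp_pos _
  · have : Continuous fun c : E n => Real.exp (c ⬝ᵥ y) := by fun_prop
    exact ENNReal.tendsto_ofReal (this.continuousAt.tendsto.comp hc)

/-- existence of a Santalo point -/
theorem exists_santalo {K : Set (E n)} (hK : Convex ℝ K) (hb : IsBounded K)
    (hi : (interior K).Nonempty) : ∃ c ∈ interior K,
      Jstar K = (n.factorial : ℝ≥0∞) * volume (polarS ((fun z => z - c) '' K)) := by
  have hn : K.Nonempty := hi.mono interior_subset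
  obtain ⟨c, -, hc⟩ := LowerSemicontinuousOn.exists_isMinOn hn.closure hb.isCompact_closure
    ((lowerSemicontinuous_laplace (measurable_expS hb)).lowerSemicontinuousOn _)
  have hc' : ∀ d ∈ closure K, ∫⁻ y, expS ((fun z => z - c) '' K) y ≤
      ∫⁻ y, expS ((fun z => z - d) '' K) y := by
    intro d hd
    simp only [expS_image_sub hb hn]
    exact hc hd
  have hci : c ∈ interior K := by
    by_contra h
    obtain ⟨d, hd⟩ := hi
    have := hc' d (subset_closure (interior_subset hd))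
    rw [lintegral_expS_eq_top hK hb ⟨d, hd⟩ h, lintegral_expS_sub hb (interior_subset hd)] at this
    exact ENNReal.mul_ne_top (ENNReal.natCast_ne_top _) (volume_polarS_sub_ne_top hd)
      (top_le_iff.1 this)
  refine ⟨c, hci, ?_⟩
  rw [← lintegral_expS_sub hb (interior_subset hci), Jstar_eq hb hn]
  refine le_antisymm (iInf_le _ c) (le_iInf fun d => ?_)
  by_cases hd : d ∈ interior K
  · exact hc' d (subset_closure (interior_subset hd))
  · rw [lintegral_expS_eq_top hK hb hi hd]; exact le_top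

lemma Jstar_le {K : Set (E n)} (hb : IsBounded K) {c : E n} (hc : c ∈ K) :
    Jstar K ≤ (n.factorial : ℝ≥0∞) * volume (polarS ((fun z => z - c) '' K)) := by
  rw [← lintegral_expS_sub hb hc, Jstar_eq hb ⟨c, hc⟩]
  exact iInf_le _ c

lemma polarS_hull_sub {ι : Type} (x : ι → E n) (c : E n) :
    polarS ((fun z => z - c) '' convexHull ℝ (range x)) = {w | ∀ i, (x i - c) ⬝ᵥ w ≤ 1} := by
  ext w
  constructor
  · intro h i
    exact h _ ⟨x i, subset_convexHull ℝ _ (mem_range_self i), rfl⟩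
  · rintro h _ ⟨z, hz, rfl⟩
    have : z ⬝ᵥ w ≤ 1 + c ⬝ᵥ w := by
      refine convexHull_min ?_ (convex_dot_le w _) hz
      rintro _ ⟨i, rfl⟩
      have := h i
      rw [sub_dotProduct] at this
      simp only [mem_ofPred_eq]
      linarith
    simp only [sub_dotProduct]
    linarith

/-- Meyer-Reisner with explicit centres and polar volumes -/
theorem meyer_reisner_polar {ι : Type} [Finite ι] (x : ι → E n) (a : ι → ℝ) (θ : E n)
    (t₀ t₁ l : ℝ) (hθ : θ ≠ 0) (hl0 : 0 < l) (hl1 : l < 1)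
    (h₀ : (interior (convexHull ℝ (range (shadowPts x a θ t₀)))).Nonempty)
    (h₁ : (interior (convexHull ℝ (range (shadowPts x a θ t₁)))).Nonempty)
    (c : E n) (hc : c ∈ interior (convexHull ℝ (range (shadowPts x a θ (l * t₀ + (1 - l) * t₁))))) :
    ∃ c₀ ∈ interior (convexHull ℝ (range (shadowPts x a θ t₀))),
    ∃ c₁ ∈ interior (convexHull ℝ (range (shadowPts x a θ t₁))),
      (volume {w | ∀ i, (shadowPts x a θ (l * t₀ + (1 - l) * t₁) i - c) ⬝ᵥ w ≤ 1}).toReal⁻¹ ≤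
        l * (volume {w | ∀ i, (shadowPts x a θ t₀ i - c₀) ⬝ᵥ w ≤ 1}).toReal⁻¹ +
        (1 - l) * (volume {w | ∀ i, (shadowPts x a θ t₁ i - c₁) ⬝ᵥ w ≤ 1}).toReal⁻¹ := by
  have hne : Nonempty ι := by
    by_contra h
    rw [not_nonempty_iff] at h
    simp [range_eq_empty] at h₀
  have hb : ∀ t, IsBounded (convexHull ℝ (range (shadowPts x a θ t))) := fun _ =>
    isBounded_convexHull.2 (finite_range _).isBounded
  obtain ⟨c₀, hc₀, e₀⟩ := exists_santalo (convex_convexHull ℝ _) (hb t₀) h₀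
  obtain ⟨c₁, hc₁, e₁⟩ := exists_santalo (convex_convexHull ℝ _) (hb t₁) h₁
  refine ⟨c₀, hc₀, c₁, hc₁, ?_⟩
  have key := (ENNReal.inv_le_inv.2 (Jstar_le (hb _) (interior_subset hc))).trans
    (meyer_reisner x a hθ hl0 (sub_pos.2 hl1) (by ring) t₀ t₁)
  have f0 : (n.factorial : ℝ≥0∞) ≠ 0 := by exact_mod_cast n.factorial_ne_zero
  have ft : (n.factorial : ℝ≥0∞) ≠ ∞ := ENNReal.natCast_ne_top _
  rw [e₀, e₁, ENNReal.mul_inv (Or.inl f0) (Or.inl ft), ENNReal.mul_inv (Or.inl f0) (Or.inl ft),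
    ENNReal.mul_inv (Or.inl f0) (Or.inl ft), mul_left_comm, mul_left_comm (ENNReal.ofReal (1 - l)),
    ← mul_add, ENNReal.mul_le_mul_iff_right (ENNReal.inv_ne_zero.2 ft)
      (ENNReal.inv_ne_top.2 f0)] at key
  have n₀ := ENNReal.inv_ne_top.2 (volume_polarS_ne_zero (isBounded_image_sub (hb t₀) c₀))
  have n₁ := ENNReal.inv_ne_top.2 (volume_polarS_ne_zero (isBounded_image_sub (hb t₁) c₁))
  have key2 := ENNReal.toReal_mono (ENNReal.add_ne_top.2
    ⟨ENNReal.mul_ne_top ENNReal.ofReal_ne_top n₀, ENNReal.mul_ne_top ENNReal.ofReal_ne_top n₁⟩) key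
  rw [ENNReal.toReal_add (ENNReal.mul_ne_top ENNReal.ofReal_ne_top n₀)
    (ENNReal.mul_ne_top ENNReal.ofReal_ne_top n₁), ENNReal.toReal_mul, ENNReal.toReal_mul,
    ENNReal.toReal_ofReal hl0.le, ENNReal.toReal_ofReal (sub_pos.2 hl1).le] at key2
  simpa only [ENNReal.toReal_inv, polarS_hull_sub] using key2

end Pool.Agent.MP_5f4cdd_gt.PL

end
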