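import Pool.Agent.MP_5f4cdd_gt.FlowDefs

section

set_option autoImplicit false
open MeasureTheory Set

namespace Pool.Agent.MP_5f4cdd_gt

section hull
variable {E : Type*} [AddCommGroup E] [Module ℝ E] {ι : Type} [Fintype ι]

theorem mem_hull_iff (x : ι → E) (z : E) :
    z ∈ convexHull ℝ (range x) ↔
      ∃ w : ι → ℝ, (∀ i, 0 ≤ w i) ∧ ∑ i, w i = 1 ∧ ∑ i, w i • x i = z := by
  classical
  constructor
  · intro hz
    have hconv : Convex ℝ {z : E | ∃ w : ι → ℝ, (∀ i, 0 ≤ w i) ∧ ∑ i, w i = 1 ∧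
        ∑ i, w i • x i = z} := by
      rintro p ⟨w, hw0, hw1, rfl⟩ q ⟨v, hv0, hv1, rfl⟩ s t hs ht hst
      refine ⟨fun i => s * w i + t * v i, fun i => by have := hw0 i; have := hv0 i; positivity,
        ?_, ?_⟩
      · rw [Finset.sum_add_distrib, ← Finset.mul_sum, ← Finset.mul_sum, hw1, hv1]; linarith
      · simp only [add_smul, mul_smul, Finset.sum_add_distrib, Finset.smul_sum]
    refine convexHull_min ?_ hconv hz
    rintro _ ⟨i, rfl⟩
    refine ⟨Pi.single i 1, fun j => ?_, by simp, ?_⟩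
    · by_cases h : j = i
      · subst h; simp
      · simp [Pi.single_eq_of_ne h]
    · rw [Finset.sum_eq_single i]
      · simp
      · intro b _ hb; simp [Pi.single_eq_of_ne hb]
      · simp
  · rintro ⟨w, hw0, hw1, rfl⟩
    exact (convex_convexHull ℝ _).sum_mem (fun i _ => hw0 i) hw1
      (fun i _ => subset_convexHull ℝ _ (mem_range_self i))

end hull

variable {n : ℕ} {ι κ : Type}

theorem convex_dot_le (v : Fin n → ℝ) (b : ℝ) : Convex ℝ {z : Fin n → ℝ | v ⬝ᵥ z ≤ b} := by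
  intro p hp q hq s t hs ht hst
  simp only [mem_ofPred_eq, dotProduct_add, dotProduct_smul, smul_eq_mul] at *
  have h1 := mul_le_mul_of_nonneg_left hp hs
  have h2 := mul_le_mul_of_nonneg_left hq ht
  have h3 : s * b + t * b = b := by rw [← add_mul, hst, one_mul]
  linarith

theorem dot_le_of_mem_hull {x : ι → Fin n → ℝ} {v : Fin n → ℝ} {b : ℝ}
    (h : ∀ i, v ⬝ᵥ x i ≤ b) {z : Fin n → ℝ} (hz : z ∈ convexHull ℝ (range x)) : v ⬝ᵥ z ≤ b := by
  have : convexHull ℝ (range x) ⊆ {z : Fin n → ℝ | v ⬝ᵥ z ≤ b} :=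
    convexHull_min (by rintro _ ⟨i, rfl⟩; exact h i) (convex_dot_le v b)
  exact this hz

theorem exists_dot_eq (f : (Fin n → ℝ) →ₗ[ℝ] ℝ) : ∃ v : Fin n → ℝ, ∀ z, f z = v ⬝ᵥ z := by
  classical
  refine ⟨fun i => f (Pi.single i 1), fun z => ?_⟩
  rw [LinearMap.pi_apply_eq_sum_univ f z]
  unfold dotProduct
  refine Finset.sum_congr rfl fun i _ => ?_
  rw [smul_eq_mul, mul_comm]
  congr 2
  ext j
  simp [Pi.single_apply, eq_comm]

theorem eq_zero_of_ray_mem {S : Set (Fin n → ℝ)} (hS : Bornology.IsBounded S)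
    {z v : Fin n → ℝ} (h : ∀ s : ℝ, 0 ≤ s → z + s • v ∈ S) : v = 0 := by
  by_contra hv
  obtain ⟨R, hR⟩ := hS.exists_norm_le
  have hvpos : 0 < ‖v‖ := norm_pos_iff.mpr hv
  have hz : ‖z‖ ≤ R := by simpa using hR _ (h 0 le_rfl)
  have hR0 : 0 ≤ R := (norm_nonneg _).trans hz
  have h1 := hR _ (h ((2 * R + 1) / ‖v‖) (by positivity))
  have h2 : ‖((2 * R + 1) / ‖v‖) • v‖ = 2 * R + 1 := by
    rw [norm_smul, Real.norm_of_nonneg (by positivity)]; field_simp
  have h3 : ‖((2 * R + 1) / ‖v‖) • v‖ ≤ ‖z + ((2 * R + 1) / ‖v‖) • v‖ + ‖z‖ := by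
    calc _ = ‖(z + ((2 * R + 1) / ‖v‖) • v) - z‖ := by congr 1; abel
      _ ≤ _ := norm_sub_le _ _
  linarith

theorem isCompact_hull [Finite ι] (x : ι → Fin n → ℝ) : IsCompact (convexHull ℝ (range x)) :=
  (finite_range x).isCompact_convexHull ℝ

theorem DualPair.symm {x : ι → Fin n → ℝ} {y : κ → Fin n → ℝ} (h : DualPair x y) :
    DualPair y x := ⟨h.2, h.1⟩

theorem DualPair.dot_le {x : ι → Fin n → ℝ} {y : κ → Fin n → ℝ} (h : DualPair x y) (i : ι)
    (j : κ) : y j ⬝ᵥ x i ≤ 1 := by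
  have : x i ∈ convexHull ℝ (range x) := subset_convexHull ℝ _ (mem_range_self i)
  rw [h.1] at this
  exact this j

theorem dualPair_of_eq [Finite ι] [Finite κ] [Nonempty κ] {x : ι → Fin n → ℝ}
    {y : κ → Fin n → ℝ} (h : convexHull ℝ (range x) = {z | ∀ j, y j ⬝ᵥ z ≤ 1}) :
    DualPair x y := by
  refine ⟨h, Subset.antisymm ?_ ?_⟩
  · intro w hw i
    refine dot_le_of_mem_hull (fun j => ?_) hw
    have : x i ∈ convexHull ℝ (range x) := subset_convexHull ℝ _ (mem_range_self i)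
    rw [h] at this
    rw [dotProduct_comm]; exact this j
  · intro w hw
    by_contra hnot
    obtain ⟨f, u, hf, hu⟩ := geometric_hahn_banach_closed_point (convex_convexHull ℝ (range y))
      (isCompact_hull y).isClosed hnot
    obtain ⟨v, hv⟩ := exists_dot_eq (f : (Fin n → ℝ) →ₗ[ℝ] ℝ)
    have hv' : ∀ z, f z = v ⬝ᵥ z := hv
    have hy : ∀ j, v ⬝ᵥ y j < u := fun j => by
      rw [← hv']; exact hf _ (subset_convexHull ℝ _ (mem_range_self j))
    rw [hv'] at hu
    rcases lt_or_ge 0 u with hu0 | hu0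
    · have hz : u⁻¹ • v ∈ convexHull ℝ (range x) := by
        rw [h]; intro j
        rw [dotProduct_smul, smul_eq_mul, dotProduct_comm, inv_mul_le_iff₀ hu0]
        linarith [hy j]
      have := dot_le_of_mem_hull (v := w) (b := 1) (fun i => by rw [dotProduct_comm]; exact hw i) hz
      rw [dotProduct_smul, smul_eq_mul, dotProduct_comm, inv_mul_le_iff₀ hu0] at this
      linarith
    · have hv0 : v = 0 := by
        refine eq_zero_of_ray_mem (isCompact_hull x).isBounded (z := 0) fun s hs => ?_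
        rw [h]; intro j
        rw [zero_add, dotProduct_smul, smul_eq_mul, dotProduct_comm]
        nlinarith [hy j]
      obtain ⟨j⟩ := ‹Nonempty κ›
      have := hy j
      rw [hv0, zero_dotProduct] at this
      linarith

theorem continuous_dot (v : Fin n → ℝ) : Continuous fun z : Fin n → ℝ => v ⬝ᵥ z := by
  unfold dotProduct; fun_prop

theorem mem_interior_of_lt [Finite κ] {y : κ → Fin n → ℝ} {b : κ → ℝ} {c : Fin n → ℝ}
    (h : ∀ j, y j ⬝ᵥ c < b j) : c ∈ interior {z | ∀ j, y j ⬝ᵥ z ≤ b j} := by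
  have hopen : IsOpen {z : Fin n → ℝ | ∀ j, y j ⬝ᵥ z < b j} := by
    rw [ofPred_forall]
    exact isOpen_iInter_of_finite fun j => isOpen_lt (continuous_dot _) continuous_const
  exact interior_maximal (fun z hz j => (hz j).le) hopen h

theorem DualPair.zero_mem_interior [Finite κ] {x : ι → Fin n → ℝ} {y : κ → Fin n → ℝ}
    (h : DualPair x y) : (0 : Fin n → ℝ) ∈ interior (convexHull ℝ (range x)) := by
  rw [h.1]
  exact mem_interior_of_lt (b := fun _ => 1) fun j => by simp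

theorem DualPair.nonempty_left {x : ι → Fin n → ℝ} {y : κ → Fin n → ℝ}
    (h : DualPair x y) : Nonempty ι := by
  have : (0 : Fin n → ℝ) ∈ convexHull ℝ (range x) := by rw [h.1]; intro j; simp
  by_contra hne
  rw [not_nonempty_iff] at hne
  rw [range_eq_empty, convexHull_empty] at this
  exact this

/-- The second polytope of a dual pair is the polar body of the first one. -/
theorem DualPair.polar_eq {x : ι → Fin n → ℝ} {y : κ → Fin n → ℝ} (h : DualPair x y) :
    {w | ∀ z ∈ convexHull ℝ (range x), z ⬝ᵥ w ≤ 1} = convexHull ℝ (range y) := by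
  rw [h.2]
  ext w
  constructor
  · intro hw i
    exact hw _ (subset_convexHull ℝ _ (mem_range_self i))
  · intro hw z hz
    rw [dotProduct_comm]
    exact dot_le_of_mem_hull (fun i => by rw [dotProduct_comm]; exact hw i) hz

/-- A point in the interior of a half-space satisfies the inequality strictly. -/
theorem lt_of_mem_interior {S : Set (Fin n → ℝ)} {v c : Fin n → ℝ} {b : ℝ}
    (hS : ∀ z ∈ S, v ⬝ᵥ z ≤ b) (hc : c ∈ interior S) (hvb : v ≠ 0 ∨ b ≠ 0) : v ⬝ᵥ c < b := by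
  have hle := hS c (interior_subset hc)
  by_cases hv : v = 0
  · subst hv
    rw [zero_dotProduct] at hle ⊢
    rcases hvb with h | h
    · exact absurd rfl h
    · exact lt_of_le_of_ne hle (Ne.symm h)
  · have hcont : Continuous fun s : ℝ => c + s • v := by fun_prop
    have hmem : (fun s : ℝ => c + s • v) ⁻¹' interior S ∈ nhds (0 : ℝ) :=
      hcont.continuousAt.preimage_mem_nhds (by simpa using isOpen_interior.mem_nhds hc)
    obtain ⟨ε, hε, hball⟩ := Metric.mem_nhds_iff.mp hmem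
    have h1 : c + (ε / 2) • v ∈ interior S := hball (by
      rw [Metric.mem_ball, dist_zero_right, Real.norm_of_nonneg (by positivity)]; linarith)
    have h2 := hS _ (interior_subset h1)
    rw [dotProduct_add, dotProduct_smul, smul_eq_mul] at h2
    have h3 : 0 < v ⬝ᵥ v := by
      rcases (dotProduct_self_star_nonneg v).lt_or_eq with h | h
      · simpa using h
      · exact absurd (dotProduct_self_eq_zero.mp (by simpa using h.symm)) hv
    nlinarith

theorem hull_sub (x : ι → Fin n → ℝ) (c : Fin n → ℝ) :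
    convexHull ℝ (range fun i => x i - c) = (fun z => z - c) '' convexHull ℝ (range x) := by
  have h1 : (range fun i => x i - c) = (AffineEquiv.constVAdd ℝ (Fin n → ℝ) (-c)) '' range x := by
    rw [← range_comp]; congr 1; ext i; simp [sub_eq_neg_add]
  rw [h1]
  have := (AffineEquiv.constVAdd ℝ (Fin n → ℝ) (-c)).toAffineMap.image_convexHull (range x)
  simp only [AffineEquiv.coe_toAffineMap] at this
  rw [← this]
  congr 1; ext z; simp [sub_eq_neg_add]

/-- Recentering an inequality description at an interior point. -/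
theorem exists_dualPair_sub [Finite ι] [Finite κ] [Nonempty κ] {x : ι → Fin n → ℝ}
    {y : κ → Fin n → ℝ} {b : κ → ℝ} (h : convexHull ℝ (range x) = {z | ∀ j, y j ⬝ᵥ z ≤ b j})
    (hyb : ∀ j, y j ≠ 0 ∨ b j ≠ 0) {c : Fin n → ℝ} (hc : c ∈ interior (convexHull ℝ (range x))) :
    ∃ y' : κ → Fin n → ℝ, DualPair (fun i => x i - c) y' ∧
      ∀ i j, (x i - c) ⬝ᵥ y' j = 1 ↔ y j ⬝ᵥ x i = b j := by
  have hlt : ∀ j, 0 < b j - y j ⬝ᵥ c := fun j => sub_pos.mpr <|
    lt_of_mem_interior (fun z hz => by rw [h] at hz; exact hz j) hc (hyb j)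
  refine ⟨fun j => (b j - y j ⬝ᵥ c)⁻¹ • y j, dualPair_of_eq ?_, fun i j => ?_⟩
  · rw [hull_sub, h]
    ext z
    simp only [mem_image, mem_ofPred_eq, smul_dotProduct, smul_eq_mul]
    constructor
    · rintro ⟨z, hz, rfl⟩ j
      rw [inv_mul_le_iff₀ (hlt j), dotProduct_sub]
      linarith [hz j]
    · intro hz
      refine ⟨z + c, fun j => ?_, by simp⟩
      have := hz j
      rw [inv_mul_le_iff₀ (hlt j)] at this
      rw [dotProduct_add]; linarith
  · rw [dotProduct_smul, smul_eq_mul, inv_mul_eq_iff_eq_mul₀ (hlt j).ne', dotProduct_comm,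
      dotProduct_sub]
    constructor <;> intro h <;> linarith

theorem DualPair.exists_sub [Finite ι] [Finite κ] {x : ι → Fin n → ℝ} {y : κ → Fin n → ℝ}
    (h : DualPair x y) {c : Fin n → ℝ} (hc : c ∈ interior (convexHull ℝ (range x))) :
    ∃ y' : κ → Fin n → ℝ, DualPair (fun i => x i - c) y' ∧
      ∀ i j, (x i - c) ⬝ᵥ y' j = 1 ↔ x i ⬝ᵥ y j = 1 := by
  have := h.symm.nonempty_left
  obtain ⟨y', h1, h2⟩ := exists_dualPair_sub (b := fun _ => 1) h.1 (fun j => Or.inr one_ne_zero) hc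
  exact ⟨y', h1, fun i j => by rw [h2, dotProduct_comm]⟩

theorem nInc_comm (x : ι → Fin n → ℝ) (y : κ → Fin n → ℝ) : nInc y x = nInc x y := by
  unfold nInc
  rw [← Set.ncard_image_of_injective _ (Prod.swap_injective (α := κ) (β := ι))]
  congr 1
  ext ⟨i, j⟩
  simp [dotProduct_comm]

theorem nInc_le [Finite ι] [Finite κ] (x : ι → Fin n → ℝ) (y : κ → Fin n → ℝ) :
    nInc x y ≤ Nat.card ι * Nat.card κ := by
  unfold nInc
  rw [← Nat.card_prod, ← Set.ncard_univ]
  exact Set.ncard_le_ncard (subset_univ _)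

end Pool.Agent.MP_5f4cdd_gt

end

section

set_option autoImplicit false
open MeasureTheory Set
open scoped ENNReal

namespace Pool.Agent.MP_5f4cdd_gt

variable {n : ℕ}

/-- Volume as an integral of chord lengths in a direction `θ`. -/
theorem exists_chord_formula {θ : Fin n → ℝ} (hθ : θ ≠ 0) :
    ∃ (H : Type) (_ : MeasurableSpace H) (ν : Measure H) (π : H → Fin n → ℝ),
      (∀ A : Set (Fin n → ℝ), MeasurableSet A →
        Measurable fun h => volume {s : ℝ | π h + s • θ ∈ A}) ∧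
      ∀ A : Set (Fin n → ℝ), MeasurableSet A →
        volume A = ∫⁻ h, volume {s : ℝ | π h + s • θ ∈ A} ∂ν := by
  obtain ⟨i0, hi0⟩ : ∃ i, θ i ≠ 0 := by
    by_contra h; push Not at h; exact hθ (funext h)
  let φ : (Fin n → ℝ) →ₗ[ℝ] ℝ := (θ i0)⁻¹ • LinearMap.proj i0
  have hφ : φ θ = 1 := by simp [φ, hi0]
  let H := LinearMap.ker φ
  let M : (H × ℝ) →ₗ[ℝ] (Fin n → ℝ) := H.subtype.coprod (LinearMap.toSpanSingleton ℝ _ θ)
  have hM : ∀ p : H × ℝ, M p = p.1.1 + p.2 • θ := fun p => by simp [M]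
  have hbij : Function.Bijective M := by
    constructor
    · rw [injective_iff_map_eq_zero]
      rintro ⟨h, s⟩ hs
      rw [hM] at hs
      have h1 : φ (h.1 + s • θ) = 0 := by rw [hs, map_zero]
      have h2 : φ h.1 = 0 := h.2
      rw [map_add, map_smul, h2, hφ] at h1
      have hs0 : s = 0 := by simpa using h1
      subst hs0
      have : h = 0 := by ext1; simpa using hs
      simp [this]
    · intro z
      refine ⟨(⟨z - φ z • θ, ?_⟩, φ z), ?_⟩
      · simp [H, hφ]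
      · rw [hM]; simp
  let L : (H × ℝ) ≃L[ℝ] (Fin n → ℝ) := (LinearEquiv.ofBijective M hbij).toContinuousLinearEquiv
  have hL : ∀ p : H × ℝ, L p = p.1.1 + p.2 • θ := hM
  let ν0 : Measure H := (Module.finBasis ℝ H).addHaar
  let μ : Measure (Fin n → ℝ) := Measure.map L (ν0.prod volume)
  have : μ.IsAddHaarMeasure := L.isAddHaarMeasure_map _
  have hvol : (volume : Measure (Fin n → ℝ)) = Measure.addHaarScalarFactor volume μ • μ :=
    Measure.isAddLeftInvariant_eq_smul _ _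
  have hLm : Measurable L := L.continuous.measurable
  refine ⟨H, inferInstance, Measure.addHaarScalarFactor volume μ • ν0, fun h => h.1, ?_, ?_⟩
  · intro A hA
    have := measurable_measure_prodMk_left (ν := (volume : Measure ℝ)) (hLm hA)
    convert this using 3 with h
    ext s
    simp [hL]
  · intro A hA
    conv_lhs => rw [hvol]
    rw [lintegral_smul_measure, Measure.smul_apply, Measure.map_apply hLm hA,
      Measure.prod_apply (hLm hA)]
    congr 1

theorem volume_eq_of_chords {θ : Fin n → ℝ} (hθ : θ ≠ 0) {A B C : Set (Fin n → ℝ)}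
    (hA : MeasurableSet A) (hB : MeasurableSet B) (hC : MeasurableSet C) (p q : ℝ≥0∞)
    (h : ∀ z, volume {s : ℝ | z + s • θ ∈ C} =
      p * volume {s : ℝ | z + s • θ ∈ A} + q * volume {s : ℝ | z + s • θ ∈ B}) :
    volume C = p * volume A + q * volume B := by
  obtain ⟨H, _, ν, π, hm, hf⟩ := exists_chord_formula hθ
  rw [hf A hA, hf B hB, hf C hC, ← lintegral_const_mul _ (hm A hA),
    ← lintegral_const_mul _ (hm B hB), ← lintegral_add_left ((hm A hA).const_mul _)]
  exact lintegral_congr fun z => h _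

end Pool.Agent.MP_5f4cdd_gt

end

section

set_option autoImplicit false
open MeasureTheory Set Filter Topology
open scoped ENNReal

namespace Pool.Agent.MP_5f4cdd_gt

variable {n : ℕ} {ι κ : Type}

/-- Data of an admissible flow: the moving inequalities are
`(y j - t • w j) ⬝ᵥ z ≤ 1 + t * g j`. -/
structure Adm (x : ι → Fin n → ℝ) (y : κ → Fin n → ℝ) (θ : Fin n → ℝ) (a : ι → ℝ)
    (w : κ → Fin n → ℝ) (g : κ → ℝ) : Prop where
  hP : convexHull ℝ (range x) = {z | ∀ j, y j ⬝ᵥ z ≤ 1}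
  hθ : θ ≠ 0
  hw : ∀ j, w j ⬝ᵥ θ = 0
  hinc : ∀ i j, y j ⬝ᵥ x i = 1 → a i * (y j ⬝ᵥ θ) = w j ⬝ᵥ x i + g j
  hpar : ∀ j, y j ⬝ᵥ θ = 0 → w j = 0 ∧ g j = 0

/-- The polyhedron cut out by the moving inequalities. -/
def movB (y w : κ → Fin n → ℝ) (g : κ → ℝ) (t : ℝ) : Set (Fin n → ℝ) :=
  {z | ∀ j, (y j - t • w j) ⬝ᵥ z ≤ 1 + t * g j}

/-- The hull of the moving points. -/
def movA (x : ι → Fin n → ℝ) (a : ι → ℝ) (θ : Fin n → ℝ) (t : ℝ) : Set (Fin n → ℝ) :=
  convexHull ℝ (range (shadowPts x a θ t))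

variable {x : ι → Fin n → ℝ} {y : κ → Fin n → ℝ} {θ : Fin n → ℝ} {a : ι → ℝ}
  {w : κ → Fin n → ℝ} {g : κ → ℝ}

theorem shadowPts_neg (x : ι → Fin n → ℝ) (a : ι → ℝ) (θ : Fin n → ℝ) (t : ℝ) :
    shadowPts x (-a) (-θ) t = shadowPts x a θ t := by
  ext i k; simp [shadowPts]

theorem shadowPts_zero (x : ι → Fin n → ℝ) (a : ι → ℝ) (θ : Fin n → ℝ) :
    shadowPts x a θ 0 = x := by
  ext i k; simp [shadowPts]

theorem Adm.neg (h : Adm x y θ a w g) : Adm x y (-θ) (-a) w g where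
  hP := h.hP
  hθ := neg_ne_zero.mpr h.hθ
  hw := fun j => by simp [h.hw j]
  hinc := fun i j hij => by simpa using h.hinc i j hij
  hpar := fun j hj => h.hpar j (by simpa using hj)

theorem Adm.flip (h : Adm x y θ a w g) : Adm x y θ (-a) (-w) (-g) where
  hP := h.hP
  hθ := h.hθ
  hw := fun j => by simp [h.hw j]
  hinc := fun i j hij => by
    have := h.hinc i j hij
    simp only [Pi.neg_apply, neg_dotProduct]; linarith
  hpar := fun j hj => by simpa using h.hpar j hj

theorem Adm.dot_le (h : Adm x y θ a w g) (i : ι) (j : κ) : y j ⬝ᵥ x i ≤ 1 := by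
  have : x i ∈ convexHull ℝ (range x) := subset_convexHull ℝ _ (mem_range_self i)
  rw [h.hP] at this
  exact this j

theorem Adm.slack (h : Adm x y θ a w g) (t : ℝ) (i : ι) (j : κ) :
    1 + t * g j - (y j - t • w j) ⬝ᵥ shadowPts x a θ t i =
      (1 - y j ⬝ᵥ x i) + t * (g j + w j ⬝ᵥ x i - a i * (y j ⬝ᵥ θ)) := by
  simp only [shadowPts, sub_dotProduct, dotProduct_add, smul_dotProduct, dotProduct_smul,
    smul_eq_mul, h.hw j]
  ring

theorem Adm.dot_θ (h : Adm x y θ a w g) (t : ℝ) (j : κ) : (y j - t • w j) ⬝ᵥ θ = y j ⬝ᵥ θ := by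
  simp [sub_dotProduct, h.hw j]

theorem Adm.nondeg (h : Adm x y θ a w g) (t : ℝ) (j : κ) :
    y j - t • w j ≠ 0 ∨ 1 + t * g j ≠ 0 := by
  by_cases hj : y j ⬝ᵥ θ = 0
  · right; simp [(h.hpar j hj).2]
  · left; intro h0
    have := h.dot_θ t j
    rw [h0, zero_dotProduct] at this
    exact hj this.symm

theorem sum_shadowPts [Fintype ι] (l : ι → ℝ) (t : ℝ) :
    ∑ i, l i • shadowPts x a θ t i = ∑ i, l i • x i + (t * ∑ i, l i * a i) • θ := by
  simp only [shadowPts, smul_add, Finset.sum_add_distrib, smul_smul, Finset.mul_sum,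
    Finset.sum_smul]
  congr 1
  exact Finset.sum_congr rfl fun i _ => by congr 1; ring

theorem dot_eq_of_weight_ne [Fintype ι] {v : Fin n → ℝ} {b : ℝ} (hx : ∀ i, v ⬝ᵥ x i ≤ b)
    {l : ι → ℝ} (hl0 : ∀ i, 0 ≤ l i) (hl1 : ∑ i, l i = 1) (hb : v ⬝ᵥ ∑ i, l i • x i = b)
    (i : ι) (hi : l i ≠ 0) : v ⬝ᵥ x i = b := by
  have h1 : ∑ i, l i * (b - v ⬝ᵥ x i) = 0 := by
    simp only [mul_sub, Finset.sum_sub_distrib, ← Finset.sum_mul, hl1]
    rw [dotProduct_sum] at hb
    simp only [dotProduct_smul, smul_eq_mul] at hb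
    linarith
  rw [Finset.sum_eq_zero_iff_of_nonneg (fun i _ => mul_nonneg (hl0 i) (sub_nonneg.mpr (hx i)))]
    at h1
  have := h1 i (Finset.mem_univ i)
  rcases mul_eq_zero.mp this with h | h
  · exact absurd h hi
  · linarith

/-- The top point of a chord moves affinely. -/
theorem Adm.top [Fintype ι] [Finite κ] (h : Adm x y θ a w g) {z : Fin n → ℝ}
    (hz : ∃ s : ℝ, z + s • θ ∈ convexHull ℝ (range x)) :
    ∃ hi l : ℝ, ∀ t, z + (hi + t * l) • θ ∈ movA x a θ t ∧
      ∀ s : ℝ, z + s • θ ∈ movB y w g t → s ≤ hi + t * l := by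
  have hcont : Continuous fun s : ℝ => z + s • θ := by fun_prop
  have hS : IsCompact {s : ℝ | z + s • θ ∈ convexHull ℝ (range x)} := by
    refine Metric.isCompact_of_isClosed_isBounded
      ((isCompact_hull x).isClosed.preimage hcont) ?_
    obtain ⟨R, hR⟩ := (isCompact_hull x).isBounded.exists_norm_le
    have hθpos : 0 < ‖θ‖ := norm_pos_iff.mpr h.hθ
    refine isBounded_iff_forall_norm_le.mpr ⟨(R + ‖z‖) / ‖θ‖, fun s hs => ?_⟩
    rw [le_div_iff₀ hθpos, ← norm_smul]
    calc ‖s • θ‖ = ‖(z + s • θ) - z‖ := by congr 1; abel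
      _ ≤ ‖z + s • θ‖ + ‖z‖ := norm_sub_le _ _
      _ ≤ _ := by linarith [hR _ hs]
  obtain ⟨hi, hhi, hmax⟩ := hS.exists_isMaxOn hz continuousOn_id
  have hj : ∃ j, 0 < y j ⬝ᵥ θ ∧ y j ⬝ᵥ (z + hi • θ) = 1 := by
    by_contra hcon
    push Not at hcon
    have hhi' : ∀ j, y j ⬝ᵥ (z + hi • θ) ≤ 1 := by
      have := hhi; rw [mem_ofPred_eq, h.hP] at this; exact this
    have hev : ∀ᶠ ε in 𝓝[>] (0 : ℝ), ∀ j, y j ⬝ᵥ (z + (hi + ε) • θ) ≤ 1 := by
      rw [eventually_all]
      intro j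
      rcases lt_or_ge 0 (y j ⬝ᵥ θ) with hpos | hle
      · have hlt : y j ⬝ᵥ (z + (hi + 0) • θ) < 1 := by
          rw [add_zero]; exact lt_of_le_of_ne (hhi' j) (hcon j hpos)
        have hc : Continuous fun ε : ℝ => y j ⬝ᵥ (z + (hi + ε) • θ) :=
          (continuous_dot _).comp (by fun_prop)
        exact ((hc.tendsto 0).eventually (gt_mem_nhds hlt)).filter_mono nhdsWithin_le_nhds
          |>.mono fun ε hε => hε.le
      · filter_upwards [self_mem_nhdsWithin] with ε hε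
        have := hhi' j
        simp only [dotProduct_add, dotProduct_smul, smul_eq_mul] at this ⊢
        have hε' : 0 < ε := hε
        nlinarith
    obtain ⟨ε, hε1, hε2⟩ := (hev.and self_mem_nhdsWithin).exists
    have hmem : hi + ε ∈ {s : ℝ | z + s • θ ∈ convexHull ℝ (range x)} := by
      rw [mem_ofPred_eq, h.hP]; exact hε1
    have := hmax hmem
    have hε' : 0 < ε := hε2
    simp only [id, mem_ofPred_eq] at this
    linarith
  obtain ⟨j, hjpos, hj1⟩ := hj
  obtain ⟨l, hl0, hl1, hl⟩ := (mem_hull_iff x _).mp hhi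
  have hsupp := dot_eq_of_weight_ne (fun i => h.dot_le i j) hl0 hl1 (by rw [hl]; exact hj1)
  refine ⟨hi, ∑ i, l i * a i, fun t => ?_⟩
  have hpt : z + (hi + t * ∑ i, l i * a i) • θ = ∑ i, l i • shadowPts x a θ t i := by
    rw [sum_shadowPts, hl, add_smul, add_assoc]
  refine ⟨?_, fun s hs => ?_⟩
  · rw [hpt]; exact (mem_hull_iff _ _).mpr ⟨l, hl0, hl1, rfl⟩
  · have h1 : (y j - t • w j) ⬝ᵥ (z + (hi + t * ∑ i, l i * a i) • θ) = 1 + t * g j := by
      rw [hpt, dotProduct_sum]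
      have : ∀ i, (y j - t • w j) ⬝ᵥ l i • shadowPts x a θ t i = l i * (1 + t * g j) := by
        intro i
        rw [dotProduct_smul, smul_eq_mul]
        by_cases hi : l i = 0
        · simp [hi]
        · congr 1
          have e1 := h.slack t i j
          have e2 := hsupp i hi
          have e3 := h.hinc i j e2
          rw [e2, e3] at e1
          linarith
      simp only [this, ← Finset.sum_mul, hl1, one_mul]
    have h2 := hs j
    rw [dotProduct_add, dotProduct_smul, h.dot_θ, smul_eq_mul] at h1 h2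
    nlinarith

/-- The times at which all moving points satisfy all moving inequalities. -/
def goodT (x : ι → Fin n → ℝ) (y : κ → Fin n → ℝ) (θ : Fin n → ℝ) (a : ι → ℝ)
    (w : κ → Fin n → ℝ) (g : κ → ℝ) : Set ℝ :=
  {t | ∀ i j, (y j - t • w j) ⬝ᵥ shadowPts x a θ t i ≤ 1 + t * g j}

theorem movA_subset_movB {t : ℝ} (ht : t ∈ goodT x y θ a w g) : movA x a θ t ⊆ movB y w g t :=
  fun _ hz j => dot_le_of_mem_hull (fun i => ht i j) hz

theorem Adm.chord [Fintype ι] [Finite κ] (h : Adm x y θ a w g) {z : Fin n → ℝ}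
    (hz : ∃ s : ℝ, z + s • θ ∈ convexHull ℝ (range x)) :
    ∃ lo l1 hi l2 : ℝ, ∀ t ∈ goodT x y θ a w g, lo + t * l1 ≤ hi + t * l2 ∧
      {s : ℝ | z + s • θ ∈ movA x a θ t} = Icc (lo + t * l1) (hi + t * l2) ∧
      {s : ℝ | z + s • θ ∈ movB y w g t} = Icc (lo + t * l1) (hi + t * l2) := by
  obtain ⟨hi, l2, htop⟩ := h.top hz
  obtain ⟨lo, l1, hbot⟩ := h.neg.top (z := z) (by
    obtain ⟨s, hs⟩ := hz
    exact ⟨-s, by simpa using hs⟩)
  refine ⟨-lo, -l1, hi, l2, fun t ht => ?_⟩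
  have hb1 : z + (-lo + t * -l1) • θ ∈ movA x a θ t := by
    have := (hbot t).1
    rw [movA, shadowPts_neg] at this
    have e : z + (-lo + t * -l1) • θ = z + (lo + t * l1) • -θ := by
      rw [smul_neg, ← neg_smul]; congr 2; ring
    rw [e]; exact this
  have hb2 : ∀ s : ℝ, z + s • θ ∈ movB y w g t → -lo + t * -l1 ≤ s := by
    intro s hs
    have := (hbot t).2 (-s) (by simpa using hs)
    linarith
  have hle : -lo + t * -l1 ≤ hi + t * l2 := (htop t).2 _ (movA_subset_movB ht hb1)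
  have hBI : {s : ℝ | z + s • θ ∈ movB y w g t} ⊆ Icc (-lo + t * -l1) (hi + t * l2) :=
    fun s hs => ⟨hb2 s hs, (htop t).2 s hs⟩
  have hIA : Icc (-lo + t * -l1) (hi + t * l2) ⊆ {s : ℝ | z + s • θ ∈ movA x a θ t} := by
    have hconv : Convex ℝ {s : ℝ | z + s • θ ∈ movA x a θ t} := by
      intro s1 h1 s2 h2 p q hp hq hpq
      have := convex_convexHull ℝ (range (shadowPts x a θ t)) h1 h2 hp hq hpq
      have e : z + (p • s1 + q • s2) • θ = p • (z + s1 • θ) + q • (z + s2 • θ) := by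
        simp only [smul_add, smul_smul, smul_eq_mul, add_smul]
        have : z = p • z + q • z := by rw [← add_smul, hpq, one_smul]
        conv_lhs => rw [this]
        abel
      rw [mem_ofPred_eq, e]
      exact this
    exact hconv.ordConnected.out hb1 (htop t).1
  have hAB : {s : ℝ | z + s • θ ∈ movA x a θ t} ⊆ {s : ℝ | z + s • θ ∈ movB y w g t} :=
    fun s hs => movA_subset_movB ht hs
  exact ⟨hle, Subset.antisymm (hAB.trans hBI) hIA, Subset.antisymm hBI (hIA.trans hAB)⟩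

theorem cyl_of_mem_movA [Fintype ι] {z : Fin n → ℝ} {s t : ℝ}
    (hz : z + s • θ ∈ movA x a θ t) : ∃ s : ℝ, z + s • θ ∈ convexHull ℝ (range x) := by
  obtain ⟨l, hl0, hl1, hl⟩ := (mem_hull_iff _ _).mp hz
  rw [sum_shadowPts] at hl
  refine ⟨s - t * ∑ i, l i * a i, (mem_hull_iff _ _).mpr ⟨l, hl0, hl1, ?_⟩⟩
  rw [sub_smul, ← add_sub_assoc, ← hl]; abel

theorem measurableSet_movA [Finite ι] (t : ℝ) : MeasurableSet (movA x a θ t) :=
  (isCompact_hull _).isClosed.measurableSet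

/-- The volume is affine on the set of good times. -/
theorem Adm.volume_affine [Fintype ι] [Finite κ] (h : Adm x y θ a w g) {t0 t1 t p q : ℝ}
    (h0 : t0 ∈ goodT x y θ a w g) (h1 : t1 ∈ goodT x y θ a w g) (ht : t ∈ goodT x y θ a w g)
    (hp : 0 ≤ p) (hq : 0 ≤ q) (hpq : p + q = 1) (htpq : t = p * t0 + q * t1) :
    volume (movA x a θ t) =
      ENNReal.ofReal p * volume (movA x a θ t0) + ENNReal.ofReal q * volume (movA x a θ t1) := by
  refine volume_eq_of_chords h.hθ (measurableSet_movA _) (measurableSet_movA _)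
    (measurableSet_movA _) _ _ fun z => ?_
  by_cases hz : ∃ s : ℝ, z + s • θ ∈ convexHull ℝ (range x)
  · obtain ⟨lo, l1, hi, l2, hc⟩ := h.chord hz
    rw [(hc t0 h0).2.1, (hc t1 h1).2.1, (hc t ht).2.1, Real.volume_Icc, Real.volume_Icc,
      Real.volume_Icc, ← ENNReal.ofReal_mul hp, ← ENNReal.ofReal_mul hq,
      ← ENNReal.ofReal_add (mul_nonneg hp (sub_nonneg.mpr (hc t0 h0).1))
        (mul_nonneg hq (sub_nonneg.mpr (hc t1 h1).1))]
    congr 1
    have hq' : q = 1 - p := by linarith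
    subst hq' htpq
    ring
  · have hemp : ∀ t, {s : ℝ | z + s • θ ∈ movA x a θ t} = ∅ := fun t =>
      eq_empty_of_forall_notMem fun s hs => hz (cyl_of_mem_movA hs)
    simp [hemp]

theorem Adm.zero_mem_goodT (h : Adm x y θ a w g) : (0 : ℝ) ∈ goodT x y θ a w g := by
  intro i j
  simpa [shadowPts_zero] using h.dot_le i j

/-- A point of the moving hull where all moving inequalities are strict is an interior point. -/
theorem Adm.mem_nhds [Fintype ι] [Finite κ] (h : Adm x y θ a w g) {t : ℝ}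
    (ht : t ∈ goodT x y θ a w g) (hopp : ∃ r : ℝ, 0 < r ∧ -(r * t) ∈ goodT x y θ a w g)
    {p : Fin n → ℝ} (hp : p ∈ movA x a θ t)
    (hstrict : ∀ j, (y j - t • w j) ⬝ᵥ p < 1 + t * g j) : movA x a θ t ∈ 𝓝 p := by
  have hB : movB y w g t ∈ 𝓝 p :=
    mem_interior_iff_mem_nhds.mp (mem_interior_of_lt (y := fun j => y j - t • w j)
      (b := fun j => 1 + t * g j) hstrict)
  obtain ⟨lo, l1, hi, l2, hc⟩ := h.chord (z := p) (cyl_of_mem_movA (s := 0) (by simpa using hp))
  -- the chord at time `t` has positive length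
  have hlen : lo + t * l1 < hi + t * l2 := by
    have hcont : Continuous fun s : ℝ => p + s • θ := by fun_prop
    have hmem : {s : ℝ | p + s • θ ∈ movB y w g t} ∈ 𝓝 (0 : ℝ) :=
      hcont.continuousAt.preimage_mem_nhds (by simpa using hB)
    rw [(hc t ht).2.2] at hmem
    obtain ⟨ε, hε, hball⟩ := Metric.mem_nhds_iff.mp hmem
    have e1 := hball (show ε / 2 ∈ Metric.ball (0 : ℝ) ε by
      rw [Metric.mem_ball, dist_zero_right, Real.norm_of_nonneg (by positivity)]; linarith)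
    have e2 := hball (Metric.mem_ball_self hε)
    linarith [e1.2, e2.1]
  have hlen0 : lo < hi := by
    obtain ⟨r, hr, hrT⟩ := hopp
    have e1 := (hc _ hrT).1
    have e2 : 0 < (1 + r) * (hi - lo) := by nlinarith
    have e3 : 0 < 1 + r := by linarith
    have := (mul_pos_iff_of_pos_left e3).mp e2
    linarith
  have hc0 := (hc 0 h.zero_mem_goodT).2.1
  simp only [zero_mul, add_zero, movA, shadowPts_zero, h.hP] at hc0
  have hmemP : ∀ s ∈ Icc lo hi, ∀ j, y j ⬝ᵥ (p + s • θ) ≤ 1 := fun s hs => by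
    rw [← hc0] at hs; exact hs
  have hmid : ∀ j, y j ⬝ᵥ (p + ((lo + hi) / 2) • θ) < 1 := by
    intro j
    have e1 := hmemP lo ⟨le_rfl, hlen0.le⟩ j
    have e2 := hmemP hi ⟨hlen0.le, le_rfl⟩ j
    simp only [dotProduct_add, dotProduct_smul, smul_eq_mul] at e1 e2 ⊢
    rcases lt_trichotomy (y j ⬝ᵥ θ) 0 with hlt | heq | hgt
    · nlinarith
    · have e3 := hstrict j
      rw [(h.hpar j heq).1, (h.hpar j heq).2] at e3
      simp only [smul_zero, sub_zero, mul_zero, add_zero] at e3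
      rw [heq]; linarith
    · nlinarith
  have hPn : convexHull ℝ (range x) ∈ 𝓝 (p + ((lo + hi) / 2) • θ) := by
    rw [h.hP]
    exact mem_interior_iff_mem_nhds.mp (mem_interior_of_lt (b := fun _ => 1) hmid)
  have hcont : Continuous fun q : Fin n → ℝ => q + ((lo + hi) / 2) • θ := by fun_prop
  have hcyl := hcont.continuousAt.preimage_mem_nhds hPn
  filter_upwards [hB, hcyl] with q hqB hqC
  obtain ⟨lo', l1', hi', l2', hc'⟩ := h.chord (z := q) ⟨_, hqC⟩
  have : (0 : ℝ) ∈ {s : ℝ | q + s • θ ∈ movB y w g t} := by simpa using hqB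
  rw [(hc' t ht).2.2, ← (hc' t ht).2.1] at this
  simpa using this

theorem Adm.movA_eq_movB [Fintype ι] [Finite κ] (h : Adm x y θ a w g) {t : ℝ}
    (ht : t ∈ goodT x y θ a w g) (hopp : ∃ r : ℝ, 0 < r ∧ -(r * t) ∈ goodT x y θ a w g)
    (hint : (interior (movA x a θ t)).Nonempty) : movA x a θ t = movB y w g t := by
  refine Subset.antisymm (movA_subset_movB ht) fun q hq => ?_
  obtain ⟨z0, hz0⟩ := hint
  have hz0s : ∀ j, (y j - t • w j) ⬝ᵥ z0 < 1 + t * g j := fun j =>
    lt_of_mem_interior (fun z hz => movA_subset_movB ht hz j) hz0 (h.nondeg t j)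
  have hcont : Continuous fun r : ℝ => z0 + r • (q - z0) := by fun_prop
  have hsub : Icc (0 : ℝ) 1 ⊆ {r : ℝ | z0 + r • (q - z0) ∈ movA x a θ t} := by
    refine IsClosed.Icc_subset_of_forall_mem_nhdsWithin
      (((isCompact_hull _).isClosed.preimage hcont).inter isClosed_Icc)
      (by simpa using interior_subset hz0) ?_
    rintro r ⟨hr, hr0, hr1⟩
    refine nhdsWithin_le_nhds (hcont.continuousAt.preimage_mem_nhds (h.mem_nhds ht hopp hr ?_))
    intro j
    have e1 := hz0s j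
    have e2 := hq j
    simp only [dotProduct_add, dotProduct_smul, dotProduct_sub, smul_eq_mul]
    nlinarith
  simpa using hsub ⟨zero_le_one, le_rfl⟩

end Pool.Agent.MP_5f4cdd_gt

end

section

set_option autoImplicit false
open Set

namespace Pool.Agent.MP_5f4cdd_gt

variable {ι κ : Type}

theorem dep3 {d1 d2 d3 l : Fin 3 → ℝ} (hl : l ≠ 0) (h1 : d1 ⬝ᵥ l = 0) (h2 : d2 ⬝ᵥ l = 0)
    (h3 : d3 ⬝ᵥ l = 0) :
    ∃ c1 c2 c3 : ℝ, (c1 ≠ 0 ∨ c2 ≠ 0 ∨ c3 ≠ 0) ∧ c1 • d1 + c2 • d2 + c3 • d3 = 0 := by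
  let M : Matrix (Fin 3) (Fin 3) ℝ := Matrix.of ![d1, d2, d3]
  have hdet : M.det = 0 := by
    refine Matrix.exists_mulVec_eq_zero_iff.mp ⟨l, hl, ?_⟩
    ext k
    fin_cases k
    · exact h1
    · exact h2
    · exact h3
  obtain ⟨c, hc0, hc⟩ := Matrix.exists_vecMul_eq_zero_iff.mpr hdet
  refine ⟨c 0, c 1, c 2, ?_, ?_⟩
  · by_contra hcon
    push Not at hcon
    refine hc0 (funext fun k => ?_)
    fin_cases k
    · exact hcon.1
    · exact hcon.2.1
    · exact hcon.2.2
  · ext k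
    have := congrFun hc k
    simpa [M, Matrix.vecMul, dotProduct, Fin.sum_univ_three] using this

theorem exists_generic {n : ℕ} [Finite ι] {x : ι → Fin n → ℝ} (hx : Function.Injective x) :
    ∃ l : Fin n → ℝ, Function.Injective fun i => l ⬝ᵥ x i := by
  obtain ⟨f, hf⟩ := Module.exists_dual_forall_apply_ne_zero (K := ℝ)
    (fun p : {p : ι × ι // p.1 ≠ p.2} => x p.1.1 - x p.1.2)
    (fun p => sub_ne_zero.mpr (hx.ne p.2))
  obtain ⟨l, hl⟩ := exists_dot_eq f
  refine ⟨l, fun i k hik => ?_⟩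
  by_contra hne
  have := hf ⟨(i, k), hne⟩
  rw [hl, dotProduct_sub] at this
  exact this (sub_eq_zero.mpr hik)

/-- `i` is a middle vertex of the facet `j` for the height function `l`. -/
def IsMid (x : ι → Fin 3 → ℝ) (y : κ → Fin 3 → ℝ) (l : Fin 3 → ℝ) (i : ι) (j : κ) : Prop :=
  y j ⬝ᵥ x i = 1 ∧ (∃ p, y j ⬝ᵥ x p = 1 ∧ l ⬝ᵥ x p < l ⬝ᵥ x i) ∧
    ∃ q, y j ⬝ᵥ x q = 1 ∧ l ⬝ᵥ x i < l ⬝ᵥ x q

variable {x : ι → Fin 3 → ℝ} {y : κ → Fin 3 → ℝ} {l : Fin 3 → ℝ}

theorem IsMid.exists_dir (h : DualPair x y) (hy : Function.Injective y) {i : ι}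
    (hi : x i ∈ (convexHull ℝ (range x)).extremePoints ℝ) {j : κ} (hm : IsMid x y l i j) :
    ∃ d : Fin 3 → ℝ, d ⬝ᵥ l = 0 ∧ y j ⬝ᵥ d = 0 ∧ ∀ k, k ≠ j → y k ⬝ᵥ x i = 1 → y k ⬝ᵥ d < 0 := by
  obtain ⟨hij, ⟨p, hp, hlp⟩, ⟨q, hq, hlq⟩⟩ := hm
  have hden : 0 < l ⬝ᵥ x q - l ⬝ᵥ x p := by linarith
  set s := (l ⬝ᵥ x q - l ⬝ᵥ x i) / (l ⬝ᵥ x q - l ⬝ᵥ x p) with hs
  set t := (l ⬝ᵥ x i - l ⬝ᵥ x p) / (l ⬝ᵥ x q - l ⬝ᵥ x p) with ht
  have hs0 : 0 < s := div_pos (by linarith) hden
  have ht0 : 0 < t := div_pos (by linarith) hden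
  have hst : s + t = 1 := by rw [hs, ht]; field_simp; ring
  have hld : l ⬝ᵥ (s • x p + t • x q - x i) = 0 := by
    simp only [dotProduct_sub, dotProduct_add, dotProduct_smul, smul_eq_mul]
    rw [hs, ht]; field_simp; ring
  have hjd : y j ⬝ᵥ (s • x p + t • x q - x i) = 0 := by
    simp only [dotProduct_sub, dotProduct_add, dotProduct_smul, smul_eq_mul, hij, hp, hq]
    linarith
  have hd : s • x p + t • x q - x i ≠ 0 := by
    intro h0
    have := (mem_extremePoints.mp hi).2 _ (subset_convexHull ℝ _ (mem_range_self p)) _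
      (subset_convexHull ℝ _ (mem_range_self q)) ⟨s, t, hs0, ht0, hst, sub_eq_zero.mp h0⟩
    rw [this.1] at hlp
    exact lt_irrefl _ hlp
  refine ⟨s • x p + t • x q - x i, by rw [dotProduct_comm]; exact hld, hjd, fun k hkj hki => ?_⟩
  have ep := h.dot_le p k
  have eq := h.dot_le q k
  have hval : y k ⬝ᵥ (s • x p + t • x q - x i) = s * (y k ⬝ᵥ x p - 1) + t * (y k ⬝ᵥ x q - 1) := by
    simp only [dotProduct_sub, dotProduct_add, dotProduct_smul, smul_eq_mul, hki]
    linarith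
  have e1 : s * (y k ⬝ᵥ x p - 1) ≤ 0 := by nlinarith
  have e2 : t * (y k ⬝ᵥ x q - 1) ≤ 0 := by nlinarith
  refine lt_of_le_of_ne (by linarith) fun h0 => ?_
  have hkp : y k ⬝ᵥ x p = 1 := by
    have : s * (y k ⬝ᵥ x p - 1) = 0 := by linarith
    rcases mul_eq_zero.mp this with h | h
    · exact absurd h hs0.ne'
    · linarith
  obtain ⟨c1, c2, c3, hc, hsum⟩ := dep3 hd hjd h0 hld
  have f1 := congrArg (· ⬝ᵥ x p) hsum
  have f2 := congrArg (· ⬝ᵥ x i) hsum
  simp only [add_dotProduct, smul_dotProduct, smul_eq_mul, zero_dotProduct, hp, hkp, hij, hki]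
    at f1 f2
  have hc3 : c3 = 0 := by
    have : c3 * (l ⬝ᵥ x i - l ⬝ᵥ x p) = 0 := by linarith
    rcases mul_eq_zero.mp this with h | h
    · exact h
    · linarith
  have hc2 : c2 = -c1 := by rw [hc3] at f1; linarith
  rw [hc3, hc2] at hsum hc
  have hc1 : c1 ≠ 0 := by
    rcases hc with h | h | h
    · exact h
    · exact neg_ne_zero.mp h
    · exact absurd rfl h
  have : c1 • (y j - y k) = 0 := by rw [← hsum]; module
  rcases smul_eq_zero.mp this with h | h
  · exact hc1 h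
  · exact hkj (hy (sub_eq_zero.mp h)).symm

open Classical in
theorem card_mid_le_two [Fintype κ] (h : DualPair x y) (hy : Function.Injective y) {i : ι}
    (hi : x i ∈ (convexHull ℝ (range x)).extremePoints ℝ) :
    (Finset.univ.filter fun j => IsMid x y l i j).card ≤ 2 := by
  by_contra hcon
  obtain ⟨j1, h1, j2, h2, j3, h3, n12, n13, n23⟩ := Finset.two_lt_card.mp (not_le.mp hcon)
  simp only [Finset.mem_filter, Finset.mem_univ, true_and] at h1 h2 h3
  have hl : l ≠ 0 := by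
    rintro rfl
    obtain ⟨_, ⟨p, _, hp⟩, _⟩ := h1
    simp at hp
  obtain ⟨d1, a1, b1, e1⟩ := h1.exists_dir h hy hi
  obtain ⟨d2, a2, b2, e2⟩ := h2.exists_dir h hy hi
  obtain ⟨d3, a3, b3, e3⟩ := h3.exists_dir h hy hi
  obtain ⟨c1, c2, c3, hc, hsum⟩ := dep3 hl a1 a2 a3
  have f1 := congrArg (y j1 ⬝ᵥ ·) hsum
  have f2 := congrArg (y j2 ⬝ᵥ ·) hsum
  have f3 := congrArg (y j3 ⬝ᵥ ·) hsum
  simp only [dotProduct_add, dotProduct_smul, smul_eq_mul, dotProduct_zero, b1, b2, b3,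
    mul_zero, zero_add, add_zero] at f1 f2 f3
  have p12 := e2 j1 n12 h1.1
  have p13 := e3 j1 n13 h1.1
  have p21 := e1 j2 n12.symm h2.1
  have p23 := e3 j2 n23 h2.1
  have p31 := e1 j3 n13.symm h3.1
  have p32 := e2 j3 n23.symm h3.1
  have key : ∀ {u v A B : ℝ}, A < 0 → B < 0 → u * A + v * B = 0 →
      (u = 0 ∧ v = 0) ∨ (0 < u ∧ v < 0) ∨ (u < 0 ∧ 0 < v) := by
    intro u v A B hA hB huv
    rcases lt_trichotomy u 0 with hu | hu | hu
    · right; right
      refine ⟨hu, ?_⟩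
      by_contra hv
      nlinarith [mul_pos_of_neg_of_neg hu hA, mul_nonneg_of_nonpos_of_nonpos (not_lt.mp hv) hB.le]
    · left
      refine ⟨hu, ?_⟩
      rw [hu, zero_mul, zero_add] at huv
      exact (mul_eq_zero.mp huv).resolve_right hB.ne
    · right; left
      refine ⟨hu, ?_⟩
      by_contra hv
      nlinarith [mul_neg_of_pos_of_neg hu hA, mul_nonpos_of_nonneg_of_nonpos (not_lt.mp hv) hB.le]
  rcases key p12 p13 f1 with g1 | g1 | g1 <;> rcases key p21 p23 f2 with g2 | g2 | g2 <;>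
    rcases key p31 p32 f3 with g3 | g3 | g3 <;>
    first
      | (rcases hc with hc | hc | hc
         · exact hc g2.1
         · exact hc g1.1
         · exact hc g1.2)
      | linarith [g1.1, g1.2, g2.1, g2.2, g3.1, g3.2]

open Classical in
theorem card_inc_le_mid [Fintype ι] (hl : Function.Injective fun i => l ⬝ᵥ x i) (j : κ) :
    (Finset.univ.filter fun i => y j ⬝ᵥ x i = 1).card ≤
      (Finset.univ.filter fun i => IsMid x y l i j).card + 2 := by
  set A := Finset.univ.filter fun i => y j ⬝ᵥ x i = 1 ∧ ∀ p, y j ⬝ᵥ x p = 1 → l ⬝ᵥ x i ≤ l ⬝ᵥ x p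
  set B := Finset.univ.filter fun i => y j ⬝ᵥ x i = 1 ∧ ∀ p, y j ⬝ᵥ x p = 1 → l ⬝ᵥ x p ≤ l ⬝ᵥ x i
  have hA : A.card ≤ 1 := Finset.card_le_one.mpr fun a ha b hb => by
    simp only [A, Finset.mem_filter, Finset.mem_univ, true_and] at ha hb
    exact hl (le_antisymm (ha.2 b hb.1) (hb.2 a ha.1))
  have hB : B.card ≤ 1 := Finset.card_le_one.mpr fun a ha b hb => by
    simp only [B, Finset.mem_filter, Finset.mem_univ, true_and] at ha hb
    exact hl (le_antisymm (hb.2 a ha.1) (ha.2 b hb.1))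
  have hsub : (Finset.univ.filter fun i => y j ⬝ᵥ x i = 1) ⊆
      (Finset.univ.filter fun i => IsMid x y l i j) ∪ (A ∪ B) := by
    intro i hi
    simp only [A, B, Finset.mem_filter, Finset.mem_univ, true_and, Finset.mem_union] at hi ⊢
    by_cases h1 : ∃ p, y j ⬝ᵥ x p = 1 ∧ l ⬝ᵥ x p < l ⬝ᵥ x i
    · by_cases h2 : ∃ q, y j ⬝ᵥ x q = 1 ∧ l ⬝ᵥ x i < l ⬝ᵥ x q
      · exact Or.inl ⟨hi, h1, h2⟩
      · push Not at h2
        exact Or.inr (Or.inr ⟨hi, h2⟩)
    · push Not at h1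
      exact Or.inr (Or.inl ⟨hi, h1⟩)
  have := Finset.card_le_card hsub
  have h2 := Finset.card_union_le (Finset.univ.filter fun i => IsMid x y l i j) (A ∪ B)
  have h3 := Finset.card_union_le A B
  omega

open Classical in
/-- Euler's inequality for the number of vertex-facet incidences of a 3-polytope. -/
theorem euler_ineq [Fintype ι] [Fintype κ] [Nontrivial ι] (h : DualPair x y)
    (hx : Function.Injective x) (hy : Function.Injective y)
    (hext : ∀ i, x i ∈ (convexHull ℝ (range x)).extremePoints ℝ) :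
    ∑ j, (Finset.univ.filter fun i => y j ⬝ᵥ x i = 1).card + 4 ≤
      2 * Fintype.card ι + 2 * Fintype.card κ := by
  obtain ⟨l, hl⟩ := exists_generic hx
  obtain ⟨imin, hmin⟩ := Finite.exists_min fun i => l ⬝ᵥ x i
  obtain ⟨imax, hmax⟩ := Finite.exists_max fun i => l ⬝ᵥ x i
  have hne : imin ≠ imax := by
    rintro rfl
    obtain ⟨k, hk⟩ := exists_ne imin
    exact hk (hl (le_antisymm (hmax k) (hmin k)))
  have h1 : ∑ j, (Finset.univ.filter fun i => y j ⬝ᵥ x i = 1).card ≤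
      ∑ j, ((Finset.univ.filter fun i => IsMid x y l i j).card + 2) :=
    Finset.sum_le_sum fun j _ => card_inc_le_mid hl j
  rw [Finset.sum_add_distrib, Finset.sum_const, Finset.card_univ, smul_eq_mul] at h1
  have h2 : ∑ j, (Finset.univ.filter fun i => IsMid x y l i j).card =
      ∑ i, (Finset.univ.filter fun j => IsMid x y l i j).card := by
    simp only [Finset.card_filter]
    exact Finset.sum_comm
  have h3 : ∑ i, (Finset.univ.filter fun j => IsMid x y l i j).card ≤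
      ∑ i ∈ (Finset.univ.erase imin).erase imax, 2 := by
    rw [← Finset.sum_subset (s₁ := (Finset.univ.erase imin).erase imax) (Finset.subset_univ _)]
    · exact Finset.sum_le_sum fun i _ => card_mid_le_two h hy (hext i)
    · intro i _ hi
      rw [Finset.card_eq_zero, Finset.filter_eq_empty_iff]
      intro j _ hm
      simp only [Finset.mem_erase, Finset.mem_univ, and_true, not_and_or, not_not] at hi
      rcases hi with rfl | rfl
      · obtain ⟨_, _, q, _, hq⟩ := hm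
        exact absurd (hmax q) (not_le.mpr hq)
      · obtain ⟨_, ⟨p, _, hp⟩, _⟩ := hm
        exact absurd (hmin p) (not_le.mpr hp)
  rw [Finset.sum_const, Finset.card_erase_of_mem (by simp [hne.symm]),
    Finset.card_erase_of_mem (by simp), Finset.card_univ, smul_eq_mul] at h3
  have h4 : 1 < Fintype.card ι := Fintype.one_lt_card
  omega

end Pool.Agent.MP_5f4cdd_gt

end
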