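import Pool.Agent.MP_5f4cdd_gt.FlowDefs
import Pool.Agent.MP_5f4cdd_gt.DefsInf
import Pool.Agent.Mg.F5f4cdd.Gb7ecc9
import Pool.Agent.Mg.F5f4cdd.Gcd146b

section

set_option autoImplicit false
open MeasureTheory Set ENNReal

namespace Pool.Agent.MP_5f4cdd_gt

/-- Component (A) at `p = ∞`: local minimality of the simplex with a linear gain. -/
def StmtAinf (n : ℕ) : Prop :=
  ∃ ε κ : ℝ, 0 < ε ∧ 0 < κ ∧ ∀ K : Set (Fin n → ℝ),
    Convex ℝ K → IsCompact K → (interior K).Nonempty →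
    ∀ e : AffineEquiv ℝ (Fin n → ℝ) (Fin n → ℝ), K ⊆ e '' stdS n →
    (1 - ε) * (volume (e '' stdS n)).toReal ≤ (volume K).toReal →
    ∃ e' : AffineEquiv ℝ (Fin n → ℝ) (Fin n → ℝ), K ⊆ e' '' stdS n ∧
      ENNReal.ofReal (1 + κ * (1 - (volume K).toReal / (volume (e' '' stdS n)).toReal)) *
        mahlerInf (cS n 1) ≤ mahlerInf K

/-- Component (B): Meyer-Reisner convexity for shadow systems of polytopes, three-point form
with explicit centres. -/
def StmtB (n : ℕ) : Prop :=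
  ∀ (ι : Type) [Finite ι] (x : ι → Fin n → ℝ) (a : ι → ℝ) (θ : Fin n → ℝ) (t₀ t₁ l : ℝ),
    θ ≠ 0 → 0 < l → l < 1 →
    (interior (convexHull ℝ (range (shadowPts x a θ t₀)))).Nonempty →
    (interior (convexHull ℝ (range (shadowPts x a θ t₁)))).Nonempty →
    ∀ c ∈ interior (convexHull ℝ (range (shadowPts x a θ (l * t₀ + (1 - l) * t₁)))),
      ∃ c₀ ∈ interior (convexHull ℝ (range (shadowPts x a θ t₀))),
      ∃ c₁ ∈ interior (convexHull ℝ (range (shadowPts x a θ t₁))),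
        (volume {w | ∀ i, (shadowPts x a θ (l * t₀ + (1 - l) * t₁) i - c) ⬝ᵥ w ≤ 1}).toReal⁻¹ ≤
          l * (volume {w | ∀ i, (shadowPts x a θ t₀ i - c₀) ⬝ᵥ w ≤ 1}).toReal⁻¹ +
          (1 - l) * (volume {w | ∀ i, (shadowPts x a θ t₁ i - c₁) ⬝ᵥ w ≤ 1}).toReal⁻¹

/-- Two-sided version of `HasFlow`: there are more incidences at BOTH ends of the interval. -/
def HasFlow2 {n : ℕ} {ι κ : Type} (x : ι → Fin n → ℝ) (y : κ → Fin n → ℝ) : Prop :=
  ∃ (x' : ι → Fin n → ℝ) (a : ι → ℝ) (θ : Fin n → ℝ) (δ τ α β : ℝ),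
    0 < δ ∧ 0 < τ ∧ θ ≠ 0 ∧ convexHull ℝ (range x') = convexHull ℝ (range x) ∧
    ∀ t ∈ Icc (-δ) τ,
      (volume (convexHull ℝ (range (shadowPts x' a θ t)))).toReal = α + β * t ∧
      (interior (convexHull ℝ (range (shadowPts x' a θ t)))).Nonempty ∧
      ∀ c ∈ interior (convexHull ℝ (range (shadowPts x' a θ t))),
        ∃ y' : κ → Fin n → ℝ, DualPair (fun i => shadowPts x' a θ t i - c) y' ∧
          (t = τ ∨ t = -δ → nInc x y < nInc (fun i => shadowPts x' a θ t i - c) y')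

/-- Components (C), (D), two-sided form. -/
def StmtCD2 : Prop :=
  ∀ (ι κ : Type) [Finite ι] [Finite κ] (x : ι → Fin 3 → ℝ) (y : κ → Fin 3 → ℝ), DualPair x y →
    (∃ e : AffineEquiv ℝ (Fin 3 → ℝ) (Fin 3 → ℝ), convexHull ℝ (range x) = e '' stdS 3) ∨
      HasFlow2 x y ∨ HasFlow2 y x

/-- Components (C), (D), one-sided form. -/
def StmtCD : Prop :=
  ∀ (ι κ : Type) [Finite ι] [Finite κ] (x : ι → Fin 3 → ℝ) (y : κ → Fin 3 → ℝ), DualPair x y →
    (∃ e : AffineEquiv ℝ (Fin 3 → ℝ) (Fin 3 → ℝ), convexHull ℝ (range x) = e '' stdS 3) ∨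
      HasFlow x y ∨ HasFlow y x

end Pool.Agent.MP_5f4cdd_gt

end

section

set_option autoImplicit false
open MeasureTheory Set Filter Topology
open scoped ENNReal

namespace Pool.Agent.MP_5f4cdd_gt

variable {n : ℕ} {ι κ : Type}

/-- Speeds that are the restriction of one affine function. -/
def TrivSpeed (x : ι → Fin n → ℝ) (a : ι → ℝ) : Prop :=
  ∃ (u : Fin n → ℝ) (c : ℝ), ∀ i, a i = u ⬝ᵥ x i + c

theorem exists_hyperplane_of_interior_empty {S : Set (Fin n → ℝ)} (hS : Convex ℝ S)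
    (hne : S.Nonempty) (h : ¬ (interior S).Nonempty) :
    ∃ (v : Fin n → ℝ) (b : ℝ), v ≠ 0 ∧ ∀ z ∈ S, v ⬝ᵥ z = b := by
  rw [hS.interior_nonempty_iff_affineSpan_eq_top] at h
  obtain ⟨p, hp⟩ := hne
  have hdir : (affineSpan ℝ S).direction < ⊤ := by
    rw [lt_top_iff_ne_top]
    intro hd
    exact h ((AffineSubspace.direction_eq_top_iff_of_nonempty
      ⟨p, subset_affineSpan ℝ S hp⟩).mp hd)
  obtain ⟨f, hf0, hf⟩ := Submodule.exists_le_ker_of_lt_top _ hdir
  obtain ⟨v, hv⟩ := exists_dot_eq f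
  refine ⟨v, v ⬝ᵥ p, ?_, fun z hz => ?_⟩
  · rintro rfl
    exact hf0 (LinearMap.ext fun z => by simp [hv])
  · have := hf (AffineSubspace.vsub_mem_direction (subset_affineSpan ℝ S hz)
      (subset_affineSpan ℝ S hp))
    rw [LinearMap.mem_ker, hv, vsub_eq_sub, dotProduct_sub] at this
    linarith

theorem interior_shadow_nonempty {x : ι → Fin n → ℝ} {a : ι → ℝ}
    (hx : (interior (convexHull ℝ (range x))).Nonempty) (ha : ¬ TrivSpeed x a)
    (θ : Fin n → ℝ) (t : ℝ) : (interior (convexHull ℝ (range (shadowPts x a θ t)))).Nonempty := by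
  by_contra hcon
  obtain ⟨c, hc⟩ := hx
  have hι : Nonempty ι := by
    by_contra hne
    rw [not_nonempty_iff] at hne
    have := interior_subset hc
    rw [range_eq_empty, convexHull_empty] at this
    exact this
  obtain ⟨v, b, hv, hb⟩ := exists_hyperplane_of_interior_empty (convex_convexHull ℝ _)
    (convexHull_nonempty_iff.mpr (range_nonempty _)) hcon
  have hb' : ∀ i, v ⬝ᵥ x i + t * a i * (v ⬝ᵥ θ) = b := fun i => by
    have := hb _ (subset_convexHull ℝ _ (mem_range_self i))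
    simpa [shadowPts] using this
  by_cases h0 : t * (v ⬝ᵥ θ) = 0
  · have hb'' : ∀ i, v ⬝ᵥ x i = b := fun i => by
      have := hb' i
      rw [mul_right_comm, h0, zero_mul, add_zero] at this
      exact this
    have e1 := lt_of_mem_interior (v := v) (b := b)
      (fun z hz => dot_le_of_mem_hull (fun i => (hb'' i).le) hz) hc (Or.inl hv)
    have e2 := lt_of_mem_interior (v := -v) (b := -b)
      (fun z hz => dot_le_of_mem_hull (fun i => by simp [hb'' i]) hz) hc
      (Or.inl (neg_ne_zero.mpr hv))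
    rw [neg_dotProduct] at e2
    linarith
  · refine ha ⟨-(t * (v ⬝ᵥ θ))⁻¹ • v, (t * (v ⬝ᵥ θ))⁻¹ * b, fun i => ?_⟩
    rw [smul_dotProduct, smul_eq_mul, ← hb' i]
    have ht : t ≠ 0 := left_ne_zero_of_mul h0
    have hv : v ⬝ᵥ θ ≠ 0 := right_ne_zero_of_mul h0
    field_simp
    ring

variable {x : ι → Fin n → ℝ} {y : κ → Fin n → ℝ} {θ : Fin n → ℝ} {a : ι → ℝ}
  {w : κ → Fin n → ℝ} {g : κ → ℝ}

theorem Adm.exists_slope_ne [Finite ι] (h : Adm x y θ a w g) (ha : ¬ TrivSpeed x a) :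
    ∃ i j, g j + w j ⬝ᵥ x i - a i * (y j ⬝ᵥ θ) ≠ 0 := by
  by_contra hcon
  push Not at hcon
  have hj : ∃ j, y j ⬝ᵥ θ ≠ 0 := by
    by_contra hj
    push Not at hj
    refine h.hθ (eq_zero_of_ray_mem (isCompact_hull x).isBounded (z := 0) fun s _ => ?_)
    rw [h.hP]; intro j
    simp [hj j]
  obtain ⟨j, hj⟩ := hj
  refine ha ⟨(y j ⬝ᵥ θ)⁻¹ • w j, (y j ⬝ᵥ θ)⁻¹ * g j, fun i => ?_⟩
  rw [smul_dotProduct, smul_eq_mul]
  have := hcon i j
  field_simp
  linarith

theorem Adm.hasFlow_of_neg [Fintype ι] [Finite κ] [Nonempty κ] (h : Adm x y θ a w g)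
    (ha : ¬ TrivSpeed x a) (hneg : ∃ i j, g j + w j ⬝ᵥ x i - a i * (y j ⬝ᵥ θ) < 0) :
    HasFlow x y := by
  classical
  set σ : ι × κ → ℝ := fun p => g p.2 + w p.2 ⬝ᵥ x p.1 - a p.1 * (y p.2 ⬝ᵥ θ) with hσ
  set s : ι × κ → ℝ := fun p => 1 - y p.2 ⬝ᵥ x p.1 with hs
  have hs0 : ∀ p, 0 ≤ s p := fun p => sub_nonneg.mpr (h.dot_le p.1 p.2)
  have hsσ : ∀ p, s p = 0 → σ p = 0 := fun p hp => by
    have := h.hinc p.1 p.2 (by simp only [hs] at hp; linarith)
    simp only [hσ]; linarith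
  have hspos : ∀ p, σ p ≠ 0 → 0 < s p := fun p hp =>
    lt_of_le_of_ne (hs0 p) fun h0 => hp (hsσ p h0.symm)
  obtain ⟨p0, hp0, hmin⟩ := Set.exists_min_image {p | σ p < 0} (fun p => s p / -σ p)
    (toFinite _) (by obtain ⟨i, j, hij⟩ := hneg; exact ⟨(i, j), hij⟩)
  have hp0' : σ p0 < 0 := hp0
  set τ := s p0 / -σ p0 with hτ
  have hτpos : 0 < τ := div_pos (hspos _ hp0'.ne) (by linarith)
  have hev : ∀ᶠ δ in 𝓝[>] (0 : ℝ), ∀ p, 0 ≤ s p - δ * σ p := by
    rw [eventually_all]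
    intro p
    by_cases hp : σ p = 0
    · exact Eventually.of_forall fun δ => by simp [hp, hs0 p]
    · have hc : Continuous fun δ : ℝ => s p - δ * σ p := by fun_prop
      have hlt : 0 < s p - 0 * σ p := by simpa using hspos p hp
      exact ((hc.tendsto 0).eventually (lt_mem_nhds hlt)).filter_mono nhdsWithin_le_nhds
          |>.mono fun ε hε => hε.le
  obtain ⟨δ, hδ1, hδ2⟩ := (hev.and self_mem_nhdsWithin).exists
  have hδ : 0 < δ := hδ2
  have hslack : ∀ t ∈ Icc (-δ) τ, ∀ p, 0 ≤ s p + t * σ p := by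
    intro t ht p
    rcases lt_or_ge (σ p) 0 with hlt | hge
    · have e1 : τ ≤ s p / -σ p := hmin p hlt
      rw [le_div_iff₀ (by linarith)] at e1
      nlinarith [ht.2]
    · nlinarith [ht.1, hδ1 p]
  have hgood : ∀ t ∈ Icc (-δ) τ, t ∈ goodT x y θ a w g := by
    intro t ht i j
    have e1 := h.slack t i j
    have e2 := hslack t ht (i, j)
    simp only [hs, hσ] at e2
    linarith
  have hsum : 0 < τ + δ := by linarith
  set V0 := (volume (movA x a θ (-δ))).toReal
  set V1 := (volume (movA x a θ τ)).toReal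
  have hint0 : (interior (convexHull ℝ (range x))).Nonempty := by
    rw [h.hP]
    exact ⟨0, mem_interior_of_lt (b := fun _ => 1) fun j => by simp⟩
  refine ⟨x, a, θ, δ, τ, V0 + δ * ((V1 - V0) / (τ + δ)), (V1 - V0) / (τ + δ), hδ, hτpos, h.hθ, rfl,
    fun t ht => ⟨?_, interior_shadow_nonempty hint0 ha θ t, fun c hc => ?_⟩⟩
  · have hp : 0 ≤ (τ - t) / (τ + δ) := div_nonneg (by linarith [ht.2]) hsum.le
    have hq : 0 ≤ (t + δ) / (τ + δ) := div_nonneg (by linarith [ht.1]) hsum.le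
    have := h.volume_affine (hgood _ ⟨le_rfl, by linarith⟩) (hgood _ ⟨by linarith, le_rfl⟩)
      (hgood t ht) hp hq (by field_simp; ring) (by field_simp; ring)
    change (volume (movA x a θ t)).toReal = _
    have f0 : volume (movA x a θ (-δ)) ≠ ⊤ := (isCompact_hull _).measure_lt_top.ne
    have f1 : volume (movA x a θ τ) ≠ ⊤ := (isCompact_hull _).measure_lt_top.ne
    rw [this, ENNReal.toReal_add (ENNReal.mul_ne_top ENNReal.ofReal_ne_top f0)
      (ENNReal.mul_ne_top ENNReal.ofReal_ne_top f1), ENNReal.toReal_mul, ENNReal.toReal_mul,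
      ENNReal.toReal_ofReal hp, ENNReal.toReal_ofReal hq]
    change _ * V0 + _ * V1 = _
    field_simp
    ring
  · have hopp : ∃ r : ℝ, 0 < r ∧ -(r * t) ∈ goodT x y θ a w g := by
      have hm : 0 < min δ τ := lt_min hδ hτpos
      refine ⟨min δ τ / (τ + δ), div_pos hm hsum, hgood _ ⟨?_, ?_⟩⟩
      · rw [neg_le_neg_iff, div_mul_eq_mul_div, div_le_iff₀ hsum]
        nlinarith [min_le_left δ τ, ht.2]
      · rw [neg_le, div_mul_eq_mul_div, le_div_iff₀ hsum]
        nlinarith [min_le_right δ τ, ht.1]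
    have hAB := h.movA_eq_movB (hgood t ht) hopp ⟨c, hc⟩
    obtain ⟨y', hy1, hy2⟩ := exists_dualPair_sub (x := shadowPts x a θ t)
      (y := fun j => y j - t • w j) (b := fun j => 1 + t * g j) hAB (h.nondeg t) hc
    refine ⟨y', hy1, fun htτ => ?_⟩
    have hiff : ∀ p : ι × κ, (shadowPts x a θ t p.1 - c) ⬝ᵥ y' p.2 = 1 ↔ s p + t * σ p = 0 := by
      intro p
      rw [hy2]
      have e1 := h.slack t p.1 p.2
      simp only [hs, hσ]
      constructor <;> intro e <;> linarith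
    unfold nInc
    refine Set.ncard_lt_ncard ⟨fun p hp => ?_, fun hsub => ?_⟩
    · rw [mem_ofPred_eq, hiff]
      have e1 : s p = 0 := by
        rw [mem_ofPred_eq, dotProduct_comm] at hp
        simp only [hs]; linarith
      rw [e1, hsσ p e1]; simp
    · have e1 : s p0 + t * σ p0 = 0 := by
        rw [htτ, hτ]
        have := hp0'.ne
        field_simp
        ring
      have e2 := hsub ((hiff p0).mpr e1)
      rw [mem_ofPred_eq, dotProduct_comm] at e2
      have e3 := hspos p0 hp0'.ne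
      simp only [hs] at e3
      linarith

theorem Adm.hasFlow [Finite ι] [Finite κ] [Nonempty κ] (h : Adm x y θ a w g)
    (ha : ¬ TrivSpeed x a) : HasFlow x y := by
  have := Fintype.ofFinite ι
  obtain ⟨i, j, hij⟩ := h.exists_slope_ne ha
  rcases lt_or_gt_of_ne hij with hlt | hgt
  · exact h.hasFlow_of_neg ha ⟨i, j, hlt⟩
  · refine h.flip.hasFlow_of_neg ?_ ⟨i, j, ?_⟩
    · rintro ⟨u, c, hu⟩
      exact ha ⟨-u, -c, fun i => by
        have := hu i
        simp only [Pi.neg_apply, neg_dotProduct] at this ⊢; linarith⟩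
    · simp only [Pi.neg_apply, neg_dotProduct]; linarith

/-- Speeds that are linear on the points of every facet not parallel to `θ`, and not globally
affine, give a useful flow. -/
theorem hasFlow_of_admissible [Finite ι] [Finite κ] (h : DualPair x y) (hθ : θ ≠ 0)
    (hadm : ∀ j, y j ⬝ᵥ θ ≠ 0 → ∃ u : Fin n → ℝ, ∀ i, y j ⬝ᵥ x i = 1 → a i = u ⬝ᵥ x i)
    (ha : ¬ TrivSpeed x a) : HasFlow x y := by
  classical
  have := h.symm.nonempty_left
  choose! u hu using hadm
  refine Adm.hasFlow (θ := θ) (a := a)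
    (w := fun j => if y j ⬝ᵥ θ = 0 then 0 else (y j ⬝ᵥ θ) • u j - (u j ⬝ᵥ θ) • y j)
    (g := fun j => if y j ⬝ᵥ θ = 0 then 0 else u j ⬝ᵥ θ) ⟨h.1, hθ, ?_, ?_, ?_⟩ ha
  · intro j
    split_ifs with hj
    · simp
    · simp only [sub_dotProduct, smul_dotProduct, smul_eq_mul]; ring
  · intro i j hij
    split_ifs with hj
    · simp [hj]
    · simp only [sub_dotProduct, smul_dotProduct, smul_eq_mul, hij, hu j hj i hij]; ring
  · intro j hj
    simp [hj]

theorem HasFlow.mono {x' : ι → Fin n → ℝ} {y' : κ → Fin n → ℝ} (h : HasFlow x' y')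
    (hx : convexHull ℝ (range x') = convexHull ℝ (range x)) (hinc : nInc x y ≤ nInc x' y') :
    HasFlow x y := by
  obtain ⟨x'', a, θ, δ, τ, α, β, h1, h2, h3, h4, h5⟩ := h
  refine ⟨x'', a, θ, δ, τ, α, β, h1, h2, h3, h4.trans hx, fun t ht => ⟨(h5 t ht).1, (h5 t ht).2.1,
    fun c hc => ?_⟩⟩
  obtain ⟨y'', e1, e2⟩ := (h5 t ht).2.2 c hc
  exact ⟨y'', e1, fun h => hinc.trans_lt (e2 h)⟩

end Pool.Agent.MP_5f4cdd_gt

end

section

set_option autoImplicit false
open Set Filter Topology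

namespace Pool.Agent.MP_5f4cdd_gt

variable {ι κ : Type}

/-- At an extreme point of the polar body the incident points span the space. -/
theorem eq_zero_of_extreme {n : ℕ} [Finite ι] {x : ι → Fin n → ℝ} {y : κ → Fin n → ℝ}
    (h : DualPair x y) {j : κ} (hj : y j ∈ (convexHull ℝ (range y)).extremePoints ℝ)
    {u : Fin n → ℝ} (hu : ∀ i, y j ⬝ᵥ x i = 1 → u ⬝ᵥ x i = 0) : u = 0 := by
  have hev : ∀ᶠ ε in 𝓝[>] (0 : ℝ), ∀ i, x i ⬝ᵥ (y j + ε • u) ≤ 1 ∧ x i ⬝ᵥ (y j - ε • u) ≤ 1 := by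
    rw [eventually_all]
    intro i
    by_cases hi : y j ⬝ᵥ x i = 1
    · refine Eventually.of_forall fun ε => ?_
      have e1 : x i ⬝ᵥ u = 0 := by rw [dotProduct_comm]; exact hu i hi
      have e2 : x i ⬝ᵥ y j = 1 := by rw [dotProduct_comm]; exact hi
      simp [e1, e2]
    · have hlt : x i ⬝ᵥ y j < 1 := by
        rw [dotProduct_comm]; exact lt_of_le_of_ne (h.dot_le i j) hi
      have c1 : Continuous fun ε : ℝ => x i ⬝ᵥ (y j + ε • u) :=
        (continuous_dot _).comp (by fun_prop)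
      have c2 : Continuous fun ε : ℝ => x i ⬝ᵥ (y j - ε • u) :=
        (continuous_dot _).comp (by fun_prop)
      have e1 := (c1.tendsto 0).eventually (gt_mem_nhds (a := (1 : ℝ)) (by simpa using hlt))
      have e2 := (c2.tendsto 0).eventually (gt_mem_nhds (a := (1 : ℝ)) (by simpa using hlt))
      exact ((e1.and e2).filter_mono nhdsWithin_le_nhds).mono fun ε hε => ⟨hε.1.le, hε.2.le⟩
  obtain ⟨ε, hε1, hε2⟩ := (hev.and self_mem_nhdsWithin).exists
  have hε : 0 < ε := hε2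
  have m1 : y j + ε • u ∈ convexHull ℝ (range y) := by rw [h.2]; exact fun i => (hε1 i).1
  have m2 : y j - ε • u ∈ convexHull ℝ (range y) := by rw [h.2]; exact fun i => (hε1 i).2
  have := ((mem_extremePoints.mp hj).2 _ m1 _ m2
    ⟨1 / 2, 1 / 2, by norm_num, by norm_num, by norm_num, by module⟩).1
  have h0 : ε • u = 0 := by simpa using this
  exact (smul_eq_zero.mp h0).resolve_left hε.ne'

/-- Evaluation of a vector against a family of points. -/
def evalMap {n : ℕ} {α : Type} (p : α → Fin n → ℝ) : (Fin n → ℝ) →ₗ[ℝ] (α → ℝ) where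
  toFun u := fun i => u ⬝ᵥ p i
  map_add' u v := by ext i; simp
  map_smul' c u := by ext i; simp

open Classical in
theorem le_card_inc {n : ℕ} [Fintype ι] {x : ι → Fin n → ℝ} {y : κ → Fin n → ℝ}
    (h : DualPair x y) {j : κ} (hj : y j ∈ (convexHull ℝ (range y)).extremePoints ℝ) :
    n ≤ (Finset.univ.filter fun i => y j ⬝ᵥ x i = 1).card := by
  have hinj : Function.Injective (evalMap fun i : {i // y j ⬝ᵥ x i = 1} => x i.1) := by
    rw [injective_iff_map_eq_zero]
    intro u hu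
    exact eq_zero_of_extreme h hj fun i hi => congrFun hu ⟨i, hi⟩
  have := LinearMap.finrank_le_finrank_of_injective hinj
  rwa [Module.finrank_fintype_fun_eq_card, Module.finrank_fintype_fun_eq_card, Fintype.card_fin,
    Fintype.card_subtype] at this

theorem exists_orth (v : Fin 3 → ℝ) : ∃ θ : Fin 3 → ℝ, θ ≠ 0 ∧ v ⬝ᵥ θ = 0 := by
  by_cases h : v 0 = 0
  · refine ⟨![1, 0, 0], fun h0 => by simpa using congrFun h0 0, ?_⟩
    simp [dotProduct, Fin.sum_univ_three, h]
  · refine ⟨![-v 1, v 0, 0], fun h0 => h (by simpa using congrFun h0 1), ?_⟩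
    simp [dotProduct, Fin.sum_univ_three]; ring

/-- All admissible speeds are globally affine. -/
def Rigid {n : ℕ} (x : ι → Fin n → ℝ) (y : κ → Fin n → ℝ) : Prop :=
  ∀ (θ : Fin n → ℝ) (a : ι → ℝ), θ ≠ 0 →
    (∀ j, y j ⬝ᵥ θ ≠ 0 → ∃ u : Fin n → ℝ, ∀ i, y j ⬝ᵥ x i = 1 → a i = u ⬝ᵥ x i) → TrivSpeed x a

theorem rigid_of_not_hasFlow {n : ℕ} [Finite ι] [Finite κ] {x : ι → Fin n → ℝ}
    {y : κ → Fin n → ℝ} (h : DualPair x y) (hno : ¬ HasFlow x y) : Rigid x y :=
  fun _ _ hθ hadm => by_contra fun ha => hno (hasFlow_of_admissible h hθ hadm ha)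

theorem Rigid.of_comp {n : ℕ} {ι' κ' : Type} {x : ι → Fin n → ℝ} {y : κ → Fin n → ℝ}
    {f : ι' → ι} {g : κ' → κ} (hf : Function.Surjective f) (h : Rigid (x ∘ f) (y ∘ g)) :
    Rigid x y := by
  intro θ a hθ hadm
  obtain ⟨u, c, hu⟩ := h θ (a ∘ f) hθ fun j hj => by
    obtain ⟨u, hu⟩ := hadm (g j) hj
    exact ⟨u, fun i hi => hu (f i) hi⟩
  refine ⟨u, c, fun i => ?_⟩
  obtain ⟨k, rfl⟩ := hf i
  exact hu k

variable {x : ι → Fin 3 → ℝ} {y : κ → Fin 3 → ℝ}

open Classical in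
theorem count_le [Fintype ι] [Fintype κ] (h : DualPair x y)
    (hext : ∀ j, y j ∈ (convexHull ℝ (range y)).extremePoints ℝ) (hno : Rigid x y) (G : κ) :
    Fintype.card ι + 3 * Fintype.card κ + (Finset.univ.filter fun i => y G ⬝ᵥ x i = 1).card ≤
      7 + ∑ j, (Finset.univ.filter fun i => y j ⬝ᵥ x i = 1).card := by
  obtain ⟨θ, hθ, hG⟩ := exists_orth (y G)
  let Φ : ((ι → ℝ) × (κ → Fin 3 → ℝ)) →ₗ[ℝ]
      ((∀ j : κ, {i // y j ⬝ᵥ x i = 1 ∧ j ≠ G} → ℝ) × (Fin 3 → ℝ)) :=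
    { toFun := fun p => (fun j i => p.1 i.1 - p.2 j ⬝ᵥ x i.1, p.2 G)
      map_add' := fun p q => by
        ext j i
        · simp; ring
        · simp
      map_smul' := fun c p => by
        ext j i
        · simp; ring
        · simp }
  let Ψ : ((Fin 3 → ℝ) × ℝ) →ₗ[ℝ] (ι → ℝ) :=
    { toFun := fun p i => p.1 ⬝ᵥ x i + p.2
      map_add' := fun p q => by ext i; simp; ring
      map_smul' := fun c p => by ext i; simp; ring }
  have hker : ∀ p ∈ LinearMap.ker Φ,
      (∀ j i, y j ⬝ᵥ x i = 1 → j ≠ G → p.1 i = p.2 j ⬝ᵥ x i) ∧ p.2 G = 0 := by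
    intro p hp
    rw [LinearMap.mem_ker] at hp
    refine ⟨fun j i h1 h2 => ?_, congrArg Prod.snd hp⟩
    have := congrFun (congrFun (congrArg Prod.fst hp) j) ⟨i, h1, h2⟩
    exact sub_eq_zero.mp this
  have hmem : ∀ p : LinearMap.ker Φ,
      ((LinearMap.fst ℝ _ _).comp (LinearMap.ker Φ).subtype) p ∈ LinearMap.range Ψ := by
    intro p
    obtain ⟨u, c, hu⟩ := hno θ p.1.1 hθ (fun j hj => ⟨p.1.2 j, fun i hi =>
      (hker p.1 p.2).1 j i hi (fun e => hj (e ▸ hG))⟩)
    exact ⟨(u, c), funext fun i => (hu i).symm⟩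
  have hinj : Function.Injective (LinearMap.codRestrict _ _ hmem) := by
    rw [injective_iff_map_eq_zero]
    intro p hp
    have h1 : p.1.1 = 0 := congrArg Subtype.val hp
    have h2 : p.1.2 = 0 := by
      funext j
      by_cases hj : j = G
      · rw [hj]; exact (hker p.1 p.2).2
      · refine eq_zero_of_extreme h (hext j) fun i hi => ?_
        rw [← (hker p.1 p.2).1 j i hi hj, h1]; rfl
    exact Subtype.ext (Prod.ext h1 h2)
  have e1 := LinearMap.finrank_le_finrank_of_injective hinj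
  have e2 : Module.finrank ℝ (LinearMap.range Ψ) ≤ 4 := by
    have := LinearMap.finrank_range_le Ψ
    simpa using this
  have e3 := LinearMap.finrank_range_add_finrank_ker Φ
  have e4 := Submodule.finrank_le (LinearMap.range Φ)
  rw [Module.finrank_prod, Module.finrank_pi_fintype, Module.finrank_pi_fintype ℝ (ι := κ)] at e3
  rw [Module.finrank_prod, Module.finrank_pi_fintype] at e4
  simp only [Module.finrank_fintype_fun_eq_card, Fintype.card_fin, Finset.sum_const,
    Finset.card_univ, smul_eq_mul, Module.finrank_self, mul_one, Fintype.card_subtype] at e3 e4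
  have e5 : ∑ j, (Finset.univ.filter fun i => y j ⬝ᵥ x i = 1 ∧ j ≠ G).card +
      (Finset.univ.filter fun i => y G ⬝ᵥ x i = 1).card =
      ∑ j, (Finset.univ.filter fun i => y j ⬝ᵥ x i = 1).card := by
    rw [← Finset.add_sum_erase _ _ (Finset.mem_univ G),
      ← Finset.add_sum_erase (s := Finset.univ) _ (Finset.mem_univ G)]
    have : ∑ j ∈ Finset.univ.erase G, (Finset.univ.filter fun i => y j ⬝ᵥ x i = 1 ∧ j ≠ G).card =
        ∑ j ∈ Finset.univ.erase G, (Finset.univ.filter fun i => y j ⬝ᵥ x i = 1).card :=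
      Finset.sum_congr rfl fun j hj => by simp [Finset.ne_of_mem_erase hj]
    rw [this]
    simp [add_comm]
  omega

open Classical in
theorem card_le_four [Fintype ι] [Fintype κ] (h : DualPair x y)
    (hx : Function.Injective x) (hy : Function.Injective y)
    (hextx : ∀ i, x i ∈ (convexHull ℝ (range x)).extremePoints ℝ)
    (hexty : ∀ j, y j ∈ (convexHull ℝ (range y)).extremePoints ℝ)
    (hno : Rigid x y) (hno' : Rigid y x) : Fintype.card ι ≤ 4 := by
  obtain ⟨v⟩ := h.nonempty_left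
  obtain ⟨G0⟩ := h.symm.nonempty_left
  have hm3 := fun G => le_card_inc h (hexty G)
  have hd3 := le_card_inc h.symm (hextx v)
  have : Nontrivial ι := by
    rw [← Fintype.one_lt_card_iff_nontrivial]
    have := (hm3 G0).trans (Finset.card_le_univ _)
    omega
  have hE := euler_ineq h hx hy hextx
  have hD := count_le h.symm hextx hno' v
  have hswap : ∑ i, (Finset.univ.filter fun j => x i ⬝ᵥ y j = 1).card =
      ∑ j, (Finset.univ.filter fun i => y j ⬝ᵥ x i = 1).card := by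
    simp only [Finset.card_filter]
    rw [Finset.sum_comm]
    simp only [dotProduct_comm]
  rw [hswap] at hD
  have hm : ∀ G, (Finset.univ.filter fun i => y G ⬝ᵥ x i = 1).card ≤ 3 := fun G => by
    have := count_le h hexty hno G
    omega
  have hI : ∑ j, (Finset.univ.filter fun i => y j ⬝ᵥ x i = 1).card ≤ ∑ _j : κ, 3 :=
    Finset.sum_le_sum fun j _ => hm j
  rw [Finset.sum_const, Finset.card_univ, smul_eq_mul] at hI
  have h1 := count_le h hexty hno G0
  have h2 := hm3 G0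
  omega

end Pool.Agent.MP_5f4cdd_gt

end

section

set_option autoImplicit false
open Set Filter Topology

namespace Pool.Agent.MP_5f4cdd_gt

variable {ι κ : Type} {n : ℕ}

theorem simplex_of_affineIndep {p : Fin (n + 1) → Fin n → ℝ}
    (hint : (interior (convexHull ℝ (range p))).Nonempty) :
    ∃ e : AffineEquiv ℝ (Fin n → ℝ) (Fin n → ℝ), (∀ z, e z = p 0 + ∑ k, z k • (p k.succ - p 0)) ∧
      convexHull ℝ (range p) = e '' stdS n := by
  classical
  let M : Matrix (Fin n) (Fin n) ℝ := Matrix.of fun r k => p k.succ r - p 0 r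
  have hM : ∀ z : Fin n → ℝ, M.mulVec z = ∑ k, z k • (p k.succ - p 0) := fun z => by
    ext r
    simp [M, Matrix.mulVec, dotProduct, Finset.sum_apply, mul_comm]
  have hdet : M.det ≠ 0 := by
    intro h0
    obtain ⟨v, hv0, hv⟩ := Matrix.exists_vecMul_eq_zero_iff.mpr h0
    have hb : ∀ i, v ⬝ᵥ p i = v ⬝ᵥ p 0 := by
      intro i
      refine Fin.cases rfl (fun k => ?_) i
      have := congrFun hv k
      simp only [M, Matrix.vecMul, dotProduct, Matrix.of_apply, mul_sub, Finset.sum_sub_distrib,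
        Pi.zero_apply] at this
      exact sub_eq_zero.mp this
    obtain ⟨c, hc⟩ := hint
    have e1 := lt_of_mem_interior (v := v) (b := v ⬝ᵥ p 0)
      (fun z hz => dot_le_of_mem_hull (fun i => (hb i).le) hz) hc (Or.inl hv0)
    have e2 := lt_of_mem_interior (v := -v) (b := -(v ⬝ᵥ p 0))
      (fun z hz => dot_le_of_mem_hull (fun i => by simp [hb i]) hz) hc
      (Or.inl (neg_ne_zero.mpr hv0))
    rw [neg_dotProduct] at e2
    linarith
  let L : (Fin n → ℝ) ≃ₗ[ℝ] (Fin n → ℝ) :=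
    Matrix.toLinearEquiv' M (Matrix.invertibleOfIsUnitDet M (isUnit_iff_ne_zero.mpr hdet))
  have hL : ∀ z, L z = M.mulVec z := fun z => rfl
  let e : AffineEquiv ℝ (Fin n → ℝ) (Fin n → ℝ) :=
    L.toAffineEquiv.trans (AffineEquiv.constVAdd ℝ _ (p 0))
  have he : ∀ z, e z = p 0 + ∑ k, z k • (p k.succ - p 0) := fun z => by
    rw [← hM, ← hL]; rfl
  refine ⟨e, he, ?_⟩
  have key : ∀ z : Fin n → ℝ, e z = (1 - ∑ k, z k) • p 0 + ∑ k, z k • p k.succ := fun z => by
    rw [he]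
    simp only [smul_sub, Finset.sum_sub_distrib, sub_smul, one_smul, Finset.sum_smul]
    abel
  ext q
  rw [mem_hull_iff]
  constructor
  · rintro ⟨w, hw0, hw1, rfl⟩
    rw [Fin.sum_univ_succ] at hw1
    refine ⟨fun k => w k.succ, ⟨fun k => hw0 _, by linarith [hw0 0]⟩, ?_⟩
    rw [key, Fin.sum_univ_succ]
    congr 2
    linarith
  · rintro ⟨z, ⟨hz0, hz1⟩, rfl⟩
    refine ⟨Fin.cons (1 - ∑ k, z k) z, fun i => ?_, ?_, ?_⟩
    · refine Fin.cases ?_ (fun k => ?_) i
      · simpa using hz1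
      · simpa using hz0 k
    · rw [Fin.sum_univ_succ]; simp
    · rw [Fin.sum_univ_succ, key]; simp

theorem simplex_of_card_le [Fintype ι] {x : ι → Fin n → ℝ} (hc : Fintype.card ι ≤ n + 1)
    (hint : (interior (convexHull ℝ (range x))).Nonempty) :
    ∃ e : AffineEquiv ℝ (Fin n → ℝ) (Fin n → ℝ), convexHull ℝ (range x) = e '' stdS n := by
  have hι : Nonempty ι := by
    by_contra hne
    rw [not_nonempty_iff] at hne
    obtain ⟨c, hc⟩ := hint
    have := interior_subset hc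
    rw [range_eq_empty, convexHull_empty] at this
    exact this
  obtain ⟨f⟩ : Nonempty (ι ↪ Fin (n + 1)) :=
    Function.Embedding.nonempty_of_card_le (by simpa using hc)
  have hs : Function.Surjective (Function.invFun f) := Function.invFun_surjective f.injective
  have hr : range (x ∘ Function.invFun f) = range x := hs.range_comp x
  rw [← hr] at hint ⊢
  obtain ⟨e, _, he⟩ := simplex_of_affineIndep hint
  exact ⟨e, he⟩

theorem exists_extreme_repr [Finite ι] {x : ι → Fin n → ℝ} {y : κ → Fin n → ℝ}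
    (h : ∀ i j, y j ⬝ᵥ x i ≤ 1) :
    ∃ ρ : ι → ι, (∀ i, x (ρ i) ∈ (convexHull ℝ (range x)).extremePoints ℝ) ∧
      convexHull ℝ (range (x ∘ ρ)) = convexHull ℝ (range x) ∧
      ∀ i j, y j ⬝ᵥ x i = 1 → y j ⬝ᵥ x (ρ i) = 1 := by
  classical
  set Ex := (convexHull ℝ (range x)).extremePoints ℝ with hEx
  have hsub : Ex ⊆ range x := extremePoints_convexHull_subset
  have hfin : Ex.Finite := (finite_range x).subset hsub
  have hKM : convexHull ℝ Ex = convexHull ℝ (range x) := by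
    rw [← closure_convexHull_extremePoints (isCompact_hull x) (convex_convexHull ℝ _)]
    exact (hfin.isCompact_convexHull ℝ).isClosed.closure_eq.symm
  have hr : range (fun k : {k // x k ∈ Ex} => x k.1) = Ex := by
    ext z
    constructor
    · rintro ⟨k, rfl⟩; exact k.2
    · intro hz
      obtain ⟨k, rfl⟩ := hsub hz
      exact ⟨⟨k, hz⟩, rfl⟩
  have := Fintype.ofFinite {k // x k ∈ Ex}
  have hch : ∀ i, ∃ k, x k ∈ Ex ∧ (x i ∈ Ex → k = i) ∧ ∀ j, y j ⬝ᵥ x i = 1 → y j ⬝ᵥ x k = 1 := by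
    intro i
    by_cases hi : x i ∈ Ex
    · exact ⟨i, hi, fun _ => rfl, fun _ h => h⟩
    · have hmem : x i ∈ convexHull ℝ (range fun k : {k // x k ∈ Ex} => x k.1) := by
        rw [hr, hKM]; exact subset_convexHull ℝ _ (mem_range_self i)
      obtain ⟨l, hl0, hl1, hl⟩ := (mem_hull_iff _ _).mp hmem
      obtain ⟨k, hk⟩ : ∃ k, l k ≠ 0 := by
        by_contra hcon
        push Not at hcon
        simp [hcon] at hl1
      refine ⟨k.1, k.2, fun h => absurd h hi, fun j hj => ?_⟩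
      exact dot_eq_of_weight_ne (x := fun k : {k // x k ∈ Ex} => x k.1) (fun k => h k.1 j) hl0 hl1
        (by rw [hl]; exact hj) k hk
  choose ρ h1 h2 h3 using hch
  refine ⟨ρ, h1, ?_, h3⟩
  rw [← hKM]
  congr 1
  ext z
  constructor
  · rintro ⟨i, rfl⟩; exact h1 i
  · intro hz
    obtain ⟨k, rfl⟩ := hsub hz
    exact ⟨k, by simp [h2 k hz]⟩

theorem DualPair.of_hull_eq {ι' : Type} {x : ι → Fin n → ℝ} {y : κ → Fin n → ℝ}
    {x' : ι' → Fin n → ℝ} (h : DualPair x y)
    (hx : convexHull ℝ (range x') = convexHull ℝ (range x)) : DualPair x' y := by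
  refine ⟨hx.trans h.1, ?_⟩
  rw [← h.polar_eq, ← hx]
  ext w
  constructor
  · intro hw i
    exact hw _ (subset_convexHull ℝ _ (mem_range_self i))
  · intro hw z hz
    rw [dotProduct_comm]
    exact dot_le_of_mem_hull (fun i => by rw [dotProduct_comm]; exact hw i) hz

theorem exists_extreme_pair [Finite ι] [Finite κ] {x : ι → Fin n → ℝ} {y : κ → Fin n → ℝ}
    (h : DualPair x y) :
    ∃ (x' : ι → Fin n → ℝ) (y' : κ → Fin n → ℝ), DualPair x' y' ∧
      convexHull ℝ (range x') = convexHull ℝ (range x) ∧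
      convexHull ℝ (range y') = convexHull ℝ (range y) ∧ nInc x y ≤ nInc x' y' ∧
      (∀ i, x' i ∈ (convexHull ℝ (range x')).extremePoints ℝ) ∧
      (∀ j, y' j ∈ (convexHull ℝ (range y')).extremePoints ℝ) := by
  obtain ⟨ρ, r1, r2, r3⟩ := exists_extreme_repr h.dot_le
  have h' : DualPair (x ∘ ρ) y := h.of_hull_eq r2
  obtain ⟨σ, s1, s2, s3⟩ := exists_extreme_repr h'.symm.dot_le
  refine ⟨x ∘ ρ, y ∘ σ, (h'.symm.of_hull_eq s2).symm, r2, s2, ?_, fun i => r2 ▸ r1 i,
    fun j => s2 ▸ s1 j⟩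
  unfold nInc
  refine Set.ncard_le_ncard (fun p hp => ?_)
  refine s3 p.2 p.1 ?_
  rw [dotProduct_comm]
  refine r3 p.1 p.2 ?_
  rw [dotProduct_comm]
  exact hp

/-- A three-dimensional polytope is a simplex, or it or its polar body has a useful flow. -/
theorem flow_or_simplex [Finite ι] [Finite κ] {x : ι → Fin 3 → ℝ} {y : κ → Fin 3 → ℝ}
    (h : DualPair x y) :
    (∃ e : AffineEquiv ℝ (Fin 3 → ℝ) (Fin 3 → ℝ), convexHull ℝ (range x) = e '' stdS 3) ∨
      HasFlow x y ∨ HasFlow y x := by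
  obtain ⟨x', y', h', hx, hy, hinc, ex, ey⟩ := exists_extreme_pair h
  by_cases f1 : HasFlow x' y'
  · exact Or.inr (Or.inl (f1.mono hx hinc))
  by_cases f2 : HasFlow y' x'
  · exact Or.inr (Or.inr (f2.mono hy (by rwa [nInc_comm, nInc_comm x' y'])))
  left
  have r1 := rigid_of_not_hasFlow h' f1
  have r2 := rigid_of_not_hasFlow h'.symm f2
  have := (finite_range x').fintype
  have := (finite_range y').fintype
  have e1 : range (Subtype.val : range x' → Fin 3 → ℝ) = range x' := Subtype.range_coe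
  have e2 : range (Subtype.val : range y' → Fin 3 → ℝ) = range y' := Subtype.range_coe
  have hd : DualPair (Subtype.val : range x' → Fin 3 → ℝ) (Subtype.val : range y' → Fin 3 → ℝ) :=
    ((h'.of_hull_eq (by rw [e1])).symm.of_hull_eq (by rw [e2])).symm
  have hc := card_le_four hd Subtype.val_injective Subtype.val_injective
    (by rintro ⟨_, i, rfl⟩; rw [e1]; exact ex i) (by rintro ⟨_, j, rfl⟩; rw [e2]; exact ey j)
    (Rigid.of_comp (f := rangeFactorization x') (g := rangeFactorization y')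
      rangeFactorization_surjective r1)
    (Rigid.of_comp (f := rangeFactorization y') (g := rangeFactorization x')
      rangeFactorization_surjective r2)
  obtain ⟨e, he⟩ := simplex_of_card_le (n := 3) hc ⟨0, hd.zero_mem_interior⟩
  exact ⟨e, by rw [← hx, ← he, e1]⟩

/-- Abstract descent: a family of dual pairs in which every useful flow (of the pair or of the
swapped pair) leads to a member with more incidences contains a simplex. -/
theorem exists_simplex_of_descent [Finite ι] [Finite κ]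
    (G : (ι → Fin 3 → ℝ) → (κ → Fin 3 → ℝ) → Prop) (hG : ∀ x y, G x y → DualPair x y)
    (hstep : ∀ x y, G x y → HasFlow x y ∨ HasFlow y x →
      ∃ x' y', G x' y' ∧ nInc x y < nInc x' y')
    {x : ι → Fin 3 → ℝ} {y : κ → Fin 3 → ℝ} (h : G x y) :
    ∃ x' y', G x' y' ∧ ∃ e : AffineEquiv ℝ (Fin 3 → ℝ) (Fin 3 → ℝ),
      convexHull ℝ (range x') = e '' stdS 3 := by
  obtain ⟨p, hp, hmax⟩ := Set.Finite.exists_maximalFor' (fun p : (ι → Fin 3 → ℝ) × (κ → Fin 3 → ℝ)
    => nInc p.1 p.2) {p | G p.1 p.2}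
    ((finite_le_nat (Nat.card ι * Nat.card κ)).subset (by
      rintro _ ⟨p, _, rfl⟩; exact nInc_le _ _)) ⟨(x, y), h⟩
  refine ⟨p.1, p.2, hp, ?_⟩
  rcases flow_or_simplex (hG _ _ hp) with hs | hf
  · exact hs
  · obtain ⟨x', y', h1, h2⟩ := hstep _ _ hp hf
    exact absurd (hmax (j := (x', y')) h1 h2.le) (not_le.mpr h2)

end Pool.Agent.MP_5f4cdd_gt

end

section

set_option autoImplicit false
open MeasureTheory Set Filter Topology
open scoped ENNReal

namespace Pool.Agent.MP_5f4cdd_gt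

variable {n : ℕ} {ι κ : Type}
variable {x : ι → Fin n → ℝ} {y : κ → Fin n → ℝ} {θ : Fin n → ℝ} {a : ι → ℝ}
  {w : κ → Fin n → ℝ} {g : κ → ℝ}

theorem Adm.hasFlow2_of_both [Fintype ι] [Finite κ] [Nonempty κ] (h : Adm x y θ a w g)
    (ha : ¬ TrivSpeed x a) (hneg : ∃ i j, g j + w j ⬝ᵥ x i - a i * (y j ⬝ᵥ θ) < 0)
    (hpos : ∃ i j, 0 < g j + w j ⬝ᵥ x i - a i * (y j ⬝ᵥ θ)) :
    HasFlow2 x y := by
  classical
  set σ : ι × κ → ℝ := fun p => g p.2 + w p.2 ⬝ᵥ x p.1 - a p.1 * (y p.2 ⬝ᵥ θ) with hσ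
  set s : ι × κ → ℝ := fun p => 1 - y p.2 ⬝ᵥ x p.1 with hs
  have hs0 : ∀ p, 0 ≤ s p := fun p => sub_nonneg.mpr (h.dot_le p.1 p.2)
  have hsσ : ∀ p, s p = 0 → σ p = 0 := fun p hp => by
    have := h.hinc p.1 p.2 (by simp only [hs] at hp; linarith)
    simp only [hσ]; linarith
  have hspos : ∀ p, σ p ≠ 0 → 0 < s p := fun p hp =>
    lt_of_le_of_ne (hs0 p) fun h0 => hp (hsσ p h0.symm)
  obtain ⟨p0, hp0, hmin⟩ := Set.exists_min_image {p | σ p < 0} (fun p => s p / -σ p)
    (toFinite _) (by obtain ⟨i, j, hij⟩ := hneg; exact ⟨(i, j), hij⟩)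
  obtain ⟨p1, hp1, hmin1⟩ := Set.exists_min_image {p | 0 < σ p} (fun p => s p / σ p)
    (toFinite _) (by obtain ⟨i, j, hij⟩ := hpos; exact ⟨(i, j), hij⟩)
  have hp0' : σ p0 < 0 := hp0
  have hp1' : 0 < σ p1 := hp1
  set τ := s p0 / -σ p0 with hτ
  set δ := s p1 / σ p1 with hδdef
  have hτpos : 0 < τ := div_pos (hspos _ hp0'.ne) (by linarith)
  have hδ : 0 < δ := div_pos (hspos _ hp1'.ne') hp1'
  have hslack : ∀ t ∈ Icc (-δ) τ, ∀ p, 0 ≤ s p + t * σ p := by
    intro t ht p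
    rcases lt_trichotomy (σ p) 0 with hlt | heq | hgt
    · have e1 : τ ≤ s p / -σ p := hmin p hlt
      rw [le_div_iff₀ (by linarith)] at e1
      nlinarith [ht.2]
    · rw [heq]; simpa using hs0 p
    · have e1 : δ ≤ s p / σ p := hmin1 p hgt
      rw [le_div_iff₀ hgt] at e1
      nlinarith [ht.1]
  have hgood : ∀ t ∈ Icc (-δ) τ, t ∈ goodT x y θ a w g := by
    intro t ht i j
    have e1 := h.slack t i j
    have e2 := hslack t ht (i, j)
    simp only [hs, hσ] at e2
    linarith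
  have hsum : 0 < τ + δ := by linarith
  set V0 := (volume (movA x a θ (-δ))).toReal
  set V1 := (volume (movA x a θ τ)).toReal
  have hint0 : (interior (convexHull ℝ (range x))).Nonempty := by
    rw [h.hP]
    exact ⟨0, mem_interior_of_lt (b := fun _ => 1) fun j => by simp⟩
  refine ⟨x, a, θ, δ, τ, V0 + δ * ((V1 - V0) / (τ + δ)), (V1 - V0) / (τ + δ), hδ, hτpos, h.hθ, rfl,
    fun t ht => ⟨?_, interior_shadow_nonempty hint0 ha θ t, fun c hc => ?_⟩⟩
  · have hp : 0 ≤ (τ - t) / (τ + δ) := div_nonneg (by linarith [ht.2]) hsum.le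
    have hq : 0 ≤ (t + δ) / (τ + δ) := div_nonneg (by linarith [ht.1]) hsum.le
    have := h.volume_affine (hgood _ ⟨le_rfl, by linarith⟩) (hgood _ ⟨by linarith, le_rfl⟩)
      (hgood t ht) hp hq (by field_simp; ring) (by field_simp; ring)
    change (volume (movA x a θ t)).toReal = _
    have f0 : volume (movA x a θ (-δ)) ≠ ⊤ := (isCompact_hull _).measure_lt_top.ne
    have f1 : volume (movA x a θ τ) ≠ ⊤ := (isCompact_hull _).measure_lt_top.ne
    rw [this, ENNReal.toReal_add (ENNReal.mul_ne_top ENNReal.ofReal_ne_top f0)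
      (ENNReal.mul_ne_top ENNReal.ofReal_ne_top f1), ENNReal.toReal_mul, ENNReal.toReal_mul,
      ENNReal.toReal_ofReal hp, ENNReal.toReal_ofReal hq]
    change _ * V0 + _ * V1 = _
    field_simp
    ring
  · have hopp : ∃ r : ℝ, 0 < r ∧ -(r * t) ∈ goodT x y θ a w g := by
      have hm : 0 < min δ τ := lt_min hδ hτpos
      refine ⟨min δ τ / (τ + δ), div_pos hm hsum, hgood _ ⟨?_, ?_⟩⟩
      · rw [neg_le_neg_iff, div_mul_eq_mul_div, div_le_iff₀ hsum]
        nlinarith [min_le_left δ τ, ht.2]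
      · rw [neg_le, div_mul_eq_mul_div, le_div_iff₀ hsum]
        nlinarith [min_le_right δ τ, ht.1]
    have hAB := h.movA_eq_movB (hgood t ht) hopp ⟨c, hc⟩
    obtain ⟨y', hy1, hy2⟩ := exists_dualPair_sub (x := shadowPts x a θ t)
      (y := fun j => y j - t • w j) (b := fun j => 1 + t * g j) hAB (h.nondeg t) hc
    refine ⟨y', hy1, fun htτ => ?_⟩
    have hiff : ∀ p : ι × κ, (shadowPts x a θ t p.1 - c) ⬝ᵥ y' p.2 = 1 ↔ s p + t * σ p = 0 := by
      intro p
      rw [hy2]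
      have e1 := h.slack t p.1 p.2
      simp only [hs, hσ]
      constructor <;> intro e <;> linarith
    obtain ⟨q, hq1, hq2⟩ : ∃ q, s q + t * σ q = 0 ∧ σ q ≠ 0 := by
      rcases htτ with e | e
      · refine ⟨p0, ?_, hp0'.ne⟩
        rw [e, hτ]
        have := hp0'.ne
        field_simp
        ring
      · refine ⟨p1, ?_, hp1'.ne'⟩
        rw [e, hδdef]
        have := hp1'.ne'
        field_simp
        ring
    unfold nInc
    refine Set.ncard_lt_ncard ⟨fun p hp => ?_, fun hsub => ?_⟩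
    · rw [mem_ofPred_eq, hiff]
      have e1 : s p = 0 := by
        rw [mem_ofPred_eq, dotProduct_comm] at hp
        simp only [hs]; linarith
      rw [e1, hsσ p e1]; simp
    · have e2 := hsub ((hiff q).mpr hq1)
      rw [mem_ofPred_eq, dotProduct_comm] at e2
      have e3 := hspos q hq2
      simp only [hs] at e3
      linarith

open Classical in
theorem Adm.add_dil (h : Adm x y θ a w g) {v : Fin n → ℝ} (hv : v ⬝ᵥ θ = 1) (c : ℝ) :
    Adm x y θ (fun i => a i + c * (v ⬝ᵥ x i))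
      (fun j => w j + if y j ⬝ᵥ θ = 0 then 0 else c • ((y j ⬝ᵥ θ) • v - y j))
      (fun j => g j + if y j ⬝ᵥ θ = 0 then 0 else c) where
  hP := h.hP
  hθ := h.hθ
  hw := fun j => by
    split_ifs with hj
    · simp [h.hw j]
    · simp [h.hw j, hv, sub_dotProduct]
  hinc := fun i j hij => by
    have := h.hinc i j hij
    split_ifs with hj
    · rw [hj] at this ⊢; simpa using this
    · simp only [add_dotProduct, smul_dotProduct, sub_dotProduct, smul_eq_mul, hij]
      linarith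
  hpar := fun j hj => by simp [hj, h.hpar j hj]

theorem Adm.hasFlow2 [Finite ι] [Finite κ] [Nonempty κ] (h : Adm x y θ a w g)
    (ha : ¬ TrivSpeed x a) : HasFlow2 x y := by
  classical
  have := Fintype.ofFinite ι
  obtain ⟨v, hv⟩ : ∃ v : Fin n → ℝ, v ⬝ᵥ θ = 1 := by
    have h3 : θ ⬝ᵥ θ ≠ 0 := fun h0 => h.hθ (dotProduct_self_eq_zero.mp h0)
    exact ⟨(θ ⬝ᵥ θ)⁻¹ • θ, by rw [smul_dotProduct, smul_eq_mul, inv_mul_cancel₀ h3]⟩
  set σ : ι × κ → ℝ := fun p => g p.2 + w p.2 ⬝ᵥ x p.1 - a p.1 * (y p.2 ⬝ᵥ θ) with hσ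
  set s : ι × κ → ℝ := fun p => 1 - y p.2 ⬝ᵥ x p.1 with hs
  have hs0 : ∀ p, 0 ≤ s p := fun p => sub_nonneg.mpr (h.dot_le p.1 p.2)
  have hsσ : ∀ p, s p = 0 → σ p = 0 := fun p hp => by
    have := h.hinc p.1 p.2 (by simp only [hs] at hp; linarith)
    simp only [hσ]; linarith
  have hnt : ∀ c : ℝ, ¬ TrivSpeed x (fun i => a i + c * (v ⬝ᵥ x i)) := by
    rintro c ⟨u, d, hu⟩
    refine ha ⟨u - c • v, d, fun i => ?_⟩
    have := hu i
    simp only [sub_dotProduct, smul_dotProduct, smul_eq_mul] at this ⊢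
    linarith
  have hslope : ∀ (c : ℝ) (i : ι) (j : κ),
      (g j + if y j ⬝ᵥ θ = 0 then 0 else c) +
        (w j + if y j ⬝ᵥ θ = 0 then 0 else c • ((y j ⬝ᵥ θ) • v - y j)) ⬝ᵥ x i -
        (a i + c * (v ⬝ᵥ x i)) * (y j ⬝ᵥ θ) =
      if y j ⬝ᵥ θ = 0 then 0 else σ (i, j) + c * s (i, j) := by
    intro c i j
    split_ifs with hj
    · simp [hj, (h.hpar j hj).1, (h.hpar j hj).2]
    · simp only [hσ, hs, add_dotProduct, smul_dotProduct, sub_dotProduct, smul_eq_mul]
      ring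
  -- for every `c` there is a non-parallel, non-incident pair whose ratio is not `c`
  have hex : ∀ c : ℝ, ∃ p : ι × κ, y p.2 ⬝ᵥ θ ≠ 0 ∧ 0 < s p ∧ σ p / s p ≠ c := by
    intro c
    obtain ⟨i, j, hij⟩ := (h.add_dil hv (-c)).exists_slope_ne (hnt _)
    rw [hslope] at hij
    split_ifs at hij with hj
    · exact absurd rfl hij
    · have hsp : 0 < s (i, j) := lt_of_le_of_ne (hs0 _) fun h0 => hij (by
        rw [← h0, hsσ _ h0.symm]; simp)
      refine ⟨(i, j), hj, hsp, fun e => hij ?_⟩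
      rw [div_eq_iff hsp.ne'] at e
      linarith
  obtain ⟨p, hp1, hp2, -⟩ := hex 0
  obtain ⟨q, hq1, hq2, hq3⟩ := hex (σ p / s p)
  have key : ∀ p q : ι × κ, y p.2 ⬝ᵥ θ ≠ 0 → 0 < s p → y q.2 ⬝ᵥ θ ≠ 0 → 0 < s q →
      σ p / s p < σ q / s q → HasFlow2 x y := by
    intro p q hp1 hp2 hq1 hq2 hlt
    refine (h.add_dil hv (-((σ p / s p + σ q / s q) / 2))).hasFlow2_of_both (hnt _)
      ⟨p.1, p.2, ?_⟩ ⟨q.1, q.2, ?_⟩
    · rw [hslope, if_neg hp1]
      have e : σ p = σ p / s p * s p := by field_simp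
      change σ p + _ * s p < 0
      nlinarith
    · rw [hslope, if_neg hq1]
      have e : σ q = σ q / s q * s q := by field_simp
      change 0 < σ q + _ * s q
      nlinarith
  rcases lt_or_gt_of_ne hq3 with hlt | hgt
  · exact key q p hq1 hq2 hp1 hp2 hlt
  · exact key p q hp1 hp2 hq1 hq2 hgt

theorem hasFlow2_of_admissible [Finite ι] [Finite κ] (h : DualPair x y) (hθ : θ ≠ 0)
    (hadm : ∀ j, y j ⬝ᵥ θ ≠ 0 → ∃ u : Fin n → ℝ, ∀ i, y j ⬝ᵥ x i = 1 → a i = u ⬝ᵥ x i)
    (ha : ¬ TrivSpeed x a) : HasFlow2 x y := by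
  classical
  have := h.symm.nonempty_left
  choose! u hu using hadm
  refine Adm.hasFlow2 (θ := θ) (a := a)
    (w := fun j => if y j ⬝ᵥ θ = 0 then 0 else (y j ⬝ᵥ θ) • u j - (u j ⬝ᵥ θ) • y j)
    (g := fun j => if y j ⬝ᵥ θ = 0 then 0 else u j ⬝ᵥ θ) ⟨h.1, hθ, ?_, ?_, ?_⟩ ha
  · intro j
    split_ifs with hj
    · simp
    · simp only [sub_dotProduct, smul_dotProduct, smul_eq_mul]; ring
  · intro i j hij
    split_ifs with hj
    · simp [hj]
    · simp only [sub_dotProduct, smul_dotProduct, smul_eq_mul, hij, hu j hj i hij]; ring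
  · intro j hj
    simp [hj]

theorem HasFlow2.mono {x' : ι → Fin n → ℝ} {y' : κ → Fin n → ℝ} (h : HasFlow2 x' y')
    (hx : convexHull ℝ (range x') = convexHull ℝ (range x)) (hinc : nInc x y ≤ nInc x' y') :
    HasFlow2 x y := by
  obtain ⟨x'', a, θ, δ, τ, α, β, h1, h2, h3, h4, h5⟩ := h
  refine ⟨x'', a, θ, δ, τ, α, β, h1, h2, h3, h4.trans hx, fun t ht => ⟨(h5 t ht).1, (h5 t ht).2.1,
    fun c hc => ?_⟩⟩
  obtain ⟨y'', e1, e2⟩ := (h5 t ht).2.2 c hc
  exact ⟨y'', e1, fun h => hinc.trans_lt (e2 h)⟩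

theorem rigid_of_not_hasFlow2 [Finite ι] [Finite κ] (h : DualPair x y) (hno : ¬ HasFlow2 x y) :
    Rigid x y :=
  fun _ _ hθ hadm => by_contra fun ha => hno (hasFlow2_of_admissible h hθ hadm ha)

theorem stmtCD : StmtCD := fun _ _ _ _ _ _ h => flow_or_simplex h

theorem stmtCD2 : StmtCD2 := by
  intro ι κ _ _ x y h
  obtain ⟨x', y', h', hx, hy, hinc, ex, ey⟩ := exists_extreme_pair h
  by_cases f1 : HasFlow2 x' y'
  · exact Or.inr (Or.inl (f1.mono hx hinc))
  by_cases f2 : HasFlow2 y' x'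
  · exact Or.inr (Or.inr (f2.mono hy (by rwa [nInc_comm, nInc_comm x' y'])))
  left
  have r1 := rigid_of_not_hasFlow2 h' f1
  have r2 := rigid_of_not_hasFlow2 h'.symm f2
  have := (finite_range x').fintype
  have := (finite_range y').fintype
  have e1 : range (Subtype.val : range x' → Fin 3 → ℝ) = range x' := Subtype.range_coe
  have e2 : range (Subtype.val : range y' → Fin 3 → ℝ) = range y' := Subtype.range_coe
  have hd : DualPair (Subtype.val : range x' → Fin 3 → ℝ) (Subtype.val : range y' → Fin 3 → ℝ) :=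
    ((h'.of_hull_eq (by rw [e1])).symm.of_hull_eq (by rw [e2])).symm
  have hc := card_le_four hd Subtype.val_injective Subtype.val_injective
    (by rintro ⟨_, i, rfl⟩; rw [e1]; exact ex i) (by rintro ⟨_, j, rfl⟩; rw [e2]; exact ey j)
    (Rigid.of_comp (f := rangeFactorization x') (g := rangeFactorization y')
      rangeFactorization_surjective r1)
    (Rigid.of_comp (f := rangeFactorization y') (g := rangeFactorization x')
      rangeFactorization_surjective r2)
  obtain ⟨e, he⟩ := simplex_of_card_le (n := 3) hc ⟨0, hd.zero_mem_interior⟩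
  exact ⟨e, by rw [← hx, ← he, e1]⟩

end Pool.Agent.MP_5f4cdd_gt

end
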