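import Mathlib
import Pool.Agent.Mg.F5f4cdd.Gbd6007
import Pool.Agent.Mg.F5f4cdd.Gbbe968
import Pool.Agent.Mg.F5f4cdd.G7e1333

section

set_option autoImplicit false
open MeasureTheory ENNReal Set Filter Topology Function

namespace Pool.Agent.MP_5f4cdd_gt.AB

variable {n : ℕ}

/-- integral over the coordinates in `I` -/
noncomputable def lm (I : Finset (Fin n)) (f : (Fin n → ℝ) → ℝ≥0∞) (x : Fin n → ℝ) : ℝ≥0∞ :=
  lmarginal (fun _ => volume) I f x

lemma lm_mono {I : Finset (Fin n)} {f g : (Fin n → ℝ) → ℝ≥0∞} {x : Fin n → ℝ}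
    (h : ∀ z, (∀ j ∉ I, z j = x j) → f z ≤ g z) : lm I f x ≤ lm I g x :=
  lintegral_mono fun _ => h _ fun j hj => by simp [updateFinset, hj]

lemma lm_shift {I : Finset (Fin n)} (f : (Fin n → ℝ) → ℝ≥0∞) (x : Fin n → ℝ) {v : Fin n → ℝ}
    (hv : ∀ j ∉ I, v j = 0) : lm I (fun z => f (z + v)) x = lm I f x := by
  have h := lintegral_add_right_eq_self (μ := Measure.pi fun _ : I => (volume : Measure ℝ))
    (fun y : I → ℝ => f (updateFinset x I y)) (fun j => v j)
  refine Eq.trans (lintegral_congr fun y => congrArg f ?_) h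
  ext j
  by_cases hj : j ∈ I <;> simp [updateFinset, hj, hv]

lemma lm_const_mul (I : Finset (Fin n)) (f : (Fin n → ℝ) → ℝ≥0∞) (x : Fin n → ℝ) {c : ℝ≥0∞}
    (hc : c ≠ ∞) : lm I (fun z => c * f z) x = c * lm I f x :=
  lintegral_const_mul' _ _ hc

lemma sum_lintegral_le {α ι : Type} [MeasurableSpace α] (μ : Measure α) (s : Finset ι)
    (f : ι → α → ℝ≥0∞) : ∑ i ∈ s, ∫⁻ a, f i a ∂μ ≤ ∫⁻ a, ∑ i ∈ s, f i a ∂μ := by
  classical
  induction s using Finset.induction_on with
  | empty => simp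
  | insert i s hi ih =>
    simp only [Finset.sum_insert hi]
    exact (add_le_add_right ih _).trans (le_lintegral_add _ _)

lemma lm_add_sum_le {ι : Type} (I : Finset (Fin n)) (s : Finset ι) (f : (Fin n → ℝ) → ℝ≥0∞)
    (g : ι → (Fin n → ℝ) → ℝ≥0∞) (x : Fin n → ℝ) :
    lm I f x + ∑ i ∈ s, lm I (g i) x ≤ lm I (fun z => f z + ∑ i ∈ s, g i z) x :=
  (add_le_add_right (sum_lintegral_le _ s fun i y => g i (updateFinset x I y)) _).trans
    (le_lintegral_add _ _)

/-- sublinear on the orthant -/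
structure Subl (φ : (Fin n → ℝ) → ℝ) : Prop where
  cont : Continuous φ
  add : ∀ z w, 0 ≤ z → 0 ≤ w → φ (z + w) ≤ φ z + φ w
  smul : ∀ (t : ℝ) w, 0 < t → 0 ≤ w → φ (t • w) ≤ t * φ w
  zero : φ 0 = 0

noncomputable def pos (φ : (Fin n → ℝ) → ℝ) : (Fin n → ℝ) → ℝ≥0∞ :=
  (Ici 0).indicator fun z => ENNReal.ofReal (Real.exp (-φ z))

noncomputable def A (φ : (Fin n → ℝ) → ℝ) (I : Finset (Fin n)) : ℝ≥0∞ := lm I (pos φ) 0

lemma measurable_pos {φ : (Fin n → ℝ) → ℝ} (h : Continuous φ) : Measurable (pos φ) :=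
  Measurable.indicator (by fun_prop) measurableSet_Ici

lemma A_empty {φ : (Fin n → ℝ) → ℝ} (h : φ 0 = 0) : A φ ∅ = 1 := by
  simp [A, lm, pos, h]

lemma A_univ (φ : (Fin n → ℝ) → ℝ) : A φ Finset.univ = ∫⁻ z, pos φ z := by
  simp [A, lm, volume_pi]

lemma pos_shift {φ : (Fin n → ℝ) → ℝ} (h : Subl φ) {z w : Fin n → ℝ} (hw : 0 ≤ w) {C : ℝ}
    (hC : φ w ≤ C) (hz : 0 ≤ z) :
    ENNReal.ofReal (Real.exp (-C)) * pos φ z ≤ pos φ (z + w) := by
  rw [pos, indicator_of_mem (mem_Ici.2 hz), indicator_of_mem (mem_Ici.2 (add_nonneg hz hw)),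
    ← ENNReal.ofReal_mul (Real.exp_pos _).le, ← Real.exp_add]
  exact ENNReal.ofReal_le_ofReal (Real.exp_le_exp.2 (by linarith [h.add z w hz hw]))

lemma flux_eps {φ : (Fin n → ℝ) → ℝ} (h : Subl φ) (I : Finset (Fin n)) {v : Fin n → ℝ}
    (hv : 0 ≤ v) (hI : ∀ j ∉ I, v j = 0) {C : ℝ} (hC : ∀ w ∈ Icc 0 v, φ w ≤ C) :
    ENNReal.ofReal (Real.exp (-φ v)) * A φ I + ∑ i ∈ I, ENNReal.ofReal (Real.exp (-C)) *
      (ENNReal.ofReal (v i) * A φ (I.erase i)) ≤ A φ I := by
  set S : Fin n → Set (Fin n → ℝ) := fun i => {z | z i < v i ∧ ∀ j, j ≠ i → v j ≤ z j} with hS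
  have hSm : ∀ i, MeasurableSet (S i) := fun i => by
    simp only [hS]; measurability
  refine le_trans (add_le_add ?_ (Finset.sum_le_sum fun i hi => ?_))
    ((lm_add_sum_le I I ((Ici v).indicator (pos φ)) (fun i => (S i).indicator (pos φ)) 0).trans
      (lm_mono fun z _ => ?_))
  · rw [← lm_shift ((Ici v).indicator (pos φ)) 0 hI, A, ← lm_const_mul _ _ _ ENNReal.ofReal_ne_top]
    refine lm_mono fun z _ => ?_
    by_cases hz : 0 ≤ z
    · rw [indicator_of_mem (mem_Ici.2 (le_add_of_nonneg_left hz))]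
      exact pos_shift h hv le_rfl hz
    · simp [pos, hz]
  · have e := lmarginal_erase' (μ := fun _ => (volume : Measure ℝ)) ((S i).indicator (pos φ))
      ((measurable_pos h.cont).indicator (hSm i)) hi
    have hv' : ∀ j ∉ I.erase i, update v i 0 j = 0 := fun j hj => by
      by_cases hji : j = i
      · simp [hji]
      · rw [update_of_ne hji]; exact hI j fun hj' => hj (Finset.mem_erase.2 ⟨hji, hj'⟩)
    change _ ≤ lmarginal _ I _ 0
    rw [e]
    change _ ≤ lm _ _ 0
    rw [← lm_shift _ 0 hv', A, ← lm_const_mul _ _ _ ENNReal.ofReal_ne_top,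
      ← lm_const_mul _ _ _ ENNReal.ofReal_ne_top]
    refine lm_mono fun z hz0 => ?_
    by_cases hz : 0 ≤ z
    swap
    · simp [pos, hz]
    have hzi : z i = 0 := hz0 i (Finset.notMem_erase i I)
    have e2 : ENNReal.ofReal (Real.exp (-C)) * (ENNReal.ofReal (v i) * pos φ z) =
        ∫⁻ _ in Ico 0 (v i), ENNReal.ofReal (Real.exp (-C)) * pos φ z := by
      rw [setLIntegral_const, Real.volume_Ico, sub_zero]; ring
    rw [e2, ← lintegral_indicator measurableSet_Ico]
    refine lintegral_mono fun t => ?_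
    by_cases ht : t ∈ Ico 0 (v i)
    swap
    · simp [ht]
    have e3 : update (z + update v i 0) i t = z + update v i t := by
      ext j
      by_cases hji : j = i
      · simp [hji, hzi]
      · simp [hji]
    have w0 : 0 ≤ update v i t := fun j => by
      by_cases hji : j = i
      · simpa [hji] using ht.1
      · simpa [hji] using hv j
    have w1 : update v i t ≤ v := fun j => by
      by_cases hji : j = i
      · simpa [hji] using ht.2.le
      · simp [hji]
    simp only [indicator_of_mem ht, e3]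
    rw [indicator_of_mem]
    · exact pos_shift h w0 (hC _ ⟨w0, w1⟩) hz
    · refine ⟨by simpa [hzi] using ht.2, fun j hj => ?_⟩
      simpa [hj] using hz j
  · by_cases h1 : v ≤ z
    · rw [indicator_of_mem (mem_Ici.2 h1), Finset.sum_eq_zero, add_zero]
      exact fun i _ => indicator_of_notMem (fun h2 => (h1 i).not_gt h2.1) _
    rw [indicator_of_notMem (s := Ici v) h1, zero_add]
    by_cases h2 : ∃ i, z ∈ S i
    · obtain ⟨i, hi⟩ := h2
      refine (Finset.sum_le_sum_of_subset (Finset.subset_univ I)).trans ?_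
      rw [Finset.sum_eq_single i, indicator_of_mem hi]
      · exact fun j _ hj => indicator_of_notMem (fun h3 => (hi.2 j hj).not_gt h3.1) _
      · simp
    · rw [Finset.sum_eq_zero]
      · exact zero_le
      · exact fun i _ => indicator_of_notMem (fun h3 => h2 ⟨i, h3⟩) _

theorem flux {φ : (Fin n → ℝ) → ℝ} (h : Subl φ) (I : Finset (Fin n)) {u : Fin n → ℝ}
    (hu : 0 ≤ u) (hI : ∀ j ∉ I, u j = 0) (hA : A φ I ≠ ∞) :
    ∑ i ∈ I, ENNReal.ofReal (u i) * A φ (I.erase i) ≤ ENNReal.ofReal (φ u) * A φ I := by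
  obtain ⟨C, hC⟩ := (isCompact_Icc (a := (0 : Fin n → ℝ)) (b := u)).bddAbove_image
    h.cont.continuousOn
  set S := ∑ i ∈ I, ENNReal.ofReal (u i) * A φ (I.erase i) with hS
  have key : ∀ ε : ℝ, 0 < ε → ENNReal.ofReal (Real.exp (-(ε * φ u))) * A φ I +
      ENNReal.ofReal (Real.exp (-(ε * C)) * ε) * S ≤ A φ I := by
    intro ε hε
    have h1 := flux_eps h I (v := ε • u) (smul_nonneg hε.le hu) (fun j hj => by simp [hI j hj])
      (C := ε * C) (fun w hw => by
        have e : w = ε • (ε⁻¹ • w) := by rw [smul_smul, mul_inv_cancel₀ hε.ne', one_smul]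
        have w0 : 0 ≤ ε⁻¹ • w := smul_nonneg (inv_pos.2 hε).le hw.1
        have w1 : ε⁻¹ • w ≤ u := fun j => by
          have := hw.2 j
          simp only [Pi.smul_apply, smul_eq_mul] at this ⊢
          rwa [inv_mul_le_iff₀ hε]
        rw [e]
        exact (h.smul ε _ hε w0).trans
          (mul_le_mul_of_nonneg_left (hC (mem_image_of_mem _ ⟨w0, w1⟩)) hε.le))
    refine le_trans (add_le_add (mul_le_mul_left (ENNReal.ofReal_le_ofReal
      (Real.exp_le_exp.2 (neg_le_neg (h.smul ε u hε hu)))) _) (le_of_eq ?_)) h1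
    rw [hS, Finset.mul_sum]
    refine Finset.sum_congr rfl fun i _ => ?_
    rw [Pi.smul_apply, smul_eq_mul, ENNReal.ofReal_mul hε.le,
      ENNReal.ofReal_mul (Real.exp_pos _).le]
    ring
  have hSt : S ≠ ∞ := by
    intro hS'
    have h1 := key 1 one_pos
    rw [hS', ENNReal.mul_top (by simpa using Real.exp_pos _), add_top] at h1
    exact hA (top_le_iff.1 h1)
  lift A φ I to NNReal using hA with a
  lift S to NNReal using hSt with s
  have key' : ∀ ε : ℝ, 0 < ε → Real.exp (-(ε * C)) * s ≤ φ u * a := by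
    intro ε hε
    have h1 := key ε hε
    rw [← ENNReal.ofReal_coe_nnreal (p := a), ← ENNReal.ofReal_coe_nnreal (p := s),
      ← ENNReal.ofReal_mul (by positivity), ← ENNReal.ofReal_mul (by positivity),
      ← ENNReal.ofReal_add (by positivity) (by positivity),
      ENNReal.ofReal_le_ofReal_iff (by positivity)] at h1
    have h2 := mul_le_mul_of_nonneg_right (Real.add_one_le_exp (-(ε * φ u))) a.2
    refine le_of_mul_le_mul_left ?_ hε
    simp only [NNReal.val_eq_coe] at h2
    nlinarith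
  have lim : Tendsto (fun ε : ℝ => Real.exp (-(ε * C)) * s) (𝓝[>] 0) (𝓝 s) := by
    have : Continuous fun ε : ℝ => Real.exp (-(ε * C)) * s := by fun_prop
    simpa using (this.tendsto 0).mono_left nhdsWithin_le_nhds
  have h3 : (s : ℝ) ≤ φ u * a :=
    le_of_tendsto lim (eventually_nhdsWithin_of_forall fun ε hε => key' ε hε)
  rw [← ENNReal.ofReal_coe_nnreal (p := a), ← ENNReal.ofReal_coe_nnreal (p := s),
    ← ENNReal.ofReal_mul' a.coe_nonneg]
  exact ENNReal.ofReal_le_ofReal h3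

lemma lintegral_exp_Iio : ∫⁻ t in Iio (0 : ℝ), ENNReal.ofReal (Real.exp t) = 1 := by
  rw [setLIntegral_congr Iio_ae_eq_Iic, ← ofReal_integral_eq_lintegral_ofReal
    (integrableOn_exp_Iic 0) (Eventually.of_forall fun _ => (Real.exp_pos _).le),
    integral_exp_Iic_zero, ENNReal.ofReal_one]

lemma decomp_aux {G : (Fin n → ℝ) → ℝ≥0∞} (hG : Measurable G)
    (h : ∀ x i t, x i = 0 → t < 0 → ENNReal.ofReal (Real.exp t) * G x ≤ G (update x i t))
    (J : Finset (Fin n)) : ∀ x : Fin n → ℝ, (∀ j ∈ J, x j = 0) →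
      ∑ I ∈ J.powerset, lm I ({z | ∀ j ∈ J, 0 ≤ z j}.indicator G) x ≤ lm J G x := by
  induction J using Finset.induction_on with
  | empty => intro x _; simp
  | insert i J hi ih =>
    intro x hx
    have hm : Measurable ({z : Fin n → ℝ | ∀ j ∈ insert i J, 0 ≤ z j}.indicator G) :=
      hG.indicator (by measurability)
    rw [Finset.sum_powerset_insert hi, ← Finset.sum_add_distrib]
    change _ ≤ lmarginal _ _ _ _
    rw [lmarginal_insert _ hG hi]
    refine le_trans ?_ (lintegral_mono fun t => ih (update x i t) fun j hj => by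
      rw [update_of_ne (ne_of_mem_of_not_mem hj hi)]; exact hx j (Finset.mem_insert_of_mem hj))
    refine le_trans (Finset.sum_le_sum fun I hI => ?_) (sum_lintegral_le _ _ _)
    have hiI : i ∉ I := fun h' => hi (Finset.mem_powerset.1 hI h')
    have e1 : lm (insert i I) ({z : Fin n → ℝ | ∀ j ∈ insert i J, 0 ≤ z j}.indicator G) x =
        ∫⁻ t, lm I ({z : Fin n → ℝ | ∀ j ∈ insert i J, 0 ≤ z j}.indicator G) (update x i t) :=
      lmarginal_insert _ hm hiI x
    have e2 : ∀ c : ℝ≥0∞, c = ∫⁻ t, (Iio (0 : ℝ)).indicator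
        (fun t => ENNReal.ofReal (Real.exp t) * c) t := fun c => by
      rw [lintegral_indicator measurableSet_Iio, lintegral_mul_const _ (by fun_prop),
        lintegral_exp_Iio, one_mul]
    rw [e1, e2 (lm I _ x)]
    refine (le_lintegral_add _ _).trans (lintegral_mono fun t => ?_)
    by_cases ht : t < 0
    · have z0 : lm I ({z : Fin n → ℝ | ∀ j ∈ insert i J, 0 ≤ z j}.indicator G) (update x i t) ≤
          lm I (fun _ => 0) (update x i t) := lm_mono fun z hz => by
        rw [indicator_of_notMem]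
        intro h'
        have := h' i (Finset.mem_insert_self _ _)
        rw [hz i hiI, update_self] at this
        exact this.not_gt ht
      have z1 : lm I (fun _ => 0) (update x i t) = 0 := by simp [lm, lmarginal]
      simp only [indicator_of_mem (mem_Iio.2 ht), le_zero_iff.1 (z0.trans z1.le), add_zero]
      rw [← lm_const_mul _ _ _ ENNReal.ofReal_ne_top]
      refine lintegral_mono fun y => ?_
      have e3 : updateFinset (update x i t) I y = update (updateFinset x I y) i t := by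
        ext j
        by_cases hj : j = i
        · simp [updateFinset, hj, hiI]
        · simp [updateFinset, hj]
      simp only [e3]
      have e4 : updateFinset x I y i = 0 := by
        simp [updateFinset, hiI, hx i (Finset.mem_insert_self _ _)]
      by_cases hz : updateFinset x I y ∈ {z : Fin n → ℝ | ∀ j ∈ insert i J, 0 ≤ z j}
      · rw [indicator_of_mem hz, indicator_of_mem]
        · exact h _ i t e4 ht
        · intro j hj
          rw [update_of_ne (ne_of_mem_of_not_mem hj hi)]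
          exact hz j (Finset.mem_insert_of_mem hj)
      · rw [indicator_of_notMem hz, mul_zero]; exact zero_le
    · simp only [indicator_of_notMem (s := Iio (0 : ℝ)) ht, zero_add]
      have hsub : {z : Fin n → ℝ | ∀ j ∈ insert i J, 0 ≤ z j} ⊆ {z | ∀ j ∈ J, 0 ≤ z j} :=
        fun z hz j hj => hz j (Finset.mem_insert_of_mem hj)
      exact lm_mono fun z _ => indicator_le_indicator_of_subset hsub (fun _ => zero_le) z

theorem decomp {φ : (Fin n → ℝ) → ℝ} (hφ : Continuous φ)
    (h : ∀ x i t, x i = 0 → t < 0 → φ (update x i t) ≤ φ x - t) :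
    ∑ I, A φ I ≤ ∫⁻ y, ENNReal.ofReal (Real.exp (-φ y)) := by
  have h1 := decomp_aux (G := fun y => ENNReal.ofReal (Real.exp (-φ y))) (by fun_prop)
    (fun x i t hx ht => by
      rw [← ENNReal.ofReal_mul (Real.exp_pos _).le, ← Real.exp_add]
      exact ENNReal.ofReal_le_ofReal (Real.exp_le_exp.2 (by linarith [h x i t hx ht])))
    Finset.univ 0 (fun _ _ => rfl)
  have e : {z : Fin n → ℝ | ∀ j ∈ Finset.univ, 0 ≤ z j} = Ici 0 := by
    ext z; simp [Pi.le_def]
  rw [e, Finset.powerset_univ] at h1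
  refine h1.trans (le_of_eq ?_)
  simp [lm, volume_pi]

end Pool.Agent.MP_5f4cdd_gt.AB

end

section

set_option autoImplicit false
open MeasureTheory Set ENNReal Topology Filter

namespace Pool.Agent.MP_5f4cdd_gt.EF

variable {n : ℕ}

/-- `K` fills a simplex up to the fraction `ε` of its volume -/
def Near (ε : ℝ) (K : Set (E n)) : Prop :=
  ∃ e : E n ≃ᵃ[ℝ] E n, K ⊆ e '' stdS n ∧
    (1 - ε) * (volume (e '' stdS n)).toReal ≤ (volume K).toReal

lemma toReal_image_affine (f : E n ≃ᵃ[ℝ] E n) (S : Set (E n)) :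
    (volume (f '' S)).toReal =
      |LinearMap.det (f.linear : E n →ₗ[ℝ] E n)| * (volume S).toReal := by
  rw [volume_image_affine, ENNReal.toReal_mul, ENNReal.toReal_ofReal (abs_nonneg _)]

lemma det_linear_pos (f : E n ≃ᵃ[ℝ] E n) : 0 < |LinearMap.det (f.linear : E n →ₗ[ℝ] E n)| :=
  abs_pos.2 (LinearEquiv.isUnit_det' f.linear).ne_zero

lemma volume_stdS_ne_top : volume (stdS n) ≠ ∞ := by
  rw [volume_stdS]; exact (volume_cS_lt_top zero_le_one).ne

lemma toReal_stdS_pos : 0 < (volume (stdS n)).toReal := by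
  refine ENNReal.toReal_pos ?_ volume_stdS_ne_top
  rw [volume_stdS]; exact (volume_cS_pos one_pos).ne'

lemma toReal_simplex_pos (e : E n ≃ᵃ[ℝ] E n) : 0 < (volume (e '' stdS n)).toReal := by
  rw [toReal_image_affine]; exact mul_pos (det_linear_pos e) toReal_stdS_pos

lemma Near.mono {ε ε' : ℝ} {K : Set (E n)} (h : Near ε K) (hε : ε ≤ ε') : Near ε' K := by
  obtain ⟨e, h1, h2⟩ := h
  exact ⟨e, h1, le_trans (mul_le_mul_of_nonneg_right (by linarith) ENNReal.toReal_nonneg) h2⟩

lemma near_simplex (e : E n ≃ᵃ[ℝ] E n) : Near 0 (e '' stdS n) := ⟨e, subset_rfl, by simp⟩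

lemma Near.transfer {ε ε' : ℝ} {A C : Set (E n)} (hA : Near ε A) (f : E n ≃ᵃ[ℝ] E n)
    (hC : C ⊆ f '' A) (hε : ε < 1) (hε' : ε' ≤ 1)
    (hv : (1 - ε') * (volume (f '' A)).toReal ≤ (1 - ε) * (volume C).toReal) : Near ε' C := by
  obtain ⟨e, h1, h2⟩ := hA
  have he : (e.trans f) '' stdS n = f '' (e '' stdS n) := by
    rw [AffineEquiv.coe_trans, image_comp]
  refine ⟨e.trans f, by rw [he]; exact hC.trans (image_mono h1), ?_⟩
  rw [he, toReal_image_affine]
  rw [toReal_image_affine] at hv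
  have hd := det_linear_pos f
  refine le_of_mul_le_mul_left ?_ (sub_pos.2 hε)
  refine le_trans ?_ hv
  have := mul_le_mul_of_nonneg_left h2 (mul_nonneg (sub_nonneg.2 hε') hd.le)
  nlinarith

lemma Near.image {ε : ℝ} {A : Set (E n)} (hA : Near ε A) (f : E n ≃ᵃ[ℝ] E n) (hε : ε < 1) :
    Near ε (f '' A) := hA.transfer f subset_rfl hε hε.le le_rfl

lemma toReal_homothety (c : E n) {ρ : ℝ} (hρ : 0 ≤ ρ) (A : Set (E n)) :
    (volume (AffineMap.homothety c ρ '' A)).toReal = ρ ^ n * (volume A).toReal := by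
  rw [Measure.addHaar_image_homothety, ENNReal.toReal_mul, ENNReal.toReal_ofReal (abs_nonneg _),
    abs_of_nonneg (pow_nonneg hρ _)]
  simp

lemma Near.homothety {ε ε' ρ σ : ℝ} {A C : Set (E n)} {c : E n} (hA : Near ε A) (hρ : 0 < ρ)
    (hσ : 0 ≤ σ) (h1 : C ⊆ AffineMap.homothety c ρ '' A) (h2 : AffineMap.homothety c σ '' A ⊆ C)
    (hC : volume C ≠ ∞) (hε : ε < 1) (hε' : ε' ≤ 1)
    (h : (1 - ε') * ρ ^ n ≤ (1 - ε) * σ ^ n) : Near ε' C := by
  have hf : ((AffineEquiv.homothetyUnitsMulHom c (Units.mk0 ρ hρ.ne') : E n ≃ᵃ[ℝ] E n) :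
      E n → E n) = AffineMap.homothety c ρ := by
    rw [AffineEquiv.coe_homothetyUnitsMulHom_apply]; rfl
  refine hA.transfer (AffineEquiv.homothetyUnitsMulHom c (Units.mk0 ρ hρ.ne'))
    (by rwa [hf]) hε hε' ?_
  rw [hf, toReal_homothety c hρ.le]
  have h3 := ENNReal.toReal_mono hC (measure_mono h2)
  rw [toReal_homothety c hσ] at h3
  have h4 := mul_le_mul_of_nonneg_right h (ENNReal.toReal_nonneg (a := volume A))
  have h5 := mul_le_mul_of_nonneg_left h3 (sub_pos.2 hε).le
  nlinarith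

lemma homothety_inv_left {c : E n} {ρ : ℝ} (hρ : ρ ≠ 0) {A C : Set (E n)}
    (h : AffineMap.homothety c ρ '' A ⊆ C) : A ⊆ AffineMap.homothety c ρ⁻¹ '' C := by
  intro a ha
  refine ⟨_, h (mem_image_of_mem _ ha), ?_⟩
  rw [← AffineMap.homothety_mul_apply, inv_mul_cancel₀ hρ, AffineMap.homothety_one]; rfl

lemma homothety_inv_right {c : E n} {ρ : ℝ} (hρ : ρ ≠ 0) {A C : Set (E n)}
    (h : C ⊆ AffineMap.homothety c ρ '' A) : AffineMap.homothety c ρ⁻¹ '' C ⊆ A := by
  rintro _ ⟨z, hz, rfl⟩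
  obtain ⟨a, ha, rfl⟩ := h hz
  rw [← AffineMap.homothety_mul_apply, inv_mul_cancel₀ hρ, AffineMap.homothety_one]; exact ha

/-- cancellation lemma -/
lemma shrink_sub {A X C : Set (E n)} {c : E n} {l : ℝ} (hA : IsCompact A)
    (hX : A ⊆ convexHull ℝ X) (hC : Convex ℝ C) (hCc : IsClosed C) (hl0 : 0 ≤ l) (hl1 : l ≤ 1)
    (h : ∀ a ∈ X, ∃ w ∈ C, ∃ b ∈ A, a = w + l • (b - c)) :
    AffineMap.homothety c (1 - l) '' A ⊆ C := by
  rintro _ ⟨a, ha, rfl⟩
  by_contra hz
  obtain ⟨f, u, h1, h2⟩ := geometric_hahn_banach_closed_point hC hCc hz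
  obtain ⟨a', ha', hmax⟩ := hA.exists_isMaxOn ⟨a, ha⟩ f.continuous.continuousOn
  have h3 : X ⊆ {x | f x < u + l * (f a' - f c)} := by
    intro x hx
    obtain ⟨w, hw, b, hb, rfl⟩ := h x hx
    have := hmax hb
    simp only [mem_ofPred_eq, map_add, map_smul, map_sub, smul_eq_mul] at this ⊢
    nlinarith [h1 w hw]
  have h4 := convexHull_min h3 (convex_halfSpace_lt f.toLinearMap.isLinear _) (hX ha')
  have h5 := hmax ha
  simp only [AffineMap.homothety_apply, vsub_eq_sub, vadd_eq_add, map_add, map_smul, map_sub,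
    smul_eq_mul, mem_ofPred_eq] at h2 h4 h5
  nlinarith

lemma sandwich {ι : Type} [Finite ι] (p q : ι → E n) {c : E n} {r δ : ℝ} (hδ0 : 0 < δ)
    (hδ1 : δ ≤ 1) (hb : Metric.closedBall c r ⊆ convexHull ℝ (range p))
    (h : ∀ i, ‖p i - q i‖ ≤ δ * r) :
    AffineMap.homothety c (1 - δ) '' convexHull ℝ (range p) ⊆ convexHull ℝ (range q) ∧
    convexHull ℝ (range q) ⊆ AffineMap.homothety c (1 + δ) '' convexHull ℝ (range p) := by
  have hm : ∀ v : E n, ‖v‖ ≤ δ * r → c + δ⁻¹ • v ∈ convexHull ℝ (range p) := fun v hv => by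
    refine hb ?_
    rw [Metric.mem_closedBall, dist_eq_norm, add_sub_cancel_left, norm_smul, Real.norm_eq_abs,
      abs_of_pos (inv_pos.2 hδ0), inv_mul_le_iff₀ hδ0]
    exact hv
  constructor
  · refine shrink_sub ((finite_range p).isCompact_convexHull ℝ) subset_rfl (convex_convexHull ℝ _)
      ((finite_range q).isCompact_convexHull ℝ).isClosed hδ0.le hδ1 ?_
    rintro _ ⟨i, rfl⟩
    refine ⟨q i, subset_convexHull ℝ _ (mem_range_self i), _, hm _ (h i), ?_⟩
    rw [add_sub_cancel_left, smul_smul, mul_inv_cancel₀ hδ0.ne', one_smul]; abel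
  · refine convexHull_min ?_ ((convex_convexHull ℝ _).affine_image _)
    rintro _ ⟨i, rfl⟩
    have h1 : 0 < 1 + δ := by linarith
    refine ⟨_, convex_convexHull ℝ _ (subset_convexHull ℝ _ (mem_range_self i))
      (hm (q i - p i) (by rw [norm_sub_rev]; exact h i)) (a := 1 / (1 + δ)) (b := δ / (1 + δ))
      (by positivity) (by positivity) (by field_simp), ?_⟩
    ext j
    simp only [AffineMap.homothety_apply, vsub_eq_sub, vadd_eq_add, Pi.add_apply, Pi.smul_apply,
      Pi.sub_apply, smul_eq_mul]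
    field_simp
    ring

lemma exists_delta {ε ε' : ℝ} (h : ε < ε') (n : ℕ) :
    ∃ δ : ℝ, 0 < δ ∧ δ < 1 ∧ (1 - ε') * (1 + δ) ^ n ≤ (1 - ε) * (1 - δ) ^ n := by
  have h1 : ∀ᶠ δ in 𝓝 (0 : ℝ), (1 - ε') * (1 + δ) ^ n < (1 - ε) * (1 - δ) ^ n :=
    ContinuousAt.eventually_lt (by fun_prop) (by fun_prop) (by simpa using h)
  have h2 : ∀ᶠ δ in 𝓝 (0 : ℝ), δ < 1 := eventually_lt_nhds one_pos
  obtain ⟨δ, ⟨h3, h4⟩, h5⟩ := (((h1.and h2).filter_mono nhdsWithin_le_nhds).and
    (self_mem_nhdsWithin (a := (0 : ℝ)) (s := Ioi 0))).exists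
  exact ⟨δ, h5, h4, h3.le⟩

/-- nearness cannot jump over a moat along a shadow system -/
lemma near_flow {ι : Type} [Finite ι] (x : ι → E n) (a : ι → ℝ) (θ : E n) {s : Set ℝ}
    (hs : IsPreconnected s)
    (hi : ∀ t ∈ s, (interior (convexHull ℝ (range (shadowPts x a θ t)))).Nonempty)
    {ε ε' : ℝ} (hεε' : ε < ε') (hε' : ε' ≤ 1)
    (moat : ∀ t ∈ s, Near ε' (convexHull ℝ (range (shadowPts x a θ t))) →
      Near ε (convexHull ℝ (range (shadowPts x a θ t))))
    {t₀ t₁ : ℝ} (h₀ : t₀ ∈ s) (h₁ : t₁ ∈ s) :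
    Near ε' (convexHull ℝ (range (shadowPts x a θ t₀))) →
      Near ε' (convexHull ℝ (range (shadowPts x a θ t₁))) := by
  obtain ⟨δ, hδ0, hδ1, hδ⟩ := exists_delta hεε' n
  have hε : ε < 1 := hεε'.trans_le hε'
  have hfin : ∀ t, volume (convexHull ℝ (range (shadowPts x a θ t))) ≠ ∞ := fun t =>
    ((finite_range _).isCompact_convexHull ℝ).measure_lt_top.ne
  refine hs.induction₂' (fun t t' => Near ε' (convexHull ℝ (range (shadowPts x a θ t))) →
      Near ε' (convexHull ℝ (range (shadowPts x a θ t')))) (fun t ht => ?_)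
      (fun _ _ _ _ _ _ h h' h'' => h' (h h'')) h₀ h₁
  obtain ⟨c, hc⟩ := hi t ht
  obtain ⟨r, hr, hb⟩ := Metric.nhds_basis_closedBall.mem_iff.1 (mem_interior_iff_mem_nhds.1 hc)
  have h1 : ∀ᶠ t' in 𝓝 t, ∀ i, ‖shadowPts x a θ t i - shadowPts x a θ t' i‖ ≤ δ * r := by
    refine eventually_all.2 fun i => ?_
    have : ∀ᶠ t' in 𝓝 t, ‖shadowPts x a θ t i - shadowPts x a θ t' i‖ < δ * r :=
      ContinuousAt.eventually_lt (by unfold shadowPts; fun_prop) continuousAt_const
        (by simpa using mul_pos hδ0 hr)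
    exact this.mono fun _ h => h.le
  filter_upwards [h1.filter_mono nhdsWithin_le_nhds, self_mem_nhdsWithin] with t' h2 ht'
  obtain ⟨h3, h4⟩ := sandwich _ _ hδ0 hδ1.le hb h2
  have h5 : 0 < 1 - δ := by linarith
  have h6 : 0 < 1 + δ := by linarith
  refine ⟨fun h => (moat t ht h).homothety h6 h5.le h4 h3 (hfin _) hε hε' hδ,
    fun h => (moat t' ht' h).homothety (inv_pos.2 h5) (inv_pos.2 h6).le
      (homothety_inv_left h5.ne' h3) (homothety_inv_right h6.ne' h4) (hfin _) hε hε' ?_⟩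
  rw [inv_pow, inv_pow, ← div_eq_mul_inv, ← div_eq_mul_inv,
    div_le_div_iff₀ (pow_pos h5 _) (pow_pos h6 _)]
  exact hδ

end Pool.Agent.MP_5f4cdd_gt.EF

end

section

set_option autoImplicit false
open MeasureTheory Set ENNReal Topology Filter Matrix

namespace Pool.Agent.MP_5f4cdd_gt.EF

open PL

variable {n : ℕ}

lemma cap' {δ : ℝ} (hδ : 0 < δ) : ∃ ε > 0, ∀ K : Set (E n), Convex ℝ K → IsCompact K →
    K ⊆ stdS n → (1 - ε) * (volume (stdS n)).toReal ≤ (volume K).toReal →
    ∀ u : E n, (∀ i, δ ≤ u i) → ∑ i, u i ≤ 1 - δ → u ∈ K := by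
  have hn : (0 : ℝ) < n + 1 := by positivity
  set B := volume (Metric.closedBall (0 : E n) ((n + 1) * δ / (n + 1) ^ 2)) with hB
  have hB0 : B ≠ 0 := (Metric.measure_closedBall_pos volume _ (by positivity)).ne'
  have hBt : B ≠ ∞ := (isCompact_closedBall _ _).measure_lt_top.ne
  have hB1 : 0 < B.toReal := ENNReal.toReal_pos hB0 hBt
  have hV := toReal_stdS_pos (n := n)
  refine ⟨B.toReal / (4 * (volume (stdS n)).toReal), by positivity,
    fun K hK hKc hKs hv u h1 h2 => ?_⟩
  set K' := (fun z => z - cen n) '' K with hK'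
  have hc : IsCompact K' := hKc.image (by fun_prop)
  have hs : K' ⊆ cS n 1 := by rw [← image_sub_cen]; exact image_mono hKs
  have hconv : Convex ℝ K' := by
    simpa only [hK', sub_eq_neg_add] using hK.translate (-cen n)
  have hd : volume (cS n 1 \ K') = volume (stdS n) - volume K := by
    rw [measure_sdiff hs hc.measurableSet.nullMeasurableSet hc.measure_lt_top.ne, volume_stdS,
      hK', volume_image_sub]
  have h3 : cS n (1 - (n + 1) * δ) ⊆ K' := by
    refine cap hconv hc.measurableSet ?_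
    rw [hd, ← hB, ← ENNReal.toReal_lt_toReal
      (ENNReal.mul_ne_top (by simp) (ENNReal.sub_ne_top volume_stdS_ne_top)) hBt,
      ENNReal.toReal_mul, ENNReal.toReal_sub_of_le (measure_mono hKs) volume_stdS_ne_top]
    have : B.toReal / (4 * (volume (stdS n)).toReal) * (volume (stdS n)).toReal = B.toReal / 4 := by
      field_simp
    simp only [ENNReal.toReal_ofNat]
    nlinarith
  have h4 : u - cen n ∈ cS n (1 - (n + 1) * δ) := by
    have hs : ∑ i, (u - cen n) i = ∑ i, u i - n / (n + 1) := by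
      simp [cen, Finset.sum_sub_distrib, div_eq_mul_inv]
    have hk : (n : ℝ) / (n + 1) + 1 / (n + 1) = 1 := by field_simp
    have hk2 : (1 - (n + 1) * δ) / (n + 1) = 1 / (n + 1) - δ := by field_simp
    intro j
    rw [hk2]
    refine Fin.cases ?_ (fun i => ?_) j
    · rw [bet_zero, hs]; linarith
    · simp only [bet_succ, Pi.sub_apply, cen]; linarith [h1 i]
  obtain ⟨z, hz, he⟩ := h3 h4
  rwa [← sub_left_injective he]

/-- the polar body of a simplex is a simplex -/
lemma polar_simplex {x : E n} (h1 : ∀ i, 0 < x i) (h2 : ∑ i, x i < 1) :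
    ∃ g : E n ≃ᵃ[ℝ] E n,
      (∀ w, w ∈ g '' stdS n ↔ (∀ i, w i - x ⬝ᵥ w ≤ 1) ∧ -(x ⬝ᵥ w) ≤ 1) ∧
      (∏ i, x i) * (1 - ∑ i, x i) * (volume (g '' stdS n)).toReal = (volume (stdS n)).toReal := by
  set L : E n →ₗ[ℝ] E n := Matrix.toLin'
    (diagonal x * (1 + replicateCol Unit (fun _ => (-1 : ℝ)) * replicateRow Unit x)) with hL
  have hLa : ∀ w i, L w i = x i * (w i - x ⬝ᵥ w) := by
    intro w i
    rw [hL, Matrix.toLin'_apply, ← Matrix.mulVec_mulVec, Matrix.mulVec_diagonal,
      Matrix.add_mulVec, Matrix.one_mulVec, ← Matrix.mulVec_mulVec]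
    simp [Matrix.mulVec, dotProduct, sub_eq_add_neg, Matrix.mul_apply]
  have hdet : LinearMap.det L = (∏ i, x i) * (1 - ∑ i, x i) := by
    rw [hL, LinearMap.det_toLin', det_mul, det_diagonal, det_one_add_replicateCol_mul_replicateRow]
    simp [dotProduct, sub_eq_add_neg]
  have hpos : 0 < (∏ i, x i) * (1 - ∑ i, x i) :=
    mul_pos (Finset.prod_pos fun i _ => h1 i) (sub_pos.2 h2)
  have hne : LinearMap.det L ≠ 0 := by rw [hdet]; exact hpos.ne'
  set G := L.equivOfDetNeZero hne with hG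
  have hGL : ∀ w, G w = L w := fun w => rfl
  set g : E n ≃ᵃ[ℝ] E n := (AffineEquiv.constVSub ℝ x).trans G.symm.toAffineEquiv with hg
  have hga : ∀ u, g u = G.symm (x - u) := fun u => rfl
  have hmem : ∀ w, w ∈ g '' stdS n ↔ x - L w ∈ stdS n := by
    intro w
    constructor
    · rintro ⟨u, hu, rfl⟩
      rw [hga, ← hGL, G.apply_symm_apply, _root_.sub_sub_cancel]; exact hu
    · intro h
      exact ⟨_, h, by rw [hga, _root_.sub_sub_cancel, ← hGL, G.symm_apply_apply]⟩
  refine ⟨g, fun w => ?_, ?_⟩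
  · rw [hmem]
    have hs : ∑ i, (x - L w) i = 1 - (1 - ∑ i, x i) * (1 + x ⬝ᵥ w) := by
      simp only [Pi.sub_apply, hLa, mul_sub, Finset.sum_sub_distrib, ← Finset.sum_mul]
      change _ - (x ⬝ᵥ w - _) = _
      ring
    simp only [stdS, mem_ofPred_eq, hs]
    refine and_congr (forall_congr' fun i => ?_) ?_
    · rw [Pi.sub_apply, hLa, sub_nonneg]
      exact mul_le_iff_le_one_right (h1 i)
    · rw [sub_le_self_iff, mul_nonneg_iff_of_pos_left (sub_pos.2 h2)]
      constructor <;> intro h <;> linarith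
  · have h3 : L '' (g '' stdS n) = (fun u => x - u) ⁻¹' stdS n := by
      ext z
      constructor
      · rintro ⟨w, hw, rfl⟩; exact (hmem w).1 hw
      · intro h
        refine ⟨G.symm z, (hmem _).2 ?_, by rw [← hGL, G.apply_symm_apply]⟩
        rwa [← hGL, G.apply_symm_apply]
    have h4 : volume ((fun u => x - u) ⁻¹' stdS n) = volume (stdS n) := by
      refine (Measure.measurePreserving_sub_left volume x).measure_preimage ?_
      rw [← preimage_image_eq (stdS n) (sub_left_injective (b := cen n)), image_sub_cen]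
      exact ((isClosed_cS 1).preimage (by fun_prop)).measurableSet.nullMeasurableSet
    rw [← h4, ← h3, Measure.addHaar_image_linearMap, ENNReal.toReal_mul,
      ENNReal.toReal_ofReal (abs_nonneg _), hdet, abs_of_pos hpos]

lemma interior_stdS {x : E (n + 1)} (hx : x ∈ interior (stdS (n + 1))) :
    (∀ i, 0 < x i) ∧ ∑ i, x i < 1 := by
  obtain ⟨r, hr, hb⟩ := Metric.nhds_basis_closedBall.mem_iff.1 (mem_interior_iff_mem_nhds.1 hx)
  have h : ∀ c : ℝ, |c| ≤ r → (x + fun _ => c) ∈ stdS (n + 1) := fun c hc => hb (by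
    rw [Metric.mem_closedBall, dist_eq_norm, add_sub_cancel_left, pi_norm_const]; exact hc)
  refine ⟨fun i => ?_, ?_⟩
  · have := (h (-r) (by rw [abs_neg, abs_of_pos hr])).1 i
    simp only [Pi.add_apply] at this
    linarith
  · have := (h r (by rw [abs_of_pos hr])).2
    simp only [Pi.add_apply, Finset.sum_add_distrib, Finset.sum_const, Finset.card_univ,
      Fintype.card_fin, nsmul_eq_mul] at this
    have h2 : 0 < ((n + 1 : ℕ) : ℝ) * r := by positivity
    linarith

lemma polar_norm {C ε' : ℝ} (hC : 0 < C) (h0 : 0 < ε') (h1 : ε' ≤ 1) :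
    ∃ ε > 0, ∀ K : Set (E (n + 1)), Convex ℝ K → IsCompact K → K ⊆ stdS (n + 1) →
      ∀ x ∈ interior K, (1 - ε) * (volume (stdS (n + 1))).toReal ≤ (volume K).toReal →
      (volume K).toReal * (volume (polarS ((fun z => z - x) '' K))).toReal ≤ C →
      Near ε' (polarS ((fun z => z - x) '' K)) := by
  obtain ⟨δ, hδ0, hδ1, hδ⟩ := exists_delta h0 (n + 1)
  have hV := toReal_stdS_pos (n := n + 1)
  set V := (volume (stdS (n + 1))).toReal with hVd
  set l := V ^ 2 / (2 * C) with hl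
  have hl0 : 0 < l := by positivity
  obtain ⟨ε, hε, hcap⟩ := cap' (n := n + 1) (mul_pos hδ0 hl0)
  refine ⟨min ε (1 / 2), by positivity, fun K hK hKc hKs x hx hv hM => ?_⟩
  obtain ⟨hx1, hx2⟩ := interior_stdS (interior_mono hKs hx)
  obtain ⟨g, hg1, hg2⟩ := polar_simplex hx1 hx2
  have hfin := volume_polarS_sub_ne_top hx
  have hsub : g '' stdS (n + 1) ⊆ polarS ((fun z => z - x) '' K) := by
    rintro w hw _ ⟨u, hu, rfl⟩
    obtain ⟨a1, a2⟩ := (hg1 w).1 hw
    obtain ⟨b1, b2⟩ := hKs hu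
    have e : (u - x) ⬝ᵥ w = ∑ i, u i * (w i - x ⬝ᵥ w) + (1 - ∑ i, u i) * -(x ⬝ᵥ w) := by
      simp only [sub_dotProduct, mul_sub, Finset.sum_sub_distrib, ← Finset.sum_mul]
      change u ⬝ᵥ w - _ = u ⬝ᵥ w - _ + _
      ring
    have e1 : ∑ i, u i * (w i - x ⬝ᵥ w) ≤ ∑ i, u i :=
      Finset.sum_le_sum fun i _ => mul_le_of_le_one_right (b1 i) (a1 i)
    have e2 := mul_le_of_le_one_right (sub_nonneg.2 b2) a2
    rw [e]; linarith
  have hP0 : 0 < ∏ i, x i := Finset.prod_pos fun i _ => hx1 i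
  have hs0 : 0 ≤ ∑ i, x i := Finset.sum_nonneg fun i _ => (hx1 i).le
  have hle1 : ∀ i, x i ≤ 1 := fun i =>
    (Finset.single_le_sum (fun j _ => (hx1 j).le) (Finset.mem_univ i)).trans hx2.le
  have hP : l ≤ (∏ i, x i) * (1 - ∑ i, x i) := by
    have a1 := ENNReal.toReal_mono hfin (measure_mono hsub)
    have a2 : V / 2 ≤ (volume K).toReal := by
      nlinarith [min_le_right ε (1 / 2)]
    have a3 : V / 2 * (volume (g '' stdS (n + 1))).toReal ≤ C :=
      (mul_le_mul a2 a1 ENNReal.toReal_nonneg ENNReal.toReal_nonneg).trans hM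
    have a4 := mul_le_mul_of_nonneg_left a3 (mul_pos hP0 (sub_pos.2 hx2)).le
    rw [hl, div_le_iff₀ (by positivity)]
    nlinarith
  have hPi : ∀ i, ∏ j, x j ≤ x i := fun i => by
    rw [← Finset.mul_prod_erase _ _ (Finset.mem_univ i)]
    exact mul_le_of_le_one_right (hx1 i).le
      (Finset.prod_le_one (fun j _ => (hx1 j).le) fun j _ => hle1 j)
  have hxi : ∀ i, l ≤ x i := fun i =>
    hP.trans ((mul_le_of_le_one_right hP0.le (by linarith)).trans (hPi i))
  have hx0 : l ≤ 1 - ∑ i, x i :=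
    hP.trans (mul_le_of_le_one_left (by linarith) ((hPi 0).trans (hle1 0)))
  have hs : 0 < 1 - δ := by linarith
  have hin : ∀ v ∈ stdS (n + 1), (1 - δ) • v + δ • x ∈ K := by
    intro v hv'
    refine hcap K hK hKc hKs (le_trans (mul_le_mul_of_nonneg_right
      (by linarith [min_le_left ε (1 / 2)]) hV.le) hv) _ (fun i => ?_) ?_
    · simp only [Pi.add_apply, Pi.smul_apply, smul_eq_mul]
      nlinarith [hv'.1 i, hxi i]
    · simp only [Pi.add_apply, Pi.smul_apply, smul_eq_mul, Finset.sum_add_distrib,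
        ← Finset.mul_sum]
      nlinarith [hv'.2]
  refine (near_simplex g).homothety (c := 0) (σ := 1) (inv_pos.2 hs) zero_le_one (fun w hw => ?_)
    (by simpa using hsub) hfin one_pos h1 ?_
  · have key : ∀ v ∈ stdS (n + 1), (v - x) ⬝ᵥ ((1 - δ) • w) ≤ 1 := fun v hv' => by
      have := hw _ ⟨_, hin v hv', rfl⟩
      have e : (1 - δ) • v + δ • x - x = (1 - δ) • (v - x) := by module
      simp only [e, smul_dotProduct] at this
      rwa [dotProduct_smul]
    refine ⟨(1 - δ) • w, (hg1 _).2 ⟨fun i => ?_, ?_⟩, ?_⟩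
    · have := key (Pi.single i 1) ⟨fun j => by
        rcases eq_or_ne j i with rfl | h
        · simp
        · simp [h], by simp⟩
      rwa [sub_dotProduct, single_one_dotProduct] at this
    · have := key 0 ⟨fun j => le_rfl, by simp⟩
      rwa [zero_sub, neg_dotProduct] at this
    · simp [AffineMap.homothety_apply, smul_smul, inv_mul_cancel₀ hs.ne']
  · rw [inv_pow, ← div_eq_mul_inv, div_le_iff₀ (pow_pos hs _)]
    have : 1 ≤ (1 + δ) ^ (n + 1) := one_le_pow₀ (by linarith)
    simp only [sub_zero, one_mul, one_pow] at hδ ⊢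
    nlinarith

/-- if a body of bounded volume product is close to a simplex, then so is its polar body -/
theorem polar_near {C ε' : ℝ} (hC : 0 < C) (h0 : 0 < ε') (h1 : ε' < 1) :
    ∃ ε > 0, ∀ K : Set (E (n + 1)), Convex ℝ K → IsCompact K → 0 ∈ interior K → Near ε K →
      (volume K).toReal * (volume (polarS K)).toReal ≤ C → Near ε' (polarS K) := by
  obtain ⟨ε, hε, h⟩ := polar_norm (n := n) hC h0 h1.le
  refine ⟨ε, hε, fun K hK hKc hK0 ⟨e, he1, he2⟩ hM => ?_⟩
  set B := (e.symm.linear : E (n + 1) →ₗ[ℝ] E (n + 1)) with hB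
  have hd : 0 < |LinearMap.det B| := det_linear_pos e.symm
  have hne : LinearMap.det (adj B) ≠ 0 := by rw [det_adj]; exact abs_pos.1 hd
  set G := (adj B).equivOfDetNeZero hne with hG
  have hGB : ∀ w, G w = adj B w := fun w => rfl
  have hcont : Continuous e.symm := e.symm.toAffineMap.continuous_of_finiteDimensional
  have hcont' : Continuous e := e.toAffineMap.continuous_of_finiteDimensional
  have hsub : (fun z => z - e.symm 0) '' (e.symm '' K) = B '' K := by
    rw [image_image]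
    refine image_congr fun z _ => ?_
    have := e.symm.map_vadd 0 z
    simp only [vadd_eq_add, add_zero] at this
    simp [this, hB]
  have hpol : polarS K = G.toAffineEquiv '' polarS (B '' K) := by
    ext w
    constructor
    · intro hw
      refine ⟨G.symm w, ?_, G.apply_symm_apply w⟩
      rintro _ ⟨z, hz, rfl⟩
      rw [dot_adj, ← hGB, G.apply_symm_apply]
      exact hw z hz
    · rintro ⟨v, hv, rfl⟩ z hz
      have := hv _ (mem_image_of_mem _ hz)
      rwa [dot_adj] at this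
  have hvol : (volume (polarS K)).toReal =
      |LinearMap.det B| * (volume (polarS (B '' K))).toReal := by
    rw [hpol, toReal_image_affine, ← det_adj B]; rfl
  have hvK : (volume (e.symm '' K)).toReal = |LinearMap.det B| * (volume K).toReal :=
    toReal_image_affine _ _
  have hvS : (volume (stdS (n + 1))).toReal =
      |LinearMap.det B| * (volume (e '' stdS (n + 1))).toReal := by
    rw [← toReal_image_affine, image_image]; simp
  rw [hpol]
  refine Near.image ?_ _ h1
  rw [← hsub]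
  refine h (e.symm '' K) (hK.affine_image e.symm.toAffineMap) (hKc.image hcont) ?_ _ ?_ ?_ ?_
  · rintro _ ⟨z, hz, rfl⟩
    obtain ⟨u, hu, rfl⟩ := he1 hz
    simpa using hu
  · rw [mem_interior_iff_mem_nhds] at hK0 ⊢
    have h2 : e ⁻¹' K ∈ 𝓝 (e.symm 0) := hcont'.continuousAt.preimage_mem_nhds (by simpa using hK0)
    exact mem_of_superset h2 fun z hz => ⟨e z, hz, by simp⟩
  · rw [hvK, hvS, mul_left_comm]
    exact mul_le_mul_of_nonneg_left he2 hd.le
  · rw [hsub, hvK, mul_comm |_|, mul_assoc, ← hvol]; exact hM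

end Pool.Agent.MP_5f4cdd_gt.EF

end

section

set_option autoImplicit false
open MeasureTheory Set ENNReal Topology Filter Matrix Bornology

namespace Pool.Agent.MP_5f4cdd_gt.EF

open PL

variable {n : ℕ}

lemma mahlerInf_polar {L : Set (E n)} (hL : IsBounded L) (h0 : (0 : E n) ∈ L) :
    mahlerInf L = (n.factorial : ℝ≥0∞) * (volume L * volume (polarS L)) := by
  rw [PL.mahlerInf_eq, lintegral_expS hL h0, mul_left_comm]

lemma mem_interior_of_ne_top {K : Set (E n)} (hK : Convex ℝ K) (hb : IsBounded K)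
    (hi : (interior K).Nonempty) {c : E n} (h : mahlerInf ((fun z => z - c) '' K) ≠ ∞) :
    c ∈ interior K := by
  by_contra hc
  rw [PL.mahlerInf_eq, lintegral_expS_eq_top hK hb hi hc, volume_sub,
    ENNReal.mul_top (Measure.measure_pos_of_nonempty_interior _ hi).ne'] at h
  exact h rfl

lemma mahler_symm {ι κ : Type} [Finite ι] [Finite κ] {x : ι → E n} {y : κ → E n}
    (h : DualPair x y) :
    mahlerInf (convexHull ℝ (range y)) = mahlerInf (convexHull ℝ (range x)) := by
  rw [mahlerInf_polar (isCompact_hull x).isBounded (interior_subset h.zero_mem_interior),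
    mahlerInf_polar (isCompact_hull y).isBounded (interior_subset h.symm.zero_mem_interior),
    polarS, polarS, h.polar_eq, h.symm.polar_eq, mul_comm (volume _)]

lemma near_sub_iff {ε : ℝ} (hε : ε < 1) (K : Set (E n)) (c : E n) :
    Near ε ((fun z => z - c) '' K) ↔ Near ε K := by
  constructor
  · intro h
    have := h.image (AffineEquiv.constVAdd ℝ (E n) c) hε
    rw [image_image] at this
    simpa using this
  · intro h
    have := h.image (AffineEquiv.constVAdd ℝ (E n) (-c)) hε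
    simp only [sub_eq_neg_add]
    exact this

lemma convex_sub {K : Set (E n)} (hK : Convex ℝ K) (c : E n) :
    Convex ℝ ((fun z => z - c) '' K) := by
  simpa only [sub_eq_neg_add] using hK.translate (-c)

lemma step {ε ε' : ℝ} {μ : ℝ≥0∞} (hεε' : ε < ε') (hε' : ε' < 1)
    (moat : ∀ K : Set (E n), Convex ℝ K → IsCompact K → (interior K).Nonempty →
      mahlerInf K < μ → Near ε' K → Near ε K)
    {ι κ : Type} [Finite ι] [Finite κ] {x : ι → E n} {y : κ → E n} (h : DualPair x y)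
    (hf : HasFlow2 x y) (hM : mahlerInf (convexHull ℝ (range x)) < μ)
    (hN : ¬ Near ε' (convexHull ℝ (range x))) :
    ∃ (x' : ι → E n) (y' : κ → E n), DualPair x' y' ∧ mahlerInf (convexHull ℝ (range x')) < μ ∧
      ¬ Near ε' (convexHull ℝ (range x')) ∧ nInc x y < nInc x' y' := by
  obtain ⟨z, a, θ, δ, τ, α, β, hδ, hτ, hθ, hz, hfl⟩ := hf
  have := h.nonempty_left
  have hP0 : convexHull ℝ (range (shadowPts z a θ 0)) = convexHull ℝ (range x) := by
    rw [← hz]; congr 2; ext i; simp [shadowPts]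
  have hM0 : mstarInf (convexHull ℝ (range (shadowPts z a θ 0))) < μ := by
    refine lt_of_le_of_lt ((iInf_le _ 0).trans (le_of_eq ?_)) hM
    rw [hP0]; simp
  have key : ∀ T, (T = τ ∨ T = -δ) → T ∈ Icc (-δ) τ →
      (∀ t ∈ uIcc 0 T, mstarInf (convexHull ℝ (range (shadowPts z a θ t))) < μ) →
      ∃ (x' : ι → E n) (y' : κ → E n), DualPair x' y' ∧ mahlerInf (convexHull ℝ (range x')) < μ ∧
        ¬ Near ε' (convexHull ℝ (range x')) ∧ nInc x y < nInc x' y' := by
    intro T hT hT' hlt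
    have hsub : uIcc 0 T ⊆ Icc (-δ) τ := uIcc_subset_Icc ⟨by linarith, hτ.le⟩ hT'
    have hc : ∀ t ∈ uIcc 0 T, ∃ c ∈ interior (convexHull ℝ (range (shadowPts z a θ t))),
        mahlerInf ((fun w => w - c) '' convexHull ℝ (range (shadowPts z a θ t))) < μ := by
      intro t ht
      obtain ⟨c, hc⟩ := iInf_lt_iff.1 (hlt t ht)
      exact ⟨c, mem_interior_of_ne_top (convex_convexHull ℝ _) (isCompact_hull _).isBounded
        (hfl t (hsub ht)).2.1 hc.ne_top, hc⟩
    have hN' : ¬ Near ε' (convexHull ℝ (range (shadowPts z a θ T))) := fun hn => hN (by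
      rw [← hP0]
      refine near_flow z a θ isPreconnected_uIcc (fun t ht => (hfl t (hsub ht)).2.1) hεε' hε'.le
        (fun t ht h1 => ?_) right_mem_uIcc left_mem_uIcc hn
      obtain ⟨c, hc1, hc2⟩ := hc t ht
      rw [← near_sub_iff (hεε'.trans hε') _ c]
      exact moat _ (convex_sub (convex_convexHull ℝ _) c) ((isCompact_hull _).image (by fun_prop))
        ⟨0, zero_mem_interior_sub hc1⟩ hc2 ((near_sub_iff hε' _ c).2 h1))
    obtain ⟨c, hc1, hc2⟩ := hc T right_mem_uIcc
    obtain ⟨y', hy1, hy2⟩ := (hfl T hT').2.2 c hc1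
    refine ⟨_, y', hy1, ?_, ?_, hy2 hT⟩
    · rwa [hull_sub]
    · rwa [hull_sub, near_sub_iff hε']
  by_cases h1 : ∀ t ∈ uIcc 0 (-δ), mstarInf (convexHull ℝ (range (shadowPts z a θ t))) < μ
  · exact key _ (Or.inr rfl) ⟨le_rfl, by linarith⟩ h1
  · refine key _ (Or.inl rfl) ⟨by linarith, le_rfl⟩ fun t ht => ?_
    push Not at h1
    obtain ⟨s, hs, hs'⟩ := h1
    rw [uIcc_of_ge (by linarith)] at hs
    rw [uIcc_of_le hτ.le] at ht
    have hs0 : s < 0 := lt_of_le_of_ne hs.2 (by rintro rfl; exact absurd hM0 (not_lt.2 hs'))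
    rcases ht.1.eq_or_lt with rfl | ht0
    · exact hM0
    refine lt_of_le_of_lt (flow_le z a hθ (δ := -s) (A := α) (B := β) (by linarith) ht0 ?_
      hM0.ne_top ?_ le_rfl) hM0
    · intro r hr
      refine (hfl r ?_).1
      simp only [neg_neg, mem_insert_iff, mem_singleton_iff] at hr
      rcases hr with rfl | rfl | rfl
      · exact ⟨hs.1, by linarith⟩
      · exact ⟨by linarith, hτ.le⟩
      · exact ⟨by linarith, ht.2⟩
    · rw [neg_neg]; exact hM0.le.trans hs'

/-- every polytope of small volume product is close to a simplex -/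
theorem descent {ε ε' : ℝ} {μ : ℝ≥0∞} (h0 : 0 ≤ ε') (hεε' : ε < ε') (hε' : ε' < 1)
    (moat : ∀ K : Set (E 3), Convex ℝ K → IsCompact K → (interior K).Nonempty →
      mahlerInf K < μ → Near ε' K → Near ε K)
    (hpol : ∀ K : Set (E 3), Convex ℝ K → IsCompact K → 0 ∈ interior K →
      mahlerInf K < μ → Near ε K → Near ε' (polarS K))
    (k : ℕ) : ∀ (ι κ : Type) [Finite ι] [Finite κ] (x : ι → E 3) (y : κ → E 3),
      Nat.card ι * Nat.card κ - nInc x y = k → DualPair x y →
      mahlerInf (convexHull ℝ (range x)) < μ → Near ε' (convexHull ℝ (range x)) := by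
  induction k using Nat.strong_induction_on with
  | _ k ih =>
    intro ι κ _ _ x y hk h hM
    by_contra hN
    rcases stmtCD2 ι κ x y h with ⟨e, he⟩ | hf | hf
    · exact hN (he ▸ (near_simplex e).mono h0)
    · obtain ⟨x', y', a1, a2, a3, a4⟩ := step hεε' hε' moat h hf hM hN
      have := nInc_le x' y'
      exact a3 (ih _ (by omega) ι κ x' y' rfl a1 a2)
    · have hM' : mahlerInf (convexHull ℝ (range y)) < μ := by rwa [mahler_symm h]
      have hN' : ¬ Near ε' (convexHull ℝ (range y)) := fun hn => hN (by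
        have := hpol _ (convex_convexHull ℝ _) (isCompact_hull y) h.symm.zero_mem_interior hM'
          (moat _ (convex_convexHull ℝ _) (isCompact_hull y) ⟨0, h.symm.zero_mem_interior⟩ hM' hn)
        rwa [polarS, h.symm.polar_eq] at this)
      obtain ⟨y', x', a1, a2, a3, a4⟩ := step hεε' hε' moat h.symm hf hM' hN'
      have := nInc_le y' x'
      rw [nInc_comm x y] at a4
      refine a3 (ih _ ?_ κ ι y' x' rfl a1 a2)
      rw [mul_comm] at this ⊢
      omega

end Pool.Agent.MP_5f4cdd_gt.EF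

end

section

set_option autoImplicit false
open MeasureTheory ENNReal Set Filter Topology Function Matrix Pointwise

namespace Pool.Agent.MP_5f4cdd_gt.AB

open PL EF

variable {n : ℕ}

/-- anti-blocking sets -/
structure AntiB (L : Set (E n)) : Prop where
  conv : Convex ℝ L
  comp : IsCompact L
  nonneg : ∀ x ∈ L, 0 ≤ x
  down : ∀ x ∈ L, ∀ y, 0 ≤ y → y ≤ x → y ∈ L

lemma layer {g : E n → ℝ} (hg : Continuous g) (g0 : ∀ z, 0 ≤ z → 0 ≤ g z) {L : Set (E n)}
    (h : ∀ s : ℝ, 0 < s → {z | 0 ≤ z ∧ g z ≤ s} = s • L) :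
    ∫⁻ z, pos g z = (n.factorial : ℝ≥0∞) * volume L := by
  have hm := hg.measurable
  have e0 : ∀ z, pos g z = ∫⁻ s in Ioi (0 : ℝ), {q : E n × ℝ | 0 ≤ q.1 ∧ g q.1 ≤ q.2}.indicator
      (fun q => ENNReal.ofReal (Real.exp (-q.2))) (z, s) := by
    intro z
    by_cases hz : 0 ≤ z
    · rw [pos, indicator_of_mem (mem_Ici.2 hz), exp_neg_eq (g0 z hz)]
      simp only [indicator, mem_Ici, mem_ofPred_eq, hz, true_and]
    · simp [pos, indicator, hz]
  have hq : MeasurableSet {q : E n × ℝ | 0 ≤ q.1 ∧ g q.1 ≤ q.2} :=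
    (measurableSet_le measurable_const measurable_fst).inter
      (measurableSet_le (hm.comp measurable_fst) measurable_snd)
  simp only [e0]
  rw [lintegral_lintegral_swap]
  · rw [← lintegral_gamma, ← lintegral_mul_const _ (by fun_prop)]
    refine setLIntegral_congr_fun measurableSet_Ioi fun s hs => ?_
    have hs' : 0 < s := hs
    have e : ∀ y, {q : E n × ℝ | 0 ≤ q.1 ∧ g q.1 ≤ q.2}.indicator
        (fun q => ENNReal.ofReal (Real.exp (-q.2))) (y, s) =
        {y | 0 ≤ y ∧ g y ≤ s}.indicator (fun _ => ENNReal.ofReal (Real.exp (-s))) y := fun y => by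
      simp only [indicator, mem_ofPred_eq]
    simp only [e]
    have hms : MeasurableSet {y : E n | 0 ≤ y ∧ g y ≤ s} :=
      (measurableSet_le measurable_const measurable_id).inter (measurableSet_le hm measurable_const)
    rw [lintegral_indicator hms, setLIntegral_const,
      h s hs', Measure.addHaar_smul, ENNReal.ofReal_mul (Real.exp_pos _).le, mul_assoc]
    simp [abs_of_pos hs']
  · exact (Measurable.indicator (by fun_prop) hq).aemeasurable

lemma volume_simplex : (n.factorial : ℝ) * (volume (stdS n)).toReal = 1 := by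
  have h := layer (g := fun z : E n => ∑ i, z i) (by fun_prop)
    (fun z hz => Finset.sum_nonneg fun i _ => hz i) (L := stdS n) (fun s hs => by
      ext z
      rw [mem_smul_set_iff_inv_smul_mem₀ hs.ne']
      simp only [stdS, mem_ofPred_eq, Pi.smul_apply, smul_eq_mul, ← Finset.mul_sum,
        inv_mul_le_iff₀ hs, mul_one, mul_nonneg_iff_of_pos_left (inv_pos.2 hs), Pi.le_def,
        Pi.zero_apply])
  set f : ℝ → ℝ := (Ici (0 : ℝ)).indicator fun t => Real.exp (-t) with hf
  have fi : Integrable f := by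
    rw [hf, integrable_indicator_iff measurableSet_Ici, integrableOn_Ici_iff_integrableOn_Ioi]
    exact integrableOn_exp_neg_Ioi 0
  have f1 : ∫ t, f t = 1 := by
    rw [hf, integral_indicator measurableSet_Ici, integral_Ici_eq_integral_Ioi,
      integral_exp_neg_Ioi_zero]
  have f0 : ∀ t, 0 ≤ f t := fun t => indicator_nonneg (fun _ _ => (Real.exp_pos _).le) t
  have e : ∀ z : E n, pos (fun z : E n => ∑ i, z i) z = ENNReal.ofReal (∏ i, f (z i)) := by
    intro z
    by_cases hz : 0 ≤ z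
    · rw [pos, indicator_of_mem (mem_Ici.2 hz), ← Finset.sum_neg_distrib, Real.exp_sum]
      congr 1
      exact Finset.prod_congr rfl fun i _ => by
        rw [hf, indicator_of_mem (s := Ici (0 : ℝ)) (hz i)]
    · obtain ⟨i, hi⟩ : ∃ i, ¬ 0 ≤ z i := by simpa [Pi.le_def] using hz
      rw [pos, indicator_of_notMem (s := Ici 0) hz, Finset.prod_eq_zero (Finset.mem_univ i)
        (by rw [hf, indicator_of_notMem (s := Ici 0) hi]), ENNReal.ofReal_zero]
  simp only [e] at h
  rw [← ofReal_integral_eq_lintegral_ofReal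
    (by rw [volume_pi]; exact Integrable.fintype_prod (f := fun _ => f) fun _ => fi)
    (Eventually.of_forall fun z => Finset.prod_nonneg fun i _ => f0 _),
    integral_fintype_prod_volume_eq_pow, f1, one_pow] at h
  have := congrArg ENNReal.toReal h
  simpa using this.symm

lemma mahlerInf_cS_le : (n.factorial : ℝ) * (mahlerInf (cS n 1)).toReal ≤ (n + 1) ^ (n + 1) := by
  have h1 : ∑ i, cen n i = n / (n + 1) := by simp [cen, div_eq_mul_inv]
  have h2 : (0 : ℝ) < n + 1 := by positivity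
  obtain ⟨g, hg, hv⟩ := polar_simplex (x := cen n) (fun i => by simp only [cen]; positivity)
    (by rw [h1, div_lt_one h2]; linarith)
  have hsub : polarS (cS n 1) ⊆ g '' stdS n := by
    intro w hw
    rw [← image_sub_cen] at hw
    refine (hg w).2 ⟨fun i => ?_, ?_⟩
    · have := hw _ (mem_image_of_mem _ (show Pi.single i 1 ∈ stdS n from
        ⟨fun j => by rw [Pi.single_apply]; split_ifs <;> norm_num, by simp⟩))
      simpa [sub_dotProduct] using this
    · have := hw _ (mem_image_of_mem _ (show 0 ∈ stdS n from ⟨fun j => le_rfl, by simp⟩))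
      simpa using this
  have hgt : volume (g '' stdS n) ≠ ∞ := by
    rw [volume_image_affine]
    exact ENNReal.mul_ne_top ENNReal.ofReal_ne_top volume_stdS_ne_top
  have h3 := ENNReal.toReal_mono hgt (measure_mono hsub)
  have h4 : (volume (g '' stdS n)).toReal = (n + 1) ^ (n + 1) * (volume (stdS n)).toReal := by
    rw [← hv, h1]
    simp only [cen, Finset.prod_const, Finset.card_univ, Fintype.card_fin, one_div, inv_pow]
    field_simp
    ring
  rw [mahlerInf_polar (isCompact_cS zero_le_one).isBounded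
    (interior_subset (zero_mem_interior_cS one_pos)), ← volume_stdS]
  simp only [ENNReal.toReal_mul, ENNReal.toReal_natCast]
  have h5 := volume_simplex (n := n)
  rw [h4] at h3
  calc (n.factorial : ℝ) * (n.factorial * ((volume (stdS n)).toReal *
        (volume (polarS (cS n 1))).toReal))
      = n.factorial * (volume (polarS (cS n 1))).toReal := by
        rw [← mul_assoc (n.factorial : ℝ) (volume (stdS n)).toReal, h5, one_mul]
    _ ≤ n.factorial * ((n + 1) ^ (n + 1) * (volume (stdS n)).toReal) := by gcongr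
    _ = _ := by rw [mul_left_comm, h5, mul_one]

/-- diagonal linear map -/
noncomputable def dg (d : E n) : E n →ₗ[ℝ] E n := Matrix.toLin' (diagonal d)

lemma dg_apply (d x : E n) (i : Fin n) : dg d x i = d i * x i := by
  simp [dg, Matrix.mulVec_diagonal]

lemma det_dg (d : E n) : LinearMap.det (dg d) = ∏ i, d i := by
  rw [dg, LinearMap.det_toLin', det_diagonal]

lemma det_dg_ne {d : E n} (hd : ∀ i, d i ≠ 0) : LinearMap.det (dg d) ≠ 0 := by
  rw [det_dg]; exact Finset.prod_ne_zero_iff.2 fun i _ => hd i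

lemma primal {L : Set (E n)} (h : AntiB L) (h1 : (fun _ => 1) ∈ L) :
    ∃ Φ : Finset (Fin n) → ℝ, (∀ I, 0 < Φ I) ∧ Φ ∅ = 1 ∧
      Φ Finset.univ = n.factorial * (volume L).toReal ∧
      ∀ I, ∀ x ∈ L, ∑ i ∈ I, x i * Φ (I.erase i) ≤ Φ I := by
  set Lt : Set (E n) := {x | x ⊔ 0 ∈ L} with hLt
  have hc : Convex ℝ Lt := fun x hx y hy a b ha hb hab =>
    h.down _ (h.conv hx hy ha hb hab) _ le_sup_right (sup_le
      (add_le_add (smul_le_smul_of_nonneg_left le_sup_left ha)
        (smul_le_smul_of_nonneg_left le_sup_left hb))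
      (add_nonneg (smul_nonneg ha le_sup_right) (smul_nonneg hb le_sup_right)))
  have h0 : Lt ∈ 𝓝 (0 : E n) := by
    refine mem_of_superset (Metric.closedBall_mem_nhds 0 one_pos) fun x hx => ?_
    refine h.down _ h1 _ le_sup_right (sup_le (fun i => ?_) fun i => zero_le_one)
    exact (le_abs_self _).trans ((norm_le_pi_norm x i).trans (by simpa using hx))
  have hcl : IsClosed Lt := h.comp.isClosed.preimage
    (continuous_pi fun i => (continuous_apply i).max continuous_const)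
  have hg : Subl (gauge Lt) := ⟨continuous_gauge hc h0,
    fun z w _ _ => gauge_add_le hc (absorbent_nhds_zero h0) z w,
    fun t w ht _ => (gauge_smul_of_nonneg ht.le w).le, gauge_zero⟩
  have hmem : ∀ x, 0 ≤ x → (gauge Lt x ≤ 1 ↔ x ∈ L) := fun x hx => by
    rw [gauge_le_one_iff_mem_closure hc h0, hcl.closure_eq, hLt, mem_ofPred_eq, sup_of_le_left hx]
  have hu : A (gauge Lt) Finset.univ = (n.factorial : ℝ≥0∞) * volume L := by
    rw [A_univ]
    refine layer hg.cont (fun z _ => gauge_nonneg z) fun s hs => ?_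
    ext z
    rw [mem_smul_set_iff_inv_smul_mem₀ hs.ne', mem_ofPred_eq]
    have e : gauge Lt (s⁻¹ • z) ≤ 1 ↔ gauge Lt z ≤ s := by
      rw [gauge_smul_of_nonneg (inv_pos.2 hs).le, smul_eq_mul, inv_mul_le_iff₀ hs, mul_one]
    constructor
    · rintro ⟨hz, hz'⟩
      exact (hmem _ (smul_nonneg (inv_pos.2 hs).le hz)).1 (e.2 hz')
    · intro hz
      have z0 := h.nonneg _ hz
      exact ⟨fun i => by simpa [mul_nonneg_iff_of_pos_left (inv_pos.2 hs)] using z0 i,
        e.1 ((hmem _ z0).2 hz)⟩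
  have hfl : ∀ I, A (gauge Lt) I ≠ ∞ → ∀ x ∈ L,
      ∑ i ∈ I, ENNReal.ofReal (x i) * A (gauge Lt) (I.erase i) ≤ A (gauge Lt) I := by
    intro I hI x hx
    have x0 := h.nonneg x hx
    set u : E n := fun j => if j ∈ I then x j else 0 with hu
    have u0 : 0 ≤ u := fun j => by simp only [hu]; split_ifs; exacts [x0 j, le_rfl]
    have u1 : u ≤ x := fun j => by simp only [hu]; split_ifs; exacts [le_rfl, x0 j]
    have h2 := flux hg I u0 (fun j hj => by simp [hu, hj]) hI
    refine le_trans (le_of_eq (Finset.sum_congr rfl fun i hi => by simp [hu, hi])) (h2.trans ?_)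
    exact mul_le_of_le_one_left' (ENNReal.ofReal_le_one.2 ((hmem u u0).2 (h.down x hx u u0 u1)))
  have her : ∀ I, A (gauge Lt) I ≠ ∞ → ∀ i ∈ I, A (gauge Lt) (I.erase i) ≤ A (gauge Lt) I := by
    intro I hI i hi
    refine le_trans ?_ (hfl I hI _ h1)
    simpa using Finset.single_le_sum (f := fun i => A (gauge Lt) (I.erase i))
      (fun _ _ => zero_le) hi
  have hfin' : ∀ S : Finset (Fin n), A (gauge Lt) Sᶜ ≠ ∞ := by
    intro S
    induction S using Finset.induction_on with
    | empty =>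
      rw [Finset.compl_empty, hu]
      exact ENNReal.mul_ne_top (ENNReal.natCast_ne_top _) h.comp.measure_lt_top.ne
    | insert i S hi ih =>
      rw [Finset.compl_insert]
      exact ne_top_of_le_ne_top ih (her _ ih i (Finset.mem_compl.2 hi))
  have hfin : ∀ I, A (gauge Lt) I ≠ ∞ := fun I => by simpa using hfin' Iᶜ
  have hone : ∀ I, 1 ≤ A (gauge Lt) I := by
    intro I
    induction I using Finset.induction_on with
    | empty => exact (A_empty hg.zero).ge
    | insert i I hi ih =>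
      have := her _ (hfin (insert i I)) i (Finset.mem_insert_self i I)
      rw [Finset.erase_insert hi] at this
      exact ih.trans this
  refine ⟨fun I => (A (gauge Lt) I).toReal, fun I => ENNReal.toReal_pos
    (zero_lt_one.trans_le (hone I)).ne' (hfin I), by simp [A_empty hg.zero], by simp [hu],
    fun I x hx => ?_⟩
  have h2 := ENNReal.toReal_mono (hfin I) (hfl I (hfin I) x hx)
  rw [ENNReal.toReal_sum fun i _ => ENNReal.mul_ne_top ENNReal.ofReal_ne_top (hfin _)] at h2
  refine le_trans (le_of_eq (Finset.sum_congr rfl fun i _ => ?_)) h2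
  rw [ENNReal.toReal_mul, ENNReal.toReal_ofReal (h.nonneg x hx i)]

lemma dual {L : Set (E n)} (h : AntiB L) (h1 : (fun _ => 1) ∈ L)
    (hP : ∫⁻ y, expS ((fun z => z - fun _ => 1) '' L) y ≠ ∞) :
    ∃ F : Finset (Fin n) → ℝ, (∀ I, 0 ≤ F I) ∧ F ∅ = 1 ∧
      ∑ I, F I ≤ (∫⁻ y, expS ((fun z => z - fun _ => 1) '' L) y).toReal ∧
      ∀ (I : Finset (Fin n)) (r : E n), 0 ≤ r → (∀ x ∈ L, ∑ i ∈ I, x i * r i ≤ 1) →
        ∑ i ∈ I, r i * F (I.erase i) ≤ (1 - ∑ i ∈ I, r i) * F I := by
  set K := (fun z => z - fun _ => 1) '' L with hK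
  have hb : Bornology.IsBounded K := isBounded_image_sub h.comp.isBounded _
  have hn : K.Nonempty := ⟨_, mem_image_of_mem _ h1⟩
  have hψ : Subl (suppF K) := ⟨continuous_suppF hb,
    fun z w _ _ => suppF_le hn fun x hx => by
      rw [dotProduct_add]; exact add_le_add (dot_le_suppF hb hx z) (dot_le_suppF hb hx w),
    fun t w ht _ => suppF_le hn fun x hx => by
      rw [dotProduct_smul, smul_eq_mul]
      exact mul_le_mul_of_nonneg_left (dot_le_suppF hb hx w) ht.le,
    le_antisymm (suppF_le hn fun x _ => by simp)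
      (by obtain ⟨x, hx⟩ := hn; simpa using dot_le_suppF hb hx 0)⟩
  have hd : ∑ I, A (suppF K) I ≤ ∫⁻ y, expS K y := decomp hψ.cont fun x i t hx ht =>
    suppF_le hn fun w hw => by
      have h2 := dot_le_suppF hb hw x
      obtain ⟨z, hz, rfl⟩ := hw
      have e : update x i t = x + Pi.single i t := by
        ext j
        by_cases hj : j = i
        · simp [hj, hx]
        · simp [hj]
      rw [e, dotProduct_add, dotProduct_single]
      have h3 : 0 ≤ z i := h.nonneg z hz i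
      simp only [Pi.sub_apply] at h2 ⊢
      nlinarith
  have hst : ∑ I, A (suppF K) I ≠ ∞ := ne_top_of_le_ne_top hP hd
  have hfin : ∀ I, A (suppF K) I ≠ ∞ := fun I => ne_top_of_le_ne_top hst
    (Finset.single_le_sum (f := fun I => A (suppF K) I) (fun _ _ => zero_le) (Finset.mem_univ I))
  refine ⟨fun I => (A (suppF K) I).toReal, fun I => ENNReal.toReal_nonneg,
    by simp [A_empty hψ.zero], ?_, fun I r r0 hr => ?_⟩
  · rw [← ENNReal.toReal_sum fun I _ => hfin I]
    exact ENNReal.toReal_mono hP hd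
  set u : E n := fun j => if j ∈ I then r j else 0 with hu
  have u0 : 0 ≤ u := fun j => by simp only [hu]; split_ifs; exacts [r0 j, le_rfl]
  have h2 := flux hψ I u0 (fun j hj => by simp [hu, hj]) (hfin I)
  have h3 : suppF K u ≤ 1 - ∑ i ∈ I, r i := suppF_le hn (by
    rintro _ ⟨z, hz, rfl⟩
    have := hr z hz
    simp only [dotProduct, hu, Pi.sub_apply, mul_ite, mul_zero, Finset.sum_ite_mem,
      Finset.univ_inter, sub_mul, one_mul, Finset.sum_sub_distrib]
    linarith)
  have h4 : 0 ≤ 1 - ∑ i ∈ I, r i := by simpa using hr _ h1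
  have h5 := ENNReal.toReal_mono (ENNReal.mul_ne_top ENNReal.ofReal_ne_top (hfin I))
    (h2.trans (mul_le_mul_left (ENNReal.ofReal_le_ofReal h3) _))
  rw [ENNReal.toReal_sum fun i _ => ENNReal.mul_ne_top ENNReal.ofReal_ne_top (hfin _),
    ENNReal.toReal_mul, ENNReal.toReal_ofReal h4] at h5
  refine le_trans (le_of_eq (Finset.sum_congr rfl fun i hi => ?_)) h5
  rw [ENNReal.toReal_mul, ENNReal.toReal_ofReal (u0 i)]
  simp [hu, hi]

theorem far_one (n : ℕ) {ε : ℝ} (hε : 0 < ε) : ∃ c : ℝ, 0 < c ∧ ∀ L : Set (E n), AntiB L →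
    (fun _ => 1) ∈ L → Near ε L ∨ ENNReal.ofReal (1 + c) * mahlerInf (cS n 1) ≤
      mahlerInf ((fun z => z - fun _ => 1) '' L) := by
  obtain ⟨c, hc, hcomb⟩ := comb n hε
  refine ⟨c, hc, fun L h h1 => ?_⟩
  obtain ⟨Φ, Φ0, Φe, Φu, hΦ⟩ := primal h h1
  have hf : (0 : ℝ) < n.factorial := by exact_mod_cast n.factorial_pos
  have hv : 0 < (volume L).toReal := 
    (mul_pos_iff_of_pos_left hf).1 (Φu ▸ Φ0 Finset.univ)
  have hv0 : volume L ≠ 0 := fun h0 => by simp [h0] at hv
  rw [PL.mahlerInf_eq ((fun z => z - fun _ => 1) '' L), volume_sub]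
  by_cases hP : ∫⁻ y, expS ((fun z => z - fun _ => 1) '' L) y = ∞
  · right; rw [hP, ENNReal.mul_top hv0]; exact le_top
  obtain ⟨F, F0, Fe, Fs, hF⟩ := dual h h1 hP
  have hr : ∀ I : Finset (Fin n), ∑ i ∈ I, Φ (I.erase i) / Φ I * F (I.erase i) ≤
      (1 - ∑ i ∈ I, Φ (I.erase i) / Φ I) * F I := fun I =>
    hF I (fun i => Φ (I.erase i) / Φ I) (fun i => (div_pos (Φ0 _) (Φ0 _)).le) fun x hx => by
      simp only [← mul_div_assoc, ← Finset.sum_div]
      exact (div_le_one (Φ0 I)).2 (hΦ I x hx)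
  have Fp : ∀ I, 0 < F I := by
    intro I
    induction I using Finset.induction_on with
    | empty => rw [Fe]; exact one_pos
    | insert i I hi ih =>
      refine (F0 _).lt_of_ne fun h0 => ?_
      have h2 := hr (insert i I)
      rw [← h0, mul_zero] at h2
      have h3 := Finset.single_le_sum
        (f := fun j => Φ ((insert i I).erase j) / Φ (insert i I) * F ((insert i I).erase j))
        (fun j _ => mul_nonneg (div_pos (Φ0 _) (Φ0 _)).le (F0 _)) (Finset.mem_insert_self i I)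
      simp only [Finset.erase_insert hi] at h3
      exact (mul_pos (div_pos (Φ0 I) (Φ0 _)) ih).not_ge (h3.trans h2)
  by_cases hT : Φ Finset.univ * ∑ I, F I < (1 + c) * (n + 1) ^ (n + 1)
  · left
    have h2 := hcomb Φ F Φ0 Fp Φe Fe (fun I _ => by
      have h3 := mul_le_mul_of_nonneg_left (hr I) (Φ0 I).le
      have h4 := (Φ0 I).ne'
      rw [Finset.mul_sum, sub_mul, mul_sub, Finset.sum_mul, Finset.mul_sum, one_mul,
        le_sub_iff_add_le, ← Finset.sum_add_distrib] at h3
      refine le_trans (le_of_eq (Finset.sum_congr rfl fun i _ => ?_)) h3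
      field_simp) hT
    set r : E n := fun i => Φ (Finset.univ.erase i) / Φ Finset.univ with hr'
    have r0 : ∀ i, 0 < r i := fun i => div_pos (Φ0 _) (Φ0 _)
    have hd : LinearMap.det (dg fun i => (r i)⁻¹) ≠ 0 := det_dg_ne fun i => (inv_pos.2 (r0 i)).ne'
    refine ⟨((dg fun i => (r i)⁻¹).equivOfDetNeZero hd).toAffineEquiv, fun x hx => ?_, ?_⟩
    · refine ⟨fun i => r i * x i, ⟨fun i => mul_nonneg (r0 i).le (h.nonneg x hx i), ?_⟩, ?_⟩
      · simp only [hr', div_mul_eq_mul_div, ← Finset.sum_div, mul_comm (Φ _)]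
        exact (div_le_one (Φ0 _)).2 (hΦ _ x hx)
      · ext i
        change dg _ _ i = _
        rw [dg_apply, inv_mul_cancel_left₀ (r0 i).ne']
    · change _ * (volume ((dg fun i => (r i)⁻¹) '' stdS n)).toReal ≤ _
      have hp : 0 < ∏ i, r i := Finset.prod_pos fun i _ => r0 i
      rw [Measure.addHaar_image_linearMap, det_dg, Finset.prod_inv_distrib,
        abs_of_pos (inv_pos.2 hp), ENNReal.toReal_mul, ENNReal.toReal_ofReal (inv_pos.2 hp).le]
      refine (mul_le_mul_of_nonneg_right h2 (by positivity)).trans (le_of_eq ?_)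
      rw [Φu]
      have := volume_simplex (n := n)
      field_simp
      linarith
  · right
    have h2 := mahlerInf_cS_le (n := n)
    have h3 := (not_lt.1 hT).trans (mul_le_mul_of_nonneg_left Fs (Φ0 _).le)
    rw [← ENNReal.ofReal_toReal (mahlerInf_cS_lt_top (n := n)).ne, ← ENNReal.ofReal_toReal hP,
      ← ENNReal.ofReal_toReal h.comp.measure_lt_top.ne, ← ENNReal.ofReal_mul (by positivity),
      ← ENNReal.ofReal_mul hv.le]
    refine ENNReal.ofReal_le_ofReal (le_of_mul_le_mul_left ?_ hf)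
    rw [Φu] at h3
    nlinarith [mul_le_mul_of_nonneg_left h2 (by positivity : 0 ≤ 1 + c)]

end Pool.Agent.MP_5f4cdd_gt.AB

end

section

set_option autoImplicit false
open MeasureTheory ENNReal Set Filter Topology Function Matrix Pointwise Bornology

namespace Pool.Agent.MP_5f4cdd_gt.AB

open PL EF

variable {n : ℕ}

/-- small volume product forces closeness to a simplex -/
def Good (ε : ℝ) (μ : ℝ≥0∞) (K : Set (E n)) : Prop :=
  (interior K).Nonempty → mstarInf K < μ → EF.Near ε K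

lemma mstarInf_affine_le (e : E n ≃ᵃ[ℝ] E n) (L : Set (E n)) :
    mstarInf L ≤ mstarInf (e '' L) := by
  refine le_iInf fun c => ?_
  refine (iInf_le _ (e.symm c)).trans (le_of_eq ?_)
  rw [← mahlerInf_image_lin (e.linear : E n →ₗ[ℝ] E n) e.linear.isUnit_det'.ne_zero, image_image,
    image_image]
  congr 1
  refine image_congr fun x _ => ?_
  have := e.toAffineMap.linearMap_vsub x (e.symm c)
  simpa using this

lemma mstarInf_affine (e : E n ≃ᵃ[ℝ] E n) (L : Set (E n)) : mstarInf (e '' L) = mstarInf L := by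
  refine le_antisymm ?_ (mstarInf_affine_le e L)
  have := mstarInf_affine_le e.symm (e '' L)
  rwa [image_image, show (fun x => e.symm (e x)) = id from funext fun x => e.symm_apply_apply x,
    image_id] at this

lemma interior_affine (e : E n ≃ᵃ[ℝ] E n) (L : Set (E n)) :
    (interior (e '' L)).Nonempty ↔ (interior L).Nonempty := by
  have : e '' interior L = interior (e '' L) :=
    (AffineEquiv.toContinuousAffineEquiv e).toHomeomorph.image_interior L
  rw [← this, image_nonempty]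

lemma Good.image {ε : ℝ} {μ : ℝ≥0∞} {K : Set (E n)} (h : Good ε μ K) (hε : ε < 1)
    (e : E n ≃ᵃ[ℝ] E n) : Good ε μ (e '' K) := fun hi hM =>
  (h ((interior_affine e K).1 hi) (by rwa [mstarInf_affine] at hM)).image e hε

/-- diagonal map as an affine equivalence -/
noncomputable def dgE (d : E n) (hd : ∀ i, d i ≠ 0) : E n ≃ᵃ[ℝ] E n :=
  ((dg d).equivOfDetNeZero (det_dg_ne hd)).toAffineEquiv

lemma coe_dgE (d : E n) (hd : ∀ i, d i ≠ 0) : ⇑(dgE d hd) = dg d := rfl

lemma dg_dg (d d' x : E n) : dg d (dg d' x) = dg (d * d') x := by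
  ext i; simp only [dg_apply, Pi.mul_apply, mul_assoc]

lemma dg_one (x : E n) : dg 1 x = x := by
  ext i; simp only [dg_apply, Pi.one_apply, one_mul]

lemma Good.of_dg {ε : ℝ} {μ : ℝ≥0∞} {K : Set (E n)} {d : E n} (hd : ∀ i, d i ≠ 0)
    (h : Good ε μ (dg d '' K)) (hε : ε < 1) : Good ε μ K := by
  have := h.image hε (dgE d⁻¹ fun i => inv_ne_zero (hd i))
  rw [coe_dgE, image_image] at this
  convert this using 1
  refine (image_id K).symm.trans (image_congr fun x _ => ?_)
  rw [dg_dg, show d⁻¹ * d = 1 from funext fun i => inv_mul_cancel₀ (hd i), dg_one, id]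

lemma isCompact_dg (d : E n) {K : Set (E n)} (h : IsCompact K) : IsCompact (dg d '' K) :=
  h.image (dg d).continuous_of_finiteDimensional

theorem good_anti (n : ℕ) {ε : ℝ} (hε : 0 < ε) (hε1 : ε < 1) : ∃ c : ℝ, 0 < c ∧
    ∀ L : Set (E n), AntiB L → Good ε (ENNReal.ofReal (1 + c) * mahlerInf (cS n 1)) L := by
  obtain ⟨c, hc, h⟩ := far_one n hε
  refine ⟨c, hc, fun L hL hi hM => ?_⟩
  obtain ⟨a, ha⟩ := iInf_lt_iff.1 hM
  have hai := mem_interior_of_ne_top hL.conv hL.comp.isBounded hi ha.ne_top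
  have ha0 : ∀ i, 0 < a i := fun i => by
    have h1 : interior L ⊆ interior ((fun x : E n => x i) ⁻¹' Ici 0) :=
      interior_mono fun x hx => hL.nonneg x hx i
    have h2 := h1 hai
    rw [← (isOpenMap_eval i).preimage_interior_eq_interior_preimage (continuous_apply i),
      interior_Ici] at h2
    exact h2
  have hd : ∀ i, a⁻¹ i ≠ 0 := fun i => inv_ne_zero (ha0 i).ne'
  have h1 : dg a⁻¹ a = fun _ => 1 := by
    ext i; rw [dg_apply, Pi.inv_apply, inv_mul_cancel₀ (ha0 i).ne']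
  have hA : AntiB (dg a⁻¹ '' L) := by
    refine ⟨hL.conv.linear_image _, isCompact_dg _ hL.comp, ?_, ?_⟩
    · rintro _ ⟨x, hx, rfl⟩ i
      rw [dg_apply]
      exact mul_nonneg (inv_pos.2 (ha0 i)).le (hL.nonneg x hx i)
    · rintro _ ⟨x, hx, rfl⟩ y hy0 hy
      refine ⟨dg a y, hL.down x hx _ (fun i => ?_) fun i => ?_, ?_⟩
      · rw [dg_apply]; exact mul_nonneg (ha0 i).le (hy0 i)
      · have := hy i
        rw [dg_apply, Pi.inv_apply, le_inv_mul_iff₀ (ha0 i)] at this
        rwa [dg_apply]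
      · rw [dg_dg, show a⁻¹ * a = 1 from funext fun i => inv_mul_cancel₀ (ha0 i).ne', dg_one]
  have hG : Good ε ∞ (dg a⁻¹ '' L) := fun _ _ => by
    refine (h _ hA ⟨a, interior_subset hai, h1⟩).resolve_right fun h2 => ?_
    refine absurd ha (not_lt.2 (h2.trans (le_of_eq ?_)))
    rw [← mahlerInf_image_lin (dg a⁻¹) (det_dg_ne hd) ((fun z => z - a) '' L), image_image,
      image_image, ← h1]
    simp only [map_sub]
  exact hG.of_dg hd hε1 hi (hM.trans_le le_top)

/-- scaling of one coordinate -/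
noncomputable def sc (i : Fin n) (β : ℝ) : E n →ₗ[ℝ] E n := dg (update 1 i β)

lemma sc_apply (i : Fin n) (β : ℝ) (x : E n) : sc i β x = update x i (β * x i) := by
  ext j
  rw [sc, dg_apply]
  rcases eq_or_ne j i with rfl | h
  · simp
  · simp [h]

lemma sc_same (i : Fin n) (β : ℝ) (x : E n) : sc i β x i = β * x i := by simp [sc_apply]

lemma sc_sc (i : Fin n) (α β : ℝ) (x : E n) : sc i α (sc i β x) = sc i (α * β) x := by
  simp [sc_apply, mul_assoc]

lemma sc_one (i : Fin n) (x : E n) : sc i 1 x = x := by simp [sc_apply]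

lemma sc_ne (i : Fin n) {β : ℝ} (hβ : β ≠ 0) (j : Fin n) : update (1 : E n) i β j ≠ 0 := by
  rcases eq_or_ne j i with rfl | h
  · simpa
  · simp [h]

lemma volume_sc (i : Fin n) {β : ℝ} (hβ : 0 ≤ β) (S : Set (E n)) :
    volume (sc i β '' S) = ENNReal.ofReal β * volume S := by
  rw [Measure.addHaar_image_linearMap, sc, det_dg, Finset.prod_update_of_mem (Finset.mem_univ i)]
  simp [abs_of_nonneg hβ]

lemma sc_mem {i : Fin n} {P : Set (E n)} (hP : Convex ℝ P) (h0 : ∀ x ∈ P, sc i 0 x ∈ P) {x : E n}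
    (hx : x ∈ P) {l : ℝ} (l0 : 0 ≤ l) (l1 : l ≤ 1) : sc i l x ∈ P := by
  convert hP hx (h0 x hx) l0 (sub_nonneg.2 l1) (by ring) using 1
  ext j
  rcases eq_or_ne j i with rfl | h
  · simp [sc_apply]
  · simp only [sc_apply, update_of_ne h, Pi.add_apply, Pi.smul_apply, smul_eq_mul]; ring

lemma mix_mem {i : Fin n} {P Q : Set (E n)} (hP : Convex ℝ P) (h0 : ∀ x ∈ P, sc i 0 x ∈ P)
    (hQ : ∀ x ∈ Q, sc i 0 x ∈ P) {x y : E n} (hx : x ∈ P) (hy : y ∈ Q) {a b : ℝ} (ha : 0 ≤ a)
    (hb : 0 ≤ b) (hab : a + b = 1) {l : ℝ} (l0 : 0 ≤ l) (l1 : l ≤ 1)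
    (hl : a * x i + b * y i = l * (a * x i)) : a • x + b • y ∈ P := by
  convert sc_mem hP h0 (hP hx (hQ y hy) ha hb hab) l0 l1 using 1
  ext j
  rcases eq_or_ne j i with rfl | h
  · simp [sc_apply, hl]
  · simp [sc_apply, update_of_ne h]

lemma exists_ratio {u v : ℝ} (hu : 0 ≤ u) (huv : u ≤ v) : ∃ l, 0 ≤ l ∧ l ≤ 1 ∧ u = l * v := by
  rcases (hu.trans huv).eq_or_lt with h | h
  · exact ⟨0, le_rfl, zero_le_one, by linarith⟩
  · exact ⟨u / v, by positivity, (div_le_one h).2 huv, by field_simp⟩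

lemma convex_glue {i : Fin n} {P Q : Set (E n)} (hP : Convex ℝ P) (hQ : Convex ℝ Q)
    (P0 : ∀ x ∈ P, 0 ≤ x i) (Q0 : ∀ x ∈ Q, x i ≤ 0) (h0 : ∀ x ∈ P ∪ Q, sc i 0 x ∈ P ∩ Q) :
    Convex ℝ (P ∪ Q) := by
  have key : ∀ x ∈ P, ∀ y ∈ Q, ∀ a b : ℝ, 0 ≤ a → 0 ≤ b → a + b = 1 → a • x + b • y ∈ P ∪ Q := by
    intro x hx y hy a b ha hb hab
    have h1 := mul_nonneg ha (P0 x hx)
    have h2 := mul_nonneg hb (neg_nonneg.2 (Q0 y hy))
    rcases le_total 0 (a * x i + b * y i) with h | h
    · obtain ⟨l, l0, l1, hl⟩ := exists_ratio h (v := a * x i) (by linarith)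
      exact Or.inl (mix_mem hP (fun x hx => (h0 x (Or.inl hx)).1) (fun x hx => (h0 x (Or.inr hx)).1)
        hx hy ha hb hab l0 l1 hl)
    · obtain ⟨l, l0, l1, hl⟩ := exists_ratio (neg_nonneg.2 h) (v := -(b * y i)) (by linarith)
      rw [add_comm]
      exact Or.inr (mix_mem hQ (fun x hx => (h0 x (Or.inr hx)).2) (fun x hx => (h0 x (Or.inl hx)).2)
        hy hx hb ha (by linarith) l0 l1 (by linarith))
  rintro x (hx | hx) y (hy | hy) a b ha hb hab
  · exact Or.inl (hP hx hy ha hb hab)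
  · exact key x hx y hy a b ha hb hab
  · rw [add_comm]; exact key y hy x hx b a hb ha (by linarith)
  · exact Or.inr (hQ hx hy ha hb hab)

lemma Jstar_anti {A B : Set (E n)} (hAB : A ⊆ B) (hA : A.Nonempty) (hB : IsBounded B) :
    Jstar B ≤ Jstar A := by
  refine iInf_mono fun c => lintegral_mono fun y => mul_le_mul_left ?_ _
  refine ENNReal.ofReal_le_ofReal (Real.exp_le_exp.2 (neg_le_neg ?_))
  exact suppF_le hA fun x hx => dot_le_suppF hB (hAB hx) y

lemma coe_hom (c : E n) {ρ : ℝ} (hρ : ρ ≠ 0) :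
    ((AffineEquiv.homothetyUnitsMulHom c (Units.mk0 ρ hρ) : E n ≃ᵃ[ℝ] E n) : E n → E n) =
      AffineMap.homothety c ρ := by
  rw [AffineEquiv.coe_homothetyUnitsMulHom_apply]; rfl

lemma mstarInf_sandwich {P U : Set (E n)} {c : E n} {ρ : ℝ} (hρ : 0 < ρ) (hP : IsCompact P)
    (hn : P.Nonempty) (h1 : P ⊆ U) (h2 : U ⊆ AffineMap.homothety c ρ '' P) :
    mstarInf P ≤ ENNReal.ofReal (ρ ^ n) * mstarInf U := by
  have hb : IsBounded (AffineMap.homothety c ρ '' P) :=
    (hP.image (AffineMap.homothety c ρ).continuous_of_finiteDimensional).isBounded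
  rw [← mstarInf_affine (AffineEquiv.homothetyUnitsMulHom c (Units.mk0 ρ hρ.ne')) P, coe_hom,
    mstarInf_eq hb (hn.image _), mstarInf_eq (hb.subset h2) (hn.mono h1),
    Measure.addHaar_image_homothety, abs_of_nonneg (by positivity), mul_assoc]
  simp only [Module.finrank_fintype_fun_eq_card, Fintype.card_fin]
  exact mul_le_mul_right (mul_le_mul' (measure_mono h1) (Jstar_anti h2 (hn.mono h1) hb)) _

lemma path {ε ε' : ℝ} {μ v : ℝ≥0∞} (hεε' : ε < ε') (hε' : ε' < 1) (hv : v < μ)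
    (moat : ∀ K : Set (E n), Convex ℝ K → IsCompact K → (interior K).Nonempty →
      mstarInf K < μ → EF.Near ε' K → EF.Near ε K)
    {i : Fin n} {P Q : Set (E n)} (hP : Convex ℝ P) (hQ : Convex ℝ Q) (cP : IsCompact P)
    (cQ : IsCompact Q) (h0 : ∀ x ∈ P ∪ Q, sc i 0 x ∈ P ∩ Q) (hi : (interior P).Nonempty)
    (hU : ∀ β, 0 < β → β ≤ 1 → Convex ℝ (P ∪ sc i β '' Q) ∧ mstarInf (P ∪ sc i β '' Q) ≤ v)
    (hG : Good ε μ P) : EF.Near ε (P ∪ Q) := by
  have hε : ε < 1 := hεε'.trans hε'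
  obtain ⟨c, hc⟩ := hi
  obtain ⟨r, hr, hb⟩ := Metric.nhds_basis_closedBall.mem_iff.1 (mem_interior_iff_mem_nhds.1 hc)
  obtain ⟨R, hR, hQR⟩ := cQ.isBounded.subset_closedBall_lt 0 0
  have cU : ∀ β, IsCompact (P ∪ sc i β '' Q) := fun β => cP.union (isCompact_dg _ cQ)
  have moat' : ∀ β, 0 < β → β ≤ 1 → EF.Near ε' (P ∪ sc i β '' Q) → EF.Near ε (P ∪ sc i β '' Q) :=
    fun β b0 b1 => moat _ (hU β b0 b1).1 (cU β) ⟨c, interior_mono subset_union_left hc⟩
      ((hU β b0 b1).2.trans_lt hv)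
  have e1 : ∀ᶠ δ in 𝓝 (0 : ℝ), ENNReal.ofReal ((1 + δ) ^ n) * v < μ := by
    have : Tendsto (fun δ : ℝ => ENNReal.ofReal ((1 + δ) ^ n) * v) (𝓝 0)
        (𝓝 (ENNReal.ofReal ((1 + 0) ^ n) * v)) :=
      ENNReal.Tendsto.mul_const (ENNReal.tendsto_ofReal (Continuous.tendsto (by fun_prop) 0))
        (Or.inr hv.ne_top)
    exact this.eventually_lt_const (by simpa using hv)
  have e2 : ∀ᶠ δ in 𝓝 (0 : ℝ), (1 - ε') * (1 + δ) ^ n < 1 - ε :=
    ContinuousAt.eventually_lt (by fun_prop) (by fun_prop) (by simpa using hεε')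
  have e3 : ∀ᶠ δ in 𝓝 (0 : ℝ), (1 - ε') * (1 + δ) < 1 - ε :=
    ContinuousAt.eventually_lt (by fun_prop) (by fun_prop) (by simpa using hεε')
  obtain ⟨δ, ⟨⟨d1, d2⟩, d3⟩, hδ⟩ := ((((e1.and e2).and e3).filter_mono nhdsWithin_le_nhds).and
    (self_mem_nhdsWithin (a := (0 : ℝ)) (s := Ioi 0))).exists
  have hδ0 : 0 < δ := hδ
  have hρ : 0 < 1 + δ := by linarith
  have hσ : (1 + δ)⁻¹ < 1 := inv_lt_one_of_one_lt₀ (by linarith)
  have p0 : ∀ k : ℕ, 0 < (1 + δ)⁻¹ ^ k := fun k => by positivity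
  have p1 : ∀ k : ℕ, (1 + δ)⁻¹ ^ k ≤ 1 := fun k => pow_le_one₀ (by positivity) hσ.le
  obtain ⟨N, hN⟩ := exists_pow_lt_of_lt_one (x := δ * r / R) (by positivity) hσ
  have hsub : P ∪ sc i ((1 + δ)⁻¹ ^ N) '' Q ⊆ AffineMap.homothety c (1 + δ) '' P := by
    have key : ∀ w ∈ P, ∀ u : E n, ‖u‖ ≤ δ * r → w + u ∈ AffineMap.homothety c (1 + δ) '' P := by
      intro w hw u hu
      refine ⟨_, hP hw (hb (a := c + δ⁻¹ • u) ?_) (a := 1 / (1 + δ)) (b := δ / (1 + δ))
        (by positivity) (by positivity) (by field_simp), ?_⟩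
      · rw [Metric.mem_closedBall, dist_eq_norm, add_sub_cancel_left, norm_smul, Real.norm_eq_abs,
          abs_of_pos (inv_pos.2 hδ0), inv_mul_le_iff₀ hδ0]
        exact hu
      · ext j
        simp only [AffineMap.homothety_apply, vsub_eq_sub, vadd_eq_add, Pi.add_apply,
          Pi.smul_apply, Pi.sub_apply, smul_eq_mul]
        field_simp
        ring
    rintro _ (hx | ⟨q, hq, rfl⟩)
    · simpa using key _ hx 0 (by simp; positivity)
    · have := key _ (h0 q (Or.inr hq)).1 (Pi.single i ((1 + δ)⁻¹ ^ N * q i)) (by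
        rw [Pi.norm_single, norm_mul, Real.norm_of_nonneg (p0 N).le]
        have h1 : ‖q i‖ ≤ R := (norm_le_pi_norm q i).trans (by simpa using hQR hq)
        rw [lt_div_iff₀ hR] at hN
        nlinarith [p0 N])
      convert this using 1
      ext j
      rcases eq_or_ne j i with rfl | h
      · simp [sc_apply]
      · simp [sc_apply, h]
  have hPN : EF.Near ε P := hG ⟨c, hc⟩ (lt_of_le_of_lt ((mstarInf_sandwich hρ cP
    ⟨c, interior_subset hc⟩ subset_union_left hsub).trans
      (mul_le_mul_right (hU _ (p0 N) (p1 N)).2 _)) d1)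
  have hN' : EF.Near ε (P ∪ sc i ((1 + δ)⁻¹ ^ N) '' Q) :=
    moat' _ (p0 N) (p1 N) (hPN.homothety (σ := 1) hρ zero_le_one hsub (by simp)
      (cU _).measure_lt_top.ne hε hε'.le (by simpa using d2.le))
  have step : ∀ k : ℕ, EF.Near ε (P ∪ sc i ((1 + δ)⁻¹ ^ (k + 1)) '' Q) →
      EF.Near ε (P ∪ sc i ((1 + δ)⁻¹ ^ k) '' Q) := by
    intro k h
    refine moat' _ (p0 k) (p1 k) (h.transfer (dgE _ (sc_ne i hρ.ne')) ?_ hε hε'.le ?_)
    · rintro _ (hx | ⟨q, hq, rfl⟩)
      · refine ⟨_, Or.inl (sc_mem hP (fun x hx => (h0 x (Or.inl hx)).1) hx (inv_pos.2 hρ).le hσ.le),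
          ?_⟩
        change sc i _ _ = _
        rw [sc_sc, mul_inv_cancel₀ hρ.ne', sc_one]
      · refine ⟨_, Or.inr ⟨q, hq, rfl⟩, ?_⟩
        change sc i _ _ = _
        rw [sc_sc, pow_succ', mul_inv_cancel_left₀ hρ.ne']
    · change _ * (volume (sc i _ '' _)).toReal ≤ _
      rw [volume_sc i hρ.le, ENNReal.toReal_mul, ENNReal.toReal_ofReal hρ.le, ← mul_assoc]
      refine mul_le_mul d3.le (ENNReal.toReal_mono (cU _).measure_lt_top.ne (measure_mono
        (union_subset_union_right _ ?_))) ENNReal.toReal_nonneg (by linarith)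
      rintro _ ⟨q, hq, rfl⟩
      exact ⟨_, sc_mem hQ (fun x hx => (h0 x (Or.inr hx)).2) hq (inv_pos.2 hρ).le hσ.le, by
        rw [sc_sc, pow_succ]⟩
  have fin := Nat.decreasingInduction (motive := fun k _ =>
    EF.Near ε (P ∪ sc i ((1 + δ)⁻¹ ^ k) '' Q)) (fun k _ h => step k h) hN' (Nat.zero_le N)
  simpa [sc_one] using fin

lemma interior_inter_nonempty {K O : Set (E n)} (hK : Convex ℝ K) (hi : (interior K).Nonempty)
    (hO : IsOpen O) {x : E n} (hx : x ∈ K) (hxO : x ∈ O) {O' : Set (E n)} (h : O ⊆ O') :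
    (interior (K ∩ O')).Nonempty := by
  have h1 : x ∈ closure (interior K) := by
    rw [hK.closure_interior_eq_closure_of_nonempty_interior hi]; exact subset_closure hx
  obtain ⟨y, hy1, hy2⟩ := mem_closure_iff.1 h1 O hO hxO
  exact ⟨y, by rw [interior_inter]; exact ⟨hy2, interior_maximal h hO hy1⟩⟩

theorem Good.glue {ε ε' : ℝ} {μ : ℝ≥0∞} (hεε' : ε < ε') (hε' : ε' < 1)
    (moat : ∀ K : Set (E n), Convex ℝ K → IsCompact K → (interior K).Nonempty →
      mstarInf K < μ → EF.Near ε' K → EF.Near ε K)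
    {i : Fin n} {K : Set (E n)} (hK : Convex ℝ K) (cK : IsCompact K)
    (hK0 : ∀ x ∈ K, update x i 0 ∈ K) (gP : Good ε μ (K ∩ {x | 0 ≤ x i}))
    (gQ : Good ε μ (K ∩ {x | x i ≤ 0})) : Good ε μ K := by
  intro hi hM
  by_cases c1 : ∀ x ∈ K, x i ≤ 0
  · rw [inter_eq_left.2 (show K ⊆ {x | x i ≤ 0} from c1)] at gQ; exact gQ hi hM
  by_cases c2 : ∀ x ∈ K, 0 ≤ x i
  · rw [inter_eq_left.2 (show K ⊆ {x | 0 ≤ x i} from c2)] at gP; exact gP hi hM
  push Not at c1 c2
  obtain ⟨x₁, hx₁, hx₁'⟩ := c1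
  obtain ⟨x₂, hx₂, hx₂'⟩ := c2
  set P := K ∩ {x | 0 ≤ x i} with hPd
  set Q := K ∩ {x | x i ≤ 0} with hQd
  have iP : (interior P).Nonempty := interior_inter_nonempty hK hi
    (isOpen_lt continuous_const (continuous_apply i)) hx₁ hx₁' fun x hx => le_of_lt (a := (0 : ℝ)) hx
  have iQ : (interior Q).Nonempty := interior_inter_nonempty hK hi
    (isOpen_lt (continuous_apply i) continuous_const) hx₂ hx₂' fun x hx => le_of_lt (b := (0 : ℝ)) hx
  have hP : Convex ℝ P := hK.inter (convex_halfSpace_ge (LinearMap.proj i : E n →ₗ[ℝ] ℝ).isLinear 0)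
  have hQ : Convex ℝ Q := hK.inter (convex_halfSpace_le (LinearMap.proj i : E n →ₗ[ℝ] ℝ).isLinear 0)
  have cP : IsCompact P := cK.inter_right (isClosed_le continuous_const (continuous_apply i))
  have cQ : IsCompact Q := cK.inter_right (isClosed_le (continuous_apply i) continuous_const)
  have hPQ : P ∪ Q = K := by
    rw [hPd, hQd, ← inter_union_distrib_left]
    exact inter_eq_left.2 fun x _ => le_total 0 (x i)
  have h0 : ∀ x ∈ P ∪ Q, sc i 0 x ∈ P ∩ Q := fun x hx => by
    have h1 : sc i 0 x ∈ K := by rw [sc_apply, zero_mul]; exact hK0 x (hPQ ▸ hx)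
    have h2 : sc i 0 x i = 0 := by rw [sc_same, zero_mul]
    exact ⟨⟨h1, h2.ge⟩, h1, h2.le⟩
  have hW : ∀ α β : ℝ, 0 ≤ α → 0 ≤ β → Convex ℝ (sc i α '' P ∪ sc i β '' Q) := by
    intro α β hα hβ
    refine convex_glue (i := i) (hP.linear_image _) (hQ.linear_image _) ?_ ?_ ?_
    · rintro _ ⟨x, hx, rfl⟩; rw [sc_same]; exact mul_nonneg hα hx.2
    · rintro _ ⟨x, hx, rfl⟩; rw [sc_same]; exact mul_nonpos_of_nonneg_of_nonpos hβ hx.2
    · have : ∀ x ∈ P ∪ Q, ∀ γ, sc i 0 (sc i γ x) ∈ sc i α '' P ∩ sc i β '' Q := fun x hx γ =>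
        ⟨⟨_, (h0 x hx).1, by simp [sc_sc]⟩, _, (h0 x hx).2, by simp [sc_sc]⟩
      rintro _ (⟨x, hx, rfl⟩ | ⟨x, hx, rfl⟩)
      · exact this x (Or.inl hx) _
      · exact this x (Or.inr hx) _
  have s1 : ∀ S : Set (E n), sc i 1 '' S = S := fun S => by simp [sc_one]
  have : Nonempty K := ⟨⟨x₁, hx₁⟩⟩
  have hr : ∀ t : ℝ, range (shadowPts (Subtype.val : K → E n) (fun x => max (x.1 i) 0)
      (Pi.single i 1) t) = sc i (1 + t) '' P ∪ Q := by
    intro t
    have e1 : ∀ x : K, 0 ≤ x.1 i → shadowPts (Subtype.val : K → E n) (fun x => max (x.1 i) 0)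
        (Pi.single i 1) t x = sc i (1 + t) x := fun x hx => by
      ext j
      rcases eq_or_ne j i with rfl | h
      · simp [shadowPts, sc_apply, hx, add_mul]
      · simp [shadowPts, sc_apply, h]
    have e2 : ∀ x : K, x.1 i ≤ 0 → shadowPts (Subtype.val : K → E n) (fun x => max (x.1 i) 0)
        (Pi.single i 1) t x = x := fun x hx => by simp [shadowPts, hx]
    ext z
    constructor
    · rintro ⟨x, rfl⟩
      rcases le_total 0 (x.1 i) with h | h
      · exact Or.inl ⟨x, ⟨x.2, h⟩, (e1 x h).symm⟩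
      · rw [e2 x h]; exact Or.inr ⟨x.2, h⟩
    · rintro (⟨x, hx, rfl⟩ | hz)
      · exact ⟨⟨x, hx.1⟩, e1 _ hx.2⟩
      · exact ⟨⟨z, hz.1⟩, e2 _ hz.2⟩
  have hh : ∀ α : ℝ, 0 ≤ α → convexHull ℝ (sc i α '' P ∪ Q) = sc i α '' P ∪ Q := fun α hα => by
    have := hW α 1 hα zero_le_one
    rw [s1] at this
    exact this.convexHull_eq
  have hv : ∀ α : ℝ, 0 ≤ α →
      volume (sc i α '' P ∪ Q) = ENNReal.ofReal α * volume P + volume Q := fun α hα => by
    rw [measure_union₀ cQ.measurableSet.nullMeasurableSet, volume_sc i hα]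
    refine measure_mono_null ?_ (volume_dot_zero (v := Pi.single i 1) (by simp))
    rintro _ ⟨⟨x, hx, rfl⟩, hz⟩
    have h1 : 0 ≤ sc i α x i := by rw [sc_same]; exact mul_nonneg hα hx.2
    simpa using le_antisymm hz.2 h1
  have hq : ∀ α β : ℝ, 0 < α → α < 1 → 1 < β →
      min (mstarInf (sc i α '' P ∪ Q)) (mstarInf (sc i β '' P ∪ Q)) ≤ mstarInf K := by
    intro α β a0 a1 b1
    have hd : 0 < β - α := by linarith
    have ha : 0 < (β - 1) / (β - α) := div_pos (by linarith) hd
    have hb : 0 < (1 - α) / (β - α) := div_pos (by linarith) hd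
    have hab : (β - 1) / (β - α) + (1 - α) / (β - α) = 1 := by field_simp; ring
    have e0 : 1 + ((β - 1) / (β - α) * (α - 1) + (1 - α) / (β - α) * (β - 1)) = 1 := by
      field_simp; ring
    have := mstarInf_quasi (Subtype.val : K → E n) (fun x => max (x.1 i) 0) (θ := Pi.single i 1)
      (by simp) (fun t => by rw [hr]; exact ((isCompact_dg _ cP).union cQ).isBounded) ha hb hab
      (α - 1) (β - 1)
    simp only [hr, e0, add_sub_cancel, hh α a0.le, hh β (by linarith), hh 1 zero_le_one] at this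
    rw [hv α a0.le, hv β (by linarith), hv 1 zero_le_one, s1, hPQ] at this
    refine this (le_of_eq ?_)
    rw [mul_add, mul_add, add_add_add_comm, ← add_mul, ← mul_assoc, ← mul_assoc, ← add_mul,
      ← ENNReal.ofReal_add ha.le hb.le, hab, ENNReal.ofReal_one, one_mul,
      ← ENNReal.ofReal_mul ha.le, ← ENNReal.ofReal_mul hb.le,
      ← ENNReal.ofReal_add (by positivity) (by positivity), one_mul]
    have : (β - 1) / (β - α) * α + (1 - α) / (β - α) * β = 1 := by field_simp; ring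
    rw [this, ENNReal.ofReal_one, one_mul]
  by_cases h : ∀ β : ℝ, 0 < β → β ≤ 1 → mstarInf (Q ∪ sc i β '' P) ≤ mstarInf K
  · rw [← hPQ, union_comm]
    refine path hεε' hε' hM moat hQ hP cQ cP (fun x hx => ?_) iQ (fun β b0 b1 => ⟨?_, h β b0 b1⟩) gQ
    · rw [union_comm] at hx; rw [inter_comm]; exact h0 x hx
    · rw [union_comm, ← hh β b0.le]; exact convex_convexHull ℝ _
  · push Not at h
    obtain ⟨α, a0, a1, hα⟩ := h
    rw [union_comm] at hα
    have a2 : α < 1 := lt_of_le_of_ne a1 (by rintro rfl; rw [s1, hPQ] at hα; exact hα.false)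
    rw [← hPQ]
    refine path hεε' hε' hM moat hP hQ cP cQ h0 iP (fun β b0 b1 => ⟨?_, ?_⟩) gP
    · have := hW 1 β zero_le_one b0.le
      rwa [s1] at this
    · rcases b1.eq_or_lt with rfl | b2
      · rw [s1, hPQ]
      have h1 := (min_le_iff.1 (hq α β⁻¹ a0 a2 (one_lt_inv_iff₀.2 ⟨b0, b2⟩))).resolve_left
        (not_le.2 hα)
      refine le_trans (le_of_eq ?_) h1
      rw [← mstarInf_affine (dgE _ (sc_ne i b0.ne')) (sc i β⁻¹ '' P ∪ Q), image_union, image_image]
      congr 2
      refine (s1 P).symm.trans (image_congr fun x _ => ?_)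
      change _ = sc i _ _
      rw [sc_sc, mul_inv_cancel₀ b0.ne']

end Pool.Agent.MP_5f4cdd_gt.AB

end

section

set_option autoImplicit false
open MeasureTheory Set ENNReal Topology Filter Matrix Bornology

namespace Pool.Agent.MP_5f4cdd_gt.EF

open PL

variable {n : ℕ}

/-- Minkowski-Weyl -/
theorem exists_dual {ι : Type} [Finite ι] (x : ι → E n)
    (h0 : (0 : E n) ∈ interior (convexHull ℝ (range x))) :
    ∃ (κ : Type) (_ : Finite κ) (y : κ → E n), DualPair x y := by
  set Q : Set (E n) := {w | ∀ i, x i ⬝ᵥ w ≤ 1} with hQ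
  have hQp : Q = polarS (convexHull ℝ (range x)) := by
    have := polarS_hull_sub x 0
    simpa using this.symm
  have hQc : IsCompact Q := by
    rw [hQp]; exact Metric.isCompact_of_isClosed_isBounded (isClosed_polarS _) (isBounded_polarS h0)
  have hQv : Convex ℝ Q := by
    rw [hQ, ofPred_forall]
    exact convex_iInter fun i => Pool.Agent.MP_5f4cdd_gt.convex_dot_le (x i) 1
  have hfin : (Q.extremePoints ℝ).Finite := by
    refine Finite.of_finite_image (f := fun w => {i | x i ⬝ᵥ w = 1}) (toFinite _) ?_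
    intro w hw w' hw' he
    have he' : ∀ i, x i ⬝ᵥ w = 1 ↔ x i ⬝ᵥ w' = 1 := fun i => Set.ext_iff.1 he i
    have h1 : ∀ᶠ s in 𝓝[>] (0 : ℝ), ∀ i, x i ⬝ᵥ (w + s • (w - w')) ≤ 1 := by
      refine eventually_all.2 fun i => ?_
      rcases (hw.1 i).eq_or_lt with h | h
      · exact Eventually.of_forall fun s => by
          simp [dotProduct_add, dotProduct_smul, dotProduct_sub, h, (he' i).1 h]
      · have : ∀ᶠ s in 𝓝 (0 : ℝ), x i ⬝ᵥ (w + s • (w - w')) < 1 :=
          ContinuousAt.eventually_lt (by unfold dotProduct; fun_prop) continuousAt_const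
            (by simpa using h)
        exact (this.filter_mono nhdsWithin_le_nhds).mono fun _ h => h.le
    obtain ⟨s, hs1, hs2⟩ := (h1.and self_mem_nhdsWithin).exists
    have hs : 0 < s := hs2
    refine (hw.2 hw'.1 hs1 ⟨s / (1 + s), 1 / (1 + s), by positivity, by positivity,
      by field_simp; ring, ?_⟩).symm
    ext j
    simp only [Pi.add_apply, Pi.smul_apply, Pi.sub_apply, smul_eq_mul]
    field_simp
    ring
  have hhull : convexHull ℝ (Q.extremePoints ℝ) = Q := by
    rw [← (hfin.isClosed_convexHull ℝ).closure_eq]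
    exact closure_convexHull_extremePoints hQc hQv
  have : Finite (Q.extremePoints ℝ) := hfin
  have : Nonempty ι := by
    by_contra hne
    rw [not_nonempty_iff] at hne
    simp [range_eq_empty] at h0
  refine ⟨Q.extremePoints ℝ, hfin, Subtype.val, (dualPair_of_eq ?_).symm⟩
  rw [Subtype.range_coe, hhull]

lemma exists_polytope {K : Set (E n)} (hK : Convex ℝ K) (hc : IsCompact K) (h0 : 0 ∈ interior K)
    {η : ℝ} (hη : 0 < η) (hη1 : η ≤ 1) :
    ∃ (ι : Type) (_ : Finite ι) (x : ι → E n),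
      AffineMap.homothety (0 : E n) (1 - η) '' K ⊆ convexHull ℝ (range x) ∧
      convexHull ℝ (range x) ⊆ K := by
  obtain ⟨r, hr, hb⟩ := Metric.nhds_basis_closedBall.mem_iff.1 (mem_interior_iff_mem_nhds.1 h0)
  obtain ⟨t, ht, htf, hcov⟩ := finite_cover_balls_of_compact hc (mul_pos hη hr)
  refine ⟨t, htf, Subtype.val, ?_, ?_⟩
  · rw [Subtype.range_coe]
    refine shrink_sub hc (subset_convexHull ℝ K) (convex_convexHull ℝ _)
      (htf.isClosed_convexHull ℝ) hη.le hη1 fun a ha => ?_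
    obtain ⟨w, hw, haw⟩ := mem_iUnion₂.1 (hcov ha)
    refine ⟨w, subset_convexHull ℝ _ hw, η⁻¹ • (a - w), hb ?_, ?_⟩
    · rw [mem_closedBall_zero_iff, norm_smul, Real.norm_eq_abs, abs_of_pos (inv_pos.2 hη),
        inv_mul_le_iff₀ hη, ← dist_eq_norm]
      exact (Metric.mem_ball.1 haw).le
    · rw [sub_zero, smul_smul, mul_inv_cancel₀ hη.ne', one_smul]; abel
  · rw [Subtype.range_coe]; exact convexHull_min ht hK

lemma exists_eta {a b a' b' : ℝ} (h : a < b) (h' : a' < b') (n : ℕ) :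
    ∃ η : ℝ, 0 < η ∧ η < 1 ∧ a ≤ b * (1 - η) ^ n ∧ a' ≤ b' * (1 - η) ^ n := by
  have h1 : ∀ᶠ η in 𝓝 (0 : ℝ), a < b * (1 - η) ^ n :=
    ContinuousAt.eventually_lt (by fun_prop) (by fun_prop) (by simpa using h)
  have h1' : ∀ᶠ η in 𝓝 (0 : ℝ), a' < b' * (1 - η) ^ n :=
    ContinuousAt.eventually_lt (by fun_prop) (by fun_prop) (by simpa using h')
  have h2 : ∀ᶠ η in 𝓝 (0 : ℝ), η < 1 := eventually_lt_nhds one_pos
  obtain ⟨η, ⟨⟨h3, h3'⟩, h4⟩, h5⟩ := ((((h1.and h1').and h2).filter_mono nhdsWithin_le_nhds).and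
    (self_mem_nhdsWithin (a := (0 : ℝ)) (s := Ioi 0))).exists
  exact ⟨η, h5, h4, h3.le, h3'.le⟩

lemma mahlerInf_cS_ne_top : mahlerInf (cS n 1) ≠ ∞ := by
  have h0 : (0 : E n) ∈ interior (cS n 1) := mem_interior_iff_mem_nhds.2 (cS_mem_nhds one_pos)
  rw [mahlerInf_polar (isCompact_cS zero_le_one).isBounded (interior_subset h0)]
  exact ENNReal.mul_ne_top (by simp) (ENNReal.mul_ne_top (volume_cS_lt_top zero_le_one).ne
    (isBounded_polarS h0).measure_lt_top.ne)

/-- convex bodies in dimension three that are far from simplices have a volume product larger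
than that of the simplex by a fixed factor -/
theorem far_of (hA : StmtAinf 3) {ε : ℝ} (hε : 0 < ε) : ∃ c : ℝ, 0 < c ∧ ∀ K : Set (E 3),
    Convex ℝ K → IsCompact K → (interior K).Nonempty →
    (∀ e : AffineEquiv ℝ (E 3) (E 3), K ⊆ e '' stdS 3 →
      (volume K).toReal < (1 - ε) * (volume (e '' stdS 3)).toReal) →
    ENNReal.ofReal (1 + c) * mahlerInf (cS 3 1) ≤ mahlerInf K := by
  obtain ⟨εA, κ, hεA, hκ, hA⟩ := hA
  set m := mahlerInf (cS 3 1) with hm
  have hmt : m ≠ ∞ := mahlerInf_cS_ne_top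
  set ε' := min εA (1 / 2) with hε'
  have hε'0 : 0 < ε' := by positivity
  have hε'1 : ε' < 1 := (min_le_right _ _).trans_lt (by norm_num)
  obtain ⟨ε₁, hε₁, hpol⟩ := polar_near (n := 2) (C := (1 + κ) * m.toReal + 1) (by positivity)
    hε'0 hε'1
  set ε₂ := min ε (1 / 2) with hε₂
  have hε₂0 : 0 < ε₂ := by positivity
  have hε₂1 : ε₂ < 1 := (min_le_right _ _).trans_lt (by norm_num)
  set ε₃ := min (min (ε₂ / 2) (ε' / 2)) ε₁ with hε₃
  have hε₃0 : 0 < ε₃ := by positivity
  have h32 : ε₃ < ε₂ := ((min_le_left _ _).trans (min_le_left _ _)).trans_lt (by linarith)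
  have h3' : ε₃ < ε' := ((min_le_left _ _).trans (min_le_right _ _)).trans_lt (by linarith)
  have h31 : ε₃ ≤ ε₁ := min_le_right _ _
  have hκε : 0 < κ * ε₃ := mul_pos hκ hε₃0
  set μ := ENNReal.ofReal (1 + κ * ε₃) * m with hμ
  have moat : ∀ K : Set (E 3), Convex ℝ K → IsCompact K → (interior K).Nonempty →
      mahlerInf K < μ → Near ε' K → Near ε₃ K := by
    intro K hK hKc hKi hM hN
    obtain ⟨e, he1, he2⟩ := hN.mono (min_le_left _ _)
    obtain ⟨e', h1, h2⟩ := hA K hK hKc hKi e he1 he2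
    refine ⟨e', h1, ?_⟩
    by_contra hc
    push Not at hc
    rw [← div_lt_iff₀ (toReal_simplex_pos e')] at hc
    refine absurd hM (not_lt.2 (le_trans ?_ h2))
    exact mul_le_mul_left (ENNReal.ofReal_le_ofReal (by nlinarith)) _
  have hpol' : ∀ K : Set (E 3), Convex ℝ K → IsCompact K → 0 ∈ interior K →
      mahlerInf K < μ → Near ε₃ K → Near ε' (polarS K) := by
    intro K hK hKc hK0 hM hN
    refine hpol K hK hKc hK0 (hN.mono h31) ?_
    have h1 : volume K * volume (polarS K) ≤ ENNReal.ofReal (1 + κ) * m := by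
      refine le_trans ?_ (hM.le.trans
        (mul_le_mul_left (ENNReal.ofReal_le_ofReal (by nlinarith)) _))
      rw [mahlerInf_polar hKc.isBounded (interior_subset hK0)]
      exact le_mul_of_one_le_left' (by norm_num [Nat.factorial])
    have h2 := ENNReal.toReal_mono (ENNReal.mul_ne_top ENNReal.ofReal_ne_top hmt) h1
    rw [ENNReal.toReal_mul, ENNReal.toReal_mul, ENNReal.toReal_ofReal (by positivity)] at h2
    linarith
  obtain ⟨η, hη0, hη1, hη2, hη3⟩ := exists_eta (a := 1 - ε₂) (b := 1 - ε₃)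
    (a' := 1 + κ * ε₃ / 2) (b' := 1 + κ * ε₃) (by linarith) (by linarith) 3
  have hs : 0 < 1 - η := by linarith
  refine ⟨κ * ε₃ / 2, by positivity, fun K hK hKc hKi hfar => ?_⟩
  rcases eq_or_ne (mahlerInf K) ∞ with htop | htop
  · rw [htop]; exact le_top
  have hK0 : (0 : E 3) ∈ interior K :=
    mem_interior_of_ne_top hK hKc.isBounded hKi (by simpa using htop)
  obtain ⟨ι, _, x, hx1, hx2⟩ := exists_polytope hK hKc hK0 hη0 hη1.le
  have hP0 : (0 : E 3) ∈ interior (convexHull ℝ (range x)) := by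
    rw [mem_interior_iff_mem_nhds] at hK0 ⊢
    have h1 : (fun z : E 3 => (1 - η)⁻¹ • z) ⁻¹' K ∈ 𝓝 (0 : E 3) :=
      ContinuousAt.preimage_mem_nhds (by fun_prop) (by simpa using hK0)
    refine mem_of_superset h1 fun z hz => hx1 ⟨_, hz, ?_⟩
    simp [AffineMap.homothety_apply, smul_smul, mul_inv_cancel₀ hs.ne']
  obtain ⟨κ', _, y, hxy⟩ := exists_dual x hP0
  have hM : μ ≤ mahlerInf (convexHull ℝ (range x)) := by
    by_contra hlt
    push Not at hlt
    have h1 := moat _ (convex_convexHull ℝ _) (isCompact_hull x) ⟨0, hP0⟩ hlt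
      (descent hε'0.le h3' hε'1 moat hpol' _ ι κ' x y rfl hxy hlt)
    have h2 : Near ε₂ K := by
      refine h1.homothety (c := 0) (σ := 1) (inv_pos.2 hs) zero_le_one
        (homothety_inv_left hs.ne' hx1) (by simpa using hx2) hKc.measure_lt_top.ne
        (h32.trans hε₂1) hε₂1.le ?_
      rw [inv_pow, ← div_eq_mul_inv, div_le_iff₀ (pow_pos hs _), one_pow, mul_one]
      exact hη2
    obtain ⟨e, he1, he2⟩ := h2.mono (min_le_left _ _)
    exact absurd (hfar e he1) (not_lt.2 he2)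
  have hv : ENNReal.ofReal ((1 - η) ^ 3) * volume (polarS (convexHull ℝ (range x))) ≤
      volume (polarS K) := by
    have h1 := Measure.addHaar_smul_of_nonneg (volume : Measure (E 3)) hs.le
      (polarS (convexHull ℝ (range x)))
    simp only [Module.finrank_fintype_fun_eq_card, Fintype.card_fin] at h1
    rw [← h1]
    refine measure_mono ?_
    rintro _ ⟨w, hw, rfl⟩ z hz
    have := hw _ (hx1 (mem_image_of_mem _ hz))
    simpa [AffineMap.homothety_apply] using this
  calc ENNReal.ofReal (1 + κ * ε₃ / 2) * m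
      ≤ ENNReal.ofReal ((1 - η) ^ 3) * μ := by
        rw [hμ, ← mul_assoc, ← ENNReal.ofReal_mul (pow_pos hs _).le]
        exact mul_le_mul_left (ENNReal.ofReal_le_ofReal (by linarith)) _
    _ ≤ ENNReal.ofReal ((1 - η) ^ 3) * mahlerInf (convexHull ℝ (range x)) := mul_le_mul_right hM _
    _ ≤ mahlerInf K := by
        rw [mahlerInf_polar hKc.isBounded (interior_subset hK0),
          mahlerInf_polar (isCompact_hull x).isBounded (interior_subset hP0), mul_left_comm,
          mul_left_comm (ENNReal.ofReal _)]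
        exact mul_le_mul_right (mul_le_mul' (measure_mono hx2) hv) _

end Pool.Agent.MP_5f4cdd_gt.EF

end
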