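import Pool.Agent.Mg.F5f4cdd.G7e1333
import Pool.Agent.Mg.F5f4cdd.Gbbe968
import Pool.Agent.Mg.F5f4cdd.Gfa7dd3
import Pool.Agent.Mg.F5f4cdd.Ga9665c
import Pool.Agent.MP_5f4cdd_gt.ABDefs

section

set_option autoImplicit false
open MeasureTheory ENNReal Set Filter Topology Matrix

namespace Pool.Agent.MP_5f4cdd_gt.PL

variable {n : ℕ}

/-- `K'` is obtained from `K` by translating every chord parallel to `θ` -/
def Shift (θ : E n) (b : E n → ℝ) (t : ℝ) (K K' : Set (E n)) : Prop :=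
  ∀ x, x ∈ K ↔ x + (t * b x) • θ ∈ K'

/-- the speed is constant on lines parallel to `θ` -/
def Inv (θ : E n) (b : E n → ℝ) : Prop := ∀ (x : E n) (s : ℝ), b (x + s • θ) = b x

lemma exists_chords {θ : E n} (hθ : θ ≠ 0) : ∃ (m : ℕ) (c : ℝ≥0∞) (ψ : E m → E n), c ≠ ∞ ∧
    Measurable ψ ∧ ∀ F : E n → ℝ≥0∞, Measurable F →
      ∫⁻ z, F z = c * ∫⁻ X : E m, ∫⁻ s : ℝ, F (ψ X + s • θ) := by
  obtain rfl | ⟨m, rfl⟩ : n = 0 ∨ ∃ m, n = m + 1 := by
    cases n with
    | zero => exact Or.inl rfl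
    | succ m => exact Or.inr ⟨m, rfl⟩
  · exact absurd (Subsingleton.elim _ _) hθ
  obtain ⟨T, hT⟩ := SeparatingDual.exists_continuousLinearEquiv_apply_eq (R := ℝ)
    (x := (Pi.single 0 1 : E (m + 1))) (by simp) hθ
  set S : E (m + 1) →ₗ[ℝ] E (m + 1) := T.toLinearEquiv.toLinearMap with hS
  have hdet : LinearMap.det S ≠ 0 := T.toLinearEquiv.isUnit_det'.ne_zero
  have mT : Measurable T := T.continuous.measurable
  refine ⟨m, ENNReal.ofReal |LinearMap.det S|, fun X => T (Fin.cons 0 X), ENNReal.ofReal_ne_top,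
    mT.comp (measurable_cons' 0), fun F hF => ?_⟩
  have h1 := lintegral_comp_lin S hdet hF
  have h2 := Pool.Agent.MP_5f4cdd_gt.lintegral_cons (g := fun z => F (S z)) (hF.comp mT)
  have h3 : ∀ (X : E m) (s : ℝ), S (Fin.cons s X) = T (Fin.cons 0 X) + s • θ := by
    intro X s
    rw [← hT, ← map_smul, ← map_add]
    change T _ = _
    congr 1
    ext j
    refine Fin.cases ?_ (fun i => ?_) j <;> simp
  simp only [h3] at h2
  rw [← h2, h1, ← mul_assoc, ← ENNReal.ofReal_mul (abs_nonneg _), ← abs_mul,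
    mul_inv_cancel₀ hdet]
  simp

lemma chord_eq {θ : E n} {b : E n → ℝ} (hb : Inv θ b) {t : ℝ} {K K' : Set (E n)}
    (h : Shift θ b t K K') (G : E n → ℝ≥0∞) (x : E n) :
    ∫⁻ s : ℝ, K'.indicator G (x + s • θ) =
      ∫⁻ s : ℝ, K.indicator (fun z => G (z + (t * b x) • θ)) (x + s • θ) := by
  rw [← lintegral_add_right_eq_self (fun s : ℝ => K'.indicator G (x + s • θ)) (t * b x)]
  refine lintegral_congr fun s => ?_
  have e := h (x + s • θ)
  rw [hb, add_assoc, ← add_smul] at e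
  by_cases hs : x + s • θ ∈ K
  · rw [indicator_of_mem hs, indicator_of_mem (e.1 hs), add_assoc, ← add_smul]
  · rw [indicator_of_notMem hs, indicator_of_notMem (fun h' => hs (e.2 h'))]

lemma Shift.volume_eq {θ : E n} (hθ : θ ≠ 0) {b : E n → ℝ} (hb : Inv θ b) {t : ℝ}
    {K K' : Set (E n)} (h : Shift θ b t K K') (hK : MeasurableSet K) (hK' : MeasurableSet K') :
    volume K' = volume K := by
  obtain ⟨m, c, ψ, -, -, hc⟩ := exists_chords hθ
  rw [← lintegral_indicator_one hK, ← lintegral_indicator_one hK',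
    hc _ (measurable_one.indicator hK), hc _ (measurable_one.indicator hK')]
  congr 1
  refine lintegral_congr fun X => ?_
  rw [chord_eq hb h]
  rfl

/-- Laplace transform with values in `ℝ≥0∞` -/
noncomputable def LapE (p : ℝ) (L : Set (E n)) (y : E n) : ℝ≥0∞ :=
  ∫⁻ x in L, ENNReal.ofReal (Real.exp (p * (x ⬝ᵥ y)))

lemma measurable_expE (p : ℝ) (y : E n) :
    Measurable fun x : E n => ENNReal.ofReal (Real.exp (p * (x ⬝ᵥ y))) :=
  (continuous_exp_dot p y).measurable.ennreal_ofReal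

lemma LapE_eq (p : ℝ) {L : Set (E n)} (hL : IsCompact L) (y : E n) :
    LapE p L y = ENNReal.ofReal (Lap p L y) :=
  (ofReal_integral_eq_lintegral_ofReal
    ((continuous_exp_dot p y).continuousOn.integrableOn_compact hL)
    (Eventually.of_forall fun _ => (Real.exp_pos _).le)).symm

lemma LapE_holder {θ : E n} (hθ : θ ≠ 0) {b : E n → ℝ} (hb : Inv θ b) {t₀ t₁ : ℝ}
    {K K₀ K₁ : Set (E n)} (h₀ : Shift θ b t₀ K K₀) (h₁ : Shift θ b t₁ K K₁)
    (hK : MeasurableSet K) (hK₀ : MeasurableSet K₀) (hK₁ : MeasurableSet K₁) (p : ℝ)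
    {y₀ y₁ : E n} {u v : ℝ} (hu : 0 < u) (hv : 0 < v) (huv : u + v = 1)
    (he : u * t₀ * (θ ⬝ᵥ y₀) + v * t₁ * (θ ⬝ᵥ y₁) = 0) :
    LapE p K (u • y₀ + v • y₁) ≤ LapE p K₀ y₀ ^ u * LapE p K₁ y₁ ^ v := by
  obtain ⟨m, c, ψ, -, mψ, hc⟩ := exists_chords hθ
  have hm : ∀ {L : Set (E n)} (_ : MeasurableSet L) (y : E n), Measurable fun X : E m =>
      ∫⁻ s : ℝ, L.indicator (fun x => ENNReal.ofReal (Real.exp (p * (x ⬝ᵥ y)))) (ψ X + s • θ) := by
    intro L hL y
    refine Measurable.lintegral_prod_right' (f := fun q : E m × ℝ =>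
      L.indicator (fun x => ENNReal.ofReal (Real.exp (p * (x ⬝ᵥ y)))) (ψ q.1 + q.2 • θ)) ?_
    exact ((measurable_expE p y).indicator hL).comp
      ((mψ.comp measurable_fst).add (measurable_snd.smul_const θ))
  unfold LapE
  rw [← lintegral_indicator hK, ← lintegral_indicator hK₀, ← lintegral_indicator hK₁,
    hc _ ((measurable_expE p _).indicator hK), hc _ ((measurable_expE p _).indicator hK₀),
    hc _ ((measurable_expE p _).indicator hK₁), ENNReal.mul_rpow_of_nonneg _ _ hu.le,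
    ENNReal.mul_rpow_of_nonneg _ _ hv.le, mul_mul_mul_comm,
    ← ENNReal.rpow_add_of_nonneg _ _ hu.le hv.le, huv, ENNReal.rpow_one]
  refine mul_le_mul_right (le_trans (lintegral_mono fun X => ?_)
    (ENNReal.lintegral_mul_norm_pow_le (hm hK₀ y₀).aemeasurable (hm hK₁ y₁).aemeasurable hu.le
      hv.le huv)) _
  rw [chord_eq hb h₀, chord_eq hb h₁]
  have hm' : ∀ (y w : E n), Measurable fun s : ℝ => K.indicator
      (fun z => ENNReal.ofReal (Real.exp (p * ((z + w) ⬝ᵥ y)))) (ψ X + s • θ) := by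
    intro y w
    exact (((measurable_expE p y).comp (measurable_id.add_const w)).indicator hK).comp
      (measurable_const.add (measurable_id.smul_const θ))
  refine le_trans (lintegral_mono fun s => ?_)
    (ENNReal.lintegral_mul_norm_pow_le (hm' y₀ _).aemeasurable (hm' y₁ _).aemeasurable hu.le
      hv.le huv)
  by_cases hs : ψ X + s • θ ∈ K
  · simp only [indicator_of_mem hs]
    have := exp_combo (u := p * ((ψ X + s • θ + (t₀ * b (ψ X)) • θ) ⬝ᵥ y₀))
      (v := p * ((ψ X + s • θ + (t₁ * b (ψ X)) • θ) ⬝ᵥ y₁))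
      (w := p * ((ψ X + s • θ) ⬝ᵥ (u • y₀ + v • y₁))) hu hv (by
        simp only [add_dotProduct, dotProduct_add, dotProduct_smul, smul_dotProduct, smul_eq_mul]
        linear_combination (-(p * b (ψ X))) * he) 1 1
    simp only [one_mul, ENNReal.one_rpow] at this
    exact this.ge
  · simp [indicator_of_notMem hs]

/-- `exp (-h_{p,L})` -/
noncomputable def Fp (p : ℝ) (L : Set (E n)) (y : E n) : ℝ≥0∞ :=
  ENNReal.ofReal ((Lap p L y / (volume L).toReal) ^ (-(1 / p)))

/-- the `L^p` Mahler volume minimised over all positions of the origin -/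
noncomputable def mstar (p : ℝ) (L : Set (E n)) : ℝ≥0∞ := ⨅ c : E n, mahler p ((fun z => z - c) '' L)

lemma measurable_Fp (p : ℝ) (L : Set (E n)) : Measurable (Fp p L) :=
  (((measurable_Lap p L).div_const _).pow_const _).ennreal_ofReal

lemma vol_pos {L : Set (E n)} (hL : IsCompact L) (h0 : volume L ≠ 0) : 0 < (volume L).toReal :=
  ENNReal.toReal_pos h0 hL.measure_lt_top.ne

lemma Fp_ne_zero (p : ℝ) {L : Set (E n)} (hL : IsCompact L) (h0 : volume L ≠ 0) (y : E n) :
    Fp p L y ≠ 0 := by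
  have := Real.rpow_pos_of_pos (div_pos (Lap_pos' p y hL h0) (vol_pos hL h0)) (-(1 / p))
  simpa [Fp] using this

lemma mstar_eq {p : ℝ} (hp : 0 < p) {L : Set (E n)} (hL : IsCompact L) (h0 : volume L ≠ 0) :
    mstar p L = volume L * lstar (Fp p L) := by
  rw [lstar, ENNReal.mul_iInf (fun h => absurd h hL.measure_lt_top.ne)]
  refine iInf_congr fun c => ?_
  rw [mahler_eq, volume_image_sub]
  congr 1
  refine lintegral_congr fun y => ?_
  have h1 := div_pos (Lap_pos' p y hL h0) (vol_pos hL h0)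
  rw [Fp, Lap_image_sub, ← ENNReal.ofReal_mul (Real.rpow_pos_of_pos h1 _).le, mul_div_right_comm,
    Real.mul_rpow h1.le (Real.exp_pos _).le, ← Real.exp_mul]
  congr 3
  field_simp

lemma shadowHyp_Fp {θ : E n} (hθ : θ ≠ 0) {b : E n → ℝ} (hb : Inv θ b) {t₀ t₁ : ℝ}
    (ht₀ : t₀ < 0) (ht₁ : 0 < t₁) {K K₀ K₁ : Set (E n)} (h₀ : Shift θ b t₀ K K₀)
    (h₁ : Shift θ b t₁ K K₁) (hK : IsCompact K) (hK₀ : IsCompact K₀) (hK₁ : IsCompact K₁)
    (hv : volume K ≠ 0) {p : ℝ} (hp : 0 < p) :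
    ShadowHyp θ (t₁ / (t₁ - t₀)) (-t₀ / (t₁ - t₀)) (Fp p K₀) (Fp p K₁) (Fp p K) := by
  intro y₀ y₁ u v hu hv' huv he
  have hd : 0 < t₁ - t₀ := by linarith
  have v₀ := h₀.volume_eq hθ hb hK.measurableSet hK₀.measurableSet
  have v₁ := h₁.volume_eq hθ hb hK.measurableSet hK₁.measurableSet
  have key := LapE_holder hθ hb h₀ h₁ hK.measurableSet hK₀.measurableSet hK₁.measurableSet p
    (y₀ := y₀) (y₁ := y₁) hu hv' huv (by
      field_simp at he
      linear_combination -he)
  have p₀ := Lap_pos' p y₀ hK₀ (by rwa [v₀])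
  have p₁ := Lap_pos' p y₁ hK₁ (by rwa [v₁])
  have p₂ := Lap_pos' p (u • y₀ + v • y₁) hK hv
  have hV := vol_pos hK hv
  rw [LapE_eq p hK, LapE_eq p hK₀, LapE_eq p hK₁, ENNReal.ofReal_rpow_of_pos p₀,
    ENNReal.ofReal_rpow_of_pos p₁, ← ENNReal.ofReal_mul (by positivity),
    ENNReal.ofReal_le_ofReal_iff (by positivity)] at key
  unfold Fp
  rw [v₀, v₁, ENNReal.ofReal_rpow_of_pos (by positivity), ENNReal.ofReal_rpow_of_pos (by positivity),
    ← ENNReal.ofReal_mul (by positivity)]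
  refine ENNReal.ofReal_le_ofReal ?_
  rw [← Real.rpow_mul (by positivity), ← Real.rpow_mul (by positivity), mul_comm _ u, mul_comm _ v,
    Real.rpow_mul (by positivity), Real.rpow_mul (by positivity),
    ← Real.mul_rpow (by positivity) (by positivity)]
  refine Real.rpow_le_rpow_of_nonpos (by positivity) ?_ (by
    have : 0 < 1 / p := by positivity
    linarith)
  rw [Real.div_rpow p₀.le hV.le, Real.div_rpow p₁.le hV.le, div_mul_div_comm, ← Real.rpow_add hV,
    huv, Real.rpow_one]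
  exact div_le_div_of_nonneg_right key hV.le

/-- quasi-concavity of the `L^p` Mahler volume along parallel chord movements -/
theorem mstar_quasi {θ : E n} (hθ : θ ≠ 0) {b : E n → ℝ} (hb : Inv θ b) {t₀ t₁ : ℝ}
    (ht₀ : t₀ < 0) (ht₁ : 0 < t₁) {K K₀ K₁ : Set (E n)} (h₀ : Shift θ b t₀ K K₀)
    (h₁ : Shift θ b t₁ K K₁) (hK : IsCompact K) (hK₀ : IsCompact K₀) (hK₁ : IsCompact K₁)
    (hv : volume K ≠ 0) {p : ℝ} (hp : 0 < p) {m : ℝ≥0∞} (m₀ : m ≤ mstar p K₀)
    (m₁ : m ≤ mstar p K₁) : m ≤ mstar p K := by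
  have hd : 0 < t₁ - t₀ := by linarith
  have v₀ := h₀.volume_eq hθ hb hK.measurableSet hK₀.measurableSet
  have v₁ := h₁.volume_eq hθ hb hK.measurableSet hK₁.measurableSet
  have hα : 0 < t₁ / (t₁ - t₀) := div_pos ht₁ hd
  have hβ : 0 < -t₀ / (t₁ - t₀) := div_pos (neg_pos.2 ht₀) hd
  have hαβ : t₁ / (t₁ - t₀) + -t₀ / (t₁ - t₀) = 1 := by field_simp; ring
  have n₀ : volume K₀ ≠ 0 := by rwa [v₀]
  have n₁ : volume K₁ ≠ 0 := by rwa [v₁]
  rw [mstar_eq hp hK₀ n₀] at m₀
  rw [mstar_eq hp hK₁ n₁] at m₁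
  rw [mstar_eq hp hK hv]
  refine quasi_aux (by simpa using hα)
    (lstar_ne_zero (measurable_Fp p _) (Fp_ne_zero p hK₀ n₀))
    (lstar_ne_zero (measurable_Fp p _) (Fp_ne_zero p hK₁ n₁))
    (lstar_ne_zero (measurable_Fp p _) (Fp_ne_zero p hK hv))
    (lstar_inv_le hθ hα hβ hαβ (measurable_Fp p _) (measurable_Fp p _) (measurable_Fp p _)
      (Fp_ne_zero p hK₀ n₀) (Fp_ne_zero p hK₁ n₁)
      (shadowHyp_Fp hθ hb ht₀ ht₁ h₀ h₁ hK hK₀ hK₁ hv hp)) ?_ m₀ m₁
  rw [v₀, v₁, ← add_mul, ← ENNReal.ofReal_add hα.le hβ.le, hαβ, ENNReal.ofReal_one, one_mul]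

lemma mstar_affine (p : ℝ) (e : E n ≃ᵃ[ℝ] E n) (L : Set (E n)) :
    mstar p L ≤ mstar p (e '' L) := by
  refine le_iInf fun c => ?_
  refine (iInf_le _ (e.symm c)).trans (le_of_eq ?_)
  rw [← mahler_image_lin p (e.linear : E n →ₗ[ℝ] E n) e.linear.isUnit_det'.ne_zero, image_image,
    image_image]
  congr 1
  refine image_congr fun x _ => ?_
  have := e.toAffineMap.linearMap_vsub x (e.symm c)
  simpa using this

lemma mstar_stdS {p : ℝ} (hp : 0 < p) : mahler p (cS n 1) ≤ mstar p (stdS n) :=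
  le_iInf fun x => mahler_cS_le hp x

/-- monotonicity under outer approximation -/
lemma mahler_mono {p : ℝ} (hp : 0 < p) {K Q : Set (E n)} (hK : IsCompact K) (hQ : IsCompact Q)
    (hKQ : K ⊆ Q) (hv : volume K ≠ 0) :
    ENNReal.ofReal (((volume K).toReal / (volume Q).toReal) ^ (1 + 1 / p)) * mahler p Q ≤
      mahler p K := by
  have hvQ : volume Q ≠ 0 := fun h => hv (measure_mono_null hKQ h)
  have pK := vol_pos hK hv
  have pQ := vol_pos hQ hvQ
  rw [mahler_eq, mahler_eq, Real.rpow_add (by positivity), Real.rpow_one,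
    ENNReal.ofReal_mul (by positivity), mul_mul_mul_comm,
    ← lintegral_const_mul' _ _ ENNReal.ofReal_ne_top]
  refine mul_le_mul' (le_of_eq ?_) (lintegral_mono fun y => ?_)
  · rw [← ENNReal.ofReal_toReal hQ.measure_lt_top.ne, ENNReal.toReal_ofReal pQ.le,
      ← ENNReal.ofReal_mul (by positivity), div_mul_cancel₀ _ pQ.ne',
      ENNReal.ofReal_toReal hK.measure_lt_top.ne]
  · have lK := Lap_pos' p y hK hv
    have lQ := Lap_pos' p y hQ hvQ
    have hle : Lap p K y ≤ Lap p Q y :=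
      setIntegral_mono_set ((continuous_exp_dot p y).continuousOn.integrableOn_compact hQ)
        (Eventually.of_forall fun _ => (Real.exp_pos _).le) hKQ.eventuallyLE
    rw [← ENNReal.ofReal_mul (by positivity)]
    refine ENNReal.ofReal_le_ofReal ?_
    have e : ((volume K).toReal / (volume Q).toReal) ^ (1 / p) =
        ((volume Q).toReal / (volume K).toReal) ^ (-(1 / p)) := by
      rw [Real.rpow_neg (by positivity), ← Real.inv_rpow (by positivity), inv_div]
    rw [e, ← Real.mul_rpow (by positivity) (by positivity)]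
    refine Real.rpow_le_rpow_of_nonpos (by positivity) ?_ (by
      have : 0 < 1 / p := by positivity
      linarith)
    rw [div_mul_div_comm, mul_comm (volume K).toReal, mul_div_mul_left _ _ pQ.ne']
    exact div_le_div_of_nonneg_right hle pK.le

end Pool.Agent.MP_5f4cdd_gt.PL

end

section

set_option autoImplicit false
open MeasureTheory ENNReal Set Filter Topology Function Matrix Pointwise Bornology

namespace Pool.Agent.MP_5f4cdd_gt.AB

open PL EF

variable {n : ℕ}

lemma sandwich' {A B : Set (E n)} (hA : Convex ℝ A) (cA : IsCompact A) (hB : Convex ℝ B)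
    (cB : IsCompact B) {c : E n} {r δ : ℝ} (hδ0 : 0 < δ) (hδ1 : δ ≤ 1)
    (hb : Metric.closedBall c r ⊆ A) (hAB : ∀ a ∈ A, ∃ b ∈ B, ‖a - b‖ ≤ δ * r)
    (hBA : ∀ b ∈ B, ∃ a ∈ A, ‖b - a‖ ≤ δ * r) :
    AffineMap.homothety c (1 - δ) '' A ⊆ B ∧ B ⊆ AffineMap.homothety c (1 + δ) '' A := by
  have hm : ∀ v : E n, ‖v‖ ≤ δ * r → c + δ⁻¹ • v ∈ A := fun v hv => by
    refine hb ?_
    rw [Metric.mem_closedBall, dist_eq_norm, add_sub_cancel_left, norm_smul, Real.norm_eq_abs,
      abs_of_pos (inv_pos.2 hδ0), inv_mul_le_iff₀ hδ0]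
    exact hv
  constructor
  · refine shrink_sub cA (subset_convexHull ℝ A) hB cB.isClosed hδ0.le hδ1 fun a ha => ?_
    obtain ⟨b, hb', h⟩ := hAB a ha
    refine ⟨b, hb', _, hm _ h, ?_⟩
    rw [add_sub_cancel_left, smul_smul, mul_inv_cancel₀ hδ0.ne', one_smul]; abel
  · intro b hb'
    obtain ⟨a, ha, h⟩ := hBA b hb'
    have h1 : 0 < 1 + δ := by linarith
    refine ⟨_, hA ha (hm _ h) (a := 1 / (1 + δ)) (b := δ / (1 + δ))
      (by positivity) (by positivity) (by field_simp), ?_⟩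
    ext j
    simp only [AffineMap.homothety_apply, vsub_eq_sub, vadd_eq_add, Pi.add_apply, Pi.smul_apply,
      Pi.sub_apply, smul_eq_mul]
    field_simp
    ring

/-- convex bodies -/
structure Body (K : Set (E n)) : Prop where
  conv : Convex ℝ K
  comp : IsCompact K
  int : (interior K).Nonempty

/-- continuity of the volume product and of nearness in the Hausdorff metric -/
lemma Body.cont {A : Set (E n)} (hA : Body A) {ε ε' : ℝ} (hεε' : ε < ε') (hε' : ε' < 1)
    {μ v : ℝ≥0∞} (hv : v < μ) : ∃ η : ℝ, 0 < η ∧ ∀ B : Set (E n), Body B →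
      (∀ a ∈ A, ∃ b ∈ B, ‖a - b‖ ≤ η) → (∀ b ∈ B, ∃ a ∈ A, ‖b - a‖ ≤ η) →
      (EF.Near ε A → EF.Near ε' B) ∧ (EF.Near ε B → EF.Near ε' A) ∧
      (mstarInf A ≤ v → mstarInf B < μ) ∧ (mstarInf B ≤ v → mstarInf A < μ) := by
  have hε : ε < 1 := hεε'.trans hε'
  obtain ⟨c, hc⟩ := hA.int
  obtain ⟨r, hr, hb⟩ := Metric.nhds_basis_closedBall.mem_iff.1 (mem_interior_iff_mem_nhds.1 hc)
  have e1 : ∀ᶠ δ in 𝓝 (0 : ℝ), ENNReal.ofReal (((1 + δ) * (1 - δ)⁻¹) ^ n) * v < μ := by
    have : Tendsto (fun δ : ℝ => ENNReal.ofReal (((1 + δ) * (1 - δ)⁻¹) ^ n) * v) (𝓝 0)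
        (𝓝 (ENNReal.ofReal (((1 + 0) * (1 - 0)⁻¹) ^ n) * v)) :=
      ENNReal.Tendsto.mul_const (ENNReal.tendsto_ofReal (ContinuousAt.tendsto (by
        fun_prop (disch := simp)))) (Or.inr hv.ne_top)
    exact this.eventually_lt_const (by simpa using hv)
  have e2 : ∀ᶠ δ in 𝓝 (0 : ℝ), (1 - ε') * (1 + δ) ^ n < (1 - ε) * (1 - δ) ^ n :=
    ContinuousAt.eventually_lt (by fun_prop) (by fun_prop) (by simpa using hεε')
  have e3 : ∀ᶠ δ in 𝓝 (0 : ℝ), δ < 1 := eventually_lt_nhds one_pos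
  obtain ⟨δ, ⟨⟨d1, d2⟩, d3⟩, hδ⟩ := ((((e1.and e2).and e3).filter_mono nhdsWithin_le_nhds).and
    (self_mem_nhdsWithin (a := (0 : ℝ)) (s := Ioi 0))).exists
  have hδ0 : 0 < δ := hδ
  have h5 : 0 < 1 - δ := by linarith
  have h6 : 0 < 1 + δ := by linarith
  refine ⟨δ * r, by positivity, fun B hB hAB hBA => ?_⟩
  obtain ⟨h3, h4⟩ := sandwich' hA.conv hA.comp hB.conv hB.comp hδ0 d3.le hb hAB hBA
  have key : ∀ {P U : Set (E n)} {ρ σ : ℝ}, 0 < ρ → 0 < σ → Body P →
      AffineMap.homothety c σ '' P ⊆ U → U ⊆ AffineMap.homothety c ρ '' P →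
      mstarInf P ≤ ENNReal.ofReal ((ρ * σ⁻¹) ^ n) * mstarInf U := by
    intro P U ρ σ hρ hσ hP a1 a2
    rw [← mstarInf_affine (AffineEquiv.homothetyUnitsMulHom c (Units.mk0 σ hσ.ne')) P, coe_hom]
    refine mstarInf_sandwich (c := c) (by positivity)
      (hP.comp.image (AffineMap.homothety c σ).continuous_of_finiteDimensional)
      ((hP.int.mono interior_subset).image _) a1 (a2.trans (le_of_eq ?_))
    rw [image_image]
    refine image_congr fun x _ => ?_
    rw [← AffineMap.homothety_mul_apply, inv_mul_cancel_right₀ hσ.ne']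
  refine ⟨fun h => h.homothety h6 h5.le h4 h3 hB.comp.measure_lt_top.ne hε hε'.le d2.le,
    fun h => h.homothety (inv_pos.2 h5) (inv_pos.2 h6).le (homothety_inv_left h5.ne' h3)
      (homothety_inv_right h6.ne' h4) hA.comp.measure_lt_top.ne hε hε'.le ?_, fun h => ?_,
    fun h => ((key h6 h5 hA h3 h4).trans (mul_le_mul_right h _)).trans_lt d1⟩
  · rw [inv_pow, inv_pow, ← div_eq_mul_inv, ← div_eq_mul_inv,
      div_le_div_iff₀ (pow_pos h5 _) (pow_pos h6 _)]
    exact d2.le
  · have := key (inv_pos.2 h5) (inv_pos.2 h6) hB (homothety_inv_right h6.ne' h4)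
      (homothety_inv_left h5.ne' h3)
    rw [inv_inv, mul_comm (1 - δ)⁻¹] at this
    exact (this.trans (mul_le_mul_right h _)).trans_lt d1

lemma near_path {ε ε' : ℝ} {μ v : ℝ≥0∞} (hεε' : ε < ε') (hε' : ε' < 1) (hv : v < μ)
    (moat : ∀ K : Set (E n), Convex ℝ K → IsCompact K → (interior K).Nonempty →
      mstarInf K < μ → EF.Near ε' K → EF.Near ε K)
    {U : ℝ → Set (E n)} {R : ℝ} (hU : ∀ t ∈ Icc (0 : ℝ) 1, Body (U t))
    (lip : ∀ t t', ∀ x ∈ U t, ∃ y ∈ U t', ‖x - y‖ ≤ R * |t - t'|)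
    (hM : ∀ t, 0 < t → t ≤ 1 → mstarInf (U t) ≤ v) (hG : Good ε μ (U 0)) : EF.Near ε (U 1) := by
  have hc : ∀ t, ∀ η : ℝ, 0 < η → ∀ᶠ t' in 𝓝 t, (∀ a ∈ U t, ∃ b ∈ U t', ‖a - b‖ ≤ η) ∧
      ∀ b ∈ U t', ∃ a ∈ U t, ‖b - a‖ ≤ η := by
    intro t η hη
    have : ∀ᶠ t' in 𝓝 t, R * |t - t'| < η :=
      ContinuousAt.eventually_lt (by fun_prop) continuousAt_const (by simpa using hη)
    refine this.mono fun t' h => ⟨fun a ha => ?_, fun b hb => ?_⟩
    · obtain ⟨y, hy, h'⟩ := lip t t' a ha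
      exact ⟨y, hy, h'.trans h.le⟩
    · obtain ⟨y, hy, h'⟩ := lip t' t b hb
      exact ⟨y, hy, h'.trans (by rw [abs_sub_comm]; exact h.le)⟩
  have z0 : (0 : ℝ) ∈ Icc (0 : ℝ) 1 := left_mem_Icc.2 zero_le_one
  have hM0 : mstarInf (U 0) < μ := by
    obtain ⟨η, hη, h⟩ := (hU 0 z0).cont hεε' hε' hv
    obtain ⟨t, ⟨h1, h2⟩, h3⟩ := ((((hc 0 η hη).and (eventually_lt_nhds one_pos)).filter_mono
      nhdsWithin_le_nhds).and (self_mem_nhdsWithin (a := (0 : ℝ)) (s := Ioi 0))).exists
    exact (h _ (hU t ⟨le_of_lt h3, h2.le⟩) h1.1 h1.2).2.2.2 (hM t h3 h2.le)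
  have hM' : ∀ t ∈ Icc (0 : ℝ) 1, mstarInf (U t) < μ := fun t ht => by
    rcases ht.1.eq_or_lt with rfl | h
    · exact hM0
    · exact (hM t h ht.2).trans_lt hv
  have moat' : ∀ t ∈ Icc (0 : ℝ) 1, EF.Near ε' (U t) → EF.Near ε (U t) := fun t ht =>
    moat _ (hU t ht).conv (hU t ht).comp (hU t ht).int (hM' t ht)
  refine isPreconnected_Icc.induction₂' (fun t t' => EF.Near ε (U t) → EF.Near ε (U t'))
    (fun t ht => ?_) (fun _ _ _ _ _ _ h h' h'' => h' (h h'')) z0 (right_mem_Icc.2 zero_le_one)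
    (hG (hU 0 z0).int hM0)
  obtain ⟨η, hη, h⟩ := (hU t ht).cont hεε' hε' hv
  filter_upwards [(hc t η hη).filter_mono nhdsWithin_le_nhds, self_mem_nhdsWithin] with t' h1 ht'
  obtain ⟨h2, h3, -⟩ := h _ (hU t' ht') h1.1 h1.2
  exact ⟨fun h => moat' t' ht' (h2 h), fun h => moat' t ht (h3 h)⟩

theorem Good.lim {ε ε' : ℝ} {μ : ℝ≥0∞} (hεε' : ε < ε') (hε' : ε' < 1)
    (moat : ∀ K : Set (E n), Convex ℝ K → IsCompact K → (interior K).Nonempty →
      mstarInf K < μ → EF.Near ε' K → EF.Near ε K)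
    {K : Set (E n)} (hK : Body K) {L : ℕ → Set (E n)} (hL : ∀ j, Body (L j))
    (hG : ∀ j, Good ε μ (L j))
    (ht : Tendsto (fun j => Metric.hausdorffDist K (L j)) atTop (𝓝 0)) : Good ε μ K := by
  intro hi hM
  obtain ⟨η, hη, h⟩ := hK.cont hεε' hε' hM
  obtain ⟨j, hj⟩ := (ht.eventually_lt_const hη).exists
  have hne := Metric.hausdorffEDist_ne_top_of_nonempty_of_bounded (hi.mono interior_subset)
    ((hL j).int.mono interior_subset) hK.comp.isBounded (hL j).comp.isBounded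
  obtain ⟨-, h2, h3, -⟩ := h _ (hL j) (fun a ha => by
      obtain ⟨b, hb, h'⟩ := Metric.exists_dist_lt_of_hausdorffDist_lt ha hj hne
      exact ⟨b, hb, by rw [← dist_eq_norm]; exact h'.le⟩) (fun b hb => by
      obtain ⟨a, ha, h'⟩ := Metric.exists_dist_lt_of_hausdorffDist_lt' hb hj hne
      exact ⟨a, ha, by rw [← dist_eq_norm, dist_comm]; exact h'.le⟩)
  exact moat K hK.conv hK.comp hi hM (h2 (hG j (hL j).int (h3 le_rfl)))

lemma vol1 {A B : Set ℝ} (hA : Convex ℝ A) (cA : IsCompact A) (hB : Convex ℝ B) (cB : IsCompact B)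
    (hne : A.Nonempty ↔ B.Nonempty) {α β : ℝ} (hα : 0 ≤ α) (hβ : 0 ≤ β) (k : ℝ) :
    volume {s | ∃ a ∈ A, ∃ b ∈ B, s = k + α * a + β * b} =
      ENNReal.ofReal α * volume A + ENNReal.ofReal β * volume B := by
  rcases A.eq_empty_or_nonempty with rfl | nA
  · have : B = ∅ := not_nonempty_iff_eq_empty.1 fun h => by simpa using hne.2 h
    simp [this]
  have nB := hne.1 nA
  have eA := eq_Icc_of_connected_compact (hA.isConnected nA) cA
  have eB := eq_Icc_of_connected_compact (hB.isConnected nB) cB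
  generalize sInf A = a₀, sSup A = a₁ at eA
  generalize sInf B = b₀, sSup B = b₁ at eB
  subst eA eB
  have ha := nonempty_Icc.1 nA
  have hb := nonempty_Icc.1 nB
  have : {s | ∃ a ∈ Icc a₀ a₁, ∃ b ∈ Icc b₀ b₁, s = k + α * a + β * b} =
      Icc (k + α * a₀ + β * b₀) (k + α * a₁ + β * b₁) := by
    ext s
    constructor
    · rintro ⟨a, h1, b, h2, rfl⟩
      exact ⟨by gcongr; exacts [h1.1, h2.1], by gcongr; exacts [h1.2, h2.2]⟩
    · intro hs
      obtain ⟨l, l0, l1, hl⟩ := exists_ratio (sub_nonneg.2 hs.1) (sub_le_sub_right hs.2 _)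
      exact ⟨a₀ + l * (a₁ - a₀), ⟨by nlinarith, by nlinarith⟩, b₀ + l * (b₁ - b₀),
        ⟨by nlinarith, by nlinarith⟩, by linarith⟩
  rw [this, Real.volume_Icc, Real.volume_Icc, Real.volume_Icc, ← ENNReal.ofReal_mul hα,
    ← ENNReal.ofReal_mul hβ, ← ENNReal.ofReal_add (mul_nonneg hα (sub_nonneg.2 ha))
      (mul_nonneg hβ (sub_nonneg.2 hb))]
  congr 1; ring

/-- pairs of points on a common fibre -/
def Zs (i : Fin n) (K L : Set (E n)) : Set (E n × E n) :=
  (K ×ˢ L) ∩ {q | sc i 0 q.1 = sc i 0 q.2}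

/-- weighted sum along the fibre -/
noncomputable def φ (i : Fin n) (α β : ℝ) : E n × E n →ₗ[ℝ] E n :=
  (sc i α).comp (LinearMap.fst ℝ _ _) + (sc i β - sc i 0).comp (LinearMap.snd ℝ _ _)

lemma φ_apply (i : Fin n) (α β : ℝ) (q : E n × E n) :
    φ i α β q = update q.1 i (α * q.1 i + β * q.2 i) := by
  ext j
  rcases eq_or_ne j i with rfl | h
  · simp [φ, sc_apply]
  · simp [φ, sc_apply, h]

lemma sc_zero_eq_iff {i : Fin n} {x y : E n} : sc i 0 x = sc i 0 y ↔ ∀ j, j ≠ i → x j = y j := by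
  refine ⟨fun h j hj => by simpa [sc_apply, hj] using congrFun h j, fun h => ?_⟩
  ext j
  rcases eq_or_ne j i with rfl | hj
  · simp [sc_apply]
  · simp [sc_apply, hj, h j hj]

lemma mem_fib {i : Fin n} {K L : Set (E n)} {α β : ℝ} {x : E n} : x ∈ φ i α β '' Zs i K L ↔
    ∃ s t, update x i s ∈ K ∧ update x i t ∈ L ∧ x i = α * s + β * t := by
  constructor
  · rintro ⟨q, ⟨⟨h1, h2⟩, h3⟩, rfl⟩
    refine ⟨q.1 i, q.2 i, by simpa [φ_apply] using h1, ?_, by simp [φ_apply]⟩
    convert h2 using 1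
    ext j
    rcases eq_or_ne j i with rfl | hj
    · simp
    · simp [φ_apply, hj, sc_zero_eq_iff.1 h3 j hj]
  · rintro ⟨s, t, h1, h2, h3⟩
    refine ⟨(update x i s, update x i t), ⟨⟨h1, h2⟩, sc_zero_eq_iff.2 fun j hj => by simp [hj]⟩, ?_⟩
    simp [φ_apply, ← h3]

lemma isCompact_Zs (i : Fin n) {K L : Set (E n)} (cK : IsCompact K) (cL : IsCompact L) :
    IsCompact (Zs i K L) := (cK.prod cL).inter_right (isClosed_eq
      ((sc i 0).continuous_of_finiteDimensional.comp continuous_fst)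
      ((sc i 0).continuous_of_finiteDimensional.comp continuous_snd))

lemma convex_Zs (i : Fin n) {K L : Set (E n)} (hK : Convex ℝ K) (hL : Convex ℝ L) :
    Convex ℝ (Zs i K L) := by
  refine (hK.prod hL).inter fun x hx y hy a b _ _ _ => ?_
  simp only [mem_ofPred_eq, Prod.fst_add, Prod.smul_fst, Prod.snd_add, Prod.smul_snd, map_add,
    map_smul] at hx hy ⊢
  rw [hx, hy]

lemma volume_fib {i : Fin n} {K L : Set (E n)} (hK : Body K) (hL : Body L)
    (hs : sc i 0 '' K = sc i 0 '' L) {α β : ℝ} (hα : 0 ≤ α) (hβ : 0 ≤ β) :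
    volume (φ i α β '' Zs i K L) =
      ENNReal.ofReal α * volume K + ENNReal.ofReal β * volume L := by
  obtain ⟨m, c, ψ, -, mψ, hc⟩ := exists_chords (θ := (Pi.single i 1 : E n)) (by simp)
  have e : ∀ (z : E n) (s : ℝ), z + s • (Pi.single i 1 : E n) = update z i (z i + s) := by
    intro z s
    ext j
    rcases eq_or_ne j i with rfl | hj
    · simp
    · simp [hj]
  have hl : ∀ z : E n, Continuous fun s : ℝ => z + s • (Pi.single i 1 : E n) := fun z => by fun_prop
  have hv : ∀ S : Set (E n), IsCompact S → volume S =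
      c * ∫⁻ X, volume {s : ℝ | ψ X + s • (Pi.single i 1 : E n) ∈ S} := by
    intro S hS
    rw [← lintegral_indicator_one hS.measurableSet,
      hc _ (measurable_one.indicator hS.measurableSet)]
    congr 1
    refine lintegral_congr fun X => ?_
    exact lintegral_indicator_one ((hl (ψ X)).measurable hS.measurableSet)
  have hm : ∀ S : Set (E n), IsCompact S →
      Measurable fun X => volume {s : ℝ | ψ X + s • (Pi.single i 1 : E n) ∈ S} := fun S hS =>
    measurable_measure_prodMk_left (s := {q : E m × ℝ | ψ q.1 + q.2 • (Pi.single i 1 : E n) ∈ S})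
      (((mψ.comp measurable_fst).add (measurable_snd.smul_const _)) hS.measurableSet)
  have hcc : ∀ S : Set (E n), Body S → ∀ z : E n,
      Convex ℝ {s : ℝ | z + s • (Pi.single i 1 : E n) ∈ S} ∧
      IsCompact {s : ℝ | z + s • (Pi.single i 1 : E n) ∈ S} := by
    intro S hS z
    refine ⟨fun s hs t ht a b ha hb hab => ?_, ?_⟩
    · have := hS.conv hs ht ha hb hab
      rwa [smul_add, smul_add, add_add_add_comm, ← add_smul, hab, one_smul, smul_smul, smul_smul,
        ← add_smul] at this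
    · refine ((hS.comp.image (f := fun x : E n => x i - z i) (by fun_prop)).of_isClosed_subset
        (hS.comp.isClosed.preimage (hl z)) fun s hs => ⟨_, hs, by simp⟩)
  have hne : ∀ {S T : Set (E n)}, sc i 0 '' S = sc i 0 '' T → ∀ z : E n,
      {s : ℝ | z + s • (Pi.single i 1 : E n) ∈ S}.Nonempty →
      {s : ℝ | z + s • (Pi.single i 1 : E n) ∈ T}.Nonempty := by
    rintro S T h z ⟨s, hs⟩
    obtain ⟨y, hy, h'⟩ := h.le (mem_image_of_mem _ hs)
    refine ⟨y i - z i, ?_⟩
    convert hy using 1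
    simp only [mem_ofPred_eq, e, add_sub_cancel]
    rw [show update z i (y i) = y from ?_]
    ext j
    rcases eq_or_ne j i with rfl | hj
    · simp
    · simp [hj, sc_zero_eq_iff.1 h' j hj]
  rw [hv _ ((isCompact_Zs i hK.comp hL.comp).image (φ i α β).continuous_of_finiteDimensional),
    hv K hK.comp, hv L hL.comp, mul_left_comm, mul_left_comm _ c, ← mul_add,
    ← lintegral_const_mul _ (hm K hK.comp), ← lintegral_const_mul _ (hm L hL.comp),
    ← lintegral_add_left ((hm K hK.comp).const_mul _)]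
  congr 1
  refine lintegral_congr fun X => ?_
  rw [← vol1 (hcc K hK _).1 (hcc K hK _).2 (hcc L hL _).1 (hcc L hL _).2
    ⟨hne hs _, hne hs.symm _⟩ hα hβ ((α + β - 1) * ψ X i)]
  congr 1
  ext s
  simp only [mem_ofPred_eq, mem_fib, e, update_idem, update_self]
  constructor
  · rintro ⟨a, b, h1, h2, h3⟩
    exact ⟨a - ψ X i, by simpa using h1, b - ψ X i, by simpa using h2, by linarith⟩
  · rintro ⟨a, h1, b, h2, h3⟩
    exact ⟨_, _, h1, h2, by linarith⟩

lemma body_fib {i : Fin n} {K L : Set (E n)} (hK : Body K) (hL : Body L)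
    (hs : sc i 0 '' K = sc i 0 '' L) {α β : ℝ} (hα : 0 ≤ α) (hβ : 0 ≤ β) (h : 0 < α ∨ 0 < β) :
    Body (φ i α β '' Zs i K L) := by
  have hc := (convex_Zs i hK.conv hL.conv).linear_image (φ i α β)
  refine ⟨hc, (isCompact_Zs i hK.comp hL.comp).image (φ i α β).continuous_of_finiteDimensional, ?_⟩
  by_contra h0
  rw [not_nonempty_iff_eq_empty] at h0
  have h1 : volume (φ i α β '' Zs i K L) = 0 := measure_mono_null
    (t := frontier _) (fun x hx => And.intro (subset_closure hx) (by simp [h0]))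
    (hc.addHaar_frontier volume)
  rw [volume_fib hK hL hs hα hβ, add_eq_zero, mul_eq_zero, mul_eq_zero] at h1
  rcases h with h | h
  · exact h1.1.elim (by simpa using h) (Measure.measure_pos_of_nonempty_interior _ hK.int).ne'
  · exact h1.2.elim (by simpa using h) (Measure.measure_pos_of_nonempty_interior _ hL.int).ne'

theorem Good.fib {ε ε' : ℝ} {μ : ℝ≥0∞} (hεε' : ε < ε') (hε' : ε' < 1)
    (moat : ∀ K : Set (E n), Convex ℝ K → IsCompact K → (interior K).Nonempty →
      mstarInf K < μ → EF.Near ε' K → EF.Near ε K)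
    {i : Fin n} {K L : Set (E n)} (hK : Body K) (hL : Body L) (hs : sc i 0 '' K = sc i 0 '' L)
    (gK : Good ε μ K) (gL : Good ε μ L) : Good ε μ (φ i 1 1 '' Zs i K L) := by
  intro hi hM
  have cZ := isCompact_Zs i hK.comp hL.comp
  obtain ⟨R, hR, hZR⟩ := cZ.isBounded.subset_closedBall_lt 0 0
  have lip : ∀ α β α' β' : ℝ, ∀ x ∈ φ i α β '' Zs i K L, ∃ y ∈ φ i α' β' '' Zs i K L,
      ‖x - y‖ ≤ R * (|α - α'| + |β - β'|) := by
    rintro α β α' β' _ ⟨q, hq, rfl⟩
    refine ⟨_, mem_image_of_mem _ hq, ?_⟩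
    have h1 : ‖q‖ ≤ R := by simpa using hZR hq
    have h2 : |q.1 i| ≤ R := (norm_le_pi_norm q.1 i).trans ((norm_fst_le q).trans h1)
    have h3 : |q.2 i| ≤ R := (norm_le_pi_norm q.2 i).trans ((norm_snd_le q).trans h1)
    have : φ i α β q - φ i α' β' q = Pi.single i ((α - α') * q.1 i + (β - β') * q.2 i) := by
      ext j
      rcases eq_or_ne j i with rfl | hj
      · simp [φ_apply]; ring
      · simp [φ_apply, hj]
    rw [this, Pi.norm_single, mul_add]
    refine (abs_add_le _ _).trans (add_le_add ?_ ?_) <;> rw [abs_mul, mul_comm] <;> gcongr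
  have e1 : φ i 1 0 '' Zs i K L = K := by
    ext x
    rw [mem_fib]
    refine ⟨fun ⟨s, t, h1, _, h3⟩ => by simpa [show s = x i by linarith] using h1, fun hx => ?_⟩
    obtain ⟨y, hy, h'⟩ := hs.le (mem_image_of_mem _ hx)
    refine ⟨x i, y i, by simpa, ?_, by simp⟩
    convert hy using 1
    ext j
    rcases eq_or_ne j i with rfl | hj
    · simp
    · simp [hj, sc_zero_eq_iff.1 h' j hj]
  have e2 : φ i 0 1 '' Zs i K L = L := by
    ext x
    rw [mem_fib]
    refine ⟨fun ⟨s, t, _, h1, h3⟩ => by simpa [show t = x i by linarith] using h1, fun hx => ?_⟩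
    obtain ⟨y, hy, h'⟩ := hs.ge (mem_image_of_mem _ hx)
    refine ⟨y i, x i, ?_, by simpa, by simp⟩
    convert hy using 1
    ext j
    rcases eq_or_ne j i with rfl | hj
    · simp
    · simp [hj, sc_zero_eq_iff.1 h' j hj]
  have : Nonempty (Zs i K L) := ((hi.mono interior_subset).of_image).to_subtype
  have hr : ∀ t : ℝ, range (shadowPts (fun q : Zs i K L => φ i 1 1 q) (fun q => q.1.1 i)
      (Pi.single i 1) t) = φ i (1 + t) 1 '' Zs i K L := by
    intro t
    rw [image_eq_range]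
    congr 1
    ext q j
    rcases eq_or_ne j i with rfl | hj
    · simp [shadowPts, φ_apply]; ring
    · simp [shadowPts, φ_apply, hj]
  have hh : ∀ α : ℝ, convexHull ℝ (φ i α 1 '' Zs i K L) = φ i α 1 '' Zs i K L := fun α =>
    ((convex_Zs i hK.conv hL.conv).linear_image _).convexHull_eq
  have hq : ∀ α β : ℝ, 0 < α → α < 1 → 1 < β →
      min (mstarInf (φ i α 1 '' Zs i K L)) (mstarInf (φ i β 1 '' Zs i K L)) ≤
        mstarInf (φ i 1 1 '' Zs i K L) := by
    intro α β a0 a1 b1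
    have hd : 0 < β - α := by linarith
    have ha : 0 < (β - 1) / (β - α) := div_pos (by linarith) hd
    have hb : 0 < (1 - α) / (β - α) := div_pos (by linarith) hd
    have hab : (β - 1) / (β - α) + (1 - α) / (β - α) = 1 := by field_simp; ring
    have e0 : 1 + ((β - 1) / (β - α) * (α - 1) + (1 - α) / (β - α) * (β - 1)) = 1 := by
      field_simp; ring
    have := mstarInf_quasi (fun q : Zs i K L => φ i 1 1 q) (fun q => q.1.1 i) (θ := Pi.single i 1)
      (by simp) (fun t => by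
        rw [hr]; exact (cZ.image (φ i _ 1).continuous_of_finiteDimensional).isBounded) ha hb hab
      (α - 1) (β - 1)
    simp only [hr, e0, add_sub_cancel, hh] at this
    refine this (le_of_eq ?_)
    rw [volume_fib hK hL hs a0.le zero_le_one, volume_fib hK hL hs (by linarith) zero_le_one,
      volume_fib hK hL hs zero_le_one zero_le_one, ENNReal.ofReal_one, one_mul, one_mul,
      mul_add, mul_add, add_add_add_comm, ← add_mul, ← mul_assoc, ← mul_assoc, ← add_mul,
      ← ENNReal.ofReal_add ha.le hb.le, hab, ENNReal.ofReal_one, one_mul,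
      ← ENNReal.ofReal_mul ha.le, ← ENNReal.ofReal_mul hb.le,
      ← ENNReal.ofReal_add (by positivity) (by positivity)]
    have : (β - 1) / (β - α) * α + (1 - α) / (β - α) * β = 1 := by field_simp; ring
    rw [this, ENNReal.ofReal_one, one_mul]
  by_cases h : ∀ α : ℝ, 0 < α → α ≤ 1 →
      mstarInf (φ i α 1 '' Zs i K L) ≤ mstarInf (φ i 1 1 '' Zs i K L)
  · exact near_path hεε' hε' hM moat (U := fun t => φ i t 1 '' Zs i K L) (R := R)
      (fun t ht => body_fib hK hL hs ht.1 zero_le_one (Or.inr one_pos))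
      (fun t t' x hx => by simpa using lip t 1 t' 1 x hx) h (by rwa [e2])
  · push Not at h
    obtain ⟨α, a0, a1, hα⟩ := h
    have a2 : α < 1 := lt_of_le_of_ne a1 (by rintro rfl; exact hα.false)
    refine near_path hεε' hε' hM moat (U := fun t => φ i 1 t '' Zs i K L) (R := R)
      (fun t ht => body_fib hK hL hs zero_le_one ht.1 (Or.inl one_pos))
      (fun t t' x hx => by simpa using lip 1 t 1 t' x hx) (fun β b0 b1 => ?_) (by rwa [e1])
    rcases b1.eq_or_lt with rfl | b2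
    · exact le_rfl
    have h1 := (min_le_iff.1 (hq α β⁻¹ a0 a2 (one_lt_inv_iff₀.2 ⟨b0, b2⟩))).resolve_left
      (not_le.2 hα)
    refine le_trans (le_of_eq ?_) h1
    rw [← mstarInf_affine (dgE _ (sc_ne i b0.ne')) (φ i β⁻¹ 1 '' Zs i K L), image_image]
    congr 1
    refine image_congr fun q _ => ?_
    change _ = sc i _ _
    simp [φ_apply, sc_apply, mul_add, mul_inv_cancel_left₀ b0.ne']

end Pool.Agent.MP_5f4cdd_gt.AB

end

section

set_option autoImplicit false
open MeasureTheory ENNReal Set Filter Topology Function Matrix Pointwise Bornology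

namespace Pool.Agent.MP_5f4cdd_gt.AB

open PL EF

variable {n : ℕ}

lemma measurable_dotE (c : E n) : Measurable fun y : E n => ENNReal.ofReal (c ⬝ᵥ y) :=
  (measurable_dot c).ennreal_ofReal

lemma setLIntegral_smul_dot {P : Set (E n)} (hP : MeasurableSet P) (c : E n) {s : ℝ} (hs : 0 < s) :
    ∫⁻ y in s • P, ENNReal.ofReal (c ⬝ᵥ y) =
      ENNReal.ofReal (s ^ (n + 1)) * ∫⁻ y in P, ENNReal.ofReal (c ⬝ᵥ y) := by
  have hd : LinearMap.det (s⁻¹ • LinearMap.id : E n →ₗ[ℝ] E n) = s⁻¹ ^ n := by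
    simp [LinearMap.det_smul]
  have h := lintegral_comp_lin' (s⁻¹ • LinearMap.id : E n →ₗ[ℝ] E n) (by rw [hd]; positivity)
    (P.indicator fun y => ENNReal.ofReal (c ⬝ᵥ y))
  rw [hd, inv_pow, inv_inv, abs_of_pos (by positivity), lintegral_indicator hP] at h
  rw [pow_succ', ENNReal.ofReal_mul hs.le, mul_assoc, ← h, ← lintegral_indicator (hP.const_smul₀ s),
    ← lintegral_const_mul' _ _ ENNReal.ofReal_ne_top]
  refine lintegral_congr fun y => ?_
  by_cases hy : s⁻¹ • y ∈ P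
  · rw [indicator_of_mem ((mem_smul_set_iff_inv_smul_mem₀ hs.ne' _ _).2 hy)]
    simp only [LinearMap.smul_apply, LinearMap.id_apply, indicator_of_mem hy, dotProduct_smul,
      smul_eq_mul]
    rw [← ENNReal.ofReal_mul hs.le, mul_inv_cancel_left₀ hs.ne']
  · rw [indicator_of_notMem fun h => hy ((mem_smul_set_iff_inv_smul_mem₀ hs.ne' _ _).1 h)]
    simp [indicator_of_notMem hy]

lemma moment {L : Set (E n)} (hL : IsBounded L) (h0 : (0 : E n) ∈ L) (c : E n) :
    ∫⁻ y, expS L y * ENNReal.ofReal (c ⬝ᵥ y) =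
      ((n + 1).factorial : ℝ≥0∞) * ∫⁻ y in polarS L, ENNReal.ofReal (c ⬝ᵥ y) := by
  have hn : L.Nonempty := ⟨0, h0⟩
  have hpos : ∀ y, 0 ≤ suppF L y := fun y => by simpa using dot_le_suppF hL h0 y
  have hm := (continuous_suppF hL).measurable
  have hq : MeasurableSet {q : E n × ℝ | suppF L q.1 ≤ q.2} :=
    measurableSet_le (hm.comp measurable_fst) measurable_snd
  have e0 : ∀ y, expS L y * ENNReal.ofReal (c ⬝ᵥ y) = ∫⁻ s in Ioi (0 : ℝ),
      {q : E n × ℝ | suppF L q.1 ≤ q.2}.indicator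
        (fun q => ENNReal.ofReal (Real.exp (-q.2)) * ENNReal.ofReal (c ⬝ᵥ q.1)) (y, s) := by
    intro y
    rw [expS, exp_neg_eq (hpos _), ← lintegral_mul_const' _ _ ENNReal.ofReal_ne_top]
    refine lintegral_congr fun s => ?_
    simp only [indicator, mem_Ici, mem_ofPred_eq, ite_mul, zero_mul]
  simp only [e0]
  rw [lintegral_lintegral_swap]
  · rw [← lintegral_gamma, ← lintegral_mul_const _ (by fun_prop)]
    refine setLIntegral_congr_fun measurableSet_Ioi fun s hs => ?_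
    have hs' : 0 < s := hs
    have e : ∀ y, {q : E n × ℝ | suppF L q.1 ≤ q.2}.indicator
        (fun q => ENNReal.ofReal (Real.exp (-q.2)) * ENNReal.ofReal (c ⬝ᵥ q.1)) (y, s) =
        {y | suppF L y ≤ s}.indicator
          (fun y => ENNReal.ofReal (Real.exp (-s)) * ENNReal.ofReal (c ⬝ᵥ y)) y := fun y => by
      simp only [indicator, mem_ofPred_eq]
    simp only [e]
    rw [lintegral_indicator (measurableSet_le hm measurable_const),
      lintegral_const_mul' _ _ ENNReal.ofReal_ne_top, level_eq_smul hL hn hs',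
      setLIntegral_smul_dot (isClosed_polarS L).measurableSet c hs',
      ENNReal.ofReal_mul (Real.exp_pos _).le, mul_assoc]
  · exact (Measurable.indicator (Measurable.mul (by fun_prop)
      ((measurable_dotE c).comp measurable_fst)) hq).aemeasurable

lemma bipolar {L : Set (E n)} (hL : Convex ℝ L) (cL : IsClosed L) (h0 : (0 : E n) ∈ L) :
    polarS (polarS L) = L := by
  refine Subset.antisymm (fun x hx => ?_) fun x hx w hw => by rw [dotProduct_comm]; exact hw x hx
  by_contra hn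
  obtain ⟨f, u, h1, h2⟩ := geometric_hahn_banach_closed_point hL cL hn
  obtain ⟨v, hv⟩ := PL.exists_dot_eq f
  have hu : 0 < u := by simpa using h1 0 h0
  have := hx (u⁻¹ • v) fun z hz => by
    rw [dotProduct_smul, smul_eq_mul, ← hv, inv_mul_le_iff₀ hu, mul_one]; exact (h1 z hz).le
  rw [smul_dotProduct, dotProduct_comm, smul_eq_mul, ← hv, inv_mul_le_iff₀ hu, mul_one] at this
  exact this.not_gt h2

lemma convex_polarS (L : Set (E n)) : Convex ℝ (polarS L) := fun x hx y hy a b ha hb hab z hz => by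
  rw [dotProduct_add, dotProduct_smul, dotProduct_smul, smul_eq_mul, smul_eq_mul]
  nlinarith [hx z hz, hy z hz]

lemma pos_eq_neg {L : Set (E n)} (cL : IsCompact L) (hc : ∫ x in L, x = 0) (c : E n) :
    ∫⁻ y in L, ENNReal.ofReal (c ⬝ᵥ y) = ∫⁻ y in L, ENNReal.ofReal (-c ⬝ᵥ y) ∧
      ∫⁻ y in L, ENNReal.ofReal (c ⬝ᵥ y) ≠ ∞ := by
  have hi : IntegrableOn (fun y : E n => c ⬝ᵥ y) L :=
    (Continuous.continuousOn (by fun_prop)).integrableOn_compact cL
  have h1 : ∫ y in L, c ⬝ᵥ y = 0 := by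
    have := ((dotProductBilin ℝ ℝ c).toContinuousLinearMap).integral_comp_comm
      (continuousOn_id.integrableOn_compact (μ := volume) cL)
    simpa [hc] using this
  rw [integral_eq_lintegral_pos_part_sub_lintegral_neg_part hi, sub_eq_zero] at h1
  have f1 := hi.lintegral_lt_top.ne
  have f2 := hi.neg.lintegral_lt_top.ne
  simp only [neg_dotProduct]
  exact ⟨(ENNReal.toReal_eq_toReal_iff' f1 f2).1 h1, f1⟩

lemma zero_mem_of_centroid {L : Set (E n)} (hL : Body L) (hc : ∫ x in L, x = 0) :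
    (0 : E n) ∈ interior L := by
  by_contra h0
  obtain ⟨v, hv, h⟩ := exists_sep hL.conv hL.int h0
  have h1 := (pos_eq_neg hL.comp hc v).1
  rw [setLIntegral_congr_fun hL.comp.measurableSet (g := fun _ => 0) (fun y hy => by
    simpa [dotProduct_comm] using h y hy), lintegral_zero, eq_comm,
    lintegral_eq_zero_iff (measurable_dotE _), EventuallyEq,
    ae_restrict_iff' hL.comp.measurableSet] at h1
  refine (Measure.measure_pos_of_nonempty_interior volume hL.int).ne' (measure_mono_null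
    (fun y hy => ?_) (measure_union_null (ae_iff.1 h1) (volume_dot_zero hv)))
  by_contra h2
  simp only [mem_union, mem_ofPred_eq, not_or, not_not] at h2
  have h3 := h y hy
  have h4 := h2.1 hy
  simp only [sub_zero, neg_dotProduct, Pi.zero_apply, ENNReal.ofReal_eq_zero, dotProduct_comm y]
    at h3 h4
  exact h2.2 (by linarith)

lemma body_polar {L : Set (E n)} (hL : Body L) (h0 : (0 : E n) ∈ interior L) : Body (polarS L) :=
  ⟨convex_polarS L,
    Metric.isCompact_of_isClosed_isBounded (isClosed_polarS _) (isBounded_polarS h0),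
    ⟨0, zero_mem_interior_polarS hL.comp.isBounded⟩⟩

/-- the polar body of a body with centroid at the origin has its Santalo point there -/
lemma mahlerInf_le_mstarInf_polar {L : Set (E n)} (hL : Body L) (hc : ∫ x in L, x = 0) :
    mahlerInf L ≤ mstarInf (polarS L) := by
  have h0 := zero_mem_of_centroid hL hc
  have hK := body_polar hL h0
  have k0 : (0 : E n) ∈ polarS L := fun z _ => by simp
  have hb := bipolar hL.conv hL.comp.isClosed (interior_subset h0)
  have hJ := lintegral_expS hK.comp.isBounded k0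
  rw [hb] at hJ
  rw [mstarInf_eq hK.comp.isBounded ⟨0, k0⟩, mahlerInf_polar hL.comp.isBounded (interior_subset h0),
    ← mul_assoc, ← hJ, mul_comm]
  refine mul_le_mul_right (le_iInf fun c => ?_) _
  obtain ⟨h1, h2⟩ := pos_eq_neg hL.comp hc c
  have m1 := moment hK.comp.isBounded k0 c
  have m2 := moment hK.comp.isBounded k0 (-c)
  rw [hb] at m1 m2
  rw [← h1, ← m1] at m2
  have mE := measurable_expS hK.comp.isBounded
  refine ENNReal.le_of_add_le_add_right (a := ∫⁻ y, expS (polarS L) y * ENNReal.ofReal (c ⬝ᵥ y))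
    (by rw [m1]; exact ENNReal.mul_ne_top (by simp) h2) ?_
  nth_rewrite 2 [← m2]
  rw [← lintegral_add_left mE, ← lintegral_add_right _ (mE.fun_mul (measurable_dotE _))]
  refine lintegral_mono fun y => ?_
  rw [← mul_add, ← mul_one_add]
  refine mul_le_mul_right ?_ _
  have h3 := Real.add_one_le_exp (c ⬝ᵥ y)
  rw [neg_dotProduct]
  rcases le_total 0 (c ⬝ᵥ y) with h | h
  · rw [← ENNReal.ofReal_one, ← ENNReal.ofReal_add zero_le_one h]
    exact le_add_right (ENNReal.ofReal_le_ofReal (by linarith))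
  · rw [ENNReal.ofReal_of_nonpos h, add_zero, ← ENNReal.ofReal_add (Real.exp_pos _).le (by linarith),
      ← ENNReal.ofReal_one]
    exact ENNReal.ofReal_le_ofReal (by linarith)

end Pool.Agent.MP_5f4cdd_gt.AB

end

section

set_option autoImplicit false
open MeasureTheory ENNReal Set Filter Topology

namespace Pool.Agent.MP_5f4cdd_gt

lemma exists_simplex_superset {n : ℕ} {K : Set (E n)} (hK : IsCompact K) :
    ∃ e : AffineEquiv ℝ (E n) (E n), K ⊆ e '' stdS n := by
  obtain ⟨R, hR, hKR⟩ := hK.isBounded.subset_closedBall_lt 0 0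
  have hr : 0 < R * (n + 1) ^ 2 := by positivity
  refine ⟨(AffineEquiv.constVAdd ℝ (E n) (-cen n)).trans
    (LinearEquiv.smulOfNeZero ℝ (E n) _ hr.ne').toAffineEquiv, fun x hx => ?_⟩
  have h1 : x ∈ cS n (R * (n + 1) ^ 2) := mem_cS_of_norm_le (by
    rw [mul_div_cancel_right₀ _ (by positivity)]
    simpa using hKR hx)
  have h2 := (smul_mem_cS (inv_pos.2 hr)).2 h1
  rw [inv_mul_cancel₀ hr.ne'] at h2
  refine ⟨(R * (n + 1) ^ 2)⁻¹ • x + cen n, mem_stdS_iff.2 (by rwa [add_sub_cancel_right]), ?_⟩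
  change (R * (n + 1) ^ 2) • (-cen n + ((R * (n + 1) ^ 2)⁻¹ • x + cen n)) = x
  rw [add_comm (-cen n), add_neg_cancel_right, smul_smul, mul_inv_cancel₀ hr.ne', one_smul]

theorem dim3_main : ∃ p₀ κ : ℝ, 0 < p₀ ∧ 0 < κ ∧ ∀ K : Set (Fin 3 → ℝ),
    Convex ℝ K → IsCompact K → (interior K).Nonempty →
      ∃ e : AffineEquiv ℝ (Fin 3 → ℝ) (Fin 3 → ℝ), K ⊆ e '' stdS 3 ∧
        (∀ p : ℝ, p₀ ≤ p →
          ENNReal.ofReal (1 + κ * (1 - (volume K).toReal / (volume (e '' stdS 3)).toReal)) *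
            (⨅ x ∈ stdS 3, mahler p ((fun z => z - x) '' stdS 3)) ≤ mahler p K) ∧
        ENNReal.ofReal (1 + κ * (1 - (volume K).toReal / (volume (e '' stdS 3)).toReal)) *
          (⨅ x ∈ stdS 3, mahlerInf ((fun z => z - x) '' stdS 3)) ≤ mahlerInf K := by
  obtain ⟨p₁, ε, κ, hp₁, hε, hκ, h⟩ := local_unif_both 3
  obtain ⟨c, hc, hfar⟩ := EF.far_of (local_inf 3) hε
  obtain ⟨p₂, hp₂⟩ := eventually_atTop.1 (mahler_cS_le_inf (n := 3) (η := c / (2 + c))
    (by positivity))
  refine ⟨max p₁ p₂, min κ (c / 2), lt_max_of_lt_left hp₁, by positivity, fun K hKc hKk hKi => ?_⟩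
  rw [iInfInf_eq]
  have hw : ∀ e : AffineEquiv ℝ (E 3) (E 3), K ⊆ e '' stdS 3 →
      0 ≤ 1 - (volume K).toReal / (volume (e '' stdS 3)).toReal := by
    intro e he
    have hSt : volume (e '' stdS 3) ≠ ∞ := by
      rw [volume_image_affine, volume_stdS]
      exact ENNReal.mul_ne_top ENNReal.ofReal_ne_top (volume_cS_lt_top zero_le_one).ne
    exact sub_nonneg.2
      (div_le_one_of_le₀ (ENNReal.toReal_mono hSt (measure_mono he)) ENNReal.toReal_nonneg)
  by_cases hn : ∃ e : AffineEquiv ℝ (E 3) (E 3), K ⊆ e '' stdS 3 ∧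
      (1 - ε) * (volume (e '' stdS 3)).toReal ≤ (volume K).toReal
  · obtain ⟨e, hKe, hv⟩ := hn
    obtain ⟨e', h1, h2, h3⟩ := h K hKc hKk hKi e hKe hv
    have h4 : ENNReal.ofReal
        (1 + min κ (c / 2) * (1 - (volume K).toReal / (volume (e' '' stdS 3)).toReal)) ≤
        ENNReal.ofReal (1 + κ * (1 - (volume K).toReal / (volume (e' '' stdS 3)).toReal)) :=
      ENNReal.ofReal_le_ofReal (by
        linarith [mul_le_mul_of_nonneg_right (min_le_left κ (c / 2)) (hw e' h1)])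
    refine ⟨e', h1, fun p hp => ?_, (mul_le_mul_left h4 _).trans h3⟩
    have hp1 := (le_max_left _ _).trans hp
    rw [iInf_eq (hp₁.trans_le hp1)]
    exact (mul_le_mul_left h4 _).trans (h2 p hp1)
  · have h1 := hfar K hKc hKk hKi fun e he => not_le.1 fun h' => hn ⟨e, he, h'⟩
    obtain ⟨e, he⟩ := exists_simplex_superset hKk
    have h2 : 1 + min κ (c / 2) * (1 - (volume K).toReal / (volume (e '' stdS 3)).toReal) ≤
        1 + c / 2 := by
      have h3 : 0 ≤ (volume K).toReal / (volume (e '' stdS 3)).toReal := by positivity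
      nlinarith [mul_le_mul_of_nonneg_right (min_le_right κ (c / 2)) (hw e he)]
    refine ⟨e, he, fun p hp => ?_,
      (mul_le_mul_left (ENNReal.ofReal_le_ofReal (by linarith)) _).trans h1⟩
    have hp0 := hp₁.trans_le ((le_max_left _ _).trans hp)
    rw [iInf_eq hp0]
    refine le_trans (mul_le_mul' (ENNReal.ofReal_le_ofReal h2)
      (hp₂ p ((le_max_right _ _).trans hp))) (le_trans (le_of_eq ?_)
        (h1.trans (mahlerInf_le_mahler hKk hKi hp0)))
    rw [← mul_assoc, ← ENNReal.ofReal_mul (by positivity)]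
    congr 2
    field_simp
    ring

end Pool.Agent.MP_5f4cdd_gt

end

section

set_option autoImplicit false
open MeasureTheory ENNReal Set Filter Topology Function Matrix Pointwise Bornology

namespace Pool.Agent.MP_5f4cdd_gt.AB

open PL EF

variable {n : ℕ}

lemma antiB_of_lab {L : Set (E n)} (hL : Convex ℝ L) (cL : IsCompact L) (h0 : ∀ x ∈ L, 0 ≤ x)
    (hz : ∀ x ∈ L, ∀ i, update x i 0 ∈ L) : AntiB L := by
  refine ⟨hL, cL, h0, fun x hx y hy hyx => ?_⟩
  have key : ∀ t : Finset (Fin n), t.piecewise y x ∈ L := by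
    intro t
    induction t using Finset.induction_on with
    | empty => simpa using hx
    | insert i t hi ih =>
      obtain ⟨l, l0, l1, hl⟩ := exists_ratio (hy i) (hyx i)
      have := sc_mem (i := i) hL (fun z hz' => by rw [sc_apply, zero_mul]; exact hz z hz' i) ih l0 l1
      rwa [sc_apply, Finset.piecewise_eq_of_notMem _ _ _ hi, ← hl, ← Finset.piecewise_insert] at this
  simpa using key Finset.univ

theorem good_lab {ε ε' : ℝ} {μ : ℝ≥0∞} (hεε' : ε < ε') (hε' : ε' < 1)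
    (moat : ∀ K : Set (E n), Convex ℝ K → IsCompact K → (interior K).Nonempty →
      mstarInf K < μ → EF.Near ε' K → EF.Near ε K) (hA : ∀ L : Set (E n), AntiB L → Good ε μ L)
    (s : Finset (Fin n)) : ∀ K : Set (E n), Convex ℝ K → IsCompact K →
      (∀ x ∈ K, ∀ i, update x i 0 ∈ K) →
      (∀ i, i ∉ s → (∀ x ∈ K, 0 ≤ x i) ∨ ∀ x ∈ K, x i ≤ 0) → Good ε μ K := by
  classical
  induction s using Finset.induction_on with
  | empty =>
    intro K hK cK hz hs
    set d : E n := fun i => if ∀ x ∈ K, 0 ≤ x i then 1 else -1 with hd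
    refine Good.of_dg (d := d) (fun i => by simp only [hd]; split_ifs <;> simp) (hA _
      (antiB_of_lab (hK.linear_image _) (isCompact_dg _ cK) ?_ ?_)) (hεε'.trans hε')
    · rintro _ ⟨x, hx, rfl⟩ i
      rw [dg_apply]
      simp only [hd]
      split_ifs with h
      · simpa using h x hx
      · simpa using (hs i (Finset.notMem_empty i)).resolve_left h x hx
    · rintro _ ⟨x, hx, rfl⟩ i
      refine ⟨_, hz x hx i, ?_⟩
      ext j
      rcases eq_or_ne j i with rfl | hj
      · simp [dg_apply]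
      · simp [dg_apply, hj]
  | insert i s hi ih =>
    intro K hK cK hz hs
    refine Good.glue hεε' hε' moat (i := i) hK cK (fun x hx => hz x hx i) (ih _ ?_ ?_ ?_ ?_)
      (ih _ ?_ ?_ ?_ ?_)
    · exact hK.inter (convex_halfSpace_ge (LinearMap.proj i : E n →ₗ[ℝ] ℝ).isLinear 0)
    · exact cK.inter_right (isClosed_le continuous_const (continuous_apply i))
    · refine fun x hx j => ⟨hz x hx.1 j, ?_⟩
      rcases eq_or_ne i j with rfl | hj
      · simp
      · simpa [hj] using hx.2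
    · intro j hj
      rcases eq_or_ne j i with rfl | h
      · exact Or.inl fun x hx => hx.2
      · exact (hs j (by simp [h, hj])).imp (fun h x hx => h x hx.1) fun h x hx => h x hx.1
    · exact hK.inter (convex_halfSpace_le (LinearMap.proj i : E n →ₗ[ℝ] ℝ).isLinear 0)
    · exact cK.inter_right (isClosed_le (continuous_apply i) continuous_const)
    · refine fun x hx j => ⟨hz x hx.1 j, ?_⟩
      rcases eq_or_ne i j with rfl | hj
      · simp
      · simpa [hj] using hx.2
    · intro j hj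
      rcases eq_or_ne j i with rfl | h
      · exact Or.inr fun x hx => hx.2
      · exact (hs j (by simp [h, hj])).imp (fun h x hx => h x hx.1) fun h x hx => h x hx.1

lemma polar_near' (n : ℕ) {C ε' : ℝ} (hC : 0 < C) (h0 : 0 < ε') (h1 : ε' < 1) :
    ∃ ε > 0, ∀ K : Set (E n), Convex ℝ K → IsCompact K → 0 ∈ interior K → EF.Near ε K →
      (volume K).toReal * (volume (polarS K)).toReal ≤ C → EF.Near ε' (polarS K) := by
  cases n with
  | succ m => exact polar_near hC h0 h1
  | zero =>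
    refine ⟨1, one_pos, fun K _ _ _ _ _ => ?_⟩
    have := (near_simplex (AffineEquiv.refl ℝ (E 0))).mono h0.le
    convert this using 1
    ext x
    simp [polarS, stdS, dotProduct, Subsingleton.elim x 0]

theorem far_gen (n : ℕ) {ε : ℝ} (hε : 0 < ε) : ∃ c : ℝ, 0 < c ∧ ∀ K : Set (E n), ABGen K →
    Body K ∧ Good ε (ENNReal.ofReal (1 + c) * mahlerInf (cS n 1)) K := by
  obtain ⟨εA, κ, hεA, hκ, hA⟩ := local_inf n
  set m := mahlerInf (cS n 1) with hm
  have hmt : m ≠ ∞ := mahlerInf_cS_lt_top.ne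
  set ε' := min εA (1 / 2) with hε'
  have hε'0 : 0 < ε' := by positivity
  have hε'1 : ε' < 1 := (min_le_right _ _).trans_lt (by norm_num)
  obtain ⟨ε₁, hε₁, hpol⟩ := polar_near' n (C := (1 + κ) * m.toReal + 1) (by positivity) hε'0 hε'1
  set ε₃ := min (min ε (ε' / 2)) ε₁ with hε₃
  have hε₃0 : 0 < ε₃ := by positivity
  have h3' : ε₃ < ε' := ((min_le_left _ _).trans (min_le_right _ _)).trans_lt (by linarith)
  have h31 := h3'.trans hε'1
  obtain ⟨c₁, hc₁, hanti⟩ := good_anti n hε₃0 h31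
  set c := min c₁ (κ * ε₃) with hc
  have hc2 : c ≤ κ * ε₃ := min_le_right _ _
  set μ := ENNReal.ofReal (1 + c) * m with hμ
  have moat : ∀ K : Set (E n), Convex ℝ K → IsCompact K → (interior K).Nonempty →
      mstarInf K < μ → EF.Near ε' K → EF.Near ε₃ K := by
    intro K hK hKc hKi hM hN
    obtain ⟨a, ha⟩ := iInf_lt_iff.1 hM
    rw [← near_sub_iff h31 K a]
    rw [← near_sub_iff hε'1 K a] at hN
    obtain ⟨e, he1, he2⟩ := hN.mono (min_le_left _ _)
    obtain ⟨e', h1, h2⟩ := hA _ (convex_image_sub hK a) (isCompact_image_sub hKc a)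
      (interior_image_sub hKi a) e he1 he2
    refine ⟨e', h1, ?_⟩
    by_contra hc
    push Not at hc
    rw [← div_lt_iff₀ (toReal_simplex_pos e')] at hc
    refine absurd ha (not_lt.2 (le_trans ?_ h2))
    exact mul_le_mul_left (ENNReal.ofReal_le_ofReal (by nlinarith)) _
  suffices h : ∀ K : Set (E n), ABGen K → Body K ∧ Good ε₃ μ K from
    ⟨c, by positivity, fun K hK => ⟨(h K hK).1, fun hi hM => ((h K hK).2 hi hM).mono
      ((min_le_left _ _).trans (min_le_left _ _))⟩⟩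
  intro K hK
  induction hK with
  | lab K hK cK hi hz =>
    refine ⟨⟨hK, cK, hi⟩, good_lab h3' hε'1 moat (fun L hL hi hM => hanti L hL hi (hM.trans_le
      (mul_le_mul_left (ENNReal.ofReal_le_ofReal ?_) _))) Finset.univ K hK cK hz (by simp)⟩
    linarith [min_le_left c₁ (κ * ε₃)]
  | image K e _ ih =>
    exact ⟨⟨ih.1.conv.affine_image e.toAffineMap, ih.1.comp.image e.continuous_of_finiteDimensional,
      (interior_affine e K).2 ih.1.int⟩, ih.2.image h31 e⟩
  | fibre K L i _ _ hs ihK ihL =>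
    have hs' : sc i 0 '' K = sc i 0 '' L := by simpa [sc_apply] using hs
    have e : {x : E n | ∃ s t : ℝ, update x i s ∈ K ∧ update x i t ∈ L ∧ x i = s + t} =
        φ i 1 1 '' Zs i K L := by ext x; simp only [mem_fib, one_mul, mem_ofPred_eq]
    rw [e]
    exact ⟨body_fib ihK.1 ihL.1 hs' zero_le_one zero_le_one (Or.inl one_pos),
      Good.fib h3' hε'1 moat ihK.1 ihL.1 hs' ihK.2 ihL.2⟩
  | polar K _ hc ih =>
    have h0 := zero_mem_of_centroid ih.1 hc
    have hB := body_polar ih.1 h0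
    refine ⟨hB, fun hi hM => moat _ hB.conv hB.comp hi hM ?_⟩
    have h1 := (mahlerInf_le_mstarInf_polar ih.1 hc).trans_lt hM
    refine hpol K ih.1.conv ih.1.comp h0 ((ih.2 ih.1.int (lt_of_le_of_lt
      ((iInf_le _ 0).trans (by simp)) h1)).mono (min_le_right _ _)) ?_
    have h2 : volume K * volume (polarS K) ≤ ENNReal.ofReal (1 + κ) * m := by
      refine le_trans ?_ (h1.le.trans
        (mul_le_mul_left (ENNReal.ofReal_le_ofReal (by nlinarith)) _))
      rw [mahlerInf_polar ih.1.comp.isBounded (interior_subset h0)]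
      exact le_mul_of_one_le_left' (by exact_mod_cast n.factorial_pos)
    have h3 := ENNReal.toReal_mono (ENNReal.mul_ne_top ENNReal.ofReal_ne_top hmt) h2
    rw [ENNReal.toReal_mul, ENNReal.toReal_mul, ENNReal.toReal_ofReal (by positivity)] at h3
    linarith
  | limit K L hK cK hi _ ht ih =>
    exact ⟨⟨hK, cK, hi⟩, Good.lim h3' hε'1 moat ⟨hK, cK, hi⟩ (fun j => (ih j).1)
      (fun j => (ih j).2) ht⟩

theorem ab_main (n : ℕ) : ∃ p₀ κ : ℝ, 0 < p₀ ∧ 0 < κ ∧ ∀ K : Set (Fin n → ℝ), ABGen K →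
      ∃ e : AffineEquiv ℝ (Fin n → ℝ) (Fin n → ℝ), K ⊆ e '' stdS n ∧
        (∀ p : ℝ, p₀ ≤ p →
          ENNReal.ofReal (1 + κ * (1 - (volume K).toReal / (volume (e '' stdS n)).toReal)) *
            (⨅ x ∈ stdS n, mahler p ((fun z => z - x) '' stdS n)) ≤ mahler p K) ∧
        ENNReal.ofReal (1 + κ * (1 - (volume K).toReal / (volume (e '' stdS n)).toReal)) *
          (⨅ x ∈ stdS n, mahlerInf ((fun z => z - x) '' stdS n)) ≤ mahlerInf K := by
  obtain ⟨p₁, ε, κ, hp₁, hε, hκ, h⟩ := local_unif_both n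
  obtain ⟨c, hc, hfar⟩ := far_gen n hε
  obtain ⟨p₂, hp₂⟩ := eventually_atTop.1 (mahler_cS_le_inf (n := n) (η := c / (2 + c))
    (by positivity))
  refine ⟨max p₁ p₂, min κ (c / 2), lt_max_of_lt_left hp₁, by positivity, fun K hK => ?_⟩
  obtain ⟨⟨hKc, hKk, hKi⟩, hG⟩ := hfar K hK
  rw [iInfInf_eq]
  have hw : ∀ e : AffineEquiv ℝ (E n) (E n), K ⊆ e '' stdS n →
      0 ≤ 1 - (volume K).toReal / (volume (e '' stdS n)).toReal := by
    intro e he
    have hSt : volume (e '' stdS n) ≠ ∞ := by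
      rw [volume_image_affine, volume_stdS]
      exact ENNReal.mul_ne_top ENNReal.ofReal_ne_top (volume_cS_lt_top zero_le_one).ne
    exact sub_nonneg.2
      (div_le_one_of_le₀ (ENNReal.toReal_mono hSt (measure_mono he)) ENNReal.toReal_nonneg)
  by_cases hn : EF.Near ε K
  · obtain ⟨e, hKe, hv⟩ := hn
    obtain ⟨e', h1, h2, h3⟩ := h K hKc hKk hKi e hKe hv
    have h4 : ENNReal.ofReal
        (1 + min κ (c / 2) * (1 - (volume K).toReal / (volume (e' '' stdS n)).toReal)) ≤
        ENNReal.ofReal (1 + κ * (1 - (volume K).toReal / (volume (e' '' stdS n)).toReal)) :=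
      ENNReal.ofReal_le_ofReal (by
        linarith [mul_le_mul_of_nonneg_right (min_le_left κ (c / 2)) (hw e' h1)])
    refine ⟨e', h1, fun p hp => ?_, (mul_le_mul_left h4 _).trans h3⟩
    have hp1 := (le_max_left _ _).trans hp
    rw [iInf_eq (hp₁.trans_le hp1)]
    exact (mul_le_mul_left h4 _).trans (h2 p hp1)
  · have h1 : ENNReal.ofReal (1 + c) * mahlerInf (cS n 1) ≤ mahlerInf K :=
      (not_lt.1 fun hM => hn (hG hKi hM)).trans ((iInf_le _ 0).trans (by simp))
    obtain ⟨e, he⟩ := exists_simplex_superset hKk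
    have h2 : 1 + min κ (c / 2) * (1 - (volume K).toReal / (volume (e '' stdS n)).toReal) ≤
        1 + c / 2 := by
      have h3 : 0 ≤ (volume K).toReal / (volume (e '' stdS n)).toReal := by positivity
      nlinarith [mul_le_mul_of_nonneg_right (min_le_right κ (c / 2)) (hw e he)]
    refine ⟨e, he, fun p hp => ?_,
      (mul_le_mul_left (ENNReal.ofReal_le_ofReal (by linarith)) _).trans h1⟩
    have hp0 := hp₁.trans_le ((le_max_left _ _).trans hp)
    rw [iInf_eq hp0]
    refine le_trans (mul_le_mul' (ENNReal.ofReal_le_ofReal h2)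
      (hp₂ p ((le_max_right _ _).trans hp))) (le_trans (le_of_eq ?_)
        (h1.trans (mahlerInf_le_mahler hKk hKi hp0)))
    rw [← mul_assoc, ← ENNReal.ofReal_mul (by positivity)]
    congr 2
    field_simp
    ring

end Pool.Agent.MP_5f4cdd_gt.AB

end
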