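import Pool.Agent.MP_5f4cdd_gt.WDefs
import Pool.Agent.Mg.F5f4cdd.Gcba361

section

set_option autoImplicit false
open MeasureTheory Filter Topology

namespace Pool.Agent.MP_5f4cdd_gt

/-- The smallest class of sets that contains the convex bodies in the positive orthant described by
the sums of the coordinates over three blocks, the first block being a single coordinate, and is
closed under replacing simplex fibres by unconditional fibres, affine bijections, fibre sums of two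
members with the same shadow, polarity about the centroid and Hausdorff limits. -/
inductive WGen {n : ℕ} : Set (Fin n → ℝ) → Prop
  | wedge (K : Set (Fin n → ℝ)) (g : Fin n → Fin 3) (C : Set (Fin 3 → ℝ)) :
      Convex ℝ K → IsCompact K → (interior K).Nonempty →
      Function.Surjective g → (∀ i i', g i = 0 → g i' = 0 → i = i') →
      K = {x | (∀ i, 0 ≤ x i) ∧ (fun j => ∑ i with g i = j, x i) ∈ C} → WGen K
  | norm (K : Set (Fin n → ℝ)) (k m : ℕ) (e : Fin k ⊕ Fin (m + 1) ≃ Fin n) (B : Set (Fin k → ℝ))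
      (τ : (Fin k → ℝ) → ℝ) (S : Set (Fin (m + 1) → ℝ)) :
      Convex ℝ K → IsCompact K → (interior K).Nonempty →
      Convex ℝ S → IsCompact S → (interior S).Nonempty →
      (∀ y ∈ S, ∀ j, Function.update y j (-y j) ∈ S) → (∀ u ∈ B, 0 ≤ τ u) →
      WGen (fibS e B τ (stdS (m + 1))) → K = fibS e B τ S → WGen K
  | image (K : Set (Fin n → ℝ)) (e : AffineEquiv ℝ (Fin n → ℝ) (Fin n → ℝ)) :
      WGen K → WGen (e '' K)
  | fibre (K L : Set (Fin n → ℝ)) (i : Fin n) : WGen K → WGen L →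
      (fun x => Function.update x i 0) '' K = (fun x => Function.update x i 0) '' L →
      WGen {x | ∃ s t : ℝ, Function.update x i s ∈ K ∧ Function.update x i t ∈ L ∧ x i = s + t}
  | polar (K : Set (Fin n → ℝ)) : WGen K → ∫ x in K, x = 0 →
      WGen {y | ∀ x ∈ K, ∑ i, x i * y i ≤ 1}
  | limit (K : Set (Fin n → ℝ)) (L : ℕ → Set (Fin n → ℝ)) : Convex ℝ K → IsCompact K →
      (interior K).Nonempty → (∀ j, WGen (L j)) →
      Tendsto (fun j => Metric.hausdorffDist K (L j)) atTop (𝓝 0) → WGen K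

end Pool.Agent.MP_5f4cdd_gt

end

section

set_option autoImplicit false
open MeasureTheory ENNReal Set Function

namespace Pool.Agent.MP_5f4cdd_gt.W

variable {n : ℕ} {ι κ : Type}

/-- three nonempty blocks, the first one a single coordinate -/
structure Blk (g : Fin n → Fin 3) : Prop where
  surj : Surjective g
  one : ∀ i i', g i = 0 → g i' = 0 → i = i'

/-- block sums -/
def bs (g : Fin n → Fin 3) : E n →ₗ[ℝ] E 3 where
  toFun u := fun j => ∑ i with g i = j, u i
  map_add' u v := by ext j; simp [Finset.sum_add_distrib]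
  map_smul' c u := by ext j; simp [Finset.mul_sum]

/-- block sizes -/
def bN (g : Fin n → Fin 3) (j : Fin 3) : ℝ := ((Finset.univ.filter fun i => g i = j).card : ℝ)

/-- spread a base point evenly over the blocks -/
noncomputable def up (g : Fin n → Fin 3) : E 3 →ₗ[ℝ] E n where
  toFun z := fun k => z (g k) / bN g (g k)
  map_add' u v := by ext k; simp [add_div]
  map_smul' c u := by ext k; simp [mul_div_assoc]

/-- pull a base functional back -/
def pb (g : Fin n → Fin 3) : E 3 →ₗ[ℝ] E n where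
  toFun w := fun k => w (g k)
  map_add' u v := by ext k; simp
  map_smul' c u := by ext k; simp

/-- a choice of one coordinate in each block -/
abbrev Sec (g : Fin n → Fin 3) : Type := ∀ j : Fin 3, {k : Fin n // g k = j}

/-- the basis vector `k` minus the average of the basis vectors of its block -/
noncomputable def dv (g : Fin n → Fin 3) (k : Fin n) : E n :=
  fun k' => (if k' = k then 1 else 0) - if g k' = g k then 1 / bN g (g k) else 0

/-- lifted points with prescribed fibre sizes -/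
noncomputable def LXc (g : Fin n → Fin 3) (x : ι → E 3) (s : ι → Fin 3 → ℝ) : ι × Sec g → E n :=
  fun p => up g (x p.1) + ∑ j, (s p.1 j * bN g j) • dv g (p.2 j)

/-- the vertices of the wedge -/
noncomputable def LX (g : Fin n → Fin 3) (x : ι → E 3) (y : κ → E 3) (m : Fin 3 → κ)
    (ρ : Fin 3 → ℝ) : ι × Sec g → E n :=
  LXc g x fun i j => ρ j * (1 - y (m j) ⬝ᵥ x i)

/-- the facets of the wedge -/
noncomputable def LY (g : Fin n → Fin 3) (y : κ → E 3) (m : Fin 3 → κ) (ρ : Fin 3 → ℝ) :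
    κ ⊕ Fin n → E n :=
  Sum.elim (fun j => pb g (y j)) fun k => pb g (y (m (g k))) - (ρ (g k))⁻¹ • dv g k

variable {g : Fin n → Fin 3}

lemma bs_apply (u : E n) (j : Fin 3) : bs g u j = ∑ i with g i = j, u i := rfl

lemma up_apply (z : E 3) (k : Fin n) : up g z k = z (g k) / bN g (g k) := rfl

lemma pb_apply (w : E 3) (k : Fin n) : pb g w k = w (g k) := rfl

lemma bN_pos (hg : Surjective g) (j : Fin 3) : 0 < bN g j := by
  obtain ⟨k, hk⟩ := hg j
  exact Nat.cast_pos.2 (Finset.card_pos.2 ⟨k, by simpa using hk⟩)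

lemma Blk.bN_zero (hg : Blk g) : bN g 0 = 1 := by
  obtain ⟨k, hk⟩ := hg.surj 0
  have : (Finset.univ.filter fun i => g i = 0) = {k} := by
    ext i
    simp only [Finset.mem_filter, Finset.mem_univ, true_and, Finset.mem_singleton]
    exact ⟨fun h => hg.one i k h hk, fun h => h ▸ hk⟩
  simp [bN, this]

lemma nonempty_sec (hg : Surjective g) : Nonempty (Sec g) :=
  ⟨fun j => ⟨(hg j).choose, (hg j).choose_spec⟩⟩

lemma pb_dot (w : E 3) (u : E n) : pb g w ⬝ᵥ u = w ⬝ᵥ bs g u := by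
  simp only [dotProduct, pb_apply, bs_apply, Finset.mul_sum]
  rw [← Finset.sum_fiberwise (s := Finset.univ) (g := g)]
  refine Finset.sum_congr rfl fun j _ => Finset.sum_congr rfl fun i hi => ?_
  rw [(Finset.mem_filter.1 hi).2]

lemma bs_up (hg : Surjective g) (z : E 3) : bs g (up g z) = z := by
  ext j
  rw [bs_apply, Finset.sum_congr rfl (g := fun _ => z j / bN g j) fun i hi => by
    rw [up_apply, (Finset.mem_filter.1 hi).2]]
  rw [Finset.sum_const, nsmul_eq_mul]
  exact mul_div_cancel₀ _ (bN_pos hg j).ne'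

lemma bs_pb (w : E 3) (j : Fin 3) : bs g (pb g w) j = bN g j * w j := by
  rw [bs_apply, Finset.sum_congr rfl (g := fun _ => w j) fun i hi => by
    rw [pb_apply, (Finset.mem_filter.1 hi).2]]
  rw [Finset.sum_const, nsmul_eq_mul]
  rfl

lemma up_eq_pb (z : E 3) : up g z = pb g fun j => z j / bN g j := rfl

lemma pb_dot_up (hg : Surjective g) (w z : E 3) : pb g w ⬝ᵥ up g z = w ⬝ᵥ z := by
  rw [pb_dot, bs_up hg]

lemma up_dot_pb (hg : Surjective g) (z w : E 3) : up g z ⬝ᵥ pb g w = z ⬝ᵥ w := by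
  rw [dotProduct_comm, pb_dot_up hg, dotProduct_comm]

lemma dv_dot (k : Fin n) (u : E n) : dv g k ⬝ᵥ u = u k - bs g u (g k) / bN g (g k) := by
  simp only [dotProduct, dv, sub_mul, Finset.sum_sub_distrib, ite_mul, one_mul, zero_mul,
    Finset.sum_ite_eq', Finset.mem_univ, if_true, bs_apply, Finset.sum_div, Finset.sum_filter]
  congr 1
  refine Finset.sum_congr rfl fun i _ => ?_
  split_ifs <;> simp [div_eq_inv_mul]

lemma bs_dv (k : Fin n) : bs g (dv g k) = 0 := by
  ext j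
  have hk : 0 < bN g (g k) := Nat.cast_pos.2 (Finset.card_pos.2 ⟨k, by simp⟩)
  simp only [bs_apply, dv, Finset.sum_sub_distrib, Pi.zero_apply]
  by_cases h : g k = j
  · subst h
    rw [Finset.sum_ite_eq', if_pos (by simp), Finset.sum_congr rfl
      (g := fun _ => 1 / bN g (g k)) fun i hi => if_pos (Finset.mem_filter.1 hi).2,
      Finset.sum_const, nsmul_eq_mul]
    change 1 - bN g (g k) * _ = 0
    field_simp
    ring
  · rw [Finset.sum_ite_eq', if_neg (by simpa using h), Finset.sum_eq_zero fun i hi =>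
      if_neg fun e => h (e.symm.trans (Finset.mem_filter.1 hi).2)]
    simp

lemma pb_dot_dv (w : E 3) (k : Fin n) : pb g w ⬝ᵥ dv g k = 0 := by
  rw [pb_dot, bs_dv, dotProduct_zero]

lemma dv_dot_pb (k : Fin n) (w : E 3) : dv g k ⬝ᵥ pb g w = 0 := by
  rw [dotProduct_comm, pb_dot_dv]

lemma dv_dot_up (k : Fin n) (z : E 3) : dv g k ⬝ᵥ up g z = 0 := by
  rw [up_eq_pb, dv_dot_pb]

lemma up_dot_dv (z : E 3) (k : Fin n) : up g z ⬝ᵥ dv g k = 0 := by
  rw [dotProduct_comm, dv_dot_up]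

lemma dv_dot_dv (k k' : Fin n) : dv g k ⬝ᵥ dv g k' =
    (if k = k' then 1 else 0) - if g k = g k' then 1 / bN g (g k') else 0 := by
  rw [dv_dot, bs_dv]; simp [dv]

lemma Blk.dv_zero (hg : Blk g) {k : Fin n} (hk : g k = 0) : dv g k = 0 := by
  ext k'
  by_cases h : k' = k
  · simp [dv, h, hk, hg.bN_zero]
  · have : g k' ≠ 0 := fun e => h (hg.one _ _ e hk)
    simp [dv, h, hk, this]

lemma bs_LXc (hg : Surjective g) (x : ι → E 3) (s : ι → Fin 3 → ℝ) (p : ι × Sec g) :
    bs g (LXc g x s p) = x p.1 := by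
  simp [LXc, bs_up hg, bs_dv]

lemma pb_dot_LXc (hg : Surjective g) (w : E 3) (x : ι → E 3) (s : ι → Fin 3 → ℝ)
    (p : ι × Sec g) : pb g w ⬝ᵥ LXc g x s p = w ⬝ᵥ x p.1 := by
  rw [pb_dot, bs_LXc hg]

lemma dv_dot_LXc (hg : Surjective g) (k : Fin n) (x : ι → E 3) (s : ι → Fin 3 → ℝ)
    (p : ι × Sec g) : dv g k ⬝ᵥ LXc g x s p =
      s p.1 (g k) * ((if (p.2 (g k) : Fin n) = k then bN g (g k) else 0) - 1) := by
  have hN := (bN_pos hg (g k)).ne'
  simp only [LXc, dotProduct_add, dv_dot_up, zero_add, dotProduct_sum, dotProduct_smul,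
    smul_eq_mul, dv_dot_dv]
  rw [Finset.sum_eq_single (g k)]
  · rw [(p.2 (g k)).2, if_pos rfl]
    by_cases h : k = p.2 (g k)
    · rw [if_pos h, if_pos h.symm]; field_simp
    · rw [if_neg h, if_neg (Ne.symm h)]; field_simp; ring
  · intro j _ hj
    have h1 : g k ≠ g (p.2 j) := by rw [(p.2 j).2]; exact hj.symm
    rw [if_neg h1, if_neg fun e => h1 (congrArg g e)]
    simp
  · simp

lemma LY_inl_dot (y : κ → E 3) (m : Fin 3 → κ) (ρ : Fin 3 → ℝ) (j : κ) (u : E n) :
    LY g y m ρ (Sum.inl j) ⬝ᵥ u = y j ⬝ᵥ bs g u := pb_dot _ _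

lemma LY_inr_dot (y : κ → E 3) (m : Fin 3 → κ) (ρ : Fin 3 → ℝ) (k : Fin n) (u : E n) :
    LY g y m ρ (Sum.inr k) ⬝ᵥ u =
      y (m (g k)) ⬝ᵥ bs g u - (ρ (g k))⁻¹ * (u k - bs g u (g k) / bN g (g k)) := by
  simp [LY, sub_dotProduct, pb_dot, dv_dot]

lemma LY_inl_dot_LX (hg : Surjective g) (x : ι → E 3) (y : κ → E 3) (m : Fin 3 → κ)
    (ρ : Fin 3 → ℝ) (j : κ) (p : ι × Sec g) :
    LY g y m ρ (Sum.inl j) ⬝ᵥ LX g x y m ρ p = y j ⬝ᵥ x p.1 := pb_dot_LXc hg _ _ _ _

lemma LY_inr_dot_LX (hg : Surjective g) (x : ι → E 3) (y : κ → E 3) (m : Fin 3 → κ)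
    {ρ : Fin 3 → ℝ} (hρ : ∀ j, 0 < ρ j) (k : Fin n) (p : ι × Sec g) :
    LY g y m ρ (Sum.inr k) ⬝ᵥ LX g x y m ρ p =
      1 - (1 - y (m (g k)) ⬝ᵥ x p.1) * if (p.2 (g k) : Fin n) = k then bN g (g k) else 0 := by
  have := (hρ (g k)).ne'
  simp only [LY, LX, Sum.elim_inr, sub_dotProduct, smul_dotProduct, smul_eq_mul, pb_dot_LXc hg,
    dv_dot_LXc hg]
  field_simp
  ring

/-- nearness to a simplex cannot be intermediate for bodies of small volume product -/
def Moat (n : ℕ) (ε ε' : ℝ) (μ : ℝ≥0∞) : Prop :=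
  ∀ K : Set (E n), Convex ℝ K → IsCompact K → (interior K).Nonempty →
    PL.mstarInf K < μ → EF.Near ε' K → EF.Near ε K

/-- a two-sided admissible flow in the direction `θ` that gains an incidence at both ends -/
def Flow {d : ℕ} (x : ι → E d) (y : κ → E d) (θ : E d) : Prop :=
  ∃ (a : ι → ℝ) (w : κ → E d) (γ : κ → ℝ) (δ τ : ℝ), Adm x y θ a w γ ∧ ¬ TrivSpeed x a ∧
    0 < δ ∧ 0 < τ ∧ (∀ t ∈ Icc (-δ) τ, t ∈ goodT x y θ a w γ) ∧
    ∀ T, T = τ ∨ T = -δ → ∃ i j, y j ⬝ᵥ x i ≠ 1 ∧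
      (y j - T • w j) ⬝ᵥ shadowPts x a θ T i = 1 + T * γ j

end Pool.Agent.MP_5f4cdd_gt.W

end

section

set_option autoImplicit false
open MeasureTheory ENNReal Set Function Filter Topology Pointwise

namespace Pool.Agent.MP_5f4cdd_gt.W

open PL EF AB

variable {n : ℕ} {ι κ : Type} {g : Fin n → Fin 3}

lemma wsym_bs_comp {σ : Equiv.Perm (Fin n)} (hσ : g ∘ σ = g) (u : E n) :
    bs g (u ∘ σ) = bs g u := by
  ext j
  rw [bs_apply, bs_apply]
  refine Finset.sum_equiv σ (fun i => ?_) fun i _ => rfl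
  simp only [Finset.mem_filter, Finset.mem_univ, true_and]
  rw [show g (σ i) = g i from congrFun hσ i]

lemma wsym_symm {σ : Equiv.Perm (Fin n)} (hσ : g ∘ σ = g) : g ∘ σ.symm = g := by
  ext i
  have := congrFun hσ (σ.symm i)
  simp only [comp_apply, Equiv.apply_symm_apply] at this ⊢
  rw [this]

lemma wsym_pb_comp {σ : Equiv.Perm (Fin n)} (hσ : g ∘ σ = g) (w : E 3) :
    pb g w ∘ σ = pb g w := by
  ext i
  simp only [comp_apply, pb_apply]
  rw [show g (σ i) = g i from congrFun hσ i]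

lemma wsym_dv_comp {σ : Equiv.Perm (Fin n)} (hσ : g ∘ σ = g) (k : Fin n) :
    dv g k ∘ σ = dv g (σ.symm k) := by
  ext i
  simp only [comp_apply, dv]
  rw [show g (σ i) = g i from congrFun hσ i,
    show g (σ.symm k) = g k from congrFun (wsym_symm hσ) k]
  simp only [Equiv.eq_symm_apply]

lemma wsym_const (hg : Surjective g) {v : E n} (h : ∀ k k', g k = g k' → v k = v k') :
    up g (bs g v) = v := by
  ext k
  rw [up_apply, bs_apply, Finset.sum_congr rfl (g := fun _ => v k) fun i hi =>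
    h i k (Finset.mem_filter.1 hi).2, Finset.sum_const, nsmul_eq_mul]
  exact mul_div_cancel_left₀ _ (bN_pos hg _).ne'

theorem convex_sublevel {K : Set (E n)} (hb : Bornology.IsBounded K) (hn : K.Nonempty)
    (v : ℝ≥0∞) : Convex ℝ {c : E n | mahlerInf ((fun z => z - c) '' K) ≤ v} := by
  intro c1 h1 c2 h2 a b ha hb' hab
  simp only [mem_ofPred_eq, PL.mahlerInf_eq, volume_sub, expS_image_sub hb hn] at h1 h2 ⊢
  have hm : ∀ c : E n, Measurable fun y => expS K y * ENNReal.ofReal (Real.exp (c ⬝ᵥ y)) :=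
    fun c => (measurable_expS hb).mul (ENNReal.measurable_ofReal.comp
      (Real.continuous_exp.comp (continuous_const.dotProduct continuous_id)).measurable)
  have key : ∫⁻ y, expS K y * ENNReal.ofReal (Real.exp ((a • c1 + b • c2) ⬝ᵥ y)) ≤
      ENNReal.ofReal a * (∫⁻ y, expS K y * ENNReal.ofReal (Real.exp (c1 ⬝ᵥ y))) +
        ENNReal.ofReal b * ∫⁻ y, expS K y * ENNReal.ofReal (Real.exp (c2 ⬝ᵥ y)) := by
    rw [← lintegral_const_mul _ (hm c1), ← lintegral_const_mul _ (hm c2),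
      ← lintegral_add_left ((hm c1).const_mul _)]
    refine lintegral_mono fun y => ?_
    have h := convexOn_exp.2 (mem_univ (c1 ⬝ᵥ y)) (mem_univ (c2 ⬝ᵥ y)) ha hb' hab
    simp only [smul_eq_mul] at h
    rw [mul_left_comm, mul_left_comm (ENNReal.ofReal b), ← mul_add, ← ENNReal.ofReal_mul ha,
      ← ENNReal.ofReal_mul hb', ← ENNReal.ofReal_add (by positivity) (by positivity),
      add_dotProduct, smul_dotProduct, smul_dotProduct, smul_eq_mul, smul_eq_mul]
    exact mul_le_mul_right (ENNReal.ofReal_le_ofReal h) _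
  refine (mul_le_mul_right key _).trans ?_
  rw [mul_add, mul_left_comm, mul_left_comm _ (ENNReal.ofReal b)]
  refine (add_le_add (mul_le_mul_right h1 _) (mul_le_mul_right h2 _)).trans_eq ?_
  rw [← add_mul, ← ENNReal.ofReal_add ha hb', hab, ENNReal.ofReal_one, one_mul]

theorem mahlerInf_avg_le (hg : Surjective g) {K : Set (E n)} (hb : Bornology.IsBounded K)
    (hn : K.Nonempty) (hσ : ∀ σ : Equiv.Perm (Fin n), g ∘ σ = g → ∀ u ∈ K, u ∘ σ ∈ K) (c : E n) :
    mahlerInf ((fun z => z - up g (bs g c)) '' K) ≤ mahlerInf ((fun z => z - c) '' K) := by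
  classical
  have h1 : ∀ σ : Equiv.Perm (Fin n), g ∘ σ = g →
      mahlerInf ((fun z => z - c ∘ σ) '' K) = mahlerInf ((fun z => z - c) '' K) := by
    intro σ h
    let T : E n ≃ₗ[ℝ] E n := LinearEquiv.funCongrLeft ℝ ℝ σ
    rw [← mahlerInf_image_lin (T : E n →ₗ[ℝ] E n) T.isUnit_det'.ne_zero ((fun z => z - c) '' K)]
    congr 1
    ext w
    constructor
    · rintro ⟨u, hu, rfl⟩
      refine ⟨u ∘ σ.symm - c, ⟨u ∘ σ.symm, hσ _ (wsym_symm h) u hu, rfl⟩, ?_⟩
      ext i
      simp [T]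
    · rintro ⟨_, ⟨u, hu, rfl⟩, rfl⟩
      exact ⟨u ∘ σ, hσ σ h u hu, rfl⟩
  set G := Finset.univ.filter fun σ : Equiv.Perm (Fin n) => g ∘ σ = g with hG
  have hGm : ∀ σ, σ ∈ G ↔ g ∘ σ = g := fun σ => by simp [hG]
  have hc : (G.card : ℝ) ≠ 0 :=
    Nat.cast_ne_zero.2 (Finset.card_pos.2 ⟨1, (hGm 1).2 rfl⟩).ne'
  have h2 := (convex_sublevel hb hn (mahlerInf ((fun z => z - c) '' K))).sum_mem (t := G)
    (w := fun _ => (G.card : ℝ)⁻¹) (z := fun σ => c ∘ σ) (fun _ _ => by positivity)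
    (by rw [Finset.sum_const, nsmul_eq_mul, mul_inv_cancel₀ hc])
    (fun σ h => (h1 σ ((hGm σ).1 h)).le)
  have h3 : bs g (∑ σ ∈ G, (G.card : ℝ)⁻¹ • c ∘ σ) = bs g c := by
    rw [map_sum, Finset.sum_congr rfl (g := fun _ => (G.card : ℝ)⁻¹ • bs g c) fun σ h => by
      rw [map_smul, wsym_bs_comp ((hGm σ).1 h)]]
    rw [Finset.sum_const, ← Nat.cast_smul_eq_nsmul ℝ, smul_smul, mul_inv_cancel₀ hc, one_smul]
  have h4 := wsym_const hg (v := ∑ σ ∈ G, (G.card : ℝ)⁻¹ • c ∘ σ) fun k k' hk => by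
    have hs : g ∘ Equiv.swap k k' = g := by
      ext i
      simp only [comp_apply, Equiv.swap_apply_def]
      split_ifs with e1 e2
      · rw [e1, hk]
      · rw [e2, hk]
      · rfl
    simp only [Finset.sum_apply, Pi.smul_apply, comp_apply]
    refine Finset.sum_equiv (Equiv.mulRight (Equiv.swap k k')) (fun σ => ?_) fun σ _ => by simp
    rw [hGm, hGm, Equiv.coe_mulRight, Equiv.Perm.coe_mul, ← comp_assoc]
    refine ⟨fun h => by rw [h, hs], fun h => ?_⟩
    funext i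
    have h' := (congrFun h (Equiv.swap k k' i)).trans (congrFun hs i)
    simpa using h'
  rw [h3] at h4
  rw [h4]
  exact h2

lemma wsym_centre {τ : Type} [Finite τ] (hg : Surjective g) (L : τ → E n)
    (hL : ∀ σ : Equiv.Perm (Fin n), g ∘ σ = g → ∀ t, ∃ t', L t' = L t ∘ σ) {μ : ℝ≥0∞}
    (hi : (interior (convexHull ℝ (range L))).Nonempty)
    (hM : mstarInf (convexHull ℝ (range L)) < μ) :
    ∃ z : E 3, up g z ∈ interior (convexHull ℝ (range L)) ∧
      mahlerInf ((fun u => u - up g z) '' convexHull ℝ (range L)) < μ := by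
  obtain ⟨c, hc⟩ := iInf_lt_iff.1 hM
  have hb : Bornology.IsBounded (convexHull ℝ (range L)) :=
    isBounded_convexHull.2 (finite_range L).isBounded
  have h := (mahlerInf_avg_le hg hb (hi.mono interior_subset) (fun σ hσ u hu => by
    refine convexHull_min (t := (LinearMap.funLeft ℝ ℝ σ) ⁻¹' convexHull ℝ (range L)) ?_
      ((convex_convexHull ℝ _).linear_preimage _) hu
    rintro _ ⟨t, rfl⟩
    exact subset_convexHull ℝ _ (hL σ hσ t)) c).trans_lt hc
  exact ⟨bs g c, mem_interior_of_ne_top (convex_convexHull ℝ _) hb hi h.ne_top, h⟩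

lemma wsym_int {τ : Type} (L : τ → E n) (x : ι → E 3) (A : E 3 →ₗ[ℝ] E n) (B : E n →ₗ[ℝ] E 3)
    (hAB : ∀ c, B (A c) = c) (hB : ∀ t, ∃ i, x i = B (L t)) {c : E 3}
    (hc : A c ∈ interior (convexHull ℝ (range L))) : c ∈ interior (convexHull ℝ (range x)) := by
  have h1 : convexHull ℝ (range L) ⊆ B ⁻¹' convexHull ℝ (range x) := by
    refine convexHull_min ?_ ((convex_convexHull ℝ _).linear_preimage _)
    rintro _ ⟨t, rfl⟩
    exact subset_convexHull ℝ _ (hB t)
  rw [mem_interior_iff_mem_nhds] at hc ⊢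
  refine mem_of_superset (A.continuous_of_finiteDimensional.continuousAt.preimage_mem_nhds hc)
    fun z hz => ?_
  have := h1 hz
  rwa [mem_preimage, hAB] at this

theorem centre_LXc [Finite ι] (hg : Surjective g) (x : ι → E 3) (s : ι → Fin 3 → ℝ) {μ : ℝ≥0∞}
    (hi : (interior (convexHull ℝ (range (LXc g x s)))).Nonempty)
    (hM : mstarInf (convexHull ℝ (range (LXc g x s))) < μ) :
    ∃ c ∈ interior (convexHull ℝ (range x)),
      mahlerInf ((fun z => z - up g c) '' convexHull ℝ (range (LXc g x s))) < μ := by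
  obtain ⟨z, h1, h2⟩ := wsym_centre hg _ (fun σ hσ t => by
    refine ⟨(t.1, fun j => ⟨σ.symm (t.2 j), (congrFun (wsym_symm hσ) _).trans (t.2 j).2⟩), ?_⟩
    ext i
    simp only [LXc, comp_apply, Pi.add_apply, Finset.sum_apply, Pi.smul_apply,
      ← wsym_dv_comp hσ, up_eq_pb]
    rw [← wsym_pb_comp hσ, comp_apply, wsym_pb_comp hσ]) hi hM
  exact ⟨z, wsym_int _ x (up g) (bs g) (bs_up hg) (fun t => ⟨t.1, (bs_LXc hg x s t).symm⟩) h1, h2⟩

theorem centre_LY [Finite κ] (hg : Surjective g) (y : κ → E 3) (m : Fin 3 → κ) (ρ : Fin 3 → ℝ)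
    {μ : ℝ≥0∞} (hi : (interior (convexHull ℝ (range (LY g y m ρ)))).Nonempty)
    (hM : mstarInf (convexHull ℝ (range (LY g y m ρ))) < μ) :
    ∃ c ∈ interior (convexHull ℝ (range y)),
      mahlerInf ((fun z => z - pb g c) '' convexHull ℝ (range (LY g y m ρ))) < μ := by
  obtain ⟨z, h1, h2⟩ := wsym_centre hg _ (fun σ hσ t => by
    rcases t with j | k
    · exact ⟨.inl j, (wsym_pb_comp hσ _).symm⟩
    · refine ⟨.inr (σ.symm k), ?_⟩
      ext i
      simp only [LY, Sum.elim_inr, comp_apply, Pi.sub_apply, Pi.smul_apply,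
        ← wsym_dv_comp hσ, show g (σ.symm k) = g k from congrFun (wsym_symm hσ) k]
      rw [← wsym_pb_comp hσ, comp_apply, wsym_pb_comp hσ]) hi hM
  let B : E n →ₗ[ℝ] E 3 :=
    { toFun := fun V j => bs g V j / bN g j
      map_add' := fun u v => by ext j; simp [add_div]
      map_smul' := fun c u => by ext j; simp [mul_div_assoc] }
  have hB : ∀ c, B (pb g c) = c := fun c => by
    ext j
    change bs g (pb g c) j / bN g j = c j
    rw [bs_pb, mul_div_cancel_left₀ _ (bN_pos hg j).ne']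
  have hd : ∀ k, B (dv g k) = 0 := fun k => by
    ext j
    change bs g (dv g k) j / bN g j = 0
    rw [bs_dv, Pi.zero_apply, zero_div]
  refine ⟨fun j => z j / bN g j, wsym_int _ y (pb g) B hB (fun t => ?_) h1, h2⟩
  rcases t with j | k
  · exact ⟨j, (hB _).symm⟩
  · exact ⟨m (g k), by simp [LY, hB, hd]⟩

end Pool.Agent.MP_5f4cdd_gt.W

end

section

set_option autoImplicit false
open MeasureTheory ENNReal Set Function Filter Topology Pointwise

namespace Pool.Agent.MP_5f4cdd_gt.W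

open PL EF AB

variable {d : ℕ} {ι κ : Type} {x : ι → E d} {y : κ → E d} {θ : E d} {a : ι → ℝ} {w : κ → E d}
  {γ : κ → ℝ}

theorem wflow_both [Fintype ι] [Finite κ] (h : Adm x y θ a w γ)
    (ha : ¬ TrivSpeed x a) (hneg : ∃ i j, γ j + w j ⬝ᵥ x i - a i * (y j ⬝ᵥ θ) < 0)
    (hpos : ∃ i j, 0 < γ j + w j ⬝ᵥ x i - a i * (y j ⬝ᵥ θ)) : Flow x y θ := by
  classical
  set σ : ι × κ → ℝ := fun p => γ p.2 + w p.2 ⬝ᵥ x p.1 - a p.1 * (y p.2 ⬝ᵥ θ) with hσ
  set s : ι × κ → ℝ := fun p => 1 - y p.2 ⬝ᵥ x p.1 with hs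
  have hs0 : ∀ p, 0 ≤ s p := fun p => sub_nonneg.mpr (h.dot_le p.1 p.2)
  have hsσ : ∀ p, s p = 0 → σ p = 0 := fun p hp => by
    have := h.hinc p.1 p.2 (by simp only [hs] at hp; linarith)
    simp only [hσ]; linarith
  have hspos : ∀ p, σ p ≠ 0 → 0 < s p := fun p hp =>
    lt_of_le_of_ne (hs0 p) fun h0 => hp (hsσ p h0.symm)
  obtain ⟨p0, hp0, hmin⟩ := Set.exists_min_image {p | σ p < 0} (fun p => s p / -σ p)
    (toFinite _) (by obtain ⟨i, j, hij⟩ := hneg; exact ⟨(i, j), hij⟩)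
  obtain ⟨p1, hp1, hmin1⟩ := Set.exists_min_image {p | 0 < σ p} (fun p => s p / σ p)
    (toFinite _) (by obtain ⟨i, j, hij⟩ := hpos; exact ⟨(i, j), hij⟩)
  have hp0' : σ p0 < 0 := hp0
  have hp1' : 0 < σ p1 := hp1
  set τ := s p0 / -σ p0 with hτ
  set δ := s p1 / σ p1 with hδdef
  have hτpos : 0 < τ := div_pos (hspos _ hp0'.ne) (by linarith)
  have hδ : 0 < δ := div_pos (hspos _ hp1'.ne') hp1'
  have hslack : ∀ t ∈ Icc (-δ) τ, ∀ p, 0 ≤ s p + t * σ p := by
    intro t ht p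
    rcases lt_trichotomy (σ p) 0 with hlt | heq | hgt
    · have e1 : τ ≤ s p / -σ p := hmin p hlt
      rw [le_div_iff₀ (by linarith)] at e1
      nlinarith [ht.2]
    · rw [heq]; simpa using hs0 p
    · have e1 : δ ≤ s p / σ p := hmin1 p hgt
      rw [le_div_iff₀ hgt] at e1
      nlinarith [ht.1]
  have hgood : ∀ t ∈ Icc (-δ) τ, t ∈ goodT x y θ a w γ := by
    intro t ht i j
    have e1 := h.slack t i j
    have e2 := hslack t ht (i, j)
    simp only [hs, hσ] at e2
    linarith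
  refine ⟨a, w, γ, δ, τ, h, ha, hδ, hτpos, hgood, fun t htτ => ?_⟩
  obtain ⟨q, hq1, hq2⟩ : ∃ q, s q + t * σ q = 0 ∧ σ q ≠ 0 := by
    rcases htτ with e | e
    · refine ⟨p0, ?_, hp0'.ne⟩
      rw [e, hτ]
      have := hp0'.ne
      field_simp
      ring
    · refine ⟨p1, ?_, hp1'.ne'⟩
      rw [e, hδdef]
      have := hp1'.ne'
      field_simp
      ring
  have e1 := h.slack t q.1 q.2
  have e3 := hspos q hq2
  simp only [hs, hσ] at e3 hq1
  exact ⟨q.1, q.2, by linarith, by linarith⟩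

theorem wflow_adm [Finite ι] [Finite κ] [Nonempty κ] (h : Adm x y θ a w γ)
    (ha : ¬ TrivSpeed x a) : Flow x y θ := by
  classical
  have := Fintype.ofFinite ι
  obtain ⟨v, hv⟩ : ∃ v : E d, v ⬝ᵥ θ = 1 := by
    have h3 : θ ⬝ᵥ θ ≠ 0 := fun h0 => h.hθ (dotProduct_self_eq_zero.mp h0)
    exact ⟨(θ ⬝ᵥ θ)⁻¹ • θ, by rw [smul_dotProduct, smul_eq_mul, inv_mul_cancel₀ h3]⟩
  set σ : ι × κ → ℝ := fun p => γ p.2 + w p.2 ⬝ᵥ x p.1 - a p.1 * (y p.2 ⬝ᵥ θ) with hσ
  set s : ι × κ → ℝ := fun p => 1 - y p.2 ⬝ᵥ x p.1 with hs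
  have hs0 : ∀ p, 0 ≤ s p := fun p => sub_nonneg.mpr (h.dot_le p.1 p.2)
  have hsσ : ∀ p, s p = 0 → σ p = 0 := fun p hp => by
    have := h.hinc p.1 p.2 (by simp only [hs] at hp; linarith)
    simp only [hσ]; linarith
  have hnt : ∀ c : ℝ, ¬ TrivSpeed x (fun i => a i + c * (v ⬝ᵥ x i)) := by
    rintro c ⟨u, d, hu⟩
    refine ha ⟨u - c • v, d, fun i => ?_⟩
    have := hu i
    simp only [sub_dotProduct, smul_dotProduct, smul_eq_mul] at this ⊢
    linarith
  have hslope : ∀ (c : ℝ) (i : ι) (j : κ),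
      (γ j + if y j ⬝ᵥ θ = 0 then 0 else c) +
        (w j + if y j ⬝ᵥ θ = 0 then 0 else c • ((y j ⬝ᵥ θ) • v - y j)) ⬝ᵥ x i -
        (a i + c * (v ⬝ᵥ x i)) * (y j ⬝ᵥ θ) =
      if y j ⬝ᵥ θ = 0 then 0 else σ (i, j) + c * s (i, j) := by
    intro c i j
    split_ifs with hj
    · simp [hj, (h.hpar j hj).1, (h.hpar j hj).2]
    · simp only [hσ, hs, add_dotProduct, smul_dotProduct, sub_dotProduct, smul_eq_mul]
      ring
  have hex : ∀ c : ℝ, ∃ p : ι × κ, y p.2 ⬝ᵥ θ ≠ 0 ∧ 0 < s p ∧ σ p / s p ≠ c := by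
    intro c
    obtain ⟨i, j, hij⟩ := (h.add_dil hv (-c)).exists_slope_ne (hnt _)
    rw [hslope] at hij
    split_ifs at hij with hj
    · exact absurd rfl hij
    · have hsp : 0 < s (i, j) := lt_of_le_of_ne (hs0 _) fun h0 => hij (by
        rw [← h0, hsσ _ h0.symm]; simp)
      refine ⟨(i, j), hj, hsp, fun e => hij ?_⟩
      rw [div_eq_iff hsp.ne'] at e
      linarith
  obtain ⟨p, hp1, hp2, -⟩ := hex 0
  obtain ⟨q, hq1, hq2, hq3⟩ := hex (σ p / s p)
  have key : ∀ p q : ι × κ, y p.2 ⬝ᵥ θ ≠ 0 → 0 < s p → y q.2 ⬝ᵥ θ ≠ 0 → 0 < s q →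
      σ p / s p < σ q / s q → Flow x y θ := by
    intro p q hp1 hp2 hq1 hq2 hlt
    refine wflow_both (h.add_dil hv (-((σ p / s p + σ q / s q) / 2))) (hnt _)
      ⟨p.1, p.2, ?_⟩ ⟨q.1, q.2, ?_⟩
    · rw [hslope, if_neg hp1]
      have e : σ p = σ p / s p * s p := by field_simp
      change σ p + _ * s p < 0
      nlinarith
    · rw [hslope, if_neg hq1]
      have e : σ q = σ q / s q * s q := by field_simp
      change 0 < σ q + _ * s q
      nlinarith
  rcases lt_or_gt_of_ne hq3 with hlt | hgt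
  · exact key q p hq1 hq2 hp1 hp2 hlt
  · exact key p q hp1 hp2 hq1 hq2 hgt

theorem wflow_sub [Finite ι] [Finite κ] [Nonempty κ] {b : κ → ℝ}
    (h : convexHull ℝ (range x) = {z | ∀ j, y j ⬝ᵥ z ≤ b j})
    (hyb : ∀ j, y j ≠ 0 ∨ b j ≠ 0) {c : E d} (hc : c ∈ interior (convexHull ℝ (range x))) :
    (∀ j, 0 < b j - y j ⬝ᵥ c) ∧
      DualPair (fun i => x i - c) (fun j => (b j - y j ⬝ᵥ c)⁻¹ • y j) := by
  have hlt : ∀ j, 0 < b j - y j ⬝ᵥ c := fun j => sub_pos.mpr <|
    lt_of_mem_interior (fun z hz => by rw [h] at hz; exact hz j) hc (hyb j)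
  refine ⟨hlt, dualPair_of_eq ?_⟩
  rw [hull_sub, h]
  ext z
  simp only [mem_image, mem_ofPred_eq, smul_dotProduct, smul_eq_mul]
  constructor
  · rintro ⟨z, hz, rfl⟩ j
    rw [inv_mul_le_iff₀ (hlt j), dotProduct_sub]
    linarith [hz j]
  · intro hz
    refine ⟨z + c, fun j => ?_, by simp⟩
    have := hz j
    rw [inv_mul_le_iff₀ (hlt j)] at this
    rw [dotProduct_add]; linarith

theorem wflow_inc {u v c : E d} {b : ℝ} (h : 0 < b - v ⬝ᵥ c) :
    (u - c) ⬝ᵥ (b - v ⬝ᵥ c)⁻¹ • v = 1 ↔ v ⬝ᵥ u = b := by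
  rw [dotProduct_smul, smul_eq_mul, inv_mul_eq_iff_eq_mul₀ h.ne', dotProduct_comm,
    dotProduct_sub]
  constructor <;> intro h <;> linarith

theorem flow_of_admissible [Finite ι] [Finite κ] (h : DualPair x y) (hθ : θ ≠ 0)
    (hadm : ∀ j, y j ⬝ᵥ θ ≠ 0 → ∃ u : E d, ∀ i, y j ⬝ᵥ x i = 1 → a i = u ⬝ᵥ x i)
    (ha : ¬ TrivSpeed x a) : Flow x y θ := by
  classical
  have := h.symm.nonempty_left
  choose! u hu using hadm
  refine wflow_adm (θ := θ) (a := a)
    (w := fun j => if y j ⬝ᵥ θ = 0 then 0 else (y j ⬝ᵥ θ) • u j - (u j ⬝ᵥ θ) • y j)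
    (γ := fun j => if y j ⬝ᵥ θ = 0 then 0 else u j ⬝ᵥ θ) ⟨h.1, hθ, ?_, ?_, ?_⟩ ha
  · intro j
    split_ifs with hj
    · simp
    · simp only [sub_dotProduct, smul_dotProduct, smul_eq_mul]; ring
  · intro i j hij
    split_ifs with hj
    · simp [hj]
    · simp only [sub_dotProduct, smul_dotProduct, smul_eq_mul, hij, hu j hj i hij]; ring
  · intro j hj
    simp [hj]

theorem vol_affine [Finite ι] [Finite κ] (h : Adm x y θ a w γ) {δ τ : ℝ} (hδ : 0 < δ)
    (hτ : 0 < τ) (hgood : ∀ t ∈ Icc (-δ) τ, t ∈ goodT x y θ a w γ) :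
    ∃ α β : ℝ, ∀ t ∈ Icc (-δ) τ,
      (volume (convexHull ℝ (range (shadowPts x a θ t)))).toReal = α + β * t := by
  have := Fintype.ofFinite ι
  have hsum : 0 < τ + δ := by linarith
  set V0 := (volume (movA x a θ (-δ))).toReal
  set V1 := (volume (movA x a θ τ)).toReal
  refine ⟨V0 + δ * ((V1 - V0) / (τ + δ)), (V1 - V0) / (τ + δ), fun t ht => ?_⟩
  have hp : 0 ≤ (τ - t) / (τ + δ) := div_nonneg (by linarith [ht.2]) hsum.le
  have hq : 0 ≤ (t + δ) / (τ + δ) := div_nonneg (by linarith [ht.1]) hsum.le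
  have := h.volume_affine (hgood _ ⟨le_rfl, by linarith⟩) (hgood _ ⟨by linarith, le_rfl⟩)
    (hgood t ht) hp hq (by field_simp; ring) (by field_simp; ring)
  change (volume (movA x a θ t)).toReal = _
  have f0 : volume (movA x a θ (-δ)) ≠ ⊤ := (isCompact_hull _).measure_lt_top.ne
  have f1 : volume (movA x a θ τ) ≠ ⊤ := (isCompact_hull _).measure_lt_top.ne
  rw [this, ENNReal.toReal_add (ENNReal.mul_ne_top ENNReal.ofReal_ne_top f0)
    (ENNReal.mul_ne_top ENNReal.ofReal_ne_top f1), ENNReal.toReal_mul, ENNReal.toReal_mul,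
    ENNReal.toReal_ofReal hp, ENNReal.toReal_ofReal hq]
  change _ * V0 + _ * V1 = _
  field_simp
  ring

theorem recentre [Finite ι] [Finite κ] [Nonempty κ] (h : Adm x y θ a w γ) {δ τ : ℝ} (hδ : 0 < δ)
    (hτ : 0 < τ) (hgood : ∀ t ∈ Icc (-δ) τ, t ∈ goodT x y θ a w γ) {t : ℝ} (ht : t ∈ Icc (-δ) τ)
    {c : E d} (hc : c ∈ interior (convexHull ℝ (range (shadowPts x a θ t)))) :
    (∀ j, 0 < 1 + t * γ j - (y j - t • w j) ⬝ᵥ c) ∧
    DualPair (fun i => shadowPts x a θ t i - c)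
      (fun j => (1 + t * γ j - (y j - t • w j) ⬝ᵥ c)⁻¹ • (y j - t • w j)) := by
  have := Fintype.ofFinite ι
  have hsum : 0 < τ + δ := by linarith
  have hopp : ∃ r : ℝ, 0 < r ∧ -(r * t) ∈ goodT x y θ a w γ := by
    have hm : 0 < min δ τ := lt_min hδ hτ
    refine ⟨min δ τ / (τ + δ), div_pos hm hsum, hgood _ ⟨?_, ?_⟩⟩
    · rw [neg_le_neg_iff, div_mul_eq_mul_div, div_le_iff₀ hsum]
      nlinarith [min_le_left δ τ, ht.2]
    · rw [neg_le, div_mul_eq_mul_div, le_div_iff₀ hsum]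
      nlinarith [min_le_right δ τ, ht.1]
  have hAB := h.movA_eq_movB (hgood t ht) hopp ⟨c, hc⟩
  exact wflow_sub (x := shadowPts x a θ t) (y := fun j => y j - t • w j)
    (b := fun j => 1 + t * γ j) hAB (h.nondeg t) hc

theorem nInc_lt [Finite ι] [Finite κ] (h : Adm x y θ a w γ) {T : ℝ} {c : E d}
    (hpos : ∀ j, 0 < 1 + T * γ j - (y j - T • w j) ⬝ᵥ c)
    (hnew : ∃ i j, y j ⬝ᵥ x i ≠ 1 ∧ (y j - T • w j) ⬝ᵥ shadowPts x a θ T i = 1 + T * γ j) :
    nInc x y < nInc (fun i => shadowPts x a θ T i - c)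
      (fun j => (1 + T * γ j - (y j - T • w j) ⬝ᵥ c)⁻¹ • (y j - T • w j)) := by
  unfold nInc
  refine Set.ncard_lt_ncard ⟨fun p hp => ?_, fun hsub => ?_⟩
  · rw [mem_ofPred_eq, wflow_inc (hpos p.2)]
    rw [mem_ofPred_eq, dotProduct_comm] at hp
    have e1 := h.slack T p.1 p.2
    have e2 := h.hinc p.1 p.2 hp
    rw [hp, e2] at e1
    linarith
  · obtain ⟨i, j, h1, h2⟩ := hnew
    have e2 := @hsub (i, j) ((wflow_inc (hpos j)).2 h2)
    rw [mem_ofPred_eq, dotProduct_comm] at e2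
    exact h1 e2

theorem recentre0 [Finite ι] [Finite κ] (h : DualPair x y) {c : E d}
    (hc : c ∈ interior (convexHull ℝ (range x))) :
    (∀ j, 0 < 1 - y j ⬝ᵥ c) ∧
    DualPair (fun i => x i - c) (fun j => (1 - y j ⬝ᵥ c)⁻¹ • y j) ∧
    nInc x y = nInc (fun i => x i - c) (fun j => (1 - y j ⬝ᵥ c)⁻¹ • y j) := by
  have := h.symm.nonempty_left
  obtain ⟨h1, h2⟩ := wflow_sub (b := fun _ => 1) h.1 (fun j => Or.inr one_ne_zero) hc
  refine ⟨h1, h2, ?_⟩
  unfold nInc
  congr 1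
  ext p
  rw [mem_ofPred_eq, mem_ofPred_eq, wflow_inc (h1 p.2), dotProduct_comm]

end Pool.Agent.MP_5f4cdd_gt.W

end

section

set_option autoImplicit false
open MeasureTheory ENNReal Set Function Filter Topology Pointwise

namespace Pool.Agent.MP_5f4cdd_gt.W

open PL EF AB

variable {ι κ : Type} {x : ι → E 3} {y : κ → E 3}

/-- speeds that are linear on every facet are affine -/
def wtri_Rig (x : ι → E 3) (y : κ → E 3) : Prop :=
  ∀ a : ι → ℝ, (∀ j, ∃ u : E 3, ∀ i, y j ⬝ᵥ x i = 1 → a i = u ⬝ᵥ x i) → TrivSpeed x a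

theorem wtri_of_comp {ι' κ' : Type} {f : ι' → ι} {g : κ' → κ} (hf : Surjective f)
    (h : wtri_Rig (x ∘ f) (y ∘ g)) : wtri_Rig x y := by
  intro a hadm
  obtain ⟨u, c, hu⟩ := h (a ∘ f) fun j => by
    obtain ⟨u, hu⟩ := hadm (g j)
    exact ⟨u, fun i hi => hu (f i) hi⟩
  refine ⟨u, c, fun i => ?_⟩
  obtain ⟨k, rfl⟩ := hf i
  exact hu k

theorem wtri_extreme [Finite κ] (h : DualPair x y) (hr : Rigid y x) (j : κ) :
    y j ∈ (convexHull ℝ (range y)).extremePoints ℝ := by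
  classical
  by_contra hj
  have hj' := hj
  rw [mem_extremePoints_iff_left] at hj'
  push Not at hj'
  obtain ⟨w₁, h₁, w₂, h₂, ⟨s, t, hs, ht, hst, he⟩, hne⟩ :=
    hj' (subset_convexHull ℝ _ (mem_range_self j))
  have hη : w₁ - w₂ ≠ 0 := by
    intro h0
    apply hne
    rw [← he, ← sub_eq_zero.1 h0, ← add_smul, hst, one_smul]
  rw [h.2] at h₁ h₂
  have horth : ∀ i, x i ⬝ᵥ y j = 1 → x i ⬝ᵥ (w₁ - w₂) = 0 := by
    intro i hi
    have e1 : x i ⬝ᵥ w₁ ≤ 1 := h₁ i
    have e2 : x i ⬝ᵥ w₂ ≤ 1 := h₂ i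
    rw [← he, dotProduct_add, dotProduct_smul, dotProduct_smul, smul_eq_mul, smul_eq_mul] at hi
    have e3 : x i ⬝ᵥ w₁ = 1 := by nlinarith
    have e4 : x i ⬝ᵥ w₂ = 1 := by nlinarith
    rw [dotProduct_sub, e3, e4, sub_self]
  obtain ⟨u, c, hu⟩ := hr (w₁ - w₂) (fun j₁ => if j₁ = j then 1 else 0) hη fun i hi =>
    ⟨0, fun j₁ hj₁ => by
      rw [if_neg fun e : j₁ = j => hi (horth i (e ▸ hj₁)), zero_dotProduct]⟩
  obtain ⟨ρ, r1, r2, -⟩ := exists_extreme_repr h.symm.dot_le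
  have e1 : u ⬝ᵥ y j ≤ -c := by
    refine dot_le_of_mem_hull (x := y ∘ ρ) (fun j₁ => ?_)
      (r2 ▸ subset_convexHull ℝ _ (mem_range_self j))
    have e2 := hu (ρ j₁)
    have e3 : ρ j₁ ≠ j := fun e => hj (e ▸ r1 j₁)
    simp only [if_neg e3] at e2
    change u ⬝ᵥ y (ρ j₁) ≤ -c
    linarith
  have e4 := hu j
  simp only [if_true] at e4
  linarith

theorem wtri_orth (v₁ v₂ : E 3) : ∃ θ : E 3, θ ≠ 0 ∧ v₁ ⬝ᵥ θ = 0 ∧ v₂ ⬝ᵥ θ = 0 := by
  have h := LinearMap.ker_ne_bot_of_finrank_lt (f := evalMap (n := 3) ![v₁, v₂]) (by simp)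
  obtain ⟨θ, h1, h2⟩ := Submodule.exists_mem_ne_zero_of_ne_bot h
  rw [LinearMap.mem_ker] at h1
  refine ⟨θ, h2, ?_, ?_⟩
  · rw [dotProduct_comm]; exact congrFun h1 0
  · rw [dotProduct_comm]; exact congrFun h1 1

open Classical in
theorem wtri_count [Fintype ι] [Fintype κ] (h : DualPair x y)
    (hext : ∀ j, y j ∈ (convexHull ℝ (range y)).extremePoints ℝ) (hno : wtri_Rig x y) :
    Fintype.card ι + 3 * Fintype.card κ ≤
      4 + ∑ j, (Finset.univ.filter fun i => y j ⬝ᵥ x i = 1).card := by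
  let Φ : ((ι → ℝ) × (κ → Fin 3 → ℝ)) →ₗ[ℝ] (∀ j : κ, {i // y j ⬝ᵥ x i = 1} → ℝ) :=
    { toFun := fun p j i => p.1 i.1 - p.2 j ⬝ᵥ x i.1
      map_add' := fun p q => by ext j i; simp; ring
      map_smul' := fun c p => by ext j i; simp; ring }
  let Ψ : ((Fin 3 → ℝ) × ℝ) →ₗ[ℝ] (ι → ℝ) :=
    { toFun := fun p i => p.1 ⬝ᵥ x i + p.2
      map_add' := fun p q => by ext i; simp; ring
      map_smul' := fun c p => by ext i; simp; ring }
  have hker : ∀ p ∈ LinearMap.ker Φ, ∀ j i, y j ⬝ᵥ x i = 1 → p.1 i = p.2 j ⬝ᵥ x i := by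
    intro p hp j i h1
    rw [LinearMap.mem_ker] at hp
    exact sub_eq_zero.mp (congrFun (congrFun hp j) ⟨i, h1⟩)
  have hmem : ∀ p : LinearMap.ker Φ,
      ((LinearMap.fst ℝ _ _).comp (LinearMap.ker Φ).subtype) p ∈ LinearMap.range Ψ := by
    intro p
    obtain ⟨u, c, hu⟩ := hno p.1.1 fun j => ⟨p.1.2 j, fun i hi => hker p.1 p.2 j i hi⟩
    exact ⟨(u, c), funext fun i => (hu i).symm⟩
  have hinj : Function.Injective (LinearMap.codRestrict _ _ hmem) := by
    rw [injective_iff_map_eq_zero]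
    intro p hp
    have h1 : p.1.1 = 0 := congrArg Subtype.val hp
    have h2 : p.1.2 = 0 := by
      funext j
      refine eq_zero_of_extreme h (hext j) fun i hi => ?_
      rw [← hker p.1 p.2 j i hi, h1]; rfl
    exact Subtype.ext (Prod.ext h1 h2)
  have e1 := LinearMap.finrank_le_finrank_of_injective hinj
  have e2 : Module.finrank ℝ (LinearMap.range Ψ) ≤ 4 := by
    have := LinearMap.finrank_range_le Ψ
    simpa using this
  have e3 := LinearMap.finrank_range_add_finrank_ker Φ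
  have e4 := Submodule.finrank_le (LinearMap.range Φ)
  rw [Module.finrank_prod, Module.finrank_pi_fintype, Module.finrank_pi_fintype ℝ (ι := κ)] at e3
  rw [Module.finrank_pi_fintype] at e4
  simp only [Module.finrank_fintype_fun_eq_card, Fintype.card_fin, Finset.sum_const,
    Finset.card_univ, smul_eq_mul, Module.finrank_self, mul_one, Fintype.card_subtype] at e3 e4
  omega

open Classical in
theorem wtri_card [Fintype ι] [Fintype κ] (h : DualPair x y)
    (hx : Injective x) (hy : Injective y)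
    (hextx : ∀ i, x i ∈ (convexHull ℝ (range x)).extremePoints ℝ)
    (hexty : ∀ j, y j ∈ (convexHull ℝ (range y)).extremePoints ℝ)
    (hno : wtri_Rig x y) (hno' : Rigid y x) : Fintype.card κ ≤ 4 := by
  obtain ⟨v⟩ := h.nonempty_left
  obtain ⟨G0⟩ := h.symm.nonempty_left
  have hd3 := le_card_inc h.symm (hextx v)
  have : Nontrivial ι := by
    rw [← Fintype.one_lt_card_iff_nontrivial]
    have := (le_card_inc h (hexty G0)).trans (Finset.card_le_univ _)
    omega
  have hE := euler_ineq h hx hy hextx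
  have hC := wtri_count h hexty hno
  have hswap : ∑ i, (Finset.univ.filter fun j => x i ⬝ᵥ y j = 1).card =
      ∑ j, (Finset.univ.filter fun i => y j ⬝ᵥ x i = 1).card := by
    simp only [Finset.card_filter]
    rw [Finset.sum_comm]
    simp only [dotProduct_comm]
  have hm : ∀ v, (Finset.univ.filter fun j => x v ⬝ᵥ y j = 1).card ≤ 3 := fun v => by
    have := count_le h.symm hextx hno' v
    omega
  have hI : ∑ i, (Finset.univ.filter fun j => x i ⬝ᵥ y j = 1).card ≤ ∑ _i : ι, 3 :=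
    Finset.sum_le_sum fun i _ => hm i
  rw [Finset.sum_const, Finset.card_univ, smul_eq_mul] at hI
  have hD := count_le h.symm hextx hno' v
  omega

theorem trichotomy [Finite ι] [Finite κ] (h : DualPair x y)
    (hx : ∀ i, x i ∈ (convexHull ℝ (range x)).extremePoints ℝ) (v₁ v₂ : E 3) :
    (∃ p : Fin 4 → E 3, range p = range y) ∨
      (∃ θ : E 3, v₁ ⬝ᵥ θ = 0 ∧ v₂ ⬝ᵥ θ = 0 ∧ Flow x y θ) ∨ ∃ η : E 3, Flow y x η := by
  by_cases f2 : ∃ η : E 3, Flow y x η
  · exact Or.inr (Or.inr f2)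
  obtain ⟨θ, hθ, h1, h2⟩ := wtri_orth v₁ v₂
  by_cases f1 : Flow x y θ
  · exact Or.inr (Or.inl ⟨θ, h1, h2, f1⟩)
  left
  have r1 : wtri_Rig x y := fun a hadm =>
    by_contra fun ha => f1 (flow_of_admissible h hθ (fun j _ => hadm j) ha)
  have r2 : Rigid y x := fun η b hη hadm =>
    by_contra fun hb => f2 ⟨η, flow_of_admissible h.symm hη hadm hb⟩
  have hy := wtri_extreme h r2
  have := (finite_range x).fintype
  have := (finite_range y).fintype
  have e1 : range (Subtype.val : range x → E 3) = range x := Subtype.range_coe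
  have e2 : range (Subtype.val : range y → E 3) = range y := Subtype.range_coe
  have hd : DualPair (Subtype.val : range x → E 3) (Subtype.val : range y → E 3) :=
    ((h.of_hull_eq (by rw [e1])).symm.of_hull_eq (by rw [e2])).symm
  have hc := wtri_card hd Subtype.val_injective Subtype.val_injective
    (by rintro ⟨_, i, rfl⟩; rw [e1]; exact hx i) (by rintro ⟨_, j, rfl⟩; rw [e2]; exact hy j)
    (wtri_of_comp (f := rangeFactorization x) (g := rangeFactorization y)
      rangeFactorization_surjective r1)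
    (Rigid.of_comp (f := rangeFactorization y) (g := rangeFactorization x)
      rangeFactorization_surjective r2)
  have := hd.symm.nonempty_left
  obtain ⟨f⟩ : Nonempty (range y ↪ Fin 4) :=
    Function.Embedding.nonempty_of_card_le (by simpa using hc)
  have hs : Surjective (invFun f) := invFun_surjective f.injective
  exact ⟨Subtype.val ∘ invFun f, (hs.range_comp _).trans e2⟩

end Pool.Agent.MP_5f4cdd_gt.W

end

section

set_option autoImplicit false
open MeasureTheory ENNReal Set Function Filter Topology Pointwise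

namespace Pool.Agent.MP_5f4cdd_gt.W

open PL EF AB

variable {n : ℕ} {ι κ : Type} {g : Fin n → Fin 3} {x : ι → E 3} {y : κ → E 3}

lemma wlift_one {μ : Fin n → ℝ} (hμ : ∀ j, ∑ a : {k : Fin n // g k = j}, μ a = 1) :
    ∑ φ : Sec g, ∏ j, μ (φ j) = 1 := by
  have h := Finset.prod_univ_sum (fun j : Fin 3 => (Finset.univ : Finset {k : Fin n // g k = j}))
    fun j a => μ a
  rw [Fintype.piFinset_univ] at h
  rw [← h]
  exact Finset.prod_eq_one fun j _ => hμ j

lemma wlift_marg {μ : Fin n → ℝ} (hμ : ∀ j, ∑ a : {k : Fin n // g k = j}, μ a = 1)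
    (F : Fin n → ℝ) (j₀ : Fin 3) :
    ∑ φ : Sec g, (∏ j, μ (φ j)) * F (φ j₀) = ∑ a : {k : Fin n // g k = j₀}, μ a * F a := by
  have h := Finset.prod_univ_sum (fun j : Fin 3 => (Finset.univ : Finset {k : Fin n // g k = j}))
    fun j a => μ a * if j = j₀ then F a else 1
  rw [Fintype.piFinset_univ] at h
  simp only [Finset.prod_mul_distrib, Finset.prod_ite_eq', Finset.mem_univ, if_true] at h
  rw [← h, Finset.prod_eq_single j₀]
  · simp
  · intro j _ hj
    simpa [hj] using hμ j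
  · simp

lemma wlift_sub (f : Fin n → ℝ) (j : Fin 3) :
    ∑ a : {k : Fin n // g k = j}, f a = ∑ k with g k = j, f k :=
  (Finset.sum_subtype _ (by simp) f).symm

lemma wlift_dv {μ : Fin n → ℝ} (hμ : ∀ j, ∑ a : {k : Fin n // g k = j}, μ a = 1) (j : Fin 3)
    (k : Fin n) : ∑ a : {k : Fin n // g k = j}, μ a * dv g a k =
      if g k = j then μ k - 1 / bN g j else 0 := by
  have h1 : ∀ a : {k : Fin n // g k = j}, μ a * dv g a k =
      (if k = a then μ a else 0) - μ a * if g k = j then 1 / bN g j else 0 := by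
    intro a
    simp only [dv, a.2, mul_sub, mul_ite, mul_one, mul_zero]
  rw [Finset.sum_congr rfl fun a _ => h1 a, Finset.sum_sub_distrib, ← Finset.sum_mul, hμ, one_mul,
    wlift_sub (fun a => if k = a then μ a else 0), Finset.sum_ite_eq]
  by_cases h : g k = j <;> simp [h]

lemma wlift_mu (hg : Surjective g) {f : Fin n → ℝ} {r : Fin 3 → ℝ} (hf : ∀ k, 0 ≤ f k)
    (hs : ∀ j, ∑ k with g k = j, f k = bN g j * r j) :
    ∃ μ : Fin n → ℝ, (∀ k, 0 ≤ μ k) ∧ (∀ j, ∑ a : {k : Fin n // g k = j}, μ a = 1) ∧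
      ∀ k, r (g k) * bN g (g k) * μ k = f k := by
  have hr : ∀ j, 0 ≤ r j := fun j =>
    nonneg_of_mul_nonneg_right (hs j ▸ Finset.sum_nonneg fun k _ => hf k) (bN_pos hg j)
  refine ⟨fun k => if r (g k) = 0 then 1 / bN g (g k) else f k / (bN g (g k) * r (g k)),
    fun k => ?_, fun j => ?_, fun k => ?_⟩
  · have := bN_pos hg (g k)
    have := hr (g k)
    have := hf k
    dsimp only
    split_ifs <;> positivity
  · have hN := (bN_pos hg j).ne'
    rw [Finset.sum_congr rfl (g := fun a : {k : Fin n // g k = j} =>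
      if r j = 0 then 1 / bN g j else f a / (bN g j * r j)) fun a _ => by simp only [a.2]]
    by_cases h : r j = 0
    · simp only [h, if_true]
      rw [wlift_sub fun _ => 1 / bN g j, Finset.sum_const, nsmul_eq_mul]
      exact mul_one_div_cancel hN
    · simp only [h, if_false]
      rw [← Finset.sum_div, wlift_sub, hs, div_self (mul_ne_zero hN h)]
  · have hN := (bN_pos hg (g k)).ne'
    dsimp only
    split_ifs with h
    · have h1 := hs (g k)
      rw [h, mul_zero, Finset.sum_eq_zero_iff_of_nonneg fun k _ => hf k] at h1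
      rw [h, h1 k (by simp), zero_mul, zero_mul]
    · field_simp

theorem dualPair_lift [Finite ι] [Finite κ] (hg : Surjective g) (h : DualPair x y)
    (m : Fin 3 → κ) {ρ : Fin 3 → ℝ} (hρ : ∀ j, 0 < ρ j) :
    DualPair (LX g x y m ρ) (LY g y m ρ) := by
  have : Nonempty (κ ⊕ Fin n) := ⟨Sum.inl (m 0)⟩
  have := Fintype.ofFinite ι
  refine dualPair_of_eq (Subset.antisymm (fun Z hZ J => dot_le_of_mem_hull (fun p => ?_) hZ)
    fun Z hZ => ?_)
  · rcases J with j | k
    · rw [LY_inl_dot_LX hg]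
      exact h.dot_le _ _
    · rw [LY_inr_dot_LX hg _ _ _ hρ]
      have h1 := h.dot_le p.1 (m (g k))
      have h2 : 0 ≤ if (p.2 (g k) : Fin n) = k then bN g (g k) else 0 := by
        split_ifs
        exacts [(bN_pos hg _).le, le_rfl]
      have := mul_nonneg (sub_nonneg.2 h1) h2
      linarith
  · have hz : bs g Z ∈ convexHull ℝ (range x) := by
      rw [h.1]
      intro j
      rw [← LY_inl_dot y m ρ]
      exact hZ _
    obtain ⟨w, hw0, hw1, hw⟩ := (mem_hull_iff x _).1 hz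
    obtain ⟨μ, hμ0, hμ1, hμ⟩ := wlift_mu hg
      (f := fun k => Z k - bs g Z (g k) / bN g (g k) + ρ (g k) * (1 - y (m (g k)) ⬝ᵥ bs g Z))
      (r := fun j => ρ j * (1 - y (m j) ⬝ᵥ bs g Z)) (fun k => by
        have h1 := hZ (Sum.inr k)
        rw [LY_inr_dot] at h1
        have h2 := mul_le_mul_of_nonneg_left h1 (hρ (g k)).le
        rw [mul_sub, mul_inv_cancel_left₀ (hρ (g k)).ne'] at h2
        linarith) (fun j => by
        rw [Finset.sum_congr rfl (g := fun k => Z k + (ρ j * (1 - y (m j) ⬝ᵥ bs g Z) -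
          bs g Z j / bN g j)) fun k hk => by rw [(Finset.mem_filter.1 hk).2]; ring,
          Finset.sum_add_distrib, Finset.sum_const, nsmul_eq_mul, ← bs_apply]
        change _ + bN g j * _ = _
        have := (bN_pos hg j).ne'
        field_simp
        ring)
    refine (mem_hull_iff _ _).2 ⟨fun p => w p.1 * ∏ j, μ (p.2 j),
      fun p => mul_nonneg (hw0 _) (Finset.prod_nonneg fun j _ => hμ0 _), ?_, ?_⟩
    · simp only [Fintype.sum_prod_type, ← Finset.mul_sum, wlift_one hμ1, mul_one, hw1]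
    · funext k
      have h1 : ∀ i, ∑ φ : Sec g, (w i * ∏ j, μ (φ j)) * LX g x y m ρ (i, φ) k =
          w i * (x i (g k) / bN g (g k) + ρ (g k) * (1 - y (m (g k)) ⬝ᵥ x i) * bN g (g k) *
            (μ k - 1 / bN g (g k))) := by
        intro i
        simp only [mul_assoc (w i), ← Finset.mul_sum]
        congr 1
        simp only [LX, LXc, Pi.add_apply, Finset.sum_apply, Pi.smul_apply, smul_eq_mul, mul_add,
          Finset.sum_add_distrib, ← Finset.sum_mul, wlift_one hμ1, one_mul, up_apply,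
          Finset.mul_sum]
        congr 1
        rw [Finset.sum_comm]
        simp only [mul_left_comm (∏ j, μ _), ← Finset.mul_sum]
        rw [Finset.sum_congr rfl fun j _ => by
          rw [wlift_marg hμ1 (fun a => dv g a k) j, wlift_dv hμ1]]
        simp only [mul_ite, mul_zero, Finset.sum_ite_eq, Finset.mem_univ, if_true]
      have h2 : ∑ i, w i * x i (g k) = bs g Z (g k) := by
        simpa using congrFun hw (g k)
      have h3 : ∑ i, w i * y (m (g k)) ⬝ᵥ x i = y (m (g k)) ⬝ᵥ bs g Z := by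
        rw [← hw, dotProduct_sum]
        simp
      simp only [Finset.sum_apply, Pi.smul_apply, smul_eq_mul, Fintype.sum_prod_type, h1]
      have h4 := hμ k
      have hN := (bN_pos hg (g k)).ne'
      rw [Finset.sum_congr rfl (g := fun i => w i * x i (g k) * (1 / bN g (g k)) +
        (w i - w i * y (m (g k)) ⬝ᵥ x i) * (ρ (g k) * bN g (g k) * (μ k - 1 / bN g (g k))))
        fun i _ => by ring, Finset.sum_add_distrib, ← Finset.sum_mul, ← Finset.sum_mul,
        Finset.sum_sub_distrib, h2, h3, hw1]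
      have h5 : bN g (g k) * (1 / bN g (g k)) = 1 := mul_one_div_cancel hN
      linear_combination h4 - ρ (g k) * (1 - y (m (g k)) ⬝ᵥ bs g Z) * h5

end Pool.Agent.MP_5f4cdd_gt.W

end

section

set_option autoImplicit false
open MeasureTheory ENNReal Set Function Filter Topology Pointwise

namespace Pool.Agent.MP_5f4cdd_gt.W

open PL EF AB

variable {n : ℕ}

theorem mstarInf_sub (K : Set (E n)) (c : E n) : mstarInf ((fun z => z - c) '' K) = mstarInf K := by
  have := AB.mstarInf_affine (AffineEquiv.constVAdd ℝ (E n) (-c)) K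
  simp only [sub_eq_neg_add]
  exact this

theorem stepS {ε ε' : ℝ} {μ : ℝ≥0∞} (hεε' : ε < ε') (hε' : ε' < 1) (moat : Moat n ε ε' μ)
    {ι : Type} [Finite ι] [Nonempty ι] (z : ι → E n) (a : ι → ℝ) {θ : E n} (hθ : θ ≠ 0)
    {δ τ α β : ℝ} (hδ : 0 < δ) (hτ : 0 < τ)
    (hV : ∀ t ∈ Icc (-δ) τ,
      (volume (convexHull ℝ (range (shadowPts z a θ t)))).toReal = α + β * t)
    (hI : ∀ t ∈ Icc (-δ) τ, (interior (convexHull ℝ (range (shadowPts z a θ t)))).Nonempty)
    (hM : mstarInf (convexHull ℝ (range z)) < μ) (hN : ¬ EF.Near ε' (convexHull ℝ (range z))) :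
    ∃ T, (T = τ ∨ T = -δ) ∧ mstarInf (convexHull ℝ (range (shadowPts z a θ T))) < μ ∧
      ¬ EF.Near ε' (convexHull ℝ (range (shadowPts z a θ T))) := by
  have hP0 : convexHull ℝ (range (shadowPts z a θ 0)) = convexHull ℝ (range z) := by
    congr 2; ext i; simp [shadowPts]
  have hM0 : mstarInf (convexHull ℝ (range (shadowPts z a θ 0))) < μ := by rwa [hP0]
  have key : ∀ T, (T = τ ∨ T = -δ) → T ∈ Icc (-δ) τ →
      (∀ t ∈ uIcc 0 T, mstarInf (convexHull ℝ (range (shadowPts z a θ t))) < μ) →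
      ∃ T, (T = τ ∨ T = -δ) ∧ mstarInf (convexHull ℝ (range (shadowPts z a θ T))) < μ ∧
        ¬ EF.Near ε' (convexHull ℝ (range (shadowPts z a θ T))) := by
    intro T hT hT' hlt
    have hsub : uIcc 0 T ⊆ Icc (-δ) τ := uIcc_subset_Icc ⟨by linarith, hτ.le⟩ hT'
    refine ⟨T, hT, hlt T right_mem_uIcc, fun hn => hN ?_⟩
    rw [← hP0]
    exact near_flow z a θ isPreconnected_uIcc (fun t ht => hI t (hsub ht)) hεε' hε'.le
      (fun t ht h1 => moat _ (convex_convexHull ℝ _) (isCompact_hull _) (hI t (hsub ht))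
        (hlt t ht) h1) right_mem_uIcc left_mem_uIcc hn
  by_cases h1 : ∀ t ∈ uIcc 0 (-δ), mstarInf (convexHull ℝ (range (shadowPts z a θ t))) < μ
  · exact key _ (Or.inr rfl) ⟨le_rfl, by linarith⟩ h1
  · refine key _ (Or.inl rfl) ⟨by linarith, le_rfl⟩ fun t ht => ?_
    push Not at h1
    obtain ⟨s, hs, hs'⟩ := h1
    rw [uIcc_of_ge (by linarith)] at hs
    rw [uIcc_of_le hτ.le] at ht
    have hs0 : s < 0 := lt_of_le_of_ne hs.2 (by rintro rfl; exact absurd hM0 (not_lt.2 hs'))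
    rcases ht.1.eq_or_lt with rfl | ht0
    · exact hM0
    refine lt_of_le_of_lt (flow_le z a hθ (δ := -s) (A := α) (B := β) (by linarith) ht0 ?_
      hM0.ne_top ?_ le_rfl) hM0
    · intro r hr
      refine hV r ?_
      simp only [neg_neg, mem_insert_iff, mem_singleton_iff] at hr
      rcases hr with rfl | rfl | rfl
      · exact ⟨hs.1, by linarith⟩
      · exact ⟨by linarith, hτ.le⟩
      · exact ⟨by linarith, ht.2⟩
    · rw [neg_neg]; exact hM0.le.trans hs'

end Pool.Agent.MP_5f4cdd_gt.W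

end

section

set_option autoImplicit false
open MeasureTheory ENNReal Set Function Filter Topology Pointwise

namespace Pool.Agent.MP_5f4cdd_gt.W

open PL EF AB

variable {n : ℕ} {ι κ : Type} {g : Fin n → Fin 3} {x : ι → E 3} {y : κ → E 3}

lemma wend_gen {K Q : Set (E n)} (hc : Convex ℝ K) (hK : IsCompact K) (hne : K.Nonempty)
    (c : Fin n → ℝ) (w : Fin n → E n)
    (h : ∀ Z, Z ∈ K ↔ (fun k => c k * (1 - w k ⬝ᵥ Z)) ∈ Q) (h0 : ∀ u ∈ Q, 0 ≤ u)
    (hd : ∀ u ∈ Q, ∀ v, 0 ≤ v → v ≤ u → v ∈ Q) : ∃ e : E n ≃ᵃ[ℝ] E n, AntiB (e '' K) := by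
  let L : E n →ₗ[ℝ] E n :=
    { toFun := fun Z k => -(c k * (w k ⬝ᵥ Z))
      map_add' := fun u v => by ext k; simp [mul_add, add_comm]
      map_smul' := fun r u => by ext k; simp [mul_left_comm] }
  let F : E n →ᵃ[ℝ] E n :=
    { toFun := fun Z k => c k * (1 - w k ⬝ᵥ Z)
      linear := L
      map_vadd' := fun u v => by
        ext k
        simp only [L, vadd_eq_add, dotProduct_add, LinearMap.coe_mk, AddHom.coe_mk, Pi.add_apply]
        ring }
  have hinj : Injective L := by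
    rw [injective_iff_map_eq_zero]
    intro v hv
    obtain ⟨z, hz⟩ := hne
    refine eq_zero_of_ray_mem hK.isBounded (z := z) fun s _ => ?_
    have e1 : F (z + s • v) = F z := by
      rw [add_comm, ← vadd_eq_add, F.map_vadd]
      change L (s • v) + F z = F z
      rw [map_smul, hv, smul_zero, zero_add]
    rw [h]
    change F (z + s • v) ∈ Q
    rw [e1]
    exact (h z).1 hz
  have hb : Bijective F :=
    F.linear_bijective_iff.1 ⟨hinj, LinearMap.injective_iff_surjective.1 hinj⟩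
  have hQ : F '' K = Q := by
    ext u
    constructor
    · rintro ⟨Z, hZ, rfl⟩
      exact (h Z).1 hZ
    · intro hu
      obtain ⟨Z, rfl⟩ := hb.2 u
      exact ⟨Z, (h Z).2 hu, rfl⟩
  refine ⟨AffineEquiv.ofBijective hb, ?_⟩
  change AntiB (F '' K)
  refine ⟨hc.affine_image F, hK.image F.continuous_of_finiteDimensional, ?_, ?_⟩
  · rw [hQ]
    exact h0
  · rw [hQ]
    exact hd

lemma wend_beta {p : Fin 4 → E 3} (h : (0 : E 3) ∈ interior (convexHull ℝ (range p))) :
    ∃ β : Fin 4 → ℝ, (∀ s, 0 < β s) ∧ ∑ s, β s = 1 ∧ ∑ s, β s • p s = 0 := by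
  obtain ⟨e, he, hs⟩ := simplex_of_affineIndep (n := 3) ⟨0, h⟩
  have h1 := e.toHomeomorphOfFiniteDimensional.image_interior (stdS 3)
  simp only [AffineEquiv.coe_toHomeomorphOfFiniteDimensional] at h1
  rw [hs, ← h1] at h
  obtain ⟨z, hz, hz0⟩ := h
  obtain ⟨h2, h3⟩ := interior_stdS (n := 2) hz
  refine ⟨Fin.cons (1 - ∑ k, z k) z, fun s => Fin.cases (by simpa using h3) (fun k => h2 k) s,
    ?_, ?_⟩
  · rw [Fin.sum_univ_succ]
    simp
  · rw [← hz0]
    dsimp only
    rw [he, Fin.sum_univ_succ]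
    simp only [Fin.cons_zero, Fin.cons_succ, smul_sub, Finset.sum_sub_distrib, sub_smul, one_smul,
      Finset.sum_smul]
    abel

lemma wend_zero (hg : Blk g) (f : Fin n → ℝ) {k : Fin n} (hk : g k = 0) :
    ∑ i with g i = 0, f i = f k := by
  refine Finset.sum_eq_single_of_mem k (by simpa using hk) fun i hi hik => ?_
  exact absurd (hg.one i k (Finset.mem_filter.1 hi).2 hk) hik

lemma wend_A (hg : Blk g) {σ : Fin 3 → Fin 4} {t t1 : Fin 4}
    (hall : ∀ s, s = σ 1 ∨ s = σ 2 ∨ s = t ∨ s = t1) {lam : Fin 4 → ℝ} {f : Fin n → ℝ}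
    (hs : lam (σ 1) + lam (σ 2) + lam t + lam t1 = 1)
    (hf : ∀ j, ∑ i with g i = j, f i = lam (σ j)) :
    ((∀ s, 0 ≤ lam s) ∧ ∀ k, 0 ≤ f k) ↔ (fun k => if g k = 0 then lam t else f k) ∈ stdS n := by
  obtain ⟨k0, hk0⟩ := hg.surj 0
  have hb : ∀ j, j ≠ 0 → ∑ i with g i = j, (if g i = 0 then lam t else f i) = lam (σ j) := by
    intro j hj
    rw [← hf j]
    refine Finset.sum_congr rfl fun i hi => if_neg ?_
    rw [(Finset.mem_filter.1 hi).2]
    exact hj
  have hsum : ∑ k, (if g k = 0 then lam t else f k) = lam t + lam (σ 1) + lam (σ 2) := by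
    rw [← Finset.sum_fiberwise (s := Finset.univ) (g := g), Fin.sum_univ_three, hb 1 (by decide),
      hb 2 (by decide), wend_zero hg _ hk0, if_pos hk0]
  constructor
  · rintro ⟨h1, h2⟩
    refine ⟨fun k => ?_, ?_⟩
    · dsimp only
      split_ifs
      · exact h1 t
      · exact h2 k
    · rw [hsum]
      linarith [h1 t1]
  · rintro ⟨h1, h2⟩
    rw [hsum] at h2
    have h3 : ∀ j, j ≠ 0 → 0 ≤ lam (σ j) := fun j hj => by
      rw [← hb j hj]
      exact Finset.sum_nonneg fun i _ => h1 i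
    have h4 : ∀ s, 0 ≤ lam s := by
      intro s
      rcases hall s with rfl | rfl | rfl | rfl
      · exact h3 1 (by decide)
      · exact h3 2 (by decide)
      · simpa [hk0] using h1 k0
      · linarith
    refine ⟨h4, fun k => ?_⟩
    by_cases hk : g k = 0
    · rw [← wend_zero hg f hk, hf]
      exact h4 _
    · simpa [hk] using h1 k

lemma wend_B (hg : Blk g) (φ : Sec g) {σ : Fin 3 → Fin 4} (h12 : σ 2 = σ 1) {lam : Fin 4 → ℝ}
    {f : Fin n → ℝ} (hs : ∑ s, lam s = 1) (hf : ∀ j, ∑ i with g i = j, f i = lam (σ j)) :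
    ((∀ s, 0 ≤ lam s) ∧ ∀ k, 0 ≤ f k) ↔
      (fun k => if k = φ (g k) then lam ((σ 1).succAbove (g k)) else f k) ∈
        {u : E n | 0 ≤ u ∧ ∀ j, j ≠ 0 →
          ∑ i ∈ (Finset.univ.filter fun i => g i = j).erase (φ j), u i + ∑ j, u (φ j) ≤ 1} := by
  have hσ : ∀ j, j ≠ 0 → σ j = σ 1 := by
    intro j hj
    fin_cases j
    · exact absurd rfl hj
    · rfl
    · exact h12
  have hφ : ∀ j, (if (φ j : Fin n) = φ (g (φ j)) then lam ((σ 1).succAbove (g (φ j)))
      else f (φ j)) = lam ((σ 1).succAbove j) := by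
    intro j
    rw [if_pos (by rw [(φ j).2]), (φ j).2]
  have hr : ∀ j, ∑ i ∈ (Finset.univ.filter fun i => g i = j).erase (φ j),
      (if i = φ (g i) then lam ((σ 1).succAbove (g i)) else f i) = lam (σ j) - f (φ j) := by
    intro j
    rw [← hf j, ← Finset.add_sum_erase _ f (a := (φ j : Fin n)) (by simpa using (φ j).2),
      add_sub_cancel_left]
    refine Finset.sum_congr rfl fun i hi => if_neg ?_
    rw [(Finset.mem_filter.1 (Finset.mem_erase.1 hi).2).2]
    exact (Finset.mem_erase.1 hi).1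
  rw [Fin.sum_univ_succAbove _ (σ 1)] at hs
  simp only [mem_ofPred_eq, hφ, hr]
  constructor
  · rintro ⟨h1, h2⟩
    refine ⟨fun k => ?_, fun j hj => ?_⟩
    · dsimp only
      split_ifs
      · exact h1 _
      · exact h2 k
    · rw [hσ j hj]
      linarith [h2 (φ j)]
  · rintro ⟨h1, h2⟩
    have h3 : ∀ j, j ≠ 0 → 0 ≤ f (φ j) := fun j hj => by
      have := h2 j hj
      rw [hσ j hj] at this
      linarith
    have h4 : ∀ s, 0 ≤ lam s := by
      intro s
      by_cases e : s = σ 1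
      · have h5 : 0 ≤ lam (σ 1) - f (φ 1) := by
          rw [← hr 1]
          exact Finset.sum_nonneg fun i _ => h1 i
        rw [e]
        linarith [h3 1 (by decide)]
      · obtain ⟨j, rfl⟩ := Fin.exists_succAbove_eq e
        rw [← hφ j]
        exact h1 (φ j)
    refine ⟨h4, fun k => ?_⟩
    by_cases hk : g k = 0
    · rw [← wend_zero hg f hk, hf]
      exact h4 _
    · by_cases e : k = φ (g k)
      · rw [e]
        exact h3 _ hk
      · have := h1 k
        simp only [Pi.zero_apply, if_neg e] at this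
        exact this

lemma wend_four (a b : Fin 4) (h : a ≠ b) : ∃ t t1 : Fin 4,
    (∀ s, s = a ∨ s = b ∨ s = t ∨ s = t1) ∧
      ∀ lam : Fin 4 → ℝ, lam a + lam b + lam t + lam t1 = ∑ s, lam s := by
  have h1 : ∃ t t1 : Fin 4, (∀ s, s = a ∨ s = b ∨ s = t ∨ s = t1) ∧ a ≠ t ∧ a ≠ t1 ∧ b ≠ t ∧
      b ≠ t1 ∧ t ≠ t1 := by
    revert a b
    decide
  obtain ⟨t, t1, h2, h3, h4, h5, h6, h7⟩ := h1
  refine ⟨t, t1, h2, fun lam => ?_⟩
  have : (Finset.univ : Finset (Fin 4)) = {a, b, t, t1} := by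
    ext s
    simpa using h2 s
  rw [this, Finset.sum_insert (by simp [h, h3, h4]), Finset.sum_insert (by simp [h5, h6]),
    Finset.sum_pair h7]
  ring

theorem end_case [Finite ι] [Finite κ] (hg : Blk g) (h : DualPair x y) (m : Fin 3 → κ)
    {ρ : Fin 3 → ℝ} (hρ : ∀ j, 0 < ρ j) {p : Fin 4 → E 3} (hp : range p = range y) :
    ∃ e : E n ≃ᵃ[ℝ] E n, AntiB (e '' convexHull ℝ (range (LX g x y m ρ))) := by
  have hD := dualPair_lift hg.surj h m hρ
  obtain ⟨β, hβ, hβ1, hβ0⟩ := wend_beta (p := p) (hp ▸ h.symm.zero_mem_interior)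
  have hσ : ∀ j, ∃ s, p s = y (m j) := fun j => by
    have : y (m j) ∈ range p := hp ▸ mem_range_self _
    exact this
  choose σ hσ using hσ
  let lam : E n → Fin 4 → ℝ := fun Z s => β s * (1 - pb g (p s) ⬝ᵥ Z)
  let f : E n → Fin n → ℝ := fun Z k =>
    β (σ (g k)) / bN g (g k) * (1 - LY g y m ρ (Sum.inr k) ⬝ᵥ Z)
  have hs : ∀ Z, ∑ s, lam Z s = 1 := by
    intro Z
    have e : ∑ s, β s * (p s ⬝ᵥ bs g Z) = 0 := by
      have := congrArg (fun v => v ⬝ᵥ bs g Z) hβ0
      simpa only [sum_dotProduct, smul_dotProduct, smul_eq_mul, zero_dotProduct] using this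
    simp only [lam, pb_dot, mul_sub, mul_one, Finset.sum_sub_distrib, hβ1, e, sub_zero]
  have hf : ∀ Z j, ∑ i with g i = j, f Z i = lam Z (σ j) := by
    intro Z j
    have hN := (bN_pos hg.surj j).ne'
    rw [Finset.sum_congr rfl (g := fun i => β (σ j) / bN g j * (1 - y (m j) ⬝ᵥ bs g Z -
      (ρ j)⁻¹ * (bs g Z j / bN g j)) + β (σ j) / bN g j * (ρ j)⁻¹ * Z i) fun i hi => by
        simp only [f, LY_inr_dot, (Finset.mem_filter.1 hi).2]
        ring]
    rw [Finset.sum_add_distrib, Finset.sum_const, nsmul_eq_mul, ← Finset.mul_sum, ← bs_apply]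
    change bN g j * _ + _ = _
    simp only [lam, pb_dot, hσ]
    field_simp
    ring
  have hK : ∀ Z, Z ∈ convexHull ℝ (range (LX g x y m ρ)) ↔
      (∀ s, 0 ≤ lam Z s) ∧ ∀ k, 0 ≤ f Z k := by
    intro Z
    rw [hD.1, mem_ofPred_eq, Sum.forall]
    refine and_congr ?_ (forall_congr' fun k => ?_)
    · simp only [LY_inl_dot, lam, pb_dot, mul_nonneg_iff_of_pos_left (hβ _), sub_nonneg]
      rw [← forall_mem_range (f := y) (p := fun w => w ⬝ᵥ bs g Z ≤ 1), ← hp, forall_mem_range]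
    · simp only [f]
      rw [mul_nonneg_iff_of_pos_left (div_pos (hβ _) (bN_pos hg.surj _)), sub_nonneg]
  have hne : (convexHull ℝ (range (LX g x y m ρ))).Nonempty :=
    ⟨0, by rw [hD.1]; intro j; simp⟩
  by_cases h12 : σ 2 = σ 1
  · obtain ⟨φ⟩ := nonempty_sec hg.surj
    refine wend_gen (convex_convexHull ℝ _) (isCompact_hull _) hne
      (fun k => if k = φ (g k) then β ((σ 1).succAbove (g k)) else β (σ (g k)) / bN g (g k))
      (fun k => if k = φ (g k) then pb g (p ((σ 1).succAbove (g k))) else LY g y m ρ (Sum.inr k))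
      (Q := {u : E n | 0 ≤ u ∧ ∀ j, j ≠ 0 →
          ∑ i ∈ (Finset.univ.filter fun i => g i = j).erase (φ j), u i + ∑ j, u (φ j) ≤ 1})
      (fun Z => ?_) (fun u hu => hu.1) fun u hu v hv hvu => ⟨hv, fun j hj => ?_⟩
    · rw [hK, wend_B hg φ h12 (hs Z) (hf Z)]
      refine iff_of_eq (congrArg (· ∈ _) (funext fun k => ?_))
      split_ifs <;> rfl
    · exact (add_le_add (Finset.sum_le_sum fun i _ => hvu i)
        (Finset.sum_le_sum fun i _ => hvu _)).trans (hu.2 j hj)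
  · obtain ⟨t, t1, hall, hsum⟩ := wend_four (σ 1) (σ 2) (Ne.symm h12)
    refine wend_gen (convex_convexHull ℝ _) (isCompact_hull _) hne
      (fun k => if g k = 0 then β t else β (σ (g k)) / bN g (g k))
      (fun k => if g k = 0 then pb g (p t) else LY g y m ρ (Sum.inr k)) (Q := stdS n)
      (fun Z => ?_) (fun u hu => hu.1) fun u hu v hv hvu =>
        ⟨hv, (Finset.sum_le_sum fun i _ => hvu i).trans hu.2⟩
    rw [hK, wend_A hg hall ((hsum _).trans (hs Z)) (hf Z)]
    refine iff_of_eq (congrArg (· ∈ _) (funext fun k => ?_))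
    split_ifs <;> rfl

end Pool.Agent.MP_5f4cdd_gt.W

end

section

set_option autoImplicit false
open MeasureTheory ENNReal Set Function Filter Topology Pointwise

namespace Pool.Agent.MP_5f4cdd_gt.W

open PL EF AB

variable {n : ℕ} {g : Fin n → Fin 3}

lemma wapprox_pos {K : Set (E n)} (hK : ∀ z ∈ K, ∀ i, 0 ≤ z i) {x : E n} (hx : x ∈ interior K)
    (i : Fin n) : 0 < x i := by
  have h : ∀ᶠ t in 𝓝 (0 : ℝ), x - t • (Pi.single i 1 : E n) ∈ K :=
    ContinuousAt.preimage_mem_nhds (by fun_prop) (by simpa using mem_interior_iff_mem_nhds.1 hx)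
  obtain ⟨t, h1, h2⟩ := ((h.filter_mono nhdsWithin_le_nhds).and
    (self_mem_nhdsWithin (a := (0 : ℝ)) (s := Ioi 0))).exists
  have := hK _ h1 i
  simp only [Pi.sub_apply, Pi.smul_apply, Pi.single_eq_same, smul_eq_mul, mul_one] at this
  exact h2.trans_le (sub_nonneg.1 this)

lemma wapprox_marks (hg : Surjective g) {ι κ : Type} [Finite ι] [Finite κ] {x : ι → E 3}
    {y : κ → E 3} (h : DualPair x y) {c : E 3} (hc : ∀ j, 0 < c j)
    (hx : ∀ z ∈ convexHull ℝ (range x), ∀ j, 0 ≤ z j + c j) :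
    ∃ (y' : κ ⊕ Fin 3 → E 3) (ρ : Fin 3 → ℝ), DualPair x y' ∧ (∀ j, 0 < ρ j) ∧
      ∀ Z, Z ∈ convexHull ℝ (range (LX g x y' Sum.inr ρ)) ↔
        bs g Z ∈ convexHull ℝ (range x) ∧ ∀ k, 0 ≤ up g c k + Z k := by
  set y' : κ ⊕ Fin 3 → E 3 := Sum.elim y fun j => -(c j)⁻¹ • Pi.single j 1 with hy'
  have hd : ∀ j z, y' (Sum.inr j) ⬝ᵥ z = -(z j / c j) := fun j z => by
    simp [hy', div_eq_inv_mul]
  have h' : DualPair x y' := dualPair_of_eq (Subset.antisymm (fun z hz j => ?_) fun z hz => ?_)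
  · have hρ : ∀ j, 0 < c j / bN g j := fun j => div_pos (hc j) (bN_pos hg j)
    refine ⟨y', _, h', hρ, fun Z => ?_⟩
    rw [(dualPair_lift hg h' Sum.inr hρ).1, h'.1]
    refine Sum.forall.trans (and_congr (forall_congr' fun j => by rw [LY_inl_dot])
      (forall_congr' fun k => ?_))
    have h1 := hc (g k)
    have h2 := bN_pos hg (g k)
    have : (1 : ℝ) - (-(bs g Z (g k) / c (g k)) - (c (g k) / bN g (g k))⁻¹ *
        (Z k - bs g Z (g k) / bN g (g k))) =
        (c (g k) / bN g (g k))⁻¹ * (c (g k) / bN g (g k) + Z k) := by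
      field_simp
      ring
    rw [LY_inr_dot, hd, up_apply, ← sub_nonneg, this, mul_nonneg_iff_of_pos_left (inv_pos.2 (hρ _))]
  · rcases j with j | j
    · exact (h.1 ▸ hz :) j
    · rw [hd, neg_le, le_div_iff₀ (hc j)]
      linarith [hx z hz j]
  · rw [h.1]
    exact fun j => hz (Sum.inl j)

theorem good_wedge {ε ε' : ℝ} {μ : ℝ≥0∞} (hεε' : ε < ε') (hε' : ε' < 1) (moat : Moat n ε ε' μ)
    (hg : Surjective g)
    (hP : ∀ (ι κ : Type) [Finite ι] [Finite κ] (x : ι → E 3) (y : κ → E 3) (m : Fin 3 → κ)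
      (ρ : Fin 3 → ℝ), DualPair x y → (∀ j, 0 < ρ j) →
      AB.Good ε μ (convexHull ℝ (range (LX g x y m ρ))))
    {K : Set (E n)} {C : Set (E 3)} (hK : Body K)
    (hKC : K = {x | (∀ i, 0 ≤ x i) ∧ bs g x ∈ C}) : AB.Good ε μ K := by
  intro hi hM
  obtain ⟨δ, hδ, H⟩ := hK.cont hεε' hε' hM
  have hnn : ∀ z ∈ K, ∀ i, 0 ≤ z i := fun z hz => (hKC ▸ hz :).1
  have hmem : ∀ z, (∀ i, 0 ≤ z i) → bs g z ∈ bs g '' K → z ∈ K := by
    rintro z h1 ⟨w, hw, h2⟩
    rw [hKC] at hw ⊢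
    exact ⟨h1, h2 ▸ hw.2⟩
  obtain ⟨x0, hx0⟩ := hK.int
  set c := bs g x0 with hcd
  have hc : ∀ j, 0 < c j := fun j => by
    rw [hcd, bs_apply]
    exact Finset.sum_pos (fun i _ => wapprox_pos hnn hx0 i)
      ((hg j).imp fun k hk => by simpa using hk)
  have hu0 : ∀ k, 0 ≤ up g c k := fun k => (div_pos (hc _) (bN_pos hg _)).le
  set D : Set (E 3) := (fun z => z + c) ⁻¹' (bs g '' K) with hD
  have hDv : Convex ℝ D := (hK.conv.linear_image _).translate_preimage_left c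
  have hDc : IsCompact D := (Homeomorph.addRight c).isCompact_preimage.2
    (hK.comp.image (bs g).continuous_of_finiteDimensional)
  have hD0 : D ∈ 𝓝 (0 : E 3) := by
    have h1 : (fun z => up g z + x0) ⁻¹' K ∈ 𝓝 (0 : E 3) := ContinuousAt.preimage_mem_nhds
      ((up g).continuous_of_finiteDimensional.add continuous_const).continuousAt
      (by simpa using mem_interior_iff_mem_nhds.1 hx0)
    exact mem_of_superset h1 fun z hz => ⟨_, hz, by rw [map_add, bs_up hg]⟩
  obtain ⟨R, hR, hKR⟩ := hK.comp.isBounded.subset_closedBall_lt 0 (up g c)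
  set η := min (1 / 2) (δ / R) with hη
  have hη0 : 0 < η := by positivity
  have hη1 : η < 1 := (min_le_left _ _).trans_lt (by norm_num)
  have hηR : η * R ≤ δ := (le_div_iff₀ hR).1 (min_le_right _ _)
  have hs : 0 < 1 - η := by linarith
  obtain ⟨ι, _, x, hx1, hx2⟩ := exists_polytope hDv hDc (mem_interior_iff_mem_nhds.2 hD0) hη0 hη1.le
  have hP0 : (0 : E 3) ∈ interior (convexHull ℝ (range x)) := by
    rw [mem_interior_iff_mem_nhds]
    have h1 : (fun z : E 3 => (1 - η)⁻¹ • z) ⁻¹' D ∈ 𝓝 (0 : E 3) :=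
      ContinuousAt.preimage_mem_nhds (by fun_prop) (by simpa using hD0)
    refine mem_of_superset h1 fun z hz => hx1 ⟨_, hz, ?_⟩
    simp [AffineMap.homothety_apply, smul_smul, mul_inv_cancel₀ hs.ne']
  obtain ⟨κ, _, y, hxy⟩ := exists_dual x hP0
  obtain ⟨y', ρ, hxy', hρ, hZ⟩ := wapprox_marks hg hxy hc fun z hz j => by
    obtain ⟨w, hw, e⟩ := hx2 hz
    have : z j + c j = bs g w j := (congrFun e j).symm
    rw [this, bs_apply]
    exact Finset.sum_nonneg fun i _ => hnn w hw i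
  set e := AffineEquiv.constVAdd ℝ (E n) (up g c)
  have he : ∀ Z, e Z = up g c + Z := fun _ => rfl
  have hB : Body (e '' convexHull ℝ (range (LX g x y' Sum.inr ρ))) :=
    ⟨(convex_convexHull ℝ _).affine_image e.toAffineMap,
      (isCompact_hull _).image (continuous_const.add continuous_id),
      (interior_affine e _).2 ⟨0, (dualPair_lift hg hxy' Sum.inr hρ).zero_mem_interior⟩⟩
  obtain ⟨-, h2, h3, -⟩ := H _ hB (fun a ha => by
      refine ⟨_, ⟨(1 - η) • (a - up g c), (hZ _).2 ⟨hx1 ⟨bs g a - c, ⟨a, ha, by simp⟩, ?_⟩,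
        fun k => ?_⟩, rfl⟩, ?_⟩
      · simp [AffineMap.homothety_apply, bs_up hg]
      · simp only [Pi.smul_apply, Pi.sub_apply, smul_eq_mul]
        nlinarith [mul_nonneg hs.le (hnn a ha k), mul_nonneg hη0.le (hu0 k)]
      · rw [he, show a - (up g c + (1 - η) • (a - up g c)) = η • (a - up g c) by module,
          norm_smul, Real.norm_of_nonneg hη0.le]
        exact (mul_le_mul_of_nonneg_left (mem_closedBall_iff_norm.1 (hKR ha)) hη0.le).trans hηR)
    (by
      rintro _ ⟨Z, h, rfl⟩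
      obtain ⟨h1, h2⟩ := (hZ Z).1 h
      refine ⟨_, hmem (e Z) h2 ?_, by simpa using hδ.le⟩
      rw [he, map_add, bs_up hg, add_comm]
      exact hx2 h1)
  exact moat K hK.conv hK.comp hi hM
    (h2 ((hP _ _ x y' Sum.inr ρ hxy' hρ).image (hεε'.trans hε') e hB.int (h3 le_rfl)))

end Pool.Agent.MP_5f4cdd_gt.W

end

section

set_option autoImplicit false
open MeasureTheory ENNReal Set Function Filter Topology Pointwise

namespace Pool.Agent.MP_5f4cdd_gt.W

open PL EF AB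

variable {n k m : ℕ}

lemma wcs_body_image {K : Set (E n)} (h : Body K) (e : E n ≃ᵃ[ℝ] E n) : Body (e '' K) :=
  ⟨h.conv.affine_image e.toAffineMap, h.comp.image e.toAffineMap.continuous_of_finiteDimensional,
    (interior_affine e K).2 h.int⟩

/-- sets whose fibres are intervals -/
def wcsG (I : Fin n) (P : E n → Prop) (c L : E n → ℝ) : Set (E n) :=
  {x | P x ∧ c x ≤ x I ∧ x I ≤ c x + L x}

lemma wcs_mem_sc {I : Fin n} {P : E n → Prop} {c L : E n → ℝ}
    (hP : ∀ x s, P (update x I s) ↔ P x) (hc : ∀ x s, c (update x I s) = c x)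
    (hL : ∀ x s, L (update x I s) = L x) {β : ℝ} (hβ : 0 < β) (y : E n) :
    y ∈ sc I β '' wcsG I P c L ↔ P y ∧ β * c y ≤ y I ∧ y I ≤ β * (c y + L y) := by
  constructor
  · rintro ⟨x, ⟨h1, h2, h3⟩, rfl⟩
    rw [sc_apply, hP, hc, hL, update_self]
    exact ⟨h1, by gcongr, by gcongr⟩
  · rintro ⟨h1, h2, h3⟩
    refine ⟨update y I (y I / β), ⟨(hP _ _).2 h1, ?_, ?_⟩, ?_⟩
    · rw [hc, update_self, le_div_iff₀ hβ]; linarith
    · rw [hc, hL, update_self, div_le_iff₀ hβ]; linarith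
    · rw [sc_apply, update_self, update_idem, mul_div_cancel₀ _ hβ.ne', update_eq_self]

lemma wcs_shadow {I : Fin n} {P : E n → Prop} {c L : E n → ℝ}
    (hP : ∀ x s, P (update x I s) ↔ P x) (hc : ∀ x s, c (update x I s) = c x)
    (hL : ∀ x s, L (update x I s) = L x) {β : ℝ} (hβ : 0 < β) :
    sc I 0 '' (sc I β '' wcsG I P c L) = {y | y I = 0 ∧ P y ∧ 0 ≤ L y} := by
  ext y
  constructor
  · rintro ⟨x, hx, rfl⟩
    obtain ⟨h1, h2, h3⟩ := (wcs_mem_sc hP hc hL hβ x).1 hx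
    rw [sc_apply, mem_ofPred_eq, hP, hL, update_self]
    refine ⟨zero_mul _, h1, ?_⟩
    have : 0 ≤ β * L x := by linarith
    exact (mul_nonneg_iff_of_pos_left hβ).1 this
  · rintro ⟨h0, h1, h2⟩
    refine ⟨update y I (β * c y), (wcs_mem_sc hP hc hL hβ _).2 ?_, ?_⟩
    · rw [hP, hc, hL, update_self]
      exact ⟨h1, le_rfl, by nlinarith⟩
    · rw [sc_apply, update_idem, zero_mul, ← h0, update_eq_self]

lemma wcs_step {ε ε' : ℝ} {μ : ℝ≥0∞} (hεε' : ε < ε') (hε' : ε' < 1) (moat : Moat n ε ε' μ)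
    {I : Fin n} {P : E n → Prop} {L : E n → ℝ} (ψ : E n →ₗ[ℝ] ℝ)
    (hP : ∀ x s, P (update x I s) ↔ P x) (hψ : ∀ x s, ψ (update x I s) = ψ x)
    (hL : ∀ x s, L (update x I s) = L x)
    (h0 : Body (wcsG I P (fun _ => 0) L) ∧ AB.Good ε μ (wcsG I P (fun _ => 0) L))
    {t : ℝ} (t0 : 0 ≤ t) (t1 : t ≤ 1) :
    Body (wcsG I P (fun x => t * (ψ x - L x)) L) ∧
      AB.Good ε μ (wcsG I P (fun x => t * (ψ x - L x)) L) := by
  have hε : ε < 1 := hεε'.trans hε'
  let R : E n →ₗ[ℝ] E n :=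
    { toFun := fun x => update x I (ψ x - x I)
      map_add' := fun x y => by
        ext j
        rcases eq_or_ne j I with rfl | hj
        · simp; ring
        · simp [hj]
      map_smul' := fun a x => by
        ext j
        rcases eq_or_ne j I with rfl | hj
        · simp; ring
        · simp [hj] }
  have hR : ∀ x, R x = update x I (ψ x - x I) := fun _ => rfl
  have hinv : Involutive R := fun x => by
    rw [hR, hR, hψ, update_idem, update_self, _root_.sub_sub_cancel, update_eq_self]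
  have e1 : (LinearEquiv.ofInvolutive R hinv).toAffineEquiv '' wcsG I P (fun _ => 0) L =
      wcsG I P (fun x => ψ x - L x) L := by
    ext y
    constructor
    · rintro ⟨x, ⟨h1, h2, h3⟩, rfl⟩
      change update x I (ψ x - x I) ∈ _
      simp only [wcsG, mem_ofPred_eq, hP, hψ, hL, update_self]
      exact ⟨h1, by linarith, by linarith⟩
    · rintro ⟨h1, h2, h3⟩
      refine ⟨R y, ?_, hinv y⟩
      simp only [hR, wcsG, mem_ofPred_eq, hP, hL, update_self]
      exact ⟨h1, by linarith, by linarith⟩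
  have h1 : Body (wcsG I P (fun x => ψ x - L x) L) ∧
      AB.Good ε μ (wcsG I P (fun x => ψ x - L x) L) := by
    rw [← e1]
    exact ⟨wcs_body_image h0.1 _, h0.2.image hε _⟩
  rcases t0.eq_or_lt with rfl | t0
  · simpa using h0
  rcases t1.eq_or_lt with rfl | t1
  · simpa using h1
  have t2 : 0 < 1 - t := by linarith
  have hc : ∀ x s, (fun x => ψ x - L x) (update x I s) = (fun x => ψ x - L x) x := fun x s => by
    simp only [hψ, hL]
  have hc0 : ∀ (x : E n) (s : ℝ), (fun _ : E n => (0 : ℝ)) (update x I s) =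
      (fun _ : E n => (0 : ℝ)) x := fun _ _ => rfl
  have e2 : φ I 1 1 '' AB.Zs I (sc I (1 - t) '' wcsG I P (fun _ => 0) L)
      (sc I t '' wcsG I P (fun x => ψ x - L x) L) =
      wcsG I P (fun x => t * (ψ x - L x)) L := by
    ext x
    rw [mem_fib]
    simp only [wcs_mem_sc (c := fun _ => 0) hP hc0 hL t2,
      wcs_mem_sc (c := fun x => ψ x - L x) hP hc hL t0, hP, hψ, hL, update_self]
    constructor
    · rintro ⟨s, s', ⟨a1, a2, a3⟩, ⟨-, a4, a5⟩, a6⟩
      exact ⟨a1, by linarith, by linarith⟩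
    · rintro ⟨a1, a2, a3⟩
      have a4 : 0 ≤ x I - t * (ψ x - L x) := by linarith
      have a5 : x I - t * (ψ x - L x) ≤ L x := by linarith
      refine ⟨(1 - t) * (x I - t * (ψ x - L x)), t * (ψ x - L x + (x I - t * (ψ x - L x))),
        ⟨a1, by gcongr, by rw [zero_add]; gcongr⟩, ⟨a1, by gcongr; linarith, by gcongr⟩, by ring⟩
  have b0 := wcs_body_image h0.1 (dgE _ (sc_ne I t2.ne'))
  have b1 := wcs_body_image h1.1 (dgE _ (sc_ne I t0.ne'))
  have g0 := h0.2.image hε (dgE _ (sc_ne I t2.ne'))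
  have g1 := h1.2.image hε (dgE _ (sc_ne I t0.ne'))
  have hs := (wcs_shadow (c := fun _ => 0) hP hc0 hL t2).trans
    (wcs_shadow (c := fun x => ψ x - L x) hP hc hL t0).symm
  rw [← e2]
  exact ⟨body_fib b0 b1 hs zero_le_one zero_le_one (Or.inl one_pos),
    Good.fib hεε' hε' moat b0 b1 hs g0 g1⟩

lemma wcs_mem {σ v : E m} {τ : ℝ} (hτ : 0 ≤ τ) : v ∈ τ • ((fun z => z - σ) '' stdS m) ↔
    (∀ j, -(σ j * τ) ≤ v j) ∧ ∑ j, v j ≤ (1 - ∑ j, σ j) * τ := by
  constructor
  · rintro ⟨_, ⟨z, ⟨h1, h2⟩, rfl⟩, rfl⟩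
    refine ⟨fun j => ?_, ?_⟩
    · have := mul_nonneg hτ (h1 j)
      simp only [Pi.smul_apply, Pi.sub_apply, smul_eq_mul]
      linarith
    · simp only [Pi.smul_apply, Pi.sub_apply, smul_eq_mul, ← Finset.mul_sum,
        Finset.sum_sub_distrib]
      rw [mul_comm]
      gcongr
  · rintro ⟨h1, h2⟩
    rcases hτ.eq_or_lt with rfl | hτ
    · simp only [mul_zero, neg_zero] at h1 h2
      have := (Finset.sum_eq_zero_iff_of_nonneg fun j _ => h1 j).1
        (le_antisymm h2 (Finset.sum_nonneg fun j _ => h1 j))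
      refine ⟨0 - σ, ⟨0, ⟨fun _ => le_rfl, by simp⟩, rfl⟩, ?_⟩
      ext j
      simp [this j (Finset.mem_univ j)]
    · refine ⟨τ⁻¹ • v, ⟨τ⁻¹ • v + σ, ⟨fun j => ?_, ?_⟩, by simp⟩, by simp [smul_smul, hτ.ne']⟩
      · have := h1 j
        simp only [Pi.add_apply, Pi.smul_apply, smul_eq_mul]
        rw [← neg_le_iff_add_nonneg, le_inv_mul_iff₀ hτ]
        linarith
      · simp only [Pi.add_apply, Pi.smul_apply, smul_eq_mul, Finset.sum_add_distrib,
          ← Finset.mul_sum]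
        rw [← le_sub_iff_add_le, inv_mul_le_iff₀ hτ]
        linarith

/-- the shifted simplex bundles -/
def wcsK (e : Fin k ⊕ Fin m ≃ Fin n) (B : Set (E k)) (τ : E k → ℝ) (σ : E m) : Set (E n) :=
  {x | (fun i => x (e (Sum.inl i))) ∈ B ∧
    (∀ j, -(σ j * τ fun i => x (e (Sum.inl i))) ≤ x (e (Sum.inr j))) ∧
      ∑ j, x (e (Sum.inr j)) ≤ (1 - ∑ j, σ j) * τ fun i => x (e (Sum.inl i))}

lemma wcsK_eq (e : Fin k ⊕ Fin m ≃ Fin n) {B : Set (E k)} {τ : E k → ℝ} (hτ : ∀ u ∈ B, 0 ≤ τ u)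
    (σ : E m) : fibS e B τ ((fun z => z - σ) '' stdS m) = wcsK e B τ σ := by
  ext x
  exact and_congr_right fun h => wcs_mem (hτ _ h)

lemma wcsK_G (e : Fin k ⊕ Fin m ≃ Fin n) (B : Set (E k)) (τ : E k → ℝ) (σ : E m) (i : Fin m)
    (a : ℝ) : wcsK e B τ (update σ i a) = wcsG (e (Sum.inr i))
      (fun x => (fun i => x (e (Sum.inl i))) ∈ B ∧
        ∀ j, j ≠ i → -(σ j * τ fun i => x (e (Sum.inl i))) ≤ x (e (Sum.inr j)))
      (fun x => -(a * τ fun i => x (e (Sum.inl i))))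
      (fun x => (1 - ∑ j ∈ Finset.univ.erase i, σ j) * τ (fun i => x (e (Sum.inl i))) -
        ∑ j ∈ Finset.univ.erase i, x (e (Sum.inr j))) := by
  ext x
  have h1 : ∑ j, update σ i a j = a + ∑ j ∈ Finset.univ.erase i, σ j := by
    rw [Finset.sum_update_of_mem (Finset.mem_univ i), Finset.sdiff_singleton_eq_erase]
  have h2 := Finset.add_sum_erase Finset.univ (fun j => x (e (Sum.inr j))) (Finset.mem_univ i)
  simp only [wcsK, wcsG, mem_ofPred_eq, h1, ← h2]
  constructor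
  · rintro ⟨a1, a2, a3⟩
    refine ⟨⟨a1, fun j hj => by simpa [hj] using a2 j⟩, by simpa using a2 i, by linarith⟩
  · rintro ⟨⟨a1, a2⟩, a3, a4⟩
    refine ⟨a1, fun j => ?_, by linarith⟩
    rcases eq_or_ne j i with rfl | hj
    · simpa using a3
    · simpa [hj] using a2 j hj

lemma wcsK_step {ε ε' : ℝ} {μ : ℝ≥0∞} (hεε' : ε < ε') (hε' : ε' < 1) (moat : Moat n ε ε' μ)
    (e : Fin k ⊕ Fin m ≃ Fin n) (B : Set (E k)) (τ : E k → ℝ) {σ : E m} (i : Fin m)
    (h0 : 0 ≤ σ i) (h1 : ∑ j, σ j ≤ 1)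
    (h : Body (wcsK e B τ (update σ i 0)) ∧ AB.Good ε μ (wcsK e B τ (update σ i 0))) :
    Body (wcsK e B τ σ) ∧ AB.Good ε μ (wcsK e B τ σ) := by
  set b := 1 - ∑ j ∈ Finset.univ.erase i, σ j with hb
  have h2 : σ i ≤ b := by
    have := Finset.add_sum_erase Finset.univ σ (Finset.mem_univ i)
    linarith
  have h3 : σ i / b * b = σ i := by
    rcases eq_or_ne b 0 with h | h
    · rw [h, mul_zero]; linarith
    · exact div_mul_cancel₀ _ h
  have hu : ∀ (x : E n) (s : ℝ), (fun l => update x (e (Sum.inr i)) s (e (Sum.inl l))) =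
      fun l => x (e (Sum.inl l)) := fun x s => by
    ext l
    rw [update_of_ne (by simp)]
  have hv : ∀ (x : E n) (s : ℝ) j, j ≠ i → update x (e (Sum.inr i)) s (e (Sum.inr j)) =
      x (e (Sum.inr j)) := fun x s j hj => update_of_ne (by simpa using hj) _ _
  have hS : ∀ (x : E n) (s : ℝ), ∑ j ∈ Finset.univ.erase i,
      update x (e (Sum.inr i)) s (e (Sum.inr j)) =
        ∑ j ∈ Finset.univ.erase i, x (e (Sum.inr j)) := fun x s =>
    Finset.sum_congr rfl fun j hj => hv x s j (Finset.ne_of_mem_erase hj)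
  let ψ : E n →ₗ[ℝ] ℝ := -∑ j ∈ Finset.univ.erase i, LinearMap.proj (e (Sum.inr j))
  have hψ : ∀ x, ψ x = -∑ j ∈ Finset.univ.erase i, x (e (Sum.inr j)) := fun x => by
    simp [ψ]
  rw [wcsK_G] at h
  simp only [zero_mul, neg_zero] at h
  have := wcs_step hεε' hε' moat ψ (fun x s => ?_) (fun x s => by rw [hψ, hψ, hS])
    (fun x s => by simp only [hu, hS]) h (div_nonneg h0 (h0.trans h2))
    (div_le_one_of_le₀ h2 (h0.trans h2))
  · rw [← update_eq_self i σ, wcsK_G]
    convert this using 4 with x x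
    all_goals
      rw [hψ, ← hb]
      linear_combination (τ fun i => x (e (Sum.inl i))) * h3
  · simp only [hu]
    exact and_congr_right fun _ => forall₂_congr fun j hj => by rw [hv x s j hj]

theorem good_centred {ε ε' : ℝ} {μ : ℝ≥0∞} (hεε' : ε < ε') (hε' : ε' < 1) (moat : Moat n ε ε' μ)
    (e : Fin k ⊕ Fin m ≃ Fin n) {B : Set (E k)} {τ : E k → ℝ} (hτ : ∀ u ∈ B, 0 ≤ τ u)
    (hB : Body (fibS e B τ (stdS m))) (hG : AB.Good ε μ (fibS e B τ (stdS m))) :
    Body (fibS e B τ (cS m 1)) ∧ AB.Good ε μ (fibS e B τ (cS m 1)) := by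
  have key : ∀ s : Finset (Fin m), ∀ σ : E m, (∀ j, 0 ≤ σ j) → ∑ j, σ j ≤ 1 →
      (∀ j, j ∉ s → σ j = 0) → Body (wcsK e B τ σ) ∧ AB.Good ε μ (wcsK e B τ σ) := by
    intro s
    induction s using Finset.induction_on with
    | empty =>
      intro σ _ _ h
      have : σ = 0 := funext fun j => h j (by simp)
      rw [this, ← wcsK_eq e hτ]
      simpa using And.intro hB hG
    | insert i s _ ih =>
      intro σ h0 h1 h2
      refine wcsK_step hεε' hε' moat e B τ i (h0 i) h1 (ih _ (fun j => ?_) ?_ fun j hj => ?_)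
      · rcases eq_or_ne j i with rfl | hj
        · simp
        · simpa [hj] using h0 j
      · refine le_trans (Finset.sum_le_sum fun j _ => ?_) h1
        rcases eq_or_ne j i with rfl | hj
        · simpa using h0 j
        · simp [hj]
      · rcases eq_or_ne j i with rfl | hj'
        · simp
        · rw [update_of_ne hj']
          exact h2 j (by simp [hj, hj'])
  rw [← image_sub_cen, wcsK_eq e hτ]
  exact key Finset.univ _ cen_mem_stdS.1 cen_mem_stdS.2 (by simp)

end Pool.Agent.MP_5f4cdd_gt.W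

end

section

set_option autoImplicit false
open MeasureTheory ENNReal Set Function Filter Topology Pointwise

namespace Pool.Agent.MP_5f4cdd_gt.W

open PL EF AB

variable {m : ℕ}

theorem wgap_hom (v z : E m) (i : Fin m) :
    AffineMap.homothety v (1 / 4 : ℝ) z i = 1 / 4 * z i + 3 / 4 * v i := by
  simp only [AffineMap.homothety_apply, vsub_eq_sub, vadd_eq_add, Pi.add_apply, Pi.smul_apply,
    Pi.sub_apply, smul_eq_mul]
  ring

theorem wgap_cut {v : E m} (hv : v ∈ stdS m) {H S : Set (E m)} (hH : MeasurableSet H)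
    (hD : ∀ z ∈ stdS m, AffineMap.homothety v (1 / 4 : ℝ) z ∈ H) (hS : S ⊆ stdS m \ H) :
    (volume S).toReal ≤ (1 - (1 / 4) ^ m) * (volume (stdS m)).toReal := by
  have h1 : AffineMap.homothety v (1 / 4 : ℝ) '' stdS m ⊆ stdS m ∩ H := by
    rintro _ ⟨z, hz, rfl⟩
    refine ⟨⟨fun i => ?_, ?_⟩, hD z hz⟩
    · rw [wgap_hom]
      have := hz.1 i
      have := hv.1 i
      positivity
    · simp only [wgap_hom, Finset.sum_add_distrib, ← Finset.mul_sum]
      linarith [hz.2, hv.2]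
  have h2 : volume (AffineMap.homothety v (1 / 4 : ℝ) '' stdS m) + volume S ≤ volume (stdS m) :=
    (add_le_add (measure_mono h1) (measure_mono hS)).trans (measure_inter_add_sdiff _ hH).le
  have h3 := ENNReal.toReal_mono volume_stdS_ne_top h2
  have h4 := ENNReal.add_ne_top.1 (ne_top_of_le_ne_top volume_stdS_ne_top h2)
  rw [ENNReal.toReal_add h4.1 h4.2, toReal_homothety v (by norm_num)] at h3
  linarith

theorem wgap_symm (hm : 2 ≤ m) {S : Set (E m)} (hS : S ⊆ stdS m) (c : E m)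
    (hc : ∀ z ∈ S, ∃ z' ∈ stdS m, ∀ i, z i + z' i = 2 * c i) :
    (volume S).toReal ≤ (1 - (1 / 4) ^ m) * (volume (stdS m)).toReal := by
  by_cases h : ∃ i, c i ≤ 1 / 3
  · obtain ⟨i, hi⟩ := h
    refine wgap_cut (v := Pi.single i 1) (H := {z | 3 / 4 ≤ z i}) ⟨fun j => ?_, by simp⟩
      (measurableSet_le measurable_const (measurable_pi_apply i)) (fun z hz => ?_)
      fun z hz => ⟨hS hz, fun h1 => ?_⟩
    · rw [Pi.single_apply]
      split_ifs <;> norm_num
    · change 3 / 4 ≤ AffineMap.homothety _ (1 / 4 : ℝ) z i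
      rw [wgap_hom, Pi.single_eq_same]
      linarith [hz.1 i]
    · obtain ⟨z', h2, h3⟩ := hc z hz
      have h4 : 3 / 4 ≤ z i := h1
      linarith [h3 i, h2.1 i]
  · push Not at h
    have h0 : 2 / 3 ≤ ∑ i, c i := by
      have h1 : ∑ _i : Fin m, (1 / 3 : ℝ) ≤ ∑ i, c i := Finset.sum_le_sum fun i _ => (h i).le
      have h2 : (2 : ℝ) ≤ m := by exact_mod_cast hm
      rw [Finset.sum_const, Finset.card_univ, Fintype.card_fin, nsmul_eq_mul] at h1
      linarith
    refine wgap_cut (v := 0) (H := {z | ∑ i, z i ≤ 1 / 4}) ⟨fun j => le_rfl, by simp⟩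
      (measurableSet_le (by fun_prop) measurable_const) (fun z hz => ?_)
      fun z hz => ⟨hS hz, fun h1 => ?_⟩
    · change ∑ i, AffineMap.homothety _ (1 / 4 : ℝ) z i ≤ 1 / 4
      simp only [wgap_hom, Pi.zero_apply, mul_zero, add_zero, ← Finset.mul_sum]
      linarith [hz.2]
    · obtain ⟨z', h2, h3⟩ := hc z hz
      have h4 : ∑ i, z i ≤ 1 / 4 := h1
      have h5 : ∑ i, z i + ∑ i, z' i = 2 * ∑ i, c i := by
        rw [← Finset.sum_add_distrib, Finset.mul_sum]
        exact Finset.sum_congr rfl fun i _ => h3 i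
      linarith [h2.2]

theorem neg_mem_of_unc {S : Set (E m)} (hS : ∀ y ∈ S, ∀ j, update y j (-y j) ∈ S) {y : E m}
    (hy : y ∈ S) : -y ∈ S := by
  have h : ∀ T : Finset (Fin m), (fun i => if i ∈ T then -y i else y i) ∈ S := by
    intro T
    induction T using Finset.induction_on with
    | empty => simpa using hy
    | insert j T hj ih =>
      have h1 := hS _ ih j
      convert h1 using 1
      funext i
      by_cases hi : i = j
      · subst hi
        simp [hj]
      · simp [hi]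
  have h1 := h Finset.univ
  simp only [Finset.mem_univ, if_true] at h1
  exact h1

theorem zero_mem_of_unc {S : Set (E m)} (hB : Body S)
    (hS : ∀ y ∈ S, ∀ j, update y j (-y j) ∈ S) : (0 : E m) ∈ interior S := by
  obtain ⟨y, hy⟩ := hB.int
  have h := hB.conv.combo_interior_self_mem_interior hy (neg_mem_of_unc hS (interior_subset hy))
    (a := 1 / 2) (b := 1 / 2) (by norm_num) (by norm_num) (by norm_num)
  rwa [smul_neg, add_neg_cancel] at h

theorem not_near_symm (hm : 2 ≤ m) : ∃ ε : ℝ, 0 < ε ∧ ∀ S : Set (E m), (∀ y ∈ S, -y ∈ S) →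
    ¬ EF.Near ε S := by
  have hq : (0 : ℝ) < (1 / 4) ^ m := by positivity
  refine ⟨(1 / 4) ^ m / 2, by positivity, fun S hS ⟨e, h1, h2⟩ => ?_⟩
  have h3 : ∀ z, e z ∈ S → z ∈ stdS m := fun z hz => by
    obtain ⟨z', h4, h5⟩ := h1 hz
    rwa [← e.injective h5]
  have h4 := wgap_symm hm (S := e ⁻¹' S) h3 (e.symm 0) fun z hz => by
    obtain ⟨z', h5, h6⟩ := h1 (hS _ hz)
    refine ⟨z', h5, fun i => ?_⟩
    have h7 : e.symm 0 = midpoint ℝ z z' := by
      rw [AffineEquiv.symm_apply_eq, AffineEquiv.map_midpoint, h6, midpoint_self_neg]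
    rw [h7, midpoint_eq_smul_add]
    simp
  rw [← image_preimage_eq S e.surjective, toReal_image_affine, toReal_image_affine] at h2
  have h5 := det_linear_pos e
  have h6 := toReal_stdS_pos (n := m)
  have h7 := mul_le_mul_of_nonneg_left h4 h5.le
  have h8 := mul_pos hq (mul_pos h5 h6)
  nlinarith

theorem gap_unc (hm : 2 ≤ m) : ∃ c : ℝ, 0 < c ∧ ∀ S : Set (E m), Body S →
    (∀ y ∈ S, ∀ j, update y j (-y j) ∈ S) →
    ENNReal.ofReal (1 + c) * mahlerInf (cS m 1) ≤ mahlerInf S := by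
  obtain ⟨ε, hε, h1⟩ := not_near_symm hm
  obtain ⟨c, hc, h2⟩ := AB.far_gen m hε
  refine ⟨c, hc, fun S hB hS => ?_⟩
  have h3 : ABGen S := ABGen.lab S hB.conv hB.comp hB.int fun y hy j => by
    have h4 := hB.conv hy (hS y hy j) (a := 1 / 2) (b := 1 / 2) (by norm_num) (by norm_num)
      (by norm_num)
    convert h4 using 1
    funext i
    by_cases hi : i = j
    · subst hi
      simp
    · simp only [update_of_ne hi, Pi.add_apply, Pi.smul_apply, smul_eq_mul]
      ring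
  have h4 : mstarInf S ≤ mahlerInf S := (iInf_le _ 0).trans (by simp)
  exact (not_lt.1 fun h => h1 S (fun y hy => neg_mem_of_unc hS hy) ((h2 S h3).2 hB.int h)).trans h4

end Pool.Agent.MP_5f4cdd_gt.W

end
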