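import Pool.Agent.Mg.F5f4cdd.G0dfe30
import Pool.Agent.Mg.F5f4cdd.G9b7d44
import Pool.Agent.MP_5f4cdd_gt.RClass

section

set_option autoImplicit false
open MeasureTheory ENNReal Set Function Filter Topology Pointwise

namespace Pool.Agent.MP_5f4cdd_gt.W

open PL EF AB

variable {n k m : ℕ}

lemma rfub_vol (e : Fin k ⊕ Fin m ≃ Fin n) {K : Set (E n)} (cK : IsCompact K) :
    Measurable (fun v : E m => volume {u | wpf_j e (u, v) ∈ K}) ∧
      ∫⁻ v : E m, volume {u | wpf_j e (u, v) ∈ K} = volume K := by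
  have hm := (wpf_mp e).measurable cK.measurableSet
  refine ⟨measurable_measure_prodMk_right hm, ?_⟩
  rw [← (wpf_mp e).measure_preimage cK.measurableSet.nullMeasurableSet,
    Measure.prod_apply_symm hm]
  rfl

lemma rfub_exp (e : Fin k ⊕ Fin m ≃ Fin n) {K : Set (E n)} (cK : IsCompact K) (a : E k) :
    Measurable (fun ζ : E m => ∫⁻ ξ, expS (shift e a K) (wpf_j e (ξ, ζ))) ∧
      ∫⁻ ζ : E m, ∫⁻ ξ, expS (shift e a K) (wpf_j e (ξ, ζ)) = ∫⁻ y, expS (shift e a K) y := by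
  have hm : Measurable (expS (shift e a K)) :=
    measurable_expS (isBounded_image_sub cK.isBounded fun i => Sum.elim a 0 (e.symm i))
  have h2 := hm.comp (wpf_mp e).measurable
  refine ⟨h2.lintegral_prod_left', ?_⟩
  rw [← (wpf_mp e).lintegral_comp hm]
  exact (lintegral_prod_symm _ h2.aemeasurable).symm

lemma rfub_le (e : Fin k ⊕ Fin m ≃ Fin n) {K : Set (E n)} (cK : IsCompact K) (hn : K.Nonempty)
    (a ξ : E k) {ζ ζ' : E m}
    (h : ∀ u, ∀ v ∈ fibr e K u, ∃ v' ∈ fibr e K u, v ⬝ᵥ ζ = v' ⬝ᵥ ζ') :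
    suppF (shift e a K) (wpf_j e (ξ, ζ)) ≤ suppF (shift e a K) (wpf_j e (ξ, ζ')) := by
  refine suppF_le (hn.image _) ?_
  rintro _ ⟨x, hx, rfl⟩
  obtain ⟨⟨u, v⟩, rfl⟩ := wpf_surj e x
  obtain ⟨v', hv', hd⟩ := h u v hx
  have h1 := dot_le_suppF (isBounded_image_sub cK.isBounded fun i => Sum.elim a 0 (e.symm i))
    ⟨_, hv', rfl⟩ (wpf_j e (ξ, ζ'))
  simp only [wpf_dot] at h1 ⊢
  rw [hd]
  exact h1

lemma rfub_eq (e : Fin k ⊕ Fin m ≃ Fin n) {K : Set (E n)} (cK : IsCompact K) (hn : K.Nonempty)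
    (a : E k) {ζ ζ' : E m}
    (h : ∀ u, ∀ v ∈ fibr e K u, ∃ v' ∈ fibr e K u, v ⬝ᵥ ζ = v' ⬝ᵥ ζ')
    (h' : ∀ u, ∀ v ∈ fibr e K u, ∃ v' ∈ fibr e K u, v ⬝ᵥ ζ' = v' ⬝ᵥ ζ) :
    ∫⁻ ξ, expS (shift e a K) (wpf_j e (ξ, ζ)) = ∫⁻ ξ, expS (shift e a K) (wpf_j e (ξ, ζ')) := by
  refine lintegral_congr fun ξ => ?_
  rw [expS, expS, le_antisymm (rfub_le e cK hn a ξ h) (rfub_le e cK hn a ξ h')]

lemma rfub_flip (z : E m) (i : Fin m) :
    update (update z i (-z i)) i (-(update z i (-z i)) i) = z := by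
  simp

lemma rfub_flip_dot (v z : E m) (i : Fin m) :
    update v i (-v i) ⬝ᵥ update z i (-z i) = v ⬝ᵥ z := by
  refine Finset.sum_congr rfl fun j _ => ?_
  by_cases hj : j = i
  · subst hj
    simp
  · simp [hj]

lemma rfub_perm_dot (σ : Equiv.Perm (Fin m)) (v z : E m) : (v ∘ σ) ⬝ᵥ (z ∘ σ) = v ⬝ᵥ z :=
  Equiv.sum_comp σ fun i => v i * z i

lemma rfub_perm_inv (σ : Equiv.Perm (Fin m)) (v : E m) : (v ∘ σ) ∘ σ.symm = v := by
  ext i
  simp

theorem vol_T (e : Fin k ⊕ Fin m ≃ Fin n) {K : Set (E n)} (cK : IsCompact K)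
    (h : ∀ u, TInv (fibr e K u)) :
    (m.factorial : ℝ≥0∞) * ∫⁻ r in orth m, volume {u | wpf_j e (u, comb (om m) r) ∈ K} ≤
      volume K := by
  obtain ⟨h1, h2⟩ := rfub_vol e cK
  rw [← h2]
  refine cham_A h1 fun σ z => ?_
  congr 1
  ext u
  refine ⟨fun hu => ?_, fun hu => h u σ z hu⟩
  have := h u σ⁻¹ _ hu
  rwa [Tp_Tp, mul_inv_cancel, Tp_one] at this

theorem exp_T (e : Fin k ⊕ Fin m ≃ Fin n) {K : Set (E n)} (cK : IsCompact K) (hn : K.Nonempty)
    (h : ∀ u, TInv (fibr e K u)) (a : E k) :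
    ((m + 1).factorial : ℝ≥0∞) * ∫⁻ r in orth m, ∫⁻ ξ, expS (shift e a K)
      (wpf_j e (ξ, comb (fun j => Gam m (om m j)) r)) ≤ ∫⁻ y, expS (shift e a K) y := by
  obtain ⟨h1, h2⟩ := rfub_exp e cK a
  rw [← h2]
  refine cham_A' h1 fun σ z => rfub_eq e cK hn a (fun u v hv => ?_) fun u v hv => ?_
  · refine ⟨_, h u σ⁻¹ v hv, ?_⟩
    rw [← dot_Gam_Tp σ (Tp σ⁻¹ v) z, Tp_Tp, inv_mul_cancel, Tp_one]
  · exact ⟨_, h u σ v hv, (dot_Gam_Tp σ v z).symm⟩

theorem vol_S (e : Fin k ⊕ Fin m ≃ Fin n) {K : Set (E n)} (cK : IsCompact K)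
    (h : ∀ u, SInv (fibr e K u)) :
    (2 ^ m * m.factorial : ℝ≥0∞) * ∫⁻ r in orth m,
      volume {u | wpf_j e (u, comb (omB m) r) ∈ K} ≤ volume K := by
  obtain ⟨h1, h2⟩ := rfub_vol e cK
  rw [← h2]
  refine cham_B h1 (fun z i => ?_) fun σ z => ?_
  · congr 1
    ext u
    refine ⟨fun hu => ?_, fun hu => (h u).1 z hu i⟩
    have := (h u).1 _ hu i
    rwa [rfub_flip] at this
  · congr 1
    ext u
    refine ⟨fun hu => ?_, fun hu => (h u).2 σ z hu⟩
    have := (h u).2 σ.symm _ hu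
    rwa [rfub_perm_inv] at this

theorem exp_S (e : Fin k ⊕ Fin m ≃ Fin n) {K : Set (E n)} (cK : IsCompact K) (hn : K.Nonempty)
    (h : ∀ u, SInv (fibr e K u)) (a : E k) :
    (2 ^ m * m.factorial : ℝ≥0∞) * ∫⁻ r in orth m, ∫⁻ ξ, expS (shift e a K)
      (wpf_j e (ξ, comb (omB m) r)) ≤ ∫⁻ y, expS (shift e a K) y := by
  obtain ⟨h1, h2⟩ := rfub_exp e cK a
  rw [← h2]
  refine cham_B h1 (fun z i => rfub_eq e cK hn a (fun u v hv => ?_) fun u v hv => ?_)
    fun σ z => rfub_eq e cK hn a (fun u v hv => ?_) fun u v hv => ?_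
  · refine ⟨_, (h u).1 v hv i, ?_⟩
    rw [← rfub_flip_dot v _ i, rfub_flip]
  · exact ⟨_, (h u).1 v hv i, (rfub_flip_dot v z i).symm⟩
  · refine ⟨_, (h u).2 σ.symm v hv, ?_⟩
    rw [← rfub_perm_dot σ.symm v, rfub_perm_inv]
  · exact ⟨_, (h u).2 σ v hv, (rfub_perm_dot σ v z).symm⟩

end Pool.Agent.MP_5f4cdd_gt.W

end

section

set_option autoImplicit false
open MeasureTheory ENNReal Set Function Filter Topology Pointwise

namespace Pool.Agent.MP_5f4cdd_gt.W

open PL EF AB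

variable {n k m : ℕ}

lemma rpq_polar : mahlerInf (cS m 1) =
    (m.factorial : ℝ≥0∞) * (volume (cS m 1) * volume (polarS (cS m 1))) :=
  EF.mahlerInf_polar (isCompact_cS zero_le_one).isBounded
    (interior_subset (zero_mem_interior_cS one_pos))

lemma rpq_const : volume (cS m 1) * volume (polarS (cS m 1)) * ENNReal.ofReal (∏ j, cA m j) ≤
    ((m + 1 : ℕ) : ℝ≥0∞) := by
  have h1 := AB.mahlerInf_cS_le (n := m)
  have h2 := (mahlerInf_cS_lt_top (n := m)).ne
  rw [rpq_polar] at h1 h2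
  have h3 : volume (cS m 1) * volume (polarS (cS m 1)) ≠ ∞ := fun h => h2 (by
    rw [h, ENNReal.mul_top (Nat.cast_ne_zero.2 m.factorial_ne_zero)])
  rw [ENNReal.toReal_mul, ENNReal.toReal_natCast] at h1
  rw [← ENNReal.ofReal_toReal h3, ← ENNReal.ofReal_mul ENNReal.toReal_nonneg,
    ← ENNReal.ofReal_natCast, prod_cA]
  refine ENNReal.ofReal_le_ofReal ?_
  rw [← mul_div_assoc, div_le_iff₀ (by positivity)]
  push_cast
  rw [pow_succ] at h1
  linarith

lemma rpq_step {x : ℕ} (hx : 3 ≤ x) : ((x : ℝ) + 1) ^ (x + 1) ≤ 4 * (x : ℝ) ^ (x + 1) := by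
  have h0 : (3 : ℝ) ≤ x := by exact_mod_cast hx
  have h1 : (0 : ℝ) < x := by linarith
  have h2 : (x : ℝ) + 1 ≤ x * Real.exp (1 / x) := by
    have h := mul_le_mul_of_nonneg_left (Real.add_one_le_exp (1 / (x : ℝ))) h1.le
    rw [mul_add, mul_one_div_cancel h1.ne'] at h
    linarith
  have h3 : ((x : ℝ) + 1) ^ x ≤ (x : ℝ) ^ x * 3 := by
    refine (pow_le_pow_left₀ (by positivity) h2 x).trans ?_
    rw [mul_pow, ← Real.exp_nat_mul, mul_one_div_cancel h1.ne']
    exact mul_le_mul_of_nonneg_left (by linarith [Real.exp_one_lt_d9]) (by positivity)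
  have h4 : (0 : ℝ) ≤ (x : ℝ) ^ x := by positivity
  have h5 := mul_le_mul_of_nonneg_right h3 (show (0 : ℝ) ≤ x + 1 by linarith)
  have h6 := mul_le_mul_of_nonneg_left h0 h4
  rw [pow_succ, pow_succ]
  linarith

lemma rpq_num {M : ℕ} (hM : 2 ≤ M) : ((M : ℝ) + 1) ^ (M + 1) < 4 ^ M * M.factorial := by
  induction M, hM using Nat.le_induction with
  | base => norm_num
  | succ M hM ih =>
    have h1 := rpq_step (x := M + 1) (by omega)
    have h2 := mul_lt_mul_of_pos_left ih (show (0 : ℝ) < 4 * (M + 1) by positivity)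
    rw [Nat.factorial_succ]
    push_cast at h1 ⊢
    refine h1.trans_lt (lt_of_eq_of_lt ?_ (h2.trans_eq ?_))
    · ring
    · ring

theorem pq_T (e : Fin k ⊕ Fin (m + 1) ≃ Fin n) {K : Set (E n)} (hK : Body K)
    (h : ∀ u, TInv (fibr e K u))
    (hW : ∀ j, IsCompact (Wg e K (om (m + 1) j) (cS (m + 1) 1))) (a : E k) :
    ∏ j, volume (Wg e K (om (m + 1) j) (cS (m + 1) 1)) ≤
      (volume K * volume (cS (m + 1) 1)) ^ (m + 1) ∧
    (∏ j, ∫⁻ y, expS (shift e a (Wg e K (om (m + 1) j) (cS (m + 1) 1))) y) *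
      volume (cS (m + 1) 1) ^ (m + 1) ≤ (∫⁻ y, expS (shift e a K) y) ^ (m + 1) := by
  have h0 : ∀ u v, wpf_j e (u, v) ∈ K → wpf_j e (u, 0) ∈ K := fun u v hv =>
    zero_mem_T (convex_fibr e hK.conv u) (h u) (v := v) hv
  refine ⟨(core_P e hK _ om_ne h0 (isCompact_cS zero_le_one) hW).trans ?_, ?_⟩
  · exact pow_le_pow_left' (mul_le_mul_left (vol_T e hK.comp h) _) _
  have h1 := core_Q e hK (om (m + 1)) (fun j => Gam (m + 1) (om (m + 1) j)) (cA (m + 1)) cA_pos
    om_dot_self h0 (fun j u v hv => proj_mem_T (convex_fibr e hK.conv u) (h u) (v := v) hv j)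
    (isCompact_cS zero_le_one) (zero_mem_interior_cS one_pos) hW a
  refine (mul_le_mul_left h1 _).trans ?_
  rw [← mul_pow]
  refine pow_le_pow_left' (le_trans ?_ (exp_T e hK.comp (hK.int.mono interior_subset) h a)) _
  have h2 := mul_le_mul_right (rpq_const (m := m + 1)) (((m + 1).factorial : ℝ≥0∞) *
    ∫⁻ r in orth (m + 1), ∫⁻ ξ, expS (shift e a K)
      (wpf_j e (ξ, comb (fun j => Gam (m + 1) (om (m + 1) j)) r)))
  refine le_trans (le_of_eq ?_) (h2.trans (le_of_eq ?_))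
  · ring
  · rw [Nat.factorial_succ (m + 1), Nat.cast_mul]
    ring

theorem pq_S (e : Fin k ⊕ Fin (m + 1) ≃ Fin n) {K : Set (E n)} (hK : Body K)
    (h : ∀ u, SInv (fibr e K u))
    (hW : ∀ j, IsCompact (Wg e K (omB (m + 1) j) (cS (m + 1) 1))) (a : E k) :
    (∏ j, mahlerInf (shift e a (Wg e K (omB (m + 1) j) (cS (m + 1) 1)))) *
      (4 ^ (m + 1)) ^ (m + 1) ≤
      (mahlerInf (shift e a K) * mahlerInf (cS (m + 1) 1)) ^ (m + 1) := by
  have h0 : ∀ u v, wpf_j e (u, v) ∈ K → wpf_j e (u, 0) ∈ K := fun u v hv =>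
    zero_mem_S (convex_fibr e hK.conv u) (h u) (v := v) hv
  have h1 := core_P e hK _ omB_ne h0 (isCompact_cS zero_le_one) hW
  have h2 := core_Q e hK (omB (m + 1)) (omB (m + 1)) (fun j => ((j : ℕ) + 1 : ℝ))
    (fun j => by positivity) omB_dot_self h0
    (fun j u v hv => proj_mem_S (convex_fibr e hK.conv u) (h u) (v := v) hv j)
    (isCompact_cS zero_le_one) (zero_mem_interior_cS one_pos) hW a
  have h3 := mul_le_mul' (vol_S e hK.comp h) (exp_S e hK.comp (hK.int.mono interior_subset) h a)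
  have h4 : ∀ L : Set (E n), mahlerInf (shift e a L) = volume L * ∫⁻ y, expS (shift e a L) y :=
    fun L => by rw [PL.mahlerInf_eq, shift, volume_sub]
  rw [prod_cB, ENNReal.ofReal_natCast] at h2
  simp only [h4]
  rw [Finset.prod_mul_distrib]
  refine (mul_le_mul_left (mul_le_mul' h1 h2) _).trans ?_
  rw [← mul_pow, ← mul_pow]
  refine pow_le_pow_left' (le_trans (le_of_eq ?_) (mul_le_mul_left h3 _)) _
  rw [rpq_polar, show (4 : ℝ≥0∞) = 2 * 2 by norm_num, mul_pow]
  ring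

theorem mahler_cS_lt (hm : 1 ≤ m) : mahlerInf (cS (m + 1) 1) < 4 ^ (m + 1) := by
  have h1 := (AB.mahlerInf_cS_le (n := m + 1)).trans_lt (rpq_num (by omega))
  rw [mul_comm] at h1
  have h2 := lt_of_mul_lt_mul_right h1 (Nat.cast_nonneg _)
  rw [← ENNReal.toReal_lt_toReal mahlerInf_cS_lt_top.ne (by finiteness)]
  simpa using h2

end Pool.Agent.MP_5f4cdd_gt.W

end

section

set_option autoImplicit false
open MeasureTheory ENNReal Set Function Filter Topology Pointwise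

namespace Pool.Agent.MP_5f4cdd_gt.W

open PL EF AB

variable {n : ℕ} {ι κ : Type} {g : Fin n → Fin 3} {x : ι → E 3} {y : κ → E 3}

theorem wrec_LX_sub (x : ι → E 3) (y : κ → E 3) (m : Fin 3 → κ) (ρ : Fin 3 → ℝ) {c : E 3}
    (hc : ∀ j, 0 < 1 - y j ⬝ᵥ c) :
    LX g (fun i => x i - c) (fun j => (1 - y j ⬝ᵥ c)⁻¹ • y j) m
      (fun j => ρ j * (1 - y (m j) ⬝ᵥ c)) = fun p => LX g x y m ρ p - up g c := by
  funext p
  have h : ∀ j, ρ j * (1 - y (m j) ⬝ᵥ c) *
      (1 - ((1 - y (m j) ⬝ᵥ c)⁻¹ • y (m j)) ⬝ᵥ (x p.1 - c)) = ρ j * (1 - y (m j) ⬝ᵥ x p.1) := by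
    intro j
    have := (hc (m j)).ne'
    rw [smul_dotProduct, dotProduct_sub, smul_eq_mul]
    field_simp
    ring
  simp only [LX, LXc, h, map_sub]
  abel

theorem exists_centred [Finite ι] [Finite κ] (hg : Surjective g) (h : DualPair x y)
    (m : Fin 3 → κ) {ρ : Fin 3 → ℝ} (hρ : ∀ j, 0 < ρ j) {μ : ℝ≥0∞}
    (hM : mstarInf (convexHull ℝ (range (LX g x y m ρ))) < μ) :
    ∃ (x' : ι → E 3) (y' : κ → E 3) (ρ' : Fin 3 → ℝ) (c : E n), DualPair x' y' ∧
      (∀ j, 0 < ρ' j) ∧ nInc x y ≤ nInc x' y' ∧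
      (∀ i, x' i ∈ (convexHull ℝ (range x')).extremePoints ℝ) ∧
      convexHull ℝ (range (LX g x' y' m ρ')) =
        (fun z => z - c) '' convexHull ℝ (range (LX g x y m ρ)) ∧
      mahlerInf (convexHull ℝ (range (LX g x' y' m ρ'))) < μ := by
  have hd := dualPair_lift hg h m hρ
  obtain ⟨c, hc, hμ⟩ := centre_LXc hg x _ ⟨0, hd.zero_mem_interior⟩ hM
  obtain ⟨hpos, h1, hinc⟩ := recentre0 h hc
  have hρ1 : ∀ j, 0 < ρ j * (1 - y (m j) ⬝ᵥ c) := fun j => mul_pos (hρ j) (hpos _)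
  obtain ⟨r, r1, r2, r3⟩ := exists_extreme_repr h1.dot_le
  have h2 := h1.of_hull_eq r2
  have e1 := (dualPair_lift hg h2 m hρ1).1.trans (dualPair_lift hg h1 m hρ1).1.symm
  rw [wrec_LX_sub x y m ρ hpos, Pool.Agent.MP_5f4cdd_gt.hull_sub] at e1
  refine ⟨_, _, _, up g c, h2, hρ1, ?_, fun i => r2 ▸ r1 i, e1, ?_⟩
  · rw [hinc]
    unfold nInc
    refine Set.ncard_le_ncard (fun p hp => ?_)
    have := r3 p.1 p.2 (by rw [dotProduct_comm]; exact hp)
    rw [dotProduct_comm] at this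
    exact this
  · rw [e1]
    exact hμ

end Pool.Agent.MP_5f4cdd_gt.W

end

section

set_option autoImplicit false
open MeasureTheory ENNReal Set Function Filter Topology Pointwise

namespace Pool.Agent.MP_5f4cdd_gt.W

open PL EF AB

variable {n : ℕ} {ι κ : Type} {g : Fin n → Fin 3} {x : ι → E 3} {y : κ → E 3}

/-- the base facet under a lifted facet -/
def wprimM (g : Fin n → Fin 3) (m : Fin 3 → κ) : κ ⊕ Fin n → κ := Sum.elim id fun k => m (g k)

lemma wprim_Y_dot_up (hg : Surjective g) (y : κ → E 3) (m : Fin 3 → κ) (ρ : Fin 3 → ℝ)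
    (J : κ ⊕ Fin n) (θ : E 3) : LY g y m ρ J ⬝ᵥ up g θ = y (wprimM g m J) ⬝ᵥ θ := by
  cases J with
  | inl j => exact pb_dot_up hg _ _
  | inr k =>
    simp only [LY, Sum.elim_inr, wprimM, sub_dotProduct, smul_dotProduct, dv_dot_up,
      pb_dot_up hg, smul_zero, sub_zero]

lemma wprim_dichotomy (hg : Blk g) (x : ι → E 3) (y : κ → E 3) (m : Fin 3 → κ) {ρ : Fin 3 → ℝ}
    (hρ : ∀ j, 0 < ρ j) {θ : E 3} (h1 : y (m 1) ⬝ᵥ θ = 0) (h2 : y (m 2) ⬝ᵥ θ = 0)
    (J : κ ⊕ Fin n) (p : ι × Sec g) :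
    LY g y m ρ J ⬝ᵥ LX g x y m ρ p = y (wprimM g m J) ⬝ᵥ x p.1 ∨ y (wprimM g m J) ⬝ᵥ θ = 0 := by
  cases J with
  | inl j => exact Or.inl (LY_inl_dot_LX hg.surj _ _ _ _ _ _)
  | inr k =>
    have hk : g k = 0 ∨ g k = 1 ∨ g k = 2 := by
      generalize g k = j
      fin_cases j <;> simp
    rcases hk with hk | hk | hk
    · left
      have e : (p.2 (g k) : Fin n) = k := hg.one _ _ ((p.2 (g k)).2.trans hk) hk
      have e2 : bN g (g k) = 1 := by rw [hk, hg.bN_zero]
      rw [LY_inr_dot_LX hg.surj _ _ _ hρ, if_pos e, e2]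
      simp [wprimM]
    · right
      simpa [wprimM, hk] using h1
    · right
      simpa [wprimM, hk] using h2

lemma wprim_adm [Finite ι] [Finite κ] (hg : Blk g) (h : DualPair x y) (m : Fin 3 → κ)
    {ρ : Fin 3 → ℝ} (hρ : ∀ j, 0 < ρ j) {θ : E 3} (h1 : y (m 1) ⬝ᵥ θ = 0)
    (h2 : y (m 2) ⬝ᵥ θ = 0) {a : ι → ℝ} {w : κ → E 3} {γ : κ → ℝ} (hA : Adm x y θ a w γ) :
    Adm (LX g x y m ρ) (LY g y m ρ) (up g θ) (fun p => a p.1)
      (fun J => pb g (w (wprimM g m J))) (fun J => γ (wprimM g m J)) where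
  hP := (dualPair_lift hg.surj h m hρ).1
  hθ := fun h0 => hA.hθ (by rw [← bs_up hg.surj θ, h0, map_zero])
  hw := fun J => by rw [pb_dot_up hg.surj, hA.hw]
  hinc := fun p J hpJ => by
    rw [wprim_Y_dot_up hg.surj, LX, pb_dot_LXc hg.surj]
    rcases wprim_dichotomy hg x y m hρ h1 h2 J p with e | e
    · exact hA.hinc _ _ (e.symm.trans hpJ)
    · rw [e, (hA.hpar _ e).1, (hA.hpar _ e).2]
      simp
  hpar := fun J hJ => by
    rw [wprim_Y_dot_up hg.surj] at hJ
    exact ⟨by rw [(hA.hpar _ hJ).1, map_zero], (hA.hpar _ hJ).2⟩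

lemma wprim_good [Finite ι] [Finite κ] (hg : Blk g) (h : DualPair x y) (m : Fin 3 → κ)
    {ρ : Fin 3 → ℝ} (hρ : ∀ j, 0 < ρ j) {θ : E 3} (h1 : y (m 1) ⬝ᵥ θ = 0)
    (h2 : y (m 2) ⬝ᵥ θ = 0) {a : ι → ℝ} {w : κ → E 3} {γ : κ → ℝ} (hA : Adm x y θ a w γ)
    {t : ℝ} (ht : t ∈ goodT x y θ a w γ) :
    t ∈ goodT (LX g x y m ρ) (LY g y m ρ) (up g θ) (fun p => a p.1)
      (fun J => pb g (w (wprimM g m J))) (fun J => γ (wprimM g m J)) := by
  intro p J
  have hB := wprim_adm hg h m hρ h1 h2 hA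
  have e1 := hB.slack t p J
  have e2 := hA.slack t p.1 (wprimM g m J)
  have e3 := ht p.1 (wprimM g m J)
  have e4 := hB.dot_le p J
  have e5 : pb g (w (wprimM g m J)) ⬝ᵥ LX g x y m ρ p = w (wprimM g m J) ⬝ᵥ x p.1 :=
    pb_dot_LXc hg.surj _ _ _ _
  rw [wprim_Y_dot_up hg.surj, e5] at e1
  rcases wprim_dichotomy hg x y m hρ h1 h2 J p with e | e
  · rw [e] at e1
    linarith
  · have e6 : γ (wprimM g m J) + w (wprimM g m J) ⬝ᵥ x p.1
        - a p.1 * (y (wprimM g m J) ⬝ᵥ θ) = 0 := by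
      rw [e, (hA.hpar _ e).1, (hA.hpar _ e).2]
      simp
    rw [e6] at e1
    linarith

lemma wprim_not_triv (hg : Surjective g) (y : κ → E 3) (m : Fin 3 → κ) (ρ : Fin 3 → ℝ)
    {a : ι → ℝ} (ha : ¬ TrivSpeed x a) : ¬ TrivSpeed (LX g x y m ρ) (fun p => a p.1) := by
  rintro ⟨U, c, hU⟩
  obtain ⟨φ⟩ := nonempty_sec hg
  obtain ⟨u, hu⟩ : ∃ u : E 3, ∀ z, U ⬝ᵥ up g z = u ⬝ᵥ z := by
    refine ⟨fun j => bs g U j / bN g j, fun z => ?_⟩
    rw [dotProduct_comm, up_eq_pb, pb_dot]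
    simp only [dotProduct]
    exact Finset.sum_congr rfl fun j _ => by ring
  refine ha ⟨u - ∑ j, (ρ j * bN g j * (U ⬝ᵥ dv g (φ j))) • y (m j),
    c + ∑ j, ρ j * bN g j * (U ⬝ᵥ dv g (φ j)), fun i => ?_⟩
  have := hU (i, φ)
  simp only [LX, LXc, dotProduct_add, dotProduct_smul, smul_eq_mul, hu,
    Fin.sum_univ_three] at this
  simp only [sub_dotProduct, add_dotProduct, smul_dotProduct, smul_eq_mul, Fin.sum_univ_three]
  rw [this]
  ring

lemma wprim_LX_eq (hg : Blk g) (m : Fin 3 → κ) (ρ : Fin 3 → ℝ) {θ : E 3}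
    (h1 : y (m 1) ⬝ᵥ θ = 0) (h2 : y (m 2) ⬝ᵥ θ = 0) {a : ι → ℝ} {w : κ → E 3} {γ : κ → ℝ}
    (hA : Adm x y θ a w γ) {T : ℝ} {c : E 3}
    (hpos : ∀ j, 0 < 1 + T * γ j - (y j - T • w j) ⬝ᵥ c) :
    LX g (fun i => shadowPts x a θ T i - c)
      (fun j => (1 + T * γ j - (y j - T • w j) ⬝ᵥ c)⁻¹ • (y j - T • w j)) m
      (fun j => ρ j * (1 + T * γ (m j) - (y (m j) - T • w (m j)) ⬝ᵥ c)) =
      fun p => shadowPts (LX g x y m ρ) (fun p => a p.1) (up g θ) T p - up g c := by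
  funext p
  have key : ∀ j, y (m j) ⬝ᵥ θ = 0 →
      ρ j * (1 + T * γ (m j) - (y (m j) - T • w (m j)) ⬝ᵥ c) *
        (1 - ((1 + T * γ (m j) - (y (m j) - T • w (m j)) ⬝ᵥ c)⁻¹ • (y (m j) - T • w (m j))) ⬝ᵥ
          (shadowPts x a θ T p.1 - c)) = ρ j * (1 - y (m j) ⬝ᵥ x p.1) := by
    intro j hj
    have hp := (hpos (m j)).ne'
    rw [smul_dotProduct, smul_eq_mul, mul_assoc, mul_sub, mul_inv_cancel_left₀ hp]
    rw [(hA.hpar _ hj).1, (hA.hpar _ hj).2]
    simp only [shadowPts, smul_zero, sub_zero, dotProduct_sub, dotProduct_add, dotProduct_smul,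
      hj]
    ring
  have e0 : dv g (p.2 0 : Fin n) = 0 := hg.dv_zero (p.2 0).2
  simp only [LX, LXc, Fin.sum_univ_three, e0, smul_zero, key 1 h1, key 2 h2]
  simp only [shadowPts, map_sub, map_add, map_smul, LXc, Fin.sum_univ_three, e0, smul_zero]
  abel

theorem prim_step {ε ε' : ℝ} {μ : ℝ≥0∞} (hεε' : ε < ε') (hε' : ε' < 1) (moat : Moat n ε ε' μ)
    [Finite ι] [Finite κ] (hg : Blk g) (h : DualPair x y) (m : Fin 3 → κ) {ρ : Fin 3 → ℝ}
    (hρ : ∀ j, 0 < ρ j) {θ : E 3} (h1 : y (m 1) ⬝ᵥ θ = 0) (h2 : y (m 2) ⬝ᵥ θ = 0)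
    (hf : Flow x y θ) (hM : mstarInf (convexHull ℝ (range (LX g x y m ρ))) < μ)
    (hN : ¬ EF.Near ε' (convexHull ℝ (range (LX g x y m ρ)))) :
    ∃ (x' : ι → E 3) (y' : κ → E 3) (ρ' : Fin 3 → ℝ), DualPair x' y' ∧ (∀ j, 0 < ρ' j) ∧
      nInc x y < nInc x' y' ∧ mstarInf (convexHull ℝ (range (LX g x' y' m ρ'))) < μ ∧
      ¬ EF.Near ε' (convexHull ℝ (range (LX g x' y' m ρ'))) := by
  obtain ⟨a, w, γ, δ, τ, hA, ha, hδ, hτ, hgood, hnew⟩ := hf
  have hι : Nonempty ι := h.nonempty_left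
  have hκ : Nonempty κ := h.symm.nonempty_left
  have hS : Nonempty (Sec g) := nonempty_sec hg.surj
  have hB := wprim_adm hg h m hρ h1 h2 hA
  have hnt := wprim_not_triv hg.surj y m ρ ha
  obtain ⟨α, β, hV⟩ := vol_affine hB hδ hτ fun t ht =>
    wprim_good hg h m hρ h1 h2 hA (hgood t ht)
  obtain ⟨T, hT, hM1, hN1⟩ := stepS hεε' hε' moat (LX g x y m ρ) (fun p => a p.1) hB.hθ hδ hτ hV
    (fun t _ => interior_shadow_nonempty
      ⟨0, (dualPair_lift hg.surj h m hρ).zero_mem_interior⟩ hnt _ t) hM hN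
  have hTI : T ∈ Icc (-δ) τ := by
    rcases hT with rfl | rfl
    · exact ⟨by linarith, le_rfl⟩
    · exact ⟨le_rfl, by linarith⟩
  obtain ⟨c, hc⟩ := interior_shadow_nonempty ⟨0, h.zero_mem_interior⟩ ha θ T
  obtain ⟨hpos, hD⟩ := recentre hA hδ hτ hgood hTI hc
  have hE := wprim_LX_eq hg m ρ h1 h2 hA hpos
  refine ⟨_, _, fun j => ρ j * (1 + T * γ (m j) - (y (m j) - T • w (m j)) ⬝ᵥ c), hD,
    fun j => mul_pos (hρ j) (hpos _), nInc_lt hA hpos (hnew T hT), ?_, ?_⟩
  · rw [hE, Pool.Agent.MP_5f4cdd_gt.hull_sub, mstarInf_sub]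
    exact hM1
  · rw [hE, Pool.Agent.MP_5f4cdd_gt.hull_sub, EF.near_sub_iff hε']
    exact hN1

end Pool.Agent.MP_5f4cdd_gt.W

end

section

set_option autoImplicit false
open MeasureTheory ENNReal Set Function Filter Topology Pointwise

namespace Pool.Agent.MP_5f4cdd_gt.W

open PL EF AB

variable {n : ℕ} {ι κ : Type} {g : Fin n → Fin 3} {x : ι → E 3} {y : κ → E 3}

/-- the slope of the slack downstairs -/
def wdual_sig (x : ι → E 3) (y : κ → E 3) (η : E 3) (b : κ → ℝ) (w : ι → E 3) (γ : ι → ℝ)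
    (i : ι) (j : κ) : ℝ := γ i + w i ⬝ᵥ y j - b j * (x i ⬝ᵥ η)

/-- the lifted speeds -/
def wdual_bb (g : Fin n → Fin 3) (b : κ → ℝ) (m : Fin 3 → κ) : κ ⊕ Fin n → ℝ :=
  Sum.elim b fun k => b (m (g k))

/-- the lifted tilts -/
noncomputable def wdual_W (g : Fin n → Fin 3) (x : ι → E 3) (y : κ → E 3) (η : E 3) (b : κ → ℝ)
    (w : ι → E 3) (γ : ι → ℝ) (m : Fin 3 → κ) (ρ : Fin 3 → ℝ) : ι × Sec g → E n :=
  LXc g w fun i j => -(ρ j * wdual_sig x y η b w γ i (m j))

lemma wdual_LX_pb (hg : Surjective g) (m : Fin 3 → κ) (ρ : Fin 3 → ℝ) (η : E 3)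
    (p : ι × Sec g) : LX g x y m ρ p ⬝ᵥ pb g η = x p.1 ⬝ᵥ η := by
  rw [dotProduct_comm, LX, pb_dot_LXc hg, dotProduct_comm]

lemma wdual_key (hg : Surjective g) (m : Fin 3 → κ) {ρ : Fin 3 → ℝ} (hρ : ∀ j, 0 < ρ j)
    (η : E 3) (b : κ → ℝ) (w : ι → E 3) (γ : ι → ℝ) (J : κ ⊕ Fin n) (p : ι × Sec g) :
    ∃ (N : ℝ) (j : κ), 0 ≤ N ∧
      1 - LX g x y m ρ p ⬝ᵥ LY g y m ρ J = N * (1 - x p.1 ⬝ᵥ y j) ∧
      γ p.1 + wdual_W g x y η b w γ m ρ p ⬝ᵥ LY g y m ρ J -
        wdual_bb g b m J * (LX g x y m ρ p ⬝ᵥ pb g η) = N * wdual_sig x y η b w γ p.1 j := by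
  rcases J with j | k
  · refine ⟨1, j, zero_le_one, ?_, ?_⟩
    · rw [dotProduct_comm, LY_inl_dot_LX hg, dotProduct_comm, one_mul]
    · rw [wdual_LX_pb hg, dotProduct_comm (wdual_W g x y η b w γ m ρ p), LY_inl_dot, wdual_W,
        bs_LXc hg, one_mul, wdual_sig, dotProduct_comm (y j)]
      rfl
  · refine ⟨if (p.2 (g k) : Fin n) = k then bN g (g k) else 0, m (g k), ?_, ?_, ?_⟩
    · split_ifs
      · exact (bN_pos hg _).le
      · exact le_rfl
    · rw [dotProduct_comm, LY_inr_dot_LX hg x y m hρ, dotProduct_comm (x p.1)]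
      ring
    · have hr := (hρ (g k)).ne'
      rw [wdual_LX_pb hg, dotProduct_comm (wdual_W g x y η b w γ m ρ p)]
      have e : LY g y m ρ (Sum.inr k) = pb g (y (m (g k))) - (ρ (g k))⁻¹ • dv g k := rfl
      have e2 : wdual_bb g b m (Sum.inr k) = b (m (g k)) := rfl
      rw [e, e2, sub_dotProduct, smul_dotProduct, smul_eq_mul, wdual_W, pb_dot_LXc hg,
        dv_dot_LXc hg, dotProduct_comm (y (m (g k)))]
      have e3 : γ p.1 = wdual_sig x y η b w γ p.1 (m (g k)) - w p.1 ⬝ᵥ y (m (g k)) +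
          b (m (g k)) * (x p.1 ⬝ᵥ η) := by
        rw [wdual_sig]; ring
      rw [e3]
      generalize wdual_sig x y η b w γ p.1 (m (g k)) = s
      field_simp
      ring

lemma wdual_adm [Finite ι] [Finite κ] (hg : Surjective g) (h : DualPair x y) (m : Fin 3 → κ)
    {ρ : Fin 3 → ℝ} (hρ : ∀ j, 0 < ρ j) {η : E 3} {b : κ → ℝ} {w : ι → E 3} {γ : ι → ℝ}
    (hA : Adm y x η b w γ) :
    Adm (LY g y m ρ) (LX g x y m ρ) (pb g η) (wdual_bb g b m) (wdual_W g x y η b w γ m ρ)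
      (fun p => γ p.1) where
  hP := (dualPair_lift hg h m hρ).2
  hθ := by
    intro h0
    refine hA.hθ (funext fun j => ?_)
    obtain ⟨k, rfl⟩ := hg j
    exact congrFun h0 k
  hw := fun p => by
    rw [dotProduct_comm, wdual_W, pb_dot_LXc hg, dotProduct_comm, hA.hw]
  hinc := fun J p hJ => by
    obtain ⟨N, j, -, e1, e2⟩ := wdual_key (x := x) (y := y) hg m hρ η b w γ J p
    rw [hJ, sub_self] at e1
    have e3 : N * wdual_sig x y η b w γ p.1 j = 0 := by
      rcases mul_eq_zero.1 e1.symm with h0 | h0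
      · rw [h0, zero_mul]
      · have := hA.hinc j p.1 (by linarith)
        rw [wdual_sig]
        have e4 : γ p.1 + w p.1 ⬝ᵥ y j - b j * (x p.1 ⬝ᵥ η) = 0 := by linarith
        rw [e4, mul_zero]
    linarith
  hpar := fun p hp => by
    rw [wdual_LX_pb hg] at hp
    obtain ⟨e1, e2⟩ := hA.hpar p.1 hp
    refine ⟨?_, e2⟩
    simp [wdual_W, LXc, wdual_sig, e1, e2, hp]

lemma wdual_good [Finite ι] [Finite κ] (hg : Surjective g) (h : DualPair x y) (m : Fin 3 → κ)
    {ρ : Fin 3 → ℝ} (hρ : ∀ j, 0 < ρ j) {η : E 3} {b : κ → ℝ} {w : ι → E 3} {γ : ι → ℝ}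
    (hA : Adm y x η b w γ) {t : ℝ} (ht : t ∈ goodT y x η b w γ) :
    t ∈ goodT (LY g y m ρ) (LX g x y m ρ) (pb g η) (wdual_bb g b m) (wdual_W g x y η b w γ m ρ)
      (fun p => γ p.1) := by
  intro J p
  obtain ⟨N, j, hN, e1, e2⟩ := wdual_key (x := x) (y := y) hg m hρ η b w γ J p
  have s1 := (wdual_adm hg h m hρ hA).slack t J p
  have s2 := hA.slack t j p.1
  have s3 := ht j p.1
  rw [e1, e2] at s1
  have s4 : 0 ≤ N * ((1 - x p.1 ⬝ᵥ y j) + t * wdual_sig x y η b w γ p.1 j) :=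
    mul_nonneg hN (by rw [wdual_sig]; linarith)
  linarith

lemma wdual_notTriv (m : Fin 3 → κ) (ρ : Fin 3 → ℝ) {b : κ → ℝ} (hb : ¬ TrivSpeed y b) :
    ¬ TrivSpeed (LY g y m ρ) (wdual_bb g b m) := by
  rintro ⟨U, c, hU⟩
  refine hb ⟨bs g U, c, fun j => ?_⟩
  have := hU (Sum.inl j)
  rw [dotProduct_comm, LY_inl_dot, dotProduct_comm] at this
  exact this

lemma wdual_shadow (m : Fin 3 → κ) (ρ : Fin 3 → ℝ) (b : κ → ℝ) (η : E 3) (t : ℝ) :
    shadowPts (LY g y m ρ) (wdual_bb g b m) (pb g η) t = LY g (shadowPts y b η t) m ρ := by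
  funext J
  rcases J with j | k
  · simp [shadowPts, LY, wdual_bb]
  · simp only [shadowPts, LY, wdual_bb, Sum.elim_inr, map_add, map_smul]
    abel

lemma wdual_sub (m : Fin 3 → κ) (ρ : Fin 3 → ℝ) (c : E 3) :
    LY g (fun j => y j - c) m ρ = fun J => LY g y m ρ J - pb g c := by
  funext J
  rcases J with j | k
  · simp [LY]
  · simp only [LY, Sum.elim_inr, map_sub]
    abel

theorem dual_step {ε ε' : ℝ} {μ : ℝ≥0∞} (hεε' : ε < ε') (hε' : ε' < 1) (moat : Moat n ε ε' μ)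
    [Finite ι] [Finite κ] (hg : Surjective g) (h : DualPair x y) (m : Fin 3 → κ) {ρ : Fin 3 → ℝ}
    (hρ : ∀ j, 0 < ρ j) {η : E 3} (hf : Flow y x η)
    (hM : mstarInf (convexHull ℝ (range (LY g y m ρ))) < μ)
    (hN : ¬ EF.Near ε' (convexHull ℝ (range (LY g y m ρ)))) :
    ∃ (x' : ι → E 3) (y' : κ → E 3), DualPair x' y' ∧ nInc x y < nInc x' y' ∧
      mahlerInf (convexHull ℝ (range (LY g y' m ρ))) < μ ∧
      ¬ EF.Near ε' (convexHull ℝ (range (LY g y' m ρ))) := by
  obtain ⟨b, w, γ, δ, τ, hA, hb, hδ, hτ, hgood, hnew⟩ := hf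
  have hι : Nonempty ι := h.nonempty_left
  have hκ : Nonempty (κ ⊕ Fin n) := ⟨Sum.inl (m 0)⟩
  have hA' := wdual_adm hg h m hρ hA
  obtain ⟨α, β, hV⟩ := vol_affine hA' hδ hτ fun t ht => wdual_good hg h m hρ hA (hgood t ht)
  have hi0 : (interior (convexHull ℝ (range (LY g y m ρ)))).Nonempty :=
    ⟨0, (dualPair_lift hg h m hρ).symm.zero_mem_interior⟩
  have hI := fun t => interior_shadow_nonempty hi0 (wdual_notTriv m ρ hb) (pb g η) t
  obtain ⟨T, hT, hM', hN'⟩ := stepS hεε' hε' moat (LY g y m ρ) (wdual_bb g b m) hA'.hθ hδ hτ hV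
    (fun t _ => hI t) hM hN
  have hIT := hI T
  rw [wdual_shadow] at hM' hN' hIT
  obtain ⟨c, hc, hMc⟩ := centre_LY hg (shadowPts y b η T) m ρ hIT hM'
  have hTm : T ∈ Icc (-δ) τ := by
    rcases hT with rfl | rfl
    · exact ⟨by linarith, le_rfl⟩
    · exact ⟨le_rfl, by linarith⟩
  obtain ⟨hpos, hD⟩ := recentre hA hδ hτ hgood hTm hc
  have hlt := nInc_lt hA hpos (hnew T hT)
  refine ⟨_, _, hD.symm, ?_, ?_, ?_⟩
  · exact (nInc_comm x y).symm.trans_lt (hlt.trans_eq (nInc_comm _ _))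
  · rw [wdual_sub, Pool.Agent.MP_5f4cdd_gt.hull_sub]
    exact hMc
  · rw [wdual_sub, Pool.Agent.MP_5f4cdd_gt.hull_sub, EF.near_sub_iff hε']
    exact hN'

end Pool.Agent.MP_5f4cdd_gt.W

end

section

set_option autoImplicit false
open MeasureTheory ENNReal Set Function Filter Topology Pointwise

namespace Pool.Agent.MP_5f4cdd_gt.W

open PL EF AB

variable {n : ℕ} {g : Fin n → Fin 3}

lemma wdesc_le (K : Set (E n)) : mstarInf K ≤ mahlerInf K :=
  (iInf_le _ 0).trans (le_of_eq (by simp))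

lemma wdesc_main {ε ε' : ℝ} {μ : ℝ≥0∞} (hεε' : ε < ε') (hε' : ε' < 1) (moat : Moat n ε ε' μ)
    (hpol : ∀ K : Set (E n), Convex ℝ K → IsCompact K → 0 ∈ interior K →
      mahlerInf K < μ → EF.Near ε K → EF.Near ε' (polarS K))
    (hA : ∀ L : Set (E n), AntiB L → AB.Good ε μ L) (hg : Blk g)
    (ι κ : Type) [Finite ι] [Finite κ] (m : Fin 3 → κ) (k : ℕ) :
    ∀ (x : ι → E 3) (y : κ → E 3) (ρ : Fin 3 → ℝ), Nat.card ι * Nat.card κ - nInc x y = k →
      DualPair x y → (∀ j, 0 < ρ j) → mstarInf (convexHull ℝ (range (LX g x y m ρ))) < μ →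
      EF.Near ε (convexHull ℝ (range (LX g x y m ρ))) := by
  induction k using Nat.strong_induction_on with
  | _ k ih =>
    intro x y ρ hk h hρ hM
    have : Finite (Sec g) := inferInstance
    refine moat _ (convex_convexHull ℝ _) (isCompact_hull _)
      ⟨0, (dualPair_lift hg.surj h m hρ).zero_mem_interior⟩ hM ?_
    by_contra hN
    obtain ⟨x1, y1, ρ1, c, h1, hρ1, hi1, hx1, he1, hM1⟩ := exists_centred hg.surj h m hρ hM
    have hN1 : ¬ EF.Near ε' (convexHull ℝ (range (LX g x1 y1 m ρ1))) := by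
      rwa [he1, EF.near_sub_iff hε']
    have hd1 := dualPair_lift hg.surj h1 m hρ1
    have hM1' := (wdesc_le _).trans_lt hM1
    rcases trichotomy h1 hx1 (y1 (m 1)) (y1 (m 2)) with ⟨p, hp⟩ | ⟨θ, a1, a2, hf⟩ | ⟨η, hf⟩
    · obtain ⟨e, he⟩ := end_case hg h1 m hρ1 hp
      have h2 := (hA _ he).image (hεε'.trans hε') e.symm
      rw [image_image] at h2
      simp only [AffineEquiv.symm_apply_apply, image_id'] at h2
      exact hN1 ((h2 ⟨0, hd1.zero_mem_interior⟩ hM1').mono hεε'.le)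
    · obtain ⟨x2, y2, ρ2, h2, hρ2, hi2, hM2, hN2⟩ :=
        prim_step hεε' hε' moat hg h1 m hρ1 a1 a2 hf hM1' hN1
      have := nInc_le x2 y2
      exact hN2 ((ih _ (by omega) x2 y2 ρ2 rfl h2 hρ2 hM2).mono hεε'.le)
    · have hM' : mahlerInf (convexHull ℝ (range (LY g y1 m ρ1))) < μ := by
        rwa [EF.mahler_symm hd1]
      have hN' : ¬ EF.Near ε' (convexHull ℝ (range (LY g y1 m ρ1))) := fun hn => hN1 (by
        have := hpol _ (convex_convexHull ℝ _) (isCompact_hull _) hd1.symm.zero_mem_interior hM'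
          (moat _ (convex_convexHull ℝ _) (isCompact_hull _) ⟨0, hd1.symm.zero_mem_interior⟩
            ((wdesc_le _).trans_lt hM') hn)
        rwa [polarS, hd1.symm.polar_eq] at this)
      obtain ⟨x2, y2, h2, hi2, hM2, hN2⟩ :=
        dual_step hεε' hε' moat hg.surj h1 m hρ1 hf ((wdesc_le _).trans_lt hM') hN'
      have hd2 := dualPair_lift hg.surj h2 m hρ1
      rw [EF.mahler_symm hd2] at hM2
      have := nInc_le x2 y2
      have h3 := ih _ (by omega) x2 y2 ρ1 rfl h2 hρ1 ((wdesc_le _).trans_lt hM2)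
      have h4 := hpol _ (convex_convexHull ℝ _) (isCompact_hull _) hd2.zero_mem_interior hM2 h3
      rw [polarS, hd2.polar_eq] at h4
      exact hN2 h4

theorem descent {ε ε' : ℝ} {μ : ℝ≥0∞} (hεε' : ε < ε') (hε' : ε' < 1) (moat : Moat n ε ε' μ)
    (hpol : ∀ K : Set (E n), Convex ℝ K → IsCompact K → 0 ∈ interior K →
      mahlerInf K < μ → EF.Near ε K → EF.Near ε' (polarS K))
    (hA : ∀ L : Set (E n), AntiB L → AB.Good ε μ L) (hg : Blk g)
    (ι κ : Type) [Finite ι] [Finite κ] (x : ι → E 3) (y : κ → E 3) (m : Fin 3 → κ)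
    (ρ : Fin 3 → ℝ) (h : DualPair x y) (hρ : ∀ j, 0 < ρ j) :
    AB.Good ε μ (convexHull ℝ (range (LX g x y m ρ))) := by
  exact fun _ hM => wdesc_main hεε' hε' moat hpol hA hg ι κ m _ x y ρ rfl h hρ hM

end Pool.Agent.MP_5f4cdd_gt.W

end

section

set_option autoImplicit false
open MeasureTheory ENNReal Set Function Filter Topology Pointwise

namespace Pool.Agent.MP_5f4cdd_gt.W

open PL EF AB

variable {n k m : ℕ}

/-- the diagonal that scales the fibre coordinates -/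
def wnorm_d (e : Fin k ⊕ Fin m ≃ Fin n) (a : ℝ) : E n :=
  fun i => Sum.elim (fun _ => 1) (fun _ => a) (e.symm i)

lemma wnorm_ne (e : Fin k ⊕ Fin m ≃ Fin n) {a : ℝ} (ha : a ≠ 0) (i : Fin n) :
    wnorm_d e a i ≠ 0 := by
  unfold wnorm_d
  cases e.symm i <;> simp [ha]

lemma wnorm_scale (e : Fin k ⊕ Fin m ≃ Fin n) (B : Set (E k)) (τ : E k → ℝ) (S : Set (E m))
    {a : ℝ} (ha : a ≠ 0) : dg (wnorm_d e a) '' fibS e B τ S = fibS e B τ (a • S) := by
  have key : ∀ x, dg (wnorm_d e a) x ∈ fibS e B τ (a • S) ↔ x ∈ fibS e B τ S := fun x => by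
    have h1 : (fun i => dg (wnorm_d e a) x (e (Sum.inl i))) = fun i => x (e (Sum.inl i)) := by
      funext i; simp [dg_apply, wnorm_d]
    have h2 : (fun j => dg (wnorm_d e a) x (e (Sum.inr j))) = a • fun j => x (e (Sum.inr j)) := by
      funext j; simp [dg_apply, wnorm_d]
    simp only [fibS, mem_ofPred_eq]
    rw [h1, h2, smul_comm _ a S, smul_mem_smul_set_iff₀ ha]
  ext y
  obtain ⟨x, rfl⟩ := (dgE _ (wnorm_ne e ha)).surjective y
  rw [coe_dgE, key]
  exact (dgE _ (wnorm_ne e ha)).injective.mem_set_image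

lemma wnorm_one {S : Set (E 1)} (hS : Body S) (hu : ∀ y ∈ S, ∀ j, update y j (-y j) ∈ S) :
    ∃ a : ℝ, a ≠ 0 ∧ S = a • cS 1 1 := by
  obtain ⟨y₀, h0, hy⟩ := hS.comp.exists_isMaxOn (hS.int.mono interior_subset)
    (continuous_apply (0 : Fin 1)).continuousOn
  obtain ⟨δ, hδ, hb⟩ := Metric.mem_nhds_iff.1
    (mem_interior_iff_mem_nhds.1 (zero_mem_of_unc hS hu))
  have hr : 0 < y₀ 0 := by
    have h1 : (fun _ => δ / 2 : E 1) ∈ S := hb (by
      rw [mem_ball_zero_iff, pi_norm_const, Real.norm_of_nonneg (by positivity)]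
      linarith)
    exact (half_pos hδ).trans_le (hy h1)
  refine ⟨2 * y₀ 0, by positivity, Set.ext fun y => ?_⟩
  have h2 : y ∈ (2 * y₀ 0) • cS 1 1 ↔ y 0 ≤ y₀ 0 ∧ -y₀ 0 ≤ y 0 := by
    rw [mem_smul_set_iff_inv_smul_mem₀ (by positivity)]
    simp only [cS, mem_ofPred_eq, Fin.forall_fin_succ, bet_zero, bet_succ, Finset.univ_unique,
      Finset.sum_singleton, Pi.smul_apply, smul_eq_mul, Fin.default_eq_zero, IsEmpty.forall_iff,
      and_true, Nat.cast_one, neg_le_neg_iff]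
    rw [inv_mul_le_iff₀ (by positivity), le_inv_mul_iff₀ (by positivity)]
    constructor <;> rintro ⟨a, b⟩ <;> constructor <;> linarith
  rw [h2]
  refine ⟨fun h => ⟨hy h, neg_le.1 (hy (neg_mem_of_unc hu h))⟩, fun h => ?_⟩
  have h3 := hS.conv h0 (neg_mem_of_unc hu h0) (a := (y₀ 0 + y 0) / (2 * y₀ 0))
    (b := (y₀ 0 - y 0) / (2 * y₀ 0)) (div_nonneg (by linarith [h.2]) (by positivity))
    (div_nonneg (by linarith [h.1]) (by positivity)) (by field_simp; ring)
  convert h3 using 1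
  funext i
  rw [Subsingleton.elim i 0]
  simp only [Pi.add_apply, Pi.smul_apply, Pi.neg_apply, smul_eq_mul]
  field_simp
  ring

lemma wnorm_mid (e : Fin k ⊕ Fin m ≃ Fin n) (B : Set (E k)) (τ : E k → ℝ) {S : Set (E m)}
    (hu : ∀ y ∈ S, ∀ j, update y j (-y j) ∈ S) (hK : Body (fibS e B τ S)) (c : E n) :
    mahlerInf ((fun z => z - fun i => Sum.elim (fun j => c (e (Sum.inl j))) 0 (e.symm i)) ''
      fibS e B τ S) ≤ mahlerInf ((fun z => z - c) '' fibS e B τ S) := by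
  have h0 : (-1 : ℝ) ≠ 0 := by norm_num
  have h1 : (-1 : ℝ) • S = S := by
    ext y
    rw [mem_smul_set_iff_inv_smul_mem₀ h0, inv_neg_one, neg_one_smul]
    exact ⟨fun h => neg_neg y ▸ neg_mem_of_unc hu h, neg_mem_of_unc hu⟩
  have h2 := wnorm_scale e B τ S h0
  rw [h1] at h2
  have h3 : mahlerInf ((fun z => z - dg (wnorm_d e (-1)) c) '' fibS e B τ S) ≤
      mahlerInf ((fun z => z - c) '' fibS e B τ S) := by
    rw [← mahlerInf_image_lin (dg (wnorm_d e (-1))) (det_dg_ne (wnorm_ne e h0))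
      ((fun z => z - c) '' fibS e B τ S), image_image]
    conv_lhs => rw [← h2, image_image]
    simp only [map_sub, le_refl]
  have h4 := convex_sublevel hK.comp.isBounded (hK.int.mono interior_subset) _
    (x := c) (mem_setOf.2 le_rfl) h3
    (a := 1 / 2) (b := 1 / 2) (by norm_num) (by norm_num) (by norm_num)
  convert h4.out using 4
  funext i
  obtain ⟨s, rfl⟩ := e.surjective i
  cases s <;> simp [dg_apply, wnorm_d]
  ring

theorem good_norm {ε ε' c₀ : ℝ} {μ : ℝ≥0∞} (hεε' : ε < ε') (hε' : ε' < 1) (moat : Moat n ε ε' μ)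
    (hμ : μ ≤ ENNReal.ofReal (1 + c₀) * mahlerInf (cS n 1))
    (hlow : ∀ K : Set (E n), Body K → AB.Good ε μ K → mahlerInf (cS n 1) ≤ mstarInf K)
    (e : Fin k ⊕ Fin (m + 1) ≃ Fin n) {B : Set (E k)} {τ : E k → ℝ} (hτ : ∀ u ∈ B, 0 ≤ τ u)
    {S : Set (E (m + 1))} (hS : Body S) (hu : ∀ y ∈ S, ∀ j, update y j (-y j) ∈ S)
    (hgap : 1 ≤ m → ENNReal.ofReal (1 + c₀) * mahlerInf (cS (m + 1) 1) ≤ mahlerInf S)
    (hB : Body (fibS e B τ (stdS (m + 1)))) (hG : AB.Good ε μ (fibS e B τ (stdS (m + 1))))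
    (hK : Body (fibS e B τ S)) : AB.Good ε μ (fibS e B τ S) := by
  obtain ⟨tB, tG⟩ := good_centred hεε' hε' moat e hτ hB hG
  rcases Nat.eq_zero_or_pos m with rfl | hm
  · obtain ⟨a, ha, rfl⟩ := wnorm_one hS hu
    rw [← wnorm_scale e B τ _ ha]
    exact tG.image (hεε'.trans hε') (dgE _ (wnorm_ne e ha))
  intro _ hM
  exfalso
  obtain ⟨c, hc⟩ := iInf_lt_iff.1 hM
  have h1 := (wnorm_mid e B τ hu hK c).trans_lt hc
  have h2 := prod_formula e hτ hS.comp (isCompact_cS zero_le_one) (zero_mem_of_unc hS hu)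
    (zero_mem_interior_cS one_pos) hK.comp tB.comp fun j => c (e (Sum.inl j))
  have h3 := mul_le_mul' ((hlow _ tB tG).trans (iInf_le _
    fun i => Sum.elim (fun j => c (e (Sum.inl j))) 0 (e.symm i))) (hgap hm)
  rw [← h2, ← mul_assoc, ENNReal.mul_le_mul_iff_left mahlerInf_cS_pos.ne' mahlerInf_cS_lt_top.ne,
    mul_comm] at h3
  exact (h1.trans_le (hμ.trans h3)).false

end Pool.Agent.MP_5f4cdd_gt.W

end

section

set_option autoImplicit false
open MeasureTheory ENNReal Set Function Filter Topology Pointwise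

namespace Pool.Agent.MP_5f4cdd_gt.W

open PL EF AB

theorem gap_all (n : ℕ) : ∃ c : ℝ, 0 < c ∧ ∀ m, 2 ≤ m → m ≤ n → ∀ S : Set (E m), Body S →
    (∀ y ∈ S, ∀ j, update y j (-y j) ∈ S) →
    ENNReal.ofReal (1 + c) * mahlerInf (cS m 1) ≤ mahlerInf S := by
  induction n with
  | zero => exact ⟨1, one_pos, fun m h1 h2 => by omega⟩
  | succ n ih =>
    obtain ⟨c, hc, h⟩ := ih
    by_cases hn : 2 ≤ n + 1
    · obtain ⟨c', hc', h'⟩ := gap_unc hn
      refine ⟨min c c', lt_min hc hc', fun m h1 h2 S hS hu => ?_⟩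
      rcases h2.eq_or_lt with rfl | hlt
      · exact (mul_le_mul_left (ENNReal.ofReal_le_ofReal
          (by linarith [min_le_right c c'])) _).trans (h' S hS hu)
      · exact (mul_le_mul_left (ENNReal.ofReal_le_ofReal
          (by linarith [min_le_left c c'])) _).trans (h m h1 (by omega) S hS hu)
    · exact ⟨1, one_pos, fun m h1 h2 => by omega⟩

theorem far_w (n : ℕ) {ε : ℝ} (hε : 0 < ε) : ∃ c : ℝ, 0 < c ∧ ∀ K : Set (E n), WGen K →
    Body K ∧ AB.Good ε (ENNReal.ofReal (1 + c) * mahlerInf (cS n 1)) K := by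
  obtain ⟨εA, κ, hεA, hκ, hA⟩ := local_inf n
  obtain ⟨c₀, hc₀, hgap⟩ := gap_all n
  set m := mahlerInf (cS n 1) with hm
  have hmt : m ≠ ∞ := mahlerInf_cS_lt_top.ne
  set ε' := min εA (1 / 2) with hε'
  have hε'0 : 0 < ε' := by positivity
  have hε'1 : ε' < 1 := (min_le_right _ _).trans_lt (by norm_num)
  obtain ⟨ε₁, hε₁, hpol⟩ := polar_near' n (C := (1 + κ) * m.toReal + 1) (by positivity) hε'0 hε'1
  set ε₃ := min (min ε (ε' / 2)) ε₁ with hε₃
  have hε₃0 : 0 < ε₃ := by positivity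
  have h3' : ε₃ < ε' := ((min_le_left _ _).trans (min_le_right _ _)).trans_lt (by linarith)
  have h31 := h3'.trans hε'1
  obtain ⟨c₁, hc₁, hanti⟩ := good_anti n hε₃0 h31
  set c := min (min c₁ c₀) (κ * ε₃) with hc
  have hc0 : 0 < c := by positivity
  have hc1 : c ≤ c₁ := (min_le_left _ _).trans (min_le_left _ _)
  have hc3 : c ≤ c₀ := (min_le_left _ _).trans (min_le_right _ _)
  have hc2 : c ≤ κ * ε₃ := min_le_right _ _
  set μ := ENNReal.ofReal (1 + c) * m with hμ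
  have moat : Moat n ε₃ ε' μ := by
    intro K hK hKc hKi hM hN
    obtain ⟨a, ha⟩ := iInf_lt_iff.1 hM
    rw [← near_sub_iff h31 K a]
    rw [← near_sub_iff hε'1 K a] at hN
    obtain ⟨e, he1, he2⟩ := hN.mono (min_le_left _ _)
    obtain ⟨e', h1, h2⟩ := hA _ (convex_image_sub hK a) (isCompact_image_sub hKc a)
      (interior_image_sub hKi a) e he1 he2
    refine ⟨e', h1, ?_⟩
    by_contra hc
    push Not at hc
    rw [← div_lt_iff₀ (toReal_simplex_pos e')] at hc
    refine absurd ha (not_lt.2 (le_trans ?_ h2))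
    exact mul_le_mul_left (ENNReal.ofReal_le_ofReal (by nlinarith)) _
  have hpol' : ∀ K : Set (E n), Convex ℝ K → IsCompact K → 0 ∈ interior K →
      mahlerInf K < μ → EF.Near ε₃ K → EF.Near ε' (polarS K) := by
    intro K hK hKc h0 h1 hN
    refine hpol K hK hKc h0 (hN.mono (min_le_right _ _)) ?_
    have h2 : volume K * volume (polarS K) ≤ ENNReal.ofReal (1 + κ) * m := by
      refine le_trans ?_ (h1.le.trans
        (mul_le_mul_left (ENNReal.ofReal_le_ofReal (by nlinarith)) _))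
      rw [mahlerInf_polar hKc.isBounded (interior_subset h0)]
      exact le_mul_of_one_le_left' (by exact_mod_cast n.factorial_pos)
    have h3 := ENNReal.toReal_mono (ENNReal.mul_ne_top ENNReal.ofReal_ne_top hmt) h2
    rw [ENNReal.toReal_mul, ENNReal.toReal_mul, ENNReal.toReal_ofReal (by positivity)] at h3
    linarith
  have hanti' : ∀ L : Set (E n), AntiB L → AB.Good ε₃ μ L := fun L hL hi hM =>
    hanti L hL hi (hM.trans_le (mul_le_mul_left (ENNReal.ofReal_le_ofReal (by linarith)) _))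
  have hlow : ∀ K : Set (E n), Body K → AB.Good ε₃ μ K → m ≤ mstarInf K := by
    intro K hK hG
    by_cases hM : mstarInf K < μ
    · refine le_iInf fun a => ?_
      have hN := (hG hK.int hM).mono (h3'.le.trans (min_le_left _ _))
      have hN' : EF.Near ε' ((fun z => z - a) '' K) :=
        (near_sub_iff hε'1 K a).2 ((hG hK.int hM).mono h3'.le)
      obtain ⟨e, he1, he2⟩ := hN'.mono (min_le_left _ _)
      obtain ⟨e', h1, h2⟩ := hA _ (convex_image_sub hK.conv a) (isCompact_image_sub hK.comp a)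
        (interior_image_sub hK.int a) e he1 he2
      refine le_trans (le_mul_of_one_le_left' ?_) h2
      have hSt : volume (e' '' stdS n) ≠ ∞ := by
        rw [volume_image_affine, volume_stdS]
        exact ENNReal.mul_ne_top ENNReal.ofReal_ne_top (volume_cS_lt_top zero_le_one).ne
      have hw : 0 ≤ 1 - (volume ((fun z => z - a) '' K)).toReal /
          (volume (e' '' stdS n)).toReal := sub_nonneg.2
        (div_le_one_of_le₀ (ENNReal.toReal_mono hSt (measure_mono h1)) ENNReal.toReal_nonneg)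
      rw [← ENNReal.ofReal_one]
      exact ENNReal.ofReal_le_ofReal (by nlinarith)
    · refine le_trans (le_mul_of_one_le_left' ?_) (not_lt.1 hM)
      rw [← ENNReal.ofReal_one]
      exact ENNReal.ofReal_le_ofReal (by linarith)
  suffices h : ∀ K : Set (E n), WGen K → Body K ∧ AB.Good ε₃ μ K from
    ⟨c, hc0, fun K hK => ⟨(h K hK).1, fun hi hM => ((h K hK).2 hi hM).mono
      ((min_le_left _ _).trans (min_le_left _ _))⟩⟩
  intro K hK
  induction hK with
  | wedge K g C hK cK hi hs ho hKC =>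
    exact ⟨⟨hK, cK, hi⟩, good_wedge h3' hε'1 moat hs
      (descent h3' hε'1 moat hpol' hanti' ⟨hs, ho⟩) ⟨hK, cK, hi⟩ hKC⟩
  | norm K k m' e B τ S hK cK hi hS cS' hiS hu hτ _ hKS ih =>
    subst hKS
    refine ⟨⟨hK, cK, hi⟩, good_norm (c₀ := c₀) h3' hε'1 moat
      (mul_le_mul_left (ENNReal.ofReal_le_ofReal (by linarith)) _) hlow e hτ ⟨hS, cS', hiS⟩ hu
      (fun h1 => hgap (m' + 1) (by omega) ?_ S ⟨hS, cS', hiS⟩ hu) ih.1 ih.2 ⟨hK, cK, hi⟩⟩
    have := Fintype.card_congr e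
    simp only [Fintype.card_sum, Fintype.card_fin] at this
    omega
  | image K e _ ih =>
    exact ⟨⟨ih.1.conv.affine_image e.toAffineMap, ih.1.comp.image e.continuous_of_finiteDimensional,
      (interior_affine e K).2 ih.1.int⟩, ih.2.image h31 e⟩
  | fibre K L i _ _ hs ihK ihL =>
    have hs' : sc i 0 '' K = sc i 0 '' L := by simpa [sc_apply] using hs
    have e : {x : E n | ∃ s t : ℝ, update x i s ∈ K ∧ update x i t ∈ L ∧ x i = s + t} =
        AB.φ i 1 1 '' AB.Zs i K L := by ext x; simp only [mem_fib, one_mul, mem_ofPred_eq]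
    rw [e]
    exact ⟨body_fib ihK.1 ihL.1 hs' zero_le_one zero_le_one (Or.inl one_pos),
      Good.fib h3' hε'1 moat ihK.1 ihL.1 hs' ihK.2 ihL.2⟩
  | polar K _ hc ih =>
    have h0 := zero_mem_of_centroid ih.1 hc
    have hB := body_polar ih.1 h0
    refine ⟨hB, fun hi hM => moat _ hB.conv hB.comp hi hM ?_⟩
    have h1 := (mahlerInf_le_mstarInf_polar ih.1 hc).trans_lt hM
    exact hpol' K ih.1.conv ih.1.comp h0 h1 (ih.2 ih.1.int (lt_of_le_of_lt
      ((iInf_le _ 0).trans (by simp)) h1))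
  | limit K L hK cK hi _ ht ih =>
    exact ⟨⟨hK, cK, hi⟩, Good.lim h3' hε'1 moat ⟨hK, cK, hi⟩ (fun j => (ih j).1)
      (fun j => (ih j).2) ht⟩

theorem w_main (n : ℕ) : ∃ p₀ κ : ℝ, 0 < p₀ ∧ 0 < κ ∧ ∀ K : Set (Fin n → ℝ), WGen K →
      ∃ e : AffineEquiv ℝ (Fin n → ℝ) (Fin n → ℝ), K ⊆ e '' stdS n ∧
        (∀ p : ℝ, p₀ ≤ p →
          ENNReal.ofReal (1 + κ * (1 - (volume K).toReal / (volume (e '' stdS n)).toReal)) *
            (⨅ x ∈ stdS n, mahler p ((fun z => z - x) '' stdS n)) ≤ mahler p K) ∧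
        ENNReal.ofReal (1 + κ * (1 - (volume K).toReal / (volume (e '' stdS n)).toReal)) *
          (⨅ x ∈ stdS n, mahlerInf ((fun z => z - x) '' stdS n)) ≤ mahlerInf K := by
  obtain ⟨p₁, ε, κ, hp₁, hε, hκ, h⟩ := local_unif_both n
  obtain ⟨c, hc, hfar⟩ := far_w n hε
  obtain ⟨p₂, hp₂⟩ := eventually_atTop.1 (mahler_cS_le_inf (n := n) (η := c / (2 + c))
    (by positivity))
  refine ⟨max p₁ p₂, min κ (c / 2), lt_max_of_lt_left hp₁, by positivity, fun K hK => ?_⟩
  obtain ⟨⟨hKc, hKk, hKi⟩, hG⟩ := hfar K hK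
  rw [iInfInf_eq]
  have hw : ∀ e : AffineEquiv ℝ (E n) (E n), K ⊆ e '' stdS n →
      0 ≤ 1 - (volume K).toReal / (volume (e '' stdS n)).toReal := by
    intro e he
    have hSt : volume (e '' stdS n) ≠ ∞ := by
      rw [volume_image_affine, volume_stdS]
      exact ENNReal.mul_ne_top ENNReal.ofReal_ne_top (volume_cS_lt_top zero_le_one).ne
    exact sub_nonneg.2
      (div_le_one_of_le₀ (ENNReal.toReal_mono hSt (measure_mono he)) ENNReal.toReal_nonneg)
  by_cases hn : EF.Near ε K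
  · obtain ⟨e, hKe, hv⟩ := hn
    obtain ⟨e', h1, h2, h3⟩ := h K hKc hKk hKi e hKe hv
    have h4 : ENNReal.ofReal
        (1 + min κ (c / 2) * (1 - (volume K).toReal / (volume (e' '' stdS n)).toReal)) ≤
        ENNReal.ofReal (1 + κ * (1 - (volume K).toReal / (volume (e' '' stdS n)).toReal)) :=
      ENNReal.ofReal_le_ofReal (by
        linarith [mul_le_mul_of_nonneg_right (min_le_left κ (c / 2)) (hw e' h1)])
    refine ⟨e', h1, fun p hp => ?_, (mul_le_mul_left h4 _).trans h3⟩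
    have hp1 := (le_max_left _ _).trans hp
    rw [iInf_eq (hp₁.trans_le hp1)]
    exact (mul_le_mul_left h4 _).trans (h2 p hp1)
  · have h1 : ENNReal.ofReal (1 + c) * mahlerInf (cS n 1) ≤ mahlerInf K :=
      (not_lt.1 fun hM => hn (hG hKi hM)).trans ((iInf_le _ 0).trans (by simp))
    obtain ⟨e, he⟩ := exists_simplex_superset hKk
    have h2 : 1 + min κ (c / 2) * (1 - (volume K).toReal / (volume (e '' stdS n)).toReal) ≤
        1 + c / 2 := by
      have h3 : 0 ≤ (volume K).toReal / (volume (e '' stdS n)).toReal := by positivity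
      nlinarith [mul_le_mul_of_nonneg_right (min_le_right κ (c / 2)) (hw e he)]
    refine ⟨e, he, fun p hp => ?_,
      (mul_le_mul_left (ENNReal.ofReal_le_ofReal (by linarith)) _).trans h1⟩
    have hp0 := hp₁.trans_le ((le_max_left _ _).trans hp)
    rw [iInf_eq hp0]
    refine le_trans (mul_le_mul' (ENNReal.ofReal_le_ofReal h2)
      (hp₂ p ((le_max_right _ _).trans hp))) (le_trans (le_of_eq ?_)
        (h1.trans (mahlerInf_le_mahler hKk hKi hp0)))
    rw [← mul_assoc, ← ENNReal.ofReal_mul (by positivity)]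
    congr 2
    field_simp
    ring

end Pool.Agent.MP_5f4cdd_gt.W

end

section

set_option autoImplicit false
open MeasureTheory ENNReal Set Function Filter Topology Pointwise

namespace Pool.Agent.MP_5f4cdd_gt.W

open PL EF AB

variable {n k m : ℕ}

theorem rsharp_lt {c : ℝ} (hc : 0 < c) :
    mahlerInf (cS n 1) < ENNReal.ofReal (1 + c) * mahlerInf (cS n 1) := by
  have h : (1 : ℝ≥0∞) < ENNReal.ofReal (1 + c) := ENNReal.one_lt_ofReal.2 (by linarith)
  simpa using (ENNReal.mul_lt_mul_iff_left mahlerInf_cS_pos.ne' mahlerInf_cS_lt_top.ne).2 h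

theorem eq_of_vol {A C : Set (E n)} (hC : Convex ℝ C) (hi : (interior C).Nonempty)
    (hA : IsClosed A) (hAC : A ⊆ C) (hv : volume C ≤ volume A) (ht : volume A ≠ ∞) : C ⊆ A := by
  intro x hx
  by_contra hxA
  have h1 : x ∈ closure (interior C) := by
    rw [hC.closure_interior_eq_closure_of_nonempty_interior hi]
    exact subset_closure hx
  have h2 : (Aᶜ ∩ interior C).Nonempty := mem_closure_iff.1 h1 _ hA.isOpen_compl hxA
  have h3 : IsOpen (Aᶜ ∩ interior C) := hA.isOpen_compl.inter isOpen_interior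
  have h4 := h3.measure_pos volume h2
  have h5 : volume (A ∪ (Aᶜ ∩ interior C)) ≤ volume A :=
    (measure_mono (union_subset hAC fun y hy => interior_subset hy.2)).trans hv
  rw [measure_union (disjoint_compl_right.mono_right inter_subset_left) h3.measurableSet] at h5
  exact absurd (ENNReal.lt_add_right ht h4.ne') (not_lt.2 h5)

theorem exists_centre {K : Set (E n)} (hK : Body K) :
    ∃ c : E n, mahlerInf ((fun z => z - c) '' K) = mstarInf K := by
  obtain ⟨c, hc, h⟩ := exists_santalo hK.conv hK.comp.isBounded hK.int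
  refine ⟨c, ?_⟩
  rw [mstarInf_eq hK.comp.isBounded (hK.int.mono interior_subset), h, PL.mahlerInf_eq, volume_sub,
    lintegral_expS_sub hK.comp.isBounded (interior_subset hc)]

theorem Sharp.image {K : Set (E n)} (h : Sharp K) (f : E n ≃ᵃ[ℝ] E n) : Sharp (f '' K) := by
  refine ⟨wcs_body_image h.1 f, ?_, fun hle => ?_⟩
  · rw [mstarInf_affine]
    exact h.2.1
  · rw [mstarInf_affine] at hle
    obtain ⟨g, hg⟩ := h.2.2 hle
    exact ⟨g.trans f, by rw [AffineEquiv.coe_trans, image_comp, hg]⟩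

theorem Sharp.good {K : Set (E n)} (h : Sharp K) {ε : ℝ} (hε : 0 < ε) :
    ∃ μ, mahlerInf (cS n 1) < μ ∧ AB.Good ε μ K := by
  by_cases hle : mstarInf K ≤ mahlerInf (cS n 1)
  · obtain ⟨g, hg⟩ := h.2.2 hle
    exact ⟨∞, mahlerInf_cS_lt_top, fun _ _ => hg ▸ (near_simplex g).mono hε.le⟩
  · exact ⟨mstarInf K, not_le.1 hle, fun _ h' => absurd h' (lt_irrefl _)⟩

theorem sharp_of_good {K : Set (E n)} (hK : Body K)
    (h : ∀ ε : ℝ, 0 < ε → ∃ μ, mahlerInf (cS n 1) < μ ∧ AB.Good ε μ K) : Sharp K := by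
  obtain ⟨ε, κ, hε, hκ, hA⟩ := local_inf n
  obtain ⟨μ, hμ, hG⟩ := h (min ε (1 / 2)) (by positivity)
  have key : mstarInf K ≤ mahlerInf (cS n 1) →
      mahlerInf (cS n 1) ≤ mstarInf K ∧ ∃ f : E n ≃ᵃ[ℝ] E n, K = f '' stdS n := by
    intro hle
    obtain ⟨c, hc⟩ := exists_centre hK
    obtain ⟨e, he1, he2⟩ := ((near_sub_iff ((min_le_right _ _).trans_lt (by norm_num)) K c).2
      (hG hK.int (hle.trans_lt hμ))).mono (min_le_left _ _)
    have cA := isCompact_image_sub hK.comp c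
    have iA := interior_image_sub hK.int c
    obtain ⟨e', h1, h2⟩ := hA _ (convex_image_sub hK.conv c) cA iA e he1 he2
    rw [hc] at h2
    have hSt : volume (e' '' stdS n) ≠ ∞ := by
      rw [volume_image_affine]
      exact ENNReal.mul_ne_top ENNReal.ofReal_ne_top volume_stdS_ne_top
    have hw : 0 ≤ 1 - (volume ((fun z => z - c) '' K)).toReal /
        (volume (e' '' stdS n)).toReal := sub_nonneg.2
      (div_le_one_of_le₀ (ENNReal.toReal_mono hSt (measure_mono h1)) ENNReal.toReal_nonneg)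
    constructor
    · refine le_trans (le_mul_of_one_le_left' ?_) h2
      rw [← ENNReal.ofReal_one]
      exact ENNReal.ofReal_le_ofReal (by nlinarith)
    · have h3 : (volume (e' '' stdS n)).toReal ≤ (volume ((fun z => z - c) '' K)).toReal := by
        by_contra h3
        rw [not_le, ← div_lt_one (toReal_simplex_pos e'), ← sub_pos] at h3
        exact absurd (rsharp_lt (mul_pos hκ h3)) (not_lt.2 (h2.trans hle))
      rw [ENNReal.toReal_le_toReal hSt cA.measure_lt_top.ne] at h3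
      have h4 := eq_of_vol (convex_stdS.affine_image e'.toAffineMap) (iA.mono (interior_mono h1))
        cA.isClosed h1 h3 cA.measure_lt_top.ne
      have h5 : e' '' stdS n = (fun z => z - c) '' K := Subset.antisymm h4 h1
      refine ⟨e'.trans (AffineEquiv.constVAdd ℝ (E n) c), ?_⟩
      rw [AffineEquiv.coe_trans, image_comp, h5, image_image]
      simp
  exact ⟨hK, (le_total _ _).elim (fun h' => (key h').1) id, fun h' => (key h').2⟩

theorem sharp_of_wgen {K : Set (E n)} (h : WGen K) : Sharp K := by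
  obtain ⟨_, -, h1⟩ := far_w n one_pos
  refine sharp_of_good (h1 K h).1 fun ε hε => ?_
  obtain ⟨c, hc, h2⟩ := far_w n hε
  exact ⟨_, rsharp_lt hc, (h2 K h).2⟩

theorem Sharp.cent (e : Fin k ⊕ Fin m ≃ Fin n) {B : Set (E k)} {τ : E k → ℝ}
    (hτ : ∀ u ∈ B, 0 ≤ τ u) (h : Sharp (fibS e B τ (stdS m))) :
    Sharp (fibS e B τ (cS m 1)) := by
  obtain ⟨εA, κ, hεA, hκ, hA⟩ := local_inf n
  have key : ∀ ε : ℝ, 0 < ε → ∃ μ, mahlerInf (cS n 1) < μ ∧ Body (fibS e B τ (cS m 1)) ∧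
      AB.Good ε μ (fibS e B τ (cS m 1)) := by
    intro ε hε
    set ε' := min εA (1 / 2) with hε'
    have hε'0 : 0 < ε' := by positivity
    have hε'1 : ε' < 1 := (min_le_right _ _).trans_lt (by norm_num)
    set ε₃ := min ε (ε' / 2) with hε₃
    have hε₃0 : 0 < ε₃ := by positivity
    have h3' : ε₃ < ε' := (min_le_right _ _).trans_lt (by linarith)
    obtain ⟨μ₀, hμ₀, hG⟩ := h.good hε₃0
    have moat : Moat n ε₃ ε' (min μ₀ (ENNReal.ofReal (1 + κ * ε₃) * mahlerInf (cS n 1))) := by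
      intro K hK hKc hKi hM hN
      obtain ⟨a, ha⟩ := iInf_lt_iff.1 (hM.trans_le (min_le_right _ _))
      rw [← near_sub_iff (h3'.trans hε'1) K a]
      rw [← near_sub_iff hε'1 K a] at hN
      obtain ⟨e, he1, he2⟩ := hN.mono (min_le_left _ _)
      obtain ⟨e', h1, h2⟩ := hA _ (convex_image_sub hK a) (isCompact_image_sub hKc a)
        (interior_image_sub hKi a) e he1 he2
      refine ⟨e', h1, ?_⟩
      by_contra hc
      push Not at hc
      rw [← div_lt_iff₀ (toReal_simplex_pos e')] at hc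
      refine absurd ha (not_lt.2 (le_trans ?_ h2))
      exact mul_le_mul_left (ENNReal.ofReal_le_ofReal (by nlinarith)) _
    obtain ⟨h1, h2⟩ := good_centred h3' hε'1 moat e hτ h.1
      fun hi hM => hG hi (hM.trans_le (min_le_left _ _))
    exact ⟨_, lt_min hμ₀ (rsharp_lt (mul_pos hκ hε₃0)), h1,
      fun hi hM => (h2 hi hM).mono (min_le_left _ _)⟩
  obtain ⟨_, -, h1, -⟩ := key 1 one_pos
  exact sharp_of_good h1 fun ε hε => (key ε hε).imp fun _ h' => ⟨h'.1, h'.2.2⟩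

end Pool.Agent.MP_5f4cdd_gt.W

end

section

set_option autoImplicit false
open MeasureTheory ENNReal Set Function Filter Topology Pointwise

namespace Pool.Agent.MP_5f4cdd_gt.W

open PL EF AB

variable {n k m : ℕ}

/-- the simplex with intercepts `r` -/
def rzero_A (r : E m) : Set (E m) := {t | (∀ j, 0 ≤ t j) ∧ ∑ j, t j / r j ≤ 1}

/-- the part of `F` in the chamber -/
def rzero_C (F : Set (E m)) : Set (E m) := {t | (∀ j, 0 ≤ t j) ∧ comb (om m) t ∈ F}

lemma rzero_img {r : E m} (hr : ∀ j, 0 < r j) : rzero_A r = dg r '' stdS m := by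
  ext t
  constructor
  · rintro ⟨h1, h2⟩
    refine ⟨fun j => t j / r j, ⟨fun j => div_nonneg (h1 j) (hr j).le, h2⟩, funext fun j => ?_⟩
    rw [dg_apply, mul_div_cancel₀ _ (hr j).ne']
  · rintro ⟨x, ⟨h1, h2⟩, rfl⟩
    refine ⟨fun j => ?_, ?_⟩
    · rw [dg_apply]
      exact mul_nonneg (hr j).le (h1 j)
    · simpa only [dg_apply, mul_div_cancel_left₀ _ (hr _).ne'] using h2

lemma rzero_std : (m.factorial : ℝ≥0∞) * volume (stdS m) = 1 := by
  have h := volume_simplex (n := m)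
  have ht : volume (stdS m) ≠ ∞ := fun e => by simp [e] at h
  rw [← ENNReal.ofReal_toReal ht, ← ENNReal.ofReal_natCast,
    ← ENNReal.ofReal_mul (Nat.cast_nonneg _), h, ENNReal.ofReal_one]

lemma rzero_volA {r : E m} (hr : ∀ j, 0 < r j) :
    (m.factorial : ℝ≥0∞) * volume (rzero_A r) = ENNReal.ofReal (∏ j, r j) := by
  rw [rzero_img hr, Measure.addHaar_image_linearMap, det_dg,
    abs_of_pos (Finset.prod_pos fun j _ => hr j), mul_left_comm, rzero_std, mul_one]

lemma rzero_sub {F : Set (E m)} (hF : Convex ℝ F) (h0 : (0 : E m) ∈ F) {r : E m}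
    (hr : ∀ j, 0 < r j) (hm : ∀ j, r j • om m j ∈ F) : rzero_A r ⊆ rzero_C F := by
  rintro t ⟨h1, h2⟩
  refine ⟨h1, ?_⟩
  have h := hF.sum_mem (t := Finset.univ)
    (w := fun o : Option (Fin m) => o.elim (1 - ∑ j, t j / r j) fun j => t j / r j)
    (z := fun o : Option (Fin m) => o.elim 0 fun j => r j • om m j)
    (fun o _ => by
      cases o with
      | none => exact sub_nonneg.2 h2
      | some j => exact div_nonneg (h1 j) (hr j).le)
    (by simp [Fintype.sum_option])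
    (fun o _ => by
      cases o with
      | none => exact h0
      | some j => exact hm j)
  simp only [Fintype.sum_option, Option.elim, smul_zero, zero_add, smul_smul,
    div_mul_cancel₀ _ (hr _).ne'] at h
  exact h

lemma rzero_convex {F : Set (E m)} (hF : Convex ℝ F) : Convex ℝ (rzero_C F) := by
  intro x hx y hy a b ha hb hab
  refine ⟨fun j => add_nonneg (mul_nonneg ha (hx.1 j)) (mul_nonneg hb (hy.1 j)), ?_⟩
  have e : comb (om m) (a • x + b • y) = a • comb (om m) x + b • comb (om m) y := by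
    simp only [comb, Pi.add_apply, Pi.smul_apply, smul_eq_mul, add_smul, Finset.sum_add_distrib,
      Finset.smul_sum, smul_smul]
  rw [e]
  exact hF hx.2 hy.2 ha hb hab

lemma rzero_volC {F : Set (E m)} (cF : IsCompact F) (h : TInv F) :
    (m.factorial : ℝ≥0∞) * volume (rzero_C F) ≤ volume F := by
  have mF := cF.isClosed.measurableSet
  have hc : Continuous (comb (om m)) := by
    unfold comb
    fun_prop
  have h1 := cham_A (f := F.indicator 1) (measurable_one.indicator mF) fun σ z => by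
    refine Set.indicator_eq_indicator (s := F) (t := F) ⟨fun hz => ?_, h σ z⟩ rfl
    have := h σ⁻¹ _ hz
    rwa [Tp_Tp, mul_inv_cancel, Tp_one] at this
  have h2 : ∀ r, F.indicator (1 : E m → ℝ≥0∞) (comb (om m) r) =
      (comb (om m) ⁻¹' F).indicator 1 r := fun r => rfl
  simp only [h2] at h1
  rw [lintegral_indicator_one mF, lintegral_indicator_one (mF.preimage hc.measurable),
    Measure.restrict_apply (mF.preimage hc.measurable)] at h1
  refine le_trans (mul_le_mul_right (measure_mono_ae ?_) _) h1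
  have h3 : ∀ᵐ t : E m, ∀ j, t j ≠ 0 :=
    ae_all_iff.2 fun j => Measure.ae_eval_ne (fun _ => volume) j 0
  filter_upwards [h3] with t ht htC
  exact ⟨htC.2, fun j => lt_of_le_of_ne (htC.1 j) (ht j).symm⟩

theorem vol_ge_T {F : Set (E m)} (hF : Convex ℝ F) (cF : IsCompact F) (hn : F.Nonempty)
    (h : TInv F) {r : E m} (hr : ∀ j, 0 < r j) (hm : ∀ j, r j • om m j ∈ F) :
    ENNReal.ofReal (∏ j, r j) ≤ volume F := by
  obtain ⟨v, hv⟩ := hn
  rw [← rzero_volA hr]
  exact (mul_le_mul_right (measure_mono (rzero_sub hF (zero_mem_T hF h hv) hr hm)) _).trans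
    (rzero_volC cF h)

theorem eq_T {F : Set (E m)} (hF : Convex ℝ F) (cF : IsCompact F) (hn : F.Nonempty)
    (h : TInv F) {r : E m} (hr : ∀ j, 0 < r j) (hm : ∀ j, r j • om m j ∈ F)
    (hv : volume F ≤ ENNReal.ofReal (∏ j, r j)) {t : E m} (ht : ∀ j, 0 ≤ t j)
    (htF : comb (om m) t ∈ F) : ∑ j, t j / r j ≤ 1 := by
  obtain ⟨v, hvF⟩ := hn
  have h1 := rzero_sub hF (zero_mem_T hF h hvF) hr hm
  have h2 := rzero_volA hr
  have f0 : (m.factorial : ℝ≥0∞) ≠ 0 := Nat.cast_ne_zero.2 m.factorial_ne_zero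
  have h3 : volume (rzero_C F) ≤ volume (rzero_A r) := by
    rw [← ENNReal.mul_le_mul_iff_right f0 (ENNReal.natCast_ne_top _), h2]
    exact (rzero_volC cF h).trans hv
  have h4 : volume (rzero_A r) ≠ ∞ := fun e => by
    rw [e, ENNReal.mul_top f0] at h2
    exact ENNReal.ofReal_ne_top h2.symm
  have h5 : volume (rzero_C F) ≠ 0 := fun e => by
    rw [measure_mono_null h1 e, mul_zero, eq_comm, ENNReal.ofReal_eq_zero] at h2
    exact (Finset.prod_pos fun j _ => hr j).not_ge h2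
  have h6 : IsClosed (rzero_A r) := by
    have : rzero_A r = (⋂ j, {t : E m | 0 ≤ t j}) ∩ {t | ∑ j, t j / r j ≤ 1} := by
      ext; simp [rzero_A]
    rw [this]
    exact (isClosed_iInter fun j => isClosed_le continuous_const (continuous_apply j)).inter
      (isClosed_le (by fun_prop) continuous_const)
  have h7 : (interior (rzero_C F)).Nonempty := by
    by_contra e
    rw [not_nonempty_iff_eq_empty] at e
    refine h5 (measure_mono_null (fun x hx => ?_) ((rzero_convex hF).addHaar_frontier volume))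
    rw [frontier, e, diff_empty]
    exact subset_closure hx
  exact (eq_of_vol (rzero_convex hF) h7 h6 h1 h3 h4 ⟨ht, htF⟩).2

end Pool.Agent.MP_5f4cdd_gt.W

end

section

set_option autoImplicit false
open MeasureTheory ENNReal Set Function Filter Topology Pointwise

namespace Pool.Agent.MP_5f4cdd_gt.W

open PL EF AB

variable {n k m : ℕ}

lemma rbf_sym (x y : E m) : x ⬝ᵥ Gam m y = y ⬝ᵥ Gam m x := by
  rw [dot_Gam, dot_Gam, dotProduct_comm]

lemma rbf_comb (v t : E m) : v ⬝ᵥ Gam m (comb (om m) t) = ∑ j, t j * (v ⬝ᵥ Gam m (om m j)) := by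
  simp only [comb, map_sum, map_smul, dotProduct_sum, dotProduct_smul, smul_eq_mul]

lemma rbf_pos (i j : Fin m) : 0 < om m i ⬝ᵥ Gam m (om m j) := by
  rw [om_dot]
  have h : ((max (i : ℕ) j : ℕ) : ℝ) < m := by exact_mod_cast max_lt i.2 j.2
  exact div_pos (mul_pos (by positivity) (sub_pos.2 h)) (by positivity)

lemma rbf_inv (σ : Equiv.Perm (Fin (m + 1))) (v : E m) : Tp σ (Tp σ⁻¹ v) = v := by
  rw [Tp_Tp, inv_mul_cancel, Tp_one]

lemma rbf_rad {F : Set (E m)} (cF : IsCompact F) (h0 : (0 : E m) ∈ interior F) {w : E m}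
    (hw : w ≠ 0) : ∃ r : ℝ, 0 < r ∧ r • w ∈ F ∧ ∀ s : ℝ, s • w ∈ F → s ≤ r := by
  have he := isClosedEmbedding_smul_left (𝕜 := ℝ) hw
  have h1 : (fun s : ℝ => s • w) ⁻¹' F ∈ 𝓝 (0 : ℝ) :=
    he.continuous.continuousAt.preimage_mem_nhds (by
      simpa only [zero_smul] using mem_interior_iff_mem_nhds.1 h0)
  obtain ⟨s, hs, s0⟩ := (Eventually.and (mem_nhdsWithin_of_mem_nhds h1)
    (self_mem_nhdsWithin (s := Ioi (0 : ℝ)))).exists
  obtain ⟨r, hr, hm⟩ := (he.isCompact_preimage cF).exists_isGreatest ⟨s, hs⟩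
  exact ⟨r, s0.trans_le (hm hs), hr, fun s hs => hm hs⟩

lemma rbf_swap (x : E m) (j : Fin m) : Tp (Equiv.swap j.castSucc j.succ) x ⬝ᵥ Gam m (om m j) =
    x ⬝ᵥ Gam m (om m j) - (bet m x j.castSucc - bet m x j.succ) := by
  have h : j.castSucc ∈ Finset.univ.filter fun s : Fin (m + 1) => s ≤ j.castSucc := by simp
  rw [dot_Gam_om, dot_Gam_om, ← Finset.add_sum_erase _ _ h, ← Finset.add_sum_erase _ _ h,
    bet_Tp_apply, Equiv.swap_apply_left, Finset.sum_congr rfl fun s hs => ?_]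
  · ring
  rw [Finset.mem_erase, Finset.mem_filter] at hs
  rw [bet_Tp_apply, Equiv.swap_apply_of_ne_of_ne hs.1 (hs.2.2.trans_lt j.castSucc_lt_succ).ne]

lemma rbf_pair {F G : Set (E (m + 1))} (cF : IsCompact F) (h : TInv F) {r s : E (m + 1)}
    (hr : ∀ j, 0 < r j) (hs : ∀ j, 0 < s j) (mF : ∀ j, r j • om _ j ∈ F)
    (mG : ∀ j, s j • om _ j ∈ G)
    (eF : ∀ t : E (m + 1), (∀ j, 0 ≤ t j) → comb (om _) t ∈ F → ∑ j, t j / r j ≤ 1)
    (eG : ∀ t : E (m + 1), (∀ j, 0 ≤ t j) → comb (om _) t ∈ G → ∑ j, t j / s j ≤ 1)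
    (hG : ∀ z, z ∈ G ↔ ∀ v ∈ F, v ⬝ᵥ Gam _ z ≤ 1) :
    ∃ i, ∀ j, r i * (om _ i ⬝ᵥ Gam _ (om _ j)) * s j = 1 := by
  have hle : ∀ v ∈ F, ∀ j, v ⬝ᵥ Gam _ (om _ j) * s j ≤ 1 := fun v hv j => by
    have := (hG _).1 (mG j) v hv
    rwa [map_smul, dotProduct_smul, smul_eq_mul, mul_comm] at this
  obtain ⟨x, hx, hmax⟩ := cF.exists_isMaxOn ⟨_, mF 0⟩
    (f := fun v => ∑ j, v ⬝ᵥ Gam _ (om _ j)) (by fun_prop)
  have h0 : 0 < ∑ j, x ⬝ᵥ Gam _ (om _ j) := lt_of_lt_of_le (Finset.sum_pos (fun j _ => by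
    rw [smul_dotProduct]
    exact mul_pos (hr 0) (rbf_pos 0 j)) Finset.univ_nonempty) (hmax (mF 0))
  have h1 := eG (fun _ => (∑ j, x ⬝ᵥ Gam _ (om _ j))⁻¹) (fun _ => (inv_pos.2 h0).le)
    ((hG _).2 fun v hv => by
      rw [rbf_comb, ← Finset.mul_sum, inv_mul_le_one₀ h0]
      exact hmax hv)
  simp only [div_eq_mul_inv] at h1
  rw [← Finset.mul_sum, inv_mul_le_one₀ h0] at h1
  have h2 : ∀ j ∈ Finset.univ, x ⬝ᵥ Gam _ (om _ j) ≤ (s j)⁻¹ := fun j _ => by
    rw [← one_div, le_div_iff₀ (hs j)]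
    exact hle x hx j
  have h3 : ∀ j, x ⬝ᵥ Gam _ (om _ j) * s j = 1 := fun j => by
    rw [(Finset.sum_eq_sum_iff_of_le h2).1 ((Finset.sum_le_sum h2).antisymm h1) j
      (Finset.mem_univ j), inv_mul_cancel₀ (hs j).ne']
  have ht : ∀ j : Fin (m + 1), 0 ≤ bet _ x j.castSucc - bet _ x j.succ := fun j => by
    have := hle _ (h (Equiv.swap j.castSucc j.succ) x hx) j
    rw [rbf_swap, sub_mul, h3, sub_le_self_iff] at this
    exact nonneg_of_mul_nonneg_left this (hs j)
  obtain ⟨t, ht', rfl⟩ : ∃ t : E (m + 1), (∀ j, 0 ≤ t j) ∧ comb (om _) t = x :=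
    ⟨_, ht, comb_om_diff x⟩
  have h4 := eF t ht' hx
  obtain ⟨i, hi⟩ : ∃ i, t i ≠ 0 := by
    by_contra! hc
    have := h3 0
    simp only [rbf_sym (comb _ _), rbf_comb, hc, zero_mul, Finset.sum_const_zero] at this
    exact zero_ne_one this
  refine ⟨i, fun j => ?_⟩
  have h5 : ∀ i ∈ Finset.univ, t i * (om _ j ⬝ᵥ Gam _ (om _ i)) * s j ≤ t i / r i := fun i _ => by
    have := hle _ (mF i) j
    rw [smul_dotProduct, smul_eq_mul, rbf_sym] at this
    rw [le_div_iff₀ (hr i)]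
    nlinarith [mul_le_mul_of_nonneg_left this (ht' i)]
  have h6 := h3 j
  rw [rbf_sym, rbf_comb, Finset.sum_mul] at h6
  have h7 := (Finset.sum_eq_sum_iff_of_le h5).1 ((Finset.sum_le_sum h5).antisymm (h6 ▸ h4)) i
    (Finset.mem_univ i)
  rw [eq_div_iff (hr i).ne', rbf_sym] at h7
  exact mul_left_cancel₀ hi (by linear_combination h7)

lemma rbf_end {i i1 : Fin (m + 1)} (h : ∀ j, om _ i ⬝ᵥ Gam _ (om _ j) *
    (om _ i1 ⬝ᵥ Gam _ (om _ j)) = om _ i ⬝ᵥ Gam _ (om _ i1) * cA _ j) :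
    i1 = 0 ∨ i1 = Fin.last m := by
  have h0 := h 0
  have h1 := h (Fin.last m)
  have hi : (i : ℝ) ≤ m := by exact_mod_cast i.is_le
  have hi1 : (i1 : ℝ) ≤ m := by exact_mod_cast i1.is_le
  have n0 : (0 : ℝ) ≤ i := Nat.cast_nonneg _
  have n1 : (0 : ℝ) ≤ i1 := Nat.cast_nonneg _
  simp only [om_dot, cA, Fin.val_zero, Fin.val_last, Nat.min_zero, Nat.max_zero,
    min_eq_left i.is_le, min_eq_left i1.is_le, max_eq_right i.is_le, max_eq_right i1.is_le] at h0 h1
  rcases le_total (i : ℕ) i1 with e | e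
  · right
    rw [min_eq_left e] at h1
    rw [max_eq_right e] at h1
    push_cast at h1
    field_simp at h1
    have : (i1 : ℝ) = m := by nlinarith
    exact Fin.ext (by exact_mod_cast this)
  · left
    rw [min_eq_right e] at h0
    rw [max_eq_left e] at h0
    push_cast at h0
    have hp : (m + 1 - i : ℝ) ≠ 0 := by linarith
    field_simp at h0
    have : (i1 : ℝ) = 0 := by nlinarith
    exact_mod_cast this

lemma rbf_cS {F : Set (E m)} {b : ℝ} (hb : b ≠ 0) (h : ∀ v, v ∈ F ↔ ∀ l, b * bet m v l ≤ 1) :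
    ∃ a : ℝ, a ≠ 0 ∧ F = a • cS m 1 := by
  have hm : (0 : ℝ) < m + 1 := by positivity
  have ha : -(m + 1) / b ≠ 0 := div_ne_zero (neg_ne_zero.2 hm.ne') hb
  refine ⟨_, ha, Set.ext fun v => ?_⟩
  rw [h, mem_smul_set_iff_inv_smul_mem₀ ha]
  refine forall_congr' fun l => ?_
  rw [map_smul, Pi.smul_apply, smul_eq_mul, inv_div, div_neg, neg_mul, neg_le_neg_iff,
    div_mul_eq_mul_div, div_le_div_iff_of_pos_right hm]

/-- the equality case for bodies with all the symmetries of the simplex -/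
theorem bf_eq {F : Set (E (m + 1))} (hF : Body F) (h : TInv F)
    (hM : mahlerInf F ≤ mahlerInf (cS (m + 1) 1)) : ∃ a : ℝ, a ≠ 0 ∧ F = a • cS (m + 1) 1 := by
  have h0 : (0 : E (m + 1)) ∈ interior F := by
    obtain ⟨v, hv⟩ := hF.int
    refine zero_mem_T hF.conv.interior (fun σ v hv => ?_) hv
    exact interior_maximal (image_subset_iff.2 fun z hz => h σ z (interior_subset hz))
      ((Tp σ).isOpenMap_of_finiteDimensional (fun z => ⟨_, rbf_inv σ z⟩) _ isOpen_interior)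
      (mem_image_of_mem _ hv)
  have hd : LinearMap.det (Gam (m + 1)) ≠ 0 := by
    rw [det_Gam]
    positivity
  have hk : LinearMap.ker (Gam (m + 1)) = ⊥ :=
    by_contra fun e => hd (LinearMap.det_eq_zero_iff_ker_ne_bot.2 e)
  have hP := body_polar hF h0
  obtain ⟨G, hGd⟩ : ∃ G, G = Gam (m + 1) ⁻¹' polarS F := ⟨_, rfl⟩
  have hG : ∀ z, z ∈ G ↔ ∀ v ∈ F, v ⬝ᵥ Gam _ z ≤ 1 := fun z => by rw [hGd]; rfl
  have vG : Convex ℝ G := hGd ▸ hP.conv.linear_preimage _
  have cG : IsCompact G :=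
    hGd ▸ (LinearMap.isClosedEmbedding_of_injective hk).isCompact_preimage hP.comp
  have tG : TInv G := fun σ z hz => (hG _).2 fun v hv => by
    rw [← rbf_inv σ v, dot_Gam_Tp]
    exact (hG z).1 hz _ (h _ v hv)
  have hF' : ∀ v, v ∈ F ↔ ∀ z ∈ G, z ⬝ᵥ Gam _ v ≤ 1 := fun v => by
    refine ⟨fun hv z hz => rbf_sym v z ▸ (hG z).1 hz v hv, fun hv => ?_⟩
    rw [← bipolar hF.conv hF.comp.isClosed (interior_subset h0)]
    intro w hw
    obtain ⟨z, rfl⟩ := LinearMap.injective_iff_surjective.1 (LinearMap.ker_eq_bot.1 hk) w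
    rw [dotProduct_comm, rbf_sym]
    exact hv z (hGd ▸ hw)
  choose r hr mF hmax using fun j => rbf_rad hF.comp h0 (om_ne j)
  obtain ⟨s, hsd⟩ : ∃ s : E (m + 1), ∀ j, s j = (r j * cA _ j)⁻¹ := ⟨_, fun _ => rfl⟩
  have hs : ∀ j, 0 < s j := fun j => hsd j ▸ inv_pos.2 (mul_pos (hr j) (cA_pos j))
  have mG : ∀ j, s j • om _ j ∈ G := fun j => (hG _).2 fun v hv => by
    rw [map_smul, dotProduct_smul, smul_eq_mul, hsd, inv_mul_le_one₀ (mul_pos (hr j) (cA_pos j)),
      ← div_le_iff₀ (cA_pos j)]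
    exact hmax j _ (proj_mem_T hF.conv h hv j)
  have nF : F.Nonempty := ⟨_, mF 0⟩
  have nG : G.Nonempty := ⟨_, mG 0⟩
  have fF := hF.comp.measure_lt_top (μ := volume).ne
  have fG := cG.measure_lt_top (μ := volume).ne
  have pr : 0 < ∏ j, r j := Finset.prod_pos fun j _ => hr j
  have ps : 0 < ∏ j, s j := Finset.prod_pos fun j _ => hs j
  have v1 := (ENNReal.ofReal_le_iff_le_toReal fF).1 (vol_ge_T hF.conv hF.comp nF h hr mF)
  have v2 := (ENNReal.ofReal_le_iff_le_toReal fG).1 (vol_ge_T vG cG nG tG hs mG)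
  have v3 : (volume F).toReal * (volume G).toReal ≤ (∏ j, r j) * ∏ j, s j := by
    have e1 : (∏ j, r j) * ∏ j, s j = (∏ j, cA (m + 1) j)⁻¹ := by
      rw [← Finset.prod_mul_distrib, ← Finset.prod_inv_distrib]
      exact Finset.prod_congr rfl fun j _ => by rw [hsd, mul_inv, mul_inv_cancel_left₀ (hr j).ne']
    have e2 := ENNReal.toReal_mono (mahlerInf_cS_lt_top (n := m + 1)).ne hM
    have e3 := AB.mahlerInf_cS_le (n := m + 1)
    rw [mahlerInf_polar hF.comp.isBounded (interior_subset h0), ENNReal.toReal_mul,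
      ENNReal.toReal_mul, ENNReal.toReal_natCast] at e2
    have hf : (0 : ℝ) < (m + 1).factorial := Nat.cast_pos.2 (Nat.factorial_pos _)
    rw [e1, prod_cA, hGd, Measure.addHaar_preimage_linearMap _ hd, det_Gam, ENNReal.toReal_mul,
      ENNReal.toReal_ofReal (abs_nonneg _), abs_of_pos (by positivity), inv_div, mul_left_comm,
      le_div_iff₀ (by positivity), mul_assoc, inv_mul_le_iff₀ (by positivity), ← pow_succ']
    nlinarith [mul_le_mul_of_nonneg_left e2 hf.le]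
  have eF := fun t ht => eq_T hF.conv hF.comp nF h hr mF
    ((ENNReal.le_ofReal_iff_toReal_le fF pr.le).2 (by nlinarith)) (t := t) ht
  have eG := fun t ht => eq_T vG cG nG tG hs mG
    ((ENNReal.le_ofReal_iff_toReal_le fG ps.le).2 (by nlinarith)) (t := t) ht
  obtain ⟨i, hi⟩ := rbf_pair hF.comp h hr hs mF mG eF eG hG
  obtain ⟨i1, hi1⟩ := rbf_pair cG tG hs hr mG mF eG eF hF'
  have key : ∀ v, v ∈ F ↔ ∀ σ, s i1 * (Tp σ v ⬝ᵥ Gam _ (om _ i1)) ≤ 1 := fun v => by
    refine ⟨fun hv σ => ?_, fun hv => ?_⟩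
    · have := (hG _).1 (mG i1) _ (h σ v hv)
      rwa [map_smul, dotProduct_smul] at this
    obtain ⟨σ, t, ht, e⟩ := sort_T v
    have h1 := hv σ
    rw [e, rbf_sym, rbf_comb, Finset.mul_sum, Finset.sum_congr rfl fun j _ =>
      show _ = t j / r j by rw [eq_div_iff (hr j).ne']; linear_combination t j * hi1 j] at h1
    have h2 := hF.conv.sum_mem (t := Finset.univ)
      (w := fun o : Option (Fin (m + 1)) => o.elim (1 - ∑ j, t j / r j) fun j => t j / r j)
      (z := fun o => o.elim 0 fun j => r j • om _ j)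
      (fun o _ => by cases o; exacts [sub_nonneg.2 h1, div_nonneg (ht _) (hr _).le])
      (by simp [Fintype.sum_option])
      fun o _ => by cases o; exacts [interior_subset h0, mF _]
    simp only [Fintype.sum_option, Option.elim, smul_zero, zero_add, smul_smul,
      div_mul_cancel₀ _ (hr _).ne'] at h2
    rw [← rbf_inv σ⁻¹ v, inv_inv, e]
    exact h _ _ h2
  have hp : ∀ (l : Fin (m + 2)) (P : Fin (m + 2) → Prop),
      (∀ σ : Equiv.Perm (Fin (m + 2)), P (σ l)) ↔ ∀ l, P l := fun l P =>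
    ⟨fun e l' => by simpa using e (Equiv.swap l l'), fun e _ => e _⟩
  rcases rbf_end (i := i) (i1 := i1) (fun j => by
    have e := hsd j
    rw [inv_eq_one_div, eq_div_iff (mul_pos (hr j) (cA_pos j)).ne'] at e
    refine mul_left_cancel₀ (mul_pos (hr i) (hs i1)).ne' ?_
    linear_combination (s i1 * (om _ i1 ⬝ᵥ Gam _ (om _ j)) * r j * cA _ j) * hi j +
      cA _ j * hi1 j - cA _ j * hi i1 -
      (r i * s i1 * (om _ i ⬝ᵥ Gam _ (om _ j)) * (om _ i1 ⬝ᵥ Gam _ (om _ j))) * e) with rfl | rfl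
  · refine rbf_cS (hs 0).ne' fun v => ?_
    rw [key, ← hp 0]
    refine forall_congr' fun σ => ?_
    rw [dot_Gam_om, ← bet_Tp_apply, Finset.sum_eq_single_of_mem 0 (by simp) fun l hl h => ?_]
    exact absurd (by simpa using hl) h
  · refine rbf_cS (neg_ne_zero.2 (hs (Fin.last m)).ne') fun v => ?_
    rw [key, ← hp (Fin.last _)]
    refine forall_congr' fun σ => ?_
    have e := sum_bet (Tp σ v)
    rw [← Finset.add_sum_erase _ _ (Finset.mem_univ (Fin.last _)), add_eq_zero_iff_neg_eq] at e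
    rw [dot_Gam_om, ← bet_Tp_apply, neg_mul_comm, e]
    congr! 3
    ext l
    simp only [Finset.mem_filter, Finset.mem_univ, true_and, Finset.mem_erase, and_true,
      Fin.le_def, Fin.val_castSucc, Fin.val_last, ne_eq, Fin.ext_iff]
    omega

end Pool.Agent.MP_5f4cdd_gt.W

end

section

set_option autoImplicit false
open MeasureTheory ENNReal Set Function Filter Topology Pointwise

namespace Pool.Agent.MP_5f4cdd_gt.W

open PL EF AB

variable {n k m : ℕ}

lemma rone_pow_le {x y : ℝ≥0∞} (h : x ^ (m + 1) ≤ y ^ (m + 1)) : x ≤ y :=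
  (ENNReal.pow_le_pow_left_iff m.succ_ne_zero).1 h

lemma rone_low {W : Set (E n)} (h : Sharp W) (e : Fin k ⊕ Fin m ≃ Fin n) (a : E k) :
    mahlerInf (cS n 1) ≤ mahlerInf (shift e a W) :=
  h.2.1.trans (iInf_le _ _)

lemma rone_prod_low {μ : Fin m → ℝ≥0∞} {x : ℝ≥0∞} (h : ∀ j, x ≤ μ j) : x ^ m ≤ ∏ j, μ j := by
  simpa using Finset.prod_le_prod' (s := Finset.univ) (f := fun _ : Fin m => x) fun j _ => h j

lemma rone_each {μ : Fin (m + 1) → ℝ≥0∞} {x : ℝ≥0∞} (h0 : x ≠ 0) (ht : x ≠ ∞)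
    (h : ∀ j, x ≤ μ j) (hp : ∏ j, μ j ≤ x ^ (m + 1)) (j : Fin (m + 1)) : μ j ≤ x := by
  rw [Fin.prod_univ_succAbove μ j, pow_succ'] at hp
  have h1 := (mul_le_mul' le_rfl (rone_prod_low fun i => h (j.succAbove i))).trans hp
  exact (ENNReal.mul_le_mul_iff_left (pow_ne_zero _ h0) (pow_ne_top ht)).1 h1

lemma rone_compact_pre (e : Fin k ⊕ Fin m ≃ Fin n) {K : Set (E n)} (cK : IsCompact K) :
    IsCompact (wpf_j e ⁻¹' K) := by
  have : wpf_j e ⁻¹' K = (fun x : E n =>
      ((fun i => x (e (Sum.inl i)), fun j => x (e (Sum.inr j))) : E k × E m)) '' K := by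
    ext p
    constructor
    · intro hp
      exact ⟨_, hp, Prod.ext (funext fun i => wpf_j_inl e p i) (funext fun i => wpf_j_inr e p i)⟩
    · rintro ⟨x, hx, rfl⟩
      have : wpf_j e (fun i => x (e (Sum.inl i)), fun j => x (e (Sum.inr j))) = x := by
        funext i
        obtain ⟨i, rfl⟩ := e.surjective i
        cases i <;> simp [wpf_j]
      rw [mem_preimage, this]
      exact hx
  rw [this]
  exact cK.image (by fun_prop)

lemma rone_compact_fibr (e : Fin k ⊕ Fin m ≃ Fin n) {K : Set (E n)} (cK : IsCompact K)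
    (u : E k) : IsCompact (fibr e K u) := by
  refine ((rone_compact_pre e cK).image continuous_snd).of_isClosed_subset
    (cK.isClosed.preimage ((continuous_wpf_j e).comp (f := fun v : E m => (u, v)) (by fun_prop)))
    fun v hv => ⟨(u, v), hv, rfl⟩

lemma rone_compact_base (e : Fin k ⊕ Fin m ≃ Fin n) {K : Set (E n)} (cK : IsCompact K) :
    IsCompact (base e K) := by
  refine ((rone_compact_pre e cK).image continuous_fst).of_isClosed_subset
    (cK.isClosed.preimage ((continuous_wpf_j e).comp (f := fun u : E k => (u, (0 : E m)))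
      (by fun_prop))) fun u hu => ⟨(u, 0), hu, rfl⟩

lemma rone_congr (e : Fin k ⊕ Fin m ≃ Fin n) {B : Set (E k)} {τ τ' : E k → ℝ}
    {S S' : Set (E m)} (h : ∀ u ∈ B, τ u • S = τ' u • S') : fibS e B τ S = fibS e B τ' S' := by
  ext x
  exact and_congr_right fun hx => by rw [h _ hx]

lemma rone_zero (e : Fin k ⊕ Fin m ≃ Fin n) {K : Set (E n)} (hK : Body K)
    (h : ∀ u, TInv (fibr e K u)) {u : E k} (hu : u ∈ base e K) (i j : Fin m)
    (hi : rad e K (om m i) u = 0) : rad e K (om m j) u = 0 := by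
  obtain ⟨a1, -, a3⟩ := rad_spec e hK.conv hK.comp (om_ne j) hu
  obtain ⟨-, b2, -⟩ := rad_spec e hK.conv hK.comp (om_ne i) hu
  have h1 := b2 _ (proj_mem_T (convex_fibr e hK.conv u) (h u) (a3 _ a1 le_rfl) i)
  rw [hi, smul_dotProduct, smul_eq_mul, div_le_iff₀ (cA_pos i), zero_mul] at h1
  have h2 : 0 < om m j ⬝ᵥ Gam m (om m i) := by
    rw [om_dot]
    have : ((max (j : ℕ) i : ℕ) : ℝ) < m := by exact_mod_cast max_lt j.2 i.2
    have : (0 : ℝ) < m - (max (j : ℕ) i : ℕ) := by linarith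
    positivity
  exact le_antisymm (by nlinarith) a1

lemma rone_tinv_int {F : Set (E m)} (h : TInv F) : TInv (interior F) := by
  intro σ v hv
  have ho : IsOpenMap (Tp σ) := (Tp σ).isOpenMap_of_finiteDimensional fun z =>
    ⟨Tp σ⁻¹ z, by rw [Tp_Tp, inv_mul_cancel, Tp_one]⟩
  refine interior_mono ?_ (ho.image_interior_subset F ⟨v, hv, rfl⟩)
  rintro _ ⟨w, hw, rfl⟩
  exact h σ w hw

lemma rone_int {F : Set (E m)} (hF : Convex ℝ F) (hv : volume F ≠ 0) :
    (interior F).Nonempty := by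
  by_contra hn
  rw [not_nonempty_iff_eq_empty] at hn
  refine hv (measure_mono_null ?_ (hF.addHaar_frontier volume))
  rw [frontier, hn, sdiff_empty]
  exact subset_closure

lemma rone_struct (e : Fin k ⊕ Fin (m + 1) ≃ Fin n) {K : Set (E n)} (hK : Body K)
    (h : ∀ u, TInv (fibr e K u))
    (hc : ∀ j, IsCompact (Wg e K (om (m + 1) j) (cS (m + 1) 1)))
    (hf : ∀ j, ∃ f : E n ≃ᵃ[ℝ] E n, Wg e K (om (m + 1) j) (cS (m + 1) 1) = f '' stdS n)
    (hv : (volume K * volume (cS (m + 1) 1)) ^ (m + 1) ≤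
      ∏ j, volume (Wg e K (om (m + 1) j) (cS (m + 1) 1))) :
    ∃ F : Set (E (m + 1)), Body F ∧ TInv F ∧ 0 ∈ interior F ∧
      K = fibS e (base e K) (rad e K (om (m + 1) 0)) F := by
  have hτ : ∀ j, ∀ u ∈ base e K, 0 ≤ rad e K (om (m + 1) j) u := fun j u hu =>
    (rad_spec e hK.conv hK.comp (om_ne j) hu).1
  have hcone := fun j => (hf j).elim fun f hf => cone_of_simplex e (hτ j) f hf
  obtain ⟨b, l, hb, hb0, hl0, hl⟩ := hcone 0
  have hlj : ∀ j, ∀ u ∈ base e K,
      rad e K (om (m + 1) j) u = l u * rad e K (om (m + 1) j) b := by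
    intro j u hu
    obtain ⟨b', l', -, -, hl', -⟩ := hcone j
    obtain ⟨-, -, u', hu', h1, h2⟩ := hl u hu
    have h3 : l' u = l u * l' b + (1 - l u) * l' u' := by
      have := l'.apply_lineMap u' b (l u)
      rw [AffineMap.lineMap_apply_module, AffineMap.lineMap_apply_module, add_comm, ← h2] at this
      rw [this, smul_eq_mul, smul_eq_mul, add_comm]
    have h4 : (1 - l u) * rad e K (om (m + 1) j) u' = 0 := by
      rcases mul_eq_zero.1 h1 with h1 | h1
      · rw [h1, zero_mul]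
      · rw [rone_zero e hK h hu' 0 j (by rw [hl0 u' hu', h1, zero_mul]), mul_zero]
    rw [hl' u' hu'] at h4
    rw [hl' u hu, hl' b hb, h3]
    linear_combination h4
  have hbj : ∀ j, 0 < rad e K (om (m + 1) j) b := fun j =>
    (hτ j b hb).lt_of_ne' fun h0 => hb0.ne' (rone_zero e hK h hb j 0 h0)
  set Λ := ∫⁻ u, (base e K).indicator (fun u => ENNReal.ofReal (l u ^ (m + 1))) u with hΛ
  have hW : ∀ j, volume (Wg e K (om (m + 1) j) (cS (m + 1) 1)) =
      ENNReal.ofReal (rad e K (om (m + 1) j) b) ^ (m + 1) * (Λ * volume (cS (m + 1) 1)) := by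
    intro j
    rw [Wg, wpf_vol e (hτ j) (isCompact_cS zero_le_one) (hc j), ← mul_assoc, hΛ,
      ← lintegral_const_mul' _ _ (pow_ne_top ofReal_ne_top)]
    congr 1
    refine lintegral_congr fun u => ?_
    by_cases hu : u ∈ base e K
    · rw [indicator_of_mem hu, indicator_of_mem hu, hlj j u hu, mul_pow,
        ENNReal.ofReal_mul (pow_nonneg (hl u hu).1 _), ENNReal.ofReal_pow (hbj j).le, mul_comm]
    · simp [hu]
  simp only [hW, Finset.prod_mul_distrib, Finset.prod_pow, Finset.prod_const, Finset.card_univ,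
    Fintype.card_fin] at hv
  rw [← mul_pow, ← mul_pow, ← mul_assoc] at hv
  have hv1 := (ENNReal.mul_le_mul_iff_left (volume_cS_pos one_pos).ne'
    (volume_cS_lt_top zero_le_one).ne).1 (rone_pow_le hv)
  rw [← ENNReal.ofReal_prod_of_nonneg fun j _ => (hbj j).le] at hv1
  have cF := rone_compact_fibr e hK.comp b
  have vF := convex_fibr e hK.conv b
  have hP := vol_ge_T vF cF ⟨0, hb⟩ (h b) hbj fun j =>
    (rad_spec e hK.conv hK.comp (om_ne j) hb).2.2 _ (hbj j).le le_rfl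
  have cK1 : IsCompact (fibS e (base e K) l (fibr e K b)) := by
    have : fibS e (base e K) l (fibr e K b) =
        (fun p : E k × E (m + 1) => wpf_j e (p.1, l p.1 • p.2)) '' (base e K ×ˢ fibr e K b) := by
      ext x
      obtain ⟨⟨u, v⟩, rfl⟩ := wpf_surj e x
      constructor
      · intro hx
        obtain ⟨hu, w, hw, rfl⟩ : u ∈ base e K ∧ v ∈ l u • fibr e K b := (wpf_mem e _).1 hx
        exact ⟨(u, w), ⟨hu, hw⟩, rfl⟩
      · rintro ⟨⟨u', w⟩, ⟨hu, hw⟩, hx⟩
        rw [← hx, wpf_mem]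
        exact ⟨hu, smul_mem_smul_set hw⟩
    rw [this]
    have hlc : Continuous l := l.continuous_of_finiteDimensional
    exact ((rone_compact_base e hK.comp).prod cF).image
      ((continuous_wpf_j e).comp (by fun_prop))
  have sK1 : fibS e (base e K) l (fibr e K b) ⊆ K := by
    intro x hx
    obtain ⟨⟨u, v⟩, rfl⟩ := wpf_surj e x
    obtain ⟨hu, w, hw, rfl⟩ : u ∈ base e K ∧ v ∈ l u • fibr e K b := (wpf_mem e _).1 hx
    obtain ⟨l0, l1, u', hu', -, h2⟩ := hl u hu
    have := hK.conv hw hu' l0 (sub_nonneg.2 l1) (by ring)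
    rw [← wpf_j_combo] at this
    convert this using 2
    exact Prod.ext h2 (by simp)
  have hK1 : K = fibS e (base e K) l (fibr e K b) := by
    refine Subset.antisymm (eq_of_vol hK.conv hK.int cK1.isClosed sK1 ?_ cK1.measure_lt_top.ne) sK1
    rw [wpf_vol e (fun u hu => (hl u hu).1) cF cK1, mul_comm]
    exact hv1.trans (mul_le_mul' hP le_rfl)
  have iF : (interior (fibr e K b)).Nonempty := rone_int vF
    ((ENNReal.ofReal_pos.2 (Finset.prod_pos fun j _ => hbj j)).trans_le hP).ne'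
  have zF : (0 : E (m + 1)) ∈ interior (fibr e K b) :=
    zero_mem_T vF.interior (rone_tinv_int (h b)) iF.some_mem
  have hne : (rad e K (om (m + 1) 0) b)⁻¹ ≠ 0 := inv_ne_zero hb0.ne'
  have zF1 : (0 : E (m + 1)) ∈ interior ((rad e K (om (m + 1) 0) b)⁻¹ • fibr e K b) := by
    rw [interior_smul₀ hne]
    exact ⟨0, zF, smul_zero _⟩
  refine ⟨(rad e K (om (m + 1) 0) b)⁻¹ • fibr e K b, ⟨vF.smul _, cF.smul _, ⟨0, zF1⟩⟩, ?_, zF1,
    hK1.trans (rone_congr e fun u hu => ?_)⟩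
  · rintro σ _ ⟨w, hw, rfl⟩
    exact ⟨_, h b σ w hw, (map_smul _ _ _).symm⟩
  · rw [smul_smul, hl0 u hu, mul_assoc, mul_inv_cancel₀ hb0.ne', mul_one]

theorem sharp_S (hm : 1 ≤ m) (e : Fin k ⊕ Fin (m + 1) ≃ Fin n) {K : Set (E n)} (hK : Body K)
    (h : ∀ u, SInv (fibr e K u))
    (hW : ∀ j, Sharp (Wg e K (omB (m + 1) j) (cS (m + 1) 1))) : Sharp K := by
  obtain ⟨c, hc⟩ := exists_centre hK
  have h1 := mid_S e hK h c
  rw [hc] at h1
  have h2 := pq_S e hK h (fun j => (hW j).1.comp) fun j => c (e (Sum.inl j))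
  have h3 := (mul_le_mul' (rone_prod_low fun j =>
    rone_low (hW j) e fun j => c (e (Sum.inl j))) le_rfl).trans h2
  rw [← mul_pow] at h3
  have h4 := rone_pow_le h3
  have h5 : mahlerInf (cS n 1) < mstarInf K := by
    by_contra hle
    have h6 := h4.trans (mul_le_mul' (h1.trans (not_lt.1 hle)) le_rfl)
    rw [ENNReal.mul_le_mul_iff_right mahlerInf_cS_pos.ne' mahlerInf_cS_lt_top.ne] at h6
    exact (mahler_cS_lt hm).not_ge h6
  exact ⟨hK, h5.le, fun h6 => absurd h6 h5.not_ge⟩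

theorem sharp_T (e : Fin k ⊕ Fin (m + 1) ≃ Fin n) {K : Set (E n)} (hK : Body K)
    (h : ∀ u, TInv (fibr e K u))
    (hW : ∀ j, Sharp (Wg e K (om (m + 1) j) (cS (m + 1) 1))) : Sharp K := by
  obtain ⟨c, hc⟩ := exists_centre hK
  have h1 := mid_T e hK h c
  rw [hc] at h1
  set a : E k := fun j => c (e (Sum.inl j))
  obtain ⟨h2, h3⟩ := pq_T e hK h (fun j => (hW j).1.comp) a
  have hX : ∀ L : Set (E n), mahlerInf (shift e a L) = volume L * ∫⁻ y, expS (shift e a L) y :=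
    fun L => by rw [PL.mahlerInf_eq, shift, volume_sub]
  have hV0 := pow_ne_zero (m + 1) (volume_cS_pos (n := m + 1) one_pos).ne'
  have hVt : volume (cS (m + 1) 1) ^ (m + 1) ≠ ∞ := pow_ne_top (volume_cS_lt_top zero_le_one).ne
  have h4 : ∏ j, mahlerInf (shift e a (Wg e K (om (m + 1) j) (cS (m + 1) 1))) ≤
      mahlerInf (shift e a K) ^ (m + 1) := by
    rw [← ENNReal.mul_le_mul_iff_left hV0 hVt]
    simp only [hX, Finset.prod_mul_distrib]
    refine (le_of_eq (mul_assoc _ _ _)).trans ((mul_le_mul' h2 h3).trans (le_of_eq ?_))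
    ring
  have h5 := rone_prod_low fun j => rone_low (hW j) e a
  have h6 := rone_pow_le (h5.trans h4)
  refine ⟨hK, h6.trans h1, fun hle => ?_⟩
  have h7 := h1.trans hle
  have m0 := (mahlerInf_cS_pos (n := n)).ne'
  have mt := (mahlerInf_cS_lt_top (n := n)).ne
  have h8 := rone_each m0 mt (fun j => rone_low (hW j) e a) (h4.trans (pow_le_pow_left' h7 _))
  have hf := fun j => (hW j).2.2 ((iInf_le _ _).trans (h8 j))
  have hQt : (∫⁻ y, expS (shift e a K) y) ≠ ∞ := by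
    intro ht
    rw [hX, ht, ENNReal.mul_top (Measure.measure_pos_of_nonempty_interior _ hK.int).ne'] at h7
    exact mt (top_le_iff.1 h7)
  have h9 := (pow_le_pow_left' h7 (m + 1)).trans h5
  simp only [hX, Finset.prod_mul_distrib] at h9 h5
  set Q := ∏ j, ∫⁻ y, expS (shift e a (Wg e K (om (m + 1) j) (cS (m + 1) 1))) y
  have Q0 : Q ≠ 0 := by
    intro h0
    rw [h0, mul_zero] at h5
    exact pow_ne_zero _ m0 (le_zero_iff.1 h5)
  have Qt : Q ≠ ∞ := by
    intro ht
    rw [ht, ENNReal.top_mul hV0] at h3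
    exact pow_ne_top hQt (top_le_iff.1 h3)
  obtain ⟨F, bF, tF, zF, hF⟩ := rone_struct e hK h (fun j => (hW j).1.comp) hf (by
    rw [← ENNReal.mul_le_mul_iff_left Q0 Qt]
    refine le_trans ?_ h9
    rw [mul_pow, mul_pow, mul_assoc, mul_comm _ Q]
    exact mul_le_mul' le_rfl h3)
  have hτ : ∀ u ∈ base e K, 0 ≤ rad e K (om (m + 1) 0) u := fun u hu =>
    (rad_spec e hK.conv hK.comp (om_ne 0) hu).1
  have h10 := prod_formula e hτ bF.comp (isCompact_cS zero_le_one) zF
    (zero_mem_interior_cS one_pos) (hF ▸ hK.comp) (hW 0).1.comp a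
  rw [← hF] at h10
  have h11 : mahlerInf (cS n 1) * mahlerInf F ≤ mahlerInf (cS n 1) * mahlerInf (cS (m + 1) 1) :=
    (mul_le_mul' (rone_low (hW 0) e a) le_rfl).trans (h10.symm.le.trans (mul_le_mul' h7 le_rfl))
  obtain ⟨t, ht, rfl⟩ := bf_eq bF tF ((ENNReal.mul_le_mul_iff_right m0 mt).1 h11)
  obtain ⟨f, hf0⟩ := hf 0
  refine ⟨f.trans (dgE _ (wnorm_ne e ht)), ?_⟩
  rw [AffineEquiv.coe_trans, image_comp, ← hf0, coe_dgE, Wg, wnorm_scale e _ _ _ ht]
  exact hF

end Pool.Agent.MP_5f4cdd_gt.W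

end

section

set_option autoImplicit false
open MeasureTheory ENNReal Set Function Filter Topology Pointwise

namespace Pool.Agent.MP_5f4cdd_gt.W

open PL EF AB

variable {n k m : ℕ}

section

variable {g : Fin n → Fin 3}

/-- put the sum of the block `j` on the direction `w` -/
noncomputable def rblock_col (g : Fin n → Fin 3) (j : Fin 3) (w : E n) : E n →ₗ[ℝ] E n where
  toFun x := fun i => if g i = j then bs g x j * w i else x i
  map_add' u v := by
    ext i; simp only [map_add, Pi.add_apply]; split_ifs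
    · ring
    · rfl
  map_smul' c u := by
    ext i; simp only [map_smul, Pi.smul_apply, RingHom.id_apply, smul_eq_mul]; split_ifs
    · ring
    · rfl

lemma rblock_col_apply (j : Fin 3) (w x : E n) (i : Fin n) :
    rblock_col g j w x i = if g i = j then bs g x j * w i else x i := rfl

/-- the body with simplex fibres attached to the direction `w` -/
def rblock_flat (g : Fin n → Fin 3) (j : Fin 3) (w : E n) (K : Set (E n)) : Set (E n) :=
  {x | (∀ i, g i = j → 0 ≤ x i) ∧ rblock_col g j w x ∈ K}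

lemma rblock_sumInv (j : Fin 3) (w : E n) (K : Set (E n)) : SumInv g j (rblock_flat g j w K) := by
  refine fun x hx => ⟨hx.1, fun y h1 h2 h3 => ⟨h2, ?_⟩⟩
  have : rblock_col g j w y = rblock_col g j w x := by
    ext i
    rw [rblock_col_apply, rblock_col_apply, h3]
    split_ifs with h
    · rfl
    · exact h1 i h
  rw [this]; exact hx.2

lemma rblock_sum {j j' : Fin 3} (hj : j' ≠ j) (w : E n) {K : Set (E n)} (h : SumInv g j' K) :
    SumInv g j' (rblock_flat g j w K) := by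
  have hne : ∀ i, g i = j' → g i ≠ j := fun i hi => hi ▸ hj
  have hne' : ∀ i, g i = j → g i ≠ j' := fun i hi => hi ▸ hj.symm
  refine fun x hx => ⟨fun i hi => ?_, fun y h1 h2 h3 => ⟨fun i hi => ?_, ?_⟩⟩
  · have := (h _ hx.2).1 i hi
    rwa [rblock_col_apply, if_neg (hne i hi)] at this
  · rw [h1 i (hne' i hi)]; exact hx.1 i hi
  · refine (h _ hx.2).2 _ (fun i hi => ?_) (fun i hi => ?_) ?_
    · rw [rblock_col_apply, rblock_col_apply, bs_congr fun i hi => h1 i (hne' i hi), h1 i hi]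
    · rw [rblock_col_apply, if_neg (hne i hi)]; exact h2 i hi
    · exact (bs_congr (x := y) fun i hi => by rw [rblock_col_apply, if_neg (hne i hi)]).trans
        (h3.trans (bs_congr (x := x) fun i hi => by
          rw [rblock_col_apply, if_neg (hne i hi)]).symm)

lemma rblock_update {j : Fin 3} (w x : E n) {i : Fin n} (hi : g i ≠ j) (c : ℝ) :
    rblock_col g j w (update x i c) = update (rblock_col g j w x) i c := by
  have hb : bs g (update x i c) j = bs g x j :=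
    bs_congr fun i' hi' => update_of_ne (fun (e : i' = i) => hi (e ▸ hi')) _ _
  ext i'
  rcases eq_or_ne i' i with rfl | hne
  · rw [rblock_col_apply, if_neg hi, update_self, update_self]
  · rw [rblock_col_apply, update_of_ne hne, update_of_ne hne, rblock_col_apply, hb]

lemma rblock_A {j j' : Fin 3} (hj : j' ≠ j) (w : E n) {K : Set (E n)} (h : AInv g j' K) :
    AInv g j' (rblock_flat g j w K) := by
  have hne : ∀ i, g i = j' → g i ≠ j := fun i hi => hi ▸ hj
  refine fun x hx i hi => ⟨fun i' hi' => ?_, ?_⟩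
  · rw [update_of_ne fun (e : i' = i) => hne i hi (e ▸ hi')]; exact hx.1 i' hi'
  · have h1 := h _ hx.2 i hi
    rw [bs_congr (x := x) fun i hi => by rw [rblock_col_apply, if_neg (hne i hi)]] at h1
    rwa [rblock_update w x (hne i hi)]

lemma rblock_B {j j' : Fin 3} (hj : j' ≠ j) (w : E n) {K : Set (E n)} (h : BInv g j' K) :
    BInv g j' (rblock_flat g j w K) := by
  have hne : ∀ i, g i = j' → g i ≠ j := fun i hi => hi ▸ hj
  refine ⟨fun x hx i hi => ⟨fun i' hi' => ?_, ?_⟩, fun x hx i i' hi hi' => ?_⟩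
  · rw [update_of_ne fun (e : i' = i) => hne i hi (e ▸ hi')]; exact hx.1 i' hi'
  · have h1 := h.1 _ hx.2 i hi
    rw [rblock_col_apply, if_neg (hne i hi)] at h1
    rwa [rblock_update w x (hne i hi)]
  · have hs : ∀ l, g l = j → Equiv.swap i i' l = l := fun l hl =>
      Equiv.swap_apply_of_ne_of_ne (fun e => hne i hi (e ▸ hl)) fun e => hne i' hi' (e ▸ hl)
    have hs' : ∀ l, g l ≠ j → g (Equiv.swap i i' l) ≠ j := fun l hl e => by
      have := hs _ e
      rw [Equiv.swap_apply_self] at this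
      exact hl (this ▸ e)
    refine ⟨fun l hl => ?_, ?_⟩
    · rw [comp_apply, hs l hl]; exact hx.1 l hl
    · have h1 := h.2 _ hx.2 i i' hi hi'
      convert h1 using 1
      have hb : bs g (x ∘ Equiv.swap i i') j = bs g x j :=
        bs_congr fun l hl => by rw [comp_apply, hs l hl]
      ext l
      by_cases hl : g l = j
      · rw [comp_apply, hs l hl, rblock_col_apply, rblock_col_apply, if_pos hl, if_pos hl, hb]
      · rw [comp_apply, rblock_col_apply, rblock_col_apply, if_neg hl, if_neg (hs' l hl),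
          comp_apply]

lemma rblock_body {j : Fin 3} {i₀ : Fin n} (h0 : g i₀ = j) {w : E n} (hw : w i₀ ≠ 0)
    {K : Set (E n)} (hK : Body K) (h : AInv g j K ∨ BInv g j K) : Body (rblock_flat g j w K) := by
  have hc := (rblock_col g j w).continuous_of_finiteDimensional
  refine ⟨?_, ?_, ?_⟩
  · intro x hx y hy a b ha hb hab
    refine ⟨fun i hi => add_nonneg (mul_nonneg ha (hx.1 i hi)) (mul_nonneg hb (hy.1 i hi)), ?_⟩
    rw [map_add, map_smul, map_smul]
    exact hK.conv hx.2 hy.2 ha hb hab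
  · obtain ⟨R, hR0, hR⟩ := hK.comp.isBounded.subset_closedBall_lt 0 0
    have hw' : 0 < |w i₀| := abs_pos.2 hw
    have hq : 0 ≤ R / |w i₀| := by positivity
    refine Metric.isCompact_of_isClosed_isBounded ?_
      ((Metric.isBounded_closedBall (x := (0 : E n)) (r := R + R / |w i₀|)).subset fun x hx => ?_)
    · refine IsClosed.inter (s₁ := {x : E n | ∀ i, g i = j → 0 ≤ x i}) ?_
        (hK.comp.isClosed.preimage hc)
      simp only [ofPred_forall]
      exact isClosed_iInter fun i => isClosed_iInter fun _ =>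
        isClosed_le continuous_const (continuous_apply i)
    · have hb := hR hx.2
      rw [mem_closedBall_zero_iff, pi_norm_le_iff_of_nonneg hR0.le] at hb
      rw [mem_closedBall_zero_iff, pi_norm_le_iff_of_nonneg (by positivity)]
      intro i
      by_cases hi : g i = j
      · have h1 := hb i₀
        rw [rblock_col_apply, if_pos h0, Real.norm_eq_abs, abs_mul, ← le_div_iff₀ hw'] at h1
        have h2 : x i ≤ bs g x j := by
          rw [bs_apply]
          exact Finset.single_le_sum (f := x)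
            (fun i hi => hx.1 i (Finset.mem_filter.1 hi).2) (by simpa using hi)
        rw [Real.norm_eq_abs, abs_of_nonneg (hx.1 i hi)]
        linarith [le_abs_self (bs g x j)]
      · have h1 := hb i
        rw [rblock_col_apply, if_neg hi] at h1
        linarith
  · obtain ⟨x, hx⟩ := hK.int
    have h2 := zero_block (g := g) (j := j) hK.conv.interior
      (h.imp AInv.interior BInv.interior) hx
    set z : E n := fun i => if g i = j then 0 else x i with hz
    have h3 : rblock_col g j w z = z := by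
      ext i
      have : bs g z j = 0 := by
        rw [bs_apply]
        exact Finset.sum_eq_zero fun i hi => if_pos (Finset.mem_filter.1 hi).2
      rw [rblock_col_apply, this, zero_mul]
      simp only [hz]
      split_ifs <;> rfl
    rw [← h3] at h2
    have h4 : ContinuousAt (fun s : ℝ => rblock_col g j w (z + fun _ => s)) 0 :=
      (hc.comp (by fun_prop)).continuousAt
    have h5 : ∀ᶠ s in 𝓝 (0 : ℝ), rblock_col g j w (z + fun _ => s) ∈ interior K :=
      h4.preimage_mem_nhds (t := interior K) (isOpen_interior.mem_nhds (by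
        rw [show (z + fun _ => (0 : ℝ)) = z from by ext; simp]; exact h2))
    obtain ⟨s, hs1, hs2⟩ := ((h5.filter_mono nhdsWithin_le_nhds).and
      (self_mem_nhdsWithin (a := (0 : ℝ)) (s := Ioi 0))).exists
    have ho : IsOpen ({x : E n | ∀ i, g i = j → 0 < x i} ∩ rblock_col g j w ⁻¹' interior K) := by
      refine IsOpen.inter ?_ (isOpen_interior.preimage hc)
      simp only [ofPred_forall]
      exact isOpen_iInter_of_finite fun i => isOpen_iInter_of_finite fun _ =>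
        isOpen_lt continuous_const (continuous_apply i)
    have hsub : ({x : E n | ∀ i, g i = j → 0 < x i} ∩ rblock_col g j w ⁻¹' interior K) ⊆
        rblock_flat g j w K := fun y hy => ⟨fun i hi => (hy.1 i hi).le, interior_subset hy.2⟩
    refine ⟨z + fun _ => s, interior_maximal hsub ho ⟨fun i hi => ?_, hs1⟩⟩
    simpa [hz, hi] using hs2

lemma rblock_eq {j : Fin 3} {e : Fin k ⊕ Fin m ≃ Fin n} (h1 : ∀ a, g (e (Sum.inl a)) ≠ j)
    (h2 : ∀ b, g (e (Sum.inr b)) = j) {K : Set (E n)} (hK : Body K)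
    (h : AInv g j K ∨ BInv g j K) {v : E m} (hv : v ≠ 0) :
    rblock_flat g j (wpf_j e (0, v)) K = Wg e K v (stdS m) := by
  ext x
  have hcol : rblock_col g j (wpf_j e (0, v)) x =
      wpf_j e (fun a => x (e (Sum.inl a)), (∑ b, x (e (Sum.inr b))) • v) := by
    ext i
    obtain ⟨c, rfl⟩ := e.surjective i
    rcases c with c | c
    · rw [rblock_col_apply, if_neg (h1 c), wpf_j_inl]
    · rw [rblock_col_apply, if_pos (h2 c), wpf_j_inr, wpf_j_inr, bs_apply, sum_block h1 h2]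
      rfl
  constructor
  · rintro ⟨hx0, hx⟩
    have hu : (fun a => x (e (Sum.inl a))) ∈ base e K := by
      have := zero_block hK.conv h hx
      change wpf_j e _ ∈ K
      convert this using 1
      ext i
      obtain ⟨c, rfl⟩ := e.surjective i
      rcases c with c | c
      · rw [wpf_j_inl, if_neg (h1 c), rblock_col_apply, if_neg (h1 c)]
      · rw [wpf_j_inr, if_pos (h2 c)]
        rfl
    obtain ⟨r0, r1, -⟩ := rad_spec e hK.conv hK.comp hv hu
    rw [hcol] at hx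
    exact ⟨hu, (mem_smul_stdS r0).2 ⟨fun b => hx0 _ (h2 b), r1 _ hx⟩⟩
  · rintro ⟨hu, hx⟩
    obtain ⟨r0, -, r2⟩ := rad_spec e hK.conv hK.comp hv hu
    rw [mem_smul_stdS r0] at hx
    refine ⟨fun i hi => ?_, ?_⟩
    · obtain ⟨c, rfl⟩ := e.surjective i
      rcases c with c | c
      · exact absurd hi (h1 c)
      · exact hx.1 c
    · rw [hcol]
      exact r2 _ (Finset.sum_nonneg fun b _ => hx.1 b) hx.2

lemma rblock_ind (hg : Blk g) (s : Finset (Fin 3)) : ∀ K : Set (E n), Body K →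
    (∀ j ∈ s, AInv g j K ∨ BInv g j K) → (∀ j, j ∉ s → SumInv g j K) → Sharp K := by
  induction s using Finset.induction_on with
  | empty =>
    exact fun K hK _ h => sharp_of_wgen (wgen_of_sumInv hg hK fun j => h j (Finset.notMem_empty j))
  | insert j s hj ih =>
    intro K hK h1 h2
    obtain ⟨k, m, e, e1, e2⟩ := exists_split (hg.surj j)
    have hR := h1 j (Finset.mem_insert_self _ _)
    have key : ∀ v : E (m + 1), v ≠ 0 → Sharp (Wg e K v (cS (m + 1) 1)) := by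
      intro v hv
      refine Sharp.cent e (fun u hu => (rad_spec e hK.conv hK.comp hv hu).1) ?_
      change Sharp (Wg e K v (stdS (m + 1)))
      rw [← rblock_eq e1 e2 hK hR hv]
      obtain ⟨b, hb⟩ := Function.ne_iff.1 hv
      refine ih _ (rblock_body (e2 b) (by rwa [wpf_j_inr]) hK hR) (fun j' hj' => ?_)
        fun j' hj' => ?_
      · have hne : j' ≠ j := fun h => hj (by rwa [h] at hj')
        exact (h1 j' (Finset.mem_insert_of_mem hj')).imp (rblock_A hne _) (rblock_B hne _)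
      · rcases eq_or_ne j' j with rfl | hne
        · exact rblock_sumInv _ _ _
        · exact rblock_sum hne _ (h2 j' (by simp [hne, hj']))
    have hA : AInv g j K → Sharp K := fun hA =>
      sharp_T e hK (tinv_of_ainv e1 e2 hA) fun i => key _ (om_ne i)
    rcases hR with hR | hR
    · exact hA hR
    · rcases Nat.eq_zero_or_pos m with rfl | hm
      · refine hA fun x hx i hi => ?_
        have : bs g x j = x i := by
          obtain ⟨c, rfl⟩ := e.surjective i
          rcases c with c | c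
          · exact absurd hi (e1 c)
          · rw [bs_apply, sum_block e1 e2, Fin.sum_univ_succ, Fin.sum_univ_zero, add_zero,
              Subsingleton.elim (α := Fin 1) c 0]
        rw [this]
        exact hR.1 x hx i hi
      · exact sharp_S hm e hK (sinv_of_binv e1 e2 hR) fun i => key _ (omB_ne i)

end

theorem sharp_refl {g : Fin n → Fin 3} {A B : Set (Fin 3)} (hg : BlkR g A B) {K : Set (E n)}
    (hK : Refl g A B K) : Sharp K := by
  classical
  obtain ⟨hK, hA, hB⟩ := hK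
  have hg' : Blk g := ⟨hg.surj, fun i i' hi hi' =>
    hg.one i i' (hi.trans hi'.symm) (hi ▸ hg.zA) (hi ▸ hg.zB)⟩
  obtain ⟨M, hM0, hM⟩ := hK.comp.isBounded.subset_closedBall_lt 0 0
  set c : E n := fun i => if g i ∈ A ∪ B then 0 else -M with hc
  have hmem : ∀ x, x ∈ (fun z => z - c) '' K ↔ x + c ∈ K := fun x =>
    ⟨by rintro ⟨z, hz, rfl⟩; simpa using hz, fun hx => ⟨_, hx, by simp⟩⟩
  have hup : ∀ (x : E n) (i : Fin n) (t : ℝ), g i ∈ A ∪ B →
      update x i t + c = update (x + c) i t := fun x i t hi => by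
    ext l
    rcases eq_or_ne l i with rfl | hne
    · simp only [Pi.add_apply, update_self, hc, if_pos hi, add_zero]
    · simp only [Pi.add_apply, update_of_ne hne]
  have hW : Sharp ((fun z => z - c) '' K) := by
    refine rblock_ind hg' (Finset.univ.filter (· ∈ A ∪ B)) _ ⟨convex_image_sub hK.conv c,
      isCompact_image_sub hK.comp c, interior_image_sub hK.int c⟩ (fun j hj => ?_) fun j hj => ?_
    · have hj' : j ∈ A ∪ B := (Finset.mem_filter.1 hj).2
      have h0 : ∀ (x : E n) (i : Fin n), g i = j → (x + c) i = x i := fun x i hi => by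
        simp only [Pi.add_apply, hc, hi, if_pos hj', add_zero]
      rcases hj' with hj'' | hj''
      · refine Or.inl fun x hx i hi => ?_
        rw [hmem] at hx ⊢
        have := hA j hj'' _ hx i hi
        rw [bs_congr (h0 x)] at this
        rwa [hup x i _ (hi ▸ Or.inl hj'')]
      · refine Or.inr ⟨fun x hx i hi => ?_, fun x hx i i' hi hi' => ?_⟩
        · rw [hmem] at hx ⊢
          have := (hB j hj'').1 _ hx i hi
          rw [h0 x i hi] at this
          rwa [hup x i _ (hi ▸ Or.inr hj'')]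
        · rw [hmem] at hx ⊢
          have := (hB j hj'').2 _ hx i i' hi hi'
          convert this using 1
          ext l
          have hgl : g (Equiv.swap i i' l) = g l := by
            rcases eq_or_ne l i with rfl | n1
            · rw [Equiv.swap_apply_left, hi, hi']
            · rcases eq_or_ne l i' with rfl | n2
              · rw [Equiv.swap_apply_right, hi, hi']
              · rw [Equiv.swap_apply_of_ne_of_ne n1 n2]
          simp only [Pi.add_apply, comp_apply, hc, hgl]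
    · have hj' : j ∉ A ∪ B := by simpa using hj
      refine fun x hx => ⟨fun i hi => ?_, fun y e1 _ e3 => ?_⟩
      · have hb := hM ((hmem x).1 hx)
        rw [mem_closedBall_zero_iff, pi_norm_le_iff_of_nonneg hM0.le] at hb
        have := (abs_le.1 (hb i)).1
        simp only [Pi.add_apply, hc, hi, hj', if_false] at this
        linarith
      · convert hx using 1
        ext i
        by_cases hi : g i = j
        · have t : (Finset.univ.filter fun i => g i = j) = {i} := by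
            ext i'
            simp only [Finset.mem_filter, Finset.mem_univ, true_and, Finset.mem_singleton]
            exact ⟨fun e => hg.one i' i (e.trans hi.symm) (fun h => hj' (Or.inl (e ▸ h)))
              (fun h => hj' (Or.inr (e ▸ h))), fun e => e ▸ hi⟩
          simpa [bs_apply, t] using e3
        · exact e1 i hi
  have := hW.image (AffineEquiv.constVAdd ℝ (E n) c)
  rw [image_image] at this
  simpa using this

end Pool.Agent.MP_5f4cdd_gt.W

end

section

set_option autoImplicit false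
open MeasureTheory ENNReal Set Function Filter Topology Pointwise

namespace Pool.Agent.MP_5f4cdd_gt.W

open PL EF AB

variable {n k m : ℕ}

lemma rfar_close {L : Set (E n)} (hL : Body L) {K : ℕ → Set (E n)} (hK : ∀ i, Body (K i))
    (ht : Tendsto (fun i => Metric.hausdorffDist L (K i)) atTop (𝓝 0)) {η : ℝ} (hη : 0 < η) :
    ∀ᶠ i in atTop, (∀ a ∈ L, ∃ b ∈ K i, ‖a - b‖ ≤ η) ∧ ∀ b ∈ K i, ∃ a ∈ L, ‖b - a‖ ≤ η := by
  filter_upwards [ht.eventually_lt_const hη] with j hj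
  have hne := Metric.hausdorffEDist_ne_top_of_nonempty_of_bounded (hL.int.mono interior_subset)
    ((hK j).int.mono interior_subset) hL.comp.isBounded (hK j).comp.isBounded
  refine ⟨fun a ha => ?_, fun b hb => ?_⟩
  · obtain ⟨b, hb, h'⟩ := Metric.exists_dist_lt_of_hausdorffDist_lt ha hj hne
    exact ⟨b, hb, by rw [← dist_eq_norm]; exact h'.le⟩
  · obtain ⟨a, ha, h'⟩ := Metric.exists_dist_lt_of_hausdorffDist_lt' hb hj hne
    exact ⟨a, ha, by rw [← dist_eq_norm, dist_comm]; exact h'.le⟩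

lemma rfar_of_compact {C : Set (E n) → Prop} (hS : ∀ K, C K → Sharp K)
    (hC : ∀ K : ℕ → Set (E n), (∀ i, C (K i)) → ∃ (f : ℕ → E n ≃ᵃ[ℝ] E n) (L : Set (E n))
      (φ : ℕ → ℕ), (∀ i, C (f i '' K i)) ∧ C L ∧ StrictMono φ ∧
      Tendsto (fun i => Metric.hausdorffDist L (f (φ i) '' K (φ i))) atTop (𝓝 0)) :
    Far n C := by
  intro ε hε
  by_contra hcon
  have h0 : ∀ i : ℕ, ∃ K, C K ∧
      mstarInf K < ENNReal.ofReal (1 + 1 / ((i : ℝ) + 1)) * mahlerInf (cS n 1) ∧
      ¬ EF.Near ε K := by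
    intro i
    by_contra h
    refine hcon ⟨1 / ((i : ℝ) + 1), by positivity, fun K hK => ⟨(hS K hK).1, fun _ hM => ?_⟩⟩
    by_contra hN
    exact h ⟨K, hK, hM, hN⟩
  choose K hK hM hN using h0
  obtain ⟨f, L, φ, hf, hL, hφ, ht⟩ := hC K hK
  set ε' := min ε (1 / 2) with hε'
  have hε'0 : 0 < ε' := by positivity
  have hε'1 : ε' < 1 := (min_le_right _ _).trans_lt (by norm_num)
  have hB : ∀ i, Body (f (φ i) '' K (φ i)) := fun i => (hS _ (hf _)).1
  have hLB : Body L := (hS L hL).1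
  have hle : mstarInf L ≤ mahlerInf (cS n 1) := by
    by_contra hlt
    obtain ⟨v, hv1, hv2⟩ := exists_between (not_le.1 hlt)
    obtain ⟨η, hη, h⟩ := hLB.cont hε'0 hε'1 hv2
    have e1 : ∀ᶠ i : ℕ in atTop,
        ENNReal.ofReal (1 + 1 / ((i : ℝ) + 1)) * mahlerInf (cS n 1) < v := by
      have : Tendsto (fun i : ℕ => ENNReal.ofReal (1 + 1 / ((i : ℝ) + 1)) * mahlerInf (cS n 1))
          atTop (𝓝 (ENNReal.ofReal (1 + 0) * mahlerInf (cS n 1))) :=
        ENNReal.Tendsto.mul_const (ENNReal.tendsto_ofReal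
          (tendsto_const_nhds.add tendsto_one_div_add_atTop_nhds_zero_nat))
          (Or.inr mahlerInf_cS_lt_top.ne)
      exact this.eventually_lt_const (by simpa using hv1)
    obtain ⟨i, h1, h2⟩ :=
      ((rfar_close hLB hB ht hη).and (hφ.tendsto_atTop.eventually e1)).exists
    refine lt_irrefl _ ((h _ (hB i) h1.1 h1.2).2.2.2 ?_)
    rw [mstarInf_affine]
    exact ((hM _).trans h2).le
  obtain ⟨e, he⟩ := (hS L hL).2.2 hle
  obtain ⟨η, hη, h⟩ := hLB.cont hε'0 hε'1 (μ := 1) (v := 0) zero_lt_one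
  obtain ⟨i, h1⟩ := (rfar_close hLB hB ht hη).exists
  have h2 := ((h _ (hB i) h1.1 h1.2).1 (he ▸ near_simplex e)).image (f (φ i)).symm hε'1
  rw [image_image] at h2
  simp only [AffineEquiv.symm_apply_apply, image_id'] at h2
  exact hN _ (h2.mono (min_le_left _ _))

lemma rfar_one (g : Fin n → Fin 3) (A B : Set (Fin 3)) :
    Far n fun K => BlkR g A B ∧ Refl g A B K := by
  by_cases hg : BlkR g A B
  swap
  · exact fun ε _ => ⟨1, one_pos, fun K hK => absurd hK.1 hg⟩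
  rcases (A ∪ B).eq_empty_or_nonempty with hAB | hAB
  · obtain ⟨rfl, rfl⟩ := union_empty_iff.1 hAB
    intro ε hε
    obtain ⟨c, hc, h⟩ := far_w n hε
    refine ⟨c, hc, fun K hK => h K (wgen_of_rot hK.2.1 ∅ hg.surj (notMem_empty _)
      (fun i i' hi h' => hg.one i i' hi h' h') fun x hx y hy _ => ?_)⟩
    rwa [show y = x from funext fun i => hy i (notMem_empty _)]
  · refine rfar_of_compact (fun K hK => sharp_refl hg hK.2) fun K hK => ?_
    choose f hf hN using fun i => exists_nrm hg (hK i).2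
    obtain ⟨L, φ, hL, hφ, ht⟩ := exists_limit hg hAB hf hN
    exact ⟨f, L, φ, fun i => ⟨hg, hf i⟩, ⟨hg, hL⟩, hφ, ht⟩

theorem far_refl : Far n fun K => ∃ g A B, BlkR g A B ∧ Refl g A B K := by
  intro ε hε
  choose c hc h using fun p : (Fin n → Fin 3) × Set (Fin 3) × Set (Fin 3) =>
    rfar_one p.1 p.2.1 p.2.2 ε hε
  obtain ⟨p, hp⟩ := Finite.exists_min c
  refine ⟨c p, hc p, ?_⟩
  rintro K ⟨g, A, B, hK⟩
  obtain ⟨h1, h2⟩ := h (g, A, B) K hK
  exact ⟨h1, fun hi hM => h2 hi (hM.trans_le (mul_le_mul_left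
    (ENNReal.ofReal_le_ofReal (by linarith [hp (g, A, B)])) _))⟩

end Pool.Agent.MP_5f4cdd_gt.W

end

section

set_option autoImplicit false
open MeasureTheory ENNReal Set Function Filter Topology Pointwise

namespace Pool.Agent.MP_5f4cdd_gt.W

open PL EF AB

variable {n k m : ℕ}

/-- the linear part of the change of coordinates -/
def rconv_lin (P : Finset (Fin n)) (I0 : Fin n) (w : Fin n → ℝ) : E n →ₗ[ℝ] E n where
  toFun x := fun i => if i = I0 then ∑ l ∈ P, x l else x i + w i * ∑ l ∈ P, x l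
  map_add' x y := by
    ext i
    by_cases h : i = I0
    · simp [h, Finset.sum_add_distrib]
    · simp [h, Finset.sum_add_distrib]; ring
  map_smul' a x := by
    ext i
    by_cases h : i = I0
    · simp [h, Finset.mul_sum]
    · simp only [h, if_false, Pi.smul_apply, smul_eq_mul, RingHom.id_apply, ← Finset.mul_sum]
      ring

lemma rconv_lin_apply (P : Finset (Fin n)) (I0 : Fin n) (w : Fin n → ℝ) (x : E n) (i : Fin n) :
    rconv_lin P I0 w x i = if i = I0 then ∑ l ∈ P, x l else x i + w i * ∑ l ∈ P, x l := rfl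

lemma rconv_lin_inj {P : Finset (Fin n)} {I0 : Fin n} (h0 : I0 ∈ P) (w : Fin n → ℝ) :
    Injective (rconv_lin P I0 w) := by
  rw [← LinearMap.ker_eq_bot, LinearMap.ker_eq_bot']
  intro x hx
  have hs : ∑ l ∈ P, x l = 0 := by
    have := congrFun hx I0
    simpa [rconv_lin_apply] using this
  have h1 : ∀ i, i ≠ I0 → x i = 0 := fun i hi => by
    have := congrFun hx i
    simpa [rconv_lin_apply, hi, hs] using this
  have h2 : x I0 = 0 := by
    rw [Finset.sum_eq_single_of_mem I0 h0 fun b _ hb => h1 b hb] at hs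
    exact hs
  ext i
  by_cases hi : i = I0
  · rw [hi, h2]; rfl
  · exact h1 i hi

lemma rconv_aff {P : Finset (Fin n)} {I0 : Fin n} (h0 : I0 ∈ P) (w kk : Fin n → ℝ) :
    ∃ f : E n ≃ᵃ[ℝ] E n, ∀ x i, f x i =
      if i = I0 then ∑ l ∈ P, x l else x i + w i * ∑ l ∈ P, x l + kk i := by
  have hi := rconv_lin_inj h0 w
  let L : E n ≃ₗ[ℝ] E n := LinearEquiv.ofBijective (rconv_lin P I0 w)
    ⟨hi, LinearMap.injective_iff_surjective.1 hi⟩
  let c : E n := fun i => if i = I0 then 0 else kk i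
  refine ⟨L.toAffineEquiv.trans (AffineEquiv.constVAdd ℝ (E n) c), fun x i => ?_⟩
  change c i + rconv_lin P I0 w x i = _
  rw [rconv_lin_apply]
  by_cases h : i = I0
  · simp [c, h]
  · simp only [c, h, if_false]; ring

lemma rconv_sum_swap {P : Finset (Fin n)} {i i' : Fin n} (hi : i ∈ P) (hi' : i' ∈ P) (x : E n) :
    ∑ l ∈ P, (x ∘ Equiv.swap i i') l = ∑ l ∈ P, x l := by
  refine Finset.sum_equiv (Equiv.swap i i') (fun l => ?_) fun l _ => rfl
  rw [Equiv.swap_apply_def]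
  split_ifs with h1 h2
  · simp [h1, hi, hi']
  · simp [h2, hi, hi']
  · rfl

/-- the block inside `P` -/
lemma rconv_in {P : Finset (Fin n)} {I0 : Fin n} (h0 : I0 ∈ P) {w kk : Fin n → ℝ}
    {f : E n ≃ᵃ[ℝ] E n} (hf : ∀ x i, f x i =
      if i = I0 then ∑ l ∈ P, x l else x i + w i * ∑ l ∈ P, x l + kk i)
    {g : Fin n → Fin 3} {j : Fin 3} (hg : ∀ i, g i = j ↔ i ∈ P.erase I0)
    (hw : ∀ i ∈ P.erase I0, w i = -1 / (P.card : ℝ) ∧ kk i = 0) {K : Set (E n)}
    (hK : ∀ x ∈ K, ∀ i ∈ P, x ∘ Equiv.swap i I0 ∈ K) : AInv g j (f '' K) := by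
  rintro _ ⟨x, hx, rfl⟩ i hi
  have hiP := (hg i).1 hi
  obtain ⟨hne, hiP'⟩ := Finset.mem_erase.1 hiP
  refine ⟨x ∘ Equiv.swap i I0, hK x hx i hiP', ?_⟩
  have hc : (0 : ℝ) < P.card := by exact_mod_cast Finset.card_pos.2 ⟨I0, h0⟩
  have hb : bs g (f x) j = (∑ l ∈ P, x l) / (P.card : ℝ) - x I0 := by
    change ∑ l with g l = j, f x l = _
    have e1 : (Finset.univ.filter fun l => g l = j) = P.erase I0 := by
      ext l; simp only [Finset.mem_filter, Finset.mem_univ, true_and, hg]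
    rw [e1, Finset.sum_congr rfl (g := fun l => x l + -1 / (P.card : ℝ) * ∑ l ∈ P, x l)
      fun l hl => by rw [hf, if_neg (Finset.mem_erase.1 hl).1, (hw l hl).1, (hw l hl).2, add_zero],
      Finset.sum_add_distrib, Finset.sum_const, Finset.card_erase_of_mem h0, nsmul_eq_mul,
      Nat.cast_sub (Finset.card_pos.2 ⟨I0, h0⟩), ← Finset.add_sum_erase P x h0]
    field_simp
    ring
  ext l
  rw [hf, rconv_sum_swap hiP' h0]
  by_cases hl : l = i
  · subst hl
    rw [update_self, if_neg hne, hb, (hw l hiP).1, (hw l hiP).2]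
    simp only [comp_apply, Equiv.swap_apply_left]
    ring
  · rw [update_of_ne hl, hf]
    by_cases hl0 : l = I0
    · simp [hl0]
    · simp only [hl0, if_false, comp_apply, Equiv.swap_apply_of_ne_of_ne hl hl0]

/-- the block outside `P` -/
lemma rconv_out {P : Finset (Fin n)} {I0 : Fin n} (h0 : I0 ∈ P) {w kk : Fin n → ℝ}
    {f : E n ≃ᵃ[ℝ] E n} (hf : ∀ x i, f x i =
      if i = I0 then ∑ l ∈ P, x l else x i + w i * ∑ l ∈ P, x l + kk i)
    {g : Fin n → Fin 3} {j : Fin 3} (hg : ∀ i, g i = j ↔ i ∉ P)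
    (hw : ∀ i, i ∉ P → w i = 1 / ((Pᶜ.card : ℝ) + 1) ∧ kk i = -1 / ((Pᶜ.card : ℝ) + 1))
    {K : Set (E n)} (hK : ∀ x ∈ K, ∀ i, i ∉ P → update x i (1 - ∑ l, x l) ∈ K) :
    AInv g j (f '' K) := by
  rintro _ ⟨x, hx, rfl⟩ i hi
  have hiP := (hg i).1 hi
  have hne : ∀ l, l ∉ P → l ≠ I0 := fun l hl e => hl (e ▸ h0)
  refine ⟨update x i (1 - ∑ l, x l), hK x hx i hiP, ?_⟩
  have hc : (0 : ℝ) < (Pᶜ.card : ℝ) + 1 := by positivity
  have hb : bs g (f x) j = ∑ l ∈ Pᶜ, x l +
      (Pᶜ.card : ℝ) * ((∑ l ∈ P, x l - 1) / ((Pᶜ.card : ℝ) + 1)) := by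
    change ∑ l with g l = j, f x l = _
    have e1 : (Finset.univ.filter fun l => g l = j) = Pᶜ := by
      ext l; simp only [Finset.mem_filter, Finset.mem_univ, true_and, hg, Finset.mem_compl]
    rw [e1, Finset.sum_congr rfl
      (g := fun l => x l + (∑ l ∈ P, x l - 1) / ((Pᶜ.card : ℝ) + 1)) fun l hl => by
        have hl' := Finset.mem_compl.1 hl
        rw [hf, if_neg (hne l hl'), (hw l hl').1, (hw l hl').2]
        ring,
      Finset.sum_add_distrib, Finset.sum_const, nsmul_eq_mul]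
  have hs : ∑ l ∈ P, update x i (1 - ∑ l, x l) l = ∑ l ∈ P, x l :=
    Finset.sum_congr rfl fun l hl => update_of_ne (fun e : l = i => hiP (e ▸ hl)) _ _
  ext l
  rw [hf, hs]
  by_cases hl : l = i
  · subst hl
    rw [update_self, update_self, if_neg (hne l hiP), hb, (hw l hiP).1, (hw l hiP).2,
      ← Finset.sum_add_sum_compl P x]
    field_simp
    ring
  · rw [update_of_ne hl, update_of_ne hl, hf]

theorem refl_of_perm (hn : 3 ≤ n) {K : Set (E n)} (hK : Body K) (I : Fin n)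
    (h : ∀ x ∈ K, ∀ σ : Equiv.Perm (Fin n), σ I = I → x ∘ σ ∈ K) :
    ∃ (g : Fin n → Fin 3) (A B : Set (Fin 3)) (f : E n ≃ᵃ[ℝ] E n),
      BlkR g A B ∧ Refl g A B (f '' K) := by
  classical
  set P : Finset (Fin n) := Finset.univ.erase I with hP
  have hc : 1 < P.card := by
    rw [hP, Finset.card_erase_of_mem (Finset.mem_univ _), Finset.card_univ, Fintype.card_fin]
    omega
  obtain ⟨I0, h0, I2, h2, h02⟩ := Finset.one_lt_card.1 hc
  have h0I : I0 ≠ I := (Finset.mem_erase.1 h0).1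
  have h2I : I2 ≠ I := (Finset.mem_erase.1 h2).1
  obtain ⟨f, hf⟩ := rconv_aff h0 (fun _ => -1 / (P.card : ℝ)) (fun _ => 0)
  let g : Fin n → Fin 3 := fun i => if i = I0 then 0 else if i = I then 1 else 2
  have hg : ∀ i, g i = 2 ↔ i ∈ P.erase I0 := fun i => by
    simp only [g, hP, Finset.mem_erase, Finset.mem_univ, and_true]
    split_ifs with h1 h3
    · simp [h1]
    · simp [h3]
    · simp [h1, h3]
  refine ⟨g, {2}, ∅, f, ⟨fun j => ?_, by simp, by simp, fun i i' e hA _ => ?_⟩,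
    wcs_body_image hK f, fun j hj => ?_, by simp⟩
  · fin_cases j
    · exact ⟨I0, by simp [g]⟩
    · exact ⟨I, by simp [g, h0I.symm]⟩
    · exact ⟨I2, by simp [g, h02.symm, h2I]⟩
  · simp only [g, mem_singleton_iff] at e hA
    split_ifs at e hA <;> simp_all
  · rw [mem_singleton_iff.1 hj]
    refine rconv_in h0 hf hg (fun _ _ => ⟨rfl, rfl⟩) fun x hx i hi => h x hx _ ?_
    exact Equiv.swap_apply_of_ne_of_ne (Finset.mem_erase.1 hi).1.symm h0I.symm

lemma rconv_face0 (hn : 3 ≤ n) {K : Set (E n)} (hK : Body K) (J : Set (Fin (n + 1)))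
    (hJ : 0 ∉ J)
    (h : ∀ x ∈ K, ∀ σ : Equiv.Perm (Fin (n + 1)), (∀ i, σ i ∈ J ↔ i ∈ J) →
      (fun i => (Fin.cons (1 - ∑ l, x l) x : Fin (n + 1) → ℝ) (σ i.succ)) ∈ K) :
    ∃ (g : Fin n → Fin 3) (A B : Set (Fin 3)) (f : E n ≃ᵃ[ℝ] E n),
      BlkR g A B ∧ Refl g A B (f '' K) := by
  classical
  set P : Finset (Fin n) := Finset.univ.filter fun i => i.succ ∈ J with hP
  have hmem : ∀ i, i ∈ P ↔ i.succ ∈ J := fun i => by simp [hP]
  have hperm : ∀ x ∈ K, ∀ σ : Equiv.Perm (Fin n), (∀ i, σ i ∈ P ↔ i ∈ P) → x ∘ σ ∈ K := by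
    intro x hx σ hσ
    have := h x hx (Equiv.Perm.decomposeFin.symm (0, σ)) fun i => by
      refine Fin.cases ?_ (fun i => ?_) i
      · rw [Equiv.Perm.decomposeFin_symm_apply_zero]
      · rw [Equiv.Perm.decomposeFin_symm_apply_succ, Equiv.swap_self, Equiv.refl_apply,
          ← hmem, ← hmem, hσ]
    convert this using 1
    ext i
    rw [Equiv.Perm.decomposeFin_symm_apply_succ, Equiv.swap_self, Equiv.refl_apply,
      Fin.cons_succ, comp_apply]
  by_cases h1 : P.card ≤ 1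
  · obtain ⟨I, hI⟩ : ∃ I : Fin n, P ⊆ {I} := by
      have : Nonempty (Fin n) := ⟨⟨0, by omega⟩⟩
      exact Finset.card_le_one_iff_subset_singleton.1 h1
    refine refl_of_perm hn hK I fun x hx σ hσ => hperm x hx σ fun i => ⟨fun hi => ?_, fun hi => ?_⟩
    · have e := Finset.mem_singleton.1 (hI hi)
      have e' : i = I := σ.injective (e.trans hσ.symm)
      rw [e', ← e]; exact hi
    · have e := Finset.mem_singleton.1 (hI hi)
      rw [e, hσ, ← e]; exact hi
  by_cases h2 : ∀ i, i ∈ P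
  · exact refl_of_perm hn hK ⟨0, by omega⟩ fun x hx σ _ => hperm x hx σ fun i => by simp [h2]
  obtain ⟨I2, h2⟩ := not_forall.1 h2
  obtain ⟨I0, h0, I1, h1', h01⟩ := Finset.one_lt_card.1 (not_le.1 h1)
  obtain ⟨f, hf⟩ := rconv_aff h0
    (fun i => if i ∈ P then -1 / (P.card : ℝ) else 1 / ((Pᶜ.card : ℝ) + 1))
    (fun i => if i ∈ P then 0 else -1 / ((Pᶜ.card : ℝ) + 1))
  let g : Fin n → Fin 3 := fun i => if i = I0 then 0 else if i ∈ P then 1 else 2
  have hg1 : ∀ i, g i = 1 ↔ i ∈ P.erase I0 := fun i => by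
    simp only [g, Finset.mem_erase]
    split_ifs with a b
    · simp [a]
    · simp [a, b]
    · simp [b]
  have hg2 : ∀ i, g i = 2 ↔ i ∉ P := fun i => by
    simp only [g]
    split_ifs with a b
    · simp [a, h0]
    · simp [b]
    · simp [b]
  refine ⟨g, {1, 2}, ∅, f, ⟨fun j => ?_, by simp, by simp, fun i i' e hA _ => ?_⟩,
    wcs_body_image hK f, fun j hj => ?_, by simp⟩
  · fin_cases j
    · exact ⟨I0, by simp [g]⟩
    · exact ⟨I1, (hg1 I1).2 (Finset.mem_erase.2 ⟨h01.symm, h1'⟩)⟩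
    · exact ⟨I2, (hg2 I2).2 h2⟩
  · simp only [g, mem_insert_iff, mem_singleton_iff] at e hA
    split_ifs at e hA <;> simp_all
  · rcases hj with rfl | hj
    · refine rconv_in h0 hf hg1 (fun i hi => by simp [(Finset.mem_erase.1 hi).2])
        fun x hx i hi => hperm x hx _ fun l => ?_
      rw [Equiv.swap_apply_def]
      split_ifs with a b
      · simp [a, hi, h0]
      · simp [b, hi, h0]
      · rfl
    · rw [mem_singleton_iff.1 hj]
      refine rconv_out h0 hf hg2 (fun i hi => by simp [hi]) fun x hx i hi => ?_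
      have hiJ : i.succ ∉ J := fun e => hi ((hmem i).2 e)
      have := h x hx (Equiv.swap 0 i.succ) fun l => by
        rw [Equiv.swap_apply_def]
        split_ifs with a b
        · simp [a, hiJ, hJ]
        · simp [b, hiJ, hJ]
        · rfl
      convert this using 1
      ext l
      by_cases hl : l = i
      · subst hl
        rw [update_self, Equiv.swap_apply_right, Fin.cons_zero]
      · rw [update_of_ne hl, Equiv.swap_apply_of_ne_of_ne (Fin.succ_ne_zero l)
          (fun e => hl (Fin.succ_injective _ e)), Fin.cons_succ]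

theorem refl_of_face (hn : 3 ≤ n) {K : Set (E n)} (hK : Body K) (J : Set (Fin (n + 1)))
    (h : ∀ x ∈ K, ∀ σ : Equiv.Perm (Fin (n + 1)), (∀ i, σ i ∈ J ↔ i ∈ J) →
      (fun i => (Fin.cons (1 - ∑ l, x l) x : Fin (n + 1) → ℝ) (σ i.succ)) ∈ K) :
    ∃ (g : Fin n → Fin 3) (A B : Set (Fin 3)) (f : E n ≃ᵃ[ℝ] E n),
      BlkR g A B ∧ Refl g A B (f '' K) := by
  by_cases hJ : 0 ∈ J
  · exact rconv_face0 hn hK Jᶜ (fun e => e hJ) fun x hx σ hσ =>
      h x hx σ fun i => not_iff_not.1 (hσ i)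
  · exact rconv_face0 hn hK J hJ h

end Pool.Agent.MP_5f4cdd_gt.W

end

section

set_option autoImplicit false
open MeasureTheory ENNReal Set Function Filter Topology Pointwise

namespace Pool.Agent.MP_5f4cdd_gt.W

open PL EF AB

theorem far_r (n : ℕ) {ε : ℝ} (hε : 0 < ε) : ∃ c : ℝ, 0 < c ∧ ∀ K : Set (E n), RCls K →
    Body K ∧ AB.Good ε (ENNReal.ofReal (1 + c) * mahlerInf (cS n 1)) K := by
  obtain ⟨εA, κ, hεA, hκ, hA⟩ := local_inf n
  obtain ⟨c₀, hc₀, hgap⟩ := gap_all n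
  set m := mahlerInf (cS n 1) with hm
  have hmt : m ≠ ∞ := mahlerInf_cS_lt_top.ne
  set ε' := min εA (1 / 2) with hε'
  have hε'0 : 0 < ε' := by positivity
  have hε'1 : ε' < 1 := (min_le_right _ _).trans_lt (by norm_num)
  obtain ⟨ε₁, hε₁, hpol⟩ := polar_near' n (C := (1 + κ) * m.toReal + 1) (by positivity) hε'0 hε'1
  set ε₃ := min (min ε (ε' / 2)) ε₁ with hε₃
  have hε₃0 : 0 < ε₃ := by positivity
  have h3' : ε₃ < ε' := ((min_le_left _ _).trans (min_le_right _ _)).trans_lt (by linarith)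
  have h31 := h3'.trans hε'1
  obtain ⟨c₂, hc₂, hw⟩ := far_w n hε₃0
  obtain ⟨c₄, hc₄, hr⟩ := far_refl (n := n) ε₃ hε₃0
  set c₁ := min c₂ c₄ with hc₁def
  have hc₁ : 0 < c₁ := by positivity
  set c := min (min c₁ c₀) (κ * ε₃) with hc
  have hc0 : 0 < c := by positivity
  have hc1 : c ≤ c₁ := (min_le_left _ _).trans (min_le_left _ _)
  have hc3 : c ≤ c₀ := (min_le_left _ _).trans (min_le_right _ _)
  have hc2 : c ≤ κ * ε₃ := min_le_right _ _
  set μ := ENNReal.ofReal (1 + c) * m with hμ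
  have moat : Moat n ε₃ ε' μ := by
    intro K hK hKc hKi hM hN
    obtain ⟨a, ha⟩ := iInf_lt_iff.1 hM
    rw [← near_sub_iff h31 K a]
    rw [← near_sub_iff hε'1 K a] at hN
    obtain ⟨e, he1, he2⟩ := hN.mono (min_le_left _ _)
    obtain ⟨e', h1, h2⟩ := hA _ (convex_image_sub hK a) (isCompact_image_sub hKc a)
      (interior_image_sub hKi a) e he1 he2
    refine ⟨e', h1, ?_⟩
    by_contra hc
    push Not at hc
    rw [← div_lt_iff₀ (toReal_simplex_pos e')] at hc
    refine absurd ha (not_lt.2 (le_trans ?_ h2))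
    exact mul_le_mul_left (ENNReal.ofReal_le_ofReal (by nlinarith)) _
  have hpol' : ∀ K : Set (E n), Convex ℝ K → IsCompact K → 0 ∈ interior K →
      mahlerInf K < μ → EF.Near ε₃ K → EF.Near ε' (polarS K) := by
    intro K hK hKc h0 h1 hN
    refine hpol K hK hKc h0 (hN.mono (min_le_right _ _)) ?_
    have h2 : volume K * volume (polarS K) ≤ ENNReal.ofReal (1 + κ) * m := by
      refine le_trans ?_ (h1.le.trans
        (mul_le_mul_left (ENNReal.ofReal_le_ofReal (by nlinarith)) _))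
      rw [mahlerInf_polar hKc.isBounded (interior_subset h0)]
      exact le_mul_of_one_le_left' (by exact_mod_cast n.factorial_pos)
    have h3 := ENNReal.toReal_mono (ENNReal.mul_ne_top ENNReal.ofReal_ne_top hmt) h2
    rw [ENNReal.toReal_mul, ENNReal.toReal_mul, ENNReal.toReal_ofReal (by positivity)] at h3
    linarith
  have hw' : ∀ L : Set (E n), WGen L → Body L ∧ AB.Good ε₃ μ L := fun L hL =>
    ⟨(hw L hL).1, fun hi hM => (hw L hL).2 hi (hM.trans_le (mul_le_mul_left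
      (ENNReal.ofReal_le_ofReal (by linarith [min_le_left c₂ c₄])) _))⟩
  have hr' : ∀ L : Set (E n), (∃ g A B, BlkR g A B ∧ Refl g A B L) →
      Body L ∧ AB.Good ε₃ μ L := fun L hL =>
    ⟨(hr L hL).1, fun hi hM => (hr L hL).2 hi (hM.trans_le (mul_le_mul_left
      (ENNReal.ofReal_le_ofReal (by linarith [min_le_right c₂ c₄])) _))⟩
  have hr'' : ∀ L : Set (E n), Body L → (∃ (g : Fin n → Fin 3) (A B : Set (Fin 3))
      (f : E n ≃ᵃ[ℝ] E n), BlkR g A B ∧ Refl g A B (f '' L)) → Body L ∧ AB.Good ε₃ μ L := by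
    rintro L hL ⟨g, A, B, f, h1, h2⟩
    have := (hr' _ ⟨g, A, B, h1, h2⟩).2.image h31 f.symm
    rw [image_image] at this
    exact ⟨hL, by simpa using this⟩
  have hlow : ∀ K : Set (E n), Body K → AB.Good ε₃ μ K → m ≤ mstarInf K := by
    intro K hK hG
    by_cases hM : mstarInf K < μ
    · refine le_iInf fun a => ?_
      have hN := (hG hK.int hM).mono (h3'.le.trans (min_le_left _ _))
      have hN' : EF.Near ε' ((fun z => z - a) '' K) :=
        (near_sub_iff hε'1 K a).2 ((hG hK.int hM).mono h3'.le)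
      obtain ⟨e, he1, he2⟩ := hN'.mono (min_le_left _ _)
      obtain ⟨e', h1, h2⟩ := hA _ (convex_image_sub hK.conv a) (isCompact_image_sub hK.comp a)
        (interior_image_sub hK.int a) e he1 he2
      refine le_trans (le_mul_of_one_le_left' ?_) h2
      have hSt : volume (e' '' stdS n) ≠ ∞ := by
        rw [volume_image_affine, volume_stdS]
        exact ENNReal.mul_ne_top ENNReal.ofReal_ne_top (volume_cS_lt_top zero_le_one).ne
      have hw : 0 ≤ 1 - (volume ((fun z => z - a) '' K)).toReal /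
          (volume (e' '' stdS n)).toReal := sub_nonneg.2
        (div_le_one_of_le₀ (ENNReal.toReal_mono hSt (measure_mono h1)) ENNReal.toReal_nonneg)
      rw [← ENNReal.ofReal_one]
      exact ENNReal.ofReal_le_ofReal (by nlinarith)
    · refine le_trans (le_mul_of_one_le_left' ?_) (not_lt.1 hM)
      rw [← ENNReal.ofReal_one]
      exact ENNReal.ofReal_le_ofReal (by linarith)
  suffices h : ∀ K : Set (E n), RCls K → Body K ∧ AB.Good ε₃ μ K from
    ⟨c, hc0, fun K hK => ⟨(h K hK).1, fun hi hM => ((h K hK).2 hi hM).mono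
      ((min_le_left _ _).trans (min_le_left _ _))⟩⟩
  intro K hK
  induction hK with
  | perm K I hn hK h => exact hr'' K ⟨hK.1, hK.2.1, hK.2.2⟩ (refl_of_perm hn ⟨hK.1, hK.2.1, hK.2.2⟩ I h)
  | face K J hn hK h => exact hr'' K ⟨hK.1, hK.2.1, hK.2.2⟩ (refl_of_face hn ⟨hK.1, hK.2.1, hK.2.2⟩ J h)
  | wedge K g C hK hs ho hKC => exact hw' K (WGen.wedge K g C hK.1 hK.2.1 hK.2.2 hs ho hKC)
  | refl K g hK hs ho h =>
    refine hr' K ⟨g, {j | j ≠ 0 ∧ AInv g j K}, {j | j ≠ 0 ∧ BInv g j K},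
      ⟨hs, fun h => h.1 rfl, fun h => h.1 rfl, fun i i' e h1 h2 => ?_⟩,
      ⟨hK.1, hK.2.1, hK.2.2⟩, fun j hj => hj.2, fun j hj => hj.2⟩
    by_cases h0 : g i = 0
    · exact ho i i' h0 (e ▸ h0)
    · rcases h (g i) with h | h | h
      · exact h i i' rfl e.symm
      · exact absurd ⟨h0, h⟩ h1
      · exact absurd ⟨h0, h⟩ h2
  | norm k m' e B τ S hK hS hu hτ _ ih =>
    refine ⟨⟨hK.1, hK.2.1, hK.2.2⟩, good_norm (c₀ := c₀) h3' hε'1 moat
      (mul_le_mul_left (ENNReal.ofReal_le_ofReal (by linarith)) _) hlow e hτ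
      ⟨hS.1, hS.2.1, hS.2.2⟩ hu
      (fun h1 => hgap (m' + 1) (by omega) ?_ S ⟨hS.1, hS.2.1, hS.2.2⟩ hu) ih.1 ih.2
      ⟨hK.1, hK.2.1, hK.2.2⟩⟩
    have := Fintype.card_congr e
    simp only [Fintype.card_sum, Fintype.card_fin] at this
    omega
  | image K e _ ih =>
    exact ⟨⟨ih.1.conv.affine_image e.toAffineMap, ih.1.comp.image e.continuous_of_finiteDimensional,
      (interior_affine e K).2 ih.1.int⟩, ih.2.image h31 e⟩
  | fibre K L i _ _ hs ihK ihL =>
    have hs' : sc i 0 '' K = sc i 0 '' L := by simpa [sc_apply] using hs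
    have e : {x : E n | ∃ s t : ℝ, update x i s ∈ K ∧ update x i t ∈ L ∧ x i = s + t} =
        AB.φ i 1 1 '' AB.Zs i K L := by ext x; simp only [mem_fib, one_mul, mem_ofPred_eq]
    rw [e]
    exact ⟨body_fib ihK.1 ihL.1 hs' zero_le_one zero_le_one (Or.inl one_pos),
      Good.fib h3' hε'1 moat ihK.1 ihL.1 hs' ihK.2 ihL.2⟩
  | polar K _ hc ih =>
    have h0 := zero_mem_of_centroid ih.1 hc
    have hB := body_polar ih.1 h0
    refine ⟨hB, fun hi hM => moat _ hB.conv hB.comp hi hM ?_⟩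
    have h1 := (mahlerInf_le_mstarInf_polar ih.1 hc).trans_lt hM
    exact hpol' K ih.1.conv ih.1.comp h0 h1 (ih.2 ih.1.int (lt_of_le_of_lt
      ((iInf_le _ 0).trans (by simp)) h1))
  | limit K L hK _ ht ih =>
    exact ⟨⟨hK.1, hK.2.1, hK.2.2⟩, Good.lim h3' hε'1 moat ⟨hK.1, hK.2.1, hK.2.2⟩
      (fun j => (ih j).1) (fun j => (ih j).2) ht⟩

theorem r_main (n : ℕ) : ∃ p₀ κ : ℝ, 0 < p₀ ∧ 0 < κ ∧ ∀ K : Set (Fin n → ℝ), RCls K →
      ∃ e : AffineEquiv ℝ (Fin n → ℝ) (Fin n → ℝ), K ⊆ e '' stdS n ∧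
        (∀ p : ℝ, p₀ ≤ p →
          ENNReal.ofReal (1 + κ * (1 - (volume K).toReal / (volume (e '' stdS n)).toReal)) *
            (⨅ x ∈ stdS n, mahler p ((fun z => z - x) '' stdS n)) ≤ mahler p K) ∧
        ENNReal.ofReal (1 + κ * (1 - (volume K).toReal / (volume (e '' stdS n)).toReal)) *
          (⨅ x ∈ stdS n, mahlerInf ((fun z => z - x) '' stdS n)) ≤ mahlerInf K := by
  obtain ⟨p₁, ε, κ, hp₁, hε, hκ, h⟩ := local_unif_both n
  obtain ⟨c, hc, hfar⟩ := far_r n hε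
  obtain ⟨p₂, hp₂⟩ := eventually_atTop.1 (mahler_cS_le_inf (n := n) (η := c / (2 + c))
    (by positivity))
  refine ⟨max p₁ p₂, min κ (c / 2), lt_max_of_lt_left hp₁, by positivity, fun K hK => ?_⟩
  obtain ⟨⟨hKc, hKk, hKi⟩, hG⟩ := hfar K hK
  rw [iInfInf_eq]
  have hw : ∀ e : AffineEquiv ℝ (E n) (E n), K ⊆ e '' stdS n →
      0 ≤ 1 - (volume K).toReal / (volume (e '' stdS n)).toReal := by
    intro e he
    have hSt : volume (e '' stdS n) ≠ ∞ := by
      rw [volume_image_affine, volume_stdS]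
      exact ENNReal.mul_ne_top ENNReal.ofReal_ne_top (volume_cS_lt_top zero_le_one).ne
    exact sub_nonneg.2
      (div_le_one_of_le₀ (ENNReal.toReal_mono hSt (measure_mono he)) ENNReal.toReal_nonneg)
  by_cases hn : EF.Near ε K
  · obtain ⟨e, hKe, hv⟩ := hn
    obtain ⟨e', h1, h2, h3⟩ := h K hKc hKk hKi e hKe hv
    have h4 : ENNReal.ofReal
        (1 + min κ (c / 2) * (1 - (volume K).toReal / (volume (e' '' stdS n)).toReal)) ≤
        ENNReal.ofReal (1 + κ * (1 - (volume K).toReal / (volume (e' '' stdS n)).toReal)) :=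
      ENNReal.ofReal_le_ofReal (by
        linarith [mul_le_mul_of_nonneg_right (min_le_left κ (c / 2)) (hw e' h1)])
    refine ⟨e', h1, fun p hp => ?_, (mul_le_mul_left h4 _).trans h3⟩
    have hp1 := (le_max_left _ _).trans hp
    rw [iInf_eq (hp₁.trans_le hp1)]
    exact (mul_le_mul_left h4 _).trans (h2 p hp1)
  · have h1 : ENNReal.ofReal (1 + c) * mahlerInf (cS n 1) ≤ mahlerInf K :=
      (not_lt.1 fun hM => hn (hG hKi hM)).trans ((iInf_le _ 0).trans (by simp))
    obtain ⟨e, he⟩ := exists_simplex_superset hKk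
    have h2 : 1 + min κ (c / 2) * (1 - (volume K).toReal / (volume (e '' stdS n)).toReal) ≤
        1 + c / 2 := by
      have h3 : 0 ≤ (volume K).toReal / (volume (e '' stdS n)).toReal := by positivity
      nlinarith [mul_le_mul_of_nonneg_right (min_le_right κ (c / 2)) (hw e he)]
    refine ⟨e, he, fun p hp => ?_,
      (mul_le_mul_left (ENNReal.ofReal_le_ofReal (by linarith)) _).trans h1⟩
    have hp0 := hp₁.trans_le ((le_max_left _ _).trans hp)
    rw [iInf_eq hp0]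
    refine le_trans (mul_le_mul' (ENNReal.ofReal_le_ofReal h2)
      (hp₂ p ((le_max_right _ _).trans hp))) (le_trans (le_of_eq ?_)
        (h1.trans (mahlerInf_le_mahler hKk hKi hp0)))
    rw [← mul_assoc, ← ENNReal.ofReal_mul (by positivity)]
    congr 2
    field_simp
    ring

end Pool.Agent.MP_5f4cdd_gt.W

end
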