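import Pool.Agent.Mg.F5f4cdd.G9b7d44

section

set_option autoImplicit false
open MeasureTheory ENNReal Set Function Filter Topology Pointwise

namespace Pool.Agent.MP_5f4cdd_gt.W

open PL EF AB

variable {m : ℕ}

lemma wlaw_level {S : Set (E (m + 1))} (c : IsCompact S) (z : 0 ∈ interior S) (r : ℝ) :
    volume {y | suppF S y ≤ r} = ENNReal.ofReal (max r 0 ^ (m + 1)) * volume (polarS S) := by
  have hn : S.Nonempty := ⟨0, interior_subset z⟩
  rcases lt_or_ge 0 r with hr | hr
  · rw [level_eq_smul c.isBounded hn hr, Measure.addHaar_smul_of_nonneg _ hr.le,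
      max_eq_left hr.le]
    simp
  · rw [max_eq_right hr, zero_pow (Nat.succ_ne_zero m), ENNReal.ofReal_zero, zero_mul]
    refine measure_mono_null (t := {0}) (fun y hy => ?_) (measure_singleton _)
    obtain ⟨C, hC⟩ := (isBounded_polarS z).exists_norm_le
    by_contra h0
    have hy0 : 0 < ‖y‖ := norm_pos_iff.2 h0
    have ht : 0 ≤ (|C| + 1) / ‖y‖ := by positivity
    have hm : ((|C| + 1) / ‖y‖) • y ∈ polarS S := by
      intro x hx
      rw [dotProduct_smul, smul_eq_mul]
      have h1 : x ⬝ᵥ y ≤ 0 := ((dot_le_suppF c.isBounded hx y).trans hy).trans hr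
      exact (mul_nonpos_of_nonneg_of_nonpos ht h1).trans zero_le_one
    have h2 := hC _ hm
    rw [norm_smul, Real.norm_of_nonneg ht, div_mul_cancel₀ _ hy0.ne'] at h2
    linarith [le_abs_self C]

lemma wlaw_Iic {S T : Set (E (m + 1))} (c : IsCompact S) (z : 0 ∈ interior S) (r : ℝ) :
    (volume (polarS T) • (volume : Measure (E (m + 1))).map (suppF S)) (Iic r) =
      ENNReal.ofReal (max r 0 ^ (m + 1)) * (volume (polarS S) * volume (polarS T)) := by
  rw [Measure.smul_apply, Measure.map_apply (continuous_suppF c.isBounded).measurable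
    measurableSet_Iic, smul_eq_mul]
  have : suppF S ⁻¹' Iic r = {y | suppF S y ≤ r} := rfl
  rw [this, wlaw_level c z]
  ring

theorem gauge_law {S₁ S₂ : Set (E (m + 1))} (c₁ : IsCompact S₁) (c₂ : IsCompact S₂)
    (z₁ : 0 ∈ interior S₁) (z₂ : 0 ∈ interior S₂) {G : ℝ → ℝ≥0∞} (hG : Measurable G) :
    (∫⁻ ζ, G (suppF S₁ ζ)) * volume (polarS S₂) = (∫⁻ ζ, G (suppF S₂ ζ)) * volume (polarS S₁) := by
  have f₁ : volume (polarS S₁) ≠ ⊤ := (isBounded_polarS z₁).measure_lt_top.ne
  have f₂ : volume (polarS S₂) ≠ ⊤ := (isBounded_polarS z₂).measure_lt_top.ne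
  have fin : ∀ r : ℝ, (volume (polarS S₂) • (volume : Measure (E (m + 1))).map (suppF S₁))
      (Iic r) ≠ ⊤ := fun r => by
    rw [wlaw_Iic c₁ z₁]
    exact ENNReal.mul_ne_top ENNReal.ofReal_ne_top (ENNReal.mul_ne_top f₁ f₂)
  have eq : ∀ r : ℝ, (volume (polarS S₂) • (volume : Measure (E (m + 1))).map (suppF S₁))
      (Iic r) = (volume (polarS S₁) • (volume : Measure (E (m + 1))).map (suppF S₂))
      (Iic r) := fun r => by
    rw [wlaw_Iic c₁ z₁, wlaw_Iic c₂ z₂, mul_comm (volume (polarS S₁))]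
  have key : volume (polarS S₂) • (volume : Measure (E (m + 1))).map (suppF S₁) =
      volume (polarS S₁) • (volume : Measure (E (m + 1))).map (suppF S₂) := by
    refine Measure.ext_of_Ioc' _ _ (fun a b _ => ?_) (fun a b hab => ?_)
    · exact ne_top_of_le_ne_top (fin b) (measure_mono Ioc_subset_Iic_self)
    · rw [← Iic_sdiff_Iic, measure_diff (Iic_subset_Iic.2 hab.le)
        measurableSet_Iic.nullMeasurableSet (fin a), measure_diff (Iic_subset_Iic.2 hab.le)
        measurableSet_Iic.nullMeasurableSet (eq a ▸ fin a), eq a, eq b]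
  rw [← lintegral_map hG (continuous_suppF c₁.isBounded).measurable,
    ← lintegral_map hG (continuous_suppF c₂.isBounded).measurable, mul_comm, mul_comm _ (volume _),
    ← smul_eq_mul, ← smul_eq_mul, ← lintegral_smul_measure, ← lintegral_smul_measure, key]

end Pool.Agent.MP_5f4cdd_gt.W

end

section

set_option autoImplicit false
open MeasureTheory ENNReal Set Function Filter Topology Pointwise

namespace Pool.Agent.MP_5f4cdd_gt.W

open PL EF AB

variable {n k m : ℕ}

/-- glue two blocks of coordinates -/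
def wpf_j {a : ℕ} (e : Fin k ⊕ Fin a ≃ Fin n) (p : E k × E a) : E n :=
  fun i => Sum.elim p.1 p.2 (e.symm i)

section

variable {a : ℕ} (e : Fin k ⊕ Fin a ≃ Fin n)

lemma wpf_mp : MeasurePreserving (wpf_j e) (volume.prod volume) volume := by
  have h := (volume_measurePreserving_piCongrLeft (fun _ : Fin n => ℝ) e).comp
    (volume_measurePreserving_sumPiEquivProdPi_symm fun _ : Fin k ⊕ Fin a => ℝ)
  have h' : wpf_j e = MeasurableEquiv.piCongrLeft (fun _ : Fin n => ℝ) e ∘
      (MeasurableEquiv.sumPiEquivProdPi fun _ : Fin k ⊕ Fin a => ℝ).symm := by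
    funext p i
    obtain ⟨i, rfl⟩ := e.surjective i
    rw [comp_apply, MeasurableEquiv.piCongrLeft_apply_apply]
    cases i <;> simp [wpf_j, MeasurableEquiv.sumPiEquivProdPi]
  rw [h']
  exact h

lemma wpf_mem {B : Set (E k)} {τ : E k → ℝ} {S : Set (E a)} (p : E k × E a) :
    wpf_j e p ∈ fibS e B τ S ↔ p.1 ∈ B ∧ p.2 ∈ τ p.1 • S := by
  simp [fibS, wpf_j]

lemma wpf_surj (x : E n) : ∃ p, wpf_j e p = x :=
  ⟨(fun i => x (e (Sum.inl i)), fun j => x (e (Sum.inr j))), funext fun i => by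
    obtain ⟨i, rfl⟩ := e.surjective i
    cases i <;> simp [wpf_j]⟩

lemma wpf_dot (c : E k) (p q : E k × E a) :
    (wpf_j e p - fun i => Sum.elim c 0 (e.symm i)) ⬝ᵥ wpf_j e q =
      (p.1 - c) ⬝ᵥ q.1 + p.2 ⬝ᵥ q.2 := by
  simp only [dotProduct, ← e.sum_comp, Fintype.sum_sum_type]
  simp [wpf_j]

variable {B : Set (E k)} {τ : E k → ℝ} {S : Set (E a)}

lemma wpf_vol (hτ : ∀ u ∈ B, 0 ≤ τ u) (cS : IsCompact S) (kS : IsCompact (fibS e B τ S)) :
    volume (fibS e B τ S) =
      (∫⁻ u, B.indicator (fun u => ENNReal.ofReal (τ u ^ a)) u) * volume S := by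
  rw [← (wpf_mp e).measure_preimage kS.measurableSet.nullMeasurableSet,
    Measure.prod_apply ((wpf_mp e).measurable kS.measurableSet),
    ← lintegral_mul_const' _ _ cS.measure_lt_top.ne]
  refine lintegral_congr fun u => ?_
  by_cases hu : u ∈ B
  · have : Prod.mk u ⁻¹' (wpf_j e ⁻¹' fibS e B τ S) = τ u • S := by
      ext v
      simp [wpf_mem, hu]
    rw [this, Measure.addHaar_smul_of_nonneg _ (hτ u hu), indicator_of_mem hu]
    simp
  · have : Prod.mk u ⁻¹' (wpf_j e ⁻¹' fibS e B τ S) = ∅ := by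
      ext v
      simp [wpf_mem, hu]
    simp [this, hu]

lemma wpf_le (kS : IsCompact (fibS e B τ S)) (c ξ : E k) (ζ : E a) {u : E k} (hu : u ∈ B)
    {s : E a} (hs : s ∈ S) : (u - c) ⬝ᵥ ξ + τ u * (s ⬝ᵥ ζ) ≤
      suppF ((fun z => z - fun i => Sum.elim c 0 (e.symm i)) '' fibS e B τ S)
        (wpf_j e (ξ, ζ)) := by
  have h := dot_le_suppF (isBounded_image_sub kS.isBounded fun i => Sum.elim c 0 (e.symm i))
    ⟨_, (wpf_mem e (u, τ u • s)).2 ⟨hu, smul_mem_smul_set hs⟩, rfl⟩ (wpf_j e (ξ, ζ))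
  simp only [wpf_dot] at h
  simpa using h

lemma wpf_supp (hτ : ∀ u ∈ B, 0 ≤ τ u) (hB : B.Nonempty) (cS : IsCompact S) (hS : S.Nonempty)
    (kS : IsCompact (fibS e B τ S)) (c ξ : E k) (ζ : E a) :
    suppF ((fun z => z - fun i => Sum.elim c 0 (e.symm i)) '' fibS e B τ S) (wpf_j e (ξ, ζ)) =
      sSup ((fun u => (u - c) ⬝ᵥ ξ + τ u * suppF S ζ) '' B) := by
  obtain ⟨s, hs, h⟩ := cS.exists_sSup_image_eq hS (f := fun x : E a => ∑ i, x i * ζ i)
    (by fun_prop)
  have h' : suppF S ζ = s ⬝ᵥ ζ := h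
  refine (IsLUB.csSup_eq ⟨?_, fun C hC => ?_⟩ (hB.image _)).symm
  · rintro _ ⟨u, hu, rfl⟩
    rw [h']
    exact wpf_le e kS c ξ ζ hu hs
  · obtain ⟨u, hu⟩ := hB
    refine suppF_le (Nonempty.image _
      ⟨_, (wpf_mem e (u, τ u • s)).2 ⟨hu, smul_mem_smul_set hs⟩⟩) ?_
    rintro _ ⟨x, hx, rfl⟩
    obtain ⟨⟨v, w⟩, rfl⟩ := wpf_surj e x
    obtain ⟨hv, t, ht, rfl⟩ : v ∈ B ∧ w ∈ τ v • S := (wpf_mem e _).1 hx
    refine le_trans ?_ (hC ⟨v, hv, rfl⟩)
    have := mul_le_mul_of_nonneg_left (dot_le_suppF cS.isBounded ht ζ) (hτ v hv)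
    simp only [wpf_dot]
    simpa using this

lemma wpf_int (hτ : ∀ u ∈ B, 0 ≤ τ u) (hB : B.Nonempty) (cS : IsCompact S) (hS : S.Nonempty)
    (kS : IsCompact (fibS e B τ S)) (c : E k) :
    ∫⁻ y, expS ((fun z => z - fun i => Sum.elim c 0 (e.symm i)) '' fibS e B τ S) y =
      ∫⁻ ξ, ∫⁻ ζ, ENNReal.ofReal
        (Real.exp (-sSup ((fun u => (u - c) ⬝ᵥ ξ + τ u * suppF S ζ) '' B))) := by
  have hm := measurable_expS (isBounded_image_sub kS.isBounded fun i => Sum.elim c 0 (e.symm i))
  rw [← (wpf_mp e).lintegral_comp hm]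
  refine (lintegral_prod _ (hm.comp (wpf_mp e).measurable).aemeasurable).trans ?_
  simp only [comp_apply, expS, wpf_supp e hτ hB cS hS kS]

end

theorem prod_formula (e : Fin k ⊕ Fin (m + 1) ≃ Fin n) {B : Set (E k)} {τ : E k → ℝ}
    (hτ : ∀ u ∈ B, 0 ≤ τ u) {S₁ S₂ : Set (E (m + 1))} (c₁ : IsCompact S₁) (c₂ : IsCompact S₂)
    (z₁ : 0 ∈ interior S₁) (z₂ : 0 ∈ interior S₂) (k₁ : IsCompact (fibS e B τ S₁))
    (k₂ : IsCompact (fibS e B τ S₂)) (c : E k) :
    mahlerInf ((fun z => z - fun i => Sum.elim c 0 (e.symm i)) '' fibS e B τ S₁) * mahlerInf S₂ =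
    mahlerInf ((fun z => z - fun i => Sum.elim c 0 (e.symm i)) '' fibS e B τ S₂) *
      mahlerInf S₁ := by
  rcases B.eq_empty_or_nonempty with rfl | hB
  · simp [fibS, mahlerInf]
  obtain ⟨ρ, hρ, hb⟩ := Metric.mem_nhds_iff.1 (mem_interior_iff_mem_nhds.1 z₁)
  have hs : (fun _ => ρ / 2 : E (m + 1)) ∈ S₁ := hb (by
    rw [mem_ball_zero_iff, pi_norm_const, Real.norm_of_nonneg (by positivity)]
    linarith)
  have hbd : ∀ (ξ : E k) (r : ℝ), BddAbove ((fun u => (u - c) ⬝ᵥ ξ + τ u * r) '' B) := by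
    intro ξ r
    refine ⟨_, forall_mem_image.2 fun u hu =>
      le_trans (le_of_eq ?_) (wpf_le e k₁ c ξ (Pi.single 0 (2 * r / ρ)) hu hs)⟩
    rw [dotProduct_single]
    field_simp
  have hG : ∀ ξ : E k, Measurable fun r : ℝ => ENNReal.ofReal
      (Real.exp (-sSup ((fun u => (u - c) ⬝ᵥ ξ + τ u * r) '' B))) := by
    intro ξ
    have : Monotone fun r : ℝ => sSup ((fun u => (u - c) ⬝ᵥ ξ + τ u * r) '' B) := fun r r' h =>
      csSup_le (hB.image _) (forall_mem_image.2 fun u hu => le_csSup_of_le (hbd ξ r') ⟨u, hu, rfl⟩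
        (add_le_add le_rfl (mul_le_mul_of_nonneg_left h (hτ u hu))))
    exact (Real.measurable_exp.comp this.measurable.neg).ennreal_ofReal
  have y₁ := interior_subset z₁
  have y₂ := interior_subset z₂
  have key : (∫⁻ y, expS ((fun z => z - fun i => Sum.elim c 0 (e.symm i)) '' fibS e B τ S₁) y) *
      volume (polarS S₂) =
      (∫⁻ y, expS ((fun z => z - fun i => Sum.elim c 0 (e.symm i)) '' fibS e B τ S₂) y) *
      volume (polarS S₁) := by
    rw [wpf_int e hτ hB c₁ ⟨0, y₁⟩ k₁, wpf_int e hτ hB c₂ ⟨0, y₂⟩ k₂,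
      ← lintegral_mul_const' _ _ (isBounded_polarS z₂).measure_lt_top.ne,
      ← lintegral_mul_const' _ _ (isBounded_polarS z₁).measure_lt_top.ne]
    exact lintegral_congr fun ξ => gauge_law c₁ c₂ z₁ z₂ (hG ξ)
  rw [mahlerInf_polar c₁.isBounded y₁, mahlerInf_polar c₂.isBounded y₂, PL.mahlerInf_eq,
    PL.mahlerInf_eq, volume_sub, volume_sub, wpf_vol e hτ c₁ k₁, wpf_vol e hτ c₂ k₂]
  have h : ∀ a b c d j₁ j₂ p₁ p₂ : ℝ≥0∞, j₁ * p₂ = j₂ * p₁ →
      a * b * j₁ * (d * (c * p₂)) = a * c * j₂ * (d * (b * p₁)) := fun a b c d j₁ j₂ p₁ p₂ h => by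
    calc _ = a * b * c * d * (j₁ * p₂) := by ring
      _ = _ := by rw [h]; ring
  exact h _ _ _ _ _ _ _ _ key

end Pool.Agent.MP_5f4cdd_gt.W

end

section

set_option autoImplicit false
open MeasureTheory ENNReal Set Function Filter Topology Pointwise

namespace Pool.Agent.MP_5f4cdd_gt.W

open PL EF AB

variable {n k m : ℕ} {g : Fin n → Fin 3}

/-- invariance under the rotations of the block `j` -/
def RotInv (g : Fin n → Fin 3) (j : Fin 3) (K : Set (E n)) : Prop :=
  ∀ x ∈ K, ∀ y : E n, (∀ i, g i ≠ j → y i = x i) →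
    ∑ i with g i = j, y i ^ 2 = ∑ i with g i = j, x i ^ 2 → y ∈ K

/-- in the block `j` only the sum of the nonnegative coordinates matters -/
def SumInv (g : Fin n → Fin 3) (j : Fin 3) (K : Set (E n)) : Prop :=
  ∀ x ∈ K, (∀ i, g i = j → 0 ≤ x i) ∧ ∀ y : E n, (∀ i, g i ≠ j → y i = x i) →
    (∀ i, g i = j → 0 ≤ y i) → bs g y j = bs g x j → y ∈ K

/-- collect the block `j` in the coordinate `i₀` -/
noncomputable def col (g : Fin n → Fin 3) (j : Fin 3) (i₀ : Fin n) : E n →ₗ[ℝ] E n where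
  toFun x := fun i => if g i = j then (if i = i₀ then bs g x j else 0) else x i
  map_add' u v := by ext i; simp only [map_add, Pi.add_apply]; split_ifs <;> simp
  map_smul' c u := by
    ext i; simp only [map_smul, Pi.smul_apply, RingHom.id_apply]; split_ifs <;> simp

lemma col_apply (j : Fin 3) (i₀ : Fin n) (x : E n) (i : Fin n) :
    col g j i₀ x i = if g i = j then (if i = i₀ then bs g x j else 0) else x i := rfl

/-- the body with simplex fibres attached to a rotation invariant body -/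
def flat (g : Fin n → Fin 3) (j : Fin 3) (i₀ : Fin n) (K : Set (E n)) : Set (E n) :=
  {x | (∀ i, g i = j → 0 ≤ x i) ∧ col g j i₀ x ∈ K}

lemma bs_congr {x y : E n} {j : Fin 3} (h : ∀ i, g i = j → y i = x i) : bs g y j = bs g x j := by
  rw [bs_apply, bs_apply]
  exact Finset.sum_congr rfl fun i hi => h i (Finset.mem_filter.1 hi).2

lemma wgen_of_sumInv (hg : Blk g) {K : Set (E n)} (hK : Body K) (h : ∀ j, SumInv g j K) :
    WGen K := by
  refine WGen.wedge K g (bs g '' K) hK.conv hK.comp hK.int hg.surj hg.one ?_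
  ext x
  refine ⟨fun hx => ⟨fun i => (h (g i) x hx).1 i rfl, x, hx, rfl⟩, ?_⟩
  rintro ⟨h0, z, hz, hzx⟩
  have hb : ∀ j, bs g z j = bs g x j := fun j => congrFun hzx j
  have key : ∀ s : Finset (Fin 3), (fun i => if g i ∈ s then x i else z i) ∈ K := by
    intro s
    induction s using Finset.induction_on with
    | empty => simpa using hz
    | insert j s hj ih =>
      refine (h j _ ih).2 _ (fun i hi => by simp [hi]) (fun i hi => by simpa [hi] using h0 i) ?_
      exact (bs_congr (x := x) fun i hi => by simp [hi]).trans ((hb j).symm.trans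
        (bs_congr (x := z) fun i hi => by simp [hi, hj]).symm)
  simpa using key Finset.univ

lemma sumInv_flat (j : Fin 3) (i₀ : Fin n) (K : Set (E n)) : SumInv g j (flat g j i₀ K) := by
  refine fun x hx => ⟨hx.1, fun y h1 h2 h3 => ⟨h2, ?_⟩⟩
  have : col g j i₀ y = col g j i₀ x := by
    ext i
    rw [col_apply, col_apply, h3]
    split_ifs with h h'
    · rfl
    · rfl
    · exact h1 i h
  rw [this]; exact hx.2

lemma SumInv.flat {j j' : Fin 3} (hj : j' ≠ j) (i₀ : Fin n) {K : Set (E n)} (h : SumInv g j' K) :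
    SumInv g j' (flat g j i₀ K) := by
  have hne : ∀ i, g i = j' → g i ≠ j := fun i hi => hi ▸ hj
  have hne' : ∀ i, g i = j → g i ≠ j' := fun i hi => hi ▸ hj.symm
  refine fun x hx => ⟨fun i hi => ?_, fun y h1 h2 h3 => ⟨fun i hi => ?_, ?_⟩⟩
  · have := (h _ hx.2).1 i hi
    rwa [col_apply, if_neg (hne i hi)] at this
  · rw [h1 i (hne' i hi)]; exact hx.1 i hi
  · refine (h _ hx.2).2 _ (fun i hi => ?_) (fun i hi => ?_) ?_
    · rw [col_apply, col_apply, bs_congr fun i hi => h1 i (hne' i hi), h1 i hi]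
    · rw [col_apply, if_neg (hne i hi)]; exact h2 i hi
    · exact (bs_congr (x := y) fun i hi => by rw [col_apply, if_neg (hne i hi)]).trans (h3.trans
        (bs_congr (x := x) fun i hi => by rw [col_apply, if_neg (hne i hi)]).symm)

lemma RotInv.flat {j j' : Fin 3} (hj : j' ≠ j) (i₀ : Fin n) {K : Set (E n)} (h : RotInv g j' K) :
    RotInv g j' (flat g j i₀ K) := by
  have hne : ∀ i, g i = j' → g i ≠ j := fun i hi => hi ▸ hj
  have hne' : ∀ i, g i = j → g i ≠ j' := fun i hi => hi ▸ hj.symm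
  refine fun x hx y h1 h2 => ⟨fun i hi => ?_, h _ hx.2 _ (fun i hi => ?_) ?_⟩
  · rw [h1 i (hne' i hi)]; exact hx.1 i hi
  · rw [col_apply, col_apply, bs_congr fun i hi => h1 i (hne' i hi), h1 i hi]
  · rw [Finset.sum_congr rfl (g := fun i => y i ^ 2) fun i hi => by
      rw [col_apply, if_neg (hne i (Finset.mem_filter.1 hi).2)], h2]
    exact Finset.sum_congr rfl fun i hi => by
      rw [col_apply, if_neg (hne i (Finset.mem_filter.1 hi).2)]

lemma body_flat {j : Fin 3} {i₀ : Fin n} (h0 : g i₀ = j) {K : Set (E n)} (hK : Body K)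
    (h : RotInv g j K) : Body (flat g j i₀ K) := by
  have hc := (col g j i₀).continuous_of_finiteDimensional
  refine ⟨?_, ?_, ?_⟩
  · intro x hx y hy a b ha hb hab
    refine ⟨fun i hi => add_nonneg (mul_nonneg ha (hx.1 i hi)) (mul_nonneg hb (hy.1 i hi)), ?_⟩
    rw [map_add, map_smul, map_smul]
    exact hK.conv hx.2 hy.2 ha hb hab
  · obtain ⟨R, hR0, hR⟩ := hK.comp.isBounded.subset_closedBall_lt 0 0
    refine Metric.isCompact_of_isClosed_isBounded ?_
      ((Metric.isBounded_closedBall (x := (0 : E n)) (r := R)).subset fun x hx => ?_)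
    · refine IsClosed.inter (s₁ := {x : E n | ∀ i, g i = j → 0 ≤ x i}) ?_
        (hK.comp.isClosed.preimage hc)
      simp only [ofPred_forall]
      exact isClosed_iInter fun i => isClosed_iInter fun _ =>
        isClosed_le continuous_const (continuous_apply i)
    · have hb := hR hx.2
      rw [mem_closedBall_zero_iff, pi_norm_le_iff_of_nonneg hR0.le] at hb ⊢
      intro i
      by_cases hi : g i = j
      · have h1 := hb i₀
        rw [col_apply, if_pos h0, if_pos rfl] at h1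
        have h2 : x i ≤ bs g x j := by
          rw [bs_apply]
          exact Finset.single_le_sum (f := x)
            (fun i hi => hx.1 i (Finset.mem_filter.1 hi).2) (by simpa using hi)
        rw [Real.norm_eq_abs, abs_of_nonneg (hx.1 i hi)]
        exact h2.trans ((le_abs_self _).trans h1)
      · have h1 := hb i
        rwa [col_apply, if_neg hi] at h1
  · obtain ⟨x, hx⟩ := hK.int
    have h1 : (fun i => if g i = j then -x i else x i) ∈ K :=
      h x (interior_subset hx) _ (fun i hi => if_neg hi) (Finset.sum_congr rfl fun i hi => by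
        simp [(Finset.mem_filter.1 hi).2])
    have h2 := hK.conv.combo_interior_self_mem_interior hx h1 (a := 1 / 2) (b := 1 / 2)
      (by norm_num) (by norm_num) (by norm_num)
    set z : E n := fun i => if g i = j then 0 else x i with hz
    have h3 : col g j i₀ z = (1 / 2 : ℝ) • x + (1 / 2 : ℝ) •
        (fun i => if g i = j then -x i else x i : E n) := by
      ext i
      have : bs g z j = 0 := by
        rw [bs_apply]
        exact Finset.sum_eq_zero fun i hi => if_pos (Finset.mem_filter.1 hi).2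
      rw [col_apply, this]
      simp only [ite_self, Pi.add_apply, Pi.smul_apply, smul_eq_mul, hz]
      split_ifs <;> ring
    rw [← h3] at h2
    have h4 : ContinuousAt (fun s : ℝ => col g j i₀ (z + fun _ => s)) 0 :=
      (hc.comp (by fun_prop)).continuousAt
    have h5 : ∀ᶠ s in 𝓝 (0 : ℝ), col g j i₀ (z + fun _ => s) ∈ interior K :=
      h4.preimage_mem_nhds (t := interior K) (isOpen_interior.mem_nhds (by
        rw [show (z + fun _ => (0 : ℝ)) = z from by ext; simp]; exact h2))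
    obtain ⟨s, hs1, hs2⟩ := ((h5.filter_mono nhdsWithin_le_nhds).and
      (self_mem_nhdsWithin (a := (0 : ℝ)) (s := Ioi 0))).exists
    have ho : IsOpen ({x : E n | ∀ i, g i = j → 0 < x i} ∩ col g j i₀ ⁻¹' interior K) := by
      refine IsOpen.inter ?_ (isOpen_interior.preimage hc)
      simp only [ofPred_forall]
      exact isOpen_iInter_of_finite fun i => isOpen_iInter_of_finite fun _ =>
        isOpen_lt continuous_const (continuous_apply i)
    have hsub : ({x : E n | ∀ i, g i = j → 0 < x i} ∩ col g j i₀ ⁻¹' interior K) ⊆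
        flat g j i₀ K := fun y hy => ⟨fun i hi => (hy.1 i hi).le, interior_subset hy.2⟩
    refine ⟨z + fun _ => s, interior_maximal hsub ho ⟨fun i hi => ?_, hs1⟩⟩
    simpa [hz, hi] using hs2

lemma mem_smul_stdS {t : ℝ} (ht : 0 ≤ t) {v : E m} :
    v ∈ t • stdS m ↔ (∀ i, 0 ≤ v i) ∧ ∑ i, v i ≤ t := by
  constructor
  · rintro ⟨w, ⟨h1, h2⟩, rfl⟩
    refine ⟨fun i => mul_nonneg ht (h1 i), ?_⟩
    simp only [Pi.smul_apply, smul_eq_mul, ← Finset.mul_sum]
    nlinarith
  · rintro ⟨h1, h2⟩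
    rcases ht.eq_or_lt with rfl | ht
    · refine ⟨0, ⟨fun _ => le_rfl, by simp⟩, ?_⟩
      ext i
      have := (Finset.sum_eq_zero_iff_of_nonneg fun i _ => h1 i).1
        (le_antisymm h2 (Finset.sum_nonneg fun i _ => h1 i)) i (Finset.mem_univ i)
      simp [this]
    · refine ⟨t⁻¹ • v, ⟨fun i => mul_nonneg (inv_pos.2 ht).le (h1 i), ?_⟩, ?_⟩
      · simp only [Pi.smul_apply, smul_eq_mul, ← Finset.mul_sum]
        rwa [inv_mul_le_iff₀ ht, mul_one]
      · simp [smul_smul, ht.ne']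

/-- the Euclidean unit ball -/
def ballE (m : ℕ) : Set (E m) := {v | ∑ i, v i ^ 2 ≤ 1}

lemma mem_smul_ballE {t : ℝ} (ht : 0 ≤ t) {v : E m} :
    v ∈ t • ballE m ↔ √(∑ i, v i ^ 2) ≤ t := by
  rw [Real.sqrt_le_left ht]
  constructor
  · rintro ⟨w, h2, rfl⟩
    simp only [Pi.smul_apply, smul_eq_mul, mul_pow, ← Finset.mul_sum]
    have h3 : ∑ i, w i ^ 2 ≤ 1 := h2
    nlinarith [sq_nonneg t]
  · intro h2
    rcases ht.eq_or_lt with rfl | ht
    · refine ⟨0, by simp [ballE], ?_⟩
      ext i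
      have := (Finset.sum_eq_zero_iff_of_nonneg fun i _ => sq_nonneg (v i)).1
        (le_antisymm (by simpa using h2) (Finset.sum_nonneg fun i _ => sq_nonneg _)) i
        (Finset.mem_univ i)
      simp [pow_eq_zero_iff] at this
      simp [this]
    · refine ⟨t⁻¹ • v, ?_, by simp [smul_smul, ht.ne']⟩
      change ∑ i, (t⁻¹ * v i) ^ 2 ≤ 1
      simp only [mul_pow, ← Finset.mul_sum]
      rwa [inv_pow, inv_mul_le_iff₀ (by positivity), mul_one]

lemma body_ballE : Body (ballE m) := by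
  have hc : Continuous fun v : E m => ∑ i, v i ^ 2 := by fun_prop
  refine ⟨?_, ?_, 0, ?_⟩
  · intro x hx y hy a b ha hb hab
    change ∑ i, (a * x i + b * y i) ^ 2 ≤ 1
    have h1 : ∑ i, (a * x i + b * y i) ^ 2 ≤ ∑ i, (a * x i ^ 2 + b * y i ^ 2) :=
      Finset.sum_le_sum fun i _ => by
        have : b = 1 - a := by linarith
        subst this
        nlinarith [mul_nonneg (mul_nonneg ha hb) (sq_nonneg (x i - y i))]
    rw [Finset.sum_add_distrib, ← Finset.mul_sum, ← Finset.mul_sum] at h1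
    have h2 : ∑ i, x i ^ 2 ≤ 1 := hx
    have h3 : ∑ i, y i ^ 2 ≤ 1 := hy
    nlinarith
  · refine Metric.isCompact_of_isClosed_isBounded (isClosed_le hc continuous_const)
      ((Metric.isBounded_closedBall (x := (0 : E m)) (r := 1)).subset fun x hx => ?_)
    rw [mem_closedBall_zero_iff, pi_norm_le_iff_of_nonneg zero_le_one]
    intro i
    have h1 : x i ^ 2 ≤ 1 := (Finset.single_le_sum (f := fun i => x i ^ 2)
      (fun i _ => sq_nonneg _) (Finset.mem_univ i)).trans hx
    exact (sq_le_one_iff_abs_le_one _).1 h1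
  · refine interior_maximal (t := {v : E m | ∑ i, v i ^ 2 < 1}) (fun v hv => ?_)
      (isOpen_lt hc continuous_const) (by simp)
    exact le_of_lt (show ∑ i, v i ^ 2 < 1 from hv)

lemma exists_split {j : Fin 3} (hj : ∃ i, g i = j) : ∃ (k m : ℕ) (e : Fin k ⊕ Fin (m + 1) ≃ Fin n),
    (∀ a, g (e (Sum.inl a)) ≠ j) ∧ ∀ b, g (e (Sum.inr b)) = j := by
  obtain ⟨i, hi⟩ := hj
  have hpos : 0 < Fintype.card {i // ¬ g i ≠ j} := Fintype.card_pos_iff.2 ⟨⟨i, by simpa using hi⟩⟩
  obtain ⟨m, hm⟩ := Nat.exists_eq_succ_of_ne_zero hpos.ne'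
  refine ⟨_, m, ((Fintype.equivFin {i // g i ≠ j}).symm.sumCongr
    (Fintype.equivFinOfCardEq hm).symm).trans (Equiv.sumCompl fun i => g i ≠ j), fun a => ?_,
    fun b => ?_⟩
  · exact ((Fintype.equivFin {i // g i ≠ j}).symm a).2
  · exact not_not.1 ((Fintype.equivFinOfCardEq hm).symm b).2

lemma sum_block {j : Fin 3} {e : Fin k ⊕ Fin m ≃ Fin n} (h1 : ∀ a, g (e (Sum.inl a)) ≠ j)
    (h2 : ∀ b, g (e (Sum.inr b)) = j) (f : Fin n → ℝ) :
    ∑ i with g i = j, f i = ∑ b, f (e (Sum.inr b)) := by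
  rw [Finset.sum_filter, ← e.sum_comp, Fintype.sum_sum_type]
  simp [h1, h2]

lemma wgen_of_flat {j : Fin 3} {e : Fin k ⊕ Fin (m + 1) ≃ Fin n} (h1 : ∀ a, g (e (Sum.inl a)) ≠ j)
    (h2 : ∀ b, g (e (Sum.inr b)) = j) {K : Set (E n)} (hK : Body K) (h : RotInv g j K)
    (hW : WGen (flat g j (e (Sum.inr 0)) K)) : WGen K := by
  set mk : E k → ℝ → E n := fun u r i => Sum.elim u (Pi.single 0 r) (e.symm i) with hmk
  set A : E k → Set ℝ := fun u => {r | mk u r ∈ K} with hA
  set B : Set (E k) := {u | (A u).Nonempty} with hB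
  have hsq : ∀ u r, ∑ i with g i = j, mk u r i ^ 2 = r ^ 2 := fun u r => by
    rw [sum_block h1 h2]
    simp [hmk, Fin.sum_univ_succ]
  have hoff : ∀ (x : E n) r i, g i ≠ j → mk (fun a => x (e (Sum.inl a))) r i = x i := by
    intro x r i hi
    obtain ⟨c, rfl⟩ := e.surjective i
    rcases c with a | b
    · simp [hmk]
    · exact absurd (h2 b) hi
  have hneg : ∀ u r, r ∈ A u → -r ∈ A u := fun u r hr =>
    h _ hr _ (fun i hi => by
      obtain ⟨c, rfl⟩ := e.surjective i
      rcases c with a | b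
      · simp [hmk]
      · exact absurd (h2 b) hi) (by rw [hsq, hsq]; ring)
  have hconv : ∀ u, Convex ℝ (A u) := fun u r hr s hs a b ha hb hab => by
    have := hK.conv hr hs ha hb hab
    change mk u _ ∈ K
    convert this using 1
    ext i
    obtain ⟨c, rfl⟩ := e.surjective i
    rcases c with c | c
    · simp [hmk, ← add_mul, hab]
    · by_cases hc : c = 0 <;> simp [hmk, hc]
  have hcomp : ∀ u, IsCompact (A u) := fun u => by
    obtain ⟨R, hR0, hR⟩ := hK.comp.isBounded.subset_closedBall_lt 0 0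
    refine Metric.isCompact_of_isClosed_isBounded (hK.comp.isClosed.preimage ?_)
      ((Metric.isBounded_closedBall (x := (0 : ℝ)) (r := R)).subset fun r hr => ?_)
    · refine continuous_pi fun i => ?_
      obtain ⟨c, rfl⟩ := e.surjective i
      rcases c with c | c
      · simpa [hmk] using continuous_const
      · by_cases hc : c = 0
        · simpa [hmk, hc] using continuous_id'
        · simpa [hmk, hc] using continuous_const
    · have hb := hR hr
      rw [mem_closedBall_zero_iff, pi_norm_le_iff_of_nonneg hR0.le] at hb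
      simpa [hmk] using hb (e (Sum.inr 0))
  have hmem : ∀ u ∈ B, 0 ≤ sSup (A u) ∧ ∀ r, 0 ≤ r → (r ∈ A u ↔ r ≤ sSup (A u)) := by
    intro u hu
    have t1 := (hcomp u).sSup_mem hu
    have t2 := le_csSup (hcomp u).bddAbove (hneg u _ t1)
    refine ⟨by linarith, fun r hr => ⟨fun h => le_csSup (hcomp u).bddAbove h, fun h => ?_⟩⟩
    exact (hconv u).ordConnected.out (hneg u _ t1) t1 ⟨by linarith, h⟩
  refine WGen.norm K k m e B (fun u => sSup (A u)) (ballE (m + 1)) hK.conv hK.comp hK.int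
    body_ballE.conv body_ballE.comp body_ballE.int (fun y hy b => ?_) (fun u hu => (hmem u hu).1)
    ?_ ?_
  · change ∑ i, update y b (-y b) i ^ 2 ≤ 1
    rw [Finset.sum_congr rfl (g := fun i => y i ^ 2) fun i _ => by
      rcases eq_or_ne i b with rfl | hi
      · simp
      · simp [hi]]
    exact hy
  · convert hW using 1
    ext x
    have hcol : col g j (e (Sum.inr 0)) x =
        mk (fun a => x (e (Sum.inl a))) (∑ b, x (e (Sum.inr b))) := by
      ext i
      obtain ⟨c, rfl⟩ := e.surjective i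
      rcases c with c | c
      · simp [hmk, col_apply, h1]
      · by_cases hc : c = 0 <;> simp [hmk, hc, col_apply, h2, bs_apply, sum_block h1 h2]
    constructor
    · rintro ⟨hu, hv⟩
      rw [mem_smul_stdS (hmem _ hu).1] at hv
      refine ⟨fun i hi => ?_, ?_⟩
      · obtain ⟨c, rfl⟩ := e.surjective i
        rcases c with c | c
        · exact absurd hi (h1 c)
        · exact hv.1 c
      · rw [hcol]
        exact ((hmem _ hu).2 _ (Finset.sum_nonneg fun b _ => hv.1 b)).2 hv.2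
    · rintro ⟨hx0, hx⟩
      rw [hcol] at hx
      have hu : (fun a => x (e (Sum.inl a))) ∈ B := ⟨_, hx⟩
      refine ⟨hu, (mem_smul_stdS (hmem _ hu).1).2 ⟨fun b => hx0 _ (h2 b), ?_⟩⟩
      exact ((hmem _ hu).2 _ (Finset.sum_nonneg fun b _ => hx0 _ (h2 b))).1 hx
  · ext x
    have hs : √(∑ b, x (e (Sum.inr b)) ^ 2) ^ 2 = ∑ i with g i = j, x i ^ 2 := by
      rw [Real.sq_sqrt (Finset.sum_nonneg fun b _ => sq_nonneg _),
        sum_block h1 h2 fun i => x i ^ 2]
    constructor
    · intro hx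
      have hr : √(∑ b, x (e (Sum.inr b)) ^ 2) ∈ A fun a => x (e (Sum.inl a)) :=
        h x hx _ (hoff x _) (by rw [hsq, hs])
      have hu : (fun a => x (e (Sum.inl a))) ∈ B := ⟨_, hr⟩
      exact ⟨hu, (mem_smul_ballE (hmem _ hu).1).2 (((hmem _ hu).2 _ (Real.sqrt_nonneg _)).1 hr)⟩
    · rintro ⟨hu, hv⟩
      rw [mem_smul_ballE (hmem _ hu).1] at hv
      exact h _ (((hmem _ hu).2 _ (Real.sqrt_nonneg _)).2 hv) x (fun i hi => (hoff x _ i hi).symm)
        (by rw [hsq, hs])

lemma wgen_of_inv (hg : Blk g) (s : Finset (Fin 3)) : ∀ K : Set (E n), Body K →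
    (∀ j ∈ s, RotInv g j K) → (∀ j, j ∉ s → SumInv g j K) → WGen K := by
  induction s using Finset.induction_on with
  | empty => exact fun K hK _ h => wgen_of_sumInv hg hK fun j => h j (Finset.notMem_empty j)
  | insert j s hj ih =>
    intro K hK h1 h2
    obtain ⟨k, m, e, e1, e2⟩ := exists_split (hg.surj j)
    have hR := h1 j (Finset.mem_insert_self _ _)
    refine wgen_of_flat e1 e2 hK hR (ih _ (body_flat (e2 0) hK hR) (fun j' hj' => ?_)
      fun j' hj' => ?_)
    · exact (h1 j' (Finset.mem_insert_of_mem hj')).flat (fun h => hj (by rwa [h] at hj')) _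
    · rcases eq_or_ne j' j with rfl | hne
      · exact sumInv_flat _ _ _
      · exact (h2 j' (by simp [hne, hj'])).flat hne _

theorem wgen_of_rot {K : Set (E n)} (hK : Body K) (R : Set (Fin 3)) (hs : Surjective g)
    (h0 : 0 ∉ R) (h1 : ∀ i i', g i = g i' → g i ∉ R → i = i')
    (h : ∀ x ∈ K, ∀ y : E n, (∀ i, g i ∉ R → y i = x i) →
      (∀ j ∈ R, ∑ i with g i = j, y i ^ 2 = ∑ i with g i = j, x i ^ 2) → y ∈ K) : WGen K := by
  classical
  have hg : Blk g := ⟨hs, fun i i' hi hi' => h1 i i' (hi.trans hi'.symm) (hi ▸ h0)⟩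
  obtain ⟨M, hM0, hM⟩ := hK.comp.isBounded.subset_closedBall_lt 0 0
  set c : E n := fun i => if g i ∈ R then 0 else -M with hc
  have hmem : ∀ x, x ∈ (fun z => z - c) '' K ↔ x + c ∈ K := fun x =>
    ⟨by rintro ⟨z, hz, rfl⟩; simpa using hz, fun hx => ⟨_, hx, by simp⟩⟩
  have hW : WGen ((fun z => z - c) '' K) := by
    refine wgen_of_inv hg (Finset.univ.filter (· ∈ R)) _ ⟨convex_image_sub hK.conv c,
      isCompact_image_sub hK.comp c, interior_image_sub hK.int c⟩ (fun j hj => ?_) fun j hj => ?_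
    · have hj' : j ∈ R := (Finset.mem_filter.1 hj).2
      intro x hx y e1 e2
      rw [hmem] at hx ⊢
      refine h _ hx _ (fun i hi => ?_) fun j' hj'' => ?_
      · simp [e1 i fun e => hi (e ▸ hj')]
      · have t : ∀ z : E n, ∑ i with g i = j', (z + c) i ^ 2 = ∑ i with g i = j', z i ^ 2 :=
          fun z => Finset.sum_congr rfl fun i hi => by
            simp [hc, (Finset.mem_filter.1 hi).2, hj'']
        rw [t, t]
        rcases eq_or_ne j' j with rfl | hne
        · exact e2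
        · exact Finset.sum_congr rfl fun i hi => by
            rw [e1 i ((Finset.mem_filter.1 hi).2 ▸ hne)]
    · have hj' : j ∉ R := by simpa using hj
      refine fun x hx => ⟨fun i hi => ?_, fun y e1 _ e3 => ?_⟩
      · have hb := hM ((hmem x).1 hx)
        rw [mem_closedBall_zero_iff, pi_norm_le_iff_of_nonneg hM0.le] at hb
        have := (abs_le.1 (hb i)).1
        simp only [Pi.add_apply, hc, hi, hj', if_false] at this
        linarith
      · convert hx using 1
        ext i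
        by_cases hi : g i = j
        · have t : (Finset.univ.filter fun i => g i = j) = {i} := by
            ext i'
            simp only [Finset.mem_filter, Finset.mem_univ, true_and, Finset.mem_singleton]
            exact ⟨fun e => h1 i' i (e.trans hi.symm) (e ▸ hj'), fun e => e ▸ hi⟩
          simpa [bs_apply, t] using e3
        · exact e1 i hi
  have := WGen.image _ (AffineEquiv.constVAdd ℝ (E n) c) hW
  rw [image_image] at this
  simpa using this

end Pool.Agent.MP_5f4cdd_gt.W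

end

section

set_option autoImplicit false
open MeasureTheory ENNReal Set Function Filter Topology Pointwise

namespace Pool.Agent.MP_5f4cdd_gt.W

open PL EF AB

variable {n k m : ℕ}

/-- fundamental weights of type A, in the coordinates of `bet` -/
noncomputable def om (m : ℕ) (j : Fin m) : E m :=
  fun i => (if (i : ℕ) < (j : ℕ) then 1 else 0) - ((j : ℕ) + 1 : ℝ) / (m + 1)

/-- the Gram map of `bet` -/
noncomputable def Gam (m : ℕ) : E m →ₗ[ℝ] E m where
  toFun z := fun i => z i + ∑ l, z l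
  map_add' x y := by ext i; simp [Finset.sum_add_distrib]; ring
  map_smul' a x := by ext i; simp [Finset.mul_sum, mul_add]

/-- squared lengths of the weights of type A -/
noncomputable def cA (m : ℕ) (j : Fin m) : ℝ := ((j : ℕ) + 1) * (m - (j : ℕ)) / (m + 1)

/-- fundamental weights of type B -/
def omB (m : ℕ) (j : Fin m) : E m := fun i => if i ≤ j then 1 else 0

/-- linear combination of `m` vectors -/
def comb (ω : Fin m → E m) (r : E m) : E m := ∑ j, r j • ω j

/-- the open orthant -/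
def orth (m : ℕ) : Set (E m) := {r | ∀ i, 0 < r i}

/-- invariance under the symmetries of the centred simplex -/
def TInv (F : Set (E m)) : Prop := ∀ σ : Equiv.Perm (Fin (m + 1)), ∀ v ∈ F, Tp σ v ∈ F

/-- invariance under signed permutations -/
def SInv (F : Set (E m)) : Prop :=
  (∀ v ∈ F, ∀ i, update v i (-v i) ∈ F) ∧ ∀ σ : Equiv.Perm (Fin m), ∀ v ∈ F, v ∘ σ ∈ F

/-- the fibre over `u` -/
def fibr (e : Fin k ⊕ Fin m ≃ Fin n) (K : Set (E n)) (u : E k) : Set (E m) :=
  {v | wpf_j e (u, v) ∈ K}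

/-- the section with zero fibre coordinates -/
def base (e : Fin k ⊕ Fin m ≃ Fin n) (K : Set (E n)) : Set (E k) := {u | wpf_j e (u, 0) ∈ K}

/-- the radial function of the fibres in the direction `w` -/
noncomputable def rad (e : Fin k ⊕ Fin m ≃ Fin n) (K : Set (E n)) (w : E m) (u : E k) : ℝ :=
  sSup {s : ℝ | wpf_j e (u, s • w) ∈ K}

/-- the wedge with fibres homothetic to `S` attached to the direction `w` -/
def Wg (e : Fin k ⊕ Fin m ≃ Fin n) (K : Set (E n)) (w : E m) (S : Set (E m)) : Set (E n) :=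
  fibS e (base e K) (rad e K w) S

/-- translation by a vector of the base -/
def shift (e : Fin k ⊕ Fin m ≃ Fin n) (a : E k) (K : Set (E n)) : Set (E n) :=
  (fun z => z - fun i => Sum.elim a 0 (e.symm i)) '' K

/-- the sharp inequality with its equality case -/
def Sharp (K : Set (E n)) : Prop :=
  Body K ∧ mahlerInf (cS n 1) ≤ mstarInf K ∧
    (mstarInf K ≤ mahlerInf (cS n 1) → ∃ f : E n ≃ᵃ[ℝ] E n, K = f '' stdS n)

/-- a class of bodies with uniform stability -/
def Far (n : ℕ) (C : Set (E n) → Prop) : Prop :=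
  ∀ ε : ℝ, 0 < ε → ∃ c : ℝ, 0 < c ∧ ∀ K, C K →
    Body K ∧ AB.Good ε (ENNReal.ofReal (1 + c) * mahlerInf (cS n 1)) K

/-- type A invariance in the block `j` -/
def AInv (g : Fin n → Fin 3) (j : Fin 3) (K : Set (E n)) : Prop :=
  ∀ x ∈ K, ∀ i, g i = j → update x i (-bs g x j) ∈ K

/-- type B invariance in the block `j` -/
def BInv (g : Fin n → Fin 3) (j : Fin 3) (K : Set (E n)) : Prop :=
  (∀ x ∈ K, ∀ i, g i = j → update x i (-x i) ∈ K) ∧
    ∀ x ∈ K, ∀ i i', g i = j → g i' = j → x ∘ Equiv.swap i i' ∈ K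

/-- admissible block data -/
structure BlkR (g : Fin n → Fin 3) (A B : Set (Fin 3)) : Prop where
  surj : Surjective g
  zA : 0 ∉ A
  zB : 0 ∉ B
  one : ∀ i i', g i = g i' → g i ∉ A → g i ∉ B → i = i'

/-- bodies with the symmetries prescribed by the block data -/
def Refl (g : Fin n → Fin 3) (A B : Set (Fin 3)) (K : Set (E n)) : Prop :=
  Body K ∧ (∀ j ∈ A, AInv g j K) ∧ ∀ j ∈ B, BInv g j K

/-- normal position -/
def Nrm (g : Fin n → Fin 3) (K : Set (E n)) : Prop :=
  K ⊆ Metric.closedBall 0 1 ∧ (0 : E n) ∈ K ∧ (∀ i, g i = 0 → (Pi.single i 1 : E n) ∈ K) ∧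
    ∀ j, ∃ x ∈ K, ∃ i, g i = j ∧ 1 ≤ |x i|

lemma measurableSet_orth : MeasurableSet (orth m) := by
  have : orth m = ⋂ i, {r : E m | 0 < r i} := by ext; simp [orth]
  rw [this]
  exact MeasurableSet.iInter fun i => measurableSet_lt measurable_const (measurable_pi_apply i)

lemma wpf_j_inl (e : Fin k ⊕ Fin m ≃ Fin n) (p : E k × E m) (i : Fin k) :
    wpf_j e p (e (Sum.inl i)) = p.1 i := by simp [wpf_j]

lemma wpf_j_inr (e : Fin k ⊕ Fin m ≃ Fin n) (p : E k × E m) (i : Fin m) :
    wpf_j e p (e (Sum.inr i)) = p.2 i := by simp [wpf_j]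

lemma wpf_j_combo (e : Fin k ⊕ Fin m ≃ Fin n) (a b : ℝ) (p q : E k × E m) :
    wpf_j e (a • p + b • q) = a • wpf_j e p + b • wpf_j e q := by
  ext i
  obtain ⟨c, rfl⟩ := e.surjective i
  cases c <;> simp [wpf_j]

lemma continuous_wpf_j (e : Fin k ⊕ Fin m ≃ Fin n) : Continuous (wpf_j e) := by
  refine continuous_pi fun i => ?_
  obtain ⟨c, rfl⟩ := e.surjective i
  cases c with
  | inl a => simp only [wpf_j_inl]; fun_prop
  | inr a => simp only [wpf_j_inr]; fun_prop

lemma convex_fibr (e : Fin k ⊕ Fin m ≃ Fin n) {K : Set (E n)} (hK : Convex ℝ K) (u : E k) :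
    Convex ℝ (fibr e K u) := by
  intro x hx y hy a b ha hb hab
  have := hK hx hy ha hb hab
  rw [← wpf_j_combo] at this
  change wpf_j e _ ∈ K
  convert this using 2
  ext i
  · simp [← add_mul, hab]
  · simp

/-- the radial segment of a fibre -/
lemma rad_spec (e : Fin k ⊕ Fin m ≃ Fin n) {K : Set (E n)} (hK : Convex ℝ K) (cK : IsCompact K)
    {w : E m} (hw : w ≠ 0) {u : E k} (hu : u ∈ base e K) :
    0 ≤ rad e K w u ∧ (∀ s : ℝ, wpf_j e (u, s • w) ∈ K → s ≤ rad e K w u) ∧
      ∀ s : ℝ, 0 ≤ s → s ≤ rad e K w u → wpf_j e (u, s • w) ∈ K := by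
  set A : Set ℝ := {s : ℝ | wpf_j e (u, s • w) ∈ K} with hA
  have h0 : (0 : ℝ) ∈ A := by simpa [hA, base] using hu
  obtain ⟨i, hi⟩ := Function.ne_iff.1 hw
  have hi' : 0 < |w i| := abs_pos.2 hi
  have hc : IsCompact A := by
    obtain ⟨R, hR0, hR⟩ := cK.isBounded.subset_closedBall_lt 0 0
    refine Metric.isCompact_of_isClosed_isBounded (cK.isClosed.preimage
      ((continuous_wpf_j e).comp (f := fun s : ℝ => (u, s • w)) (by fun_prop)))
      ((Metric.isBounded_closedBall (x := (0 : ℝ)) (r := R / |w i|)).subset fun s hs => ?_)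
    have hb := hR hs
    rw [mem_closedBall_zero_iff, pi_norm_le_iff_of_nonneg hR0.le] at hb
    have := hb (e (Sum.inr i))
    rw [wpf_j_inr] at this
    rw [mem_closedBall_zero_iff, le_div_iff₀ hi', Real.norm_eq_abs, ← abs_mul]
    simpa using this
  have hconv : Convex ℝ A := fun r hr s hs a b ha hb hab => by
    have := convex_fibr e hK u hr hs ha hb hab
    rwa [smul_smul, smul_smul, ← add_smul] at this
  have t1 := hc.sSup_mem ⟨0, h0⟩
  exact ⟨le_csSup hc.bddAbove h0, fun s hs => le_csSup hc.bddAbove hs,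
    fun s hs h => hconv.ordConnected.out h0 t1 ⟨hs, h⟩⟩

end Pool.Agent.MP_5f4cdd_gt.W

end

section

set_option autoImplicit false
open MeasureTheory ENNReal Set Function Filter Topology Pointwise

namespace Pool.Agent.MP_5f4cdd_gt.W

open PL EF AB

variable {n k m : ℕ}

lemma rball_holder (m : ℕ) {α β A B p q : ℝ} (hα : 0 < α) (hβ : 0 < β) (hA : 0 < A) (hB : 0 < B)
    (hp : 0 < p) (hq : 0 < q) :
    ((α / A + β / B)⁻¹) ^ (m + 1) ≤
      (α * (A ^ (m + 1) * p ^ (m + 2)) + β * (B ^ (m + 1) * q ^ (m + 2))) *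
        ((α * p + β * q)⁻¹) ^ (m + 2) := by
  set S := α / A + β / B with hS
  have hS0 : 0 < S := by positivity
  have hw : α / A / S + β / B / S = 1 := by rw [← add_div, div_self hS0.ne']
  have h := (convexOn_pow (𝕜 := ℝ) (m + 2)).2 (mem_Ici.2 (mul_pos hp hA).le)
    (mem_Ici.2 (mul_pos hq hB).le) (div_pos (div_pos hα hA) hS0).le
    (div_pos (div_pos hβ hB) hS0).le hw
  simp only [smul_eq_mul] at h
  have e1 : α / A / S * (p * A) + β / B / S * (q * B) = (α * p + β * q) / S := by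
    field_simp
  have e2 : α / A / S * (p * A) ^ (m + 2) + β / B / S * (q * B) ^ (m + 2) =
      (α * (A ^ (m + 1) * p ^ (m + 2)) + β * (B ^ (m + 1) * q ^ (m + 2))) / S := by
    rw [mul_pow, mul_pow, pow_succ A (m + 1), pow_succ B (m + 1)]
    field_simp
  rw [e1, e2, div_pow, div_le_div_iff₀ (by positivity) hS0, pow_succ S (m + 1), ← mul_assoc] at h
  have h' := le_of_mul_le_mul_right h hS0
  rw [inv_pow, inv_pow, ← div_eq_mul_inv, le_div_iff₀ (by positivity),
    inv_mul_le_iff₀ (by positivity), mul_comm (S ^ (m + 1))]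
  exact h'

lemma rball_geo (k : ℕ) {a b P Q w : ℝ} (hab : a + b = 1) (hP : 0 < P) (hQ : 0 < Q) (hw : 0 < w) :
    ((P / w) ^ a * (Q / w) ^ b) ^ k = (w ^ k)⁻¹ * ((P ^ k) ^ a * (Q ^ k) ^ b) := by
  have e2 : w ^ a * w ^ b = w := by rw [← Real.rpow_add hw, hab, Real.rpow_one]
  rw [Real.div_rpow hP.le hw.le, Real.div_rpow hQ.le hw.le, div_mul_div_comm, e2,
    ← Real.rpow_natCast P, ← Real.rpow_natCast Q, ← Real.rpow_mul hP.le, ← Real.rpow_mul hQ.le,
    mul_comm _ a, mul_comm _ b, Real.rpow_mul hP.le, Real.rpow_mul hQ.le, Real.rpow_natCast,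
    Real.rpow_natCast, div_pow, mul_pow, div_eq_inv_mul]

lemma rball_sub (m : ℕ) (f : ℝ → ℝ≥0∞) :
    ∫⁻ x in Ioi (0 : ℝ), ENNReal.ofReal (x ^ m) * f x = ∫⁻ u, (Ioi (0 : ℝ)).indicator
      (fun u => ENNReal.ofReal ((u ^ (m + 2))⁻¹) * f u⁻¹) u := by
  rw [lintegral_inv_Ioi]
  refine lintegral_congr fun u => ?_
  by_cases hu : u ∈ Ioi (0 : ℝ)
  · have hu0 : 0 < u := hu
    rw [indicator_of_mem hu, indicator_of_mem hu, ← mul_assoc,
      ← ENNReal.ofReal_mul (by positivity), inv_pow, ← mul_inv, ← pow_add, add_comm 2 m]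
  · rw [indicator_of_notMem hu, indicator_of_notMem hu]

lemma rball_core (m : ℕ) {α β : ℝ} (hα : 0 < α) (hβ : 0 < β) (hαβ : α + β = 1)
    {f g h : ℝ → ℝ≥0∞} (hf : Measurable f) (hg : Measurable g) (hh : Measurable h)
    (H : ∀ r s a b : ℝ, 0 < r → 0 < s → 0 < a → 0 < b → a + b = 1 → a * β * r = b * α * s →
      f r ^ a * g s ^ b ≤ h (a * r + b * s)) {A B : ℝ} (hA0 : 0 < A) (hB0 : 0 < B)
    (hA : ENNReal.ofReal (A ^ (m + 1)) < ∫⁻ x in Ioi (0 : ℝ), ENNReal.ofReal (x ^ m) * f x)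
    (hB : ENNReal.ofReal (B ^ (m + 1)) < ∫⁻ x in Ioi (0 : ℝ), ENNReal.ofReal (x ^ m) * g x) :
    ENNReal.ofReal (((α / A + β / B)⁻¹) ^ (m + 1)) ≤
      ∫⁻ x in Ioi (0 : ℝ), ENNReal.ofReal (x ^ m) * h x := by
  obtain ⟨R, hR0, hR⟩ : ∃ R : ℝ → ℝ, (∀ M, 0 < M → 0 < R M) ∧ ∀ M, 0 < M → R M ^ (m + 2) = M :=
    ⟨fun M => M ^ (((m + 2 : ℕ) : ℝ)⁻¹), fun M hM => Real.rpow_pos_of_pos hM _,
      fun M hM => Real.rpow_inv_natCast_pow hM.le (by omega)⟩
  have hm : ∀ {f : ℝ → ℝ≥0∞}, Measurable f → Measurable ((Ioi (0 : ℝ)).indicator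
      (fun u => ENNReal.ofReal ((u ^ (m + 2))⁻¹) * f u⁻¹)) := fun hf =>
    Measurable.indicator (((measurable_id.pow_const (m + 2)).inv.ennreal_ofReal).mul
      (hf.comp measurable_inv)) measurableSet_Ioi
  have hlow : ∀ {f : ℝ → ℝ≥0∞} {c : ℝ≥0∞} {M u : ℝ}, c ≠ 0 → 0 < M →
      c * ENNReal.ofReal M ≤ (Ioi (0 : ℝ)).indicator
        (fun u => ENNReal.ofReal ((u ^ (m + 2))⁻¹) * f u⁻¹) u →
      0 < u ∧ c * ENNReal.ofReal ((R M * u) ^ (m + 2)) ≤ f u⁻¹ := by
    intro f c M u hm0 hM h1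
    have hu : 0 < u := by
      by_contra hu
      rw [indicator_of_notMem (by simpa using hu)] at h1
      simp only [nonpos_iff_eq_zero, mul_eq_zero, ENNReal.ofReal_eq_zero] at h1
      rcases h1 with h1 | h1
      · exact hm0 h1
      · linarith
    refine ⟨hu, ?_⟩
    rw [indicator_of_mem (mem_Ioi.2 hu)] at h1
    have h2 := mul_le_mul_left h1 (ENNReal.ofReal (u ^ (m + 2)))
    rw [mul_right_comm (ENNReal.ofReal _), ← ENNReal.ofReal_mul (by positivity),
      inv_mul_cancel₀ (by positivity), ENNReal.ofReal_one, one_mul, mul_assoc,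
      ← ENNReal.ofReal_mul hM.le] at h2
    rwa [mul_pow, hR M hM]
  rw [rball_sub] at hA hB ⊢
  refine bbl1 hα hβ (hm hf) (hm hg) (hm hh) (fun M N => ((α / R M + β / R N)⁻¹) ^ (m + 2))
    (fun M N hM hN => by have := hR0 M hM; have := hR0 N hN; positivity)
    (fun M N hM hN c u v h1 h2 => ?_) (pow_pos hA0 _) (pow_pos hB0 _) hA hB
    (fun M N hM hN => ?_)
  · rcases eq_or_ne c 0 with rfl | hm0
    · simp
    obtain ⟨hu, h1⟩ := hlow hm0 hM h1
    obtain ⟨hv, h2⟩ := hlow hm0 hN h2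
    set w := α * u + β * v with hw
    have hw0 : 0 < w := by positivity
    set a := α * u / w with ha
    set b := β * v / w with hb
    have ha0 : 0 < a := by positivity
    have hb0 : 0 < b := by positivity
    have hab : a + b = 1 := by rw [ha, hb, ← add_div, div_self hw0.ne']
    have key := H u⁻¹ v⁻¹ a b (inv_pos.2 hu) (inv_pos.2 hv) ha0 hb0 hab (by
      rw [ha, hb]; field_simp)
    have e : a * u⁻¹ + b * v⁻¹ = w⁻¹ := by
      rw [ha, hb]; field_simp; linarith
    rw [e] at key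
    rw [indicator_of_mem (mem_Ioi.2 hw0)]
    have key2 := (mul_le_mul' (ENNReal.rpow_le_rpow h1 ha0.le)
      (ENNReal.rpow_le_rpow h2 hb0.le)).trans key
    have sM := hR0 M hM
    have sN := hR0 N hN
    rw [ENNReal.mul_rpow_of_nonneg _ _ ha0.le, ENNReal.mul_rpow_of_nonneg _ _ hb0.le,
      mul_mul_mul_comm, ← ENNReal.rpow_add_of_nonneg _ _ ha0.le hb0.le, hab, ENNReal.rpow_one,
      ENNReal.ofReal_rpow_of_pos (by positivity), ENNReal.ofReal_rpow_of_pos (by positivity),
      ← ENNReal.ofReal_mul (by positivity)] at key2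
    refine le_trans ?_ (mul_le_mul_right key2 _)
    rw [mul_left_comm, ← ENNReal.ofReal_mul (by positivity)]
    refine mul_le_mul_right (ENNReal.ofReal_le_ofReal ?_) _
    have g1 := hm_le_gm ha0 hb0 hab (P := R M * u / w) (Q := R N * v / w) (by positivity)
      (by positivity)
    have e1 : a / (R M * u / w) + b / (R N * v / w) = α / R M + β / R N := by
      rw [ha, hb]; field_simp
    rw [e1] at g1
    exact (pow_le_pow_left₀ (by positivity) g1 (m + 2)).trans
      (rball_geo (m + 2) hab (by positivity) (by positivity) hw0).le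
  · have sM := hR0 M hM
    have sN := hR0 N hN
    have eM : A ^ (m + 1) / M = A ^ (m + 1) * (R M)⁻¹ ^ (m + 2) := by
      rw [inv_pow, hR M hM, div_eq_mul_inv]
    have eN : B ^ (m + 1) / N = B ^ (m + 1) * (R N)⁻¹ ^ (m + 2) := by
      rw [inv_pow, hR N hN, div_eq_mul_inv]
    rw [eM, eN, div_eq_mul_inv α (R M), div_eq_mul_inv β (R N)]
    exact rball_holder m hα hβ hA0 hB0 (inv_pos.2 sM) (inv_pos.2 sN)

lemma rball_pow (m : ℕ) {A : ℝ} (hA : 0 < A) :
    ENNReal.ofReal (A ^ (m + 1)) ^ (1 / (m + 1 : ℝ)) = ENNReal.ofReal A := by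
  rw [ENNReal.ofReal_rpow_of_pos (pow_pos hA _), one_div]
  congr 1
  have := Real.pow_rpow_inv_natCast hA.le (n := m + 1) (by omega)
  rwa [Nat.cast_add, Nat.cast_one] at this

/-- Ball's lemma with a power weight -/
theorem ball_gen (m : ℕ) {α β : ℝ} (hα : 0 < α) (hβ : 0 < β) (hαβ : α + β = 1)
    {f g h : ℝ → ℝ≥0∞} (hf : Measurable f) (hg : Measurable g) (hh : Measurable h)
    (H : ∀ r s a b : ℝ, 0 < r → 0 < s → 0 < a → 0 < b → a + b = 1 → a * β * r = b * α * s →
      f r ^ a * g s ^ b ≤ h (a * r + b * s)) :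
    (∫⁻ x in Ioi (0 : ℝ), ENNReal.ofReal (x ^ m) * h x) ^ (-(1 / (m + 1 : ℝ))) ≤
      ENNReal.ofReal α *
        (∫⁻ x in Ioi (0 : ℝ), ENNReal.ofReal (x ^ m) * f x) ^ (-(1 / (m + 1 : ℝ))) +
      ENNReal.ofReal β *
        (∫⁻ x in Ioi (0 : ℝ), ENNReal.ofReal (x ^ m) * g x) ^ (-(1 / (m + 1 : ℝ))) := by
  have ht : (0 : ℝ) < 1 / (m + 1 : ℝ) := by positivity
  rw [ENNReal.rpow_neg, ENNReal.rpow_neg, ENNReal.rpow_neg]
  refine inv_le_of_lt hα hβ fun A B hA0 hB0 hA hB => ?_
  rw [← rball_pow m hA0, ENNReal.rpow_lt_rpow_iff ht] at hA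
  rw [← rball_pow m hB0, ENNReal.rpow_lt_rpow_iff ht] at hB
  rw [← rball_pow m (A := (α / A + β / B)⁻¹) (by positivity)]
  exact ENNReal.rpow_le_rpow (rball_core m hα hβ hαβ hf hg hh H hA0 hB0 hA hB) ht.le

end Pool.Agent.MP_5f4cdd_gt.W

end

section

set_option autoImplicit false
open MeasureTheory ENNReal Set Function Filter Topology Pointwise

namespace Pool.Agent.MP_5f4cdd_gt.W

open PL EF AB

variable {n k m : ℕ}

/-- the weighted integral along a ray -/
noncomputable def rorth_I (m : ℕ) (g : E n → ℝ≥0∞) (x : E n) : ℝ≥0∞ :=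
  ∫⁻ s in Ioi (0 : ℝ), ENNReal.ofReal (s ^ m) * g (s • x)

lemma rorth_scale (g : E n → ℝ≥0∞) (x : E n) {t : ℝ} (ht : 0 < t) :
    rorth_I m g x = ENNReal.ofReal (t ^ (m + 1)) * rorth_I m g (t • x) := by
  have him : (fun s : ℝ => s * t) '' Ioi 0 = Ioi 0 := by
    ext u
    constructor
    · rintro ⟨s, hs, rfl⟩
      exact mul_pos hs ht
    · intro hu
      exact ⟨u / t, div_pos hu ht, div_mul_cancel₀ u ht.ne'⟩
  have h := lintegral_image_eq_lintegral_abs_deriv_mul (f := fun s : ℝ => s * t)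
    (f' := fun _ => t) (s := Ioi 0) measurableSet_Ioi
    (fun s _ => (by simpa using (hasDerivAt_id s).mul_const t : HasDerivAt (fun s : ℝ => s * t) t s)
      |>.hasDerivWithinAt)
    (fun a _ b _ hab => mul_right_cancel₀ ht.ne' hab)
    (fun u => ENNReal.ofReal (u ^ m) * g (u • x))
  rw [him] at h
  rw [rorth_I, h, rorth_I, ← lintegral_const_mul' _ _ ENNReal.ofReal_ne_top]
  refine setLIntegral_congr_fun measurableSet_Ioi fun s hs => ?_
  have hs' : 0 < s := hs
  rw [smul_smul, ← mul_assoc, ← mul_assoc, ← ENNReal.ofReal_mul (abs_nonneg _),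
    ← ENNReal.ofReal_mul (by positivity), abs_of_pos ht]
  congr 2
  ring

lemma rorth_convex {g : E n → ℝ≥0∞} (hg : Measurable g)
    (H : ∀ x y : E n, (∀ i, 0 ≤ x i) → (∀ i, 0 ≤ y i) → ∀ a b : ℝ, 0 < a → 0 < b →
      a + b = 1 → g x ^ a * g y ^ b ≤ g (a • x + b • y)) :
    Convex ℝ {x : E n | (∀ i, 0 ≤ x i) ∧ 1 ≤ rorth_I m g x} := by
  refine convex_iff_forall_pos.2 fun x hx y hy α β hα hβ hαβ => ⟨fun i => ?_, ?_⟩
  · exact add_nonneg (mul_nonneg hα.le (hx.1 i)) (mul_nonneg hβ.le (hy.1 i))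
  have hm : ∀ z : E n, Measurable fun r : ℝ => g (r • z) := fun z => hg.comp (by fun_prop)
  have h := ball_gen m hα hβ hαβ (hm x) (hm y) (hm (α • x + β • y))
    fun r s a b hr hs ha hb hab e => by
      refine (H (r • x) (s • y) (fun i => mul_nonneg hr.le (hx.1 i))
        (fun i => mul_nonneg hs.le (hy.1 i)) a b ha hb hab).trans (le_of_eq ?_)
      have e1 : (a * r + b * s) * α = a * r := by linear_combination a * r * hαβ - e
      have e2 : (a * r + b * s) * β = b * s := by linear_combination b * s * hαβ + e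
      simp only [smul_add, smul_smul, e1, e2]
  have hc : (0 : ℝ) < 1 / (m + 1 : ℝ) := by positivity
  have h1 : ∀ z : E n, 1 ≤ rorth_I m g z → rorth_I m g z ^ (-(1 / (m + 1 : ℝ))) ≤ 1 :=
    fun z hz => ENNReal.rpow_le_one_of_one_le_of_neg hz (by linarith)
  have h2 : rorth_I m g (α • x + β • y) ^ (-(1 / (m + 1 : ℝ))) ≤ 1 := by
    refine h.trans ((add_le_add (mul_le_mul_right (h1 x hx.2) _)
      (mul_le_mul_right (h1 y hy.2) _)).trans (le_of_eq ?_))
    rw [mul_one, mul_one, ← ENNReal.ofReal_add hα.le hβ.le, hαβ, ENNReal.ofReal_one]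
  by_contra hlt
  rw [not_le] at hlt
  by_cases h0 : rorth_I m g (α • x + β • y) = 0
  · rw [h0, ENNReal.zero_rpow_of_neg (by linarith)] at h2
    exact absurd h2 (by simp)
  · exact absurd h2 (not_le.2 (ENNReal.one_lt_rpow_of_pos_of_lt_one_of_neg
      (pos_iff_ne_zero.2 h0) hlt (by linarith)))

lemma rorth_gamma {c : ℝ} (hc : 0 < c) :
    ∫⁻ s in Ioi (0 : ℝ), ENNReal.ofReal (c / s ^ 2 * ((c / s) ^ m * Real.exp (-(c / s)))) =
      m.factorial := by
  have him : (fun s : ℝ => c / s) '' Ioi 0 = Ioi 0 := by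
    ext u
    constructor
    · rintro ⟨s, hs, rfl⟩
      exact div_pos hc hs
    · intro hu
      exact ⟨c / u, div_pos hc hu, div_div_cancel₀ hc.ne'⟩
  have h := lintegral_image_eq_lintegral_abs_deriv_mul (f := fun s : ℝ => c / s)
    (f' := fun s => -(c / s ^ 2)) (s := Ioi 0) measurableSet_Ioi
    (fun s hs => by
      have h1 := (hasDerivAt_inv (ne_of_gt hs)).const_mul c
      refine HasDerivAt.hasDerivWithinAt ?_
      simpa only [div_eq_mul_inv, mul_neg] using h1)
    (fun a ha b hb hab => by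
      have ha' : 0 < a := ha
      have hb' : 0 < b := hb
      simp only at hab
      field_simp at hab
      linarith)
    (fun u => ENNReal.ofReal (u ^ m * Real.exp (-u)))
  rw [him] at h
  have h2 : ∫⁻ u in Ioi (0 : ℝ), ENNReal.ofReal (u ^ m * Real.exp (-u)) = m.factorial := by
    have hp : (0 : ℝ) < m + 1 := by positivity
    have hi := Real.GammaIntegral_convergent hp
    have he := Real.Gamma_eq_integral hp
    simp only [add_sub_cancel_right, Real.rpow_natCast] at hi he
    simp only [mul_comm (_ ^ m)]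
    rw [← ofReal_integral_eq_lintegral_ofReal hi
      ((ae_restrict_iff' measurableSet_Ioi).2 (ae_of_all _ fun u (hu : 0 < u) => by positivity)),
      ← he, Real.Gamma_nat_eq_factorial, ENNReal.ofReal_natCast]
  rw [← h2, h]
  refine setLIntegral_congr_fun measurableSet_Ioi fun s hs => ?_
  have hs' : 0 < s := hs
  rw [abs_neg, abs_of_pos (by positivity), ← ENNReal.ofReal_mul (by positivity)]

lemma rorth_exp (A : Fin n → ℝ) (hA : ∀ j, 0 < A j) :
    ∫⁻ x in orth n, ENNReal.ofReal (Real.exp (-∑ j, x j / A j)) = ∏ j, ENNReal.ofReal (A j) := by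
  have ho : orth n = Set.univ.pi fun _ => Ioi (0 : ℝ) := by
    ext x
    simp [orth]
  have hn : ∀ j, -(A j)⁻¹ < 0 := fun j => neg_lt_zero.2 (inv_pos.2 (hA j))
  have he : ∀ x : E n, Real.exp (-∑ j, x j / A j) = ∏ j, Real.exp (-(A j)⁻¹ * x j) := by
    intro x
    rw [← Real.exp_sum, ← Finset.sum_neg_distrib]
    exact congrArg _ (Finset.sum_congr rfl fun j _ => by ring)
  simp only [he]
  rw [ho, volume_pi, Measure.restrict_pi_pi, ← ofReal_integral_eq_lintegral_ofReal
    (Integrable.fintype_prod_dep (f := fun j (t : ℝ) => Real.exp (-(A j)⁻¹ * t))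
      fun j => integrableOn_exp_mul_Ioi (hn j) 0)
    (ae_of_all _ fun x => Finset.prod_nonneg fun j _ => (Real.exp_pos _).le),
    integral_fintype_prod_eq_prod (fun j (t : ℝ) => Real.exp (-(A j)⁻¹ * t)),
    ← ENNReal.ofReal_prod_of_nonneg fun j _ => (hA j).le]
  refine congrArg _ (Finset.prod_congr rfl fun j _ => ?_)
  rw [integral_exp_mul_Ioi (hn j) 0]
  simp

lemma rorth_dil (F : E n → ℝ≥0∞) {s : ℝ} (hs : 0 < s) :
    ∫⁻ x in orth n, F (s • x) = ENNReal.ofReal (s ^ n)⁻¹ * ∫⁻ y in orth n, F y := by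
  have hd : LinearMap.det (s • (LinearMap.id : E n →ₗ[ℝ] E n)) = s ^ n := by
    rw [LinearMap.det_smul]
    simp
  have h := lintegral_comp_lin' (s • (LinearMap.id : E n →ₗ[ℝ] E n))
    (by rw [hd]; positivity) ((orth n).indicator F)
  rw [hd, abs_of_pos (by positivity), lintegral_indicator measurableSet_orth] at h
  rw [← h, ← lintegral_indicator measurableSet_orth]
  refine lintegral_congr fun x => ?_
  have hx : s • x ∈ orth n ↔ x ∈ orth n :=
    forall_congr' fun i => mul_pos_iff_of_pos_left hs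
  by_cases h1 : x ∈ orth n
  · rw [indicator_of_mem h1]
    exact (indicator_of_mem (hx.2 h1) F).symm
  · rw [indicator_of_notMem h1]
    exact (indicator_of_notMem (fun h2 => h1 (hx.1 h2)) F).symm

lemma rorth_swap {g : E (m + 1) → ℝ≥0∞} (hg : Measurable g) (A : Fin (m + 1) → ℝ)
    (hA : ∀ j, 0 < A j) :
    ∫⁻ x in orth (m + 1), ENNReal.ofReal ((∑ j, x j / A j) ^ (m + 1) *
      Real.exp (-∑ j, x j / A j)) * rorth_I m g x =
      (m.factorial : ℝ≥0∞) * ∫⁻ r in orth (m + 1), g r := by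
  set L : E (m + 1) → ℝ := fun x => ∑ j, x j / A j with hL
  have mL : Measurable L := by fun_prop
  have Ls : ∀ (s : ℝ) (x : E (m + 1)), L (s • x) = s * L x := fun s x => by
    simp only [hL, Finset.mul_sum, Pi.smul_apply, smul_eq_mul, mul_div_assoc]
  have Lp : ∀ x ∈ orth (m + 1), 0 < L x := fun x hx =>
    Finset.sum_pos (fun j _ => div_pos (hx j) (hA j)) Finset.univ_nonempty
  set F : ℝ → E (m + 1) → ℝ≥0∞ := fun s y =>
    ENNReal.ofReal (L y / s ^ 2 * ((L y / s) ^ m * Real.exp (-(L y / s)))) * g y with hF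
  have h1 : ∀ s ∈ Ioi (0 : ℝ), ∫⁻ x in orth (m + 1),
      ENNReal.ofReal (L x ^ (m + 1) * Real.exp (-L x)) * (ENNReal.ofReal (s ^ m) * g (s • x)) =
      ∫⁻ y in orth (m + 1), F s y := by
    intro s hs
    have hs' : 0 < s := hs
    have h2 := rorth_dil (fun y => ENNReal.ofReal (s ^ (m + 1)) * F s y) hs'
    rw [lintegral_const_mul' (ENNReal.ofReal (s ^ (m + 1))) (F s) ENNReal.ofReal_ne_top,
      ← mul_assoc, ← ENNReal.ofReal_mul (by positivity), inv_mul_cancel₀ (by positivity),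
      ENNReal.ofReal_one, one_mul] at h2
    rw [← h2]
    refine setLIntegral_congr_fun measurableSet_orth fun x hx => ?_
    have := Lp x hx
    simp only [hF, Ls]
    rw [← mul_assoc, ← mul_assoc, ← ENNReal.ofReal_mul (by positivity),
      ← ENNReal.ofReal_mul (by positivity), mul_div_cancel_left₀ _ hs'.ne']
    congr 2
    field_simp
    ring
  calc ∫⁻ x in orth (m + 1), ENNReal.ofReal (L x ^ (m + 1) * Real.exp (-L x)) * rorth_I m g x
      = ∫⁻ x in orth (m + 1), ∫⁻ s in Ioi (0 : ℝ),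
          ENNReal.ofReal (L x ^ (m + 1) * Real.exp (-L x)) *
            (ENNReal.ofReal (s ^ m) * g (s • x)) :=
        lintegral_congr fun x => (lintegral_const_mul' _ _ ENNReal.ofReal_ne_top).symm
    _ = ∫⁻ s in Ioi (0 : ℝ), ∫⁻ y in orth (m + 1), F s y := by
        rw [lintegral_lintegral_swap]
        · exact setLIntegral_congr_fun measurableSet_Ioi h1
        · refine Measurable.aemeasurable ?_
          have : Measurable fun p : E (m + 1) × ℝ => g (p.2 • p.1) := hg.comp (by fun_prop)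
          unfold uncurry
          fun_prop
    _ = ∫⁻ y in orth (m + 1), (m.factorial : ℝ≥0∞) * g y := by
        rw [lintegral_lintegral_swap]
        · refine setLIntegral_congr_fun measurableSet_orth fun y hy => ?_
          simp only [hF]
          rw [lintegral_mul_const _ (by fun_prop), rorth_gamma (Lp y hy)]
        · refine Measurable.aemeasurable ?_
          unfold uncurry
          simp only [hF]
          fun_prop
    _ = _ := lintegral_const_mul _ hg

lemma rorth_lim {ι : Type} [Fintype ι] (I : ι → ℝ≥0∞) (T : ℝ≥0∞)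
    (h : ∀ B : ι → ℝ≥0∞, (∀ j, B j ≠ 0 ∧ B j ≠ ⊤ ∧ B j ≤ I j) → ∏ j, B j ≤ T) :
    ∏ j, I j ≤ T := by
  classical
  by_cases h0 : ∃ j, I j = 0
  · obtain ⟨j, hj⟩ := h0
    rw [Finset.prod_eq_zero (Finset.mem_univ j) hj]
    exact zero_le
  push Not at h0
  by_cases ht : ∃ j, I j = ⊤
  swap
  · push Not at ht
    exact h I fun j => ⟨h0 j, ht j, le_rfl⟩
  obtain ⟨j, hj⟩ := ht
  by_contra hT
  have hT' : T ≠ ⊤ := fun e => hT (e ▸ le_top)
  have hc : ∏ i ∈ Finset.univ.erase j, min (I i) 1 ≠ 0 :=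
    Finset.prod_ne_zero_iff.2 fun i _ => (lt_min (pos_iff_ne_zero.2 (h0 i)) one_pos).ne'
  obtain ⟨N, hN⟩ := ENNReal.exists_nat_mul_gt hc hT'
  have h1 := h (fun i => min (I i) (N + 1)) fun i =>
    ⟨(lt_min (pos_iff_ne_zero.2 (h0 i)) (by positivity)).ne',
      ne_top_of_le_ne_top (by simp) (min_le_right _ _), min_le_left _ _⟩
  rw [← Finset.mul_prod_erase _ _ (Finset.mem_univ j), hj, min_eq_right le_top] at h1
  refine absurd (hN.trans_le (le_trans ?_ h1)) (lt_irrefl _)
  exact mul_le_mul' le_self_add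
    (Finset.prod_le_prod' fun i _ => min_le_min_left _ le_add_self)

/-- integrals of log-concave functions over the orthant versus weighted integrals on the axes -/
theorem ball_orth {g : E (m + 1) → ℝ≥0∞} (hg : Measurable g)
    (H : ∀ x y : E (m + 1), (∀ i, 0 ≤ x i) → (∀ i, 0 ≤ y i) → ∀ a b : ℝ, 0 < a → 0 < b →
      a + b = 1 → g x ^ a * g y ^ b ≤ g (a • x + b • y)) :
    ∏ j, ∫⁻ s in Ioi (0 : ℝ), ENNReal.ofReal (s ^ m) * g (Pi.single j s) ≤
      ((m.factorial : ℝ≥0∞) * ∫⁻ r in orth (m + 1), g r) ^ (m + 1) := by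
  refine rorth_lim _ _ fun B hB => ?_
  have hB0 : ∀ j, 0 < (B j).toReal := fun j => ENNReal.toReal_pos (hB j).1 (hB j).2.1
  set A : Fin (m + 1) → ℝ := fun j => (B j).toReal ^ (((m + 1 : ℕ) : ℝ)⁻¹) with hAd
  have hA : ∀ j, 0 < A j := fun j => Real.rpow_pos_of_pos (hB0 j) _
  have hAB : ∀ j, ENNReal.ofReal (A j ^ (m + 1)) = B j := fun j => by
    rw [hAd, Real.rpow_inv_natCast_pow (hB0 j).le (Nat.succ_ne_zero m),
      ENNReal.ofReal_toReal (hB j).2.1]
  have hK : ∀ j, (Pi.single j (A j) : E (m + 1)) ∈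
      {x : E (m + 1) | (∀ i, 0 ≤ x i) ∧ 1 ≤ rorth_I m g x} := by
    intro j
    refine ⟨fun i => ?_, ?_⟩
    · rw [Pi.single_apply]
      split_ifs
      · exact (hA j).le
      · exact le_rfl
    have e : ∀ s : ℝ, (Pi.single j s : E (m + 1)) = s • Pi.single j 1 := fun s => by
      rw [← Pi.single_smul, smul_eq_mul, mul_one]
    have h1 : B j ≤ rorth_I m g (Pi.single j 1) := by
      refine (hB j).2.2.trans (le_of_eq ?_)
      simp only [rorth_I, ← e]
    rw [rorth_scale g _ (hA j), hAB, ← e] at h1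
    exact (ENNReal.mul_le_mul_iff_right (hB j).1 (hB j).2.1).1 ((mul_one _).trans_le h1)
  have key : ∏ j, ENNReal.ofReal (A j) ≤ (m.factorial : ℝ≥0∞) * ∫⁻ r in orth (m + 1), g r := by
    rw [← rorth_exp A hA, ← rorth_swap hg A hA]
    refine setLIntegral_mono' measurableSet_orth fun x hx => ?_
    have Lp : 0 < ∑ j, x j / A j :=
      Finset.sum_pos (fun j _ => div_pos (hx j) (hA j)) Finset.univ_nonempty
    set L := ∑ j, x j / A j with hL
    have h1 := (rorth_convex (m := m) hg H).sum_mem (t := Finset.univ)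
      (w := fun j => x j / A j / L) (fun j _ => (div_pos (div_pos (hx j) (hA j)) Lp).le)
      (by rw [← Finset.sum_div, ← hL, div_self Lp.ne']) fun j _ => hK j
    have e : ∑ j, (x j / A j / L) • (Pi.single j (A j) : E (m + 1)) = L⁻¹ • x := by
      ext i
      simp only [Finset.sum_apply, Pi.smul_apply, Pi.single_apply, smul_eq_mul, mul_ite,
        mul_zero, Finset.sum_ite_eq, Finset.mem_univ, if_true]
      have := (hA i).ne'
      field_simp
    rw [e] at h1
    have h2 := h1.2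
    rw [rorth_scale g _ Lp, smul_smul, mul_inv_cancel₀ Lp.ne', one_smul] at h2
    rw [mul_comm (L ^ (m + 1)), ENNReal.ofReal_mul (Real.exp_pos _).le, mul_assoc]
    exact (mul_one _).symm.trans_le (mul_le_mul_right h2 _)
  calc ∏ j, B j = (∏ j, ENNReal.ofReal (A j)) ^ (m + 1) := by
        rw [← Finset.prod_pow]
        exact Finset.prod_congr rfl fun j _ => by
          rw [← hAB j, ENNReal.ofReal_pow (hA j).le]
    _ ≤ _ := pow_le_pow_left' key _

end Pool.Agent.MP_5f4cdd_gt.W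

end

section

set_option autoImplicit false
open MeasureTheory ENNReal Set Function Filter Topology Pointwise

namespace Pool.Agent.MP_5f4cdd_gt.W

open PL EF AB

variable {n k m : ℕ}

lemma rcorep_comb_combo (ω : Fin m → E m) (a b : ℝ) (x y : E m) :
    comb ω (a • x + b • y) = a • comb ω x + b • comb ω y := by
  simp only [comb, Finset.smul_sum, ← Finset.sum_add_distrib, Pi.add_apply, Pi.smul_apply,
    smul_eq_mul, add_smul, mul_smul]

lemma rcorep_comb_single (ω : Fin m → E m) (j : Fin m) (s : ℝ) :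
    comb ω (Pi.single j s) = s • ω j := by
  unfold comb
  rw [Finset.sum_eq_single j]
  · simp
  · intro i _ hi
    simp [hi]
  · simp

lemma rcorep_cont_comb (ω : Fin m → E m) : Continuous (comb ω) := by
  unfold comb
  fun_prop

lemma rcorep_meas_sec (e : Fin k ⊕ Fin m ≃ Fin n) {K : Set (E n)} (cK : IsClosed K) (v : E m) :
    MeasurableSet {u : E k | wpf_j e (u, v) ∈ K} :=
  (cK.preimage ((continuous_wpf_j e).comp (f := fun u : E k => (u, v))
    (by fun_prop))).measurableSet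

lemma rcorep_meas (e : Fin k ⊕ Fin m ≃ Fin n) {K : Set (E n)} (cK : IsClosed K)
    (ω : Fin m → E m) :
    Measurable fun r : E m => volume {u : E k | wpf_j e (u, comb ω r) ∈ K} := by
  have hc := rcorep_cont_comb ω
  have h : MeasurableSet {p : E m × E k | wpf_j e (p.2, comb ω p.1) ∈ K} :=
    (cK.preimage ((continuous_wpf_j e).comp
      (f := fun p : E m × E k => (p.2, comb ω p.1)) (by fun_prop))).measurableSet
  exact measurable_measure_prodMk_left h

lemma rcorep_lc (e : Fin k ⊕ Fin m ≃ Fin n) {K : Set (E n)} (hK : Convex ℝ K) (cK : IsClosed K)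
    (v w : E m) {a b : ℝ} (ha : 0 < a) (hb : 0 < b) (hab : a + b = 1) :
    volume {u : E k | wpf_j e (u, v) ∈ K} ^ a * volume {u : E k | wpf_j e (u, w) ∈ K} ^ b ≤
      volume {u : E k | wpf_j e (u, a • v + b • w) ∈ K} := by
  have m1 := rcorep_meas_sec e cK v
  have m2 := rcorep_meas_sec e cK w
  have m3 := rcorep_meas_sec e cK (a • v + b • w)
  rw [← lintegral_indicator_one m1, ← lintegral_indicator_one m2, ← lintegral_indicator_one m3]
  refine PL.pl ha hb hab k (measurable_one.indicator m1) (measurable_one.indicator m2)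
    (measurable_one.indicator m3) fun x y => ?_
  by_cases hx : x ∈ {u : E k | wpf_j e (u, v) ∈ K}
  · by_cases hy : y ∈ {u : E k | wpf_j e (u, w) ∈ K}
    · have hz : a • x + b • y ∈ {u : E k | wpf_j e (u, a • v + b • w) ∈ K} := by
        have := hK hx hy ha.le hb.le hab
        rw [← wpf_j_combo] at this
        exact this
      simp [indicator_of_mem hx, indicator_of_mem hy, indicator_of_mem hz]
    · simp [indicator_of_notMem hy, hb]
  · simp [indicator_of_notMem hx, ha]

lemma rcorep_pow (m : ℕ) {t : ℝ} (ht : 0 ≤ t) :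
    ((m + 1 : ℕ) : ℝ≥0∞) * ∫⁻ s in Ioc (0 : ℝ) t, ENNReal.ofReal (s ^ m) =
      ENNReal.ofReal (t ^ (m + 1)) := by
  have hi : IntegrableOn (fun s : ℝ => s ^ m) (Ioc 0 t) :=
    (continuous_pow m).integrableOn_Ioc
  rw [← ofReal_integral_eq_lintegral_ofReal hi, ← intervalIntegral.integral_of_le ht,
    integral_pow, ← ENNReal.ofReal_natCast, ← ENNReal.ofReal_mul (by positivity)]
  · congr 1
    push_cast
    field_simp
    simp
  · filter_upwards [ae_restrict_mem measurableSet_Ioc] with s hs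
    exact pow_nonneg hs.1.le _

lemma rcorep_axis (e : Fin k ⊕ Fin (m + 1) ≃ Fin n) {K : Set (E n)} (hK : Body K)
    {w : E (m + 1)} (hw : w ≠ 0) (h0 : ∀ u v, wpf_j e (u, v) ∈ K → wpf_j e (u, 0) ∈ K) :
    ∫⁻ u, (base e K).indicator (fun u => ENNReal.ofReal (rad e K w u ^ (m + 1))) u =
      ((m + 1 : ℕ) : ℝ≥0∞) * ∫⁻ s in Ioi (0 : ℝ),
        ENNReal.ofReal (s ^ m) * volume {u : E k | wpf_j e (u, s • w) ∈ K} := by
  have cK := hK.comp.isClosed
  have hT : MeasurableSet {p : ℝ × E k | wpf_j e (p.2, p.1 • w) ∈ K} :=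
    (cK.preimage ((continuous_wpf_j e).comp
      (f := fun p : ℝ × E k => (p.2, p.1 • w)) (by fun_prop))).measurableSet
  have hF : Measurable fun p : ℝ × E k =>
      {p : ℝ × E k | wpf_j e (p.2, p.1 • w) ∈ K}.indicator
        (fun p => ENNReal.ofReal (p.1 ^ m)) p :=
    Measurable.indicator (by fun_prop) hT
  have h1 : ∀ s : ℝ, ENNReal.ofReal (s ^ m) * volume {u : E k | wpf_j e (u, s • w) ∈ K} =
      ∫⁻ u : E k, {p : ℝ × E k | wpf_j e (p.2, p.1 • w) ∈ K}.indicator
        (fun p => ENNReal.ofReal (p.1 ^ m)) (s, u) := by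
    intro s
    rw [← lintegral_indicator_const (rcorep_meas_sec e cK (s • w))]
    refine lintegral_congr fun u => ?_
    by_cases h : wpf_j e (u, s • w) ∈ K <;> simp [indicator, h]
  simp_rw [h1]
  rw [lintegral_lintegral_swap hF.aemeasurable,
    ← lintegral_const_mul' _ _ (ENNReal.natCast_ne_top _)]
  refine lintegral_congr fun u => ?_
  by_cases hu : u ∈ base e K
  · obtain ⟨r0, r1, r2⟩ := rad_spec e hK.conv hK.comp hw hu
    rw [indicator_of_mem hu, ← rcorep_pow m r0, ← lintegral_indicator measurableSet_Ioc,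
      ← lintegral_indicator measurableSet_Ioi]
    congr 1
    refine lintegral_congr fun s => ?_
    by_cases hs : 0 < s
    · by_cases hs' : s ≤ rad e K w u
      · have := r2 s hs.le hs'
        simp [indicator, hs, hs', this]
      · have : wpf_j e (u, s • w) ∉ K := fun h => hs' (r1 s h)
        simp [indicator, hs, hs', this]
    · simp [indicator, hs]
  · have : ∀ s : ℝ, wpf_j e (u, s • w) ∉ K := fun s h => hu (h0 _ _ h)
    simp [indicator, hu, this]

theorem core_P (e : Fin k ⊕ Fin (m + 1) ≃ Fin n) {K : Set (E n)} (hK : Body K)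
    (ω : Fin (m + 1) → E (m + 1)) (hω : ∀ j, ω j ≠ 0)
    (h0 : ∀ u v, wpf_j e (u, v) ∈ K → wpf_j e (u, 0) ∈ K) {S : Set (E (m + 1))}
    (cS : IsCompact S) (hW : ∀ j, IsCompact (Wg e K (ω j) S)) :
    ∏ j, volume (Wg e K (ω j) S) ≤ (((m + 1).factorial : ℝ≥0∞) *
      (∫⁻ r in orth (m + 1), volume {u | wpf_j e (u, comb ω r) ∈ K}) * volume S) ^ (m + 1) := by
  have cK := hK.comp.isClosed
  have hb := ball_orth (g := fun r => volume {u : E k | wpf_j e (u, comb ω r) ∈ K})
    (rcorep_meas e cK ω) fun x y _ _ a b ha hb hab => by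
      simp only [rcorep_comb_combo]
      exact rcorep_lc e hK.conv cK _ _ ha hb hab
  simp only [rcorep_comb_single] at hb
  have hv : ∀ j, volume (Wg e K (ω j) S) = ((m + 1 : ℕ) : ℝ≥0∞) * volume S *
      ∫⁻ s in Ioi (0 : ℝ),
        ENNReal.ofReal (s ^ m) * volume {u : E k | wpf_j e (u, s • ω j) ∈ K} := by
    intro j
    have := wpf_vol e (B := base e K) (τ := rad e K (ω j))
      (fun u hu => (rad_spec e hK.conv hK.comp (hω j) hu).1) cS (hW j)
    rw [rcorep_axis e hK (hω j) h0] at this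
    rw [Wg, this]
    ring
  simp only [hv]
  rw [Finset.prod_mul_distrib, Finset.prod_const, Finset.card_univ, Fintype.card_fin]
  refine (mul_le_mul_right hb _).trans (le_of_eq ?_)
  rw [← mul_pow, Nat.factorial_succ]
  congr 1
  push_cast
  ring

end Pool.Agent.MP_5f4cdd_gt.W

end

section

set_option autoImplicit false
open MeasureTheory ENNReal Set Function Filter Topology Pointwise

namespace Pool.Agent.MP_5f4cdd_gt.W

open PL EF AB

variable {n k m : ℕ}

lemma rrad_pow (m : ℕ) (r : ℝ) :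
    ((m + 1 : ℕ) : ℝ≥0∞) * ((volume.restrict (Ioi (0 : ℝ))).withDensity
      fun t => ENNReal.ofReal (t ^ m)) (Iic r) = ENNReal.ofReal (max r 0 ^ (m + 1)) := by
  rw [withDensity_apply _ measurableSet_Iic, Measure.restrict_restrict measurableSet_Iic,
    Iic_inter_Ioi]
  rcases lt_or_ge 0 r with hr | hr
  · have hi : IntegrableOn (fun t : ℝ => t ^ m) (Ioc 0 r) :=
      (continuous_pow m).integrableOn_Ioc
    rw [← ofReal_integral_eq_lintegral_ofReal hi
      ((ae_restrict_iff' measurableSet_Ioc).2 (ae_of_all _ fun t ht => pow_nonneg ht.1.le m)),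
      ← intervalIntegral.integral_of_le hr.le, integral_pow, max_eq_left hr.le,
      ← ENNReal.ofReal_natCast, ← ENNReal.ofReal_mul (Nat.cast_nonneg _)]
    congr 1
    push_cast
    field_simp
    simp
  · rw [Ioc_eq_empty (not_lt.2 hr), max_eq_right hr]
    simp

theorem radial_law {S : Set (E (m + 1))} (c : IsCompact S) (z : 0 ∈ interior S)
    {G : ℝ → ℝ≥0∞} (hG : Measurable G) :
    ∫⁻ ζ, G (suppF S ζ) = ((m + 1 : ℕ) : ℝ≥0∞) * volume (polarS S) *
      ∫⁻ t in Ioi (0 : ℝ), ENNReal.ofReal (t ^ m) * G t := by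
  have f₁ : volume (polarS S) ≠ ⊤ := (isBounded_polarS z).measure_lt_top.ne
  have hm := (continuous_suppF c.isBounded).measurable
  have h1 : ∀ r : ℝ, ((volume : Measure (E (m + 1))).map (suppF S)) (Iic r) =
      ENNReal.ofReal (max r 0 ^ (m + 1)) * volume (polarS S) := fun r => by
    rw [Measure.map_apply hm measurableSet_Iic]
    exact wlaw_level c z r
  have hfin : ∀ r : ℝ, ((volume : Measure (E (m + 1))).map (suppF S)) (Iic r) ≠ ⊤ := fun r => by
    rw [h1]
    exact ENNReal.mul_ne_top ENNReal.ofReal_ne_top f₁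
  have eq : ∀ r : ℝ, ((volume : Measure (E (m + 1))).map (suppF S)) (Iic r) =
      ((((m + 1 : ℕ) : ℝ≥0∞) * volume (polarS S)) • (volume.restrict (Ioi (0 : ℝ))).withDensity
        fun t => ENNReal.ofReal (t ^ m)) (Iic r) := fun r => by
    rw [h1, Measure.smul_apply, smul_eq_mul, ← rrad_pow, mul_right_comm]
  have key : (volume : Measure (E (m + 1))).map (suppF S) =
      (((m + 1 : ℕ) : ℝ≥0∞) * volume (polarS S)) • (volume.restrict (Ioi (0 : ℝ))).withDensity
        fun t => ENNReal.ofReal (t ^ m) := by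
    refine Measure.ext_of_Ioc' _ _ (fun a b _ => ?_) (fun a b hab => ?_)
    · exact ne_top_of_le_ne_top (hfin b) (measure_mono Ioc_subset_Iic_self)
    · rw [← Iic_sdiff_Iic, measure_sdiff (Iic_subset_Iic.2 hab.le)
        measurableSet_Iic.nullMeasurableSet (hfin a), measure_sdiff (Iic_subset_Iic.2 hab.le)
        measurableSet_Iic.nullMeasurableSet (eq a ▸ hfin a), eq a, eq b]
  rw [← lintegral_map hG hm, key, lintegral_smul_measure, smul_eq_mul,
    lintegral_withDensity_eq_lintegral_mul _ (by fun_prop) hG]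
  rfl

end Pool.Agent.MP_5f4cdd_gt.W

end

section

set_option autoImplicit false
open MeasureTheory ENNReal Set Function Filter Topology Pointwise

namespace Pool.Agent.MP_5f4cdd_gt.W

open PL EF AB

variable {n k m : ℕ}

lemma rcoreq_logc {L : Set (E n)} (hL : Bornology.IsBounded L) (hn : L.Nonempty) (p q : E n)
    {a b : ℝ} (ha : 0 < a) (hb : 0 < b) (hab : a + b = 1) :
    expS L p ^ a * expS L q ^ b ≤ expS L (a • p + b • q) := by
  have h := (convexOn_suppF hL hn).2 (mem_univ p) (mem_univ q) ha.le hb.le hab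
  simp only [smul_eq_mul] at h
  simp only [expS]
  rw [ENNReal.ofReal_rpow_of_pos (Real.exp_pos _), ENNReal.ofReal_rpow_of_pos (Real.exp_pos _),
    ← ENNReal.ofReal_mul (by positivity), ← Real.exp_mul, ← Real.exp_mul, ← Real.exp_add]
  exact ENNReal.ofReal_le_ofReal (Real.exp_le_exp.2 (by linarith))

lemma rcoreq_comb_lin (ω : Fin m → E m) (x y : E m) (a b : ℝ) :
    comb ω (a • x + b • y) = a • comb ω x + b • comb ω y := by
  simp only [comb, Pi.add_apply, Pi.smul_apply, smul_eq_mul, add_smul, mul_smul,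
    Finset.sum_add_distrib, Finset.smul_sum]

lemma rcoreq_comb_single (ω : Fin m → E m) (j : Fin m) (s : ℝ) :
    comb ω (Pi.single j s) = s • ω j := by
  unfold comb
  rw [Finset.sum_eq_single j]
  · simp
  · intro i _ hi
    simp [hi]
  · simp

lemma rcoreq_cont (ω : Fin m → E m) : Continuous (comb ω) := by
  unfold comb
  fun_prop

lemma rcoreq_subst {c : ℝ} (hc : 0 < c) (Ψ : ℝ → ℝ≥0∞) :
    ∫⁻ t in Ioi (0 : ℝ), ENNReal.ofReal (t ^ m) * Ψ (t / c) =
      ENNReal.ofReal c ^ (m + 1) * ∫⁻ s in Ioi (0 : ℝ), ENNReal.ofReal (s ^ m) * Ψ s := by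
  have him : (fun s : ℝ => c * s) '' Ioi 0 = Ioi 0 := by
    ext t
    constructor
    · rintro ⟨s, hs, rfl⟩
      exact mul_pos hc hs
    · intro ht
      exact ⟨t / c, div_pos ht hc, mul_div_cancel₀ _ hc.ne'⟩
  have h := lintegral_image_eq_lintegral_abs_deriv_mul (s := Ioi (0 : ℝ))
    (f := fun s : ℝ => c * s) (f' := fun _ => c) measurableSet_Ioi
    (fun x _ => by simpa using ((hasDerivAt_id x).const_mul c).hasDerivWithinAt)
    (fun x _ y _ h => mul_left_cancel₀ hc.ne' h)
    (fun t => ENNReal.ofReal (t ^ m) * Ψ (t / c))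
  rw [him] at h
  rw [h, ← lintegral_const_mul' _ _ (ENNReal.pow_ne_top ENNReal.ofReal_ne_top)]
  refine lintegral_congr fun s => ?_
  rw [abs_of_pos hc, mul_div_cancel_left₀ _ hc.ne', mul_pow,
    ENNReal.ofReal_mul (by positivity), ENNReal.ofReal_pow hc.le]
  ring

lemma rcoreq_supp (e : Fin k ⊕ Fin m ≃ Fin n) {K : Set (E n)} (hK : Body K)
    {w w' : E m} {c : ℝ} (hc : 0 < c) (hdot : w ⬝ᵥ w' = c)
    (h0 : ∀ u v, wpf_j e (u, v) ∈ K → wpf_j e (u, 0) ∈ K)
    (hproj : ∀ u v, wpf_j e (u, v) ∈ K → wpf_j e (u, ((v ⬝ᵥ w') / c) • w) ∈ K)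
    (hB : (base e K).Nonempty) (a ξ : E k) {t : ℝ} (ht : 0 ≤ t) :
    sSup ((fun u => (u - a) ⬝ᵥ ξ + rad e K w u * t) '' base e K) =
      suppF (shift e a K) (wpf_j e (ξ, (t / c) • w')) := by
  have hw : w ≠ 0 := by
    rintro rfl
    rw [zero_dotProduct] at hdot
    exact hc.ne hdot
  have hb : Bornology.IsBounded (shift e a K) := isBounded_image_sub hK.comp.isBounded _
  refine IsLUB.csSup_eq ⟨?_, fun C hC => ?_⟩ (hB.image _)
  · rintro _ ⟨u, hu, rfl⟩
    obtain ⟨r0, -, r2⟩ := rad_spec e hK.conv hK.comp hw hu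
    have h := dot_le_suppF hb ⟨_, r2 _ r0 le_rfl, rfl⟩ (wpf_j e (ξ, (t / c) • w'))
    simp only [wpf_dot, smul_dotProduct, dotProduct_smul, smul_eq_mul, hdot] at h
    refine le_trans (le_of_eq ?_) h
    field_simp
  · obtain ⟨u, hu⟩ := hB
    have hn : (shift e a K).Nonempty := Nonempty.image _ ⟨wpf_j e (u, 0), hu⟩
    refine suppF_le hn ?_
    rintro _ ⟨x, hx, rfl⟩
    obtain ⟨⟨v, z⟩, rfl⟩ := wpf_surj e x
    have hv : v ∈ base e K := h0 v z hx
    refine le_trans ?_ (hC ⟨v, hv, rfl⟩)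
    have h1 := (rad_spec e hK.conv hK.comp hw hv).2.1 _ (hproj v z hx)
    have h2 := mul_le_mul_of_nonneg_right h1 ht
    simp only [wpf_dot, dotProduct_smul, smul_eq_mul]
    have : t / c * (z ⬝ᵥ w') = z ⬝ᵥ w' / c * t := by ring
    linarith

theorem core_Q (e : Fin k ⊕ Fin (m + 1) ≃ Fin n) {K : Set (E n)} (hK : Body K)
    (ω ω' : Fin (m + 1) → E (m + 1)) (c : Fin (m + 1) → ℝ) (hc : ∀ j, 0 < c j)
    (hdot : ∀ j, ω j ⬝ᵥ ω' j = c j)
    (h0 : ∀ u v, wpf_j e (u, v) ∈ K → wpf_j e (u, 0) ∈ K)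
    (hproj : ∀ j u v, wpf_j e (u, v) ∈ K → wpf_j e (u, ((v ⬝ᵥ ω' j) / c j) • ω j) ∈ K)
    {S : Set (E (m + 1))} (cS : IsCompact S) (zS : 0 ∈ interior S)
    (hW : ∀ j, IsCompact (Wg e K (ω j) S)) (a : E k) :
    ∏ j, ∫⁻ y, expS (shift e a (Wg e K (ω j) S)) y ≤ (((m + 1).factorial : ℝ≥0∞) *
      (∫⁻ r in orth (m + 1), ∫⁻ ξ, expS (shift e a K) (wpf_j e (ξ, comb ω' r))) *
        volume (polarS S) * ENNReal.ofReal (∏ j, c j)) ^ (m + 1) := by
  obtain ⟨x0, hx0⟩ := hK.int
  have hx0' : x0 ∈ K := interior_subset hx0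
  have hb : Bornology.IsBounded (shift e a K) := isBounded_image_sub hK.comp.isBounded _
  have hn : (shift e a K).Nonempty := ⟨_, x0, hx0', rfl⟩
  have hB : (base e K).Nonempty := by
    obtain ⟨⟨u, v⟩, rfl⟩ := wpf_surj e x0
    exact ⟨u, h0 u v hx0'⟩
  have mF : Measurable fun p : E k × E (m + 1) => expS (shift e a K) (wpf_j e p) :=
    (measurable_expS hb).comp (continuous_wpf_j e).measurable
  set G : E (m + 1) → ℝ≥0∞ := fun r => ∫⁻ ξ, expS (shift e a K) (wpf_j e (ξ, comb ω' r)) with hG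
  have mG : Measurable G := by
    refine Measurable.lintegral_prod_right'
      (f := fun p : E (m + 1) × E k => expS (shift e a K) (wpf_j e (p.2, comb ω' p.1))) ?_
    exact mF.comp (measurable_snd.prodMk ((rcoreq_cont ω').measurable.comp measurable_fst))
  have mS : ∀ v : E (m + 1), Measurable fun ξ : E k => expS (shift e a K) (wpf_j e (ξ, v)) :=
    fun v => mF.comp (measurable_id.prodMk measurable_const)
  have key := ball_orth mG (fun x y _ _ α β hα hβ hαβ => by
    refine pl hα hβ hαβ k (mS _) (mS _) (mS _) fun ξ η => ?_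
    refine (rcoreq_logc hb hn _ _ hα hβ hαβ).trans (le_of_eq ?_)
    rw [← wpf_j_combo, rcoreq_comb_lin]
    rfl)
  have y0 : (0 : E (m + 1)) ∈ S := interior_subset zS
  have hQ : ∀ j, ∫⁻ y, expS (shift e a (Wg e K (ω j) S)) y =
      ((m + 1 : ℕ) : ℝ≥0∞) * volume (polarS S) * (ENNReal.ofReal (c j) ^ (m + 1) *
        ∫⁻ s in Ioi (0 : ℝ), ENNReal.ofReal (s ^ m) * G (Pi.single j s)) := by
    intro j
    have hw : ω j ≠ 0 := by
      intro h
      have := hdot j
      rw [h, zero_dotProduct] at this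
      exact (hc j).ne this
    have h1 := wpf_int e (B := base e K) (τ := rad e K (ω j)) (S := S)
      (fun u hu => (rad_spec e hK.conv hK.comp hw hu).1) hB cS ⟨0, y0⟩ (hW j) a
    have hs : ∀ ζ, 0 ≤ suppF S ζ := fun ζ => by simpa using dot_le_suppF cS.isBounded y0 ζ
    have mP : Measurable fun t : ℝ => G (Pi.single j (t / c j)) := by
      refine mG.comp (Continuous.measurable ?_)
      exact (continuous_single j).comp (continuous_id.div_const _)
    have h2 : ∫⁻ ξ, ∫⁻ ζ, ENNReal.ofReal (Real.exp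
        (-sSup ((fun u => (u - a) ⬝ᵥ ξ + rad e K (ω j) u * suppF S ζ) '' base e K))) =
        ∫⁻ ζ, G (Pi.single j (suppF S ζ / c j)) := by
      simp only [rcoreq_supp e hK (hc j) (hdot j) h0 (hproj j) hB a _ (hs _), hG,
        rcoreq_comb_single]
      refine lintegral_lintegral_swap (Measurable.aemeasurable ?_)
      exact mF.comp (measurable_fst.prodMk
        ((((continuous_suppF cS.isBounded).div_const _).smul continuous_const).measurable.comp
          measurable_snd))
    refine h1.trans (h2.trans ?_)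
    rw [radial_law cS zS mP, rcoreq_subst (hc j) fun s => G (Pi.single j s)]
  simp only [hQ]
  rw [Finset.prod_mul_distrib, Finset.prod_mul_distrib, Finset.prod_mul_distrib, Finset.prod_const,
    Finset.prod_const, Finset.prod_pow, ← ENNReal.ofReal_prod_of_nonneg fun j _ => (hc j).le,
    Finset.card_univ, Fintype.card_fin]
  refine le_trans (mul_le_mul_right (mul_le_mul_right key _) _) (le_of_eq ?_)
  rw [Nat.factorial_succ, Nat.cast_mul]
  simp only [mul_pow]
  ring

end Pool.Agent.MP_5f4cdd_gt.W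

end

section

set_option autoImplicit false
open MeasureTheory ENNReal Set Function Filter Topology Pointwise

namespace Pool.Agent.MP_5f4cdd_gt.W

open PL EF AB

variable {n k m : ℕ}

lemma rbasic_count (m j : ℕ) (h : j ≤ m) :
    ∑ i : Fin m, (if (i : ℕ) < j then (1 : ℝ) else 0) = j := by
  rw [Fin.sum_univ_eq_sum_range (fun i => if i < j then (1 : ℝ) else 0) m, Finset.sum_ite]
  have : (Finset.range m).filter (fun i => i < j) = Finset.range j := by
    ext i; simp only [Finset.mem_filter, Finset.mem_range]; omega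
  simp [this]

theorem bet_om (j : Fin m) (s : Fin (m + 1)) :
    bet m (om m j) s = (if (s : ℕ) ≤ (j : ℕ) then 1 else 0) - ((j : ℕ) + 1 : ℝ) / (m + 1) := by
  refine Fin.cases ?_ (fun i => ?_) s
  · have h := rbasic_count m j j.2.le
    have hm : (0 : ℝ) < m + 1 := by positivity
    simp only [bet_zero, om, Finset.sum_sub_distrib, h, Finset.sum_const, Finset.card_univ,
      Fintype.card_fin, nsmul_eq_mul, Fin.val_zero, zero_le, if_true]
    field_simp
    ring
  · simp only [bet_succ, om, Fin.val_succ, Nat.succ_le_iff]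

theorem dot_Gam (v z : E m) : v ⬝ᵥ Gam m z = bet m v ⬝ᵥ bet m z := by
  simp only [dotProduct, Fin.sum_univ_succ, bet_zero, bet_succ, Gam, LinearMap.coe_mk,
    AddHom.coe_mk, mul_add, Finset.sum_add_distrib, ← Finset.sum_mul]
  ring

theorem det_Gam : LinearMap.det (Gam m) = m + 1 := by
  have h : Gam m = Matrix.toLin' (1 + Matrix.replicateCol Unit (fun _ : Fin m => (1 : ℝ)) *
      Matrix.replicateRow Unit (fun _ : Fin m => (1 : ℝ))) := by
    refine LinearMap.ext fun z => ?_
    ext i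
    simp [Gam, Matrix.mulVec, dotProduct, Matrix.mul_apply]
  rw [h, LinearMap.det_toLin', Matrix.det_one_add_replicateCol_mul_replicateRow]
  simp [dotProduct, add_comm]

theorem dot_Gam_om (v : E m) (j : Fin m) :
    v ⬝ᵥ Gam m (om m j) = ∑ s : Fin (m + 1) with s ≤ j.castSucc, bet m v s := by
  rw [dot_Gam, Finset.sum_filter]
  simp only [dotProduct, bet_om, mul_sub, Finset.sum_sub_distrib, ← Finset.sum_mul, sum_bet,
    zero_mul, sub_zero]
  refine Finset.sum_congr rfl fun s _ => ?_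
  have : s ≤ j.castSucc ↔ (s : ℕ) ≤ (j : ℕ) := by rw [Fin.le_def]; simp
  simp only [this]
  split_ifs <;> simp

theorem om_dot (i j : Fin m) : om m i ⬝ᵥ Gam m (om m j) =
    ((min (i : ℕ) j : ℕ) + 1 : ℝ) * (m - (max (i : ℕ) j : ℕ)) / (m + 1) := by
  rw [dot_Gam_om, Finset.sum_filter]
  have hm : (0 : ℝ) < m + 1 := by positivity
  have e : ∀ s : Fin (m + 1), (if s ≤ j.castSucc then bet m (om m i) s else 0) =
      (if (s : ℕ) < min (i : ℕ) j + 1 then (1 : ℝ) else 0) -
        (if (s : ℕ) < (j : ℕ) + 1 then (1 : ℝ) else 0) * (((i : ℕ) + 1 : ℝ) / (m + 1)) := by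
    intro s
    have h1 : s ≤ j.castSucc ↔ (s : ℕ) ≤ (j : ℕ) := by rw [Fin.le_def]; simp
    simp only [h1, bet_om]
    split_ifs <;> first | omega | simp
  have hi := i.2
  have hj := j.2
  simp only [e, Finset.sum_sub_distrib, ← Finset.sum_mul]
  rw [rbasic_count (m + 1) _ (by omega), rbasic_count (m + 1) _ (by omega)]
  rcases le_total (i : ℕ) j with h | h
  · rw [min_eq_left h, max_eq_right h]; push_cast; field_simp; ring
  · rw [min_eq_right h, max_eq_left h]; push_cast; field_simp; ring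

theorem om_dot_self (j : Fin m) : om m j ⬝ᵥ Gam m (om m j) = cA m j := by
  rw [om_dot, min_self, max_self, cA]

theorem cA_pos (j : Fin m) : 0 < cA m j := by
  have h : ((j : ℕ) : ℝ) < m := by exact_mod_cast j.2
  have h2 : (0 : ℝ) < m - (j : ℕ) := by linarith
  unfold cA
  positivity

theorem om_ne (j : Fin m) : om m j ≠ 0 := by
  intro h
  have h1 := om_dot_self j
  have h2 := cA_pos j
  rw [h] at h1
  simp at h1
  linarith

lemma rbasic_fact : ∏ j : Fin m, ((j : ℕ) + 1 : ℝ) = m.factorial := by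
  rw [Fin.prod_univ_eq_prod_range (fun j => ((j : ℕ) + 1 : ℝ)) m,
    ← Finset.prod_range_add_one_eq_factorial]
  push_cast
  rfl

theorem prod_cA : ∏ j, cA m j = (m.factorial : ℝ) ^ 2 / (m + 1) ^ m := by
  have h1 : ∏ j : Fin m, ((m : ℝ) - (j : ℕ)) = m.factorial := by
    rw [← rbasic_fact, ← Equiv.prod_comp Fin.revPerm]
    refine Finset.prod_congr rfl fun j _ => ?_
    have := j.2
    simp only [Fin.revPerm_apply, Fin.val_rev]
    rw [Nat.cast_sub (by omega)]
    push_cast
    ring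
  simp only [cA, Finset.prod_div_distrib, Finset.prod_mul_distrib, rbasic_fact, h1,
    Finset.prod_const, Finset.card_univ, Fintype.card_fin, sq]

theorem bet_comb_sub (r : E m) (j : Fin m) :
    bet m (comb (om m) r) j.castSucc - bet m (comb (om m) r) j.succ = r j := by
  simp only [comb, map_sum, map_smul, Finset.sum_apply, Pi.smul_apply, smul_eq_mul, bet_om,
    ← Finset.sum_sub_distrib, Fin.val_castSucc, Fin.val_succ]
  rw [Finset.sum_eq_single j]
  · simp; ring
  · intro b _ hb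
    have : (b : ℕ) ≠ j := fun h => hb (Fin.ext h)
    split_ifs <;> first | omega | ring
  · simp

theorem comb_om_diff (v : E m) :
    comb (om m) (fun j => bet m v j.castSucc - bet m v j.succ) = v := by
  apply bet_injective
  set a := bet m (comb (om m) (fun j => bet m v j.castSucc - bet m v j.succ)) with ha
  have hd : ∀ s : Fin (m + 1), a s - bet m v s = a 0 - bet m v 0 := by
    intro s
    induction s using Fin.induction with
    | zero => rfl
    | succ i ih =>
      have := bet_comb_sub (fun j => bet m v j.castSucc - bet m v j.succ) i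
      rw [← ha] at this
      linarith
  have hs : ∑ s, (a s - bet m v s) = 0 := by
    rw [Finset.sum_sub_distrib, ha, sum_bet, sum_bet, sub_zero]
  simp only [hd, Finset.sum_const, Finset.card_univ, Fintype.card_fin, nsmul_eq_mul] at hs
  have hm : ((m + 1 : ℕ) : ℝ) ≠ 0 := by positivity
  have h0 := (mul_eq_zero.1 hs).resolve_left hm
  ext s
  have := hd s
  linarith

theorem dot_Gam_Tp (σ : Equiv.Perm (Fin (m + 1))) (v z : E m) :
    Tp σ v ⬝ᵥ Gam m (Tp σ z) = v ⬝ᵥ Gam m z := by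
  rw [dot_Gam, dot_Gam, bet_Tp, bet_Tp]
  exact Equiv.sum_comp σ (fun s => bet m v s * bet m z s)

theorem sort_T (v : E m) : ∃ (σ : Equiv.Perm (Fin (m + 1))) (t : E m),
    (∀ j, 0 ≤ t j) ∧ Tp σ v = comb (om m) t := by
  refine ⟨Tuple.sort (fun s => -bet m v s), _, fun j => ?_, (comb_om_diff _).symm⟩
  have := Tuple.monotone_sort (fun s => -bet m v s) (Fin.castSucc_lt_succ (i := j)).le
  simp only [Function.comp] at this
  rw [bet_Tp_apply, bet_Tp_apply]
  linarith

lemma rbasic_swap (v : E m) (i : Fin m) :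
    Tp (Equiv.swap 0 i.succ) v = update v i (-∑ l, v l) := by
  ext l
  change bet m v (Equiv.swap 0 i.succ l.succ) = _
  by_cases h : l = i
  · subst h; simp
  · rw [Equiv.swap_apply_of_ne_of_ne (Fin.succ_ne_zero l)
      (fun h' => h (Fin.succ_injective _ h')), update_of_ne h, bet_succ]

theorem tinv_of_gen {F : Set (E m)} (h : ∀ v ∈ F, ∀ i, update v i (-∑ l, v l) ∈ F) : TInv F := by
  have h0 : ∀ a : Fin (m + 1), ∀ v ∈ F, Tp (Equiv.swap 0 a) v ∈ F := by
    intro a v hv
    refine Fin.cases ?_ (fun i => ?_) a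
    · rw [Equiv.swap_self]
      exact (Tp_one v).symm ▸ hv
    · rw [rbasic_swap]; exact h v hv i
  have h1 : ∀ a b : Fin (m + 1), a ≠ b → ∀ v ∈ F, Tp (Equiv.swap a b) v ∈ F := by
    intro a b hab v hv
    by_cases ha : a = 0
    · rw [ha]; exact h0 b v hv
    by_cases hb : b = 0
    · rw [hb, Equiv.swap_comm]; exact h0 a v hv
    have e : Equiv.swap a b = Equiv.swap 0 a * Equiv.swap 0 b * Equiv.swap 0 a := by
      rw [Equiv.swap_comm 0 b, Equiv.swap_mul_swap_mul_swap hb hab.symm]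
    rw [e, ← Tp_Tp, ← Tp_Tp]
    exact h0 _ _ (h0 _ _ (h0 _ _ hv))
  intro σ
  induction σ using Equiv.Perm.swap_induction_on with
  | one => intro v hv; rwa [Tp_one]
  | swap_mul f x y hxy ih =>
    intro v hv
    rw [← Tp_Tp]
    exact ih _ (h1 x y hxy v hv)

theorem sinv_of_gen {F : Set (E m)} (h1 : ∀ v ∈ F, ∀ i, update v i (-v i) ∈ F)
    (h2 : ∀ v ∈ F, ∀ i i', v ∘ Equiv.swap i i' ∈ F) : SInv F := by
  refine ⟨h1, fun σ => ?_⟩
  induction σ using Equiv.Perm.swap_induction_on with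
  | one => intro v hv; exact hv
  | swap_mul f x y _ ih =>
    intro v hv
    exact ih _ (h2 v hv x y)

theorem omB_dot_self (j : Fin m) : omB m j ⬝ᵥ omB m j = ((j : ℕ) + 1 : ℝ) := by
  have h := rbasic_count m ((j : ℕ) + 1) j.2
  push_cast at h
  rw [← h]
  refine Finset.sum_congr rfl fun i _ => ?_
  have : i ≤ j ↔ (i : ℕ) < (j : ℕ) + 1 := by rw [Fin.le_def]; omega
  simp only [omB, this]
  split_ifs <;> simp

theorem omB_ne (j : Fin m) : omB m j ≠ 0 := by
  intro h
  have := congrFun h j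
  simp [omB] at this

theorem prod_cB : ∏ j : Fin m, ((j : ℕ) + 1 : ℝ) = m.factorial := by
  exact rbasic_fact

end Pool.Agent.MP_5f4cdd_gt.W

end

section

set_option autoImplicit false
open MeasureTheory ENNReal Set Function Filter Topology Pointwise

namespace Pool.Agent.MP_5f4cdd_gt.W

open PL EF AB

variable {n k m : ℕ}

/-- combinations of the weights as a linear map -/
noncomputable def rchama_L (m : ℕ) : E m →ₗ[ℝ] E m where
  toFun r := comb (om m) r
  map_add' x y := by simp [comb, add_smul, Finset.sum_add_distrib]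
  map_smul' a x := by simp [comb, Finset.smul_sum, smul_smul]

lemma rchama_det : |LinearMap.det (rchama_L m)| * (m + 1) = 1 := by
  have h1 : (Gam m).comp (rchama_L m) =
      Matrix.toLin' (Matrix.of fun i j : Fin m => if j ≤ i then (-1 : ℝ) else 0) := by
    refine LinearMap.ext fun r => funext fun i => ?_
    have h2 : Gam m (rchama_L m r) i = bet m (comb (om m) r) i.succ - bet m (comb (om m) r) 0 := by
      rw [bet_succ, bet_zero, sub_neg_eq_add]
      rfl
    rw [LinearMap.comp_apply, h2, comb, map_sum, Finset.sum_apply, Finset.sum_apply,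
      ← Finset.sum_sub_distrib, Matrix.toLin'_apply, Matrix.mulVec, dotProduct]
    refine Finset.sum_congr rfl fun j _ => ?_
    simp only [map_smul, Pi.smul_apply, smul_eq_mul, bet_om, Fin.val_succ, Fin.val_zero,
      zero_le, if_true, Matrix.of_apply, Fin.le_def]
    split_ifs with h3 h4 h4
    · omega
    · ring
    · ring
    · omega
  have h2 := congrArg LinearMap.det h1
  have h4 : (Matrix.of fun i j : Fin m => if j ≤ i then (-1 : ℝ) else 0).BlockTriangular
      OrderDual.toDual := fun i j hij => if_neg (not_le.2 (OrderDual.toDual_lt_toDual.1 hij))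
  rw [LinearMap.det_comp, det_Gam, LinearMap.det_toLin',
    Matrix.det_of_isLowerTriangular _ h4] at h2
  have h3 := congrArg abs h2
  rw [abs_mul, abs_of_pos (by positivity : (0 : ℝ) < m + 1), Finset.abs_prod] at h3
  rw [mul_comm, h3]
  simp

lemma rchama_meas : MeasurableSet {z : E m | StrictAnti (bet m z)} := by
  have : {z : E m | StrictAnti (bet m z)} = ⋂ j : Fin m, {z | bet m z j.succ < bet m z j.castSucc} := by
    ext z
    simp only [mem_ofPred_eq, Fin.strictAnti_iff_succ_lt, mem_iInter]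
  rw [this]
  exact MeasurableSet.iInter fun j => measurableSet_lt
    ((continuous_apply _).comp continuous_bet).measurable
    ((continuous_apply _).comp continuous_bet).measurable

lemma rchama_sum {f : E m → ℝ≥0∞}
    (h : ∀ (σ : Equiv.Perm (Fin (m + 1))) z, f (Tp σ z) = f z) (hf : Measurable f) :
    ((m + 1).factorial : ℝ≥0∞) * ∫⁻ z in {z : E m | StrictAnti (bet m z)}, f z ≤ ∫⁻ z, f z := by
  have h1 : ∀ σ : Equiv.Perm (Fin (m + 1)),
      ∫⁻ z in Tp σ ⁻¹' {z : E m | StrictAnti (bet m z)}, f z =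
        ∫⁻ z in {z : E m | StrictAnti (bet m z)}, f z := fun σ => by
    rw [← (measurePreserving_Tp σ).setLIntegral_comp_preimage rchama_meas hf]
    simp only [h]
  have h2 : Pairwise (Disjoint on fun σ : Equiv.Perm (Fin (m + 1)) =>
      Tp σ ⁻¹' {z : E m | StrictAnti (bet m z)}) := fun σ τ hst => by
    refine Set.disjoint_left.2 fun z h3 h4 => hst ?_
    simp only [mem_preimage, mem_ofPred_eq, bet_Tp] at h3 h4
    have h5 := Tuple.unique_antitone h3.antitone h4.antitone
    have h6 : Injective (bet m z) := by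
      have := h3.injective.comp σ.symm.injective
      rwa [comp_assoc, σ.self_comp_symm, comp_id] at this
    exact Equiv.ext fun i => h6 (congrFun h5 i)
  have h3 := lintegral_iUnion (μ := volume) (fun σ => (measurePreserving_Tp σ).measurable
    (rchama_meas (m := m))) h2 f
  simp only [h1, tsum_fintype, Finset.sum_const, Finset.card_univ, Fintype.card_perm,
    Fintype.card_fin, nsmul_eq_mul] at h3
  rw [← h3]
  exact setLIntegral_le_lintegral _ _

theorem cham_A {f : E m → ℝ≥0∞} (hf : Measurable f)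
    (h : ∀ (σ : Equiv.Perm (Fin (m + 1))) z, f (Tp σ z) = f z) :
    (m.factorial : ℝ≥0∞) * ∫⁻ r in orth m, f (comb (om m) r) ≤ ∫⁻ z, f z := by
  have h0 := rchama_det (m := m)
  have hd : LinearMap.det (rchama_L m) ≠ 0 := fun e => by
    rw [e, abs_zero, zero_mul] at h0
    exact zero_ne_one h0
  have h1 := lintegral_comp_lin' _ hd ({z : E m | StrictAnti (bet m z)}.indicator f)
  have h2 : ∀ r, {z : E m | StrictAnti (bet m z)}.indicator f (rchama_L m r) =
      (orth m).indicator (fun r => f (comb (om m) r)) r := fun r => by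
    have : rchama_L m r ∈ {z : E m | StrictAnti (bet m z)} ↔ r ∈ orth m := by
      rw [mem_ofPred_eq, Fin.strictAnti_iff_succ_lt]
      refine forall_congr' fun j => ?_
      rw [← bet_comb_sub r j, sub_pos]
      rfl
    by_cases hr : r ∈ orth m
    · rw [indicator_of_mem hr, indicator_of_mem (this.2 hr)]
      rfl
    · rw [indicator_of_notMem hr, indicator_of_notMem fun e => hr (this.1 e)]
  simp only [h2] at h1
  rw [lintegral_indicator measurableSet_orth, lintegral_indicator rchama_meas, abs_inv,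
    inv_eq_of_mul_eq_one_right h0, ← Nat.cast_succ, ENNReal.ofReal_natCast] at h1
  rw [h1, ← mul_assoc, ← Nat.cast_mul, mul_comm m.factorial, ← Nat.factorial_succ]
  exact rchama_sum h hf

theorem cham_A' {f : E m → ℝ≥0∞} (hf : Measurable f)
    (h : ∀ (σ : Equiv.Perm (Fin (m + 1))) z, f (Gam m (Tp σ z)) = f (Gam m z)) :
    ((m + 1).factorial : ℝ≥0∞) * ∫⁻ r in orth m, f (comb (fun j => Gam m (om m j)) r) ≤
      ∫⁻ z, f z := by
  have hm : (0 : ℝ) < m + 1 := by positivity
  have h1 := cham_A (f := fun z => f (Gam m z))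
    (hf.comp (Gam m).continuous_of_finiteDimensional.measurable) h
  have h2 : ∀ r, Gam m (comb (om m) r) = comb (fun j => Gam m (om m j)) r := fun r => by
    simp only [comb, map_sum, map_smul]
  simp only [h2] at h1
  rw [lintegral_comp_lin' _ (by rw [det_Gam]; exact hm.ne'), det_Gam, abs_inv, abs_of_pos hm,
    ENNReal.ofReal_inv_of_pos hm, ← Nat.cast_succ, ENNReal.ofReal_natCast] at h1
  rw [Nat.factorial_succ, Nat.cast_mul, mul_assoc]
  refine (mul_le_mul_right h1 _).trans_eq ?_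
  rw [← mul_assoc, ENNReal.mul_inv_cancel (by simp) (by simp), one_mul]

end Pool.Agent.MP_5f4cdd_gt.W

end

section

set_option autoImplicit false
open MeasureTheory ENNReal Set Function Filter Topology Pointwise

namespace Pool.Agent.MP_5f4cdd_gt.W

open PL EF AB

variable {n k m : ℕ}

lemma rchamb_gen {ι : Type} [Fintype ι] {f : E m → ℝ≥0∞} (hf : Measurable f) {C : Set (E m)}
    (hC : MeasurableSet C) (T : ι → E m → E m) (hT : ∀ a, MeasurePreserving (T a) volume volume)
    (hfT : ∀ a z, f (T a z) = f z) (hd : Pairwise (Disjoint on fun a => T a ⁻¹' C)) :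
    (Fintype.card ι : ℝ≥0∞) * ∫⁻ z in C, f z ≤ ∫⁻ z, f z := by
  have h1 : ∀ a, ∫⁻ z in T a ⁻¹' C, f z = ∫⁻ z in C, f z := fun a => by
    rw [← (hT a).setLIntegral_comp_preimage hC hf]
    simp only [hfT]
  refine le_trans (le_of_eq ?_) (setLIntegral_le_lintegral (⋃ a, T a ⁻¹' C) f)
  rw [lintegral_iUnion (fun a => (hT a).measurable hC) hd, tsum_fintype]
  simp only [h1, Finset.sum_const, Finset.card_univ, nsmul_eq_mul]

/-- signed permutations -/
def rchamb_T (a : Finset (Fin m) × Equiv.Perm (Fin m)) (z : E m) : E m :=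
  fun i => if i ∈ a.1 then -z (a.2 i) else z (a.2 i)

lemma rchamb_mp (a : Finset (Fin m) × Equiv.Perm (Fin m)) :
    MeasurePreserving (rchamb_T a) volume volume := by
  have h1 : MeasurePreserving (fun (z : E m) i => z (a.2 i)) volume volume :=
    (volume_measurePreserving_piCongrLeft (fun _ : Fin m => ℝ) a.2).symm _
  have h2 := volume_preserving_pi (f := fun (i : Fin m) (x : ℝ) => if i ∈ a.1 then -x else x)
    fun i => by
      split_ifs
      · exact Measure.measurePreserving_neg volume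
      · exact MeasurePreserving.id volume
  exact h2.comp h1

lemma rchamb_flip {f : E m → ℝ≥0∞} (h1 : ∀ z i, f (update z i (-z i)) = f z) (S : Finset (Fin m))
    (w : E m) : f (fun i => if i ∈ S then -w i else w i) = f w := by
  induction S using Finset.induction_on with
  | empty => simp
  | insert a S ha ih =>
    rw [← ih, ← h1 (fun i => if i ∈ S then -w i else w i) a]
    congr 1
    funext i
    by_cases h : i = a
    · subst h
      simp [ha]
    · simp [h]

lemma rchamb_abs {a : Finset (Fin m) × Equiv.Perm (Fin m)} {z : E m}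
    (h : ∀ i, 0 < rchamb_T a z i) : rchamb_T a z = (fun j => |z j|) ∘ a.2 := by
  funext i
  rw [← abs_of_pos (h i), rchamb_T, comp_apply]
  split_ifs
  · exact abs_neg _
  · rfl

lemma rchamb_disj : Pairwise (Disjoint on fun a : Finset (Fin m) × Equiv.Perm (Fin m) =>
    rchamb_T a ⁻¹' {z : E m | StrictAnti z ∧ ∀ i, 0 < z i}) := by
  intro a b hab
  refine Set.disjoint_left.2 fun z ha hb => hab ?_
  obtain ⟨a1, a2⟩ := ha
  obtain ⟨b1, b2⟩ := hb
  have e : rchamb_T a z = rchamb_T b z := (a1.range_inj b1).1 (by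
    rw [rchamb_abs a2, rchamb_abs b2, a.2.surjective.range_comp, b.2.surjective.range_comp])
  have hi : Injective fun j => |z j| := by
    have := a1.injective
    rw [rchamb_abs a2] at this
    exact (Function.Injective.of_comp_right this a.2.surjective)
  have hσ : a.2 = b.2 := by
    rw [rchamb_abs a2, rchamb_abs b2] at e
    exact Equiv.ext fun i => hi (congrFun e i)
  refine Prod.ext (Finset.ext fun i => ?_) hσ
  have p1 := a2 i
  have p2 := b2 i
  simp only [rchamb_T, hσ] at p1 p2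
  by_cases k1 : i ∈ a.1 <;> by_cases k2 : i ∈ b.1
  · exact iff_of_true k1 k2
  · rw [if_pos k1] at p1
    rw [if_neg k2] at p2
    linarith
  · rw [if_neg k1] at p1
    rw [if_pos k2] at p2
    linarith
  · exact iff_of_false k1 k2

lemma rchamb_meas : MeasurableSet {z : E m | StrictAnti z ∧ ∀ i, 0 < z i} := by
  have : {z : E m | StrictAnti z ∧ ∀ i, 0 < z i} =
      (⋂ i, ⋂ j, ⋂ (_ : i < j), {z : E m | z j < z i}) ∩ orth m := by
    ext z
    simp [orth, StrictAnti]
  rw [this]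
  exact (MeasurableSet.iInter fun i => MeasurableSet.iInter fun j => MeasurableSet.iInter fun _ =>
    measurableSet_lt (measurable_pi_apply j) (measurable_pi_apply i)).inter measurableSet_orth

lemma rchamb_comb (r : E m) (i : Fin m) : comb (omB m) r i = ∑ j, if i ≤ j then r j else 0 := by
  simp [comb, omB, Finset.sum_apply]

lemma rchamb_L : MeasurePreserving (comb (omB m)) volume volume := by
  have h := measurePreserving_lin
    (Matrix.toLin' (Matrix.of fun i j : Fin m => if i ≤ j then (1 : ℝ) else 0)) (by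
      rw [LinearMap.det_toLin', Matrix.det_of_isUpperTriangular]
      · simp
      · intro i j hij
        exact if_neg (not_le.2 hij))
  convert h using 1
  funext r i
  simp [rchamb_comb, Matrix.mulVec, dotProduct]

lemma rchamb_mem {r : E m} (hr : r ∈ orth m) :
    StrictAnti (comb (omB m) r) ∧ ∀ i, 0 < comb (omB m) r i := by
  refine ⟨fun i i' h => ?_, fun i => ?_⟩
  · rw [rchamb_comb, rchamb_comb]
    refine Finset.sum_lt_sum (fun j _ => ?_) ⟨i, Finset.mem_univ _, ?_⟩
    · by_cases h1 : i' ≤ j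
      · rw [if_pos h1, if_pos (h.le.trans h1)]
      · rw [if_neg h1]
        split_ifs
        · exact (hr j).le
        · exact le_rfl
    · rw [if_neg (not_le.2 h), if_pos le_rfl]
      exact hr i
  · rw [rchamb_comb]
    refine Finset.sum_pos' (fun j _ => ?_) ⟨i, Finset.mem_univ _, ?_⟩
    · split_ifs
      · exact (hr j).le
      · exact le_rfl
    · rw [if_pos le_rfl]
      exact hr i

theorem cham_B {f : E m → ℝ≥0∞} (hf : Measurable f)
    (h1 : ∀ z i, f (update z i (-z i)) = f z)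
    (h2 : ∀ (σ : Equiv.Perm (Fin m)) z, f (z ∘ σ) = f z) :
    (2 ^ m * m.factorial : ℝ≥0∞) * ∫⁻ r in orth m, f (comb (omB m) r) ≤ ∫⁻ z, f z := by
  have h := rchamb_gen hf rchamb_meas rchamb_T rchamb_mp
    (fun a z => (rchamb_flip h1 a.1 (z ∘ a.2)).trans (h2 a.2 z)) rchamb_disj
  rw [Fintype.card_prod, Fintype.card_finset, Fintype.card_perm, Fintype.card_fin] at h
  push_cast at h
  refine le_trans (mul_le_mul' le_rfl ?_) h
  rw [← rchamb_L.setLIntegral_comp_preimage rchamb_meas hf]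
  exact lintegral_mono_set fun r hr => rchamb_mem hr

end Pool.Agent.MP_5f4cdd_gt.W

end

section

set_option autoImplicit false
open MeasureTheory ENNReal Set Function Filter Topology Pointwise

namespace Pool.Agent.MP_5f4cdd_gt.W

open PL EF AB

variable {n k m : ℕ}

lemma rfix_avg {ι : Type} [Fintype ι] [DecidableEq ι] (p : ι → Prop) [DecidablePred p]
    (x : ι → ℝ) : ∃ H : Finset (Equiv.Perm ι), H.Nonempty ∧ (∀ σ ∈ H, ∀ s, p (σ s) ↔ p s) ∧
      (∀ s t, (p s ↔ p t) → ∑ σ ∈ H, x (σ s) = ∑ σ ∈ H, x (σ t)) ∧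
      ∑ s with p s, ∑ σ ∈ H, x (σ s) = H.card * ∑ s with p s, x s := by
  classical
  refine ⟨Finset.univ.filter fun σ => ∀ s, p (σ s) ↔ p s, ⟨1, by simp⟩,
    fun σ hσ => (Finset.mem_filter.1 hσ).2, fun s t hst => ?_, ?_⟩
  · have hsw : ∀ u, p (Equiv.swap s t u) ↔ p u := by
      intro u
      by_cases h1 : u = s
      · subst h1; rw [Equiv.swap_apply_left]; exact hst.symm
      · by_cases h2 : u = t
        · subst h2; rw [Equiv.swap_apply_right]; exact hst
        · rw [Equiv.swap_apply_of_ne_of_ne h1 h2]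
    refine Finset.sum_equiv (Equiv.mulRight (Equiv.swap s t)) (fun σ => ?_) (fun σ _ => ?_)
    · simp only [Finset.mem_filter, Finset.mem_univ, true_and, Equiv.coe_mulRight,
        Equiv.Perm.coe_mul, Function.comp]
      constructor
      · intro h u
        rw [h, hsw]
      · intro h u
        have := h (Equiv.swap s t u)
        rwa [Equiv.swap_apply_self, hsw] at this
    · simp
  · rw [Finset.sum_comm, ← nsmul_eq_mul, ← Finset.sum_const]
    refine Finset.sum_congr rfl fun σ hσ => ?_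
    have h := (Finset.mem_filter.1 hσ).2
    refine Finset.sum_equiv σ (fun u => ?_) (fun u _ => rfl)
    simp only [Finset.mem_filter, Finset.mem_univ, true_and]
    exact (h u).symm

lemma rfix_mem {α : Type} {F : Set (E m)} (hF : Convex ℝ F) {H : Finset α} (hH : H.Nonempty)
    (f : α → E m) (hf : ∀ a ∈ H, f a ∈ F) : ((H.card : ℝ))⁻¹ • ∑ a ∈ H, f a ∈ F := by
  have hc : (0 : ℝ) < H.card := by exact_mod_cast hH.card_pos
  rw [Finset.smul_sum]
  refine hF.sum_mem (fun _ _ => (inv_pos.2 hc).le) ?_ hf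
  rw [Finset.sum_const, nsmul_eq_mul, mul_inv_cancel₀ hc.ne']

/-- a point of `F` whose coordinates are constant on both sides of `p` -/
lemma rfix_T {F : Set (E m)} (hF : Convex ℝ F) (h : TInv F) {v : E m} (hv : v ∈ F)
    (p : Fin (m + 1) → Prop) [DecidablePred p] : ∃ w ∈ F,
      (∀ s t, (p s ↔ p t) → bet m w s = bet m w t) ∧
      ∑ s with p s, bet m w s = ∑ s with p s, bet m v s := by
  obtain ⟨H, hne, -, h2, h3⟩ := rfix_avg p (bet m v)
  have hc : (0 : ℝ) < H.card := by exact_mod_cast hne.card_pos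
  have hb : ∀ s, bet m (((H.card : ℝ))⁻¹ • ∑ σ ∈ H, Tp σ v) s =
      ((H.card : ℝ))⁻¹ * ∑ σ ∈ H, bet m v (σ s) := by
    intro s
    rw [map_smul, map_sum, Pi.smul_apply, Finset.sum_apply, smul_eq_mul]
    simp only [bet_Tp_apply]
  refine ⟨_, rfix_mem hF hne (fun σ => Tp σ v) fun σ _ => h σ v hv, fun s t hst => ?_, ?_⟩
  · rw [hb, hb, h2 s t hst]
  · simp only [hb]
    rw [← Finset.mul_sum, h3, ← mul_assoc, inv_mul_cancel₀ hc.ne', one_mul]

lemma rfix_flip {F : Set (E m)} (h : SInv F) {v : E m} (hv : v ∈ F) (T : Finset (Fin m)) :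
    (fun i => if i ∈ T then -v i else v i) ∈ F := by
  induction T using Finset.induction_on with
  | empty => simpa using hv
  | insert j T hj ih =>
    have h1 := h.1 _ ih j
    convert h1 using 1
    ext i
    by_cases hi : i = j
    · subst hi; simp [hj]
    · simp [hi]

lemma rfix_cut {F : Set (E m)} (hF : Convex ℝ F) (h : SInv F) {v : E m} (hv : v ∈ F)
    (T : Finset (Fin m)) : (fun i => if i ∈ T then 0 else v i) ∈ F := by
  have := hF hv (rfix_flip h hv T) (a := 1 / 2) (b := 1 / 2) (by norm_num) (by norm_num)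
    (by norm_num)
  convert this using 1
  ext i
  by_cases hi : i ∈ T
  · simp [hi]
  · simp only [hi, if_false, Pi.add_apply, Pi.smul_apply, smul_eq_mul]; ring

lemma rfix_card (j : Fin m) :
    (Finset.univ.filter fun i : Fin m => i ≤ j).card = (j : ℕ) + 1 := by
  have : (Finset.univ.filter fun i : Fin m => i ≤ j) = Finset.Iic j := by ext; simp
  rw [this, Fin.card_Iic]

theorem zero_mem_T {F : Set (E m)} (hF : Convex ℝ F) (h : TInv F) {v : E m} (hv : v ∈ F) :
    (0 : E m) ∈ F := by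
  obtain ⟨w, hw, h1, -⟩ := rfix_T hF h hv (fun _ => True)
  have h2 : ∑ s, bet m w s = ∑ _s : Fin (m + 1), bet m w 0 :=
    Finset.sum_congr rfl fun s _ => h1 s 0 Iff.rfl
  rw [sum_bet, Finset.sum_const, Finset.card_univ, Fintype.card_fin, nsmul_eq_mul] at h2
  have h3 : bet m w 0 = 0 := by
    rcases mul_eq_zero.1 h2.symm with h4 | h4
    · exact absurd h4 (by positivity)
    · exact h4
  have h4 : w = 0 := by
    ext i
    have := h1 i.succ 0 Iff.rfl
    rw [h3, bet_succ] at this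
    exact this
  exact h4 ▸ hw

theorem proj_mem_T {F : Set (E m)} (hF : Convex ℝ F) (h : TInv F) {v : E m} (hv : v ∈ F)
    (j : Fin m) : ((v ⬝ᵥ Gam m (om m j)) / cA m j) • om m j ∈ F := by
  obtain ⟨w, hw, h1, h2⟩ := rfix_T hF h hv (fun s => s ≤ j.castSucc)
  rw [← dot_Gam_om v] at h2
  generalize v ⬝ᵥ Gam m (om m j) = S at h2 ⊢
  have hjm : ((j : ℕ) : ℝ) + 1 ≤ m := by exact_mod_cast j.isLt
  have hj0 : (0 : ℝ) ≤ (j : ℕ) := Nat.cast_nonneg _
  have hlt : ¬ (j.succ ≤ j.castSucc) := not_le.2 Fin.castSucc_lt_succ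
  have ha : ∀ s, s ≤ j.castSucc → bet m w s = bet m w j.castSucc :=
    fun s hs => h1 s _ (iff_of_true hs le_rfl)
  have hb : ∀ s, ¬ s ≤ j.castSucc → bet m w s = bet m w j.succ :=
    fun s hs => h1 s _ (iff_of_false hs hlt)
  have hc1 := rfix_card (m := m + 1) j.castSucc
  have hc2 : (Finset.univ.filter fun s : Fin (m + 1) => ¬ s ≤ j.castSucc).card =
      m - (j : ℕ) := by
    have := Finset.card_filter_add_card_filter_not (s := Finset.univ)
      (fun s : Fin (m + 1) => s ≤ j.castSucc)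
    rw [hc1, Finset.card_univ, Fintype.card_fin, Fin.val_castSucc] at this
    omega
  have e1 : ∑ s with s ≤ j.castSucc, bet m w s = ((j : ℕ) + 1 : ℝ) * bet m w j.castSucc := by
    rw [Finset.sum_congr rfl fun s hs => ha s (Finset.mem_filter.1 hs).2, Finset.sum_const,
      hc1, nsmul_eq_mul, Fin.val_castSucc]
    push_cast; ring
  have e2 : ∑ s with ¬ s ≤ j.castSucc, bet m w s = (m - (j : ℕ) : ℝ) * bet m w j.succ := by
    rw [Finset.sum_congr rfl fun s hs => hb s (Finset.mem_filter.1 hs).2, Finset.sum_const,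
      hc2, nsmul_eq_mul, Nat.cast_sub j.isLt.le]
  have e3 := Finset.sum_filter_add_sum_filter_not Finset.univ
    (fun s : Fin (m + 1) => s ≤ j.castSucc) (bet m w)
  rw [sum_bet, e2, h2] at e3
  rw [e1] at h2
  have p1 : ((j : ℕ) + 1 : ℝ) ≠ 0 := by positivity
  have p2 : (m - (j : ℕ) : ℝ) ≠ 0 := by
    have : (0 : ℝ) < m - (j : ℕ) := by linarith
    exact this.ne'
  have p3 : (m + 1 : ℝ) ≠ 0 := by positivity
  have key : (S / cA m j) • om m j = w := by
    apply bet_injective
    ext s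
    rw [map_smul, Pi.smul_apply, smul_eq_mul, bet_om]
    by_cases hs : s ≤ j.castSucc
    · have hs' : (s : ℕ) ≤ (j : ℕ) := hs
      rw [if_pos hs', ha s hs, ← h2, cA]
      field_simp
      ring
    · have hs' : ¬ (s : ℕ) ≤ (j : ℕ) := hs
      have e4 : S = -((m - (j : ℕ) : ℝ) * bet m w j.succ) := by linarith
      rw [if_neg hs', hb s hs, e4, cA]
      field_simp
      ring
  rw [key]
  exact hw

theorem zero_mem_S {F : Set (E m)} (hF : Convex ℝ F) (h : SInv F) {v : E m} (hv : v ∈ F) :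
    (0 : E m) ∈ F := by
  have := rfix_cut hF h hv Finset.univ
  simpa [← Pi.zero_def] using this

theorem proj_mem_S {F : Set (E m)} (hF : Convex ℝ F) (h : SInv F) {v : E m} (hv : v ∈ F)
    (j : Fin m) : ((v ⬝ᵥ omB m j) / ((j : ℕ) + 1 : ℝ)) • omB m j ∈ F := by
  have hx := rfix_cut hF h hv (Finset.univ.filter fun i => ¬ i ≤ j)
  obtain ⟨x, hxd⟩ : ∃ x : E m, x = fun i =>
    if i ∈ (Finset.univ.filter fun i : Fin m => ¬ i ≤ j) then 0 else v i := ⟨_, rfl⟩
  rw [← hxd] at hx
  have hx0 : ∀ i, ¬ i ≤ j → x i = 0 := fun i hi => by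
    rw [hxd]; simp [not_le.1 hi]
  have hx1 : ∀ i, i ≤ j → x i = v i := fun i hi => by
    rw [hxd]; simp [not_lt.2 hi]
  obtain ⟨H, hne, h1, h2, h3⟩ := rfix_avg (fun i : Fin m => i ≤ j) x
  have hc : (0 : ℝ) < H.card := by exact_mod_cast hne.card_pos
  have hw := rfix_mem hF hne (fun σ => x ∘ σ) fun σ _ => h.2 σ x hx
  have hS : v ⬝ᵥ omB m j = ∑ s with s ≤ j, x s := by
    rw [Finset.sum_filter, dotProduct]
    refine Finset.sum_congr rfl fun i _ => ?_
    by_cases hi : i ≤ j
    · simp [omB, hi, hx1 i hi]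
    · simp [omB, hi]
  have e1 : ∑ s with s ≤ j, ∑ σ ∈ H, x (σ s) = ((j : ℕ) + 1 : ℝ) * ∑ σ ∈ H, x (σ j) := by
    rw [Finset.sum_congr rfl fun s hs => h2 s j (iff_of_true (Finset.mem_filter.1 hs).2 le_rfl),
      Finset.sum_const, rfix_card, nsmul_eq_mul]
    push_cast; ring
  rw [e1, ← hS] at h3
  have p1 : ((j : ℕ) + 1 : ℝ) ≠ 0 := by positivity
  convert hw using 1
  ext i
  rw [Pi.smul_apply, Pi.smul_apply, Finset.sum_apply, smul_eq_mul, smul_eq_mul]
  simp only [Function.comp]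
  by_cases hi : i ≤ j
  · rw [h2 i j (iff_of_true hi le_rfl)]
    simp only [omB, hi, if_true]
    field_simp
    linarith
  · rw [Finset.sum_eq_zero fun σ hσ => hx0 _ fun hh => hi ((h1 σ hσ i).1 hh)]
    simp [omB, hi]

end Pool.Agent.MP_5f4cdd_gt.W

end

section

set_option autoImplicit false
open MeasureTheory ENNReal Set Function Filter Topology Pointwise

namespace Pool.Agent.MP_5f4cdd_gt.W

open PL EF AB

variable {n k m : ℕ}

/-- the lift of a linear map of the fibre coordinates -/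
noncomputable def rmid_lift (e : Fin k ⊕ Fin m ≃ Fin n) (T : E m →ₗ[ℝ] E m) : E n →ₗ[ℝ] E n where
  toFun x := wpf_j e (fun i => x (e (Sum.inl i)), T fun j => x (e (Sum.inr j)))
  map_add' x y := by
    ext i
    obtain ⟨c, rfl⟩ := e.surjective i
    have : (fun j => (x + y) (e (Sum.inr j))) =
        (fun j => x (e (Sum.inr j))) + fun j => y (e (Sum.inr j)) := rfl
    cases c with
    | inl a => simp [wpf_j]
    | inr a => rw [this, map_add]; simp [wpf_j]
  map_smul' a x := by
    ext i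
    obtain ⟨c, rfl⟩ := e.surjective i
    have : (fun j => (a • x) (e (Sum.inr j))) = a • fun j => x (e (Sum.inr j)) := rfl
    cases c with
    | inl b => simp [wpf_j]
    | inr b => rw [this, map_smul]; simp [wpf_j]

lemma rmid_lift_wpf (e : Fin k ⊕ Fin m ≃ Fin n) (T : E m →ₗ[ℝ] E m) (u : E k) (v : E m) :
    rmid_lift e T (wpf_j e (u, v)) = wpf_j e (u, T v) := by
  change wpf_j e (fun i => wpf_j e (u, v) (e (Sum.inl i)),
    T fun j => wpf_j e (u, v) (e (Sum.inr j))) = _
  simp only [wpf_j_inl, wpf_j_inr]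

lemma rmid_step (e : Fin k ⊕ Fin m ≃ Fin n) {K : Set (E n)} (T T' : E m →ₗ[ℝ] E m)
    (h1 : ∀ v, T (T' v) = v) (hT : ∀ u, ∀ v ∈ fibr e K u, T v ∈ fibr e K u)
    (hT' : ∀ u, ∀ v ∈ fibr e K u, T' v ∈ fibr e K u) (u : E k) (v : E m) :
    mahlerInf ((fun z => z - wpf_j e (u, T v)) '' K) =
      mahlerInf ((fun z => z - wpf_j e (u, v)) '' K) := by
  have hs : Surjective (rmid_lift e T) := fun x => by
    obtain ⟨⟨a, b⟩, rfl⟩ := wpf_surj e x
    exact ⟨wpf_j e (a, T' b), by rw [rmid_lift_wpf, h1]⟩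
  have hd : LinearMap.det (rmid_lift e T) ≠ 0 := by
    have hi : Injective (rmid_lift e T) := LinearMap.injective_iff_surjective.2 hs
    exact (LinearEquiv.ofBijective _ ⟨hi, hs⟩).isUnit_det'.ne_zero
  have hK : rmid_lift e T '' K = K := by
    ext x
    constructor
    · rintro ⟨y, hy, rfl⟩
      obtain ⟨⟨a, b⟩, rfl⟩ := wpf_surj e y
      rw [rmid_lift_wpf]
      exact hT a b hy
    · intro hx
      obtain ⟨⟨a, b⟩, rfl⟩ := wpf_surj e x
      exact ⟨wpf_j e (a, T' b), hT' a b hx, by rw [rmid_lift_wpf, h1]⟩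
  rw [← mahlerInf_image_lin (rmid_lift e T) hd ((fun z => z - wpf_j e (u, v)) '' K), image_image]
  conv_lhs => rw [← hK, image_image]
  simp only [map_sub, rmid_lift_wpf]

/-- the sublevel set in the fibre direction -/
def rmid_D (e : Fin k ⊕ Fin m ≃ Fin n) (K : Set (E n)) (c : E n) : Set (E m) :=
  {v | mahlerInf ((fun z => z - wpf_j e (fun j => c (e (Sum.inl j)), v)) '' K) ≤
    mahlerInf ((fun z => z - c) '' K)}

lemma rmid_convex (e : Fin k ⊕ Fin m ≃ Fin n) {K : Set (E n)} (hK : Body K) (c : E n) :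
    Convex ℝ (rmid_D e K c) :=
  convex_fibr e (convex_sublevel hK.comp.isBounded (hK.int.mono interior_subset)
    (mahlerInf ((fun z => z - c) '' K))) fun j => c (e (Sum.inl j))

lemma rmid_mem (e : Fin k ⊕ Fin m ≃ Fin n) (K : Set (E n)) (c : E n) :
    (fun j => c (e (Sum.inr j))) ∈ rmid_D e K c := by
  have : wpf_j e (fun j => c (e (Sum.inl j)), fun j => c (e (Sum.inr j))) = c := by
    funext i
    obtain ⟨i, rfl⟩ := e.surjective i
    cases i <;> simp [wpf_j]
  simp only [rmid_D, mem_ofPred_eq, this, le_refl]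

/-- a sign change of one coordinate -/
def rmid_flip (i : Fin m) : E m →ₗ[ℝ] E m where
  toFun v := update v i (-v i)
  map_add' x y := by
    ext j
    by_cases h : j = i
    · subst h; simp [add_comm]
    · simp [h]
  map_smul' a x := by
    ext j
    by_cases h : j = i
    · subst h; simp
    · simp [h]

lemma rmid_flip_flip (i : Fin m) (v : E m) : rmid_flip i (rmid_flip i v) = v := by
  ext j
  by_cases h : j = i
  · subst h; simp [rmid_flip]
  · simp [rmid_flip, h]

theorem mid_T (e : Fin k ⊕ Fin m ≃ Fin n) {K : Set (E n)} (hK : Body K)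
    (h : ∀ u, TInv (fibr e K u)) (c : E n) :
    mahlerInf (shift e (fun j => c (e (Sum.inl j))) K) ≤ mahlerInf ((fun z => z - c) '' K) := by
  have hD : TInv (rmid_D e K c) := fun σ v hv => by
    have := rmid_step e (K := K) (Tp σ) (Tp σ⁻¹)
      (fun w => by rw [Tp_Tp, inv_mul_cancel, Tp_one]) (fun u => h u σ) (fun u => h u σ⁻¹)
      (fun j => c (e (Sum.inl j))) v
    exact this.le.trans hv
  exact zero_mem_T (rmid_convex e hK c) hD (rmid_mem e K c)

theorem mid_S (e : Fin k ⊕ Fin m ≃ Fin n) {K : Set (E n)} (hK : Body K)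
    (h : ∀ u, SInv (fibr e K u)) (c : E n) :
    mahlerInf (shift e (fun j => c (e (Sum.inl j))) K) ≤ mahlerInf ((fun z => z - c) '' K) := by
  have hD : SInv (rmid_D e K c) := by
    refine ⟨fun v hv i => ?_, fun σ v hv => ?_⟩
    · have := rmid_step e (K := K) (rmid_flip i) (rmid_flip i) (rmid_flip_flip i)
        (fun u w hw => (h u).1 w hw i) (fun u w hw => (h u).1 w hw i)
        (fun j => c (e (Sum.inl j))) v
      exact this.le.trans hv
    · have := rmid_step e (K := K) (LinearMap.funLeft ℝ ℝ σ) (LinearMap.funLeft ℝ ℝ σ.symm)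
        (fun w => by ext j; simp [LinearMap.funLeft_apply]) (fun u => (h u).2 σ)
        (fun u => (h u).2 σ.symm) (fun j => c (e (Sum.inl j))) v
      exact this.le.trans hv
  exact zero_mem_S (rmid_convex e hK c) hD (rmid_mem e K c)

end Pool.Agent.MP_5f4cdd_gt.W

end

section

set_option autoImplicit false
open MeasureTheory ENNReal Set Function Filter Topology Pointwise

namespace Pool.Agent.MP_5f4cdd_gt.W

open PL EF AB

variable {n k m : ℕ}

section

variable {P ι : Type} [AddCommGroup P] [Module ℝ P] [Fintype ι] [DecidableEq ι]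

omit [DecidableEq ι] in
lemma rcone_aff (φ : P →ᵃ[ℝ] ℝ) {c : ι → ℝ} (hc : ∑ l, c l = 1) (z : ι → P) :
    φ (∑ l, c l • z l) = ∑ l, c l * φ (z l) := by
  have h : ∀ x, φ x = φ.linear x + φ 0 := fun x => congrFun φ.decomp x
  rw [h, map_sum, Finset.sum_congr rfl fun l _ => congrArg (c l * ·) (h (z l))]
  simp only [map_smul, smul_eq_mul, mul_add, Finset.sum_add_distrib, ← Finset.sum_mul, hc,
    one_mul]

omit [Fintype ι] in
lemma rcone_sum (s : Finset ι) (g : ι → P →ᵃ[ℝ] ℝ) (x : P) :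
    (∑ i ∈ s, g i) x = ∑ i ∈ s, g i x := by
  induction s using Finset.induction_on with
  | empty => simp
  | insert a s ha ih => simp [Finset.sum_insert ha, ih]

/-- barycentric coordinates -/
structure rcone_Bary (β : ι → P →ᵃ[ℝ] ℝ) (p : ι → P) : Prop where
  h1 : ∀ o o', β o (p o') = if o = o' then 1 else 0
  h2 : ∀ x, ∑ o, β o x = 1
  h3 : ∀ x, ∑ o, β o x • p o = x

variable {β : ι → P →ᵃ[ℝ] ℝ} {p : ι → P}

lemma rcone_coord (h : rcone_Bary β p) {c : ι → ℝ} (hc : ∑ l, c l = 1) (o : ι) :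
    β o (∑ l, c l • p l) = c o := by
  rw [rcone_aff _ hc]
  simp [h.h1]

lemma rcone_pos (h : rcone_Bary β p) (l o : ι) : 0 ≤ β o (p l) := by
  rw [h.h1]; split_ifs <;> norm_num

lemma rcone_vert (h : rcone_Bary β p) (R : P →ₗ[ℝ] P) (hR : ∀ x, R (R x) = x)
    (hS : ∀ x, (∀ o, 0 ≤ β o x) → ∀ o, 0 ≤ β o (R x)) (i : ι) : ∃ l, R (p i) = p l := by
  have hq := hS _ (rcone_pos h i)
  have hle : ∀ l, β i (R (p l)) ≤ 1 := fun l => by
    rw [← h.h2 (R (p l))]
    exact Finset.single_le_sum (fun o _ => hS _ (rcone_pos h l) o) (Finset.mem_univ i)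
  have e1 : p i = ∑ l, β l (R (p i)) • R (p l) := by
    conv_lhs => rw [← hR (p i), ← h.h3 (R (p i))]
    simp only [map_sum, map_smul]
  have e2 : ∑ l, β l (R (p i)) * (1 - β i (R (p l))) = 0 := by
    have := rcone_aff (β i) (h.h2 (R (p i))) fun l => R (p l)
    rw [← e1, h.h1, if_pos rfl] at this
    simp only [mul_sub, mul_one, Finset.sum_sub_distrib, h.h2, ← this, sub_self]
  rw [Finset.sum_eq_zero_iff_of_nonneg fun l _ => mul_nonneg (hq l) (sub_nonneg.2 (hle l))] at e2
  obtain ⟨l, -, hl⟩ := Finset.exists_ne_zero_of_sum_ne_zero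
    (s := Finset.univ) (f := fun l => β l (R (p i))) (by rw [h.h2]; exact one_ne_zero)
  have e3 : β i (R (p l)) = 1 := by
    have := (mul_eq_zero.1 (e2 l (Finset.mem_univ l))).resolve_left hl
    linarith
  have e4 : ∀ o ∈ Finset.univ.erase i, β o (R (p l)) = 0 := by
    rw [← Finset.sum_eq_zero_iff_of_nonneg fun o _ => hS _ (rcone_pos h l) o]
    have := h.h2 (R (p l))
    rw [← Finset.add_sum_erase _ _ (Finset.mem_univ i)] at this
    linarith
  refine ⟨l, ?_⟩
  have e5 : R (p l) = p i := by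
    rw [← h.h3 (R (p l)), ← Finset.add_sum_erase _ _ (Finset.mem_univ i), e3, one_smul,
      Finset.sum_eq_zero fun o ho => by rw [e4 o ho, zero_smul], add_zero]
  rw [← e5, hR]

lemma rcone_bary (F : E n ≃ᵃ[ℝ] P) : ∃ (β : Option (Fin n) → P →ᵃ[ℝ] ℝ) (p : Option (Fin n) → P),
    rcone_Bary β p ∧ ∀ x, x ∈ F '' stdS n ↔ ∀ o, 0 ≤ β o x := by
  let g : Fin n → P →ᵃ[ℝ] ℝ := fun i =>
    (AffineMap.proj (V := fun _ : Fin n => ℝ) (P := fun _ => ℝ) i).comp F.symm.toAffineMap
  have hg : ∀ i x, g i x = F.symm x i := fun i x => rfl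
  have hs : ∀ x, (AffineMap.const ℝ P (1 : ℝ) - ∑ i, g i) x = 1 - ∑ i, F.symm x i := fun x => by
    simp [hg, AffineMap.coe_sub, rcone_sum]
  refine ⟨fun o => o.elim (AffineMap.const ℝ P (1 : ℝ) - ∑ i, g i) g,
    fun o => o.elim (F 0) fun i => F (Pi.single i 1), ⟨?_, ?_, ?_⟩, ?_⟩
  · rintro (_ | i) (_ | j) <;> simp [hs, hg, Pi.single_apply]
  · intro x
    simp [Fintype.sum_option, hs, hg]
  · intro x
    obtain ⟨z, rfl⟩ := F.surjective x
    have hF : ∀ y, F y = F.linear y + F 0 := fun y => congrFun F.toAffineMap.decomp y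
    have hz : F.linear z = ∑ i, z i • F.linear (Pi.single i 1) := by
      simp only [← map_smul, ← map_sum]
      congr 1
      ext j
      simp [Pi.single_apply]
    simp only [Fintype.sum_option, Option.elim, hs, hg, AffineEquiv.symm_apply_apply]
    rw [hF z, hz, Finset.sum_congr rfl fun i _ => congrArg (z i • ·) (hF (Pi.single i 1))]
    simp only [smul_add, Finset.sum_add_distrib, ← Finset.sum_smul, sub_smul, one_smul]
    abel
  · intro x
    obtain ⟨z, rfl⟩ := F.surjective x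
    rw [F.injective.mem_set_image]
    simp [Option.forall, hs, hg, stdS, and_comm]

end

lemma rcone_smul {c : ℝ} (hc : 0 ≤ c) (v : E m) : v ∈ c • cS m 1 ↔ v ∈ cS m c := by
  constructor
  · rintro ⟨w, hw, rfl⟩ j
    have := mul_le_mul_of_nonneg_left (hw j) hc
    simp only [map_smul, Pi.smul_apply, smul_eq_mul]
    refine le_trans (le_of_eq ?_) this
    ring
  · intro h
    rcases hc.eq_or_lt with rfl | hc
    · have h0 : v = 0 := by simpa using norm_le_of_mem_cS le_rfl h
      exact ⟨0, mem_cS_of_norm_le (by simp; positivity), by simp [h0]⟩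
    · refine ⟨c⁻¹ • v, ?_, smul_inv_smul₀ hc.ne' v⟩
      rw [← smul_mem_cS hc, smul_inv_smul₀ hc.ne', mul_one]
      exact h

/-- the vertices of the centred simplex -/
noncomputable def rcone_w (s : Fin (m + 1)) : E m :=
  fun i => (if i.succ = s then 1 else 0) - 1 / (m + 1)

lemma rcone_bet_w (s j : Fin (m + 1)) :
    bet m (rcone_w s) j = (if j = s then 1 else 0) - 1 / (m + 1) := by
  have h : ∑ j : Fin (m + 1), ((if j = s then 1 else 0) - 1 / (m + 1) : ℝ) = 0 := by
    rw [Finset.sum_sub_distrib]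
    simp
    field_simp
    ring
  exact congrFun (bet_tail (w := fun j => (if j = s then 1 else 0) - 1 / (m + 1)) h) j

lemma rcone_w_mem (s : Fin (m + 1)) {c : ℝ} (hc : 0 ≤ c) : c • rcone_w s ∈ cS m c := by
  rw [← rcone_smul hc]
  refine smul_mem_smul_set fun j => ?_
  rw [rcone_bet_w]
  split_ifs <;> simp

lemma rcone_w_le (s : Fin (m + 2)) {c d : ℝ} (h : c • rcone_w s ∈ cS (m + 1) d) : c ≤ d := by
  obtain ⟨j, hj⟩ := exists_ne s
  have := h j
  rw [map_smul, Pi.smul_apply, rcone_bet_w, if_neg hj, smul_eq_mul, zero_sub, mul_neg,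
    neg_le_neg_iff, mul_one_div, div_le_div_iff_of_pos_right (by positivity)] at this
  exact this

lemma rcone_w_sum : ∑ s : Fin (m + 1), rcone_w s = 0 := by
  ext i
  simp only [Finset.sum_apply, rcone_w, Finset.sum_sub_distrib]
  simp
  field_simp
  ring

lemma rcone_nc {y : E m} (hy : y ≠ 0) : ∃ s t, bet m y s ≠ bet m y t := by
  by_contra h
  push Not at h
  have h0 := sum_bet y
  rw [Finset.sum_congr rfl fun j _ => h j 0] at h0
  simp only [Finset.sum_const, Finset.card_univ, Fintype.card_fin, nsmul_eq_mul, mul_eq_zero,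
    Nat.cast_eq_zero, Nat.add_eq_zero_iff, one_ne_zero, and_false, false_or] at h0
  refine hy (funext fun i => ?_)
  rw [← bet_succ y i, h i.succ 0, h0]
  rfl

lemma rcone_nc2 {y z : E m} (hy : y ≠ 0) (hz : z ≠ 0) :
    ∃ s t, bet m y s ≠ bet m y t ∧ bet m z s ≠ bet m z t := by
  obtain ⟨s, t, h⟩ := rcone_nc hy
  by_cases hst : bet m z s = bet m z t
  · obtain ⟨a, b, hab⟩ := rcone_nc hz
    obtain ⟨r, hr⟩ : ∃ r, bet m z r ≠ bet m z s := by
      by_contra hn
      push Not at hn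
      exact hab ((hn a).trans (hn b).symm)
    by_cases hrs : bet m y r = bet m y s
    · exact ⟨r, t, hrs ▸ h, hst ▸ hr⟩
    · exact ⟨r, s, hrs, hr⟩
  · exact ⟨s, t, h, hst⟩

section

variable {ι : Type} [Fintype ι] [DecidableEq ι] {β : ι → E k × E m →ᵃ[ℝ] ℝ}
  {p : ι → E k × E m} {B : Set (E k)} {τ : E k → ℝ}

lemma rcone_same (h : rcone_Bary β p)
    (hS : ∀ x : E k × E m, x.1 ∈ B ∧ x.2 ∈ cS m (τ x.1) ↔ ∀ o, 0 ≤ β o x) {i j : ι}
    (hi : (p i).2 ≠ 0) (hj : (p j).2 ≠ 0) : (p i).1 = (p j).1 := by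
  obtain ⟨s, t, h1, h2⟩ := rcone_nc2 hi hj
  let R : E k × E m →ₗ[ℝ] E k × E m := LinearMap.prodMap LinearMap.id (Tp (Equiv.swap s t))
  have hR : ∀ x, R x = (x.1, Tp (Equiv.swap s t) x.2) := fun x => rfl
  have hRR : ∀ x, R (R x) = x := fun x => by
    simp only [hR, Tp_Tp, Equiv.swap_mul_self, Tp_one]
  have hRS : ∀ x, (∀ o, 0 ≤ β o x) → ∀ o, 0 ≤ β o (R x) := fun x hx => by
    rw [← hS] at hx ⊢
    rw [hR]
    exact ⟨hx.1, (Tp_mem_cS _).2 hx.2⟩
  obtain ⟨l, hl⟩ := rcone_vert h R hRR hRS i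
  obtain ⟨l', hl'⟩ := rcone_vert h R hRR hRS j
  have hli : i ≠ l := by
    rintro rfl
    have := congrArg (fun x => bet m x.2 s) hl
    simp only [hR, bet_Tp_apply, Equiv.swap_apply_left] at this
    exact h1 this.symm
  have key : (bet m (p j).2 t - bet m (p j).2 s) • (p l - p i) =
      (bet m (p i).2 t - bet m (p i).2 s) • (p l' - p j) := by
    rw [← hl, ← hl']
    refine Prod.ext (by simp [hR]) (bet_injective (funext fun r => ?_))
    simp only [hR, Prod.smul_snd, Prod.snd_sub, map_smul, map_sub, Pi.smul_apply, Pi.sub_apply,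
      bet_Tp_apply, smul_eq_mul]
    by_cases hr : r = s
    · rw [hr, Equiv.swap_apply_left]; ring
    by_cases hr' : r = t
    · rw [hr', Equiv.swap_apply_right]; ring
    rw [Equiv.swap_apply_of_ne_of_ne hr hr']; ring
  have hlin : ∀ x y, (β i).linear (x - y) = β i x - β i y := fun x y => (β i).linearMap_vsub x y
  have k2 := congrArg (β i).linear key
  simp only [map_smul, hlin, h.h1, smul_eq_mul, if_neg hli, if_true] at k2
  by_cases hij : i = j
  · rw [hij]
  by_cases hil : i = l'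
  · rw [hil, ← hl']; rfl
  rw [if_neg hij, if_neg hil] at k2
  exact absurd (by linarith) h2

end

lemma rcone_main {ι : Type} [Fintype ι] [DecidableEq ι] {β : ι → E k × E (m + 1) →ᵃ[ℝ] ℝ}
    {p : ι → E k × E (m + 1)} {B : Set (E k)} {τ : E k → ℝ} (hτ : ∀ u ∈ B, 0 ≤ τ u)
    (h : rcone_Bary β p)
    (hS : ∀ x : E k × E (m + 1), x.1 ∈ B ∧ x.2 ∈ cS (m + 1) (τ x.1) ↔ ∀ o, 0 ≤ β o x) :
    ∃ (b : E k) (l : E k →ᵃ[ℝ] ℝ), b ∈ B ∧ 0 < τ b ∧ (∀ u ∈ B, τ u = l u * τ b) ∧
      ∀ u ∈ B, 0 ≤ l u ∧ l u ≤ 1 ∧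
        ∃ u' ∈ B, (1 - l u) * l u' = 0 ∧ u = l u • b + (1 - l u) • u' := by
  classical
  obtain ⟨o₀, h₀⟩ : ∃ o, (p o).2 ≠ 0 := by
    by_contra hn
    push Not at hn
    have := congrArg (fun x => x.2 0) (h.h3 (0, fun _ => 1))
    simp [Prod.snd_sum, hn] at this
  have hp : ∀ o, (p o).1 ∈ B ∧ (p o).2 ∈ cS (m + 1) (τ (p o).1) := fun o =>
    (hS _).2 (rcone_pos h o)
  set b := (p o₀).1 with hb
  have hB : b ∈ B := (hp o₀).1
  have hab : ∀ o, (p o).2 ≠ 0 → (p o).1 = b := fun o ho => rcone_same h hS ho h₀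
  have hτb : 0 < τ b := by
    refine (hτ b hB).lt_of_ne fun h0 => h₀ ?_
    simpa [← hb, ← h0] using norm_le_of_mem_cS (hτ b hB) (hp o₀).2
  set T : Finset ι := Finset.univ.filter fun o => (p o).2 ≠ 0 with hT
  have hT' : ∀ o, o ∈ T ↔ (p o).2 ≠ 0 := fun o => by simp [hT]
  let lam : E k × E (m + 1) →ᵃ[ℝ] ℝ := ∑ o ∈ T, β o
  have hlam : ∀ x, lam x = ∑ o ∈ T, β o x := fun x => rcone_sum T β x
  have hc : ∀ x, ∑ o ∈ Tᶜ, β o x = 1 - lam x := fun x => by
    rw [hlam, ← h.h2 x, ← Finset.sum_add_sum_compl T]; ring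
  have h0 : ∀ u ∈ B, ∀ o, 0 ≤ β o (u, 0) := fun u hu => (hS (u, 0)).1
    ⟨hu, mem_cS_of_norm_le (by have := hτ u hu; simp; positivity)⟩
  have hfst : ∀ x : E k × E (m + 1), x.1 = lam x • b + ∑ o ∈ Tᶜ, β o x • (p o).1 := fun x => by
    conv_lhs => rw [← h.h3 x]
    rw [Prod.fst_sum, ← Finset.sum_add_sum_compl T, hlam, Finset.sum_smul]
    congr 1
    exact Finset.sum_congr rfl fun o ho => by rw [Prod.smul_fst, hab o ((hT' o).1 ho)]
  have hsnd : ∀ x : E k × E (m + 1), (∀ o, 0 ≤ β o x) → x.2 ∈ cS (m + 1) (lam x * τ b) := by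
    intro x hx j
    conv_rhs => rw [← h.h3 x]
    rw [Prod.snd_sum, ← Finset.sum_add_sum_compl T, Finset.sum_eq_zero (s := Tᶜ) fun o ho => by
      have : (p o).2 = 0 := by simpa [hT'] using ho
      simp [this], add_zero, map_sum, Finset.sum_apply, hlam, Finset.sum_mul, Finset.sum_div,
      ← Finset.sum_neg_distrib]
    refine Finset.sum_le_sum fun o ho => ?_
    have h1 := (hp o).2 j
    rw [hab o ((hT' o).1 ho)] at h1
    have := mul_le_mul_of_nonneg_left h1 (hx o)
    simp only [Prod.smul_snd, map_smul, Pi.smul_apply, smul_eq_mul]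
    refine le_trans (le_of_eq ?_) this
    ring
  refine ⟨b, lam.comp (LinearMap.inl ℝ (E k) (E (m + 1))).toAffineMap, hB, hτb, fun u hu => ?_,
    fun u hu => ?_⟩
  · change τ u = lam (u, 0) * τ b
    refine le_antisymm ?_ ?_
    · have hN : (0 : ℝ) < m + 2 := by positivity
      have h1 : ∀ s : Fin (m + 2), τ u ≤ lam (u, τ u • rcone_w s) * τ b := fun s =>
        rcone_w_le s (hsnd (u, τ u • rcone_w s) ((hS _).1 ⟨hu, rcone_w_mem s (hτ u hu)⟩))
      have h2 := rcone_aff lam (c := fun _ : Fin (m + 2) => 1 / (m + 2 : ℝ))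
        (by simp; field_simp) fun s => (u, τ u • rcone_w s)
      have h3 : ∑ s : Fin (m + 2), (1 / (m + 2 : ℝ)) • ((u, τ u • rcone_w s) : E k × E (m + 1)) =
          (u, 0) := by
        rw [← Finset.smul_sum, ← prod_mk_sum, ← Finset.smul_sum, rcone_w_sum]
        ext i
        · simp; field_simp
        · simp
      rw [h3] at h2
      rw [h2, Finset.sum_mul]
      refine le_trans (le_of_eq ?_) (Finset.sum_le_sum fun s _ =>
        (mul_le_mul_of_nonneg_left (h1 s) (one_div_pos.2 hN).le).trans_eq (mul_assoc _ _ _).symm)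
      simp
      field_simp
    · let q : ι → E k × E (m + 1) := fun o => if o ∈ T then (b, τ b • rcone_w 0) else p o
      have hq : ∀ o o', 0 ≤ β o' (q o) := fun o => by
        by_cases ho : o ∈ T
        · simp only [q, if_pos ho]
          exact (hS _).1 ⟨hB, rcone_w_mem 0 hτb.le⟩
        · simp only [q, if_neg ho]
          exact rcone_pos h o
      have h1 : ∑ o, β o (u, 0) • q o = (u, (lam (u, 0) * τ b) • rcone_w 0) := by
        rw [← Finset.sum_add_sum_compl T,
          Finset.sum_congr rfl (g := fun o => β o (u, 0) • (b, τ b • rcone_w 0))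
            fun o ho => by simp only [q, if_pos ho],
          Finset.sum_congr rfl (s₁ := Tᶜ) (g := fun o => β o (u, 0) • ((p o).1, 0))
            fun o ho => by
              have : (p o).2 = 0 := by simpa [hT'] using ho
              simp only [q, if_neg (Finset.mem_compl.1 ho), ← this],
          ← Finset.sum_smul, ← hlam]
        refine Prod.ext ?_ ?_
        · simpa [Prod.fst_sum] using (hfst (u, 0)).symm
        · simp [Prod.snd_sum, smul_smul]
      refine rcone_w_le 0 ((hS (u, (lam (u, 0) * τ b) • rcone_w 0)).2 fun o => ?_).2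
      rw [← h1, rcone_aff _ (h.h2 _)]
      exact Finset.sum_nonneg fun l _ => mul_nonneg (h0 u hu l) (hq l o)
  · change 0 ≤ lam (u, 0) ∧ lam (u, 0) ≤ 1 ∧ ∃ u' ∈ B, (1 - lam (u, 0)) * lam (u', 0) = 0 ∧
      u = lam (u, 0) • b + (1 - lam (u, 0)) • u'
    have h1 : 0 ≤ 1 - lam (u, 0) := by
      rw [← hc]; exact Finset.sum_nonneg fun o _ => h0 u hu o
    refine ⟨by rw [hlam]; exact Finset.sum_nonneg fun o _ => h0 u hu o, by linarith, ?_⟩
    rcases h1.eq_or_lt with h1 | h1
    · refine ⟨b, hB, by rw [← h1, zero_mul], ?_⟩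
      have h2 := (Finset.sum_eq_zero_iff_of_nonneg fun o _ => h0 u hu o).1
        ((hc (u, 0)).trans h1.symm)
      have h3 := hfst (u, 0)
      rw [Finset.sum_eq_zero fun o ho => by rw [h2 o ho, zero_smul]] at h3
      rw [← h1, zero_smul]
      exact h3
    · let c : ι → ℝ := fun o => if o ∈ Tᶜ then β o (u, 0) / (1 - lam (u, 0)) else 0
      have hc1 : ∑ o, c o = 1 := by
        rw [Finset.sum_ite_mem, Finset.univ_inter, ← Finset.sum_div, hc, div_self h1.ne']
      have hz : ∑ o, c o • p o =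
          ((1 - lam (u, 0))⁻¹ • ∑ o ∈ Tᶜ, β o (u, 0) • (p o).1, 0) := by
        rw [← Finset.sum_add_sum_compl T, Finset.sum_eq_zero fun o ho => by simp [c, ho],
          zero_add]
        refine Prod.ext ?_ ?_
        · rw [Prod.fst_sum, Finset.smul_sum]
          exact Finset.sum_congr rfl fun o ho => by
            simp only [c, if_pos ho, Prod.smul_fst, smul_smul, div_eq_inv_mul]
        · rw [Prod.snd_sum]
          exact Finset.sum_eq_zero fun o ho => by
            have : (p o).2 = 0 := by simpa [hT'] using ho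
            simp [this]
      have hco := rcone_coord h hc1
      rw [hz] at hco
      set u' := (1 - lam (u, 0))⁻¹ • ∑ o ∈ Tᶜ, β o (u, 0) • (p o).1 with hu'
      refine ⟨u', ((hS (u', 0)).2 fun o => ?_).1, ?_, ?_⟩
      · rw [hco]
        simp only [c]
        split_ifs
        · exact div_nonneg (h0 u hu o) h1.le
        · exact le_rfl
      · rw [hlam (u', 0), Finset.sum_eq_zero (s := T) fun o ho => by rw [hco]; simp [c, ho],
          mul_zero]
      · rw [hu', smul_inv_smul₀ h1.ne']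
        exact hfst (u, 0)

/-- the gluing map as a linear equivalence -/
noncomputable def rcone_J {a : ℕ} (e : Fin k ⊕ Fin a ≃ Fin n) : (E k × E a) ≃ₗ[ℝ] E n where
  toFun := wpf_j e
  invFun x := (fun i => x (e (Sum.inl i)), fun j => x (e (Sum.inr j)))
  map_add' x y := by simpa using wpf_j_combo e 1 1 x y
  map_smul' c x := by
    ext i
    obtain ⟨i, rfl⟩ := e.surjective i
    cases i <;> simp [wpf_j]
  left_inv x := by ext <;> simp [wpf_j]
  right_inv x := by
    ext i
    obtain ⟨i, rfl⟩ := e.surjective i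
    cases i <;> simp [wpf_j]

theorem cone_of_simplex (e : Fin k ⊕ Fin (m + 1) ≃ Fin n) {B : Set (E k)} {τ : E k → ℝ}
    (hτ : ∀ u ∈ B, 0 ≤ τ u) (f : E n ≃ᵃ[ℝ] E n)
    (h : fibS e B τ (cS (m + 1) 1) = f '' stdS n) :
    ∃ (b : E k) (l : E k →ᵃ[ℝ] ℝ), b ∈ B ∧ 0 < τ b ∧ (∀ u ∈ B, τ u = l u * τ b) ∧
      ∀ u ∈ B, 0 ≤ l u ∧ l u ≤ 1 ∧
        ∃ u' ∈ B, (1 - l u) * l u' = 0 ∧ u = l u • b + (1 - l u) • u' := by
  obtain ⟨β, p, hb, hS⟩ := rcone_bary (f.trans (rcone_J e).symm.toAffineEquiv)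
  refine rcone_main hτ hb fun x => ?_
  have h1 : x ∈ f.trans (rcone_J e).symm.toAffineEquiv '' stdS n ↔ wpf_j e x ∈ f '' stdS n := by
    constructor
    · rintro ⟨z, hz, rfl⟩
      exact ⟨z, hz, ((rcone_J e).apply_symm_apply (f z)).symm⟩
    · rintro ⟨z, hz, hx⟩
      exact ⟨z, hz, (rcone_J e).symm_apply_eq.2 hx⟩
  rw [← hS, h1, ← h, wpf_mem]
  exact and_congr_right fun hx => (rcone_smul (hτ _ hx) _).symm

end Pool.Agent.MP_5f4cdd_gt.W

end

section

set_option autoImplicit false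
open MeasureTheory ENNReal Set Function Filter Topology Pointwise

namespace Pool.Agent.MP_5f4cdd_gt.W

open PL EF AB

variable {n k m : ℕ}

lemma rzb_update (e : Fin k ⊕ Fin m ≃ Fin n) (u : E k) (v : E m) (b : Fin m) (t : ℝ) :
    wpf_j e (u, update v b t) = update (wpf_j e (u, v)) (e (Sum.inr b)) t := by
  ext i
  obtain ⟨c, rfl⟩ := e.surjective i
  rcases c with a | c
  · rw [update_of_ne (by simp), wpf_j_inl, wpf_j_inl]
  · rcases eq_or_ne c b with rfl | hc
    · rw [update_self, wpf_j_inr]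
      exact update_self _ _ _
    · rw [update_of_ne (by simpa using hc), wpf_j_inr, wpf_j_inr]
      exact update_of_ne hc _ _

lemma rzb_swap (e : Fin k ⊕ Fin m ≃ Fin n) (u : E k) (v : E m) (b b' : Fin m) :
    wpf_j e (u, v ∘ Equiv.swap b b') =
      wpf_j e (u, v) ∘ Equiv.swap (e (Sum.inr b)) (e (Sum.inr b')) := by
  ext i
  obtain ⟨c, rfl⟩ := e.surjective i
  rcases c with a | c
  · rw [comp_apply, Equiv.swap_apply_of_ne_of_ne (by simp) (by simp), wpf_j_inl, wpf_j_inl]
  · have h : Equiv.swap (e (Sum.inr b)) (e (Sum.inr b')) (e (Sum.inr c)) =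
        e (Sum.inr (Equiv.swap b b' c)) :=
      (Function.Injective.swap_apply (f := fun x : Fin m => e (Sum.inr x))
        (e.injective.comp Sum.inr_injective) b b' c)
    rw [comp_apply, h, wpf_j_inr, wpf_j_inr]
    rfl

lemma rzb_interior {K : Set (E n)} {f : E n → E n} (hf : Continuous f)
    (hi : ∀ x, f (f x) = x) (hK : ∀ x ∈ K, f x ∈ K) {x : E n} (hx : x ∈ interior K) :
    f x ∈ interior K := by
  have h : f ⁻¹' interior K ⊆ interior K :=
    interior_maximal (fun y hy => by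
      have := hK _ (interior_subset hy)
      rwa [hi] at this) (isOpen_interior.preimage hf)
  exact h (by simpa [hi] using hx)

theorem tinv_of_ainv {g : Fin n → Fin 3} {j : Fin 3} {e : Fin k ⊕ Fin m ≃ Fin n}
    (h1 : ∀ a, g (e (Sum.inl a)) ≠ j) (h2 : ∀ b, g (e (Sum.inr b)) = j) {K : Set (E n)}
    (h : AInv g j K) (u : E k) : TInv (fibr e K u) := by
  refine tinv_of_gen fun v hv b => ?_
  have := h _ hv _ (h2 b)
  rw [bs_apply, sum_block h1 h2] at this
  simp only [wpf_j_inr] at this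
  change wpf_j e _ ∈ K
  rwa [rzb_update]

theorem sinv_of_binv {g : Fin n → Fin 3} {j : Fin 3} {e : Fin k ⊕ Fin m ≃ Fin n}
    (h1 : ∀ a, g (e (Sum.inl a)) ≠ j) (h2 : ∀ b, g (e (Sum.inr b)) = j) {K : Set (E n)}
    (h : BInv g j K) (u : E k) : SInv (fibr e K u) := by
  refine sinv_of_gen (fun v hv b => ?_) fun v hv b b' => ?_
  · have := h.1 _ hv _ (h2 b)
    rw [wpf_j_inr] at this
    change wpf_j e _ ∈ K
    rwa [rzb_update]
  · have := h.2 _ hv _ _ (h2 b) (h2 b')
    change wpf_j e _ ∈ K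
    rwa [rzb_swap]

theorem zero_block {g : Fin n → Fin 3} {j : Fin 3} {K : Set (E n)} (hK : Convex ℝ K)
    (h : AInv g j K ∨ BInv g j K) {x : E n} (hx : x ∈ K) :
    (fun i => if g i = j then 0 else x i) ∈ K := by
  by_cases hj : ∃ i, g i = j
  · obtain ⟨k, m, e, e1, e2⟩ := exists_split hj
    obtain ⟨⟨u, v⟩, rfl⟩ := wpf_surj e x
    have h0 : (0 : E (m + 1)) ∈ fibr e K u := by
      rcases h with h | h
      · exact zero_mem_T (convex_fibr e hK u) (tinv_of_ainv e1 e2 h u) hx
      · exact zero_mem_S (convex_fibr e hK u) (sinv_of_binv e1 e2 h u) hx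
    change wpf_j e _ ∈ K at h0
    convert h0 using 1
    ext i
    obtain ⟨c, rfl⟩ := e.surjective i
    rcases c with a | b
    · rw [if_neg (e1 a), wpf_j_inl, wpf_j_inl]
    · rw [if_pos (e2 b), wpf_j_inr]
      rfl
  · convert hx using 1
    ext i
    exact if_neg fun hi => hj ⟨i, hi⟩

lemma rzb_bs_update {g : Fin n → Fin 3} {j : Fin 3} {i : Fin n} (hi : g i = j) (x : E n) (t : ℝ) :
    bs g (update x i t) j = bs g x j - x i + t := by
  have hm : i ∈ Finset.univ.filter fun l => g l = j := by simpa using hi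
  rw [bs_apply, bs_apply, Finset.sum_update_of_mem hm, ← Finset.add_sum_erase _ _ hm,
    Finset.sdiff_singleton_eq_erase]
  ring

theorem AInv.interior {g : Fin n → Fin 3} {j : Fin 3} {K : Set (E n)} (h : AInv g j K) :
    AInv g j (interior K) := by
  intro x hx i hi
  refine rzb_interior (f := fun y : E n => update y i (-bs g y j)) ?_ (fun y => ?_)
    (fun y hy => h y hy i hi) hx
  · refine continuous_id.update i ?_
    simp only [bs_apply]
    fun_prop
  · rw [rzb_bs_update hi, update_idem]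
    simp

theorem BInv.interior {g : Fin n → Fin 3} {j : Fin 3} {K : Set (E n)} (h : BInv g j K) :
    BInv g j (interior K) := by
  refine ⟨fun x hx i hi => ?_, fun x hx i i' hi hi' => ?_⟩
  · refine rzb_interior (f := fun y : E n => update y i (-y i)) ?_ (fun y => ?_)
      (fun y hy => h.1 y hy i hi) hx
    · exact continuous_id.update i (by fun_prop)
    · simp
  · refine rzb_interior (f := fun y : E n => y ∘ Equiv.swap i i') ?_ (fun y => ?_)
      (fun y hy => h.2 y hy i i' hi hi') hx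
    · exact continuous_pi fun l => continuous_apply _
    · ext l
      simp

end Pool.Agent.MP_5f4cdd_gt.W

end

section

set_option autoImplicit false
open MeasureTheory ENNReal Set Function Filter Topology Pointwise

namespace Pool.Agent.MP_5f4cdd_gt.W

open PL EF AB

variable {n k m : ℕ}

/-- maps that act on the block `j` by a scalar and whose other coordinates do not read it -/
def rnrm_Ok (g : Fin n → Fin 3) (j : Fin 3) (f : E n → E n) : Prop :=
  (∃ c : ℝ, ∀ x i, g i = j → f x i = c * x i) ∧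
    ∀ x y : E n, (∀ i, g i ≠ j → x i = y i) → ∀ i, g i ≠ j → f x i = f y i

lemma rnrm_upd {g : Fin n → Fin 3} {j : Fin 3} {f : E n → E n} {c : ℝ}
    (h1 : ∀ x i, g i = j → f x i = c * x i)
    (h2 : ∀ x y : E n, (∀ i, g i ≠ j → x i = y i) → ∀ i, g i ≠ j → f x i = f y i)
    (x : E n) {i : Fin n} (hi : g i = j) (s : ℝ) :
    update (f x) i (c * s) = f (update x i s) := by
  ext i'
  by_cases e : i' = i
  · subst e
    rw [h1 _ _ hi, update_self, update_self]
  · rw [update_of_ne e]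
    by_cases e' : g i' = j
    · rw [h1 _ _ e', h1 _ _ e', update_of_ne e]
    · refine h2 _ _ (fun l hl => ?_) _ e'
      rw [update_of_ne]
      rintro rfl
      exact hl hi

lemma rnrm_ainv {g : Fin n → Fin 3} {j : Fin 3} {f : E n → E n} (hf : rnrm_Ok g j f)
    {K : Set (E n)} (h : AInv g j K) : AInv g j (f '' K) := by
  obtain ⟨⟨c, h1⟩, h2⟩ := hf
  rintro _ ⟨x, hx, rfl⟩ i hi
  refine ⟨_, h x hx i hi, ?_⟩
  rw [← rnrm_upd h1 h2 x hi]
  congr 1
  change c * -(∑ l with g l = j, x l) = -(∑ l with g l = j, f x l)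
  rw [mul_neg, Finset.mul_sum]
  congr 1
  exact Finset.sum_congr rfl fun l hl => (h1 _ _ (Finset.mem_filter.1 hl).2).symm

lemma rnrm_binv {g : Fin n → Fin 3} {j : Fin 3} {f : E n → E n} (hf : rnrm_Ok g j f)
    {K : Set (E n)} (h : BInv g j K) : BInv g j (f '' K) := by
  obtain ⟨⟨c, h1⟩, h2⟩ := hf
  refine ⟨?_, ?_⟩
  · rintro _ ⟨x, hx, rfl⟩ i hi
    refine ⟨_, h.1 x hx i hi, ?_⟩
    rw [← rnrm_upd h1 h2 x hi, h1 _ _ hi, mul_neg]
  · rintro _ ⟨x, hx, rfl⟩ i i' hi hi'
    refine ⟨_, h.2 x hx i i' hi hi', ?_⟩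
    have hs : ∀ l, g l ≠ j → Equiv.swap i i' l = l := fun l hl =>
      Equiv.swap_apply_of_ne_of_ne (by rintro rfl; exact hl hi) (by rintro rfl; exact hl hi')
    have hs' : ∀ l, g l = j → g (Equiv.swap i i' l) = j := fun l hl => by
      rw [Equiv.swap_apply_def]
      split_ifs <;> assumption
    ext l
    by_cases e : g l = j
    · rw [h1 _ _ e, comp_apply, comp_apply, h1 _ _ (hs' l e)]
    · rw [comp_apply, hs l e]
      exact h2 _ _ (fun l' hl' => by rw [comp_apply, hs l' hl']) _ e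

lemma rnrm_refl {g : Fin n → Fin 3} {A B : Set (Fin 3)} {K : Set (E n)} (hK : Refl g A B K)
    (f : E n ≃ᵃ[ℝ] E n) (hf : ∀ j, j ∈ A ∨ j ∈ B → rnrm_Ok g j f) : Refl g A B (f '' K) :=
  ⟨wcs_body_image hK.1 f, fun j hj => rnrm_ainv (hf j (Or.inl hj)) (hK.2.1 j hj),
    fun j hj => rnrm_binv (hf j (Or.inr hj)) (hK.2.2 j hj)⟩

lemma rnrm_two {K : Set (E n)} (hK : Body K) (i : Fin n) : ∃ x ∈ K, ∃ y ∈ K, x i < y i := by
  obtain ⟨z, hz⟩ := hK.int
  obtain ⟨t, ht, hb⟩ := Metric.isOpen_iff.1 isOpen_interior z hz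
  refine ⟨z, interior_subset hz, z + Pi.single i (t / 2), interior_subset (hb ?_), ?_⟩
  · rw [mem_ball_iff_norm, add_sub_cancel_left, Pi.norm_single, Real.norm_eq_abs,
      abs_of_pos (by linarith)]
    linarith
  · simp only [Pi.add_apply, Pi.single_eq_same]
    linarith

lemma rnrm_zero {g : Fin n → Fin 3} {A B : Set (Fin 3)} (hg : BlkR g A B) {K : Set (E n)}
    (hK : Refl g A B K) {i0 : Fin n} (h0 : g i0 = 0) {x : E n} (hx : x ∈ K) :
    ∃ y ∈ K, y i0 = x i0 ∧ ∀ i, g i ∈ A ∨ g i ∈ B → y i = 0 := by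
  classical
  have key : ∀ S : Finset (Fin 3),
      ∃ y ∈ K, y i0 = x i0 ∧ ∀ i, g i ∈ S → g i ∈ A ∨ g i ∈ B → y i = 0 := by
    intro S
    induction S using Finset.induction_on with
    | empty => exact ⟨x, hx, rfl, fun i hi => absurd hi (Finset.notMem_empty _)⟩
    | insert j S _ ih =>
      obtain ⟨y, hy, e, hz⟩ := ih
      by_cases hj : j ∈ A ∨ j ∈ B
      · have hj0 : g i0 ≠ j := by
          rw [h0]
          rintro rfl
          exact hj.elim hg.zA hg.zB
        refine ⟨_, zero_block hK.1.conv (hj.imp (hK.2.1 j) (hK.2.2 j)) hy, ?_, fun i hi hi' => ?_⟩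
        · simp only [if_neg hj0, e]
        · by_cases e' : g i = j
          · simp only [if_pos e']
          · simp only [if_neg e']
            exact hz i ((Finset.mem_insert.1 hi).resolve_left e') hi'
      · refine ⟨y, hy, e, fun i hi hi' => hz i ((Finset.mem_insert.1 hi).resolve_left ?_) hi'⟩
        rintro rfl
        exact hj hi'
  obtain ⟨y, hy, e, hz⟩ := key Finset.univ
  exact ⟨y, hy, e, fun i => hz i (Finset.mem_univ _)⟩

/-- the shear sending `w` to a unit vector -/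
noncomputable def rnrm_T (i0 : Fin n) (w : E n) (hw : w i0 ≠ 0) : E n ≃ₗ[ℝ] E n where
  toFun x := x + (x i0 / w i0) • (Pi.single i0 1 - w)
  invFun y := y + y i0 • (w - Pi.single i0 1)
  map_add' x y := by
    simp only [Pi.add_apply, add_div, add_smul]
    abel
  map_smul' a x := by
    simp only [Pi.smul_apply, smul_eq_mul, RingHom.id_apply, smul_add, smul_smul, mul_div_assoc]
  left_inv x := by
    have e : (x + (x i0 / w i0) • (Pi.single i0 1 - w) : E n) i0 = x i0 / w i0 := by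
      simp only [Pi.add_apply, Pi.smul_apply, Pi.sub_apply, Pi.single_eq_same, smul_eq_mul]
      field_simp
      ring
    change _ + (x + (x i0 / w i0) • (Pi.single i0 1 - w) : E n) i0 • _ = x
    rw [e, add_assoc, ← smul_add]
    simp
  right_inv y := by
    have e : (y + y i0 • (w - Pi.single i0 1) : E n) i0 / w i0 = y i0 := by
      simp only [Pi.add_apply, Pi.smul_apply, Pi.sub_apply, Pi.single_eq_same, smul_eq_mul]
      field_simp
      ring
    change _ + ((y + y i0 • (w - Pi.single i0 1) : E n) i0 / w i0) • _ = y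
    rw [e, add_assoc, ← smul_add]
    simp

lemma rnrm_first {g : Fin n → Fin 3} {A B : Set (Fin 3)} (hg : BlkR g A B) {K : Set (E n)}
    (hK : Refl g A B K) {i0 : Fin n} (h0 : g i0 = 0) :
    ∃ f : E n ≃ᵃ[ℝ] E n, Refl g A B (f '' K) ∧ (0 : E n) ∈ f '' K ∧
      (Pi.single i0 1 : E n) ∈ f '' K ∧ ∀ x ∈ f '' K, |x i0| ≤ 1 := by
  obtain ⟨a, ha, b, hb, hab⟩ := rnrm_two hK.1 i0
  obtain ⟨p', hp', hmin⟩ := hK.1.comp.exists_isMinOn ⟨a, ha⟩
    (continuous_apply i0 : Continuous fun x : E n => x i0).continuousOn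
  obtain ⟨q', hq', hmax⟩ := hK.1.comp.exists_isMaxOn ⟨a, ha⟩
    (continuous_apply i0 : Continuous fun x : E n => x i0).continuousOn
  obtain ⟨p, hp, ep, zp⟩ := rnrm_zero hg hK h0 hp'
  obtain ⟨q, hq, eq, zq⟩ := rnrm_zero hg hK h0 hq'
  have m1 : ∀ x ∈ K, p i0 ≤ x i0 := fun x hx => ep ▸ hmin hx
  have m2 : ∀ x ∈ K, x i0 ≤ q i0 := fun x hx => eq ▸ hmax hx
  have hw : 0 < (q - p) i0 := by
    have := m1 a ha
    have := m2 b hb
    simp only [Pi.sub_apply]
    linarith
  let f : E n ≃ᵃ[ℝ] E n :=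
    (AffineEquiv.constVAdd ℝ (E n) (-p)).trans (rnrm_T i0 (q - p) hw.ne').toAffineEquiv
  have hf : ∀ x, f x = (-p + x) + ((-p + x) i0 / (q - p) i0) • (Pi.single i0 1 - (q - p)) :=
    fun x => rfl
  refine ⟨f, rnrm_refl hK f fun j hj => ?_, ⟨p, hp, ?_⟩, ⟨q, hq, ?_⟩, ?_⟩
  · have hj0 : g i0 ≠ j := by
      rw [h0]
      rintro rfl
      exact hj.elim hg.zA hg.zB
    refine ⟨⟨1, fun x i hi => ?_⟩, fun x y hxy i hi => ?_⟩
    · have hi0 : i ≠ i0 := by
        rintro rfl
        exact hj0 hi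
      have e1 := zp i (hi ▸ hj)
      have e2 := zq i (hi ▸ hj)
      simp [hf, e1, e2, Pi.single_eq_of_ne hi0]
    · simp only [hf, Pi.add_apply, Pi.smul_apply, hxy i hi, hxy i0 hj0]
  · rw [hf]
    simp
  · rw [hf, neg_add_eq_sub, div_self hw.ne']
    simp
  · rintro _ ⟨x, hx, rfl⟩
    have e : f x i0 = (x i0 - p i0) / (q - p) i0 := by
      have := hw.ne'
      rw [hf]
      simp only [Pi.add_apply, Pi.smul_apply, Pi.neg_apply, smul_eq_mul]
      rw [Pi.sub_apply (Pi.single i0 1), Pi.single_eq_same]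
      field_simp
      ring
    have t1 := m1 x hx
    have t2 := m2 x hx
    rw [e, abs_of_nonneg (div_nonneg (by linarith) hw.le), div_le_one hw, Pi.sub_apply]
    linarith

lemma rnrm_rho {g : Fin n → Fin 3} (hg : Surjective g) {K : Set (E n)} (hK : Body K) (j : Fin 3) :
    ∃ r : ℝ, 0 < r ∧ (∀ x ∈ K, ∀ i, g i = j → |x i| ≤ r) ∧ ∃ x ∈ K, ∃ i, g i = j ∧ |x i| = r := by
  obtain ⟨i1, hi1⟩ := hg j
  obtain ⟨a, ha, b, hb, hab⟩ := rnrm_two hK i1
  have h : ∀ i : Fin n, ∃ z ∈ K, ∀ x ∈ K, |x i| ≤ |z i| := fun i =>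
    hK.comp.exists_isMaxOn ⟨a, ha⟩
      (continuous_apply i : Continuous fun x : E n => x i).abs.continuousOn
  choose z hz hm using h
  obtain ⟨i, hi, hmax⟩ := (Finset.univ.filter fun i => g i = j).exists_max_image
    (fun i => |z i i|) ⟨i1, by simp [hi1]⟩
  have hb' : ∀ x ∈ K, ∀ l, g l = j → |x l| ≤ |z i i| := fun x hx l hl =>
    (hm l x hx).trans (hmax l (by simp [hl]))
  refine ⟨|z i i|, ?_, hb', z i, hz i, i, (Finset.mem_filter.1 hi).2, rfl⟩
  have t1 := abs_le.1 (hb' a ha i1 hi1)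
  have t2 := abs_le.1 (hb' b hb i1 hi1)
  linarith [t1.1, t2.2]

theorem exists_nrm {g : Fin n → Fin 3} {A B : Set (Fin 3)} (hg : BlkR g A B) {K : Set (E n)}
    (hK : Refl g A B K) : ∃ f : E n ≃ᵃ[ℝ] E n, Refl g A B (f '' K) ∧ Nrm g (f '' K) := by
  obtain ⟨i0, h0⟩ := hg.surj 0
  have uq : ∀ i, g i = 0 → i = i0 := fun i hi =>
    hg.one i i0 (hi.trans h0.symm) (hi ▸ hg.zA) (hi ▸ hg.zB)
  obtain ⟨f1, hR, hz, h1, hb⟩ := rnrm_first hg hK h0
  choose ρ hρ hle hex using rnrm_rho hg.surj hR.1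
  have ρ0 : ρ 0 = 1 := by
    apply le_antisymm
    · obtain ⟨x, hx, i, hi, e⟩ := hex 0
      rw [← e, uq i hi]
      exact hb x hx
    · simpa using hle 0 _ h1 i0 h0
  let f2 : E n ≃ᵃ[ℝ] E n := dgE (fun i => (ρ (g i))⁻¹) fun i => inv_ne_zero (hρ _).ne'
  have hf : ∀ x i, f2 x i = (ρ (g i))⁻¹ * x i := fun x i => by
    simp only [f2, coe_dgE, dg_apply]
  have e : (f1.trans f2) '' K = f2 '' (f1 '' K) := by
    rw [image_image]
    rfl
  refine ⟨f1.trans f2, ?_⟩
  rw [e]
  refine ⟨rnrm_refl hR f2 fun j _ => ⟨⟨(ρ j)⁻¹, fun x i hi => by rw [hf, hi]⟩,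
    fun x y hxy i hi => by rw [hf, hf, hxy i hi]⟩, ?_, ⟨0, hz, ?_⟩, fun i hi => ⟨_, h1, ?_⟩,
    fun j => ?_⟩
  · rintro _ ⟨x, hx, rfl⟩
    rw [mem_closedBall_zero_iff, pi_norm_le_iff_of_nonneg zero_le_one]
    intro i
    rw [hf, Real.norm_eq_abs, abs_mul, abs_of_pos (inv_pos.2 (hρ _)), inv_mul_le_iff₀ (hρ _),
      mul_one]
    exact hle _ x hx i rfl
  · ext i
    simp [hf]
  · rw [uq i hi]
    ext l
    rw [hf]
    by_cases el : l = i0
    · subst el
      simp [h0, ρ0]
    · simp [Pi.single_eq_of_ne el]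
  · obtain ⟨x, hx, i, hi, ex⟩ := hex j
    refine ⟨f2 x, mem_image_of_mem _ hx, i, hi, ?_⟩
    rw [hf, abs_mul, hi, abs_of_pos (inv_pos.2 (hρ _)), ex, inv_mul_cancel₀ (hρ _).ne']

end Pool.Agent.MP_5f4cdd_gt.W

end

section

set_option autoImplicit false
open MeasureTheory ENNReal Set Function Filter Topology Pointwise

namespace Pool.Agent.MP_5f4cdd_gt.W

open PL EF AB

variable {n k m : ℕ}

open TopologicalSpace in
lemma rlim_mem {K : ℕ → NonemptyCompacts (E n)} {L : NonemptyCompacts (E n)}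
    (h : Tendsto K atTop (𝓝 L)) {y : ℕ → E n} {x : E n} (hy : ∀ i, y i ∈ (K i : Set (E n)))
    (hx : Tendsto y atTop (𝓝 x)) : x ∈ (L : Set (E n)) := by
  have h1 := (Metric.uniformContinuous_infDist_Hausdorff_dist.continuous.tendsto (x, L)).comp
    (hx.prodMk_nhds h)
  have h2 : ((fun p : E n × NonemptyCompacts (E n) => Metric.infDist p.1 p.2) ∘
      fun i => (y i, K i)) = fun _ => 0 := funext fun i => Metric.infDist_zero_of_mem (hy i)
  rw [h2] at h1
  exact (L.isCompact.isClosed.mem_iff_infDist_zero L.nonempty).2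
    (tendsto_nhds_unique h1 tendsto_const_nhds)

open TopologicalSpace in
lemma rlim_seq {K : ℕ → NonemptyCompacts (E n)} {L : NonemptyCompacts (E n)}
    (h : Tendsto K atTop (𝓝 L)) {x : E n} (hx : x ∈ (L : Set (E n))) :
    ∃ y : ℕ → E n, (∀ i, y i ∈ (K i : Set (E n))) ∧ Tendsto y atTop (𝓝 x) := by
  choose y hy hd using fun i => (K i).isCompact.exists_infDist_eq_dist (K i).nonempty x
  refine ⟨y, hy, ?_⟩
  have h1 := ((Metric.lipschitz_infDist_set x).continuous.tendsto L).comp h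
  rw [Metric.infDist_zero_of_mem hx] at h1
  rw [tendsto_iff_dist_tendsto_zero]
  refine h1.congr fun i => ?_
  rw [dist_comm, ← hd i]
  rfl

open TopologicalSpace in
lemma rlim_map {K : ℕ → NonemptyCompacts (E n)} {L : NonemptyCompacts (E n)}
    (h : Tendsto K atTop (𝓝 L)) {f : E n → E n} (hf : Continuous f)
    (hK : ∀ i, ∀ x ∈ (K i : Set (E n)), f x ∈ (K i : Set (E n))) {x : E n}
    (hx : x ∈ (L : Set (E n))) : f x ∈ (L : Set (E n)) := by
  obtain ⟨y, hy, ht⟩ := rlim_seq h hx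
  exact rlim_mem h (fun i => hK i _ (hy i)) ((hf.tendsto x).comp ht)

lemma rlim_single {V : Submodule ℝ (E n)} {y : E n} {i : Fin n} {c : ℝ} (hy : y ∈ V)
    (hu : update y i c ∈ V) (hc : y i ≠ c) : (Pi.single i 1 : E n) ∈ V := by
  have h1 : y - update y i c = (y i - c) • (Pi.single i 1 : E n) := by
    ext l
    by_cases hl : l = i
    · subst hl
      simp
    · simp [hl]
  have h2 := V.sub_mem hy hu
  rwa [h1, V.smul_mem_iff (sub_ne_zero.2 hc)] at h2

lemma rlim_sum {V : Submodule ℝ (E n)} {y : E n}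
    (h : ∀ i, y i ≠ 0 → (Pi.single i 1 : E n) ∈ V) : y ∈ V := by
  rw [pi_eq_sum_univ' y]
  refine V.sum_mem fun i _ => ?_
  by_cases hi : y i = 0
  · rw [hi, zero_smul]
    exact V.zero_mem
  · exact V.smul_mem _ (h i hi)

lemma rlim_bs_update {g : Fin n → Fin 3} {j : Fin 3} {i : Fin n} (hi : g i = j) (x : E n)
    (c : ℝ) : bs g (update x i c) j = bs g x j - x i + c := by
  have h1 : update x i c = x + (c - x i) • (Pi.single i 1 : E n) := by
    ext l
    by_cases hl : l = i
    · subst hl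
      simp
    · simp [hl]
  have h2 : bs g (Pi.single i 1 : E n) j = 1 := by
    change ∑ l with g l = j, (Pi.single i 1 : E n) l = 1
    rw [Finset.sum_eq_single i (fun l _ hl => by simp [hl]) fun hl => absurd (by simpa) hl]
    simp
  rw [h1, map_add, map_smul, Pi.add_apply, Pi.smul_apply, h2, smul_eq_mul]
  ring

lemma rlim_A {g : Fin n → Fin 3} {j : Fin 3} {L : Set (E n)} (hL : AInv g j L) {x : E n}
    (hx : x ∈ L) {i : Fin n} (hi : g i = j) (h0 : x i ≠ 0) {l : Fin n} (hl : g l = j) :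
    (Pi.single l 1 : E n) ∈ Submodule.span ℝ L := by
  by_cases h : x l = -bs g x j
  swap
  · exact rlim_single (Submodule.subset_span hx) (Submodule.subset_span (hL x hx l hl)) h
  obtain ⟨a, ha, hne⟩ : ∃ a, g a = j ∧ x a ≠ -bs g x j := by
    by_contra hcon
    push Not at hcon
    have h1 : ∑ a with g a = j, x a = ∑ a with g a = j, -bs g x j :=
      Finset.sum_congr rfl fun a ha => hcon a (Finset.mem_filter.1 ha).2
    rw [Finset.sum_const, nsmul_eq_mul] at h1
    change bs g x j = _ at h1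
    have h2 : (((Finset.univ.filter fun a => g a = j).card : ℝ) + 1) * bs g x j = 0 := by
      linarith
    rcases mul_eq_zero.1 h2 with h3 | h3
    · exact absurd h3 (Nat.cast_add_one_ne_zero _)
    · exact h0 (by rw [hcon i hi, h3, neg_zero])
  have hla : l ≠ a := fun e => hne (e ▸ h)
  have hx' := hL x hx a ha
  refine rlim_single (Submodule.subset_span hx') (Submodule.subset_span (hL _ hx' l hl)) ?_
  rw [update_of_ne hla, rlim_bs_update ha, h]
  intro e
  exact hne (by linarith)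

lemma rlim_B {g : Fin n → Fin 3} {j : Fin 3} {L : Set (E n)} (hL : BInv g j L) {x : E n}
    (hx : x ∈ L) {i : Fin n} (hi : g i = j) (h0 : x i ≠ 0) {l : Fin n} (hl : g l = j) :
    (Pi.single l 1 : E n) ∈ Submodule.span ℝ L := by
  have hy := hL.2 x hx i l hi hl
  refine rlim_single (Submodule.subset_span hy) (Submodule.subset_span (hL.1 _ hy l hl)) ?_
  simp only [comp_apply, Equiv.swap_apply_right]
  intro e
  exact h0 (by linarith)

lemma rlim_span {g : Fin n → Fin 3} {A B : Set (Fin 3)} (hg : BlkR g A B)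
    (hAB : (A ∪ B).Nonempty) {L : Set (E n)} (hA : ∀ j ∈ A, AInv g j L)
    (hB : ∀ j ∈ B, BInv g j L) (h0 : ∀ i, g i = 0 → (Pi.single i 1 : E n) ∈ L)
    (hx : ∀ j, ∃ x ∈ L, ∃ i, g i = j ∧ x i ≠ 0) : Submodule.span ℝ L = ⊤ := by
  have h1 : ∀ l, g l = 0 ∨ g l ∈ A ∨ g l ∈ B → (Pi.single l 1 : E n) ∈ Submodule.span ℝ L := by
    intro l hl
    obtain ⟨x, hxL, i, hi, hx0⟩ := hx (g l)
    rcases hl with hl | hl | hl
    · exact Submodule.subset_span (h0 l hl)
    · exact rlim_A (hA _ hl) hxL hi hx0 rfl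
    · exact rlim_B (hB _ hl) hxL hi hx0 rfl
  refine eq_top_iff.2 fun y _ => rlim_sum fun l _ => ?_
  by_cases hl : g l = 0 ∨ g l ∈ A ∨ g l ∈ B
  · exact h1 l hl
  push Not at hl
  obtain ⟨x, hxL, i, hi, hx0⟩ := hx (g l)
  obtain rfl : l = i := hg.one l i hi.symm hl.2.1 hl.2.2
  refine rlim_single (c := 0) (Submodule.subset_span hxL) (rlim_sum fun a ha => h1 a ?_) hx0
  by_contra hcon
  push Not at hcon
  obtain ⟨j, hj⟩ := hAB
  have e0 : j ≠ 0 := by
    rintro rfl
    exact hj.elim hg.zA hg.zB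
  have e1 : g l ≠ j := by
    rintro rfl
    exact hj.elim hl.2.1 hl.2.2
  have e2 : g a ≠ j := by
    rintro rfl
    exact hj.elim hcon.2.1 hcon.2.2
  have e3 : ∀ p q r : Fin 3, r ≠ 0 → p ≠ 0 → q ≠ 0 → p ≠ r → q ≠ r → p = q := by
    intro p q r
    omega
  obtain rfl : a = l := hg.one a l (e3 _ _ j e0 hcon.1 hl.1 e2 e1) hcon.2.1 hcon.2.2
  exact ha (update_self ..)

theorem exists_limit {g : Fin n → Fin 3} {A B : Set (Fin 3)} (hg : BlkR g A B)
    (hAB : (A ∪ B).Nonempty) {K : ℕ → Set (E n)} (hK : ∀ i, Refl g A B (K i))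
    (hN : ∀ i, Nrm g (K i)) : ∃ (L : Set (E n)) (φ : ℕ → ℕ), Refl g A B L ∧ StrictMono φ ∧
      Tendsto (fun i => Metric.hausdorffDist L (K (φ i))) atTop (𝓝 0) := by
  let K' : ℕ → TopologicalSpace.NonemptyCompacts (E n) := fun i =>
    ⟨⟨K i, (hK i).1.comp⟩, ⟨0, (hN i).2.1⟩⟩
  have hb : IsCompact (Metric.closedBall (0 : E n) 1) := isCompact_closedBall 0 1
  obtain ⟨L, -, φ, hφ, ht⟩ :=
    (TopologicalSpace.NonemptyCompacts.isCompact_subsets_of_isCompact hb).tendsto_subseq
      (x := K') fun i => (hN i).1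
  have hconv : Convex ℝ (L : Set (E n)) := by
    intro x hx y hy a b ha hb hab
    obtain ⟨u, hu, hux⟩ := rlim_seq ht hx
    obtain ⟨v, hv, hvy⟩ := rlim_seq ht hy
    exact rlim_mem ht (fun i => (hK (φ i)).1.conv (hu i) (hv i) ha hb hab)
      ((hux.const_smul a).add (hvy.const_smul b))
  have hA : ∀ j ∈ A, AInv g j (L : Set (E n)) := fun j hj x hx i hi =>
    rlim_map ht (f := fun x => update x i (-bs g x j))
      (continuous_id.update i
        ((continuous_apply j).comp (bs g).continuous_of_finiteDimensional).neg)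
      (fun a y hy => (hK (φ a)).2.1 j hj y hy i hi) hx
  have hB : ∀ j ∈ B, BInv g j (L : Set (E n)) := fun j hj =>
    ⟨fun x hx i hi => rlim_map ht (f := fun x => update x i (-x i))
      (continuous_id.update i (continuous_apply i).neg)
      (fun a y hy => ((hK (φ a)).2.2 j hj).1 y hy i hi) hx,
    fun x hx i i' hi hi' => rlim_map ht (f := fun x => x ∘ Equiv.swap i i')
      (continuous_pi fun l => continuous_apply _)
      (fun a y hy => ((hK (φ a)).2.2 j hj).2 y hy i i' hi hi') hx⟩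
  have hz : (0 : E n) ∈ (L : Set (E n)) :=
    rlim_mem ht (fun i => (hN (φ i)).2.1) tendsto_const_nhds
  have h0 : ∀ i, g i = 0 → (Pi.single i 1 : E n) ∈ (L : Set (E n)) := fun i hi =>
    rlim_mem ht (fun a => (hN (φ a)).2.2.1 i hi) tendsto_const_nhds
  have hx : ∀ j, ∃ x ∈ (L : Set (E n)), ∃ i, g i = j ∧ x i ≠ 0 := by
    intro j
    choose y hy hC using fun a => (hN (φ a)).2.2.2 j
    obtain ⟨x, -, ψ, hψ, hx⟩ := hb.tendsto_subseq (x := y) fun a => (hN (φ a)).1 (hy a)
    have hcl : IsClosed {x : E n | ∃ i, g i = j ∧ 1 ≤ |x i|} := by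
      rw [ofPred_exists]
      refine isClosed_iUnion_of_finite fun i => ?_
      exact isClosed_const.inter (isClosed_le continuous_const (continuous_apply i).abs)
    obtain ⟨i, hi, h1⟩ := hcl.mem_of_tendsto hx (Eventually.of_forall fun a => hC (ψ a))
    exact ⟨x, rlim_mem (ht.comp hψ.tendsto_atTop) (fun a => hy (ψ a)) hx, i, hi,
      abs_pos.1 (one_pos.trans_le h1)⟩
  refine ⟨L, φ, ⟨⟨hconv, L.isCompact, ?_⟩, hA, hB⟩, hφ, ?_⟩
  · rw [hconv.interior_nonempty_iff_affineSpan_eq_top]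
    have h1 := affineSpan_insert_zero (k := ℝ) (L : Set (E n))
    rw [insert_eq_of_mem hz, rlim_span hg hAB hA hB h0 hx] at h1
    exact SetLike.coe_injective h1
  · refine (tendsto_iff_dist_tendsto_zero.1 ht).congr fun i => ?_
    rw [dist_comm]
    rfl

end Pool.Agent.MP_5f4cdd_gt.W

end
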