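import Pool.Agent.Mg.F5f4cdd.Ga9665c

section

set_option autoImplicit false
open MeasureTheory ENNReal Set Matrix Topology Filter

namespace Pool.Agent.MP_5f4cdd_gt

variable {n : ℕ}

/-- volume of the centred simplex -/
noncomputable def Vs (n : ℕ) : ℝ := (volume (cS n 1)).toReal

lemma Vs_pos : 0 < Vs n :=
  ENNReal.toReal_pos (volume_cS_pos one_pos).ne' (volume_cS_lt_top zero_le_one).ne

/-- moment generating function of the centred simplex -/
noncomputable def Mg (ξ : E n) : ℝ := Zs 1 ξ / Vs n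

/-- support function of the centred simplex -/
noncomputable def hs (ξ : E n) : ℝ := supp (cS n 1) ξ

lemma Zs_eq_Mg (p : ℝ) (y : E n) : Zs p y = Vs n * Mg (p • y) := by
  rw [Mg, mul_div_cancel₀ _ Vs_pos.ne']
  simp [Zs, Lap]

lemma Mg_pos (ξ : E n) : 0 < Mg ξ := div_pos (Zs_pos 1 ξ) Vs_pos

lemma measurable_Mg : Measurable (Mg (n := n)) := (measurable_Zs 1).div_const _

lemma continuous_hs : Continuous (hs (n := n)) := continuous_supp (isCompact_cS zero_le_one)

lemma hs_smul {c : ℝ} (hc : 0 ≤ c) (ξ : E n) : hs (c • ξ) = c * hs ξ :=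
  supp_smul (isCompact_cS zero_le_one) ⟨_, vtx_mem 0⟩ hc ξ

lemma dot_le_hs {x : E n} (hx : x ∈ cS n 1) (ξ : E n) : x ⬝ᵥ ξ ≤ hs ξ :=
  le_supp (isCompact_cS zero_le_one) hx ξ

lemma hs_nonneg (ξ : E n) : 0 ≤ hs ξ := by
  simpa using dot_le_hs (interior_subset (zero_mem_interior_cS one_pos)) ξ

lemma exists_hs (ξ : E n) : ∃ j, hs ξ = eta ξ j ∧ ∀ i, eta ξ i ≤ eta ξ j := by
  obtain ⟨j, -, hj⟩ := Finset.exists_max_image Finset.univ (eta ξ) Finset.univ_nonempty
  refine ⟨j, le_antisymm ?_ (dot_le_hs (vtx_mem j) ξ), fun i => hj i (Finset.mem_univ i)⟩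
  obtain ⟨x, hx, he⟩ := exists_supp (isCompact_cS (n := n) zero_le_one) ⟨_, vtx_mem 0⟩ ξ
  rw [hs, ← he, ← sub_nonneg, eta_sub_dot]
  exact Finset.sum_nonneg fun i _ =>
    mul_nonneg (mem_cS_one.1 hx i) (sub_nonneg.2 (hj i (Finset.mem_univ i)))

lemma image_Tp (σ : Equiv.Perm (Fin (n + 1))) : Tp σ '' cS n 1 = cS n 1 := by
  ext z
  constructor
  · rintro ⟨x, hx, rfl⟩; exact (Tp_mem_cS σ).2 hx
  · intro hz
    exact ⟨Tp σ⁻¹ z, (Tp_mem_cS _).2 hz, by rw [Tp_Tp, inv_mul_cancel, Tp_one]⟩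

lemma hs_adj (σ : Equiv.Perm (Fin (n + 1))) (ξ : E n) : hs (adj (Tp σ) ξ) = hs ξ := by
  rw [hs, ← supp_image_lin, image_Tp, hs]

lemma sum_gap (ξ : E n) (j : Fin (n + 1)) : ∑ i, (eta ξ j - eta ξ i) = (n + 1) * eta ξ j := by
  simp [Finset.sum_sub_distrib, sum_eta]

lemma dot_eq_bet (x ξ : E n) : x ⬝ᵥ ξ = ∑ i, bet n x i * eta ξ i := by
  simp only [dot_eq_sum, lam, add_mul, Finset.sum_add_distrib, ← Finset.mul_sum, sum_eta, mul_zero,
    add_zero]

lemma abs_dot_le {r : ℝ} (hr : 0 ≤ r) {x : E n} (hx : x ∈ cS n r) (ξ : E n) :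
    |x ⬝ᵥ ξ| ≤ r * (n + 1) * hs ξ := by
  obtain ⟨j, he, hj⟩ := exists_hs ξ
  have h1 : x ⬝ᵥ ξ = ∑ i, -(bet n x i * (eta ξ j - eta ξ i)) := by
    simp only [mul_sub, neg_sub, Finset.sum_sub_distrib, ← Finset.sum_mul, sum_bet, zero_mul,
      sub_zero, dot_eq_bet]
  rw [h1, he, mul_assoc, ← sum_gap, Finset.mul_sum]
  refine (Finset.abs_sum_le_sum_abs _ _).trans (Finset.sum_le_sum fun i _ => ?_)
  rw [abs_neg, abs_mul, abs_of_nonneg (sub_nonneg.2 (hj i))]
  exact mul_le_mul_of_nonneg_right (abs_bet_le hr hx i) (sub_nonneg.2 (hj i))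

lemma integrableOn_cS {f : E n → ℝ} (hf : Continuous f) : IntegrableOn f (cS n 1) :=
  hf.continuousOn.integrableOn_compact (isCompact_cS zero_le_one)

lemma integral_dot_cS (ξ : E n) : ∫ z in cS n 1, z ⬝ᵥ ξ = 0 := by
  have h1 : ∀ j, ∫ z in cS n 1, lam z j = (mu n univ).toReal / (n + 1) := by
    intro j
    rw [← integral_coord_mu j, mu, integral_map continuous_ubet.measurable.aemeasurable
      (measurable_pi_apply j).aestronglyMeasurable]
    simp only [lam, Pi.add_apply, uu, add_comm]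
  simp only [dot_eq_sum]
  rw [integral_finsetSum _ fun j _ => (integrableOn_cS (continuous_lam j)).mul_const _]
  simp only [integral_mul_const, h1, ← Finset.mul_sum, sum_eta, mul_zero]

lemma integral_affine_cS (c : ℝ) (ξ : E n) : ∫ z in cS n 1, (c + z ⬝ᵥ ξ) = Vs n * c := by
  rw [integral_add (integrableOn_cS continuous_const) (integrableOn_cS (continuous_dot_left ξ)),
    integral_dot_cS, add_zero, setIntegral_const, smul_eq_mul]
  rfl

lemma Zs_one (ξ : E n) : Zs 1 ξ = ∫ z in cS n 1, Real.exp (z ⬝ᵥ ξ) := by simp [Zs, Lap]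

lemma continuous_exp_dot' (ξ : E n) : Continuous fun z : E n => Real.exp (z ⬝ᵥ ξ) :=
  Real.continuous_exp.comp (continuous_dot_left ξ)

lemma Mg_le_exp (ξ : E n) : Mg ξ ≤ Real.exp (hs ξ) := by
  have := Lap_le_exp zero_le_one (isCompact_cS zero_le_one) fun x hx => dot_le_hs hx ξ
  rw [one_mul] at this
  rw [Mg, div_le_iff₀' Vs_pos]
  exact this

lemma Mg_le_quad {ξ : E n} (h : (n + 1) * hs ξ ≤ 1) : Mg ξ ≤ 1 + ((n + 1) * hs ξ) ^ 2 := by
  rw [Mg, div_le_iff₀' Vs_pos, ← integral_affine_cS _ ξ, Zs_one]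
  refine setIntegral_mono_on (integrableOn_cS (continuous_exp_dot' ξ))
    (integrableOn_cS (continuous_const.add (continuous_dot_left ξ))) (measurableSet_cS 1)
    fun z hz => ?_
  have h1 := abs_dot_le zero_le_one hz ξ
  rw [one_mul] at h1
  have h2 := (abs_le.1 (Real.abs_exp_sub_one_sub_id_le (h1.trans h))).2
  have h3 : (z ⬝ᵥ ξ) ^ 2 ≤ ((n + 1) * hs ξ) ^ 2 := sq_le_sq' (abs_le.1 h1).1 (abs_le.1 h1).2
  linarith

lemma Mg_lower (n : ℕ) : ∃ c : ℝ, 0 < c ∧ ∀ ξ : E n,
    1 + c * hs ξ ^ 2 ≤ Mg ξ ∧ c * Real.exp (hs ξ / 2) ≤ Mg ξ := by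
  set d : ℝ := 1 / (2 * (n + 1)) with hd
  have hd0 : 0 < d := by positivity
  have hde : d * (n + 1) = 1 / 2 := by rw [hd]; field_simp
  have hd1 : d ≤ 1 := by nlinarith [(Nat.cast_nonneg n : (0 : ℝ) ≤ n)]
  refine ⟨d ^ n / 8, by positivity, fun ξ => ?_⟩
  obtain ⟨j, he, hj⟩ := exists_hs ξ
  have hs0 := hs_nonneg ξ
  have hV := Vs_pos (n := n)
  have hm := measurableSet_corner (n := n) j d
  have h1 : d ^ n * Vs n ≤ volume.real (corner n j d) := by
    have h2 := Lap_corner_scale (p := 0) (δ := 1) le_rfl hd0 hd1 hj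
    have h3 : corner n j 1 = cS n 1 :=
      (corner_subset j 1).antisymm fun x hx => ⟨hx, by simpa using mem_cS_one.1 hx j⟩
    simpa [Lap, h3, Vs, measureReal_def] using h2
  have h2 : ∀ z ∈ corner n j d, hs ξ / 2 ≤ z ⬝ᵥ ξ := by
    intro z hz
    have h3 : eta ξ j - z ⬝ᵥ ξ ≤ ∑ i, d * (eta ξ j - eta ξ i) := by
      rw [eta_sub_dot]
      refine Finset.sum_le_sum fun i _ => ?_
      by_cases hi : i = j
      · simp [hi]
      · exact mul_le_mul_of_nonneg_right (by linarith [lam_le hz.1 hi, hz.2]) (sub_nonneg.2 (hj i))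
    rw [← Finset.mul_sum, sum_gap, ← mul_assoc, hde] at h3
    linarith
  have key : ∀ (g : E n → ℝ) (a : ℝ), Continuous g → 0 ≤ a → (∀ z, 0 ≤ g z) →
      (∀ z ∈ corner n j d, a ≤ g z) → d ^ n * Vs n * a ≤ ∫ z in cS n 1, g z := by
    intro g a hg ha h0 h
    have h4 := setIntegral_ge_of_const_le_real hm (ne_top_of_le_ne_top
      (volume_cS_lt_top zero_le_one).ne (measure_mono (corner_subset j d))) h
      ((integrableOn_cS hg).mono_set (corner_subset j d))
    have h5 := setIntegral_mono_set (integrableOn_cS hg) (Eventually.of_forall h0)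
      (corner_subset j d).eventuallyLE
    nlinarith [mul_le_mul_of_nonneg_right h1 ha]
  constructor
  · have h3 := key (fun z => Real.exp (z ⬝ᵥ ξ) - (1 + z ⬝ᵥ ξ)) (hs ξ ^ 2 / 8)
      ((continuous_exp_dot' ξ).sub (continuous_const.add (continuous_dot_left ξ))) (by positivity)
      (fun z => by linarith [Real.add_one_le_exp (z ⬝ᵥ ξ)]) fun z hz => by
        have h4 := h2 z hz
        nlinarith [Real.quadratic_le_exp_of_nonneg (show 0 ≤ z ⬝ᵥ ξ by linarith)]
    rw [integral_sub (g := fun z => 1 + z ⬝ᵥ ξ) (integrableOn_cS (continuous_exp_dot' ξ))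
      (integrableOn_cS (continuous_const.add (continuous_dot_left ξ))), integral_affine_cS,
      ← Zs_one] at h3
    rw [Mg, le_div_iff₀ hV]
    linarith
  · have h3 := key (fun z => Real.exp (z ⬝ᵥ ξ)) (Real.exp (hs ξ / 2)) (continuous_exp_dot' ξ)
      (Real.exp_pos _).le (fun z => (Real.exp_pos _).le) fun z hz => Real.exp_le_exp.2 (h2 z hz)
    rw [← Zs_one] at h3
    rw [Mg, le_div_iff₀ hV]
    have : 0 < d ^ n * Vs n * Real.exp (hs ξ / 2) := by positivity
    linarith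

lemma one_le_Mg (ξ : E n) : 1 ≤ Mg ξ := by
  obtain ⟨c, hc, h⟩ := Mg_lower n
  nlinarith [(h ξ).1, sq_nonneg (hs ξ)]

lemma Mg_smul_le {t : ℝ} (h0 : 0 ≤ t) (h1 : t ≤ 1) (ξ : E n) : Mg (t • ξ) ≤ Mg ξ ^ t := by
  have hM := Mg_pos ξ
  have hV := Vs_pos (n := n)
  have h2 : Zs 1 (t • ξ) ≤ ∫ z in cS n 1,
      Mg ξ ^ t * ((1 - t) + t / Mg ξ * Real.exp (z ⬝ᵥ ξ)) := by
    rw [Zs_one]
    refine setIntegral_mono_on (integrableOn_cS (continuous_exp_dot' _)) (integrableOn_cS
      (continuous_const.mul (continuous_const.add (continuous_const.mul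
        (continuous_exp_dot' ξ))))) (measurableSet_cS 1) fun z _ => ?_
    have h3 := rpow_one_add_le_one_add_mul_self (s := Real.exp (z ⬝ᵥ ξ) / Mg ξ - 1)
      (by linarith [div_pos (Real.exp_pos (z ⬝ᵥ ξ)) hM]) h0 h1
    rw [add_sub_cancel, Real.div_rpow (Real.exp_pos _).le hM.le, ← Real.exp_mul,
      div_le_iff₀' (by positivity)] at h3
    rw [dotProduct_smul, smul_eq_mul, mul_comm t]
    refine h3.trans (le_of_eq ?_)
    ring
  rw [integral_const_mul, integral_add (integrableOn_cS continuous_const)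
    ((integrableOn_cS (continuous_exp_dot' ξ)).const_mul _), integral_const_mul (t / Mg ξ),
    ← Zs_one, setIntegral_const, smul_eq_mul] at h2
  have h3 : Zs 1 ξ = Vs n * Mg ξ := by rw [Zs_eq_Mg, one_smul]
  rw [Mg, div_le_iff₀ hV]
  refine h2.trans (le_of_eq ?_)
  rw [h3, measureReal_def]
  change _ * (Vs n * _ + _) = _
  field_simp
  ring

lemma exp_sub_le_Mg (n : ℕ) : ∃ k : ℝ, 1 ≤ k ∧ ∀ x ∈ cS n (5 / 4), ∀ ξ : E n,
    Real.exp (x ⬝ᵥ ξ) - x ⬝ᵥ ξ ≤ Mg ξ ^ k := by
  obtain ⟨c, hc, h⟩ := Mg_lower n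
  set A : ℝ := 5 / 4 * (n + 1) with hA
  have hA1 : 1 ≤ A := by rw [hA]; linarith [(Nat.cast_nonneg n : (0 : ℝ) ≤ n)]
  have hA0 : 0 < A := by linarith
  obtain ⟨k₁, hk₁⟩ := pow_unbounded_of_one_lt (1 / c) (show 1 < 1 + c / A ^ 2 from
    lt_add_of_pos_right _ (by positivity))
  refine ⟨max (A ^ 2 / c + 1) ((k₁ + 1) * (2 * A)), le_max_of_le_left
    (le_add_of_nonneg_left (by positivity)), fun x hx ξ => ?_⟩
  have h1 := abs_dot_le (by norm_num) hx ξ
  rw [← hA] at h1
  have hM := one_le_Mg ξ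
  have hs0 := hs_nonneg ξ
  set u := x ⬝ᵥ ξ with hu
  rcases le_total (A * hs ξ) 1 with h2 | h2
  · refine le_trans ?_ (Real.rpow_le_rpow_of_exponent_le hM (le_max_left _ _))
    have h3 := (abs_le.1 (Real.abs_exp_sub_one_sub_id_le (h1.trans h2))).2
    have h4 : u ^ 2 ≤ (A * hs ξ) ^ 2 := sq_le_sq' (abs_le.1 h1).1 (abs_le.1 h1).2
    have h5 := one_add_mul_self_le_rpow_one_add (s := Mg ξ - 1) (by linarith)
      (p := A ^ 2 / c + 1) (le_add_of_nonneg_left (by positivity))
    rw [add_sub_cancel] at h5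
    have h6 : A ^ 2 / c * (c * hs ξ ^ 2) ≤ A ^ 2 / c * (Mg ξ - 1) :=
      mul_le_mul_of_nonneg_left (by linarith [(h ξ).1]) (by positivity)
    have h7 : A ^ 2 / c * (c * hs ξ ^ 2) = (A * hs ξ) ^ 2 := by field_simp
    nlinarith
  · refine le_trans ?_ (Real.rpow_le_rpow_of_exponent_le hM (le_max_right _ _))
    have h3 : Real.exp u - u ≤ Real.exp (A * hs ξ) := by
      refine le_trans ?_ (Real.exp_le_exp.2 h1)
      rcases le_total 0 u with h | h
      · rw [abs_of_nonneg h]; linarith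
      · rw [abs_of_nonpos h]
        linarith [Real.add_one_le_exp (-u), Real.exp_le_one_iff.2 h]
    have h4 : 1 + c / A ^ 2 ≤ Mg ξ := by
      refine le_trans ?_ (h ξ).1
      have : c / A ^ 2 ≤ c * hs ξ ^ 2 := by
        rw [div_le_iff₀ (by positivity), mul_assoc]
        exact le_mul_of_one_le_right hc.le (by nlinarith)
      linarith
    have h5 : 1 / c ≤ Mg ξ ^ k₁ := hk₁.le.trans (pow_le_pow_left₀ (by positivity) h4 _)
    have h6 : Real.exp (hs ξ / 2) ≤ Mg ξ ^ (k₁ + 1) := by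
      have h7 := mul_le_mul h5 (h ξ).2 (by positivity) (by positivity)
      rw [← mul_assoc, one_div_mul_cancel hc.ne', one_mul] at h7
      rwa [pow_succ]
    have h7 := Real.rpow_le_rpow (Real.exp_pos _).le h6 (show 0 ≤ 2 * A by positivity)
    rw [← Real.exp_mul, ← Real.rpow_natCast, ← Real.rpow_mul (by linarith)] at h7
    push_cast at h7
    refine h3.trans (le_trans (le_of_eq ?_) h7)
    ring_nf

lemma exp_le_Mg (n : ℕ) {a : ℝ} (ha : 0 < a) : ∃ C : ℝ, 0 < C ∧ ∀ x ∈ cS n (1 + a / 4), ∀ ξ : E n,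
    Real.exp (x ⬝ᵥ ξ) ≤ C * Mg ξ ^ (1 + a / 2) := by
  set τ := (1 + a / 4) / (1 + a / 2) with hτ
  have hτ0 : 0 < τ := by positivity
  have hτ1 : τ < 1 := by rw [hτ, div_lt_one (by positivity)]; linarith
  have hτe : τ * (1 + a / 2) = 1 + a / 4 := by rw [hτ]; field_simp
  obtain ⟨c, hc⟩ := Lap_lower (n := n) one_pos (t := 1 - τ) (by linarith) (by linarith)
  refine ⟨Real.exp ((Real.log (Vs n) - c) * (1 + a / 2)), Real.exp_pos _, fun x hx ξ => ?_⟩
  have hx₀ : (1 + a / 4)⁻¹ • x ∈ cS n 1 := by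
    have := (smul_mem_cS (a := (1 + a / 4)⁻¹) (by positivity)).2 hx
    rwa [inv_mul_cancel₀ (by positivity)] at this
  have h2 := hc _ hx₀ ξ
  change _ ≤ Real.log (Zs 1 ξ) at h2
  rw [Zs_eq_Mg, one_smul, Real.log_mul Vs_pos.ne' (Mg_pos ξ).ne', smul_dotProduct, smul_eq_mul,
    _root_.sub_sub_cancel, one_mul] at h2
  rw [Real.rpow_def_of_pos (Mg_pos ξ), ← Real.exp_add, Real.exp_le_exp]
  have h3 := mul_le_mul_of_nonneg_right h2 (show 0 ≤ 1 + a / 2 by positivity)
  have h4 : τ * ((1 + a / 4)⁻¹ * x ⬝ᵥ ξ) * (1 + a / 2) = x ⬝ᵥ ξ := by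
    rw [mul_right_comm, hτe]; field_simp
  linarith

end Pool.Agent.MP_5f4cdd_gt

end

section

set_option autoImplicit false
open MeasureTheory ENNReal Set Matrix Topology Filter

namespace Pool.Agent.MP_5f4cdd_gt

variable {n : ℕ}

/-- the dual weight -/
noncomputable def Wt (p : ℝ) (y : E n) : ℝ := Zs p y ^ (-(1 / p))

lemma Wt_pos (p : ℝ) (y : E n) : 0 < Wt p y := Real.rpow_pos_of_pos (Zs_pos p y) _

lemma Wt_eq (p : ℝ) (y : E n) : Wt p y = Vs n ^ (-(1 / p)) * Mg (p • y) ^ (-(1 / p)) := by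
  rw [Wt, Zs_eq_Mg, Real.mul_rpow Vs_pos.le (Mg_pos _).le]

lemma integrable_Wt {p : ℝ} (hp : 0 < p) : Integrable (Wt (n := n) p) := integrable_wt hp

lemma integral_Wt (p : ℝ) : ∫ y : E n, Wt p y = Jp n p := rfl

lemma integral_Wt_smul (p : ℝ) {t : ℝ} (ht : 0 < t) :
    ∫ y : E n, Wt p (t • y) = (t ^ n)⁻¹ * Jp n p := by
  have h1 := Measure.integral_comp_smul_of_nonneg volume (Wt (n := n) p) t (hR := ht.le)
  simpa [integral_Wt] using h1

lemma measurable_Mg_smul (p : ℝ) : Measurable fun y : E n => Mg (p • y) :=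
  measurable_Mg.comp (measurable_const_smul p)

lemma moment {p k : ℝ} (hp : 0 < p) (hk : 0 ≤ k) (hkp : k * p < 1) :
    Integrable (fun y : E n => Mg (p • y) ^ k * Wt p y) ∧
      ∫ y : E n, Mg (p • y) ^ k * Wt p y ≤ ((1 - k * p) ^ n)⁻¹ * Jp n p := by
  have ht : 0 < 1 - k * p := by linarith
  have h1 : ∀ y : E n, Mg (p • y) ^ k * Wt p y ≤ Wt p ((1 - k * p) • y) := by
    intro y
    rw [Wt_eq, Wt_eq, mul_left_comm, ← Real.rpow_add (Mg_pos _), smul_comm]
    refine mul_le_mul_of_nonneg_left ?_ (Real.rpow_pos_of_pos Vs_pos _).le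
    refine le_trans (le_of_eq ?_) (Real.rpow_le_rpow_of_nonpos (Mg_pos _)
      (Mg_smul_le ht.le (by nlinarith) (p • y)) (neg_nonpos.2 (by positivity)))
    rw [← Real.rpow_mul (Mg_pos _).le]
    congr 1
    field_simp
    ring
  have h0 : ∀ y : E n, 0 ≤ Mg (p • y) ^ k * Wt p y := fun y =>
    mul_nonneg (Real.rpow_pos_of_pos (Mg_pos _) _).le (Wt_pos p y).le
  have hI := (integrable_Wt (n := n) hp).comp_smul ht.ne'
  refine ⟨hI.mono' (((measurable_Mg_smul p).pow_const _).mul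
    (measurable_wt p _)).aestronglyMeasurable (Eventually.of_forall fun y => ?_), ?_⟩
  · rw [Real.norm_eq_abs, abs_of_nonneg (h0 y)]; exact h1 y
  · rw [← integral_Wt_smul p ht]
    exact integral_mono_of_nonneg (Eventually.of_forall h0) hI (Eventually.of_forall h1)

lemma moment_half {p : ℝ} (hp : 0 < p) :
    Integrable (fun y : E n => Mg (p • y) ^ (1 / p / 2) * Wt p y) ∧
      ∫ y : E n, Mg (p • y) ^ (1 / p / 2) * Wt p y ≤ 2 ^ n * Jp n p := by
  have h1 : 1 / p / 2 * p = 1 / 2 := by field_simp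
  have h := moment (n := n) hp (k := 1 / p / 2) (by positivity) (by rw [h1]; norm_num)
  have h2 : (((1 : ℝ) - 1 / 2) ^ n)⁻¹ = 2 ^ n := by rw [← inv_pow]; norm_num
  rwa [h1, h2] at h

lemma ker_eq (p : ℝ) (x y : E n) :
    Vs n * (Real.exp (p * (x ⬝ᵥ y)) * Zs p y ^ (-(1 / p) - 1)) =
      Real.exp (x ⬝ᵥ (p • y)) / Mg (p • y) * Wt p y := by
  rw [Real.rpow_sub_one (Zs_pos p y).ne', Wt, dotProduct_smul, smul_eq_mul]
  nth_rewrite 2 [Zs_eq_Mg]
  have := Vs_pos (n := n)
  field_simp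

lemma Vs_Psi (p : ℝ) (x : E n) :
    Vs n * Psi p x = ∫ y : E n, Real.exp (x ⬝ᵥ (p • y)) / Mg (p • y) * Wt p y := by
  rw [Psi, ← integral_const_mul]
  simp only [ker_eq]

lemma integrable_ker' {p : ℝ} (hp : 0 < p) {x : E n} (hx : x ∈ cS n (1 + 1 / p / 4)) :
    Integrable fun y : E n => Real.exp (x ⬝ᵥ (p • y)) / Mg (p • y) * Wt p y := by
  simpa only [ker_eq] using (integrable_ker hp hx).const_mul (Vs n)

lemma integrable_dot_Wt {p : ℝ} (hp : 0 < p) (x : E n) :
    Integrable fun y : E n => (x ⬝ᵥ (p • y)) * Wt p y := by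
  simpa [Wt] using integrable_dot_wt hp (p • x)

lemma integral_dot_Wt {p : ℝ} (hp : 0 < p) (x : E n) :
    ∫ y : E n, (x ⬝ᵥ (p • y)) * Wt p y = 0 := by
  simpa [Wt] using integral_dot_wt hp (p • x)

/-- normalised potential -/
noncomputable def Theta (p : ℝ) (x : E n) : ℝ := 1 / p * (Vs n * Psi p x / Jp n p - 1)

lemma Theta_le (n : ℕ) {P : ℝ} (hP : 1 ≤ P) : ∃ C : ℝ, 0 ≤ C ∧ ∀ p, 0 < p → p ≤ P →
    ∀ x ∈ cS n (1 + 1 / P / 4), Theta p x ≤ C := by
  have hP0 : 0 < P := by linarith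
  obtain ⟨k, hk, h1⟩ := exp_sub_le_Mg n
  obtain ⟨C, hC, h2⟩ := exp_le_Mg n (a := 1 / P) (by positivity)
  refine ⟨max (n * k * 2 ^ n) (2 * k * (C * 2 ^ n)), le_max_of_le_left (by positivity),
    fun p hp hpP x hx => ?_⟩
  have hJ := Jp_pos (n := n) hp
  have hq : 1 / P ≤ 1 / p := one_div_le_one_div_of_le hp hpP
  have hI := integrable_ker' hp (cS_mono (by linarith) hx)
  rw [Theta, Vs_Psi]
  rcases le_total (k * p) (1 / 2) with h | h
  · refine le_max_of_le_left ?_
    obtain ⟨i1, h3⟩ := moment (n := n) hp (by linarith) (h.trans_lt (by norm_num))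
    have hx' : x ∈ cS n (5 / 4) := cS_mono (by linarith [(div_le_one hP0).2 hP]) hx
    have h4 := integral_mono hI (i1.add (integrable_dot_Wt hp x)) fun y => by
      have h5 := h1 x hx' (p • y)
      have h6 := div_le_self (Real.exp_pos (x ⬝ᵥ (p • y))).le (one_le_Mg (p • y))
      simp only [Pi.add_apply]
      nlinarith [Wt_pos p y]
    rw [integral_add' i1 (integrable_dot_Wt hp x), integral_dot_Wt hp, add_zero] at h4
    have h5 : 1 + (n : ℝ) * (-(k * p)) ≤ (1 + -(k * p)) ^ n := one_add_mul_le_pow (by linarith) n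
    rw [← sub_eq_add_neg 1] at h5
    have h6 : (1 / 2 : ℝ) ^ n ≤ (1 - k * p) ^ n := pow_le_pow_left₀ (by norm_num) (by linarith) n
    have h7 : 0 < (1 - k * p) ^ n := lt_of_lt_of_le (by positivity) h6
    have h8 : ((1 - k * p) ^ n)⁻¹ ≤ 1 + p * (n * k * 2 ^ n) := by
      rw [inv_le_iff_one_le_mul₀ h7]
      have h9 : (1 : ℝ) ≤ 2 ^ n * (1 - k * p) ^ n := by
        have := mul_le_mul_of_nonneg_left h6 (show (0 : ℝ) ≤ 2 ^ n by positivity)
        rwa [← mul_pow, mul_one_div_cancel two_ne_zero, one_pow] at this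
      nlinarith [mul_le_mul_of_nonneg_left h9 (show 0 ≤ p * n * k by positivity)]
    rw [one_div, inv_mul_le_iff₀ hp, sub_le_iff_le_add', div_le_iff₀ hJ]
    exact h4.trans (h3.trans (mul_le_mul_of_nonneg_right h8 hJ.le))
  · refine le_max_of_le_right ?_
    obtain ⟨i1, h3⟩ := moment_half (n := n) hp
    have h4 := integral_mono hI (i1.const_mul C) fun y => by
      have hM := one_le_Mg (p • y)
      have h5 := h2 x hx (p • y)
      rw [Real.rpow_add (by linarith), Real.rpow_one, mul_left_comm,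
        ← div_le_iff₀' (by linarith)] at h5
      have h6 := Real.rpow_le_rpow_of_exponent_le hM (show 1 / P / 2 ≤ 1 / p / 2 by linarith)
      simp only
      rw [← mul_assoc]
      exact mul_le_mul_of_nonneg_right (h5.trans (by gcongr)) (Wt_pos p y).le
    rw [integral_const_mul] at h4
    have h5 : (∫ y : E n, Real.exp (x ⬝ᵥ (p • y)) / Mg (p • y) * Wt p y) / Jp n p ≤ C * 2 ^ n := by
      rw [div_le_iff₀ hJ]
      nlinarith [mul_le_mul_of_nonneg_left h3 hC.le]
    have h6 : 1 / p ≤ 2 * k := by rw [div_le_iff₀ hp]; linarith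
    calc _ ≤ 1 / p * (C * 2 ^ n) := mul_le_mul_of_nonneg_left (by linarith) (by positivity)
      _ ≤ _ := by gcongr

lemma le_Theta {p : ℝ} (hp : 0 < p) {x : E n} (hx : x ∈ cS n (1 + 1 / p / 4)) :
    -(2 * 2 ^ n) ≤ Theta p x := by
  have hJ := Jp_pos (n := n) hp
  obtain ⟨i1, h3⟩ := moment_half (n := n) hp
  have i2 := (integrable_Wt hp).add (integrable_dot_Wt hp x)
  have h4 := integral_mono (i2.sub (i1.const_mul (2 * p))) (integrable_ker' hp hx) fun y => by
    have hM := Mg_pos (p • y)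
    have h5 := Real.add_one_le_exp (x ⬝ᵥ (p • y) - Real.log (Mg (p • y)))
    rw [Real.exp_sub, Real.exp_log hM] at h5
    have h6 := Real.add_one_le_exp (Real.log (Mg (p • y)) * (1 / p / 2))
    rw [← Real.rpow_def_of_pos hM] at h6
    have h7 := mul_le_mul_of_nonneg_left h6 (show 0 ≤ 2 * p by positivity)
    have h8 : 2 * p * (Real.log (Mg (p • y)) * (1 / p / 2) + 1) = Real.log (Mg (p • y)) + 2 * p := by
      field_simp
    simp only [Pi.add_apply, Pi.sub_apply]
    nlinarith [Wt_pos p y]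
  rw [integral_sub' i2 (i1.const_mul _), integral_add' (integrable_Wt hp) (integrable_dot_Wt hp x),
    integral_dot_Wt hp, integral_const_mul, integral_Wt, ← Vs_Psi] at h4
  rw [Theta, one_div, le_inv_mul_iff₀ hp, le_sub_iff_add_le, le_div_iff₀ hJ]
  nlinarith [mul_le_mul_of_nonneg_left h3 hp.le]

lemma exp_gap1 (t : ℝ) : t ^ 2 / 4 * Real.exp (-|t|) ≤ Real.exp t - 1 - t := by
  have h1 : Real.exp t = Real.exp (t / 2) ^ 2 := by rw [← Real.exp_nat_mul]; congr 1; push_cast; ring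
  have h2 := Real.add_one_le_exp (t / 2)
  have h3 : t ^ 2 / 4 * Real.exp (-|t|) ≤ (Real.exp (t / 2) - 1) ^ 2 := by
    rcases le_total 0 t with h | h
    · have h4 : Real.exp (-|t|) ≤ 1 := Real.exp_le_one_iff.2 (neg_nonpos.2 (abs_nonneg t))
      nlinarith [mul_le_mul_of_nonneg_left h4 (sq_nonneg t)]
    · rw [abs_of_nonpos h, neg_neg, h1]
      have h4 := mul_le_mul_of_nonneg_left (Real.add_one_le_exp (-(t / 2))) (Real.exp_pos (t / 2)).le
      rw [← Real.exp_add, add_neg_cancel, Real.exp_zero] at h4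
      have h5 : 0 ≤ -(t / 2) * Real.exp (t / 2) := mul_nonneg (by linarith) (Real.exp_pos _).le
      nlinarith [mul_self_le_mul_self h5 (show -(t / 2) * Real.exp (t / 2) ≤ 1 - Real.exp (t / 2) by
        linarith)]
  nlinarith

lemma exp_gap {a b u v m : ℝ} (ha : 0 ≤ a) (hb : 0 ≤ b) (hab : a + b = 1) (hu : |u| ≤ m)
    (hv : |v| ≤ m) : a * b / 4 * ((u - v) ^ 2 * Real.exp (-(3 * m))) ≤
      a * Real.exp u + b * Real.exp v - Real.exp (a * u + b * v) := by
  obtain rfl : b = 1 - a := by linarith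
  have hu' := abs_le.1 hu
  have hv' := abs_le.1 hv
  have hd : |u - v| ≤ 2 * m := abs_le.2 ⟨by linarith, by linarith⟩
  have h1 := exp_gap1 ((1 - a) * (u - v))
  have h2 := exp_gap1 (-(a * (u - v)))
  have h3 : Real.exp (-(2 * m)) ≤ Real.exp (-|(1 - a) * (u - v)|) := by
    rw [Real.exp_le_exp, abs_mul, abs_of_nonneg hb]
    nlinarith [abs_nonneg (u - v)]
  have h4 : Real.exp (-(2 * m)) ≤ Real.exp (-|-(a * (u - v))|) := by
    rw [Real.exp_le_exp, abs_neg, abs_mul, abs_of_nonneg ha]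
    nlinarith [abs_nonneg (u - v)]
  have h5 : Real.exp (-m) ≤ Real.exp (a * u + (1 - a) * v) := by
    rw [Real.exp_le_exp]; nlinarith
  have h6 : Real.exp u = Real.exp (a * u + (1 - a) * v) * Real.exp ((1 - a) * (u - v)) := by
    rw [← Real.exp_add]; ring_nf
  have h7 : Real.exp v = Real.exp (a * u + (1 - a) * v) * Real.exp (-(a * (u - v))) := by
    rw [← Real.exp_add]; ring_nf
  have h8 : Real.exp (-(3 * m)) = Real.exp (-m) * Real.exp (-(2 * m)) := by
    rw [← Real.exp_add]; ring_nf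
  have h9 : a * (1 - a) / 4 * ((u - v) ^ 2 * Real.exp (-(2 * m))) ≤
      a * Real.exp ((1 - a) * (u - v)) + (1 - a) * Real.exp (-(a * (u - v))) - 1 := by
    have h10 := mul_le_mul_of_nonneg_left ((mul_le_mul_of_nonneg_left h3 (by positivity)).trans h1) ha
    have h11 := mul_le_mul_of_nonneg_left ((mul_le_mul_of_nonneg_left h4 (by positivity)).trans h2) hb
    nlinarith
  rw [h6, h7, h8]
  have h10 : 0 ≤ a * (1 - a) / 4 * ((u - v) ^ 2 * Real.exp (-(2 * m))) := by positivity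
  nlinarith [mul_le_mul h5 h9 h10 (Real.exp_pos _).le]

lemma Theta_gap {p : ℝ} (hp : 0 < p) {x z : E n} (hx : x ∈ cS n (1 + 1 / p / 4))
    (hz : z ∈ cS n (1 + 1 / p / 4)) {a b : ℝ} (ha : 0 ≤ a) (hb : 0 ≤ b) (hab : a + b = 1)
    {g : E n → ℝ} (h0 : ∀ y, 0 ≤ g y) (hg : ∀ ξ : E n, g ξ ≤ (a * Real.exp (x ⬝ᵥ ξ) +
      b * Real.exp (z ⬝ᵥ ξ) - Real.exp (a * (x ⬝ᵥ ξ) + b * (z ⬝ᵥ ξ))) / Mg ξ) :
    Theta p (a • x + b • z) + 1 / p * ((∫ y, g (p • y) * Wt p y) / Jp n p) ≤
      a * Theta p x + b * Theta p z := by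
  have hJ := Jp_pos (n := n) hp
  have ix := (integrable_ker' hp hx).const_mul a
  have iz := (integrable_ker' hp hz).const_mul b
  have ixz := integrable_ker' hp (convex_cS _ hx hz ha hb hab)
  have h1 := integral_mono_of_nonneg
    (Eventually.of_forall fun y => mul_nonneg (h0 (p • y)) (Wt_pos p y).le) ((ix.add iz).sub ixz)
    (Eventually.of_forall fun y => by
      refine (mul_le_mul_of_nonneg_right (hg (p • y)) (Wt_pos p y).le).trans (le_of_eq ?_)
      simp only [Pi.add_apply, Pi.sub_apply, add_dotProduct, smul_dotProduct, smul_eq_mul]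
      ring)
  rw [integral_sub' (ix.add iz) ixz, integral_add' ix iz, integral_const_mul, integral_const_mul,
    ← Vs_Psi, ← Vs_Psi, ← Vs_Psi] at h1
  have h2 := mul_le_mul_of_nonneg_left (div_le_div_of_nonneg_right h1 hJ.le)
    (show 0 ≤ 1 / p by positivity)
  obtain rfl : b = 1 - a := by linarith
  simp only [Theta]
  refine le_trans (add_le_add_right h2 _) (le_of_eq ?_)
  ring

lemma convexOn_Theta {p : ℝ} (hp : 0 < p) : ConvexOn ℝ (cS n (1 + 1 / p / 4)) (Theta p) := by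
  refine ⟨convex_cS _, fun x hx z hz a b ha hb hab => ?_⟩
  have := Theta_gap hp hx hz ha hb hab (g := fun _ => 0) (fun _ => le_rfl) fun ξ =>
    div_nonneg (sub_nonneg.2 (convexOn_exp.2 (mem_univ _) (mem_univ _) ha hb hab)) (Mg_pos ξ).le
  simpa using this

end Pool.Agent.MP_5f4cdd_gt

end

section

set_option autoImplicit false
open MeasureTheory ENNReal Set Matrix Topology Filter

namespace Pool.Agent.MP_5f4cdd_gt

variable {n m : ℕ}

/-- damping factor -/
noncomputable def om (ξ : E n) : ℝ := Real.exp (-((3 * n + 4) * hs ξ))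

lemma om_pos (ξ : E n) : 0 < om ξ := Real.exp_pos _

lemma continuous_om : Continuous (om (n := n)) :=
  Real.continuous_exp.comp (continuous_const.mul continuous_hs).neg

lemma sq_om_le (ξ : E n) : hs ξ ^ 2 * om ξ ≤ 2 := by
  have h0 := hs_nonneg ξ
  have h1 := Real.quadratic_le_exp_of_nonneg h0
  have h2 : Real.exp (hs ξ) * om ξ ≤ 1 := by
    rw [om, ← Real.exp_add, Real.exp_le_one_iff]
    nlinarith [mul_nonneg (Nat.cast_nonneg n : (0 : ℝ) ≤ n) h0]
  nlinarith [mul_le_mul_of_nonneg_right h1 (om_pos ξ).le, om_pos ξ,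
    mul_nonneg h0 (om_pos ξ).le]

lemma integrable_sq_om {p : ℝ} (hp : 0 < p) :
    Integrable fun y : E n => hs (p • y) ^ 2 * om (p • y) * Wt p y := by
  refine Integrable.bdd_mul (c := 2) (integrable_Wt hp) (Continuous.aestronglyMeasurable ?_)
    (Eventually.of_forall fun y => ?_)
  · exact ((continuous_hs.pow 2).mul continuous_om).comp (continuous_const_smul p)
  · rw [Real.norm_eq_abs, abs_of_nonneg (mul_nonneg (sq_nonneg _) (om_pos _).le)]
    exact sq_om_le _

lemma second_moment (m : ℕ) {P : ℝ} (hP : 1 ≤ P) : ∃ c : ℝ, 0 < c ∧ ∀ p, 0 < p → p ≤ P →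
    c * (p * Jp (m + 1) p) ≤ ∫ y : E (m + 1), hs (p • y) ^ 2 * om (p • y) * Wt p y := by
  have hP0 : 0 < P := by linarith
  obtain ⟨c, hc, hM⟩ := Mg_lower (m + 1)
  set N : ℝ := ((m + 1 : ℕ) : ℝ) + 1 with hN
  have hN0 : 0 < N := by positivity
  set α : ℝ := 1 / (24 * P * N ^ 2) with hα
  have hα0 : 0 < α := by positivity
  set G : ℝ := 5 * 2 ^ (m + 1) with hG
  have hG0 : 0 < G := by positivity
  set T : ℝ := G ^ (2 * P) / (c * P) with hT
  have hT0 : 0 < T := by positivity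
  set c₃ := α * Real.exp (-((3 * ((m + 1 : ℕ) : ℝ) + 4) * Real.sqrt (T * P))) with hc₃
  have hc₃0 : 0 < c₃ := by positivity
  refine ⟨c₃ / 5, by positivity, fun p hp hpP => ?_⟩
  have hJ := Jp_pos (n := m + 1) hp
  obtain ⟨i1, h1⟩ := moment_half (n := m + 1) hp
  have i2 := (integrable_Wt (n := m + 1) hp).comp_smul (two_ne_zero (α := ℝ))
  have i3 := integrable_sq_om (n := m + 1) hp
  have i4 := ((i2.const_mul (6 / 5)).add (i1.const_mul (1 / G))).add (i3.const_mul (1 / (c₃ * p)))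
  have h2 := integral_mono (integrable_Wt hp) i4 fun y => by
    have hW := Wt_pos p y
    have t1 := Wt_pos p ((2 : ℝ) • y)
    have t2 : 0 ≤ 1 / G * (Mg (p • y) ^ (1 / p / 2) * Wt p y) :=
      mul_nonneg (by positivity) (mul_nonneg (Real.rpow_pos_of_pos (Mg_pos _) _).le hW.le)
    have t3 : 0 ≤ 1 / (c₃ * p) * (hs (p • y) ^ 2 * om (p • y) * Wt p y) :=
      mul_nonneg (by positivity) (mul_nonneg (mul_nonneg (sq_nonneg _) (om_pos _).le) hW.le)
    have hs0 := hs_nonneg (p • y)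
    simp only [Pi.add_apply]
    rcases le_total (hs (p • y) ^ 2) (α * p) with h | h
    · have h3 : (N * hs ((2 : ℝ) • p • y)) ^ 2 ≤ p / 6 / P := by
        rw [hs_smul zero_le_two]
        have : 4 * N ^ 2 * (α * p) = p / 6 / P := by rw [hα]; field_simp; ring
        nlinarith [mul_le_mul_of_nonneg_left h (show 0 ≤ 4 * N ^ 2 by positivity)]
      have h4 : p / 6 / P ≤ p / 6 := div_le_self (by positivity) hP
      have h5 : p / 6 / P ≤ 1 := by rw [div_le_one hP0]; linarith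
      have h6 := Mg_le_quad (ξ := (2 : ℝ) • p • y) (by
        have := abs_le_one_iff_mul_self_le_one.2 (show N * hs ((2 : ℝ) • p • y) *
          (N * hs ((2 : ℝ) • p • y)) ≤ 1 by nlinarith)
        exact (le_abs_self _).trans this)
      have h7 : Mg ((2 : ℝ) • p • y) ≤ Real.exp (p / 6) := by
        linarith [Real.add_one_le_exp (p / 6)]
      have h8 := Real.rpow_le_rpow_of_nonpos (Mg_pos _) h7 (z := -(1 / p))
        (neg_nonpos.2 (by positivity))
      have h9 : p / 6 * -(1 / p) = -(1 / 6) := by field_simp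
      rw [← Real.exp_mul, h9] at h8
      have h10 := Real.add_one_le_exp (-(1 / 6) : ℝ)
      have h11 := Real.rpow_le_one_of_one_le_of_nonpos (one_le_Mg (p • y)) (z := -(1 / p))
        (neg_nonpos.2 (by positivity))
      have h12 : Wt p y ≤ 6 / 5 * Wt p ((2 : ℝ) • y) := by
        rw [Wt_eq, Wt_eq, smul_comm, mul_left_comm]
        exact mul_le_mul_of_nonneg_left (by linarith) (Real.rpow_pos_of_pos Vs_pos _).le
      linarith
    rcases le_total (hs (p • y) ^ 2) (T * p) with h' | h'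
    · have h3 : hs (p • y) ≤ Real.sqrt (T * P) :=
        Real.le_sqrt_of_sq_le (h'.trans (by gcongr))
      have h4 : c₃ * p ≤ hs (p • y) ^ 2 * om (p • y) := by
        rw [hc₃, mul_right_comm]
        refine mul_le_mul h (Real.exp_le_exp.2 (neg_le_neg ?_)) (Real.exp_pos _).le (sq_nonneg _)
        gcongr
      have h5 : Wt p y ≤ 1 / (c₃ * p) * (hs (p • y) ^ 2 * om (p • y) * Wt p y) := by
        rw [one_div, le_inv_mul_iff₀ (by positivity)]
        gcongr
      linarith
    · have h3 := rpow_one_add_le_one_add_mul_self (s := c * T * P) (p := p / P)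
        (by linarith [mul_pos (mul_pos hc hT0) hP0]) (by positivity) ((div_le_one hP0).2 hpP)
      have h4 : p / P * (c * T * P) = c * (T * p) := by field_simp
      have h5 : c * T * P = G ^ (2 * P) := by rw [hT]; field_simp
      have h6 : (G ^ (2 * P)) ^ (p / P) ≤ Mg (p • y) := by
        refine le_trans (Real.rpow_le_rpow (by positivity) (by linarith) (by positivity))
          (h3.trans ?_)
        nlinarith [(hM (p • y)).1, mul_le_mul_of_nonneg_left h' hc.le]
      have h7 := Real.rpow_le_rpow (by positivity) h6 (show 0 ≤ 1 / p / 2 by positivity)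
      have h8 : 2 * P * (p / P * (1 / p / 2)) = 1 := by field_simp
      rw [← Real.rpow_mul (by positivity), ← Real.rpow_mul hG0.le, h8, Real.rpow_one] at h7
      have h9 : Wt p y ≤ 1 / G * (Mg (p • y) ^ (1 / p / 2) * Wt p y) := by
        rw [one_div, le_inv_mul_iff₀ hG0]
        gcongr
      linarith
  rw [integral_add' ((i2.const_mul _).add (i1.const_mul _)) (i3.const_mul _),
    integral_add' (i2.const_mul _) (i1.const_mul _), integral_const_mul, integral_const_mul,
    integral_const_mul, integral_Wt_smul p two_pos, integral_Wt] at h2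
  have h3 : ((2 : ℝ) ^ (m + 1))⁻¹ ≤ 1 / 2 := by
    rw [one_div]
    exact inv_anti₀ two_pos (le_self_pow₀ one_le_two (Nat.succ_ne_zero m))
  have h4 : 1 / G * (2 ^ (m + 1) * Jp (m + 1) p) = Jp (m + 1) p / 5 := by rw [hG]; field_simp
  have h5 : Jp (m + 1) p / 5 ≤
      1 / (c₃ * p) * ∫ y : E (m + 1), hs (p • y) ^ 2 * om (p • y) * Wt p y := by
    nlinarith [mul_le_mul_of_nonneg_left h1 (show 0 ≤ 1 / G by positivity),
      mul_le_mul_of_nonneg_right h3 hJ.le]
  rw [one_div, le_inv_mul_iff₀ (by positivity)] at h5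
  linarith

/-- damped second moment in the direction `d` -/
noncomputable def Iq (p : ℝ) (d : E n) : ℝ := ∫ y : E n, (d ⬝ᵥ (p • y)) ^ 2 * om (p • y) * Wt p y

lemma Iq_nn (p : ℝ) (d y : E n) : 0 ≤ (d ⬝ᵥ (p • y)) ^ 2 * om (p • y) * Wt p y :=
  mul_nonneg (mul_nonneg (sq_nonneg _) (om_pos _).le) (Wt_pos p y).le

lemma integrable_Iq {p : ℝ} (hp : 0 < p) (d : E n) :
    Integrable fun y : E n => (d ⬝ᵥ (p • y)) ^ 2 * om (p • y) * Wt p y := by
  have hd : d ∈ cS n (‖d‖ * (n + 1) ^ 2) :=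
    mem_cS_of_norm_le (by rw [mul_div_cancel_right₀ _ (by positivity)])
  refine ((integrable_sq_om hp).const_mul ((‖d‖ * (n + 1) ^ 2 * (n + 1)) ^ 2)).mono'
    (Measurable.aestronglyMeasurable (Measurable.mul (Continuous.measurable ?_)
      (measurable_wt p _))) (Eventually.of_forall fun y => ?_)
  · refine Continuous.mul ?_ (continuous_om.comp (continuous_const_smul p))
    unfold dotProduct; fun_prop
  · rw [Real.norm_eq_abs, abs_of_nonneg (Iq_nn p d y), ← mul_assoc, ← mul_assoc, ← mul_pow]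
    have h1 := abs_le.1 (abs_dot_le (by positivity) hd (p • y))
    exact mul_le_mul_of_nonneg_right (mul_le_mul_of_nonneg_right (sq_le_sq' h1.1 h1.2)
      (om_pos _).le) (Wt_pos p y).le

lemma Iq_Tp (p : ℝ) (σ : Equiv.Perm (Fin (n + 1))) (d : E n) : Iq p (Tp σ d) = Iq p d := by
  have := integral_comp_adj σ fun y : E n => (d ⬝ᵥ (p • y)) ^ 2 * om (p • y) * Wt p y
  simp only [Wt, Zs_adj, ← map_smul, ← dot_adj, om, hs_adj] at this
  exact this

lemma Iq_smul (p c : ℝ) (d : E n) : Iq p (c • d) = c ^ 2 * Iq p d := by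
  simp only [Iq, smul_dotProduct, smul_eq_mul, mul_pow, mul_assoc, integral_const_mul]

lemma Iq_sub {p : ℝ} (hp : 0 < p) (u v : E n) : Iq p (u - v) ≤ 2 * Iq p u + 2 * Iq p v := by
  rw [Iq, Iq, Iq, ← integral_const_mul, ← integral_const_mul,
    ← integral_add ((integrable_Iq hp u).const_mul _) ((integrable_Iq hp v).const_mul _)]
  refine integral_mono (integrable_Iq hp _)
    (((integrable_Iq hp u).const_mul _).add ((integrable_Iq hp v).const_mul _)) fun y => ?_
  have h := mul_pos (om_pos (p • y)) (Wt_pos p y)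
  simp only [sub_dotProduct]
  nlinarith [mul_nonneg (sq_nonneg (u ⬝ᵥ (p • y) + v ⬝ᵥ (p • y))) h.le]

lemma hs_sq_le (ξ : E n) (i : Fin (n + 1)) : hs ξ ^ 2 ≤ 4 * ∑ t, (eta ξ i - eta ξ t) ^ 2 := by
  obtain ⟨j, he, hj⟩ := exists_hs ξ
  have h0 := hs_nonneg ξ
  have h1 : ∀ t, (eta ξ i - eta ξ t) ^ 2 ≤ ∑ t, (eta ξ i - eta ξ t) ^ 2 := fun t =>
    Finset.single_le_sum (f := fun t => (eta ξ i - eta ξ t) ^ 2) (fun _ _ => sq_nonneg _)
      (Finset.mem_univ t)
  obtain ⟨k, -, hk⟩ := Finset.exists_le_of_sum_le (s := Finset.univ) (f := eta ξ)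
    (g := fun _ => 0) Finset.univ_nonempty (by simp [sum_eta])
  have h2 : hs ξ ^ 2 ≤ (eta ξ j - eta ξ k) ^ 2 := pow_le_pow_left₀ h0 (by linarith) 2
  nlinarith [h1 j, h1 k, sq_nonneg (eta ξ i - eta ξ j + (eta ξ i - eta ξ k))]

lemma Iq_vtx {p : ℝ} (hp : 0 < p) {i k : Fin (n + 1)} (hik : k ≠ i) :
    ∫ y : E n, hs (p • y) ^ 2 * om (p • y) * Wt p y ≤ 4 * (n + 1) * Iq p (vtx n i - vtx n k) := by
  have h1 : ∀ t, Iq p (vtx n i - vtx n t) ≤ Iq p (vtx n i - vtx n k) := by
    intro t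
    by_cases ht : t = i
    · rw [ht, sub_self, ← zero_smul ℝ (0 : E n), Iq_smul]
      have : 0 ≤ Iq p (vtx n i - vtx n k) := integral_nonneg (Iq_nn p _)
      simpa using this
    · rw [← Iq_Tp p (Equiv.swap k t) (vtx n i - vtx n k), map_sub]
      have h2 := Tp_vtx (Equiv.swap k t) i
      have h3 := Tp_vtx (Equiv.swap k t) t
      rw [Equiv.swap_apply_of_ne_of_ne hik.symm (Ne.symm ht)] at h2
      rw [Equiv.swap_apply_right] at h3
      rw [h2, h3]
  have i1 := integrable_finsetSum Finset.univ fun t _ => integrable_Iq hp (vtx n i - vtx n t)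
  have h2 := integral_mono (integrable_sq_om hp) (i1.const_mul 4) fun y => by
    simp only [← Finset.sum_mul, ← mul_assoc, sub_dotProduct]
    exact mul_le_mul_of_nonneg_right (mul_le_mul_of_nonneg_right (hs_sq_le _ i) (om_pos _).le)
      (Wt_pos p y).le
  rw [integral_const_mul, integral_finsetSum _ fun t _ => integrable_Iq hp _] at h2
  have h3 := Finset.sum_le_sum fun t (_ : t ∈ Finset.univ) => h1 t
  simp only [Finset.sum_const, Finset.card_univ, Fintype.card_fin, nsmul_eq_mul] at h3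
  push_cast at h3
  unfold Iq at h3 ⊢
  linarith

/-- invariant quadratic form -/
noncomputable def Qf (x : E n) : ℝ := ∑ j, bet n x j ^ 2

lemma Qf_le_Iq {p : ℝ} (hp : 0 < p) (d : E n) :
    Qf d * ∫ y : E n, hs (p • y) ^ 2 * om (p • y) * Wt p y ≤ 16 * (n + 1) ^ 2 * Iq p d := by
  set M := ∫ y : E n, hs (p • y) ^ 2 * om (p • y) * Wt p y with hM
  have hM0 : 0 ≤ M := integral_nonneg fun y =>
    mul_nonneg (mul_nonneg (sq_nonneg _) (om_pos _).le) (Wt_pos p y).le
  have hI0 : 0 ≤ Iq p d := integral_nonneg (Iq_nn p d)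
  have h1 : ∀ i k, (bet n d i - bet n d k) ^ 2 * M ≤ 16 * (n + 1) * Iq p d := by
    intro i k
    by_cases hik : k = i
    · rw [hik, sub_self]; simp; positivity
    have h2 : d - Tp (Equiv.swap i k) d = (bet n d i - bet n d k) • (vtx n i - vtx n k) := by
      apply bet_injective
      ext t
      simp only [map_sub, map_smul, Pi.sub_apply, Pi.smul_apply, bet_Tp_apply, bet_vtx, smul_eq_mul]
      by_cases hti : t = i
      · subst hti; simp [Ne.symm hik]
      by_cases htk : t = k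
      · subst htk; simp [hik]; ring
      · simp [Equiv.swap_apply_of_ne_of_ne hti htk, hti, htk]
    have h3 := Iq_sub hp d (Tp (Equiv.swap i k) d)
    rw [h2, Iq_smul, Iq_Tp] at h3
    have h4 := mul_le_mul_of_nonneg_left (Iq_vtx hp hik) (sq_nonneg (bet n d i - bet n d k))
    nlinarith [mul_le_mul_of_nonneg_left h3 (show (0 : ℝ) ≤ 4 * (n + 1) by positivity)]
  have h2 : ∀ i, bet n d i ^ 2 * M ≤ 16 * (n + 1) * Iq p d := by
    intro i
    obtain ⟨k, -, hk⟩ := Finset.exists_le_of_sum_le (s := Finset.univ)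
      (f := fun k => bet n d i * bet n d k) (g := fun _ => 0) Finset.univ_nonempty
      (by simp [← Finset.mul_sum, sum_bet])
    refine le_trans (mul_le_mul_of_nonneg_right ?_ hM0) (h1 i k)
    nlinarith [sq_nonneg (bet n d k)]
  rw [Qf, Finset.sum_mul]
  refine (Finset.sum_le_sum fun i _ => h2 i).trans (le_of_eq ?_)
  simp only [Finset.sum_const, Finset.card_univ, Fintype.card_fin, nsmul_eq_mul]
  push_cast; ring

lemma Qf_combo (x z : E n) {a b : ℝ} (hab : a + b = 1) :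
    Qf (a • x + b • z) = a * Qf x + b * Qf z - a * b * Qf (x - z) := by
  obtain rfl : b = 1 - a := by linarith
  simp only [Qf, map_add, map_smul, map_sub, Pi.add_apply, Pi.smul_apply, Pi.sub_apply, smul_eq_mul,
    Finset.mul_sum, ← Finset.sum_add_distrib, ← Finset.sum_sub_distrib]
  exact Finset.sum_congr rfl fun j _ => by ring

/-- uniform strong convexity of the normalised potential -/
lemma strong_convex (m : ℕ) {P : ℝ} (hP : 1 ≤ P) : ∃ c : ℝ, 0 < c ∧ ∀ p, 0 < p → p ≤ P →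
    ConvexOn ℝ (cS (m + 1) 1) fun x => Theta p x - c * Qf x := by
  obtain ⟨c, hc, h⟩ := second_moment m hP
  set N : ℝ := ((m + 1 : ℕ) : ℝ) + 1 with hN
  have hN0 : 0 < N := by positivity
  refine ⟨c / (64 * N ^ 2), by positivity, fun p hp hpP =>
    ⟨convex_cS 1, fun x hx z hz a b ha hb hab => ?_⟩⟩
  have hJ := Jp_pos (n := m + 1) hp
  have hR : cS (m + 1) 1 ⊆ cS (m + 1) (1 + 1 / p / 4) :=
    cS_mono (le_add_of_nonneg_right (by positivity))
  have h1 := Theta_gap hp (hR hx) (hR hz) ha hb hab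
    (g := fun ξ => a * b / 4 * (((x - z) ⬝ᵥ ξ) ^ 2 * om ξ))
    (fun ξ => mul_nonneg (by positivity) (mul_nonneg (sq_nonneg _) (om_pos _).le)) fun ξ => by
      have h2 := exp_gap ha hb hab (abs_dot_le zero_le_one hx ξ) (abs_dot_le zero_le_one hz ξ)
      rw [le_div_iff₀ (Mg_pos ξ)]
      refine le_trans ?_ h2
      rw [mul_assoc, mul_assoc, sub_dotProduct]
      refine mul_le_mul_of_nonneg_left (mul_le_mul_of_nonneg_left ?_ (sq_nonneg _)) (by positivity)
      refine (mul_le_mul_of_nonneg_left (Mg_le_exp ξ) (om_pos ξ).le).trans (le_of_eq ?_)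
      rw [om, ← Real.exp_add]
      ring_nf
  simp only [mul_assoc (a * b / 4), integral_const_mul] at h1
  change _ + 1 / p * (a * b / 4 * Iq p (x - z) / _) ≤ _ at h1
  have h2 := Qf_le_Iq hp (x - z)
  have hQ : 0 ≤ Qf (x - z) := Finset.sum_nonneg fun _ _ => sq_nonneg _
  have h3 := (mul_le_mul_of_nonneg_left (h p hp hpP) hQ).trans h2
  have h4 : c / (64 * N ^ 2) * (a * b * Qf (x - z)) ≤
      1 / p * (a * b / 4 * Iq p (x - z) / Jp (m + 1) p) := by
    rw [one_div, le_inv_mul_iff₀ hp, le_div_iff₀ hJ, div_mul_eq_mul_div, ← mul_div_assoc,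
      div_mul_eq_mul_div, div_le_iff₀ (by positivity)]
    nlinarith [mul_le_mul_of_nonneg_left h3 (mul_nonneg ha hb)]
  simp only [smul_eq_mul, Qf_combo x z hab]
  linarith

end Pool.Agent.MP_5f4cdd_gt

end

section

set_option autoImplicit false
open MeasureTheory ENNReal Set Matrix Topology Filter

namespace Pool.Agent.MP_5f4cdd_gt

variable {n m : ℕ}

lemma integral_Theta {p : ℝ} (hp : 0 < p) {L : Set (E n)} (hL : L ⊆ cS n 1) :
    IntegrableOn (Theta p) L ∧ ∫ x in L, Theta p x =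
      1 / p * (Vs n * (∫ x in L, Psi p x) / Jp n p - (volume L).toReal) := by
  have hR : L ⊆ cS n (1 + 1 / p / 4) := hL.trans (cS_mono (le_add_of_nonneg_right (by positivity)))
  have hfin : volume L ≠ ∞ :=
    ne_top_of_le_ne_top (volume_cS_lt_top zero_le_one).ne (measure_mono hL)
  have i1 := ((integrableOn_Psi hp hR).const_mul (Vs n)).div_const (Jp n p)
  have i2 : IntegrableOn (fun _ : E n => (1 : ℝ)) L := integrableOn_const hfin
  refine ⟨(i1.sub i2).const_mul _, ?_⟩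
  simp only [Theta]
  rw [integral_const_mul, integral_sub i1 i2, integral_div, integral_const_mul, setIntegral_const,
    smul_eq_mul, mul_one, measureReal_def]

lemma tangent' {p : ℝ} (hp : 0 < p) {L : Set (E n)} (hLm : MeasurableSet L)
    (hL : L ⊆ cS n 1) (h0 : volume L ≠ 0) (a : E n) :
    ENNReal.ofReal (Vs n ^ (1 + 1 / p) * Jp n p *
      (((volume L).toReal + ∫ x in cS n 1 \ L, Theta p x) / Vs n)) ≤
      mahler p ((fun z => z - a) '' L) := by
  have hR : cS n 1 ⊆ cS n (1 + 1 / p / 4) := cS_mono (le_add_of_nonneg_right (by positivity))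
  have hfin : volume L ≠ ∞ :=
    ne_top_of_le_ne_top (volume_cS_lt_top zero_le_one).ne (measure_mono hL)
  have hV := Vs_pos (n := n)
  have hJ := Jp_pos (n := n) hp
  rw [(integral_Theta hp sdiff_subset).2, setIntegral_sdiff hLm (integrableOn_Psi hp hR) hL,
    integral_Psi_cS hp, vol_sdiff_eq hLm hL]
  set v := (volume L).toReal with hv
  have hv0 : 0 < v := ENNReal.toReal_pos h0 hfin
  have i1 := (integrable_wt (n := n) hp).const_mul (1 + 1 / p)
  have i2 := (integrable_Lap_wt hp hLm (hL.trans hR)).const_mul (1 / p * (Vs n / v))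
  have i3 := integrable_dot_wt hp a
  have e : Vs n ^ (1 + 1 / p) * Jp n p * ((v + 1 / p * (Vs n * (Jp n p - ∫ x in L, Psi p x) /
      Jp n p - (1 - v / (volume (cS n 1)).toReal) * (volume (cS n 1)).toReal)) / Vs n) =
      v * ∫ y : E n, Vs n ^ (1 / p) * ((1 + 1 / p) * Zs p y ^ (-(1 / p)) -
        1 / p * (Vs n / v) * (Lap p L y * Zs p y ^ (-(1 / p) - 1))
        + (a ⬝ᵥ y) * Zs p y ^ (-(1 / p))) := by
    rw [integral_const_mul, integral_add (f := fun y => (1 + 1 / p) * Zs p y ^ (-(1 / p)) -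
      1 / p * (Vs n / v) * (Lap p L y * Zs p y ^ (-(1 / p) - 1))) (i1.sub i2) i3,
      integral_sub i1 i2, integral_const_mul, integral_const_mul,
      integral_dot_wt hp, integral_Lap_wt hp hLm (hL.trans hR), Real.rpow_add hV, Real.rpow_one]
    change _ * _ * ((v + 1 / p * (_ - (1 - v / Vs n) * Vs n)) / _) =
      v * (_ * ((1 + 1 / p) * Jp n p - _ + 0))
    field_simp
    ring
  rw [e, mahler_eq, volume_image_sub, ← hv, ENNReal.ofReal_mul hv0.le, hv,
    ENNReal.ofReal_toReal hfin, ← hv]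
  gcongr
  refine ofReal_integral_le (((i1.sub i2).add i3).const_mul _) fun y => ?_
  have hl := Lap_pos p y zero_le_one hL h0
  have hZ := Zs_pos p y
  have h1 := tangent_pt (s := a ⬝ᵥ y) hl (mul_pos (div_pos hv0 hV) hZ)
    (show 0 < 1 / p by positivity)
  have h2 : (Lap p ((fun z => z - a) '' L) y / v) ^ (-(1 / p)) =
      v ^ (1 / p) * (Lap p L y ^ (-(1 / p)) * Real.exp (a ⬝ᵥ y)) := by
    rw [Lap_image_sub, Real.div_rpow (by positivity) hv0.le, Real.mul_rpow hl.le (by positivity),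
      ← Real.exp_mul, Real.rpow_neg hv0.le, div_inv_eq_mul, mul_comm]
    congr 3
    field_simp
  rw [h2]
  refine le_trans (le_of_eq ?_) (mul_le_mul_of_nonneg_left h1 (by positivity))
  rw [Real.rpow_sub_one hZ.ne', Real.rpow_sub_one (by positivity),
    Real.mul_rpow (by positivity) hZ.le, Real.div_rpow hv0.le hV.le, Real.rpow_neg hv0.le,
    Real.rpow_neg hV.le]
  field_simp

lemma good_comp {Φ : E (m + 1) → ℝ} (hm : Measurable Φ) (hc : ConvexOn ℝ (cS (m + 1) 1) Φ)
    (hs : ∀ σ z, Φ (Tp σ z) = Φ z) : Good fun l => Φ (A0 (m + 1) l) := by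
  refine ⟨hm.comp (measurable_lin _), ⟨convex_stdSimplex ℝ _, ?_⟩, ?_⟩
  · intro x hx y hy a b ha hb hab
    simp only [map_add, map_smul]
    exact hc.2 (A0_mem hx) (A0_mem hy) ha hb hab
  · intro σ x _
    rw [A0_perm, hs]

lemma Qf_Tp (σ : Equiv.Perm (Fin (n + 1))) (z : E n) : Qf (Tp σ z) = Qf z := by
  simp only [Qf, bet_Tp_apply]
  exact Equiv.sum_comp σ fun j => bet n z j ^ 2

lemma Qf_nonneg (z : E n) : 0 ≤ Qf z := Finset.sum_nonneg fun _ _ => sq_nonneg _

lemma continuous_Qf : Continuous (Qf (n := n)) :=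
  continuous_finsetSum _ fun j _ => ((continuous_apply j).comp continuous_bet).pow 2

lemma Qf_le {z : E n} (hz : z ∈ cS n 1) : Qf z ≤ n + 1 := by
  refine (Finset.sum_le_sum fun j _ => (sq_le_one_iff_abs_le_one _).2
    (abs_bet_le zero_le_one hz j)).trans (le_of_eq ?_)
  simp

lemma nice_Qf : Nice m 2 fun z => Qf z + 1 := by
  refine ⟨one_lt_two, (continuous_Qf.add continuous_const).measurable,
    (continuous_Qf.add continuous_const).continuousOn, fun z _ => by linarith [Qf_nonneg z],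
    fun σ z => by rw [Qf_Tp], convex_cS 1, fun x _ z _ hne a b ha hb hab => ?_⟩
  have h1 : 0 < Qf (x - z) := by
    refine (Qf_nonneg _).lt_of_ne fun h => hne (sub_eq_zero.1 (bet_injective ?_))
    ext j
    have := (Finset.sum_eq_zero_iff_of_nonneg fun _ _ => sq_nonneg _).1 h.symm j (Finset.mem_univ j)
    simpa using this
  simp only [smul_eq_mul, Qf_combo x z hab]
  nlinarith [mul_pos (mul_pos ha hb) h1]

lemma measurable_Theta (p : ℝ) : Measurable (Theta (n := n) p) :=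
  ((((measurable_Psi p).const_mul _).div_const _).sub_const _).const_mul _

lemma Theta_Tp (p : ℝ) (σ : Equiv.Perm (Fin (n + 1))) (z : E n) :
    Theta p (Tp σ z) = Theta p z := by simp only [Theta, Psi_Tp]

lemma facet_Theta {p B : ℝ} (hp : 0 < p) (hB : 2 * 2 ^ (m + 1) ≤ B) :
    ENNReal.ofReal (1 + B) * mu m univ ≤
      ∫⁻ l, ENNReal.ofReal (Theta p (A0 (m + 1) l) + B) ∂mu m := by
  have hN := nice_Psi (m := m) hp
  have hR : cS (m + 1) 1 ⊆ cS (m + 1) (1 + 1 / p / 4) :=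
    cS_mono (le_add_of_nonneg_right (by positivity))
  have h0 : 0 ≤ᵐ[mu m] fun l => Psi p (A0 (m + 1) l) := by
    filter_upwards [ae_mu] with l hl using (Psi_pos hp (hR (A0_mem hl))).le
  have i0 := (lintegral_ofReal_ne_top_iff_integrable hN.good.meas.aestronglyMeasurable h0).1
    hN.F_ne_top
  have i1 := (i0.const_mul (Vs (m + 1))).div_const (Jp (m + 1) p)
  have i2 := (i1.sub (integrable_const (1 : ℝ))).const_mul (1 / p)
  have h1 := facet_mean (m := m) hp
  rw [← integral_eq_lintegral_of_nonneg_ae h0 hN.good.meas.aestronglyMeasurable] at h1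
  have hB0 : 0 ≤ B := le_trans (by positivity) hB
  rw [← ofReal_integral_eq_lintegral_ofReal (f := fun l => Theta p (A0 (m + 1) l) + B)
    (i2.add (integrable_const B))
    (by
      filter_upwards [ae_mu] with l hl
      have := le_Theta hp (hR (A0_mem hl))
      simp only [Pi.zero_apply]
      linarith),
    ← ENNReal.ofReal_toReal (measure_ne_top (mu m) univ), ← ENNReal.ofReal_mul (by linarith)]
  refine ENNReal.ofReal_le_ofReal ?_
  simp only [Theta]
  rw [integral_add (f := fun l => 1 / p * (Vs (m + 1) * Psi p (A0 (m + 1) l) / Jp (m + 1) p - 1))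
    i2 (integrable_const B), integral_const_mul, integral_sub i1 (integrable_const _),
    integral_div, integral_const_mul, integral_const, integral_const, measureReal_def]
  have hJ := Jp_pos (n := m + 1) hp
  have h2 : (1 + 1 / p) * (mu m univ).toReal ≤
      1 / p * (Vs (m + 1) * (∫ l, Psi p (A0 (m + 1) l) ∂mu m) / Jp (m + 1) p) := by
    rw [← mul_div_assoc, le_div_iff₀ hJ]
    unfold Vs
    linarith
  simp only [smul_eq_mul]
  linarith

lemma small_deficit (m : ℕ) {P : ℝ} (hP : 1 ≤ P) : ∃ δ κ : ℝ, 0 < δ ∧ δ < 1 ∧ 0 < κ ∧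
    ∀ p, 0 < p → p ≤ P → ∀ K : Set (E (m + 1)), Near K δ →
      (1 + κ) * (volume (cS (m + 1) 1 \ K)).toReal ≤ ∫ x in cS (m + 1) 1 \ K, Theta p x := by
  have hP0 : 0 < P := by linarith
  obtain ⟨c, hc, hconv⟩ := strong_convex m hP
  obtain ⟨C, hC, hup⟩ := Theta_le (m + 1) hP
  have hQ := nice_Qf (m := m)
  obtain ⟨κ₀, hκ₀, hcorr⟩ := strict_corr m _ hQ.good
    ⟨_, fun x hx => add_le_add_left (Qf_le (A0_mem hx)) 1⟩
    (fun x hx => hQ.pos _ (cS_mono one_le_two (A0_mem hx))) (fun x hx hne => hQ.strict hx hne)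
  set U := mu m univ with hU
  have hUt : U ≠ ∞ := measure_ne_top _ _
  have hU0 : 0 < U.toReal := ENNReal.toReal_pos mu_univ_pos.ne' hUt
  set B₁ : ℝ := 2 * 2 ^ (m + 1) + c * (((m + 1 : ℕ) : ℝ) + 1) with hB₁
  set B : ℝ := B₁ + c with hB
  set L : ℝ := (C + 2 * 2 ^ (m + 1)) * (4 * P) / c with hL
  have hL0 : 0 < L := by positivity
  set κ := c * κ₀ / U.toReal / 2 with hκ
  have hκ0 : 0 < κ := by positivity
  have e1 : ∀ᶠ δ in 𝓝[>] (0 : ℝ),
      1 + B + κ < (1 - δ * L) * (1 - δ) ^ (m + 1) * (1 + B + 2 * κ) := by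
    refine nhdsWithin_le_nhds ?_
    have : ContinuousAt (fun δ : ℝ => (1 - δ * L) * (1 - δ) ^ (m + 1) * (1 + B + 2 * κ)) 0 := by
      fun_prop
    exact this.eventually (lt_mem_nhds (by simp; linarith))
  have e2 : ∀ᶠ δ in 𝓝[>] (0 : ℝ), δ * L < 1 := by
    refine nhdsWithin_le_nhds ?_
    have : ContinuousAt (fun δ : ℝ => δ * L) 0 := by fun_prop
    exact this.eventually (gt_mem_nhds (by simp))
  obtain ⟨δ, ⟨hδ, hδL⟩, hδ0, hδ1⟩ := ((e1.and e2).and (Ioo_mem_nhdsGT one_pos)).exists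
  refine ⟨δ, κ, hδ0, hδ1, hκ0, fun p hp hpP K h => ?_⟩
  have hq : 1 / P ≤ 1 / p := one_div_le_one_div_of_le hp hpP
  have hR : cS (m + 1) 1 ⊆ cS (m + 1) (1 + 1 / p / 4) :=
    cS_mono (le_add_of_nonneg_right (by positivity))
  have hcN : 0 ≤ c * (((m + 1 : ℕ) : ℝ) + 1) := by positivity
  have hlow : ∀ z ∈ cS (m + 1) 1, c ≤ Theta p z + B := fun z hz => by
    linarith [le_Theta hp (hR hz)]
  have hi := h.int_ge (Φ := fun z => Theta p z + B) ((measurable_Theta p).add_const _)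
    (fun σ z => by rw [Theta_Tp]) (τ := 1 - δ * L) (by linarith) fun z hz s hs hs1 => by
      have hs0 : 0 < s := by linarith
      have hr : (0 : ℝ) < 1 / P / 4 := by positivity
      have hd : (0 : ℝ) < 1 + 1 / P / 4 - s := by linarith
      have hsz : s • z ∈ cS (m + 1) 1 := cS_mono (by linarith) ((smul_mem_cS hs0).2 hz)
      have hrz : (1 + 1 / P / 4 : ℝ) • z ∈ cS (m + 1) (1 + 1 / P / 4) := by
        have := (smul_mem_cS (show (0 : ℝ) < 1 + 1 / P / 4 by linarith)).2 hz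
        rwa [mul_one] at this
      have h1 := (convexOn_Theta hp).2 (hR hsz) (cS_mono (by linarith) hrz)
        (show 0 ≤ 1 - (1 - s) / (1 + 1 / P / 4 - s) by rw [sub_nonneg, div_le_one hd]; linarith)
        (show 0 ≤ (1 - s) / (1 + 1 / P / 4 - s) from div_nonneg (by linarith) hd.le) (by ring)
      have h2 : (1 - (1 - s) / (1 + 1 / P / 4 - s)) * s +
          (1 - s) / (1 + 1 / P / 4 - s) * (1 + 1 / P / 4) = 1 := by
        have : (1 - s) / (1 + 1 / P / 4 - s) * (1 + 1 / P / 4 - s) = 1 - s :=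
          div_mul_cancel₀ _ hd.ne'
        linarith
      rw [smul_smul, smul_smul, ← add_smul, h2, one_smul, smul_eq_mul, smul_eq_mul] at h1
      have h3 : (1 - s) / (1 + 1 / P / 4 - s) ≤ δ * (4 * P) := by
        rw [div_le_iff₀ hd]
        have : δ * (4 * P) * (1 / P / 4) = δ := by field_simp
        nlinarith [mul_nonneg (show 0 ≤ δ * (4 * P) by positivity) (sub_nonneg.2 hs1)]
      have h4 := hup p hp hpP _ hrz
      have h5 := le_Theta hp (hR hsz)
      have h6 : 0 ≤ (1 - s) / (1 + 1 / P / 4 - s) := div_nonneg (by linarith) hd.le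
      have h7 : δ * L * c = δ * (4 * P) * (C + 2 * 2 ^ (m + 1)) := by rw [hL]; field_simp
      nlinarith [mul_le_mul_of_nonneg_left h4 h6, mul_le_mul_of_nonneg_left h5 h6,
        mul_le_mul_of_nonneg_right h3 (show 0 ≤ C + 2 * 2 ^ (m + 1) by positivity),
        mul_le_mul_of_nonneg_left (hlow z hz) (show 0 ≤ δ * L by positivity)]
  have hg1 : Good fun l => Theta p (A0 (m + 1) l) - c * Qf (A0 (m + 1) l) + B₁ :=
    good_comp (Φ := fun z => Theta p z - c * Qf z + B₁)
      (((measurable_Theta p).sub (continuous_Qf.measurable.const_mul c)).add_const _)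
      ((hconv p hp hpP).add_const B₁) fun σ z => by rw [Theta_Tp, Qf_Tp]
  have hsplit : ∀ᵐ l ∂mu m, ENNReal.ofReal (Theta p (A0 (m + 1) l) + B) =
      ENNReal.ofReal (Theta p (A0 (m + 1) l) - c * Qf (A0 (m + 1) l) + B₁) +
        ENNReal.ofReal c * ENNReal.ofReal (Qf (A0 (m + 1) l) + 1) := by
    filter_upwards [ae_mu] with l hl
    rw [← ENNReal.ofReal_mul hc.le, ← ENNReal.ofReal_add
      (by linarith [le_Theta hp (hR (A0_mem hl)),
        mul_le_mul_of_nonneg_left (Qf_le (A0_mem hl)) hc.le])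
      (mul_nonneg hc.le (by linarith [Qf_nonneg (A0 (m + 1) l)]))]
    congr 1; ring
  have m1 := hg1.meas.ennreal_ofReal
  have m2 := hQ.good.meas.ennreal_ofReal
  have key : ∀ j, (ENNReal.ofReal (1 + B) * U + ENNReal.ofReal c * ENNReal.ofReal κ₀) *
      ∫⁻ l, ENNReal.ofReal (gj K j l - 1) ∂mu m ≤ U * ∫⁻ l,
        ENNReal.ofReal (Theta p (A0 (m + 1) l) + B) * ENNReal.ofReal (gj K j l - 1) ∂mu m := by
    intro j
    have hgc := (h.convexOn j).subset (subset_univ _) (convex_stdSimplex ℝ _)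
    have hg0 : ∀ x ∈ stdSimplex ℝ (Fin (m + 1)), 0 ≤ gj K j x - 1 :=
      fun x hx => sub_nonneg.2 (h.one_le j hx)
    have mg := (h.measurable j).ennreal_ofReal
    have c1 := hcorr _ (h.measurable j) hgc hg0 (h.gj_uu j)
    have c2 := corr m _ _ hg1 (good_symz (h.measurable j) hgc)
    have s1 := lintegral_symz (f := fun _ => 1) measurable_const (fun _ _ _ => rfl)
      (h.measurable j) hg0
    have s2 := lintegral_symz m1 (fun σ x hx => by rw [hg1.symm σ x hx]) (h.measurable j) hg0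
    simp only [one_mul] at s1
    rw [s1, s2, mul_left_comm, mul_left_comm (mu m univ),
      ENNReal.mul_le_mul_iff_right (by simp [Fintype.card_ne_zero]) (by simp)] at c2
    have c3 := facet_Theta (m := m) hp (B := B) (by linarith)
    rw [lintegral_congr_ae hsplit, lintegral_add_left m1,
      lintegral_const_mul' _ _ ENNReal.ofReal_ne_top] at c3
    rw [lintegral_congr_ae (f := fun l =>
      ENNReal.ofReal (Theta p (A0 (m + 1) l) + B) * ENNReal.ofReal (gj K j l - 1)) (g := fun l =>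
      ENNReal.ofReal (Theta p (A0 (m + 1) l) - c * Qf (A0 (m + 1) l) + B₁) *
        ENNReal.ofReal (gj K j l - 1) + ENNReal.ofReal c *
        (ENNReal.ofReal (Qf (A0 (m + 1) l) + 1) * ENNReal.ofReal (gj K j l - 1)))
      (by filter_upwards [hsplit] with l hl; rw [hl]; ring),
      lintegral_add_left (f := fun l =>
        ENNReal.ofReal (Theta p (A0 (m + 1) l) - c * Qf (A0 (m + 1) l) + B₁) *
          ENNReal.ofReal (gj K j l - 1)) (m1.mul mg),
      lintegral_const_mul' _ _ ENNReal.ofReal_ne_top, mul_add,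
      mul_left_comm U]
    refine le_trans ?_ (add_le_add c2 (mul_le_mul_right c1 _))
    refine (mul_le_mul_left (add_le_add_left c3 _) _).trans (le_of_eq ?_)
    ring
  have h1 : ENNReal.ofReal ((1 - δ * L) * (1 - δ) ^ (m + 1)) *
      ((ENNReal.ofReal (1 + B) * U + ENNReal.ofReal c * ENNReal.ofReal κ₀) *
        volume (cS (m + 1) 1 \ K)) ≤
      U * ∫⁻ z in cS (m + 1) 1 \ K, ENNReal.ofReal (Theta p z + B) := by
    refine le_trans ?_ (mul_le_mul_right hi _)
    rw [mul_left_comm U]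
    refine mul_le_mul_right ((mul_le_mul_right h.vol_le _).trans ?_) _
    rw [Finset.mul_sum, Finset.mul_sum]
    refine Finset.sum_le_sum fun j _ => ?_
    rw [mul_left_comm, mul_left_comm U]
    exact mul_le_mul_right (key j) _
  have hDt : volume (cS (m + 1) 1 \ K) ≠ ∞ :=
    ne_top_of_le_ne_top (volume_cS_lt_top zero_le_one).ne (measure_mono sdiff_subset)
  have iT := (integral_Theta hp (L := cS (m + 1) 1 \ K) sdiff_subset).1
  have iB : IntegrableOn (fun _ : E (m + 1) => B) (cS (m + 1) 1 \ K) := integrableOn_const hDt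
  have h0 : 0 ≤ᵐ[volume.restrict (cS (m + 1) 1 \ K)] fun z => Theta p z + B := by
    filter_upwards [ae_restrict_mem h.meas] with z hz using hc.le.trans (hlow z hz.1)
  rw [← ofReal_integral_eq_lintegral_ofReal (f := fun z => Theta p z + B) (iT.add iB) h0] at h1
  have hB0 : 0 ≤ 1 + B := by positivity
  have hτ : 0 ≤ (1 - δ * L) * (1 - δ) ^ (m + 1) :=
    mul_nonneg (by linarith) (pow_nonneg (by linarith) _)
  have h2 := ENNReal.toReal_mono (ENNReal.mul_ne_top hUt ENNReal.ofReal_ne_top) h1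
  rw [ENNReal.toReal_mul, ENNReal.toReal_mul, ENNReal.toReal_mul,
    ENNReal.toReal_add (by finiteness) (by finiteness), ENNReal.toReal_mul, ENNReal.toReal_mul,
    ENNReal.toReal_ofReal hτ, ENNReal.toReal_ofReal hB0, ENNReal.toReal_ofReal hc.le,
    ENNReal.toReal_ofReal hκ₀.le, ENNReal.toReal_ofReal (integral_nonneg_of_ae h0),
    integral_add iT iB, setIntegral_const, smul_eq_mul, measureReal_def] at h2
  have h3 : c * κ₀ = 2 * κ * U.toReal := by rw [hκ]; field_simp
  rw [h3] at h2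
  refine le_of_mul_le_mul_left ?_ hU0
  nlinarith [mul_le_mul_of_nonneg_right hδ.le
    (mul_nonneg hU0.le (ENNReal.toReal_nonneg (a := volume (cS (m + 1) 1 \ K))))]

lemma all_centred (n : ℕ) : ∃ ε κ : ℝ, 0 < ε ∧ ε ≤ 1 ∧ 0 < κ ∧ ∀ p, 0 < p →
    ∀ K : Set (E n), Convex ℝ K → IsCompact K → (interior K).Nonempty → K ⊆ cS n 1 → Maxi K →
      (1 - ε) * (volume (cS n 1)).toReal ≤ (volume K).toReal → ∀ a,
      ENNReal.ofReal (1 + κ * (1 - (volume K).toReal / (volume (cS n 1)).toReal)) *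
        mahler p (cS n 1) ≤ mahler p ((fun z => z - a) '' K) := by
  cases n with
  | zero =>
    refine ⟨1, 1, one_pos, le_rfl, one_pos, fun p _ K _ _ hKi hKs _ _ a => ?_⟩
    have h1 : K = univ := by
      obtain ⟨x, hx⟩ := hKi
      exact eq_univ_of_forall fun y => by rw [Subsingleton.elim y x]; exact interior_subset hx
    have h3 : cS 0 1 = univ := univ_subset_iff.1 (h1 ▸ hKs)
    have h4 : (volume (univ : Set (E 0))).toReal ≠ 0 := by
      rw [← h3]
      exact (ENNReal.toReal_pos (volume_cS_pos one_pos).ne'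
        (volume_cS_lt_top zero_le_one).ne).ne'
    rw [h3, h1, div_self h4, Subsingleton.elim a 0]
    simp only [sub_zero, image_id']
    simp
  | succ m =>
    obtain ⟨ε₁, κ₁, hε₁, hκ₁, h₁⟩ := unif_centred m
    obtain ⟨P, hP⟩ := eventually_atTop.1 h₁
    obtain ⟨δ, κ₂, hδ0, hδ1, hκ₂, h₂⟩ := small_deficit m (le_max_right P 1)
    obtain ⟨ε₂, hε₂, hnear⟩ := near_of_vol m hδ0 hδ1
    refine ⟨min 1 (min ε₁ ε₂), min κ₁ κ₂, by positivity, min_le_left _ _, by positivity,
      fun p hp K hKc hKk _ hKs hKM hKv a => ?_⟩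
    have hV := Vs_pos (n := m + 1)
    have hw0 : 0 ≤ 1 - (volume K).toReal / (volume (cS (m + 1) 1)).toReal :=
      sub_nonneg.2 ((div_le_one hV).2
        (ENNReal.toReal_mono (volume_cS_lt_top zero_le_one).ne (measure_mono hKs)))
    have e1 := (min_le_right 1 _).trans (min_le_left ε₁ ε₂)
    have e2 := (min_le_right 1 _).trans (min_le_right ε₁ ε₂)
    rcases le_total p (max P 1) with h | h
    · have hN := hnear K hKc hKk hKs hKM
        (le_trans (mul_le_mul_of_nonneg_right (by linarith) ENNReal.toReal_nonneg) hKv)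
      have h3 := h₂ p hp h K hN
      rw [vol_sdiff_eq hKk.measurableSet hKs] at h3
      refine le_trans ?_ (tangent' hp hKk.measurableSet hKs hN.vol_ne_zero a)
      rw [mahler_cS hp, ← ENNReal.ofReal_mul (by positivity), mul_comm]
      have hJ := Jp_pos (n := m + 1) hp
      refine ENNReal.ofReal_le_ofReal (mul_le_mul_of_nonneg_left ?_ (by positivity))
      rw [le_div_iff₀ hV]
      have h4 : (volume K).toReal / (volume (cS (m + 1) 1)).toReal * Vs (m + 1) =
          (volume K).toReal := div_mul_cancel₀ _ hV.ne'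
      have h5 := mul_le_mul_of_nonneg_right (mul_le_mul_of_nonneg_right (min_le_right κ₁ κ₂) hw0)
        hV.le
      unfold Vs at *
      nlinarith
    · refine le_trans (mul_le_mul_left (ENNReal.ofReal_le_ofReal ?_) _)
        (hP p ((le_max_left _ _).trans h) K hKc hKk hKs hKM
          (le_trans (mul_le_mul_of_nonneg_right (by linarith) ENNReal.toReal_nonneg) hKv) a)
      linarith [mul_le_mul_of_nonneg_right (min_le_left κ₁ κ₂) hw0]

/-- local stability at the simplex, uniformly for all `p` including `p = ∞` -/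
theorem local_all (n : ℕ) : ∃ ε κ : ℝ, 0 < ε ∧ 0 < κ ∧
    ∀ K : Set (Fin n → ℝ), Convex ℝ K → IsCompact K → (interior K).Nonempty →
      ∀ e : AffineEquiv ℝ (Fin n → ℝ) (Fin n → ℝ), K ⊆ e '' stdS n →
      (1 - ε) * (volume (e '' stdS n)).toReal ≤ (volume K).toReal →
      ∃ e' : AffineEquiv ℝ (Fin n → ℝ) (Fin n → ℝ), K ⊆ e' '' stdS n ∧
        (∀ p : ℝ, 0 < p →
          ENNReal.ofReal (1 + κ * (1 - (volume K).toReal / (volume (e' '' stdS n)).toReal)) *
            (⨅ x ∈ stdS n, mahler p ((fun z => z - x) '' stdS n)) ≤ mahler p K) ∧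
        ENNReal.ofReal (1 + κ * (1 - (volume K).toReal / (volume (e' '' stdS n)).toReal)) *
          (⨅ x ∈ stdS n, mahlerInf ((fun z => z - x) '' stdS n)) ≤ mahlerInf K := by
  obtain ⟨ε, κ, hε, hε1, hκ, h⟩ := all_centred n
  refine ⟨ε, κ, hε, hκ, fun K hKc hKk hKi e hKe hKv => ?_⟩
  obtain ⟨e', K', B, b, h1, hB, h2, hc, hk, hi, hs, hM, hv, he⟩ := reduce hε1 hKc hKk hKi e hKe hKv
  refine ⟨e', h1, fun p hp => ?_, ?_⟩
  · have := h p hp K' hc hk hi hs hM hv b
    rwa [h2, mahler_image_lin p B hB, he, ← iInf_eq hp] at this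
  · rw [iInfInf_eq, ← mahlerInf_image_lin B hB K, ← h2, ← he]
    refine le_mahlerInf' hk hc hi ?_ b
    filter_upwards [eventually_gt_atTop 0] with p hp a
    exact (mul_le_mul_right (mahlerInf_cS_le_mahler hp) _).trans (h p hp K' hc hk hi hs hM hv a)

end Pool.Agent.MP_5f4cdd_gt

end
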