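import Pool.Agent.Mg.F5f4cdd.Gb7ecc9

section

set_option autoImplicit false
open MeasureTheory ENNReal Set Matrix

namespace Pool.Agent.MP_5f4cdd_gt

variable {m : ℕ}

/-- centre of the probability simplex -/
noncomputable def uu (m : ℕ) : E (m + 1) := fun _ => 1 / (m + 1)

/-- surface measure on the probability simplex -/
noncomputable def mu (m : ℕ) : Measure (E (m + 1)) :=
  Measure.map (fun z => uu m + bet m z) (volume.restrict (cS m 1))

lemma continuous_ubet : Continuous fun z : E m => uu m + bet m z :=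
  continuous_const.add continuous_bet

lemma lintegral_mu {f : E (m + 1) → ℝ≥0∞} (hf : Measurable f) :
    ∫⁻ l, f l ∂mu m = ∫⁻ z in cS m 1, f (uu m + bet m z) := by
  rw [mu, lintegral_map hf continuous_ubet.measurable]

lemma mu_univ : mu m univ = volume (cS m 1) := by
  rw [mu, Measure.map_apply continuous_ubet.measurable MeasurableSet.univ]
  simp

instance : IsFiniteMeasure (mu m) := ⟨by rw [mu_univ]; exact volume_cS_lt_top zero_le_one⟩

lemma mu_univ_pos : 0 < mu m univ := by rw [mu_univ]; exact volume_cS_pos one_pos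

lemma mu_ne_zero : mu m ≠ 0 := by
  intro h; have := mu_univ_pos (m := m); rw [h] at this; simp at this

lemma ubet_mem {z : E m} (hz : z ∈ cS m 1) : uu m + bet m z ∈ stdSimplex ℝ (Fin (m + 1)) := by
  refine ⟨fun j => ?_, ?_⟩
  · have := hz j
    simp only [Pi.add_apply, uu]; linarith
  · simp only [Pi.add_apply, Finset.sum_add_distrib, sum_bet, uu, Finset.sum_const,
      Finset.card_univ, Fintype.card_fin, nsmul_eq_mul]
    push_cast; field_simp; simp

lemma uu_mem : uu m ∈ stdSimplex ℝ (Fin (m + 1)) := by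
  have := ubet_mem (m := m) (z := 0) (mem_cS_of_norm_le (by simp; positivity))
  simpa using this

lemma ae_mu : ∀ᵐ l ∂mu m, l ∈ stdSimplex ℝ (Fin (m + 1)) := by
  rw [mu]
  refine (ae_map_iff (p := fun l => l ∈ stdSimplex ℝ (Fin (m + 1)))
    continuous_ubet.measurable.aemeasurable (isClosed_stdSimplex ℝ _).measurableSet).2 ?_
  filter_upwards [ae_restrict_mem (measurableSet_cS 1)] with z hz using ubet_mem hz

lemma measurable_perm {k : ℕ} (σ : Equiv.Perm (Fin k)) : Measurable fun l : E k => l ∘ σ :=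
  measurable_pi_iff.2 fun i => measurable_pi_apply (σ i)

lemma lintegral_mu_perm (σ : Equiv.Perm (Fin (m + 1))) {f : E (m + 1) → ℝ≥0∞}
    (hf : Measurable f) : ∫⁻ l, f (l ∘ σ) ∂mu m = ∫⁻ l, f l ∂mu m := by
  rw [lintegral_mu (f := fun l => f (l ∘ σ)) (hf.comp (measurable_perm σ)), lintegral_mu hf]
  have h1 := (measurePreserving_Tp σ).setLIntegral_comp_preimage (measurableSet_cS (n := m) 1)
    (f := fun z => f (uu m + bet m z)) (hf.comp continuous_ubet.measurable)
  have h2 : Tp σ ⁻¹' cS m 1 = cS m 1 := by ext z; exact Tp_mem_cS σ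
  rw [h2] at h1
  rw [← h1]
  refine lintegral_congr fun z => ?_
  rw [bet_Tp]; rfl

lemma measurable_cons : Measurable fun q : ℝ × E m => (Fin.cons q.1 q.2 : E (m + 1)) := by
  refine measurable_pi_iff.2 fun j => ?_
  refine Fin.cases ?_ (fun i => ?_) j
  · simpa using measurable_fst
  · simp only [Fin.cons_succ]; fun_prop

lemma measurableSet_stdS : MeasurableSet (stdS m) := by
  have : stdS m = (fun x => x - cen m) ⁻¹' cS m 1 := by ext x; exact mem_stdS_iff
  rw [this]
  exact (measurableSet_cS 1).preimage (measurable_id.sub_const _)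

lemma lintegral_mu_std {f : E (m + 1) → ℝ≥0∞} (hf : Measurable f) :
    ∫⁻ l, f l ∂mu m = ∫⁻ X in stdS m, f (Fin.cons (1 - ∑ i, X i) X) := by
  rw [lintegral_mu hf]
  have h1 := (measurePreserving_sub_right (volume : Measure (E m)) (cen m)).setLIntegral_comp_preimage
    (measurableSet_cS (n := m) 1)
    (f := fun z => f (uu m + bet m z)) (hf.comp continuous_ubet.measurable)
  have h2 : (fun x => x - cen m) ⁻¹' cS m 1 = stdS m := by ext x; exact mem_stdS_iff.symm
  rw [h2] at h1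
  rw [← h1]
  refine lintegral_congr fun z => ?_
  congr 1
  ext j
  refine Fin.cases ?_ (fun i => ?_) j
  · simp [uu, cen]
    field_simp; ring
  · simp [uu, cen]

lemma lintegral_cons {g : E (m + 1) → ℝ≥0∞} (hg : Measurable g) :
    ∫⁻ Y, g Y = ∫⁻ X : E m, ∫⁻ a : ℝ, g (Fin.cons a X) := by
  have h := (volume_preserving_piFinSuccAbove (fun _ : Fin (m + 1) => ℝ) 0).symm
  rw [← h.lintegral_comp hg, Measure.volume_eq_prod, lintegral_prod_symm']
  · refine lintegral_congr fun X => lintegral_congr fun a => ?_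
    simp [MeasurableEquiv.piFinSuccAbove_symm_apply, Fin.insertNthEquiv, Fin.insertNth_zero']
  · exact hg.comp (MeasurableEquiv.measurable _)

lemma lintegral_slice {g : E (m + 1) → ℝ≥0∞} (hg : Measurable g) :
    ∫⁻ Y, g Y = ∫⁻ s : ℝ, ∫⁻ X : E m, g (Fin.cons (s - ∑ i, X i) X) := by
  rw [lintegral_cons hg, lintegral_lintegral_swap
    (f := fun (s : ℝ) (X : E m) => g (Fin.cons (s - ∑ i, X i) X))]
  · refine lintegral_congr fun X => ?_
    exact (lintegral_sub_right_eq_self (fun a => g (Fin.cons a X)) (∑ i, X i)).symm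
  · apply Measurable.aemeasurable
    refine hg.comp (measurable_cons.comp (f := fun q : ℝ × E m => (q.1 - ∑ i, q.2 i, q.2)) ?_)
    fun_prop

lemma lintegral_smul_E {k : ℕ} {s : ℝ} (hs : 0 < s) {g : E k → ℝ≥0∞} (hg : Measurable g) :
    ∫⁻ X, g X = ENNReal.ofReal (s ^ k) * ∫⁻ X, g (s • X) := by
  rw [← lintegral_map hg (measurable_const_smul s), Measure.map_addHaar_smul volume hs.ne',
    lintegral_smul_measure, smul_eq_mul, ← mul_assoc, ← ENNReal.ofReal_mul (by positivity)]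
  simp only [Module.finrank_fintype_fun_eq_card, Fintype.card_fin]
  rw [abs_of_pos (by positivity), mul_inv_cancel₀ (by positivity)]
  simp

/-- the nonnegative orthant -/
def orth (k : ℕ) : Set (E k) := {Y | ∀ i, 0 ≤ Y i}

lemma measurableSet_orth {k : ℕ} : MeasurableSet (orth k) := by
  have : orth k = ⋂ i, {Y | 0 ≤ Y i} := by ext; simp [orth]
  rw [this]
  exact MeasurableSet.iInter fun i => measurableSet_le measurable_const (measurable_pi_apply i)

lemma lintegral_orth {h : E (m + 1) → ℝ≥0∞} (hh : Measurable h) :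
    ∫⁻ Y in orth (m + 1), h Y =
      ∫⁻ s in Ioi (0 : ℝ), ENNReal.ofReal (s ^ m) * ∫⁻ l, h (s • l) ∂mu m := by
  rw [← lintegral_indicator measurableSet_orth,
    lintegral_slice (hh.indicator measurableSet_orth), ← lintegral_indicator measurableSet_Ioi]
  refine lintegral_congr_ae ?_
  have h0 : ∀ᵐ s : ℝ, s ≠ 0 := by simp [ae_iff]
  filter_upwards [h0] with s hs
  rcases lt_or_gt_of_ne hs with hs | hs
  · rw [indicator_of_notMem (by simpa using hs.le)]
    rw [← lintegral_zero (μ := (volume : Measure (E m)))]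
    refine lintegral_congr fun X => indicator_of_notMem (fun hX => ?_) _
    have h1 : 0 ≤ s - ∑ i, X i := hX 0
    have h2 : 0 ≤ ∑ i, X i := Finset.sum_nonneg fun i _ => hX i.succ
    linarith
  · rw [indicator_of_mem (by simpa using hs),
      lintegral_mu_std (f := fun l => h (s • l)) (hh.comp (measurable_const_smul s)),
      lintegral_smul_E hs, ← lintegral_indicator measurableSet_stdS]
    · congr 1
      refine lintegral_congr fun X => ?_
      have he : (Fin.cons (s - ∑ i, (s • X) i) (s • X) : E (m + 1)) =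
          s • (Fin.cons (1 - ∑ i, X i) X : E (m + 1)) := by
        ext j
        refine Fin.cases ?_ (fun i => ?_) j
        · simp [Finset.mul_sum, mul_sub]
        · simp
      rw [he]
      by_cases hX : X ∈ stdS m
      · rw [indicator_of_mem hX, indicator_of_mem]
        intro j
        refine Fin.cases ?_ (fun i => ?_) j
        · simpa using mul_nonneg hs.le (sub_nonneg.2 hX.2)
        · simpa using mul_nonneg hs.le (hX.1 i)
      · rw [indicator_of_notMem hX, indicator_of_notMem]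
        intro hY
        refine hX ⟨fun i => ?_, ?_⟩
        · have := hY i.succ
          simp only [Pi.smul_apply, Fin.cons_succ, smul_eq_mul] at this
          exact nonneg_of_mul_nonneg_right this hs |> fun h => by
            rcases le_total 0 (X i) with h' | h'
            · exact h'
            · nlinarith
        · have := hY 0
          simp only [Pi.smul_apply, Fin.cons_zero, smul_eq_mul] at this
          by_contra hc
          push Not at hc
          nlinarith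
    · refine (hh.indicator measurableSet_orth).comp
        (measurable_cons.comp (f := fun X : E m => (s - ∑ i, X i, X)) ?_)
      fun_prop

/-- the linear map of the orthant onto the cone over the facet -/
noncomputable def A0 (k : ℕ) : E k →ₗ[ℝ] E k where
  toFun Y := fun i => Y i - (∑ i, Y i) / (k + 1)
  map_add' x y := by ext i; simp [Finset.sum_add_distrib]; ring
  map_smul' a x := by ext i; simp [← Finset.mul_sum]; ring

lemma bet_A0 {k : ℕ} (Y : E k) :
    bet k (A0 k Y) = (Fin.cons 0 Y : E (k + 1)) - fun _ => (∑ i, Y i) / (k + 1) := by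
  ext j
  refine Fin.cases ?_ (fun i => ?_) j
  · simp [A0, Finset.sum_sub_distrib]; field_simp; ring
  · simp [A0]

lemma A0_injective {k : ℕ} : Function.Injective (A0 k) := by
  intro x y h
  have h1 := congrArg (bet k) h
  rw [bet_A0, bet_A0] at h1
  ext i
  have h2 := congrFun h1 0
  have h3 := congrFun h1 i.succ
  simp only [Pi.sub_apply, Fin.cons_zero, Fin.cons_succ] at h2 h3
  linarith

lemma det_A0_ne {k : ℕ} : LinearMap.det (A0 k) ≠ 0 := by
  have := (LinearMap.isUnit_iff_ker_eq_bot (A0 k)).2 (LinearMap.ker_eq_bot.2 A0_injective)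
  exact ((LinearMap.isUnit_iff_isUnit_det _).1 this).ne_zero

/-- cone over the facet `j` -/
def Cj (k : ℕ) (j : Fin (k + 1)) : Set (E k) := {z | ∀ i, bet k z j ≤ bet k z i}

lemma measurableSet_Cj {k : ℕ} (j : Fin (k + 1)) : MeasurableSet (Cj k j) := by
  have : Cj k j = ⋂ i, {z | bet k z j ≤ bet k z i} := by ext; simp [Cj]
  rw [this]
  exact MeasurableSet.iInter fun i => measurableSet_le
    ((measurable_pi_apply j).comp continuous_bet.measurable)
    ((measurable_pi_apply i).comp continuous_bet.measurable)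

lemma preimage_A0_C0 {k : ℕ} : A0 k ⁻¹' Cj k 0 = orth k := by
  ext Y
  simp only [mem_preimage, Cj, mem_ofPred_eq, bet_A0, orth, Fin.forall_fin_succ]
  simp

lemma volume_bet_eq {k : ℕ} {i j : Fin (k + 1)} (hij : i ≠ j) :
    volume {z : E k | bet k z i = bet k z j} = 0 := by
  let f : E k →ₗ[ℝ] ℝ := ((LinearMap.proj i : E (k + 1) →ₗ[ℝ] ℝ) -
    (LinearMap.proj j : E (k + 1) →ₗ[ℝ] ℝ)) ∘ₗ bet k
  have h1 : {z : E k | bet k z i = bet k z j} = (LinearMap.ker f : Set (E k)) := by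
    ext z; simp [f, sub_eq_zero]
  rw [h1]
  refine Measure.addHaar_submodule volume _ fun h => ?_
  have hw : ∑ l, (Pi.single i 1 - Pi.single j 1 : E (k + 1)) l = 0 := by
    simp [Finset.sum_sub_distrib]
  have h2 : (fun l : Fin k => (Pi.single i 1 - Pi.single j 1 : E (k + 1)) l.succ) ∈
      LinearMap.ker f := by rw [h]; trivial
  simp only [f, LinearMap.mem_ker, LinearMap.comp_apply, bet_tail hw] at h2
  simp [hij, hij.symm] at h2

lemma lintegral_eq_sum_Cj {k : ℕ} (h : E k → ℝ≥0∞) :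
    ∫⁻ z, h z = ∑ j, ∫⁻ z in Cj k j, h z := by
  have hU : (⋃ j, Cj k j) = univ := by
    refine eq_univ_of_forall fun z => ?_
    obtain ⟨j, -, hj⟩ := Finset.exists_min_image Finset.univ (bet k z) Finset.univ_nonempty
    exact mem_iUnion.2 ⟨j, fun i => hj i (Finset.mem_univ i)⟩
  rw [← setLIntegral_univ, ← hU, lintegral_iUnion₀ (fun j => (measurableSet_Cj j).nullMeasurableSet),
    tsum_fintype]
  intro i j hij
  refine measure_mono_null (fun z hz => ?_) (volume_bet_eq hij)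
  exact le_antisymm (hz.1 j) (hz.2 i)

/-- parametrisation of the cone over facet `j` -/
noncomputable def Pj (k : ℕ) (j : Fin (k + 1)) : E k →ₗ[ℝ] E k := Tp (Equiv.swap 0 j) ∘ₗ A0 k

/-- the Jacobian constant -/
noncomputable def kap (k : ℕ) : ℝ≥0∞ := ENNReal.ofReal |LinearMap.det (A0 k)|

lemma kap_ne_zero {k : ℕ} : kap k ≠ 0 := by
  simp [kap, det_A0_ne]

lemma kap_ne_top {k : ℕ} : kap k ≠ ∞ := ENNReal.ofReal_ne_top

lemma lintegral_Cj {k : ℕ} (j : Fin (k + 1)) {h : E k → ℝ≥0∞} (hh : Measurable h) :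
    ∫⁻ z in Cj k j, h z = kap k * ∫⁻ Y in orth k, h (Pj k j Y) := by
  have h1 := (measurePreserving_Tp (Equiv.swap 0 j)).setLIntegral_comp_preimage
    (measurableSet_Cj j) hh
  have h2 : Tp (Equiv.swap 0 j) ⁻¹' Cj k j = Cj k 0 := by
    ext z
    simp only [mem_preimage, Cj, mem_ofPred_eq, bet_Tp_apply, Equiv.swap_apply_right]
    exact ⟨fun H i => by simpa using H (Equiv.swap 0 j i), fun H i => H _⟩
  rw [h2] at h1
  rw [← h1, ← lintegral_indicator (measurableSet_Cj 0), ← lintegral_indicator measurableSet_orth]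
  have h3 := lintegral_comp_lin (A0 k) det_A0_ne
    ((hh.comp (measurable_lin (Tp (Equiv.swap 0 j)))).indicator (measurableSet_Cj 0))
  have h4 : ∀ Y, (Cj k 0).indicator (h ∘ Tp (Equiv.swap 0 j)) (A0 k Y) =
      (orth k).indicator (fun Y => h (Pj k j Y)) Y := by
    intro Y
    rw [← preimage_A0_C0]
    rfl
  simp_rw [h4] at h3
  rw [h3, ← mul_assoc, kap, ← ENNReal.ofReal_mul (abs_nonneg _), ← abs_mul,
    mul_inv_cancel₀ det_A0_ne]
  simp [Function.comp_def]

/-- radial decomposition of Lebesgue measure over the facets of the centred simplex -/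
lemma lintegral_radial {h : E (m + 1) → ℝ≥0∞} (hh : Measurable h) :
    ∫⁻ z, h z = ∑ j, kap (m + 1) * ∫⁻ s in Ioi (0 : ℝ),
      ENNReal.ofReal (s ^ m) * ∫⁻ l, h (s • Pj (m + 1) j l) ∂mu m := by
  rw [lintegral_eq_sum_Cj]
  refine Finset.sum_congr rfl fun j _ => ?_
  rw [lintegral_Cj j hh, lintegral_orth (h := fun Y => h (Pj (m + 1) j Y))
    (hh.comp (measurable_lin _))]
  simp only [map_smul]

lemma bet_Pj {k : ℕ} (j : Fin (k + 1)) {l : E k} (hl : ∑ i, l i = 1) :
    bet k (Pj k j l) = ((Fin.cons 0 l : E (k + 1)) - uu k) ∘ Equiv.swap 0 j := by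
  rw [Pj, LinearMap.comp_apply, bet_Tp, bet_A0, hl]; rfl

lemma smul_Pj_mem_cS {k : ℕ} (j : Fin (k + 1)) {l : E k} (hl : l ∈ stdSimplex ℝ (Fin k))
    {s r : ℝ} (hs : 0 ≤ s) : s • Pj k j l ∈ cS k r ↔ s ≤ r := by
  have hk : (0 : ℝ) < k + 1 := by positivity
  simp only [cS, mem_ofPred_eq, map_smul, bet_Pj j hl.2, Pi.smul_apply, Function.comp_apply,
    Pi.sub_apply, uu, smul_eq_mul]
  constructor
  · intro H
    have := H j
    rw [Equiv.swap_apply_right, Fin.cons_zero, zero_sub, mul_neg, neg_le_neg_iff, mul_one_div,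
      div_le_div_iff_of_pos_right hk] at this
    exact this
  · intro H i
    have h1 : 0 ≤ (Fin.cons 0 l : E (k + 1)) (Equiv.swap 0 j i) := by
      refine Fin.cases ?_ (fun i => ?_) (Equiv.swap 0 j i)
      · simp
      · simpa using hl.1 i
    have h2 := div_le_div_of_nonneg_right H hk.le
    have h3 := mul_nonneg hs h1
    rw [mul_sub, mul_one_div]
    linarith

end Pool.Agent.MP_5f4cdd_gt

end

section

set_option autoImplicit false
open MeasureTheory ENNReal Set Matrix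

namespace Pool.Agent.MP_5f4cdd_gt

variable {m : ℕ}

lemma ennreal_rearr {a b x y : ℝ≥0∞} (hab : a ≤ b) (hxy : x ≤ y) :
    a * y + b * x ≤ a * x + b * y := by
  obtain ⟨d, rfl⟩ := exists_add_of_le hab
  obtain ⟨e, rfl⟩ := exists_add_of_le hxy
  calc a * (x + e) + (a + d) * x ≤ a * (x + e) + (a + d) * x + d * e := le_self_add
    _ = a * x + (a + d) * (x + e) := by ring

lemma ennreal_rearr_lt {a b x y : ℝ≥0∞} (hab : a < b) (hxy : x < y) (hb : b ≠ ∞) (hy : y ≠ ∞) :
    a * y + b * x < a * x + b * y := by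
  lift b to NNReal using hb
  lift y to NNReal using hy
  lift a to NNReal using (hab.trans coe_lt_top).ne
  lift x to NNReal using (hxy.trans coe_lt_top).ne
  norm_cast at *
  exact mul_add_mul_lt_mul_add_mul hab hxy

lemma cheb {ν : Measure ℝ} [SFinite ν] {F G W : ℝ → ℝ≥0∞} (hFm : Measurable F)
    (hGm : Measurable G) (hWm : Measurable W) {D : Set ℝ} (hD : ∀ᵐ s ∂ν, s ∈ D)
    (hF : MonotoneOn F D) (hGW : ∀ r ∈ D, ∀ s ∈ D, s ≤ r → G s * W r ≤ G r * W s) :
    (∫⁻ s, F s * W s ∂ν) * (∫⁻ s, G s ∂ν) ≤ (∫⁻ s, W s ∂ν) * (∫⁻ s, F s * G s ∂ν) := by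
  have h1 := lintegral_prod_mul (μ := ν) (ν := ν) (hFm.mul hWm).aemeasurable hGm.aemeasurable
  have h2 := lintegral_prod_mul (μ := ν) (ν := ν) hGm.aemeasurable (hFm.mul hWm).aemeasurable
  have h3 := lintegral_prod_mul (μ := ν) (ν := ν) (hFm.mul hGm).aemeasurable hWm.aemeasurable
  have h4 := lintegral_prod_mul (μ := ν) (ν := ν) hWm.aemeasurable (hFm.mul hGm).aemeasurable
  have key : ∫⁻ z : ℝ × ℝ, (F z.1 * W z.1 * G z.2 + G z.1 * (F z.2 * W z.2)) ∂ν.prod ν ≤
      ∫⁻ z : ℝ × ℝ, (F z.1 * G z.1 * W z.2 + W z.1 * (F z.2 * G z.2)) ∂ν.prod ν := by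
    refine lintegral_mono_ae ?_
    filter_upwards [Measure.quasiMeasurePreserving_fst.ae hD,
      Measure.quasiMeasurePreserving_snd.ae hD] with z h1 h2
    rcases le_total z.1 z.2 with h | h
    · have := ennreal_rearr (hF h1 h2 h) (hGW _ h2 _ h1 h)
      calc _ = F z.1 * (G z.2 * W z.1) + F z.2 * (G z.1 * W z.2) := by ring
        _ ≤ _ := this
        _ = _ := by ring
    · have := ennreal_rearr (hF h2 h1 h) (hGW _ h1 _ h2 h)
      calc _ = F z.2 * (G z.1 * W z.2) + F z.1 * (G z.2 * W z.1) := by ring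
        _ ≤ _ := this
        _ = _ := by ring
  rw [lintegral_add_left (by fun_prop), lintegral_add_left (by fun_prop)] at key
  simp only [Pi.mul_apply] at h1 h2 h3 h4
  rw [h1, h2, h3, h4, mul_comm (∫⁻ s, G s ∂ν), mul_comm (∫⁻ s, F s * G s ∂ν), ← two_mul,
    ← two_mul] at key
  exact (ENNReal.mul_le_mul_iff_right two_ne_zero ofNat_ne_top).1 key

/-- point at radius `s` towards the facet point `l` -/
noncomputable def Rs (s : ℝ) (l : E (m + 1)) : E (m + 2) :=
  uu (m + 1) + s • ((Fin.cons 0 l : E (m + 2)) - uu (m + 1))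

lemma ray_mem {x : E (m + 1)} (hx : x ∈ stdSimplex ℝ (Fin (m + 1))) {s : ℝ} (h0 : 0 ≤ s)
    (h1 : s ≤ 1) : uu m + s • (x - uu m) ∈ stdSimplex ℝ (Fin (m + 1)) :=
  (convex_stdSimplex ℝ _).add_smul_sub_mem uu_mem hx ⟨h0, h1⟩

lemma cons_mem {k : ℕ} {l : E k} (hl : l ∈ stdSimplex ℝ (Fin k)) :
    (Fin.cons 0 l : E (k + 1)) ∈ stdSimplex ℝ (Fin (k + 1)) := by
  refine ⟨fun j => ?_, ?_⟩
  · refine Fin.cases ?_ (fun i => ?_) j
    · simp
    · simpa using hl.1 i
  · rw [Fin.sum_univ_succ]; simpa using hl.2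

lemma Rs_mem {l : E (m + 1)} (hl : l ∈ stdSimplex ℝ (Fin (m + 1))) {s : ℝ} (h0 : 0 ≤ s)
    (h1 : s ≤ 1) : Rs s l ∈ stdSimplex ℝ (Fin (m + 2)) := ray_mem (cons_mem hl) h0 h1

lemma measurable_Rs : Measurable fun q : ℝ × E (m + 1) => Rs q.1 q.2 := by
  have : Measurable fun q : ℝ × E (m + 1) => (Fin.cons 0 q.2 : E (m + 2)) :=
    measurable_cons.comp (f := fun q : ℝ × E (m + 1) => ((0 : ℝ), q.2)) (by fun_prop)
  unfold Rs
  fun_prop

lemma measurable_Rs' (s : ℝ) : Measurable fun l : E (m + 1) => Rs s l :=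
  measurable_Rs.comp (f := fun l : E (m + 1) => (s, l)) (by fun_prop)

lemma measurable_bar {H : E (m + 2) → ℝ≥0∞} (hH : Measurable H) :
    Measurable fun s : ℝ => ∫⁻ l, H (Rs s l) ∂mu m :=
  Measurable.lintegral_prod_right' (f := fun q : ℝ × E (m + 1) => H (Rs q.1 q.2))
    (hH.comp measurable_Rs)

lemma lintegral_mu_succ {H : E (m + 2) → ℝ≥0∞} (hH : Measurable H)
    (hs : ∀ σ : Equiv.Perm (Fin (m + 2)), ∀ x ∈ stdSimplex ℝ (Fin (m + 2)), H (x ∘ σ) = H x) :
    ∫⁻ l, H l ∂mu (m + 1) = ((m + 2 : ℕ) * kap (m + 1)) * ∫⁻ s in Ioc (0 : ℝ) 1,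
      ENNReal.ofReal (s ^ m) * ∫⁻ l, H (Rs s l) ∂mu m := by
  rw [lintegral_mu hH, ← lintegral_indicator (measurableSet_cS 1),
    lintegral_radial (h := (cS (m + 1) 1).indicator fun z => H (uu (m + 1) + bet (m + 1) z))
      ((hH.comp continuous_ubet.measurable).indicator (measurableSet_cS 1))]
  have : ∀ j : Fin (m + 2), ∫⁻ s in Ioi (0 : ℝ), ENNReal.ofReal (s ^ m) *
      ∫⁻ l, (cS (m + 1) 1).indicator (fun z => H (uu (m + 1) + bet (m + 1) z))
        (s • Pj (m + 1) j l) ∂mu m = ∫⁻ s in Ioc (0 : ℝ) 1,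
      ENNReal.ofReal (s ^ m) * ∫⁻ l, H (Rs s l) ∂mu m := by
    intro j
    rw [← lintegral_indicator measurableSet_Ioi, ← lintegral_indicator measurableSet_Ioc]
    refine lintegral_congr fun s => ?_
    by_cases h0 : 0 < s
    · rw [indicator_of_mem (by simpa using h0)]
      by_cases h1 : s ≤ 1
      · rw [indicator_of_mem (by exact ⟨h0, h1⟩)]
        congr 1
        refine lintegral_congr_ae ?_
        filter_upwards [ae_mu] with l hl
        rw [indicator_of_mem ((smul_Pj_mem_cS j hl h0.le).2 h1), map_smul,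
          bet_Pj j hl.2, ← hs (Equiv.swap 0 j) _ (Rs_mem hl h0.le h1)]
        rfl
      · rw [indicator_of_notMem (fun h => h1 h.2)]
        rw [lintegral_congr_ae (g := fun _ => 0), lintegral_zero, mul_zero]
        filter_upwards [ae_mu] with l hl
        rw [indicator_of_notMem (fun h => h1 ((smul_Pj_mem_cS j hl h0.le).1 h))]
    · rw [indicator_of_notMem (by simpa using h0), indicator_of_notMem (fun h => h0 h.1)]
  simp_rw [this]
  rw [Finset.sum_const, Finset.card_univ, Fintype.card_fin, nsmul_eq_mul, mul_assoc]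

/-- symmetric convex functions on the probability simplex -/
structure Good {k : ℕ} (f : E k → ℝ) : Prop where
  meas : Measurable f
  conv : ConvexOn ℝ (stdSimplex ℝ (Fin k)) f
  symm : ∀ σ : Equiv.Perm (Fin k), ∀ x ∈ stdSimplex ℝ (Fin k), f (x ∘ σ) = f x

lemma perm_mem {k : ℕ} (σ : Equiv.Perm (Fin k)) {x : E k} (hx : x ∈ stdSimplex ℝ (Fin k)) :
    x ∘ σ ∈ stdSimplex ℝ (Fin k) :=
  ⟨fun i => hx.1 _, by simpa using (Equiv.sum_comp σ x).trans hx.2⟩

lemma Good.min {f : E (m + 1) → ℝ} (hf : Good f) {x : E (m + 1)}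
    (hx : x ∈ stdSimplex ℝ (Fin (m + 1))) : f (uu m) ≤ f x := by
  have hm : (0 : ℝ) < m + 1 := by positivity
  have h1 : ∑ _k : Fin (m + 1), (1 / (m + 1) : ℝ) = 1 := by
    simp only [Finset.sum_const, Finset.card_univ, Fintype.card_fin, nsmul_eq_mul]
    push_cast; field_simp
  have h2 := hf.conv.map_sum_le (t := Finset.univ) (w := fun _ => (1 / (m + 1) : ℝ))
    (p := fun k : Fin (m + 1) => x ∘ Equiv.addRight k) (fun _ _ => by positivity) h1
    (fun k _ => perm_mem _ hx)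
  have h3 : ∑ k : Fin (m + 1), (1 / (m + 1) : ℝ) • (x ∘ Equiv.addRight k) = uu m := by
    ext i
    simp only [Finset.sum_apply, Pi.smul_apply, Function.comp_apply, Equiv.coe_addRight,
      smul_eq_mul, ← Finset.mul_sum, uu]
    have := Equiv.sum_comp (Equiv.addLeft i) x
    simp only [Equiv.coe_addLeft] at this
    rw [this, hx.2, mul_one]
  rw [h3] at h2
  simp only [fun k : Fin (m + 1) => hf.symm (Equiv.addRight k) x hx, smul_eq_mul,
    ← Finset.sum_mul, h1, one_mul] at h2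
  exact h2

lemma ray_split {x : E (m + 1)} {s r : ℝ} (hr : 0 < r) :
    uu m + s • (x - uu m) = (1 - s / r) • uu m + (s / r) • (uu m + r • (x - uu m)) := by
  ext i
  simp only [Pi.add_apply, Pi.smul_apply, Pi.sub_apply, smul_eq_mul]
  field_simp; ring

lemma ray_le {f : E (m + 1) → ℝ} (hf : ConvexOn ℝ (stdSimplex ℝ (Fin (m + 1))) f) {x : E (m + 1)}
    (hx : x ∈ stdSimplex ℝ (Fin (m + 1))) {s r : ℝ} (hs : 0 ≤ s) (hsr : s ≤ r) (hr : 0 < r)
    (hr1 : r ≤ 1) :
    f (uu m + s • (x - uu m)) ≤ (1 - s / r) * f (uu m) + (s / r) * f (uu m + r • (x - uu m)) := by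
  rw [ray_split hr]
  have h1 : s / r ≤ 1 := (div_le_one hr).2 hsr
  exact hf.2 uu_mem (ray_mem hx hr.le hr1) (by linarith) (by positivity) (by ring)

lemma Good.ray_mono {f : E (m + 1) → ℝ} (hf : Good f) {x : E (m + 1)}
    (hx : x ∈ stdSimplex ℝ (Fin (m + 1))) {s r : ℝ} (hs : 0 ≤ s) (hsr : s ≤ r) (hr1 : r ≤ 1) :
    f (uu m + s • (x - uu m)) ≤ f (uu m + r • (x - uu m)) := by
  rcases (hs.trans hsr).eq_or_lt with hr | hr
  · have : s = r := by linarith
    rw [this]
  · have h1 := ray_le hf.conv hx hs hsr hr hr1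
    have h2 := hf.min (ray_mem hx hr.le hr1)
    have h3 : s / r ≤ 1 := (div_le_one hr).2 hsr
    nlinarith

lemma Rs_combo (s : ℝ) (x y : E (m + 1)) {a b : ℝ} (hab : a + b = 1) :
    Rs s (a • x + b • y) = a • Rs s x + b • Rs s y := by
  obtain rfl : b = 1 - a := by linarith
  ext j
  refine Fin.cases ?_ (fun i => ?_) j
  · simp [Rs]; ring
  · simp [Rs]; ring

lemma Good.restrict {f : E (m + 2) → ℝ} (hf : Good f) {s : ℝ} (h0 : 0 ≤ s) (h1 : s ≤ 1) :
    Good fun l : E (m + 1) => f (Rs s l) := by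
  refine ⟨hf.meas.comp (measurable_Rs' s), ⟨convex_stdSimplex ℝ _, ?_⟩, ?_⟩
  · intro x hx y hy a b ha hb hab
    simp only [Rs_combo s x y hab]
    exact hf.conv.2 (Rs_mem hx h0 h1) (Rs_mem hy h0 h1) ha hb hab
  · intro σ x hx
    rw [← hf.symm (Equiv.Perm.decomposeFin.symm (0, σ)) _ (Rs_mem hx h0 h1)]
    congr 1
    ext j
    refine Fin.cases ?_ (fun i => ?_) j
    · simp [Rs, uu]
    · simp [Rs, uu]

lemma ae_mu_zero : ∀ᵐ l ∂mu 0, l = uu 0 := by
  filter_upwards [ae_mu] with l hl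
  ext i
  have := hl.2
  rw [Fin.sum_univ_succ] at this
  simp only [uu]
  rw [Fin.fin_one_eq_zero i]
  simpa using this

lemma mu_succ_univ : mu (m + 1) univ = ((m + 2 : ℕ) * kap (m + 1)) *
    ((∫⁻ s in Ioc (0 : ℝ) 1, ENNReal.ofReal (s ^ m)) * mu m univ) := by
  have := lintegral_mu_succ (m := m) (H := fun _ => 1) measurable_const (fun _ _ _ => rfl)
  simp only [lintegral_const, one_mul] at this
  rw [this, lintegral_mul_const _ (by fun_prop)]

lemma Good.bar_mono {f : E (m + 2) → ℝ} (hf : Good f) :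
    MonotoneOn (fun s => ∫⁻ l, ENNReal.ofReal (f (Rs s l)) ∂mu m) (Ioc 0 1) := by
  intro s hs r hr hsr
  refine lintegral_mono_ae ?_
  filter_upwards [ae_mu] with l hl
  exact ENNReal.ofReal_le_ofReal (hf.ray_mono (cons_mem hl) hs.1.le hsr hr.2)

theorem corr (m : ℕ) : ∀ (f g : E (m + 1) → ℝ), Good f → Good g →
    (∫⁻ l, ENNReal.ofReal (f l) ∂mu m) * (∫⁻ l, ENNReal.ofReal (g l) ∂mu m) ≤
      mu m univ * ∫⁻ l, ENNReal.ofReal (f l) * ENNReal.ofReal (g l) ∂mu m := by
  induction m with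
  | zero =>
    intro f g _ _
    rw [lintegral_congr_ae (g := fun _ => ENNReal.ofReal (f (uu 0))),
      lintegral_congr_ae (f := fun l => ENNReal.ofReal (g l))
        (g := fun _ => ENNReal.ofReal (g (uu 0))),
      lintegral_congr_ae (f := fun l => ENNReal.ofReal (f l) * ENNReal.ofReal (g l))
        (g := fun _ => ENNReal.ofReal (f (uu 0)) * ENNReal.ofReal (g (uu 0)))]
    · simp only [lintegral_const]
      apply le_of_eq; ring
    all_goals filter_upwards [ae_mu_zero] with l hl; rw [hl]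
  | succ m ih =>
    intro f g hf hg
    have hfm := hf.meas.ennreal_ofReal
    have hgm := hg.meas.ennreal_ofReal
    rw [lintegral_mu_succ hfm (fun σ x hx => by rw [hf.symm σ x hx]),
      lintegral_mu_succ hgm (fun σ x hx => by rw [hg.symm σ x hx]),
      lintegral_mu_succ (H := fun l => ENNReal.ofReal (f l) * ENNReal.ofReal (g l)) (hfm.mul hgm)
        (fun σ x hx => by rw [hf.symm σ x hx, hg.symm σ x hx]), mu_succ_univ]
    set c : ℝ≥0∞ := ((m + 2 : ℕ) * kap (m + 1))
    set F : ℝ → ℝ≥0∞ := fun s => ∫⁻ l, ENNReal.ofReal (f (Rs s l)) ∂mu m with hF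
    set G : ℝ → ℝ≥0∞ := fun s => ∫⁻ l, ENNReal.ofReal (g (Rs s l)) ∂mu m with hG
    have hFm : Measurable F := measurable_bar hfm
    have hGm : Measurable G := measurable_bar hgm
    have hW : Measurable fun s : ℝ => ENNReal.ofReal (s ^ m) := by fun_prop
    have h1 := cheb (ν := volume.restrict (Ioc (0 : ℝ) 1)) (F := F)
      (G := fun s => ENNReal.ofReal (s ^ m) * G s) (W := fun s => ENNReal.ofReal (s ^ m))
      hFm (hW.mul hGm) hW (ae_restrict_mem measurableSet_Ioc) hf.bar_mono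
      (fun r hr s hs hsr => by
        have := hg.bar_mono hs hr hsr
        calc _ = ENNReal.ofReal (s ^ m) * ENNReal.ofReal (r ^ m) * G s := by ring
          _ ≤ ENNReal.ofReal (s ^ m) * ENNReal.ofReal (r ^ m) * G r := by gcongr
          _ = _ := by ring)
    have h2 : ∫⁻ s in Ioc (0 : ℝ) 1, F s * (ENNReal.ofReal (s ^ m) * G s) ≤
        mu m univ * ∫⁻ s in Ioc (0 : ℝ) 1, ENNReal.ofReal (s ^ m) *
          ∫⁻ l, ENNReal.ofReal (f (Rs s l)) * ENNReal.ofReal (g (Rs s l)) ∂mu m := by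
      rw [← lintegral_const_mul' _ _ (measure_ne_top _ _)]
      refine setLIntegral_mono' measurableSet_Ioc fun s hs => ?_
      have := ih _ _ (hf.restrict hs.1.le hs.2) (hg.restrict hs.1.le hs.2)
      calc _ = ENNReal.ofReal (s ^ m) * (F s * G s) := by ring
        _ ≤ ENNReal.ofReal (s ^ m) * (mu m univ * _) := by gcongr
        _ = _ := by ring
    simp_rw [mul_comm (F _) (ENNReal.ofReal _)] at h1
    calc _ = c * c * ((∫⁻ s in Ioc (0 : ℝ) 1, ENNReal.ofReal (s ^ m) * F s) *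
            ∫⁻ s in Ioc (0 : ℝ) 1, ENNReal.ofReal (s ^ m) * G s) := by ring
      _ ≤ c * c * ((∫⁻ s in Ioc (0 : ℝ) 1, ENNReal.ofReal (s ^ m)) * (mu m univ * _)) :=
        mul_le_mul_right (h1.trans (mul_le_mul_right h2 _)) _
      _ = _ := by ring

/-- symmetrisation -/
noncomputable def symz {k : ℕ} (g : E k → ℝ) (x : E k) : ℝ := ∑ σ : Equiv.Perm (Fin k), g (x ∘ σ)

lemma good_symz {k : ℕ} {g : E k → ℝ} (hm : Measurable g)
    (hc : ConvexOn ℝ (stdSimplex ℝ (Fin k)) g) : Good (symz g) := by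
  refine ⟨Finset.measurable_sum _ fun σ _ => hm.comp (measurable_perm σ),
    ⟨convex_stdSimplex ℝ _, ?_⟩, ?_⟩
  · intro x hx y hy a b ha hb hab
    simp only [symz, smul_eq_mul, Finset.mul_sum, ← Finset.sum_add_distrib]
    exact Finset.sum_le_sum fun σ _ => hc.2 (perm_mem σ hx) (perm_mem σ hy) ha hb hab
  · intro τ x _
    exact Equiv.sum_comp (Equiv.mulLeft τ) (fun σ : Equiv.Perm (Fin k) => g (x ∘ σ))

lemma lintegral_symz {f : E (m + 1) → ℝ≥0∞} {g : E (m + 1) → ℝ} (hf : Measurable f)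
    (hs : ∀ σ : Equiv.Perm (Fin (m + 1)), ∀ x ∈ stdSimplex ℝ (Fin (m + 1)), f (x ∘ σ) = f x)
    (hm : Measurable g) (h0 : ∀ x ∈ stdSimplex ℝ (Fin (m + 1)), 0 ≤ g x) :
    ∫⁻ l, f l * ENNReal.ofReal (symz g l) ∂mu m =
      Fintype.card (Equiv.Perm (Fin (m + 1))) * ∫⁻ l, f l * ENNReal.ofReal (g l) ∂mu m := by
  have h1 : ∫⁻ l, f l * ENNReal.ofReal (symz g l) ∂mu m =
      ∫⁻ l, ∑ σ : Equiv.Perm (Fin (m + 1)), f (l ∘ σ) * ENNReal.ofReal (g (l ∘ σ)) ∂mu m := by
    refine lintegral_congr_ae ?_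
    filter_upwards [ae_mu] with l hl
    rw [symz, ENNReal.ofReal_sum_of_nonneg (fun σ _ => h0 _ (perm_mem σ hl)), Finset.mul_sum]
    exact Finset.sum_congr rfl fun σ _ => by rw [hs σ l hl]
  rw [h1, lintegral_finsetSum
    (f := fun (σ : Equiv.Perm (Fin (m + 1))) l => f (l ∘ σ) * ENNReal.ofReal (g (l ∘ σ))) _
    (fun σ _ => (hf.mul hm.ennreal_ofReal).comp (measurable_perm σ))]
  rw [Finset.sum_congr rfl fun σ _ => lintegral_mu_perm σ
    (f := fun l => f l * ENNReal.ofReal (g l)) (hf.mul hm.ennreal_ofReal)]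
  simp

lemma strict_cheb {F : ℝ → ℝ≥0∞} (hFm : Measurable F) (hF : StrictMonoOn F (Icc 0 1))
    (hfin : F 1 ≠ ∞) :
    (∫⁻ s in Ioc (0 : ℝ) 1, ENNReal.ofReal (s ^ m) * F s) *
      (∫⁻ s in Ioc (0 : ℝ) 1, ENNReal.ofReal (s ^ m) * ENNReal.ofReal s) <
    (∫⁻ s in Ioc (0 : ℝ) 1, ENNReal.ofReal (s ^ m)) *
      ∫⁻ s in Ioc (0 : ℝ) 1, F s * (ENNReal.ofReal (s ^ m) * ENNReal.ofReal s) := by
  set a := ∫⁻ s in Ioc (0 : ℝ) 1, ENNReal.ofReal (s ^ m) with ha
  set b := ∫⁻ s in Ioc (0 : ℝ) 1, ENNReal.ofReal (s ^ m) * ENNReal.ofReal s with hb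
  set A := ∫⁻ s in Ioc (0 : ℝ) 1, ENNReal.ofReal (s ^ m) * F s with hA
  set B := ∫⁻ s in Ioc (0 : ℝ) 1, F s * (ENNReal.ofReal (s ^ m) * ENNReal.ofReal s) with hB
  have hW : Measurable fun s : ℝ => ENNReal.ofReal (s ^ m) := by fun_prop
  have hw1 : ∀ s ∈ Ioc (0 : ℝ) 1, ENNReal.ofReal (s ^ m) ≤ 1 := fun s hs =>
    ENNReal.ofReal_le_one.2 (pow_le_one₀ hs.1.le hs.2)
  have ha1 : a ≤ 1 := by
    calc a ≤ ∫⁻ _s in Ioc (0 : ℝ) 1, 1 := setLIntegral_mono' measurableSet_Ioc hw1
      _ = 1 := by simp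
  have hba : b ≤ a := setLIntegral_mono' measurableSet_Ioc fun s hs =>
    mul_le_of_le_one_right' (ENNReal.ofReal_le_one.2 hs.2)
  have hat : a ≠ ∞ := ne_top_of_le_ne_top one_ne_top ha1
  have hbt : b ≠ ∞ := ne_top_of_le_ne_top hat hba
  have hne : (volume.restrict (Ioc (0 : ℝ) 1)) ≠ 0 := by simp
  have ha0 : a ≠ 0 := by
    have : ∫⁻ _s in Ioc (0 : ℝ) 1, 0 < a := by
      refine lintegral_strict_mono hne hW.aemeasurable (by simp) ?_
      filter_upwards [ae_restrict_mem measurableSet_Ioc] with s hs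
      exact ENNReal.ofReal_pos.2 (pow_pos hs.1 _)
    simpa using this.ne'
  set r : ℝ := b.toReal / a.toReal with hr
  have hapos : 0 < a.toReal := ENNReal.toReal_pos ha0 hat
  have hr0 : 0 ≤ r := by positivity
  have hr1 : r ≤ 1 := (div_le_one hapos).2 (ENNReal.toReal_mono hat hba)
  have hra : ENNReal.ofReal r * a = b := by
    rw [hr, ENNReal.ofReal_div_of_pos hapos, ENNReal.ofReal_toReal hbt, ENNReal.ofReal_toReal hat,
      ENNReal.div_mul_cancel ha0 hat]
  have hFt : ∀ s ∈ Icc (0 : ℝ) 1, F s ≠ ∞ := fun s hs =>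
    ne_top_of_le_ne_top hfin (hF.monotoneOn hs ⟨zero_le_one, le_rfl⟩ hs.2)
  have hAt : A ≠ ∞ := by
    have : A ≤ ∫⁻ _s in Ioc (0 : ℝ) 1, F 1 := setLIntegral_mono' measurableSet_Ioc fun s hs =>
      (mul_le_of_le_one_left' (hw1 s hs)).trans
        (hF.monotoneOn ⟨hs.1.le, hs.2⟩ ⟨zero_le_one, le_rfl⟩ hs.2)
    exact ne_top_of_le_ne_top (by simpa using hfin) this
  have hFr := hFt r ⟨hr0, hr1⟩
  have e1 : ∫⁻ s in Ioc (0 : ℝ) 1, ENNReal.ofReal (s ^ m) *
      (F s * ENNReal.ofReal r + F r * ENNReal.ofReal s) = ENNReal.ofReal r * A + F r * b := by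
    rw [hA, hb, ← lintegral_const_mul _ (by fun_prop), ← lintegral_const_mul _ (by fun_prop),
      ← lintegral_add_left (by fun_prop)]
    exact lintegral_congr fun s => by ring
  have e2 : ∫⁻ s in Ioc (0 : ℝ) 1, ENNReal.ofReal (s ^ m) *
      (F s * ENNReal.ofReal s + F r * ENNReal.ofReal r) = B + F r * b := by
    rw [← hra, hB, ha, ← mul_assoc, ← lintegral_const_mul _ hW, ← lintegral_add_left (by fun_prop)]
    exact lintegral_congr fun s => by ring
  have key : ENNReal.ofReal r * A + F r * b < B + F r * b := by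
    rw [← e1, ← e2]
    refine lintegral_strict_mono hne (by fun_prop) ?_ ?_
    · rw [e1]; finiteness
    · have h0 : ∀ᵐ s : ℝ, s ≠ r := by simp [ae_iff]
      filter_upwards [ae_restrict_mem measurableSet_Ioc, ae_restrict_of_ae h0] with s hs hsr
      refine ENNReal.mul_lt_mul_right (by simpa using pow_pos hs.1 _) ENNReal.ofReal_ne_top ?_
      have hs' : s ∈ Icc (0 : ℝ) 1 := ⟨hs.1.le, hs.2⟩
      rcases lt_or_gt_of_ne hsr with h | h
      · exact ennreal_rearr_lt (hF hs' ⟨hr0, hr1⟩ h)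
          ((ENNReal.ofReal_lt_ofReal_iff (hs.1.trans h)).2 h) hFr ENNReal.ofReal_ne_top
      · have := ennreal_rearr_lt (hF ⟨hr0, hr1⟩ hs' h)
          ((ENNReal.ofReal_lt_ofReal_iff hs.1).2 h) (hFt s hs') ENNReal.ofReal_ne_top
        rwa [add_comm, add_comm (F r * ENNReal.ofReal r)] at this
  have key2 : ENNReal.ofReal r * A < B := lt_of_add_lt_add_right key
  calc A * b = a * (ENNReal.ofReal r * A) := by rw [← hra]; ring
    _ < a * B := ENNReal.mul_lt_mul_right ha0 hat key2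

theorem strict_corr (m : ℕ) (f : E (m + 1) → ℝ) (hf : Good f)
    (hfin : ∃ B, ∀ x ∈ stdSimplex ℝ (Fin (m + 1)), f x ≤ B)
    (hpos : ∀ x ∈ stdSimplex ℝ (Fin (m + 1)), 0 < f x)
    (hstrict : ∀ x ∈ stdSimplex ℝ (Fin (m + 1)), x ≠ uu m →
      StrictMonoOn (fun t : ℝ => f (uu m + t • (x - uu m))) (Icc 0 1)) :
    ∃ κ : ℝ, 0 < κ ∧ ∀ g : E (m + 1) → ℝ, Measurable g →
      ConvexOn ℝ (stdSimplex ℝ (Fin (m + 1))) g → (∀ x ∈ stdSimplex ℝ (Fin (m + 1)), 0 ≤ g x) →
      g (uu m) = 0 →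
      ((∫⁻ l, ENNReal.ofReal (f l) ∂mu m) + ENNReal.ofReal κ) *
        (∫⁻ l, ENNReal.ofReal (g l) ∂mu m) ≤
      mu m univ * ∫⁻ l, ENNReal.ofReal (f l) * ENNReal.ofReal (g l) ∂mu m := by
  cases m with
  | zero =>
    refine ⟨1, one_pos, fun g _ _ _ hg0 => ?_⟩
    rw [lintegral_congr_ae (f := fun l => ENNReal.ofReal (g l)) (g := fun _ => 0)]
    · simp
    · filter_upwards [ae_mu_zero] with l hl; rw [hl, hg0]; simp
  | succ m =>
    obtain ⟨Bd, hBd⟩ := hfin
    have hfm := hf.meas.ennreal_ofReal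
    set c : ℝ≥0∞ := ((m + 2 : ℕ) * kap (m + 1)) with hc
    have hc0 : c ≠ 0 := mul_ne_zero (by simp) kap_ne_zero
    have hct : c ≠ ∞ := ENNReal.mul_ne_top (by simp) kap_ne_top
    set F : ℝ → ℝ≥0∞ := fun s => ∫⁻ l, ENNReal.ofReal (f (Rs s l)) ∂mu m with hF
    have hFm : Measurable F := measurable_bar hfm
    have hFt : ∀ s ∈ Icc (0 : ℝ) 1, F s ≠ ∞ := by
      intro s hs
      have : F s ≤ ∫⁻ _l, ENNReal.ofReal Bd ∂mu m := by
        refine lintegral_mono_ae ?_
        filter_upwards [ae_mu] with l hl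
        exact ENNReal.ofReal_le_ofReal (hBd _ (Rs_mem hl hs.1 hs.2))
      refine ne_top_of_le_ne_top ?_ this
      rw [lintegral_const]; finiteness
    have hFs : StrictMonoOn F (Icc 0 1) := by
      intro s hs r hr hsr
      refine lintegral_strict_mono mu_ne_zero (hfm.comp (measurable_Rs' r)).aemeasurable
        (hFt s hs) ?_
      filter_upwards [ae_mu] with l hl
      refine (ENNReal.ofReal_lt_ofReal_iff (hpos _ (Rs_mem hl hr.1 hr.2))).2 ?_
      refine hstrict _ (cons_mem hl) (fun h => ?_) hs hr hsr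
      have := congrFun h 0
      simp only [Fin.cons_zero, uu] at this
      have h2 : (0 : ℝ) < 1 / ((m + 1 : ℕ) + 1) := by positivity
      linarith
    have hsc := strict_cheb (m := m) hFm hFs (hFt 1 ⟨zero_le_one, le_rfl⟩)
    set a := ∫⁻ s in Ioc (0 : ℝ) 1, ENNReal.ofReal (s ^ m) with ha
    set b := ∫⁻ s in Ioc (0 : ℝ) 1, ENNReal.ofReal (s ^ m) * ENNReal.ofReal s with hb
    set A := ∫⁻ s in Ioc (0 : ℝ) 1, ENNReal.ofReal (s ^ m) * F s with hA
    set B := ∫⁻ s in Ioc (0 : ℝ) 1, F s * (ENNReal.ofReal (s ^ m) * ENNReal.ofReal s) with hB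
    have hb1 : b ≤ 1 := by
      calc b ≤ ∫⁻ _s in Ioc (0 : ℝ) 1, 1 := setLIntegral_mono' measurableSet_Ioc fun s hs =>
            mul_le_one' (ENNReal.ofReal_le_one.2 (pow_le_one₀ hs.1.le hs.2))
              (ENNReal.ofReal_le_one.2 hs.2)
        _ = 1 := by simp
    have hb0 : b ≠ 0 := by
      have : ∫⁻ _s in Ioc (0 : ℝ) 1, 0 < b := by
        refine lintegral_strict_mono (by simp) (by fun_prop) (by simp) ?_
        filter_upwards [ae_restrict_mem measurableSet_Ioc] with s hs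
        exact ENNReal.mul_pos (by simpa using pow_pos hs.1 _) (by simpa using hs.1)
      simpa using this.ne'
    obtain ⟨k, hk0, hk⟩ := ENNReal.lt_iff_exists_add_pos_lt.1
      (ENNReal.mul_lt_mul_right hc0 hct hsc)
    refine ⟨k, hk0, fun g hgm hgc hg0 hgu => ?_⟩
    have hg := good_symz hgm hgc
    have hN0 : (Fintype.card (Equiv.Perm (Fin (m + 1 + 1))) : ℝ≥0∞) ≠ 0 := by
      simp [Fintype.card_ne_zero]
    have hNt : (Fintype.card (Equiv.Perm (Fin (m + 1 + 1))) : ℝ≥0∞) ≠ ∞ := by simp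
    have s1 := lintegral_symz (f := fun _ => 1) measurable_const (fun _ _ _ => rfl) hgm hg0
    have s2 := lintegral_symz hfm (fun σ x hx => by rw [hf.symm σ x hx]) hgm hg0
    simp only [one_mul] at s1
    rw [← ENNReal.mul_le_mul_iff_right hN0 hNt, mul_left_comm, ← s1, mul_left_comm, ← s2]
    have hgm' := hg.meas.ennreal_ofReal
    rw [lintegral_mu_succ hfm (fun σ x hx => by rw [hf.symm σ x hx]),
      lintegral_mu_succ hgm' (fun σ x hx => by rw [hg.symm σ x hx]),
      lintegral_mu_succ (H := fun l => ENNReal.ofReal (f l) * ENNReal.ofReal (symz g l))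
        (hfm.mul hgm') (fun σ x hx => by rw [hf.symm σ x hx, hg.symm σ x hx]), mu_succ_univ]
    set G : ℝ → ℝ≥0∞ := fun s => ∫⁻ l, ENNReal.ofReal (symz g (Rs s l)) ∂mu m with hG
    have hGm : Measurable G := measurable_bar hgm'
    have hW : Measurable fun s : ℝ => ENNReal.ofReal (s ^ m) := by fun_prop
    have hgu' : symz g (uu (m + 1)) = 0 := Finset.sum_eq_zero fun σ _ => hgu
    have h1 := cheb (ν := volume.restrict (Ioc (0 : ℝ) 1)) (F := F)
      (G := fun s => ENNReal.ofReal (s ^ m) * G s)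
      (W := fun s => ENNReal.ofReal (s ^ m) * ENNReal.ofReal s)
      hFm (hW.mul hGm) (by fun_prop) (ae_restrict_mem measurableSet_Ioc) hf.bar_mono
      (fun r hr s hs hsr => by
        have : ENNReal.ofReal r * G s ≤ ENNReal.ofReal s * G r := by
          rw [hG, ← lintegral_const_mul' _ _ ENNReal.ofReal_ne_top,
            ← lintegral_const_mul' _ _ ENNReal.ofReal_ne_top]
          refine lintegral_mono_ae ?_
          filter_upwards [ae_mu] with l hl
          rw [← ENNReal.ofReal_mul hr.1.le, ← ENNReal.ofReal_mul hs.1.le]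
          refine ENNReal.ofReal_le_ofReal ?_
          have h3 := ray_le hg.conv (cons_mem hl) hs.1.le hsr hr.1 hr.2
          rw [hgu', mul_zero, zero_add, div_mul_eq_mul_div, le_div_iff₀ hr.1, mul_comm] at h3
          exact h3
        calc _ = ENNReal.ofReal (s ^ m) * ENNReal.ofReal (r ^ m) * (ENNReal.ofReal r * G s) := by
              ring
          _ ≤ ENNReal.ofReal (s ^ m) * ENNReal.ofReal (r ^ m) * (ENNReal.ofReal s * G r) := by
              gcongr
          _ = _ := by ring)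
    have h2 : ∫⁻ s in Ioc (0 : ℝ) 1, F s * (ENNReal.ofReal (s ^ m) * G s) ≤
        mu m univ * ∫⁻ s in Ioc (0 : ℝ) 1, ENNReal.ofReal (s ^ m) *
          ∫⁻ l, ENNReal.ofReal (f (Rs s l)) * ENNReal.ofReal (symz g (Rs s l)) ∂mu m := by
      rw [← lintegral_const_mul' _ _ (measure_ne_top _ _)]
      refine setLIntegral_mono' measurableSet_Ioc fun s hs => ?_
      have := corr m _ _ (hf.restrict hs.1.le hs.2) (hg.restrict hs.1.le hs.2)
      calc _ = ENNReal.ofReal (s ^ m) * (F s * G s) := by ring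
        _ ≤ ENNReal.ofReal (s ^ m) * (mu m univ * _) := by gcongr
        _ = _ := by ring
    set Γ := ∫⁻ s in Ioc (0 : ℝ) 1, ENNReal.ofReal (s ^ m) * G s with hΓ
    set X := ∫⁻ s in Ioc (0 : ℝ) 1, ENNReal.ofReal (s ^ m) *
          ∫⁻ l, ENNReal.ofReal (f (Rs s l)) * ENNReal.ofReal (symz g (Rs s l)) ∂mu m with hX
    have h3 : B * Γ ≤ b * (mu m univ * X) := h1.trans (mul_le_mul_right h2 _)
    rw [← ENNReal.mul_le_mul_iff_right hb0 (ne_top_of_le_ne_top one_ne_top hb1),
      ENNReal.ofReal_coe_nnreal]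
    calc b * ((c * A + k) * (c * Γ)) = (c * (A * b) + b * k) * (c * Γ) := by ring
      _ ≤ (c * (A * b) + k) * (c * Γ) := by gcongr; exact mul_le_of_le_one_left' hb1
      _ ≤ (c * (a * B)) * (c * Γ) := by gcongr
      _ = c * c * a * (B * Γ) := by ring
      _ ≤ c * c * a * (b * (mu m univ * X)) := by gcongr
      _ = _ := by ring

end Pool.Agent.MP_5f4cdd_gt

end

section

set_option autoImplicit false
open MeasureTheory ENNReal Set Matrix Topology

namespace Pool.Agent.MP_5f4cdd_gt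

variable {m : ℕ}

lemma lintegral_radial' {h : E (m + 1) → ℝ≥0∞} (hh : Measurable h) :
    ∫⁻ z, h z = ∑ j, kap (m + 1) * ∫⁻ l, (∫⁻ s in Ioi (0 : ℝ),
      ENNReal.ofReal (s ^ m) * h (s • Pj (m + 1) j l)) ∂mu m := by
  rw [lintegral_radial hh]
  refine Finset.sum_congr rfl fun j _ => ?_
  congr 1
  have hm : Measurable fun q : ℝ × E (m + 1) => h (q.1 • Pj (m + 1) j q.2) :=
    hh.comp (measurable_fst.smul ((measurable_lin _).comp measurable_snd))
  rw [← lintegral_lintegral_swap]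
  · refine lintegral_congr fun s => ?_
    rw [lintegral_const_mul' _ _ ENNReal.ofReal_ne_top]
  · apply Measurable.aemeasurable
    exact Measurable.mul (f := fun q : ℝ × E (m + 1) => ENNReal.ofReal (q.1 ^ m)) (by fun_prop) hm

/-- the properties of the dual potential that the geometric part uses -/
structure Nice (m : ℕ) (R : ℝ) (Φ : E (m + 1) → ℝ) : Prop where
  hR : 1 < R
  meas : Measurable Φ
  cont : ContinuousOn Φ (cS (m + 1) R)
  pos : ∀ z, z ∈ cS (m + 1) R → 0 < Φ z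
  symm : ∀ σ z, Φ (Tp σ z) = Φ z
  sconv : StrictConvexOn ℝ (cS (m + 1) 1) Φ

lemma Pj_mem {k : ℕ} (j : Fin (k + 1)) {l : E k} (hl : l ∈ stdSimplex ℝ (Fin k)) :
    Pj k j l ∈ cS k 1 := by
  have := (smul_Pj_mem_cS j hl (s := 1) (r := 1) zero_le_one).2 le_rfl
  simpa using this

lemma A0_mem {k : ℕ} {l : E k} (hl : l ∈ stdSimplex ℝ (Fin k)) : A0 k l ∈ cS k 1 :=
  (Tp_mem_cS (Equiv.swap 0 0)).1 (Pj_mem 0 hl)

lemma A0_perm {k : ℕ} (σ : Equiv.Perm (Fin k)) (l : E k) :
    A0 k (l ∘ σ) = Tp (Equiv.Perm.decomposeFin.symm (0, σ)) (A0 k l) := by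
  apply bet_injective
  rw [bet_Tp, bet_A0, bet_A0]
  have : ∑ i, (l ∘ σ) i = ∑ i, l i := Equiv.sum_comp σ l
  rw [this]
  ext j
  refine Fin.cases ?_ (fun i => ?_) j
  · simp
  · simp

variable {R : ℝ} {Φ : E (m + 1) → ℝ}

lemma Nice.good (h : Nice m R Φ) : Good fun l => Φ (A0 (m + 1) l) := by
  refine ⟨h.meas.comp (measurable_lin _), ⟨convex_stdSimplex ℝ _, ?_⟩, ?_⟩
  · intro x hx y hy a b ha hb hab
    simp only [map_add, map_smul]
    exact h.sconv.convexOn.2 (A0_mem hx) (A0_mem hy) ha hb hab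
  · intro σ x _
    rw [A0_perm, h.symm]

lemma Nice.strict (h : Nice m R Φ) {x : E (m + 1)} (hx : x ∈ stdSimplex ℝ (Fin (m + 1)))
    (hne : x ≠ uu m) :
    StrictMonoOn (fun t : ℝ => Φ (A0 (m + 1) (uu m + t • (x - uu m)))) (Icc 0 1) := by
  have key : ∀ s r : ℝ, 0 < s → s < r → r ≤ 1 →
      Φ (A0 (m + 1) (uu m + s • (x - uu m))) < Φ (A0 (m + 1) (uu m + r • (x - uu m))) := by
    intro s r hs hsr hr1
    have hr : 0 < r := hs.trans hsr
    have h1 : s / r < 1 := (div_lt_one hr).2 hsr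
    have hne' : A0 (m + 1) (uu m) ≠ A0 (m + 1) (uu m + r • (x - uu m)) := by
      intro he
      have := A0_injective he
      rw [left_eq_add, smul_eq_zero, sub_eq_zero] at this
      rcases this with h | h
      · exact hr.ne' h
      · exact hne h
    have h2 := h.sconv.2 (A0_mem uu_mem) (A0_mem (ray_mem hx hr.le hr1)) hne'
      (show 0 < 1 - s / r by linarith) (show 0 < s / r by positivity) (by ring)
    rw [← map_smul, ← map_smul, ← map_add, ← ray_split hr] at h2
    have h3 := h.good.min (ray_mem hx hr.le hr1)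
    simp only [smul_eq_mul] at h2 h3
    nlinarith
  intro s hs r hr hsr
  rcases hs.1.eq_or_lt with h0 | h0
  · have h1 := key (r / 2) r (by linarith) (by linarith) hr.2
    have h2 := h.good.ray_mono hx hs.1 (show s ≤ r / 2 by linarith) (by linarith [hr.2])
    exact lt_of_le_of_lt h2 h1
  · exact key s r h0 hsr hr.2

lemma Nice.unif (h : Nice m R Φ) {η : ℝ} (hη : 0 < η) :
    ∃ δ : ℝ, 0 < δ ∧ δ < 1 ∧ 1 + δ ≤ R ∧ ∀ z ∈ cS (m + 1) 1, ∀ s : ℝ, |s - 1| ≤ δ →
      |Φ (s • z) - Φ z| ≤ η := by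
  have hR := h.hR
  have hu := (isCompact_cS (n := m + 1) (r := R) (by linarith)).uniformContinuousOn_of_continuous
    h.cont
  obtain ⟨d, hd, hd'⟩ := Metric.uniformContinuousOn_iff_le.1 hu η hη
  refine ⟨min d (min (1 / 2) (R - 1)), by simp [hd, hR], ?_, ?_, fun z hz s hs => ?_⟩
  · exact (min_le_right _ _).trans_lt ((min_le_left _ _).trans_lt (by norm_num))
  · have := (min_le_right d _).trans (min_le_right (1 / 2) (R - 1)); linarith
  · have h1 : |s - 1| ≤ d := hs.trans (min_le_left _ _)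
    have h2 : |s - 1| ≤ 1 / 2 := hs.trans ((min_le_right _ _).trans (min_le_left _ _))
    have h3 : |s - 1| ≤ R - 1 := hs.trans ((min_le_right _ _).trans (min_le_right _ _))
    have hs0 : 0 < s := by linarith [(abs_le.1 h2).1]
    have hsz : s • z ∈ cS (m + 1) R :=
      cS_mono (by linarith [(abs_le.1 h3).2]) ((smul_mem_cS hs0).2 hz)
    have := hd' _ hsz _ (cS_mono hR.le hz) (by
      rw [dist_eq_norm]
      have : s • z - z = (s - 1) • z := by rw [sub_smul, one_smul]
      rw [this, norm_smul, Real.norm_eq_abs]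
      have := norm_le_of_mem_cS zero_le_one hz
      nlinarith [abs_nonneg (s - 1), norm_nonneg z])
    rwa [Real.dist_eq] at this

lemma Nice.Pj (h : Nice m R Φ) (j : Fin (m + 2)) (l : E (m + 1)) :
    Φ (Pj (m + 1) j l) = Φ (A0 (m + 1) l) := h.symm (Equiv.swap 0 j) (A0 (m + 1) l)

lemma Nice.F_ne_top (h : Nice m R Φ) :
    ∫⁻ l, ENNReal.ofReal (Φ (A0 (m + 1) l)) ∂mu m ≠ ∞ := by
  obtain ⟨B, hB⟩ := (isCompact_cS (n := m + 1) (r := R) (by linarith [h.hR])).bddAbove_image h.cont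
  have : ∫⁻ l, ENNReal.ofReal (Φ (A0 (m + 1) l)) ∂mu m ≤ ∫⁻ _l, ENNReal.ofReal B ∂mu m := by
    refine lintegral_mono_ae ?_
    filter_upwards [ae_mu] with l hl
    exact ENNReal.ofReal_le_ofReal (hB ⟨_, cS_mono h.hR.le (A0_mem hl), rfl⟩)
  refine ne_top_of_le_ne_top ?_ this
  rw [lintegral_const]; finiteness

/-- outer shells: the mean of `Φ` is close to the facet mean -/
lemma Nice.shell (h : Nice m R Φ) {η : ℝ} (hη : 0 < η) :
    ∃ r₀ : ℝ, 1 < r₀ ∧ r₀ ≤ R ∧ ∀ r, 1 < r → r ≤ r₀ →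
      mu m univ * ∫⁻ z in cS (m + 1) r \ cS (m + 1) 1, ENNReal.ofReal (Φ z) ≤
      ((∫⁻ l, ENNReal.ofReal (Φ (A0 (m + 1) l)) ∂mu m) + ENNReal.ofReal η * mu m univ) *
        volume (cS (m + 1) r \ cS (m + 1) 1) := by
  obtain ⟨δ, hδ0, -, hδR, hδ⟩ := h.unif hη
  refine ⟨1 + δ, by linarith, hδR, fun r hr1 hr2 => ?_⟩
  set D := cS (m + 1) r \ cS (m + 1) 1 with hD
  have hDm : MeasurableSet D := (measurableSet_cS r).diff (measurableSet_cS 1)
  have hmem : ∀ (j : Fin (m + 2)) (l : E (m + 1)), l ∈ stdSimplex ℝ (Fin (m + 1)) → ∀ s : ℝ, 0 < s →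
      (s • Pool.Agent.MP_5f4cdd_gt.Pj (m + 1) j l ∈ D ↔ s ∈ Ioc 1 r) := by
    intro j l hl s hs
    simp only [hD, mem_sdiff, smul_Pj_mem_cS j hl hs.le, mem_Ioc, not_le]
    tauto
  set w : ℝ≥0∞ := ∫⁻ s in Ioi (0 : ℝ), ENNReal.ofReal (s ^ m) * (Ioc 1 r).indicator 1 s with hw
  have hvol : volume D = ∑ _j : Fin (m + 2), kap (m + 1) * (w * mu m univ) := by
    rw [← lintegral_indicator_one hDm, lintegral_radial' (measurable_one.indicator hDm)]
    refine Finset.sum_congr rfl fun j _ => ?_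
    congr 1
    rw [← lintegral_const]
    refine lintegral_congr_ae ?_
    filter_upwards [ae_mu] with l hl
    refine setLIntegral_congr_fun measurableSet_Ioi fun s hs => ?_
    congr 1
    by_cases hs' : s ∈ Ioc 1 r
    · rw [indicator_of_mem hs', indicator_of_mem ((hmem j l hl s hs).2 hs')]; rfl
    · rw [indicator_of_notMem hs', indicator_of_notMem (fun h => hs' ((hmem j l hl s hs).1 h))]
  rw [hvol, ← lintegral_indicator hDm,
    lintegral_radial' (h.meas.ennreal_ofReal.indicator hDm), Finset.mul_sum, Finset.mul_sum]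
  refine Finset.sum_le_sum fun j _ => ?_
  have key : ∫⁻ l, (∫⁻ s in Ioi (0 : ℝ), ENNReal.ofReal (s ^ m) *
      D.indicator (fun x => ENNReal.ofReal (Φ x)) (s • Pool.Agent.MP_5f4cdd_gt.Pj (m + 1) j l)) ∂mu m ≤
      ∫⁻ l, (ENNReal.ofReal (Φ (A0 (m + 1) l)) + ENNReal.ofReal η) * w ∂mu m := by
    refine lintegral_mono_ae ?_
    filter_upwards [ae_mu] with l hl
    rw [hw, ← lintegral_const_mul' _ _ (by finiteness)]
    refine setLIntegral_mono' measurableSet_Ioi fun s hs => ?_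
    by_cases hs' : s ∈ Ioc 1 r
    · rw [indicator_of_mem hs', indicator_of_mem ((hmem j l hl s hs).2 hs'), Pi.one_apply, mul_one,
        mul_comm]
      gcongr
      have h1 := hδ _ (Pj_mem j hl) s (abs_le.2 ⟨by linarith [hs'.1], by linarith [hs'.2]⟩)
      rw [h.Pj] at h1
      exact (ENNReal.ofReal_le_ofReal (by linarith [(abs_le.1 h1).2])).trans ENNReal.ofReal_add_le
    · rw [indicator_of_notMem (fun h => hs' ((hmem j l hl s hs).1 h))]; simp
  rw [lintegral_mul_const _ (by have := h.good.meas.ennreal_ofReal; fun_prop),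
    lintegral_add_right _ measurable_const, lintegral_const] at key
  calc _ ≤ mu m univ * (kap (m + 1) * (_ * w)) := by gcongr
    _ = _ := by ring

lemma convexOn_gauge {k : ℕ} {K : Set (E k)} (hK : Convex ℝ K) (h0 : K ∈ 𝓝 (0 : E k)) :
    ConvexOn ℝ univ (gauge K) := by
  refine ⟨convex_univ, fun x _ y _ a b ha hb _ => ?_⟩
  have := gauge_add_le hK (absorbent_nhds_zero h0) (a • x) (b • y)
  rwa [gauge_smul_of_nonneg ha, gauge_smul_of_nonneg hb] at this

lemma cS_mem_nhds {k : ℕ} {r : ℝ} (hr : 0 < r) : cS k r ∈ 𝓝 (0 : E k) :=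
  Filter.mem_of_superset (Metric.closedBall_mem_nhds (0 : E k) (ε := r / (k + 1) ^ 2)
    (by positivity)) fun z hz => mem_cS_of_norm_le (by simpa using hz)

/-- the key local inequality -/
lemma Nice.deficit (h : Nice m R Φ) :
    ∃ κ δ : ℝ, 0 < κ ∧ 0 < δ ∧ δ < 1 ∧ ∀ K : Set (E (m + 1)), Convex ℝ K → IsClosed K →
      cS (m + 1) (1 - δ) ⊆ K → K ⊆ cS (m + 1) 1 →
      (∀ j, Pool.Agent.MP_5f4cdd_gt.Pj (m + 1) j (uu m) ∈ K) →
      ((∫⁻ l, ENNReal.ofReal (Φ (A0 (m + 1) l)) ∂mu m) + ENNReal.ofReal κ) *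
        volume (cS (m + 1) 1 \ K) ≤
      mu m univ * ∫⁻ z in cS (m + 1) 1 \ K, ENNReal.ofReal (Φ z) := by
  obtain ⟨κ₀, hκ₀, hcorr⟩ := strict_corr m _ h.good
    (by
      obtain ⟨B, hB⟩ :=
        (isCompact_cS (n := m + 1) (r := R) (by linarith [h.hR])).bddAbove_image h.cont
      exact ⟨B, fun x hx => hB ⟨_, cS_mono h.hR.le (A0_mem hx), rfl⟩⟩)
    (fun x hx => h.pos _ (cS_mono h.hR.le (A0_mem hx))) (fun x hx hne => h.strict hx hne)
  set F := ∫⁻ l, ENNReal.ofReal (Φ (A0 (m + 1) l)) ∂mu m with hF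
  have hFt : F ≠ ∞ := h.F_ne_top
  set V := mu m univ with hV
  have hVt : V ≠ ∞ := measure_ne_top _ _
  have hV0 : 0 < V.toReal := ENNReal.toReal_pos mu_univ_pos.ne' hVt
  have hF0 : 0 ≤ F.toReal := ENNReal.toReal_nonneg
  obtain ⟨δ₁, hδ₁0, hδ₁1, -, hδ₁⟩ := h.unif (η := κ₀ / (3 * V.toReal)) (by positivity)
  set η := κ₀ / (3 * V.toReal) with hη
  set δ := min δ₁ (κ₀ / (3 * (m + 1) * (F.toReal + κ₀))) with hδ
  have hδ0 : 0 < δ := lt_min hδ₁0 (by positivity)
  have hδle : δ ≤ δ₁ := min_le_left _ _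
  have hδ1 : δ < 1 := hδle.trans_lt hδ₁1
  have hnum : F.toReal + κ₀ / 3 + η * V.toReal ≤ (1 - δ) ^ (m + 1) * (F.toReal + κ₀) := by
    have h1 : 1 + ((m + 1 : ℕ) : ℝ) * (-δ) ≤ (1 + -δ) ^ (m + 1) :=
      one_add_mul_le_pow (by linarith) _
    have h2 : δ ≤ κ₀ / (3 * (m + 1) * (F.toReal + κ₀)) := min_le_right _ _
    rw [le_div_iff₀ (by positivity)] at h2
    have h3 : η * V.toReal = κ₀ / 3 := by rw [hη]; field_simp
    rw [h3, sub_eq_add_neg]
    push_cast at h1
    nlinarith [mul_le_mul_of_nonneg_right h1 (show 0 ≤ F.toReal + κ₀ by positivity)]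
  refine ⟨κ₀ / 3, δ, by positivity, hδ0, hδ1, fun K hKc hKcl hK1 hK2 hKcen => ?_⟩
  have hK0 : K ∈ 𝓝 (0 : E (m + 1)) := Filter.mem_of_superset (cS_mem_nhds (by linarith)) hK1
  have hmemK : ∀ x, x ∈ K ↔ gauge K x ≤ 1 := fun x => by
    rw [gauge_le_one_iff_mem_closure hKc hK0, hKcl.closure_eq]
  set D := cS (m + 1) 1 \ K with hD
  have hDm : MeasurableSet D := (measurableSet_cS 1).diff hKcl.measurableSet
  set g : Fin (m + 2) → E (m + 1) → ℝ :=
    fun j l => gauge K (Pool.Agent.MP_5f4cdd_gt.Pj (m + 1) j l) with hg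
  have hg1 : ∀ j, ∀ l ∈ stdSimplex ℝ (Fin (m + 1)), 1 ≤ g j l := by
    intro j l hl
    by_contra hc
    push Not at hc
    have h0 : 0 ≤ g j l := gauge_nonneg _
    have h1 : (2 / (1 + g j l)) • Pool.Agent.MP_5f4cdd_gt.Pj (m + 1) j l ∈ K := by
      rw [hmemK, gauge_smul_of_nonneg (by positivity), smul_eq_mul, div_mul_eq_mul_div,
        div_le_one (by positivity)]
      change 2 * g j l ≤ _
      linarith
    have h2 := (smul_Pj_mem_cS j hl (by positivity)).1 (hK2 h1)
    rw [div_le_one (by positivity)] at h2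
    linarith
  have hg2 : ∀ j, ∀ l ∈ stdSimplex ℝ (Fin (m + 1)), (1 - δ) * g j l ≤ 1 := by
    intro j l hl
    have h1 := hK1 ((smul_Pj_mem_cS j hl (s := 1 - δ) (by linarith)).2 le_rfl)
    rwa [hmemK, gauge_smul_of_nonneg (by linarith), smul_eq_mul] at h1
  have hmem : ∀ (j : Fin (m + 2)) (l : E (m + 1)), l ∈ stdSimplex ℝ (Fin (m + 1)) → ∀ s : ℝ, 0 < s →
      (s • Pool.Agent.MP_5f4cdd_gt.Pj (m + 1) j l ∈ D ↔ s ∈ Ioc (g j l)⁻¹ 1) := by
    intro j l hl s hs
    have h0 : 0 < g j l := lt_of_lt_of_le one_pos (hg1 j l hl)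
    simp only [hD, mem_sdiff, smul_Pj_mem_cS j hl hs.le, mem_Ioc, hmemK, not_le,
      gauge_smul_of_nonneg hs.le, smul_eq_mul]
    rw [inv_lt_iff_one_lt_mul₀ h0]
    tauto
  set ℓ : Fin (m + 2) → E (m + 1) → ℝ≥0∞ := fun j l => ∫⁻ s in Ioi (0 : ℝ),
    ENNReal.ofReal (s ^ m) * D.indicator 1 (s • Pool.Agent.MP_5f4cdd_gt.Pj (m + 1) j l) with hℓ
  have hvol : volume D = ∑ j, kap (m + 1) * ∫⁻ l, ℓ j l ∂mu m := by
    rw [← lintegral_indicator_one hDm, lintegral_radial' (measurable_one.indicator hDm)]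
  have hℓ1 : ∀ j, ∀ l ∈ stdSimplex ℝ (Fin (m + 1)), ℓ j l ≤ ENNReal.ofReal (g j l - 1) := by
    intro j l hl
    have h1 := hg1 j l hl
    calc ℓ j l ≤ ∫⁻ s in Ioi (0 : ℝ), (Ioc (g j l)⁻¹ 1).indicator 1 s := by
          refine setLIntegral_mono' measurableSet_Ioi fun s hs => ?_
          by_cases hs' : s ∈ Ioc (g j l)⁻¹ 1
          · rw [indicator_of_mem hs', indicator_of_mem ((hmem j l hl s hs).2 hs')]
            simpa using pow_le_one₀ (le_of_lt hs) hs'.2
          · rw [indicator_of_notMem (fun h => hs' ((hmem j l hl s hs).1 h))]; simp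
      _ ≤ ∫⁻ s, (Ioc (g j l)⁻¹ 1).indicator 1 s := setLIntegral_le_lintegral _ _
      _ = ENNReal.ofReal (1 - (g j l)⁻¹) := by
          rw [lintegral_indicator_one measurableSet_Ioc, Real.volume_Ioc]
      _ ≤ _ := by
          refine ENNReal.ofReal_le_ofReal ?_
          have h2 : (g j l)⁻¹ * g j l = 1 := inv_mul_cancel₀ (by linarith)
          have h3 : 0 < (g j l)⁻¹ := by positivity
          nlinarith [sq_nonneg (g j l - 1), mul_nonneg h3.le (sq_nonneg (g j l - 1))]
  have hinv : ∀ j, ∀ l ∈ stdSimplex ℝ (Fin (m + 1)), 1 - δ ≤ (g j l)⁻¹ := by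
    intro j l hl
    have h0 : 0 < g j l := lt_of_lt_of_le one_pos (hg1 j l hl)
    rw [le_inv_comm₀ (by linarith) h0, ← one_div, le_div_iff₀ (by linarith), mul_comm]
    exact hg2 j l hl
  have hℓ2 : ∀ j, ∀ l ∈ stdSimplex ℝ (Fin (m + 1)),
      ENNReal.ofReal ((1 - δ) ^ (m + 1)) * ENNReal.ofReal (g j l - 1) ≤ ℓ j l := by
    intro j l hl
    have h1 := hg1 j l hl
    have h0 : 0 < g j l := lt_of_lt_of_le one_pos h1
    have h4 := hinv j l hl
    have hsub : Ioc (g j l)⁻¹ 1 ⊆ Ioi 0 := fun s hs => lt_trans (by positivity) hs.1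
    calc _ ≤ ENNReal.ofReal ((1 - δ) ^ m) * ENNReal.ofReal (1 - (g j l)⁻¹) := by
          rw [← ENNReal.ofReal_mul (pow_nonneg (by linarith) _),
            ← ENNReal.ofReal_mul (pow_nonneg (by linarith) _), pow_succ, mul_assoc]
          refine ENNReal.ofReal_le_ofReal (mul_le_mul_of_nonneg_left ?_ (pow_nonneg (by linarith) _))
          have h2 : (g j l)⁻¹ * g j l = 1 := inv_mul_cancel₀ h0.ne'
          nlinarith [mul_le_mul_of_nonneg_right h4 (sub_nonneg.2 h1)]
      _ = ∫⁻ _s in Ioc (g j l)⁻¹ 1, ENNReal.ofReal ((1 - δ) ^ m) := by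
          rw [setLIntegral_const, Real.volume_Ioc]
      _ ≤ ∫⁻ s in Ioc (g j l)⁻¹ 1, ENNReal.ofReal (s ^ m) *
            D.indicator 1 (s • Pool.Agent.MP_5f4cdd_gt.Pj (m + 1) j l) := by
          refine setLIntegral_mono' measurableSet_Ioc fun s hs => ?_
          rw [indicator_of_mem ((hmem j l hl s (hsub hs)).2 hs), Pi.one_apply, mul_one]
          exact ENNReal.ofReal_le_ofReal (pow_le_pow_left₀ (by linarith) (h4.trans hs.1.le) _)
      _ ≤ ℓ j l := lintegral_mono_set hsub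
  have hℓm : ∀ j, Measurable (ℓ j) := by
    intro j
    refine Measurable.lintegral_prod_right' (f := fun q : E (m + 1) × ℝ => ENNReal.ofReal (q.2 ^ m) *
      D.indicator 1 (q.2 • Pool.Agent.MP_5f4cdd_gt.Pj (m + 1) j q.1)) ?_
    exact Measurable.mul (f := fun q : E (m + 1) × ℝ => ENNReal.ofReal (q.2 ^ m)) (by fun_prop)
      ((measurable_one.indicator hDm).comp
        (measurable_snd.smul ((measurable_lin _).comp measurable_fst)))
  have hvt : volume D ≠ ∞ :=
    ne_top_of_le_ne_top (volume_cS_lt_top zero_le_one).ne (measure_mono sdiff_subset)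
  have main : ENNReal.ofReal ((1 - δ) ^ (m + 1)) * (F + ENNReal.ofReal κ₀) * volume D ≤
      V * (∫⁻ z in D, ENNReal.ofReal (Φ z)) + ENNReal.ofReal η * V * volume D := by
    rw [hvol, ← lintegral_indicator hDm,
      lintegral_radial' (h.meas.ennreal_ofReal.indicator hDm), Finset.mul_sum, Finset.mul_sum,
      Finset.mul_sum, ← Finset.sum_add_distrib]
    refine Finset.sum_le_sum fun j _ => ?_
    have hgm : Measurable fun l => g j l - 1 :=
      (((continuous_gauge hKc hK0).measurable).comp (measurable_lin _)).sub_const 1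
    have c1 := hcorr (fun l => g j l - 1) hgm
      (by
        refine ⟨convex_stdSimplex ℝ _, fun x _ y _ a b ha hb hab => ?_⟩
        have := (convexOn_gauge hKc hK0).2 (mem_univ (Pool.Agent.MP_5f4cdd_gt.Pj (m + 1) j x))
          (mem_univ (Pool.Agent.MP_5f4cdd_gt.Pj (m + 1) j y)) ha hb hab
        simp only [hg, map_add, map_smul, smul_eq_mul] at this ⊢
        nlinarith)
      (fun x hx => sub_nonneg.2 (hg1 j x hx))
      (sub_eq_zero.2 (le_antisymm ((hmemK _).1 (hKcen j)) (hg1 j _ uu_mem)))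
    have c2 : ∫⁻ l, ℓ j l ∂mu m ≤ ∫⁻ l, ENNReal.ofReal (g j l - 1) ∂mu m := by
      refine lintegral_mono_ae ?_
      filter_upwards [ae_mu] with l hl using hℓ1 j l hl
    have c3 : ENNReal.ofReal ((1 - δ) ^ (m + 1)) *
        ∫⁻ l, ENNReal.ofReal (Φ (A0 (m + 1) l)) * ENNReal.ofReal (g j l - 1) ∂mu m ≤
        (∫⁻ l, (∫⁻ s in Ioi (0 : ℝ), ENNReal.ofReal (s ^ m) *
          D.indicator (fun x => ENNReal.ofReal (Φ x))
            (s • Pool.Agent.MP_5f4cdd_gt.Pj (m + 1) j l)) ∂mu m) +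
        ENNReal.ofReal η * ∫⁻ l, ℓ j l ∂mu m := by
      rw [← lintegral_const_mul' _ _ ENNReal.ofReal_ne_top,
        ← lintegral_const_mul' _ _ ENNReal.ofReal_ne_top,
        ← lintegral_add_right _ ((hℓm j).const_mul _)]
      refine lintegral_mono_ae ?_
      filter_upwards [ae_mu] with l hl
      calc _ = ENNReal.ofReal (Φ (A0 (m + 1) l)) *
            (ENNReal.ofReal ((1 - δ) ^ (m + 1)) * ENNReal.ofReal (g j l - 1)) := by ring
        _ ≤ ENNReal.ofReal (Φ (A0 (m + 1) l)) * ℓ j l := by gcongr; exact hℓ2 j l hl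
        _ ≤ _ := by
          simp only [hℓ]
          rw [← lintegral_const_mul' _ _ ENNReal.ofReal_ne_top,
            ← lintegral_const_mul' _ _ ENNReal.ofReal_ne_top, ← lintegral_add_right]
          · refine setLIntegral_mono' measurableSet_Ioi fun s hs => ?_
            by_cases hs' : s • Pool.Agent.MP_5f4cdd_gt.Pj (m + 1) j l ∈ D
            · rw [indicator_of_mem hs', indicator_of_mem hs', Pi.one_apply, mul_one,
                mul_comm (ENNReal.ofReal (s ^ m)), ← add_mul]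
              gcongr
              have h5 := (hmem j l hl s hs).1 hs'
              have h1 := hδ₁ _ (Pj_mem j hl) s
                (abs_le.2 ⟨by linarith [h5.1, hinv j l hl], by linarith [h5.2]⟩)
              rw [h.Pj] at h1
              exact (ENNReal.ofReal_le_ofReal (by linarith [(abs_le.1 h1).1])).trans
                ENNReal.ofReal_add_le
            · rw [indicator_of_notMem hs']; simp
          · refine Measurable.const_mul ?_ _
            exact Measurable.mul (f := fun s : ℝ => ENNReal.ofReal (s ^ m)) (by fun_prop)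
              ((measurable_one.indicator hDm).comp (measurable_id.smul measurable_const))
    calc _ ≤ ENNReal.ofReal ((1 - δ) ^ (m + 1)) * (F + ENNReal.ofReal κ₀) *
          (kap (m + 1) * ∫⁻ l, ENNReal.ofReal (g j l - 1) ∂mu m) := by gcongr
      _ = kap (m + 1) * ENNReal.ofReal ((1 - δ) ^ (m + 1)) * ((F + ENNReal.ofReal κ₀) *
          ∫⁻ l, ENNReal.ofReal (g j l - 1) ∂mu m) := by ring
      _ ≤ kap (m + 1) * ENNReal.ofReal ((1 - δ) ^ (m + 1)) * (V * _) := by gcongr
      _ = kap (m + 1) * V * (ENNReal.ofReal ((1 - δ) ^ (m + 1)) * _) := by ring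
      _ ≤ kap (m + 1) * V * _ := mul_le_mul_right c3 _
      _ = _ := by ring
  have hnum' : F + ENNReal.ofReal (κ₀ / 3) + ENNReal.ofReal η * V ≤
      ENNReal.ofReal ((1 - δ) ^ (m + 1)) * (F + ENNReal.ofReal κ₀) := by
    rw [← ENNReal.ofReal_toReal hFt, ← ENNReal.ofReal_toReal hVt,
      ← ENNReal.ofReal_mul (by positivity), ← ENNReal.ofReal_add hF0 (by positivity),
      ← ENNReal.ofReal_add (by positivity) (by positivity), ← ENNReal.ofReal_add hF0 hκ₀.le,
      ← ENNReal.ofReal_mul (pow_nonneg (by linarith) _)]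
    exact ENNReal.ofReal_le_ofReal hnum
  have fin : (F + ENNReal.ofReal (κ₀ / 3)) * volume D + ENNReal.ofReal η * V * volume D ≤
      V * (∫⁻ z in D, ENNReal.ofReal (Φ z)) + ENNReal.ofReal η * V * volume D := by
    rw [← add_mul]
    exact (mul_le_mul_left hnum' _).trans main
  exact ENNReal.le_of_add_le_add_right (by finiteness) fin

end Pool.Agent.MP_5f4cdd_gt

end

section

set_option autoImplicit false
open MeasureTheory ENNReal Set Matrix Topology Filter

namespace Pool.Agent.MP_5f4cdd_gt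

variable {n m : ℕ}

lemma half_ball {x : E n} {r : ℝ} {A : Set (E n)} (hA : MeasurableSet A)
    (h : ∀ z ∈ Metric.closedBall x r, z ∈ A ∨ (x + x) - z ∈ A) :
    volume (Metric.closedBall x r) ≤ 2 * volume A := by
  have h1 : volume ((fun z => (x + x) - z) ⁻¹' A) = volume A :=
    (Measure.measurePreserving_sub_left volume (x + x)).measure_preimage hA.nullMeasurableSet
  calc volume (Metric.closedBall x r) ≤ volume (A ∪ (fun z => (x + x) - z) ⁻¹' A) :=
        measure_mono h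
    _ ≤ volume A + volume ((fun z => (x + x) - z) ⁻¹' A) := measure_union_le _ _
    _ = 2 * volume A := by rw [h1, two_mul]

lemma cap {δ : ℝ} {K : Set (E n)} (hK : Convex ℝ K) (hKm : MeasurableSet K)
    (hv : 2 * volume (cS n 1 \ K) < volume (Metric.closedBall (0 : E n) (δ / (n + 1) ^ 2))) :
    cS n (1 - δ) ⊆ K := by
  intro x hx
  by_contra hxK
  refine absurd hv (not_lt.2 ?_)
  rw [← Measure.addHaar_closedBall_center volume x]
  refine half_ball ((measurableSet_cS 1).diff hKm) fun z hz => ?_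
  have hin : ∀ w ∈ Metric.closedBall x (δ / (n + 1) ^ 2), w ∈ cS n 1 := by
    intro w hw
    have := add_mem_cS hx (mem_cS_of_norm_le (r := δ) (z := w - x)
      (by simpa [dist_eq_norm] using hw))
    simpa using this
  have hz' : x + x - z ∈ Metric.closedBall x (δ / (n + 1) ^ 2) := by
    rw [Metric.mem_closedBall, dist_eq_norm] at hz ⊢
    have : x + x - z - x = -(z - x) := by abel
    rwa [this, norm_neg]
  by_contra hc
  push Not at hc
  have h1 : z ∈ K := by by_contra h; exact hc.1 ⟨hin z hz, h⟩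
  have h2 : x + x - z ∈ K := by by_contra h; exact hc.2 ⟨hin _ hz', h⟩
  have h3 := hK h1 h2 (a := 1 / 2) (b := 1 / 2) (by norm_num) (by norm_num) (by norm_num)
  refine hxK ?_
  convert h3 using 1
  ext i; simp; ring

lemma exists_max {K : Set (E n)} (hKi : (interior K).Nonempty) (B₀ : E n →ₗ[ℝ] E n) (b₀ : E n)
    (h₀ : ∀ x ∈ K, B₀ x + b₀ ∈ cS n 1) :
    ∃ (B : E n →ₗ[ℝ] E n) (b : E n), (∀ x ∈ K, B x + b ∈ cS n 1) ∧
      ∀ (B' : E n →ₗ[ℝ] E n) (b' : E n), (∀ x ∈ K, B' x + b' ∈ cS n 1) →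
        |LinearMap.det B'| ≤ |LinearMap.det B| := by
  obtain ⟨x₀, hx₀⟩ := hKi
  obtain ⟨ρ, hρ, hball⟩ := Metric.nhds_basis_closedBall.mem_iff.1 (mem_interior_iff_mem_nhds.1 hx₀)
  set C : Set ((E n →L[ℝ] E n) × E n) := {q | ∀ x ∈ K, q.1 x + q.2 ∈ cS n 1} with hC
  have hcl : IsClosed C := by
    have : C = ⋂ x ∈ K, (fun q : (E n →L[ℝ] E n) × E n => q.1 x + q.2) ⁻¹' cS n 1 := by
      ext; simp [hC]
    rw [this]
    exact isClosed_biInter fun x _ => (isClosed_cS 1).preimage (by fun_prop)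
  have hbd : Bornology.IsBounded C := by
    refine (Metric.isBounded_closedBall (x := 0) (r := 2 / ρ + (1 + 2 / ρ * ‖x₀‖))).subset ?_
    rintro ⟨T, b⟩ hq
    have h1 : ‖T x₀ + b‖ ≤ 1 :=
      norm_le_of_mem_cS zero_le_one (hq x₀ (hball (Metric.mem_closedBall_self hρ.le)))
    have h2 : ‖T‖ ≤ 2 / ρ := by
      refine ContinuousLinearMap.opNorm_le_of_unit_norm (by positivity) fun v hv => ?_
      have h3 : ‖T (x₀ + ρ • v) + b‖ ≤ 1 := norm_le_of_mem_cS zero_le_one (hq _ (hball (by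
        simp [norm_smul, hv, abs_of_pos hρ])))
      have h4 : ρ • T v = (T (x₀ + ρ • v) + b) - (T x₀ + b) := by simp
      have h5 : ‖ρ • T v‖ ≤ 2 := by
        rw [h4]; exact (norm_sub_le _ _).trans (by linarith)
      rw [norm_smul, Real.norm_eq_abs, abs_of_pos hρ] at h5
      rw [le_div_iff₀ hρ]; linarith
    have h6 : ‖b‖ ≤ 1 + 2 / ρ * ‖x₀‖ := by
      have h7 : b = (T x₀ + b) - T x₀ := by simp
      have h8 : ‖T x₀‖ ≤ 2 / ρ * ‖x₀‖ := (T.le_opNorm _).trans (by gcongr)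
      rw [h7]; exact (norm_sub_le _ _).trans (by linarith)
    rw [Metric.mem_closedBall, dist_zero_right, Prod.norm_def]
    have : 0 ≤ 2 / ρ := by positivity
    have : 0 ≤ 1 + 2 / ρ * ‖x₀‖ := by positivity
    exact max_le (by linarith) (by linarith)
  have hcomp : IsCompact C := Metric.isCompact_of_isClosed_isBounded hcl hbd
  obtain ⟨q, hq, hmax⟩ := hcomp.exists_isMaxOn (f := fun q => |q.1.det|)
    ⟨(LinearMap.toContinuousLinearMap B₀, b₀), h₀⟩
    (ContinuousLinearMap.continuous_det.comp continuous_fst).abs.continuousOn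
  refine ⟨q.1, q.2, hq, fun B' b' h' => ?_⟩
  exact hmax (a := (LinearMap.toContinuousLinearMap B', b')) h'

/-- `K` is not contained in a simplex smaller than the centred one -/
def Maxi (K : Set (E n)) : Prop :=
  ∀ (T : E n →ₗ[ℝ] E n) (b : E n), (∀ x ∈ K, T x + b ∈ cS n 1) → |LinearMap.det T| ≤ 1

lemma klee0 {K : Set (E (m + 1))} (hK : Convex ℝ K) (hcl : IsClosed K) (hs : K ⊆ cS (m + 1) 1)
    (hM : Maxi K) : A0 (m + 1) (uu m) ∈ K := by
  by_contra hc
  obtain ⟨f, u, hf, hu⟩ := geometric_hahn_banach_closed_point hK hcl hc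
  have hA : A0 (m + 1) (uu m) = uu m - cen (m + 1) := by
    ext i
    change uu m i - (∑ i, uu m i) / _ = _
    rw [uu_mem.2]; rfl
  have hrep : ∀ X : E (m + 1), f X = ∑ i, X i * f (Pi.single i 1) := by
    intro X
    conv_lhs => rw [← Finset.univ_sum_single X, map_sum]
    refine Finset.sum_congr rfl fun i _ => ?_
    rw [← smul_eq_mul, ← map_smul, ← Pi.single_smul, smul_eq_mul, mul_one]
  set γ := u + f (cen (m + 1)) with hγ
  set b : E (m + 1) := fun i => f (Pi.single i 1) - γ with hb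
  have hsum : ∀ X : E (m + 1), ∑ i, b i * X i = f X - γ * ∑ i, X i := by
    intro X
    rw [hrep X, Finset.mul_sum, ← Finset.sum_sub_distrib]
    exact Finset.sum_congr rfl fun i _ => by simp only [hb]; ring
  have hpos : 0 < ∑ i, b i := by
    have h1 := hsum (uu m)
    rw [uu_mem.2] at h1
    rw [hA, map_sub] at hu
    have h2 : ∑ i, b i * uu m i = (∑ i, b i) * (1 / (m + 1)) := by
      rw [Finset.sum_mul]; rfl
    have h3 : 0 < (∑ i, b i) * (1 / (m + 1) : ℝ) := by rw [← h2, h1]; linarith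
    exact (mul_pos_iff_of_pos_right (by positivity)).1 h3
  have hd : HasDerivAt (fun t : ℝ => ∏ i, (1 + t * b i)) (∑ i, b i) 0 := by
    have := HasDerivAt.fun_finsetProd (u := Finset.univ) (x := (0 : ℝ))
      (f := fun i (t : ℝ) => 1 + t * b i) (f' := fun i => b i)
      (fun i _ => by simpa using ((hasDerivAt_id (0 : ℝ)).mul_const (b i)).const_add 1)
    simpa using this
  have e1 : ∀ᶠ t in 𝓝[>] (0 : ℝ), 1 < ∏ i, (1 + t * b i) := by
    filter_upwards [hd.tendsto_slope_zero_right.eventually (lt_mem_nhds hpos),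
      self_mem_nhdsWithin] with t ht ht0
    simp only [zero_add, zero_mul, add_zero, Finset.prod_const_one, smul_eq_mul] at ht
    have := (mul_pos_iff_of_pos_left (inv_pos.2 ht0)).1 ht
    linarith
  have e2 : ∀ᶠ t in 𝓝[>] (0 : ℝ), ∀ i, 0 < 1 + t * b i := by
    refine eventually_all.2 fun i => nhdsWithin_le_nhds ?_
    have : ContinuousAt (fun t : ℝ => 1 + t * b i) 0 := by fun_prop
    exact this.eventually (lt_mem_nhds (by simp))
  have e3 : ∀ᶠ t in 𝓝[>] (0 : ℝ), t * γ < 1 := by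
    refine nhdsWithin_le_nhds ?_
    have : ContinuousAt (fun t : ℝ => t * γ) 0 := by fun_prop
    exact this.eventually (gt_mem_nhds (by simp))
  obtain ⟨t, ⟨⟨h1, h2⟩, h3⟩, ht⟩ := (((e1.and e2).and e3).and self_mem_nhdsWithin).exists
  have ht0 : 0 < t := ht
  have := hM (Matrix.toLin' (Matrix.diagonal fun i => 1 + t * b i))
    ((fun i => (1 + t * b i) * cen (m + 1) i) - cen (m + 1)) (by
      intro z hz
      have hX : z + cen (m + 1) ∈ stdS (m + 1) := mem_stdS_iff.2 (by simpa using hs hz)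
      have hY : (fun i => (1 + t * b i) * (z + cen (m + 1)) i) ∈ stdS (m + 1) := by
        refine ⟨fun i => mul_nonneg (h2 i).le (hX.1 i), ?_⟩
        have h4 : ∑ i, (1 + t * b i) * (z + cen (m + 1)) i =
            ∑ i, (z + cen (m + 1)) i + t * ∑ i, b i * (z + cen (m + 1)) i := by
          rw [Finset.mul_sum, ← Finset.sum_add_distrib]
          exact Finset.sum_congr rfl fun i _ => by ring
        rw [h4, hsum, map_add]
        have h5 := hf z hz
        have h6 := hX.2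
        set s := ∑ i, (z + cen (m + 1)) i
        have h7 : f z + f (cen (m + 1)) - γ * s ≤ γ * (1 - s) := by rw [hγ]; nlinarith
        nlinarith [mul_le_mul_of_nonneg_left h7 ht0.le,
          mul_le_mul_of_nonneg_right h3.le (sub_nonneg.2 h6)]
      have := mem_stdS_iff.1 hY
      convert this using 1
      ext i
      simp [Matrix.mulVec_diagonal]; ring)
  rw [LinearMap.det_toLin', Matrix.det_diagonal] at this
  linarith [le_abs_self (∏ i, (1 + t * b i))]

lemma klee {K : Set (E (m + 1))} (hK : Convex ℝ K) (hcl : IsCompact K) (hs : K ⊆ cS (m + 1) 1)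
    (hM : Maxi K) (j : Fin (m + 2)) : Pj (m + 1) j (uu m) ∈ K := by
  set σ := Equiv.swap (0 : Fin (m + 2)) j
  have h := klee0 (K := Tp σ '' K) (hK.linear_image _)
    (hcl.image (Tp σ).continuous_of_finiteDimensional).isClosed
    (by rintro _ ⟨x, hx, rfl⟩; exact (Tp_mem_cS σ).2 (hs hx))
    (by
      intro T b hT
      have := hM (T ∘ₗ Tp σ) b fun x hx => hT _ ⟨x, hx, rfl⟩
      rwa [LinearMap.det_comp, abs_mul, abs_det_Tp, mul_one] at this)
  obtain ⟨x, hx, he⟩ := h
  have : Pj (m + 1) j (uu m) = x := by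
    rw [Pj, LinearMap.comp_apply, ← he, Tp_Tp, Equiv.swap_mul_self, Tp_one]
  rwa [this]

end Pool.Agent.MP_5f4cdd_gt

end

section

set_option autoImplicit false
open MeasureTheory ENNReal Set Matrix Topology Filter

namespace Pool.Agent.MP_5f4cdd_gt

variable {n : ℕ}

/-- Laplace transform of a set -/
noncomputable def Lap (p : ℝ) (L : Set (E n)) (y : E n) : ℝ := ∫ x in L, Real.exp (p * (x ⬝ᵥ y))

lemma measurable_Lap (p : ℝ) (L : Set (E n)) : Measurable (Lap p L) := measurable_laplace p L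

lemma continuous_exp_dot (p : ℝ) (y : E n) : Continuous fun x : E n => Real.exp (p * (x ⬝ᵥ y)) := by
  unfold dotProduct; fun_prop

lemma integrableOn_exp_dot (p : ℝ) (y : E n) {L : Set (E n)} {r : ℝ} (hr : 0 ≤ r)
    (hL : L ⊆ cS n r) : IntegrableOn (fun x : E n => Real.exp (p * (x ⬝ᵥ y))) L :=
  ((continuous_exp_dot p y).continuousOn.integrableOn_compact (isCompact_cS hr)).mono_set hL

lemma Lap_pos (p : ℝ) (y : E n) {L : Set (E n)} {r : ℝ} (hr : 0 ≤ r)
    (hL : L ⊆ cS n r) (h0 : volume L ≠ 0) : 0 < Lap p L y := by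
  have : NeZero (volume.restrict L) := ⟨by simpa using h0⟩
  exact integral_exp_pos (integrableOn_exp_dot p y hr hL)

lemma Lap_lower {p : ℝ} (hp : 0 < p) {t : ℝ} (ht0 : 0 < t) (ht1 : t < 1) :
    ∃ c : ℝ, ∀ x₀ ∈ cS n 1, ∀ y : E n,
      c + p * (1 - t) * (x₀ ⬝ᵥ y) ≤ Real.log (Lap p (cS n 1) y) := by
  set v := volume (Metric.closedBall (0 : E n) (t / (n + 1) ^ 2)) with hv
  have hv0 : 0 < v := Metric.measure_closedBall_pos _ _ (by positivity)
  have hvt : v ≠ ∞ := measure_closedBall_lt_top.ne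
  have hvr : 0 < v.toReal := ENNReal.toReal_pos hv0.ne' hvt
  refine ⟨Real.log (v.toReal / 2), fun x₀ hx₀ y => ?_⟩
  set x := (1 - t) • x₀ with hx
  have hxm : x ∈ cS n (1 - t) := by
    have := (smul_mem_cS (a := 1 - t) (r := 1) (by linarith)).2 hx₀
    simpa using this
  set A := Metric.closedBall x (t / (n + 1) ^ 2) ∩ {z | x ⬝ᵥ y ≤ z ⬝ᵥ y} with hA
  have hAm : MeasurableSet A := by
    refine measurableSet_closedBall.inter (measurableSet_le measurable_const ?_)
    unfold dotProduct; fun_prop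
  have hAs : A ⊆ cS n 1 := by
    intro w hw
    have := add_mem_cS hxm (mem_cS_of_norm_le (r := t) (z := w - x)
      (by simpa [dist_eq_norm] using hw.1))
    simpa using this
  have h1 : v ≤ 2 * volume A := by
    rw [hv, ← Measure.addHaar_closedBall_center volume x]
    refine half_ball hAm fun z hz => ?_
    rcases le_total (x ⬝ᵥ y) (z ⬝ᵥ y) with h | h
    · exact Or.inl ⟨hz, h⟩
    · refine Or.inr ⟨?_, ?_⟩
      · rw [Metric.mem_closedBall, dist_eq_norm] at hz ⊢
        have : x + x - z - x = -(z - x) := by abel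
        rwa [this, norm_neg]
      · simp only [mem_ofPred_eq, sub_dotProduct, add_dotProduct]; linarith
  have hAt : volume A ≠ ∞ :=
    ne_top_of_le_ne_top (volume_cS_lt_top zero_le_one).ne (measure_mono hAs)
  have h2 : v.toReal / 2 ≤ volume.real A := by
    have := ENNReal.toReal_mono (by finiteness) h1
    rw [ENNReal.toReal_mul] at this
    simp only [toReal_ofNat] at this
    rw [measureReal_def]; linarith
  have h3 : Real.exp (p * (x ⬝ᵥ y)) * volume.real A ≤ Lap p (cS n 1) y := by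
    refine (setIntegral_ge_of_const_le_real hAm hAt (f := fun z => Real.exp (p * (z ⬝ᵥ y)))
      (fun z hz => Real.exp_le_exp.2 (mul_le_mul_of_nonneg_left hz.2 hp.le))
      (integrableOn_exp_dot p y zero_le_one hAs)).trans ?_
    exact setIntegral_mono_set (integrableOn_exp_dot p y zero_le_one subset_rfl)
      (Eventually.of_forall fun z => (Real.exp_pos _).le) hAs.eventuallyLE
  have h4 : v.toReal / 2 * Real.exp (p * (x ⬝ᵥ y)) ≤ Lap p (cS n 1) y := by
    nlinarith [Real.exp_pos (p * (x ⬝ᵥ y))]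
  have h5 := Real.log_le_log (by positivity) h4
  rw [Real.log_mul (by positivity) (by positivity), Real.log_exp, hx, smul_dotProduct,
    smul_eq_mul, ← mul_assoc] at h5
  exact h5

lemma exists_sign (y : E n) : ∃ x₁ ∈ cS n 1, x₁ ⬝ᵥ y = (1 / (n + 1) ^ 2) * ∑ i, |y i| := by
  refine ⟨fun i => (1 / (n + 1) ^ 2) * (if 0 ≤ y i then 1 else -1), mem_cS_of_norm_le ?_, ?_⟩
  · rw [pi_norm_le_iff_of_nonneg (by positivity)]
    intro i
    split_ifs <;> simp
  · rw [dotProduct, Finset.mul_sum]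
    refine Finset.sum_congr rfl fun i _ => ?_
    split_ifs with h
    · rw [abs_of_nonneg h]; ring
    · rw [abs_of_neg (not_le.1 h)]; ring

lemma integrable_exp_neg_sum {κ : ℝ} (hκ : 0 < κ) :
    Integrable fun y : E n => Real.exp (-κ * ∑ i, |y i|) := by
  have h1 : Integrable fun x : ℝ => Real.exp (-κ * |x|) := by
    rw [← integrableOn_univ, ← Iic_union_Ioi (a := (0 : ℝ)), integrableOn_union]
    constructor
    · refine (integrableOn_exp_mul_Iic hκ 0).congr_fun (fun x hx => ?_) measurableSet_Iic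
      simp only; rw [abs_of_nonpos hx]; ring_nf
    · refine (exp_neg_integrableOn_Ioi 0 hκ).congr_fun (fun x hx => ?_) measurableSet_Ioi
      simp only; rw [abs_of_pos hx]
  have := Integrable.fintype_prod (ι := Fin n) (f := fun _ x => Real.exp (-κ * |x|))
    (μ := fun _ => volume) fun _ => h1
  refine this.congr (Eventually.of_forall fun y => ?_)
  simp only
  rw [Finset.mul_sum, Real.exp_sum]

/-- Laplace transform of the centred simplex -/
noncomputable def Zs (p : ℝ) (y : E n) : ℝ := Lap p (cS n 1) y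

lemma Zs_pos (p : ℝ) (y : E n) : 0 < Zs p y :=
  Lap_pos p y zero_le_one subset_rfl (volume_cS_pos one_pos).ne'

lemma measurable_Zs (p : ℝ) : Measurable (Zs (n := n) p) := measurable_Lap _ _

lemma decay0 {p : ℝ} (hp : 0 < p) : ∃ C κ : ℝ, 0 < κ ∧ ∀ y : E n,
    Zs p y ^ (-(1 / p)) ≤ C * Real.exp (-κ * ∑ i, |y i|) := by
  obtain ⟨c, hc⟩ := Lap_lower (n := n) hp (t := 1 / 2) (by norm_num) (by norm_num)
  refine ⟨Real.exp (-(1 / p) * c), 1 / 2 * (1 / (n + 1) ^ 2), by positivity, fun y => ?_⟩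
  obtain ⟨x₁, hx₁, he⟩ := exists_sign y
  have h1 := hc x₁ hx₁ y
  rw [Real.rpow_def_of_pos (Zs_pos p y), ← Real.exp_add, Real.exp_le_exp]
  rw [he] at h1
  have h2 := mul_le_mul_of_nonneg_left h1 (show 0 ≤ 1 / p by positivity)
  have h3 : 1 / p * (c + p * (1 - 1 / 2) * (1 / (n + 1) ^ 2 * ∑ i, |y i|)) =
      1 / p * c + 1 / 2 * (1 / (n + 1) ^ 2) * ∑ i, |y i| := by field_simp; ring
  rw [h3] at h2
  unfold Zs
  linarith

lemma decay {p : ℝ} (hp : 0 < p) : ∃ C κ : ℝ, 0 < κ ∧ ∀ x ∈ cS n (1 + 1 / p / 4), ∀ y : E n,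
    Real.exp (p * (x ⬝ᵥ y)) * Zs p y ^ (-(1 / p) - 1) ≤ C * Real.exp (-κ * ∑ i, |y i|) := by
  set q := 1 / p with hq
  have hq0 : 0 < q := by positivity
  have hpq : p * q = 1 := by rw [hq]; field_simp
  set τ := (1 + q / 4) / (1 + q / 2) with hτ
  have hτ0 : 0 < τ := by positivity
  have hτ1 : τ < 1 := by rw [hτ, div_lt_one (by positivity)]; linarith
  have hτe : τ * (1 + q / 2) = 1 + q / 4 := by rw [hτ]; field_simp
  obtain ⟨c, hc⟩ := Lap_lower (n := n) hp (t := 1 - τ) (by linarith) (by linarith)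
  refine ⟨Real.exp (-(q + 1) * c), τ / 2 * (1 / (n + 1) ^ 2), by positivity, fun x hx y => ?_⟩
  obtain ⟨x₁, hx₁, he⟩ := exists_sign y
  have h1 := hc x₁ hx₁ y
  have hx₀ : (1 + q / 4)⁻¹ • x ∈ cS n 1 := by
    have := (smul_mem_cS (a := (1 + q / 4)⁻¹) (by positivity)).2 hx
    rwa [inv_mul_cancel₀ (by positivity)] at this
  have h2 := hc _ hx₀ y
  rw [Real.rpow_def_of_pos (Zs_pos p y), ← Real.exp_add, ← Real.exp_add, Real.exp_le_exp]
  have h7 : (1 : ℝ) - (1 - τ) = τ := by ring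
  rw [he, h7] at h1
  rw [smul_dotProduct, smul_eq_mul, h7] at h2
  have h3 := mul_le_mul_of_nonneg_left h1 (show 0 ≤ q / 2 by positivity)
  have h4 := mul_le_mul_of_nonneg_left h2 (show 0 ≤ 1 + q / 2 by positivity)
  have h5 : q / 2 * (c + p * τ * (1 / (n + 1) ^ 2 * ∑ i, |y i|)) =
      q / 2 * c + (p * q) * (τ / 2 * (1 / (n + 1) ^ 2) * ∑ i, |y i|) := by ring
  have h6 : (1 + q / 2) * (c + p * τ * ((1 + q / 4)⁻¹ * x ⬝ᵥ y)) =
      (1 + q / 2) * c + p * (x ⬝ᵥ y) := by
    have : (1 + q / 2) * (p * τ * ((1 + q / 4)⁻¹ * x ⬝ᵥ y)) =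
        p * ((τ * (1 + q / 2)) * (1 + q / 4)⁻¹) * x ⬝ᵥ y := by ring
    rw [mul_add, this, hτe, mul_inv_cancel₀ (by positivity), mul_one]
  rw [h5, hpq] at h3
  rw [h6] at h4
  unfold Zs
  linarith

lemma measurable_wt (p a : ℝ) : Measurable fun y : E n => Zs p y ^ a :=
  (measurable_Zs p).pow_const _

lemma integrable_wt {p : ℝ} (hp : 0 < p) : Integrable fun y : E n => Zs p y ^ (-(1 / p)) := by
  obtain ⟨C, κ, hκ, h⟩ := decay0 (n := n) hp
  refine ((integrable_exp_neg_sum hκ).const_mul C).mono' (measurable_wt p _).aestronglyMeasurable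
    (Eventually.of_forall fun y => ?_)
  rw [Real.norm_eq_abs, abs_of_pos (Real.rpow_pos_of_pos (Zs_pos p y) _)]
  exact h y

lemma integrable_coord_wt {p : ℝ} (hp : 0 < p) (i : Fin n) :
    Integrable fun y : E n => y i * Zs p y ^ (-(1 / p)) := by
  obtain ⟨C, κ, hκ, h⟩ := decay0 (n := n) hp
  refine ((integrable_exp_neg_sum (half_pos hκ)).const_mul (2 / κ * C)).mono'
    ((measurable_pi_apply i).mul (measurable_wt p _)).aestronglyMeasurable
    (Eventually.of_forall fun y => ?_)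
  rw [Real.norm_eq_abs, abs_mul, abs_of_pos (Real.rpow_pos_of_pos (Zs_pos p y) _)]
  have h1 : |y i| ≤ ∑ j, |y j| :=
    Finset.single_le_sum (f := fun j => |y j|) (fun j _ => abs_nonneg _) (Finset.mem_univ i)
  have h2 : κ / 2 * ∑ j, |y j| ≤ Real.exp (κ / 2 * ∑ j, |y j|) := by
    linarith [Real.add_one_le_exp (κ / 2 * ∑ j, |y j|)]
  have h3 : |y i| ≤ 2 / κ * Real.exp (κ / 2 * ∑ j, |y j|) := by
    rw [div_mul_eq_mul_div, le_div_iff₀ hκ]; nlinarith
  calc _ ≤ (2 / κ * Real.exp (κ / 2 * ∑ j, |y j|)) * (C * Real.exp (-κ * ∑ i, |y i|)) :=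
        mul_le_mul h3 (h y) (Real.rpow_pos_of_pos (Zs_pos p y) _).le (by positivity)
    _ = 2 / κ * C * (Real.exp (κ / 2 * ∑ j, |y j|) * Real.exp (-κ * ∑ i, |y i|)) := by ring
    _ = _ := by rw [← Real.exp_add]; ring_nf

lemma integrable_dot_wt {p : ℝ} (hp : 0 < p) (b : E n) :
    Integrable fun y : E n => (b ⬝ᵥ y) * Zs p y ^ (-(1 / p)) := by
  have := integrable_finsetSum Finset.univ fun i _ => (integrable_coord_wt hp i).const_mul (b i)
  refine this.congr (Eventually.of_forall fun y => ?_)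
  simp only
  rw [dotProduct, Finset.sum_mul]
  exact Finset.sum_congr rfl fun i _ => by ring

lemma Zs_adj (p : ℝ) (σ : Equiv.Perm (Fin (n + 1))) (y : E n) :
    Zs p (adj (Tp σ) y) = Zs p y := by
  have h1 := setIntegral_image_lin (Tp σ) (det_Tp_ne σ) (cS n 1) fun x => Real.exp (p * (x ⬝ᵥ y))
  have h2 : Tp σ '' cS n 1 = cS n 1 := by
    ext z
    constructor
    · rintro ⟨x, hx, rfl⟩; exact (Tp_mem_cS σ).2 hx
    · intro hz
      exact ⟨Tp σ⁻¹ z, (Tp_mem_cS _).2 hz, by rw [Tp_Tp, inv_mul_cancel, Tp_one]⟩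
  rw [h2, abs_det_Tp, one_mul] at h1
  simp only [Zs, Lap, ← dot_adj, h1]

lemma integral_comp_adj (σ : Equiv.Perm (Fin (n + 1))) (f : E n → ℝ) :
    ∫ y, f (adj (Tp σ) y) = ∫ y, f y :=
  (measurePreserving_lin _ (by rw [det_adj, abs_det_Tp])).integral_comp
    (measurableEmbedding_lin _ (by rw [det_adj]; exact det_Tp_ne σ)) f

lemma integral_dot_wt {p : ℝ} (hp : 0 < p) (b : E n) :
    ∫ y : E n, (b ⬝ᵥ y) * Zs p y ^ (-(1 / p)) = 0 := by
  have h1 : ∀ i : Fin n, ∫ y : E n, y i * Zs p y ^ (-(1 / p)) = 0 := by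
    intro i
    have h2 := integral_comp_adj (Equiv.swap 0 i.succ)
      fun y : E n => ((Pi.single i 1 : E n) ⬝ᵥ y) * Zs p y ^ (-(1 / p))
    have h3 : Tp (Equiv.swap 0 i.succ) (Pi.single i 1 : E n) = -Pi.single i 1 := by
      ext j
      change bet n _ (Equiv.swap 0 i.succ j.succ) = _
      by_cases hj : j = i
      · subst hj; simp
      · rw [Equiv.swap_apply_of_ne_of_ne (Fin.succ_ne_zero j) (by simpa using hj)]
        simp [hj]
    simp only [Zs_adj, ← dot_adj, h3] at h2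
    simp only [neg_dotProduct, single_dotProduct, one_mul, neg_mul, integral_neg] at h2
    linarith
  have h4 : ∀ y : E n, (b ⬝ᵥ y) * Zs p y ^ (-(1 / p)) = ∑ i, b i * (y i * Zs p y ^ (-(1 / p))) := by
    intro y
    rw [dotProduct, Finset.sum_mul]
    exact Finset.sum_congr rfl fun i _ => by ring
  simp_rw [h4]
  rw [integral_finsetSum _ fun i _ => (integrable_coord_wt hp i).const_mul (b i)]
  simp [integral_const_mul, h1, -one_div]

/-- the dual potential -/
noncomputable def Psi (p : ℝ) (x : E n) : ℝ :=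
  ∫ y : E n, Real.exp (p * (x ⬝ᵥ y)) * Zs p y ^ (-(1 / p) - 1)

lemma measurable_ker (p : ℝ) : Measurable fun q : E n × E n =>
    Real.exp (p * (q.1 ⬝ᵥ q.2)) * Zs p q.2 ^ (-(1 / p) - 1) := by
  refine Measurable.mul ?_ ((measurable_wt p _).comp measurable_snd)
  unfold dotProduct; fun_prop

lemma ker_pos (p : ℝ) (x y : E n) : 0 < Real.exp (p * (x ⬝ᵥ y)) * Zs p y ^ (-(1 / p) - 1) :=
  mul_pos (Real.exp_pos _) (Real.rpow_pos_of_pos (Zs_pos p y) _)

lemma measurable_Psi (p : ℝ) : Measurable (Psi (n := n) p) :=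
  ((measurable_ker p).stronglyMeasurable.integral_prod_right' (ν := volume)).measurable

lemma integrable_ker {p : ℝ} (hp : 0 < p) {x : E n} (hx : x ∈ cS n (1 + 1 / p / 4)) :
    Integrable fun y : E n => Real.exp (p * (x ⬝ᵥ y)) * Zs p y ^ (-(1 / p) - 1) := by
  obtain ⟨C, κ, hκ, h⟩ := decay (n := n) hp
  refine ((integrable_exp_neg_sum hκ).const_mul C).mono'
    ((measurable_ker p).comp (measurable_const.prodMk measurable_id)).aestronglyMeasurable
    (Eventually.of_forall fun y => ?_)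
  rw [Real.norm_eq_abs, abs_of_pos (ker_pos p x y)]
  exact h x hx y

lemma Psi_pos {p : ℝ} (hp : 0 < p) {x : E n} (hx : x ∈ cS n (1 + 1 / p / 4)) : 0 < Psi p x := by
  refine (integral_pos_iff_support_of_nonneg (fun y => (ker_pos p x y).le)
    (integrable_ker hp hx)).2 ?_
  have : Function.support (fun y : E n => Real.exp (p * (x ⬝ᵥ y)) * Zs p y ^ (-(1 / p) - 1)) =
    univ := eq_univ_of_forall fun y => (ker_pos p x y).ne'
  rw [this]
  exact isOpen_univ.measure_pos _ univ_nonempty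

lemma continuousOn_Psi {p : ℝ} (hp : 0 < p) : ContinuousOn (Psi p) (cS n (1 + 1 / p / 4)) := by
  obtain ⟨C, κ, hκ, h⟩ := decay (n := n) hp
  refine continuousOn_of_dominated (μ := volume)
    (F := fun x y : E n => Real.exp (p * (x ⬝ᵥ y)) * Zs p y ^ (-(1 / p) - 1))
    (bound := fun y => C * Real.exp (-κ * ∑ i, |y i|))
    (fun x hx => (integrable_ker hp hx).aestronglyMeasurable)
    (fun x hx => Eventually.of_forall fun y => ?_) ((integrable_exp_neg_sum hκ).const_mul C)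
    (Eventually.of_forall fun y => ?_)
  · rw [Real.norm_eq_abs, abs_of_pos (ker_pos p x y)]
    exact h x hx y
  · exact ((continuous_exp_dot p y).mul continuous_const).continuousOn

lemma Psi_Tp (p : ℝ) (σ : Equiv.Perm (Fin (n + 1))) (x : E n) : Psi p (Tp σ x) = Psi p x := by
  have := integral_comp_adj σ fun y : E n => Real.exp (p * (x ⬝ᵥ y)) * Zs p y ^ (-(1 / p) - 1)
  simp only [Zs_adj, ← dot_adj] at this
  exact this

lemma volume_dot_eq_zero {v : E n} (hv : v ≠ 0) : volume {y : E n | v ⬝ᵥ y = 0} = 0 := by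
  let f : E n →ₗ[ℝ] ℝ := ⟨⟨fun y => v ⬝ᵥ y, dotProduct_add v⟩, fun a y => by simp⟩
  have h1 : {y : E n | v ⬝ᵥ y = 0} = (LinearMap.ker f : Set (E n)) := rfl
  rw [h1]
  refine Measure.addHaar_submodule volume _ fun h => hv ?_
  have h2 : v ∈ LinearMap.ker f := by rw [h]; trivial
  exact dotProduct_self_eq_zero.1 h2

lemma strictConvexOn_Psi {p : ℝ} (hp : 0 < p) : StrictConvexOn ℝ (cS n 1) (Psi p) := by
  have hR : (1 : ℝ) ≤ 1 + 1 / p / 4 := le_add_of_nonneg_right (by positivity)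
  refine ⟨convex_cS 1, fun x hx z hz hne a b ha hb hab => ?_⟩
  have ix := integrable_ker hp (cS_mono hR hx)
  have iz := integrable_ker hp (cS_mono hR hz)
  have ixz := integrable_ker hp (cS_mono hR (convex_cS 1 hx hz ha.le hb.le hab))
  rw [← sub_pos, smul_eq_mul, smul_eq_mul, Psi, Psi, Psi, ← integral_const_mul,
    ← integral_const_mul, ← integral_add (ix.const_mul a) (iz.const_mul b),
    ← integral_sub (f := fun y => a * (Real.exp (p * (x ⬝ᵥ y)) * Zs p y ^ (-(1 / p) - 1)) +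
      b * (Real.exp (p * (z ⬝ᵥ y)) * Zs p y ^ (-(1 / p) - 1)))
      ((ix.const_mul a).add (iz.const_mul b)) ixz]
  have he : ∀ y : E n, p * ((a • x + b • z) ⬝ᵥ y) = a • (p * (x ⬝ᵥ y)) + b • (p * (z ⬝ᵥ y)) := by
    intro y; simp [add_dotProduct, smul_dotProduct]; ring
  have hpos : ∀ y : E n, (x - z) ⬝ᵥ y ≠ 0 → 0 <
      a * (Real.exp (p * (x ⬝ᵥ y)) * Zs p y ^ (-(1 / p) - 1)) +
      b * (Real.exp (p * (z ⬝ᵥ y)) * Zs p y ^ (-(1 / p) - 1)) -
      Real.exp (p * ((a • x + b • z) ⬝ᵥ y)) * Zs p y ^ (-(1 / p) - 1) := by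
    intro y hy
    have h1 := strictConvexOn_exp.2 (mem_univ (p * (x ⬝ᵥ y))) (mem_univ (p * (z ⬝ᵥ y)))
      (fun h => hy (by rw [sub_dotProduct, sub_eq_zero]; exact mul_left_cancel₀ hp.ne' h))
      ha hb hab
    rw [← he] at h1
    have h2 := Real.rpow_pos_of_pos (Zs_pos p y) (-(1 / p) - 1)
    simp only [smul_eq_mul] at h1
    nlinarith
  have hae : ∀ᵐ y : E n, (x - z) ⬝ᵥ y ≠ 0 := by
    rw [ae_iff]; simpa using volume_dot_eq_zero (sub_ne_zero.2 hne)
  refine (integral_pos_iff_support_of_nonneg_ae ?_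
    (((ix.const_mul a).add (iz.const_mul b)).sub ixz)).2 ?_
  · filter_upwards [hae] with y hy using (hpos y hy).le
  · rw [pos_iff_ne_zero]
    intro h0
    have h1 : ∀ᵐ y : E n, False := by
      filter_upwards [hae, measure_eq_zero_iff_ae_notMem.1 h0] with y hy hy'
      exact hy' (hpos y hy).ne'
    exact NeZero.ne (volume : Measure (E n)) (by simpa using h1)

lemma nice_Psi {m : ℕ} {p : ℝ} (hp : 0 < p) : Nice m (1 + 1 / p / 4) (Psi p) :=
  ⟨lt_add_of_pos_right _ (by positivity), measurable_Psi p, continuousOn_Psi hp,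
    fun _ hz => Psi_pos hp hz, Psi_Tp p, strictConvexOn_Psi hp⟩

lemma integrable_ker_prod {p : ℝ} (hp : 0 < p) {L : Set (E n)} (hLm : MeasurableSet L)
    (hL : L ⊆ cS n (1 + 1 / p / 4)) :
    Integrable (fun q : E n × E n => Real.exp (p * (q.1 ⬝ᵥ q.2)) * Zs p q.2 ^ (-(1 / p) - 1))
      ((volume.restrict L).prod volume) := by
  obtain ⟨C, κ, hκ, h⟩ := decay (n := n) hp
  have hfin : volume L ≠ ∞ :=
    ne_top_of_le_ne_top (volume_cS_lt_top (by positivity)).ne (measure_mono hL)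
  have h1 : Integrable (fun q : E n × E n => (fun _ : E n => C) q.1 *
      (fun y : E n => Real.exp (-κ * ∑ i, |y i|)) q.2) ((volume.restrict L).prod volume) :=
    Integrable.mul_prod (integrableOn_const (C := C) hfin) (integrable_exp_neg_sum hκ)
  refine h1.mono' (measurable_ker p).aestronglyMeasurable ?_
  filter_upwards [Measure.quasiMeasurePreserving_fst.ae (ae_restrict_mem hLm)] with q hq
  rw [Real.norm_eq_abs, abs_of_pos (ker_pos p _ _)]
  exact h _ (hL hq) _

lemma integrable_Lap_wt {p : ℝ} (hp : 0 < p) {L : Set (E n)} (hLm : MeasurableSet L)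
    (hL : L ⊆ cS n (1 + 1 / p / 4)) :
    Integrable fun y => Lap p L y * Zs p y ^ (-(1 / p) - 1) := by
  have := (integrable_ker_prod hp hLm hL).integral_prod_right
  simp only [integral_mul_const] at this
  exact this

lemma integral_Lap_wt {p : ℝ} (hp : 0 < p) {L : Set (E n)} (hLm : MeasurableSet L)
    (hL : L ⊆ cS n (1 + 1 / p / 4)) :
    ∫ y, Lap p L y * Zs p y ^ (-(1 / p) - 1) = ∫ x in L, Psi p x := by
  have := integral_integral_swap (f := fun x y : E n =>
    Real.exp (p * (x ⬝ᵥ y)) * Zs p y ^ (-(1 / p) - 1)) (integrable_ker_prod hp hLm hL)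
  simp only [integral_mul_const] at this
  exact this.symm

end Pool.Agent.MP_5f4cdd_gt

end
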